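import Pool.Agent.Lib.MP_823829_an.Defs

/-! Elementary geometry of shells and Hartogs figures. -/

namespace Pool.Agent.Lib.MP_823829_an

open Set Metric Filter MeasureTheory
open scoped Topology ENNReal NNReal ContDiff ComplexConjugate

theorem isOpen_shell (ρ₁ ρ₂ : ℝ) : IsOpen (shell ρ₁ ρ₂) :=
  isOpen_ball.sdiff isClosed_closedBall

theorem mem_shell {ρ₁ ρ₂ : ℝ} {w : C2} : w ∈ shell ρ₁ ρ₂ ↔ ρ₁ < ‖w‖ ∧ ‖w‖ < ρ₂ := by
  simp [shell, and_comm]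

theorem shell_subset (ρ₁ ρ₂ : ℝ) : shell ρ₁ ρ₂ ⊆ ball 0 ρ₂ := sdiff_subset

theorem shell_nonempty {ρ₁ ρ₂ : ℝ} (h0 : 0 < ρ₁) (h : ρ₁ < ρ₂) : (shell ρ₁ ρ₂).Nonempty := by
  obtain ⟨w, hw⟩ := exists_norm_eq C2 (c := (ρ₁ + ρ₂) / 2) (by linarith)
  exact ⟨w, mem_shell.2 ⟨by linarith, by linarith⟩⟩

theorem isPreconnected_shell {ρ₁ ρ₂ : ℝ} (h0 : 0 < ρ₁) : IsPreconnected (shell ρ₁ ρ₂) := by
  have hr : 1 < Module.rank ℝ C2 := by
    rw [← Module.finrank_eq_rank]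
    simp [Module.finrank_pi_fintype]
  have he : shell ρ₁ ρ₂ = (fun p : ℝ × C2 => p.1 • p.2) '' (Ioo ρ₁ ρ₂ ×ˢ sphere 0 1) := by
    ext w
    rw [mem_shell]
    constructor
    · intro hw
      have hp : ‖w‖ ≠ 0 := (h0.trans hw.1).ne'
      exact ⟨(‖w‖, ‖w‖⁻¹ • w), ⟨hw, by simp [norm_smul, hp]⟩, by simp [smul_smul, hp]⟩
    · rintro ⟨⟨t, v⟩, ⟨ht, hv⟩, rfl⟩
      have : ‖t • v‖ = t := by
        rw [norm_smul, mem_sphere_zero_iff_norm.1 hv, mul_one, Real.norm_of_nonneg (h0.trans ht.1).le]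
      simpa only [this, mem_Ioo] using ht
  rw [he]
  exact (isPreconnected_Ioo.prod (isPreconnected_sphere hr 0 1)).image _ (by fun_prop)

theorem isOpen_hart (r₀ R₀ r : ℝ) : IsOpen (hart r₀ R₀ r) :=
  (isOpen_ball.prod isOpen_ball).union (isOpen_ball.prod (isOpen_shell _ _))

theorem isPreconnected_hart {r₀ R₀ r : ℝ} (h0 : 0 < r₀) (hR : r₀ ≤ R₀) (hr : 0 < r)
    (hr1 : r < 1) : IsPreconnected (hart r₀ R₀ r) := by
  obtain ⟨w, hw⟩ := shell_nonempty hr hr1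
  exact IsPreconnected.union (0, w) ⟨mem_ball_self h0, shell_subset _ _ hw⟩
    ⟨mem_ball_self (h0.trans_le hR), hw⟩
    ((convex_ball _ _).isPreconnected.prod (convex_ball _ _).isPreconnected)
    ((convex_ball _ _).isPreconnected.prod (isPreconnected_shell hr))

theorem hartogs_eq (r : ℝ) : hartogs r = hart (1 - r) 1 r := rfl

theorem hartogs_subset {r : ℝ} (hr : 0 < r) : hartogs r ⊆ polydisc :=
  union_subset (prod_mono_left (ball_subset_ball (by linarith))) (prod_mono_right sdiff_subset)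

theorem isOpen_polydisc : IsOpen polydisc := isOpen_ball.prod isOpen_ball

theorem convex_polydisc : Convex ℝ polydisc := (convex_ball _ _).prod (convex_ball _ _)

/-- A smooth bump with values in the unit interval. -/
theorem exists_bump {V : Type} [NormedAddCommGroup V] [NormedSpace ℝ V] [FiniteDimensional ℝ V]
    {K U : Set V} (hK : IsCompact K) (hU : IsOpen U) (hs : K ⊆ U) :
    ∃ ϱ : V → ℝ, ContDiff ℝ ∞ ϱ ∧ HasCompactSupport ϱ ∧ tsupport ϱ ⊆ U ∧ (∀ y ∈ K, ϱ y = 1) ∧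
      ∀ y, 0 ≤ ϱ y ∧ ϱ y ≤ 1 := by
  have := FiniteDimensional.proper ℝ V
  obtain ⟨L, hL, h1, h2⟩ := exists_compact_between hK hU hs
  obtain ⟨f, f1, f0, f2⟩ := exists_contMDiffMap_one_nhds_of_subset_interior (n := ⊤)
    (modelWithCornersSelf ℝ V) hK.isClosed h1
  have ht : tsupport f ⊆ L :=
    closure_minimal (fun x hx => by_contra fun h => hx (f0 x h)) hL.isClosed
  exact ⟨f, f.contMDiff.contDiff, hL.of_isClosed_subset (isClosed_tsupport _) ht, ht.trans h2,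
    fun y hy => f1.self_of_nhdsSet y hy, f2⟩

theorem exists_cut {ρ₃ ρ₂ : ℝ} (h0 : 0 < ρ₃) (h : ρ₃ < ρ₂) : ∃ χ : C2 → ℝ, Cut χ ρ₃ ρ₂ := by
  have _ := h0
  obtain ⟨χ, h1, h2, h3, h4, -⟩ := exists_bump (isCompact_closedBall (0 : C2) ρ₃) isOpen_ball
    (closedBall_subset_ball h)
  exact ⟨χ, h1, fun w hw => h4 w (ball_subset_closedBall hw), h2, h3⟩

theorem Cut.fderiv_mem {χ : C2 → ℝ} {ρ₃ ρ₂ : ℝ} (h : Cut χ ρ₃ ρ₂) {w : C2}
    (hw : fderiv ℝ χ w ≠ 0) : w ∈ tsupport χ \ ball 0 ρ₃ := by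
  refine ⟨support_fderiv_subset ℝ hw, fun hb => hw ?_⟩
  have : χ =ᶠ[𝓝 w] fun _ => 1 := eventually_of_mem (isOpen_ball.mem_nhds hb) h.one
  rw [this.fderiv_eq]
  exact fderiv_const_apply 1

theorem Cut.subset_shell {χ : C2 → ℝ} {ρ₁ ρ₃ ρ₂ : ℝ} (h : Cut χ ρ₃ ρ₂) (h1 : ρ₁ < ρ₃) :
    tsupport χ \ ball 0 ρ₃ ⊆ shell ρ₁ ρ₂ ∧ IsCompact (tsupport χ \ ball 0 ρ₃) :=
  ⟨fun _ hw => ⟨h.supp hw.1, fun hb => hw.2 (closedBall_subset_ball h1 hb)⟩,
    h.cpt.isCompact.diff isOpen_ball⟩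

/-- The linear map `w ↦ w₀ a + w₁ b`. -/
noncomputable def geo_aux_lin (a b : C2) : C2 →L[ℂ] C2 :=
  (ContinuousLinearMap.proj 0 : C2 →L[ℂ] ℂ).smulRight a +
    (ContinuousLinearMap.proj 1 : C2 →L[ℂ] ℂ).smulRight b

theorem geo_aux_lin_apply (a b w : C2) : geo_aux_lin a b w = w 0 • a + w 1 • b := rfl

/-- The tilt as a linear automorphism of the total space. -/
theorem exists_tilt_equiv (a b : C2) : ∃ Φ : C4 ≃L[ℂ] C4,
    ∀ p, Φ p = (p.1 - p.2 0 • a - p.2 1 • b, p.2) ∧ Φ.symm p = (tilt a b p, p.2) := by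
  refine ⟨ContinuousLinearEquiv.equivOfInverse
    ((ContinuousLinearMap.fst ℂ C2 C2 - geo_aux_lin a b ∘L ContinuousLinearMap.snd ℂ C2 C2).prod
      (ContinuousLinearMap.snd ℂ C2 C2))
    ((ContinuousLinearMap.fst ℂ C2 C2 + geo_aux_lin a b ∘L ContinuousLinearMap.snd ℂ C2 C2).prod
      (ContinuousLinearMap.snd ℂ C2 C2)) (fun p => by simp) (fun p => by simp), fun p => ?_⟩
  constructor
  · simp [geo_aux_lin_apply, sub_sub]
  · simp [geo_aux_lin_apply, tilt, add_assoc]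

theorem exists_tilt_clm (a b : C2) : ∃ Q : C4 →L[ℂ] C2,
    (∀ p, Q p = tilt a b p) ∧ Function.Surjective Q :=
  ⟨ContinuousLinearMap.fst ℂ C2 C2 + geo_aux_lin a b ∘L ContinuousLinearMap.snd ℂ C2 C2,
    fun p => by simp [geo_aux_lin_apply, tilt, add_assoc], fun z => ⟨(z, 0), by simp⟩⟩

theorem norm_tilt_sub_le {a b : C2} {η : ℝ} (ha : ‖a‖ ≤ η) (hb : ‖b‖ ≤ η) (p : C4)
    (hp : ‖p.2‖ ≤ 1) : ‖tilt a b p - p.1‖ ≤ 2 * η := by
  have key : ∀ (j : Fin 2) (c : C2), ‖c‖ ≤ η → ‖p.2 j • c‖ ≤ η := fun j c hc => by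
    rw [norm_smul]
    exact (mul_le_of_le_one_left (norm_nonneg _) ((norm_le_pi_norm _ j).trans hp)).trans hc
  have : tilt a b p - p.1 = p.2 0 • a + p.2 1 • b := by
    rw [tilt]; abel
  rw [this]
  exact (norm_add_le _ _).trans (by linarith [key 0 a ha, key 1 b hb])

end Pool.Agent.Lib.MP_823829_an
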