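import Pool.Agent.Lib.MP_823829_an.An

/-! Extension and uniqueness from the two-constants property. -/

namespace Pool.Agent.Lib.MP_823829_an

open Set Metric Filter MeasureTheory
open scoped Topology ENNReal NNReal ContDiff ComplexConjugate

theorem REG.mono {K K' : Set C2} {s : C2} (h : REG K s) (hs : K ⊆ K') : REG K' s := by
  intro V hV hsV ε hε
  obtain ⟨V', h1, h2, h3, h4⟩ := h V hV hsV ε hε
  exact ⟨V', h1, h2, h3, fun k a hk ha hb hc =>
    h4 k a hk ha hb fun z hz => hc z ⟨hs hz.1, hz.2⟩⟩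

theorem REG.inter_nhds {K N : Set C2} {s : C2} (h : REG K s) (hN : N ∈ 𝓝 s) :
    REG (K ∩ N) s := by
  intro V hV hsV ε hε
  obtain ⟨V', h1, h2, h3, h4⟩ := h (V ∩ interior N) (hV.inter isOpen_interior)
    ⟨hsV, mem_interior_iff_mem_nhds.2 hN⟩ ε hε
  exact ⟨V', h1, h2, h3.trans inter_subset_left, fun k a hk ha hb hc =>
    h4 k a hk (ha.mono inter_subset_left) (fun z hz => hb z hz.1)
      fun z hz => hc z ⟨⟨hz.1, interior_subset hz.2.2⟩, hz.2.1⟩⟩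

theorem RF.self {F : Filter C2} {s : C2} (h : RF F s) {P : C2 → Prop} (hP : ∀ᶠ z in F, P z) :
    P s := h.mem _ hP

/-- The Taylor coefficient computed on the circle of radius `r`. -/
noncomputable def tc_coef (f : ℂ → ℂ) (r : ℝ) (k : ℕ) : ℂ :=
  (2 * Real.pi * Complex.I : ℂ)⁻¹ • ∮ τ in C(0, r), ((1 : ℂ) / (τ - 0)) ^ k • (τ - 0)⁻¹ • f τ

theorem tc_aux_norm {f : ℂ → ℂ} {r M : ℝ} (hr : 0 < r) (hf : ∀ τ ∈ sphere (0 : ℂ) r, ‖f τ‖ ≤ M)
    (k : ℕ) : ‖tc_coef f r k‖ ≤ M / r ^ k := by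
  have h := circleIntegral.norm_two_pi_i_inv_smul_integral_le_of_norm_le_const
    (f := fun τ : ℂ => ((1 : ℂ) / (τ - 0)) ^ k • (τ - 0)⁻¹ • f τ) (c := 0) (R := r)
    (C := (1 / r) ^ k * (r⁻¹ * M)) hr.le (fun τ hτ => by
      have h1 : ‖τ‖ = r := by simpa using hτ
      rw [norm_smul, norm_smul, norm_pow, norm_div, norm_inv, sub_zero, h1, norm_one]
      gcongr
      exact hf τ hτ)
  refine h.trans (le_of_eq ?_)
  rw [one_div, inv_pow]
  field_simp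

theorem tc_aux_congr {f g : ℂ → ℂ} {r : ℝ} (hr : 0 ≤ r) (h : ∀ τ ∈ sphere (0 : ℂ) r, f τ = g τ)
    (k : ℕ) : tc_coef f r k = tc_coef g r k := by
  unfold tc_coef
  congr 1
  exact circleIntegral.integral_congr hr fun τ hτ => by simp only [h τ hτ]

theorem tc_aux_series {f : ℂ → ℂ} {r : ℝ} (hr : 0 < r)
    (hf : DifferentiableOn ℂ f (closedBall 0 r)) :
    HasFPowerSeriesOnBall f (cauchyPowerSeries f 0 r) 0 (ENNReal.ofReal r) := by
  have h := DifferentiableOn.hasFPowerSeriesOnBall (R := ⟨r, hr.le⟩) (c := 0) (f := f) hf hr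
  rw [ENNReal.ofReal_eq_coe_nnreal hr.le]
  exact h

theorem tc_aux_radius {f : ℂ → ℂ} {r ρ : ℝ} (hr : 0 < r) (hρ : r ≤ ρ)
    (hf : DifferentiableOn ℂ f (closedBall 0 ρ)) (k : ℕ) : tc_coef f r k = tc_coef f ρ k := by
  have h1 := tc_aux_series hr (hf.mono (closedBall_subset_closedBall hρ))
  have h2 := tc_aux_series (hr.trans_le hρ) hf
  have h3 := h1.hasFPowerSeriesAt.eq_formalMultilinearSeries h2.hasFPowerSeriesAt
  unfold tc_coef
  rw [← cauchyPowerSeries_apply, ← cauchyPowerSeries_apply, h3]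

theorem tc_aux_hasSum {f : ℂ → ℂ} {ρ : ℝ} (hρ : 1 < ρ)
    (hf : DifferentiableOn ℂ f (closedBall 0 ρ)) : HasSum (fun k => tc_coef f ρ k) (f 1) := by
  have h2 := tc_aux_series (one_pos.trans hρ) hf
  have h3 := h2.hasSum (y := 1) (by
    rw [mem_eball_zero_iff, enorm_one, ← ENNReal.ofReal_one]
    exact (ENNReal.ofReal_lt_ofReal_iff (one_pos.trans hρ)).2 hρ)
  simp only [cauchyPowerSeries_apply, zero_add] at h3
  exact h3

variable {P : Type} [NormedAddCommGroup P] [NormedSpace ℂ P] [FiniteDimensional ℂ P]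

theorem tc_aux_mem {t₁ t : P} {R' r δ : ℝ} (ht : t ∈ ball t₁ R') {τ : ℂ} (hτ : ‖τ‖ ≤ r)
    (hR' : 0 < R') (h : r * R' < δ) : t₁ + τ • (t - t₁) ∈ ball t₁ δ := by
  rw [mem_ball_iff_norm] at ht ⊢
  rw [add_sub_cancel_left, norm_smul]
  calc ‖τ‖ * ‖t - t₁‖ ≤ r * R' :=
        mul_le_mul hτ ht.le (norm_nonneg _) ((norm_nonneg _).trans hτ)
    _ < δ := h

theorem tc_aux_hol {V : Set C2} (hV : IsOpen V) {t₁ : P} {δ R' r : ℝ} (hr : 0 < r) (hR' : 0 < R')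
    (h : r * R' < δ) {Φ : C2 × P → ℂ} (hΦ : DifferentiableOn ℂ Φ (V ×ˢ ball t₁ δ)) (k : ℕ) :
    DifferentiableOn ℂ
      (fun p : C2 × P => tc_coef (fun τ => Φ (p.1, t₁ + τ • (p.2 - t₁))) r k)
      (V ×ˢ ball t₁ R') := by
  let G : (C2 × P) × ℂ → C2 × P := fun q => (q.1.1, t₁ + q.2 • (q.1.2 - t₁))
  have hG : Differentiable ℂ G := by
    unfold G
    fun_prop
  let W : Set ((C2 × P) × ℂ) := G ⁻¹' (V ×ˢ ball t₁ δ) ∩ {q | q.2 ≠ 0}
  have hW : IsOpen W := ((hV.prod isOpen_ball).preimage hG.continuous).inter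
    (isOpen_ne_fun continuous_snd continuous_const)
  have h1 : DifferentiableOn ℂ
      (fun q : (C2 × P) × ℂ => ((1 : ℂ) / (q.2 - 0)) ^ k • (q.2 - 0)⁻¹ • Φ (G q)) W := by
    have h2 : DifferentiableOn ℂ (fun q : (C2 × P) × ℂ => Φ (G q)) W :=
      hΦ.comp hG.differentiableOn fun q hq => hq.1
    have h3 : DifferentiableOn ℂ (fun q : (C2 × P) × ℂ => (q.2 - 0)⁻¹) W :=
      (differentiableOn_snd.sub_const 0).inv fun q hq => by simpa using hq.2
    have h4 : DifferentiableOn ℂ (fun q : (C2 × P) × ℂ => ((1 : ℂ) / (q.2 - 0)) ^ k) W := by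
      simp only [one_div]
      exact h3.pow k
    exact h4.smul (h3.smul h2)
  have h5 := hol_circle hW h1 (hV.prod (isOpen_ball (x := t₁) (ε := R'))) (c := 0) hr.le
    (fun p hp τ hτ => by
      have h6 : ‖τ‖ = r := by simpa using hτ
      refine ⟨⟨hp.1, tc_aux_mem hp.2 h6.le hR' h⟩, ?_⟩
      intro h7
      have h8 : τ = 0 := h7
      rw [h8, norm_zero] at h6
      exact hr.ne h6)
  exact h5.const_smul (2 * Real.pi * Complex.I : ℂ)⁻¹

theorem tc {F : Filter C2} {s : C2} (hF : RF F s) {V : Set C2} (hV : IsOpen V) (hs : s ∈ V)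
    {t₁ : P} {ε R R' : ℝ} (hε : 0 < ε) (hεR : ε ≤ R) (hR : R' < R) {Φ : C2 × P → ℂ}
    (hΦ : DifferentiableOn ℂ Φ (V ×ˢ ball t₁ ε)) {Ψ : C2 → P → ℂ} {M : ℝ}
    (hΨ : ∀ᶠ z in F, DifferentiableOn ℂ (Ψ z) (ball t₁ R) ∧ (∀ t ∈ ball t₁ R, ‖Ψ z t‖ ≤ M) ∧
      ∀ t ∈ ball t₁ ε, Ψ z t = Φ (z, t)) :
    ∃ V' : Set C2, IsOpen V' ∧ s ∈ V' ∧ ∃ Φ' : C2 × P → ℂ,
      DifferentiableOn ℂ Φ' (V' ×ˢ ball t₁ R') ∧
        ∀ᶠ z in F, ∀ t ∈ ball t₁ R', Φ' (z, t) = Ψ z t := by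
  rcases le_or_gt R' 0 with hR' | hR'
  · refine ⟨V, hV, hs, fun _ => 0, differentiableOn_const _, Eventually.of_forall fun z t ht => ?_⟩
    rw [ball_eq_empty.2 hR'] at ht
    exact absurd ht (notMem_empty _)
  have hR0 : 0 < R := hε.trans_le hεR
  -- shrink so that `Φ` is bounded
  have hop : IsOpen (V ×ˢ ball t₁ ε) := hV.prod isOpen_ball
  have hm : (s, t₁) ∈ V ×ˢ ball t₁ ε := ⟨hs, mem_ball_self hε⟩
  have hc : ContinuousAt Φ (s, t₁) := hΦ.continuousOn.continuousAt (hop.mem_nhds hm)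
  have hev : ∀ᶠ p in 𝓝 (s, t₁), p ∈ V ×ˢ ball t₁ ε ∧ ‖Φ p‖ < ‖Φ (s, t₁)‖ + 1 :=
    (hop.eventually_mem hm).and (hc.norm.eventually (gt_mem_nhds (lt_add_one _)))
  obtain ⟨δ₀, hδ₀, hδ⟩ := Metric.eventually_nhds_iff_ball.1 hev
  set δ := min δ₀ ε with hδdef
  have hδ0 : 0 < δ := lt_min hδ₀ hε
  have hδε : δ ≤ ε := min_le_right _ _
  have hsub : ∀ p ∈ ball s δ ×ˢ ball t₁ δ, p ∈ V ×ˢ ball t₁ ε ∧ ‖Φ p‖ < ‖Φ (s, t₁)‖ + 1 := by
    intro p hp
    apply hδ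
    rw [← ball_prod_same]
    exact ⟨ball_subset_ball (min_le_left _ _) hp.1, ball_subset_ball (min_le_left _ _) hp.2⟩
  set M' := max M (‖Φ (s, t₁)‖ + 1) with hM'
  have hM0 : 0 < M' := lt_max_of_lt_right (by positivity)
  set r := δ / (2 * R) with hr
  have hr0 : 0 < r := by positivity
  have hrR : r * R' < δ := by
    rw [hr, div_mul_eq_mul_div, div_lt_iff₀ (by positivity)]
    nlinarith
  have hr1 : r ≤ 1 := by
    rw [hr, div_le_one (by positivity)]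
    linarith
  set ρ := (R + R') / (2 * R') with hρ
  have hρ1 : 1 < ρ := by
    rw [hρ, one_lt_div (by positivity)]
    linarith
  have hρ0 : 0 < ρ := one_pos.trans hρ1
  have hρR : ρ * R' < R := by
    have : ρ * R' = (R + R') / 2 := by rw [hρ]; field_simp
    linarith
  let a : ℕ → C2 × P → ℂ := fun k p => tc_coef (fun τ => Φ (p.1, t₁ + τ • (p.2 - t₁))) r k
  have ha : ∀ k, DifferentiableOn ℂ (a k) (ball s δ ×ˢ ball t₁ R') := fun k =>
    tc_aux_hol isOpen_ball hr0 hR' hrR (hΦ.mono fun p hp => (hsub p hp).1) k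
  have hb : ∀ k, ∀ p ∈ ball s δ ×ˢ ball t₁ R', ‖a k p‖ ≤ M' / r ^ k := by
    intro k p hp
    refine tc_aux_norm hr0 (fun τ hτ => ?_) k
    have h6 : ‖τ‖ = r := by simpa using hτ
    exact (hsub (p.1, t₁ + τ • (p.2 - t₁)) ⟨hp.1, tc_aux_mem hp.2 h6.le hR' hrR⟩).2.le.trans
      (le_max_right _ _)
  set K : Set C2 := {z | DifferentiableOn ℂ (Ψ z) (ball t₁ R) ∧ (∀ t ∈ ball t₁ R, ‖Ψ z t‖ ≤ M) ∧
      ∀ t ∈ ball t₁ ε, Ψ z t = Φ (z, t)} with hK
  have hKF : K ∈ F := hΨ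
  have hK1 : ∀ z ∈ K, ∀ t ∈ ball t₁ R',
      (∀ k, ‖a k (z, t)‖ ≤ M' / ρ ^ k) ∧ HasSum (fun k => a k (z, t)) (Ψ z t) := by
    intro z hz t ht
    have hd : DifferentiableOn ℂ (fun τ : ℂ => Ψ z (t₁ + τ • (t - t₁))) (closedBall 0 ρ) := by
      refine hz.1.comp (by fun_prop) fun τ hτ => ?_
      exact tc_aux_mem ht (by simpa using hτ) hR' hρR
    have he : ∀ k, a k (z, t) = tc_coef (fun τ : ℂ => Ψ z (t₁ + τ • (t - t₁))) ρ k := by
      intro k
      rw [← tc_aux_radius hr0 (hr1.trans hρ1.le) hd k]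
      refine tc_aux_congr hr0.le (fun τ hτ => ?_) k
      have h6 : ‖τ‖ = r := by simpa using hτ
      exact (hz.2.2 _ (tc_aux_mem ht h6.le hR' (hrR.trans_le hδε))).symm
    refine ⟨fun k => ?_, ?_⟩
    · rw [he]
      refine tc_aux_norm hρ0 (fun τ hτ => ?_) k
      have h6 : ‖τ‖ = ρ := by simpa using hτ
      exact (hz.2.1 _ (tc_aux_mem ht h6.le hR' hρR)).trans (le_max_left _ _)
    · have h7 := tc_aux_hasSum hρ1 hd
      simp only [one_smul, add_sub_cancel] at h7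
      simp only [he]
      exact h7
  -- the exponents
  obtain ⟨κ, hκ⟩ := exists_nat_gt (ρ / r)
  have hκ0 : (0 : ℝ) < κ := lt_trans (by positivity) hκ
  have hκ1 : 1 ≤ κ := by exact_mod_cast (show 0 < κ by exact_mod_cast hκ0)
  have hκe : ρ / r ≤ Real.exp κ := by
    have := Real.add_one_le_exp (κ : ℝ)
    linarith
  have hl : 0 < Real.log ρ := Real.log_pos hρ1
  set σ := Real.exp (Real.log ρ / 2) with hσ
  have hσ0 : 0 < σ := Real.exp_pos _
  have hσρ : σ < ρ := by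
    calc σ < Real.exp (Real.log ρ) := Real.exp_lt_exp.2 (by linarith)
      _ = ρ := Real.exp_log hρ0
  obtain ⟨V', hV'o, hsV', hV'V, hreg⟩ := hF.reg K hKF (ball s δ) isOpen_ball (mem_ball_self hδ0)
    (Real.log ρ / (2 * κ)) (by positivity)
  have hgeo : ∀ k, ∀ p ∈ V' ×ˢ ball t₁ R', ‖a k p‖ ≤ M' * σ * (σ / ρ) ^ k := by
    intro k p hp
    have hn : ∀ z, ‖a k (z, p.2) * ((ρ ^ k / M' : ℝ) : ℂ)‖ = ‖a k (z, p.2)‖ * (ρ ^ k / M') := by
      intro z
      rw [norm_mul, Complex.norm_real, Real.norm_of_nonneg (by positivity)]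
    have hd : DifferentiableOn ℂ (fun z => a k (z, p.2)) (ball s δ) :=
      (ha k).comp (by fun_prop) fun z hz => ⟨hz, hp.2⟩
    have h1 := hreg (κ * (k + 1)) (fun z => a k (z, p.2) * ((ρ ^ k / M' : ℝ) : ℂ))
      (Nat.one_le_iff_ne_zero.2 (Nat.mul_ne_zero (by omega) (by omega)))
      (hd.mul_const _)
      (fun z hz => by
        rw [hn]
        calc ‖a k (z, p.2)‖ * (ρ ^ k / M') ≤ M' / r ^ k * (ρ ^ k / M') := by
              gcongr
              exact hb k _ ⟨hz, hp.2⟩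
          _ = (ρ / r) ^ k := by rw [div_pow ρ r]; field_simp
          _ ≤ Real.exp κ ^ k := by gcongr
          _ = Real.exp (κ * k) := by rw [← Real.exp_nat_mul, mul_comm]
          _ ≤ Real.exp ((κ * (k + 1) : ℕ) : ℝ) := by
              apply Real.exp_le_exp.2
              push_cast
              nlinarith)
      (fun z hz => by
        rw [hn]
        calc ‖a k (z, p.2)‖ * (ρ ^ k / M') ≤ M' / ρ ^ k * (ρ ^ k / M') := by
              gcongr
              exact (hK1 z hz.1 _ hp.2).1 k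
          _ = 1 := by field_simp) p.1 hp.1
    rw [hn] at h1
    have h2 : Real.exp (Real.log ρ / (2 * κ) * ((κ * (k + 1) : ℕ) : ℝ)) = σ ^ (k + 1) := by
      rw [hσ, ← Real.exp_nat_mul]
      congr 1
      push_cast
      field_simp
    rw [h2, ← le_div_iff₀ (by positivity)] at h1
    refine h1.trans (le_of_eq ?_)
    rw [div_pow σ ρ, pow_succ]
    field_simp
  have hq0 : 0 ≤ σ / ρ := by positivity
  have hq1 : σ / ρ < 1 := (div_lt_one hρ0).2 hσρ
  have hsum : Summable fun k : ℕ => M' * σ * (σ / ρ) ^ k :=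
    (summable_geometric_of_lt_one hq0 hq1).mul_left _
  refine ⟨V', hV'o, hsV', fun p => ∑' k, a k p, ?_, ?_⟩
  · refine (hol_lim (l := atTop) (g := fun n p => ∑ k ∈ Finset.range n, a k p)
      (hV'o.prod isOpen_ball) (M := ∑' k : ℕ, M' * σ * (σ / ρ) ^ k)
      (Eventually.of_forall fun n => ⟨?_, fun p hp => ?_⟩) fun p hp => ?_).1
    · exact DifferentiableOn.fun_sum fun k _ => (ha k).mono (prod_mono hV'V Subset.rfl)
    · calc ‖∑ k ∈ Finset.range n, a k p‖ ≤ ∑ k ∈ Finset.range n, M' * σ * (σ / ρ) ^ k :=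
            norm_sum_le_of_le _ fun k _ => hgeo k p hp
        _ ≤ _ := hsum.sum_le_tsum _ fun k _ => by positivity
    · exact (Summable.of_norm_bounded hsum fun k => hgeo k p hp).hasSum.tendsto_sum_nat
  · filter_upwards [hKF] with z hz t ht
    exact (hK1 z hz t ht).2.tsum_eq

theorem ru {F : Filter C2} {s : C2} (hF : RF F s) {S : Set (C2 × P)} {t₀ : P}
    (h : AnAt S (s, t₀)) (hB : ∃ B ∈ 𝓝 t₀, ∀ᶠ z in F, ∀ t ∈ B, (z, t) ∈ S) :
    S ∈ 𝓝 (s, t₀) := by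
  obtain ⟨U, hU, hm, n, g, hg, hS⟩ := h
  obtain ⟨B, hB, hK⟩ := hB
  have hc : ContinuousAt g (s, t₀) := hg.continuousOn.continuousAt (hU.mem_nhds hm)
  have hev : ∀ᶠ p in 𝓝 (s, t₀), (p ∈ U ∧ p.2 ∈ B) ∧ ‖g p‖ < ‖g (s, t₀)‖ + 1 :=
    ((hU.eventually_mem hm).and (continuous_snd.continuousAt.eventually hB)).and
      (hc.norm.eventually (gt_mem_nhds (lt_add_one _)))
  obtain ⟨δ, hδ0, hδ⟩ := Metric.eventually_nhds_iff_ball.1 hev
  rw [← ball_prod_same] at hδ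
  set M := ‖g (s, t₀)‖ + 1 with hM
  have hM0 : 0 < M := by positivity
  obtain ⟨V', hV'o, hsV', hV'V, hreg⟩ := hF.reg _ hK (ball s δ) isOpen_ball (mem_ball_self hδ0)
    (1 / 2) (by norm_num)
  refine mem_of_superset (prod_mem_nhds (hV'o.mem_nhds hsV') (ball_mem_nhds t₀ hδ0)) ?_
  rintro ⟨z, t⟩ ⟨hz, ht⟩
  refine (hS _ (hδ _ ⟨hV'V hz, ht⟩).1.1).2 ?_
  funext i
  have hle : ∀ k : ℕ, 1 ≤ k → ‖g (z, t) i‖ ≤ M * Real.exp (-(1 / 2)) ^ k := by
    intro k hk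
    have hn : ∀ w, ‖g (w, t) i * ((Real.exp k / M : ℝ) : ℂ)‖ = ‖g (w, t) i‖ * (Real.exp k / M) := by
      intro w
      rw [norm_mul, Complex.norm_real, Real.norm_of_nonneg (by positivity)]
    have hd : DifferentiableOn ℂ (fun w => g (w, t)) (ball s δ) :=
      hg.comp (by fun_prop) fun w hw => (hδ (w, t) ⟨hw, ht⟩).1.1
    have h1 := hreg k (fun w => g (w, t) i * ((Real.exp k / M : ℝ) : ℂ)) hk
      ((differentiableOn_pi.1 hd i).mul_const _)
      (fun w hw => by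
        rw [hn]
        calc ‖g (w, t) i‖ * (Real.exp k / M) ≤ M * (Real.exp k / M) := by
              gcongr
              exact (norm_le_pi_norm _ i).trans (hδ (w, t) ⟨hw, ht⟩).2.le
          _ = Real.exp k := by field_simp)
      (fun w hw => by
        have h2 : g (w, t) = 0 :=
          (hS _ (hδ (w, t) ⟨hw.2, ht⟩).1.1).1 (hw.1 t (hδ (w, t) ⟨hw.2, ht⟩).1.2)
        simp [h2]) z hz
    rw [hn, ← le_div_iff₀ (by positivity)] at h1
    refine h1.trans (le_of_eq ?_)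
    have h3 : Real.exp (-(1 / 2)) ^ k = Real.exp (1 / 2 * k) / Real.exp k := by
      rw [← Real.exp_nat_mul, ← Real.exp_sub]
      congr 1
      ring
    rw [h3]
    field_simp
  have hlim : Tendsto (fun k : ℕ => M * Real.exp (-(1 / 2)) ^ k) atTop (𝓝 (M * 0)) :=
    (tendsto_pow_atTop_nhds_zero_of_lt_one (Real.exp_pos _).le
      (Real.exp_lt_one_iff.2 (by norm_num))).const_mul M
  rw [mul_zero] at hlim
  have h0 : ‖g (z, t) i‖ ≤ 0 := ge_of_tendsto hlim (eventually_atTop.2 ⟨1, hle⟩)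
  exact norm_le_zero_iff.1 h0

end Pool.Agent.Lib.MP_823829_an
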