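import Pool.Agent.Lib.MP_823829_an.MThin
import Pool.Agent.Lib.MP_823829_an.TC
import Pool.Agent.Lib.MP_823829_an.Geo

/-! Propagation of a holomorphic family along the regular set of the limit. -/

namespace Pool.Agent.Lib.MP_823829_an

open Set Metric Filter MeasureTheory
open scoped Topology ENNReal NNReal ContDiff ComplexConjugate

variable {X : Type*} [TopologicalSpace X] [T2Space X] [CompactSpace X] [Nonempty X] {m : ℕ}
  {a : Atl X m}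

/-- Points near which the sets `G z` are the graphs of one holomorphic family. -/
def A1Good (a : Atl X m) (s : C2) (F : Filter C2) (G : C2 → Set (C2 × X)) (w₀ : C2) : Prop :=
  ∃ (V' B : Set C2) (g : C4 → X), IsOpen V' ∧ IsOpen B ∧ s ∈ V' ∧ w₀ ∈ B ∧
    (∀ q ∈ V' ×ˢ B, HolAt a g q) ∧
      ∀ᶠ z in F, ∀ w ∈ B, ∀ x, (w, x) ∈ G z ↔ x = g (z, w)

omit [T2Space X] [CompactSpace X] [Nonempty X] in
theorem a1_aux_open (s : C2) (F : Filter C2) (G : C2 → Set (C2 × X)) :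
    IsOpen {w | A1Good a s F G w} := by
  rw [isOpen_iff_mem_nhds]
  rintro w ⟨V', B, g, h1, h2, h3, h4, h5, h6⟩
  exact mem_of_superset (h2.mem_nhds h4) fun w' hw' => ⟨V', B, g, h1, h2, h3, hw', h5, h6⟩

theorem a1_aux_closed {f : C4 → X} {ρ₁ ρ₂ : ℝ} {V : Set C2} {s : C2} {F : Filter C2}
    {G : C2 → Set (C2 × X)} (h : LA a f ρ₁ ρ₂ V s F G) {w₀ : C2} (hw : w₀ ∈ reg a (G s))
    (hc : w₀ ∈ closure {w | A1Good a s F G w}) : A1Good a s F G w₀ := by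
  have hs : MG a (ball 0 ρ₂) (G s) := (h.rf.self h.mg).1
  have hreg : reg a (G s) ⊆ ball 0 ρ₂ := reg_subset hs.an.1
  have hgs := graphOn_reg (a := a) (G s)
  obtain ⟨i, hi⟩ := a.cov (gf (G s) w₀)
  obtain ⟨κ, hκ, hκt⟩ : ∃ κ > 0, closedBall (a.e i (gf (G s) w₀)) κ ⊆ (a.e i).target :=
    nhds_basis_closedBall.mem_iff.1 ((a.e i).open_target.mem_nhds ((a.e i).map_source hi))
  set y₀ := a.e i (gf (G s) w₀) with hy₀
  set Q : Set X := (a.e i).source ∩ a.e i ⁻¹' ball y₀ κ with hQ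
  have hQo : IsOpen Q := (a.e i).isOpen_inter_preimage isOpen_ball
  have hx₀ : gf (G s) w₀ ∈ Q := ⟨hi, mem_ball_self hκ⟩
  have hn : reg a (G s) ∩ gf (G s) ⁻¹' Q ∈ 𝓝 w₀ :=
    inter_mem ((isOpen_reg _).mem_nhds hw) ((hgs.1 w₀ hw).1 (hQo.mem_nhds hx₀))
  obtain ⟨r3, hr3, hball⟩ := nhds_basis_closedBall.mem_iff.1 hn
  obtain ⟨r, rfl⟩ : ∃ r, r3 = 3 * r := ⟨r3 / 3, by ring⟩
  have hr : 0 < r := by linarith
  have hav : ∀ᶠ z in F, Disjoint (closedBall w₀ (3 * r) ×ˢ Qᶜ) (G z) := by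
    refine h.avoid _ ((isCompact_closedBall _ _).prod hQo.isClosed_compl.isCompact)
      (fun p hp => hreg (hball hp.1).1) ?_
    rw [Set.disjoint_left]
    rintro ⟨w, x⟩ ⟨h1, h2⟩ h3
    have := ((hgs.2 w (hball h1).1) x).1 h3
    exact h2 (this ▸ (hball h1).2)
  have hz : ∀ᶠ z in F, ∀ w ∈ ball w₀ (3 * r), w ∈ reg a (G z) ∧ gf (G z) w ∈ Q := by
    filter_upwards [hav, h.mg] with z h1 h2
    have h3 : ∀ w ∈ ball w₀ (3 * r), ∀ x, (w, x) ∈ G z → x ∈ Q := by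
      intro w hw' x hx
      by_contra hxQ
      exact Set.disjoint_left.1 h1 (show (w, x) ∈ closedBall w₀ (3 * r) ×ˢ Qᶜ from
        ⟨ball_subset_closedBall hw', hxQ⟩) hx
    have h4 : ball w₀ (3 * r) ⊆ reg a (G z) :=
      h2.1.reg_of_chart isOpen_ball (fun w hw' => hreg (hball (ball_subset_closedBall hw')).1)
        (isCompact_closedBall y₀ κ) hκt
        fun w hw' x hx => ⟨(h3 w hw' x hx).1, ball_subset_closedBall (h3 w hw' x hx).2⟩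
    exact fun w hw' => ⟨h4 hw', h3 w hw' _ (((graphOn_reg (a := a) (G z)).2 w (h4 hw') _).2 rfl)⟩
  obtain ⟨w₁, ⟨V₁, B₁, g₁, hV₁, hB₁, hsV₁, hw₁, hg₁, hF₁⟩, hd⟩ := Metric.mem_closure_iff.1 hc r hr
  have hsub : ball w₁ (2 * r) ⊆ ball w₀ (3 * r) := by
    apply ball_subset_ball'
    rw [dist_comm]; linarith
  have hw₁' : w₁ ∈ ball w₀ (3 * r) := hsub (mem_ball_self (by linarith))
  have hg₁s : g₁ (s, w₁) ∈ (a.e i).source := by
    have h1 := gf_eq (h.rf.self hF₁ w₁ hw₁)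
    exact h1 ▸ ((h.rf.self hz) w₁ hw₁').2.1
  obtain ⟨hUo, hUd⟩ := holAt_chart (hV₁.prod hB₁) hg₁ i
  obtain ⟨V₂, hV₂, B₂, hB₂, hVB⟩ := mem_nhds_prod_iff.1
    (hUo.mem_nhds (show (s, w₁) ∈ V₁ ×ˢ B₁ ∩ g₁ ⁻¹' (a.e i).source from ⟨⟨hsV₁, hw₁⟩, hg₁s⟩))
  obtain ⟨V₃, hV₃, hV₃o, hsV₃⟩ := _root_.mem_nhds_iff.1 hV₂
  obtain ⟨ε₀, hε₀, hεB⟩ := Metric.mem_nhds_iff.1 hB₂
  have hε : 0 < min ε₀ (2 * r) := lt_min hε₀ (by linarith)
  have hεB' : ball w₁ (min ε₀ (2 * r)) ⊆ B₂ := (ball_subset_ball (min_le_left _ _)).trans hεB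
  have hVB' : V₃ ×ˢ ball w₁ (min ε₀ (2 * r)) ⊆ V₁ ×ˢ B₁ ∩ g₁ ⁻¹' (a.e i).source :=
    (prod_mono hV₃ hεB').trans hVB
  have key : ∀ j : Fin m, ∃ V' : Set C2, IsOpen V' ∧ s ∈ V' ∧ ∃ Φ' : C2 × C2 → ℂ,
      DifferentiableOn ℂ Φ' (V' ×ˢ ball w₁ (3 / 2 * r)) ∧
        ∀ᶠ z in F, ∀ t ∈ ball w₁ (3 / 2 * r), Φ' (z, t) = a.e i (gf (G z) t) j := by
    intro j
    refine tc (R := 2 * r) (M := ‖y₀‖ + κ) h.rf hV₃o hsV₃ hε (min_le_right _ _) (by linarith)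
      (Φ := fun q => a.e i (g₁ q) j) (Ψ := fun z t => a.e i (gf (G z) t) j)
      (differentiableOn_pi.1 (hUd.mono hVB') j) ?_
    filter_upwards [hz, hF₁] with z h1 h2
    refine ⟨differentiableOn_pi.1 ((differentiableOn_regI (a := a) i (G z)).mono
      fun t ht => ⟨(h1 t (hsub ht)).1, (h1 t (hsub ht)).2.1⟩) j, fun t ht => ?_, fun t ht => ?_⟩
    · have h3 : a.e i (gf (G z) t) ∈ ball y₀ κ := (h1 t (hsub ht)).2.2
      refine (norm_le_pi_norm _ j).trans ?_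
      have := norm_le_norm_add_norm_sub' (a.e i (gf (G z) t)) y₀
      rw [mem_ball, dist_eq_norm] at h3
      linarith
    · have h3 : t ∈ B₁ := (hVB' (show (s, t) ∈ V₃ ×ˢ ball w₁ (min ε₀ (2 * r)) from ⟨hsV₃, ht⟩)).1.2
      show a.e i (gf (G z) t) j = a.e i (g₁ (z, t)) j
      rw [gf_eq (h2 t h3)]
  choose V' hV'o hsV' Φ' hΦ' hF' using key
  have hVo : IsOpen (⋂ j, V' j) := isOpen_iInter_of_finite hV'o
  have hΦ : DifferentiableOn ℂ (fun q j => Φ' j q) ((⋂ j, V' j) ×ˢ ball w₁ (3 / 2 * r)) :=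
    differentiableOn_pi.2 fun j => (hΦ' j).mono (prod_mono (iInter_subset _ j) Subset.rfl)
  have hF : ∀ᶠ z in F, ∀ t ∈ ball w₁ (3 / 2 * r), (fun j => Φ' j (z, t)) = a.e i (gf (G z) t) := by
    filter_upwards [eventually_all.2 hF'] with z h1 t ht
    exact funext fun j => h1 j t ht
  have hw₀ : w₀ ∈ ball w₁ (3 / 2 * r) := by rw [mem_ball]; linarith
  have hWo : IsOpen ((⋂ j, V' j) ×ˢ ball w₁ (3 / 2 * r) ∩ (fun q j => Φ' j q) ⁻¹' (a.e i).target) :=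
    hΦ.continuousOn.isOpen_inter_preimage (hVo.prod isOpen_ball) (a.e i).open_target
  have hmem : (s, w₀) ∈
      (⋂ j, V' j) ×ˢ ball w₁ (3 / 2 * r) ∩ (fun q j => Φ' j q) ⁻¹' (a.e i).target := by
    refine ⟨⟨mem_iInter.2 hsV', hw₀⟩, ?_⟩
    show (fun j => Φ' j (s, w₀)) ∈ (a.e i).target
    rw [h.rf.self hF w₀ hw₀]
    exact (a.e i).map_source hi
  obtain ⟨V₄, B₄, hV₄, hsV₄, hB₄, hwB₄, hVB₄⟩ := mem_nhds_prod_iff'.1 (hWo.mem_nhds hmem)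
  refine ⟨V₄, B₄, fun q => (a.e i).symm (fun j => Φ' j q), hV₄, hB₄, hsV₄, hwB₄, fun q hq => ?_, ?_⟩
  · exact holAt_symm i (hΦ.differentiableAt ((hVo.prod isOpen_ball).mem_nhds (hVB₄ hq).1))
      (hVB₄ hq).2
  · filter_upwards [hz, hF] with z h1 h2 w hw' x
    have h3 : w ∈ ball w₁ (3 / 2 * r) :=
      (hVB₄ (show (s, w) ∈ V₄ ×ˢ B₄ from ⟨hsV₄, hw'⟩)).1.2
    have h4 := h1 w (hsub (ball_subset_ball (by linarith) h3))
    rw [h2 w h3, (a.e i).left_inv h4.2.1]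
    exact (graphOn_reg (a := a) (G z)).2 w h4.1 x

theorem la_prop {f : C4 → X} {ρ₁ ρ₂ : ℝ} {V : Set C2} {s : C2} {F : Filter C2}
    {G : C2 → Set (C2 × X)} (h : LA a f ρ₁ ρ₂ V s F G) {w₀ : C2} (hw : w₀ ∈ reg a (G s)) :
    ∃ (V' B : Set C2) (g : C4 → X), IsOpen V' ∧ IsOpen B ∧ s ∈ V' ∧ w₀ ∈ B ∧
      (∀ q ∈ V' ×ˢ B, HolAt a g q) ∧
        ∀ᶠ z in F, ∀ w ∈ B, ∀ x, (w, x) ∈ G z ↔ x = g (z, w) := by
  have hs := h.rf.self h.mg
  have hshell : ∀ w ∈ shell ρ₁ ρ₂, A1Good a s F G w := fun w hw' =>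
    ⟨V, shell ρ₁ ρ₂, f, h.opV, isOpen_shell _ _, h.memV, hw', h.hol,
      h.mg.mono fun z hz w hw x => hz.2 w hw x⟩
  have hsr : shell ρ₁ ρ₂ ⊆ reg a (G s) := by
    refine GraphOn.subset_reg (graphOn_of_agree hs.2 fun w hw' => ?_) (isOpen_shell _ _)
    exact HolAt.comp (Φ := fun w : C2 => ((s, w) : C4)) (h.hol (s, w) ⟨h.memV, hw'⟩)
      ((differentiableAt_const s).prodMk differentiableAt_id)
  obtain ⟨w₁, hw₁⟩ := shell_nonempty h.pos h.lt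
  exact (hs.1.preconnected_reg (convex_ball _ _).isPreconnected).subset_of_closure_inter_subset
    (a1_aux_open s F G) ⟨w₁, hsr hw₁, hshell w₁ hw₁⟩
    (fun w hw' => a1_aux_closed h hw'.2 hw'.1) hw

end Pool.Agent.Lib.MP_823829_an
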