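import Pool.Agent.Lib.MP_823829_an.Hol

/-! Sigma-finite Hausdorff measure and Haar measure. -/

namespace Pool.Agent.Lib.MP_823829_an

open Set Metric Filter MeasureTheory
open scoped Topology ENNReal NNReal ContDiff ComplexConjugate

section Metric

variable {A B : Type} [MetricSpace A] [MeasurableSpace A] [BorelSpace A] [MetricSpace B]
  [MeasurableSpace B] [BorelSpace B]

theorem SF.mono {d : ℝ} {S S' : Set A} (h : SF d S) (hs : S' ⊆ S) : SF d S' := let ⟨s, h1, h2⟩ := h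
  ⟨s, hs.trans h1, h2⟩

theorem sf_of_lt_top {d : ℝ} {S : Set A} (h : μH[d] S < ⊤) : SF d S := ⟨fun _ => S, subset_iUnion (fun _ : ℕ => S) 0, fun _ => h⟩

theorem sf_empty (d : ℝ) : SF d (∅ : Set A) := sf_of_lt_top (by simp)

theorem SF.union {d : ℝ} {S S' : Set A} (h : SF d S) (h' : SF d S') : SF d (S ∪ S') := by
  obtain ⟨s, h1, h2⟩ := h
  obtain ⟨s', h1', h2'⟩ := h'
  refine ⟨fun n => s n ∪ s' n, ?_, fun n => measure_union_lt_top (h2 n) (h2' n)⟩
  rw [iUnion_union_distrib]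
  exact union_subset_union h1 h1'

theorem sf_iUnion {ι : Type} [Countable ι] {d : ℝ} {S : ι → Set A} (h : ∀ i, SF d (S i)) :
    SF d (⋃ i, S i) := by
  choose s h1 h2 using h
  rcases isEmpty_or_nonempty ι with hι | hι
  · simpa using sf_empty d
  obtain ⟨e, he⟩ := exists_surjective_nat (ι × ℕ)
  refine ⟨fun n => s (e n).1 (e n).2, iUnion_subset fun i x hx => ?_, fun n => h2 _ _⟩
  obtain ⟨k, hk⟩ := mem_iUnion.1 (h1 i hx)
  obtain ⟨n, hn⟩ := he (i, k)
  exact mem_iUnion.2 ⟨n, by simpa [hn] using hk⟩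

theorem sf_of_local [SecondCountableTopology A] {d : ℝ} {S : Set A}
    (h : ∀ p ∈ S, ∃ N ∈ 𝓝 p, SF d (S ∩ N)) : SF d S := by
  choose! N h1 h2 using h
  obtain ⟨t, ht, hc, hcov⟩ := TopologicalSpace.countable_cover_nhdsWithin (s := S) (f := N)
    fun x hx => mem_nhdsWithin_of_mem_nhds (h1 x hx)
  have := hc.to_subtype
  refine (sf_iUnion (S := fun x : t => S ∩ N x) fun x => h2 x (ht x.2)).mono fun x hx => ?_
  obtain ⟨y, hy, hxy⟩ := mem_iUnion₂.1 (hcov hx)
  exact mem_iUnion.2 ⟨⟨y, hy⟩, hx, hxy⟩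

theorem null_of_local [SecondCountableTopology A] {d : ℝ} {S : Set A}
    (h : ∀ p ∈ S, ∃ N ∈ 𝓝 p, μH[d] (S ∩ N) = 0) : μH[d] S = 0 := measure_null_of_locally_null _ fun p hp =>
    let ⟨N, h1, h2⟩ := h p hp
    ⟨S ∩ N, inter_mem_nhdsWithin S h1, h2⟩

theorem SF.mono_dim {d d' : ℝ} {S : Set A} (h : SF d S) (hd : d ≤ d') : SF d' S := let ⟨s, h1, h2⟩ := h
  ⟨s, h1, fun n => (Measure.hausdorffMeasure_mono hd _).trans_lt (h2 n)⟩

theorem SF.null {d d' : ℝ} {S : Set A} (h : SF d S) (hd : d < d') : μH[d'] S = 0 := by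
  obtain ⟨s, h1, h2⟩ := h
  exact measure_mono_null h1 (measure_iUnion_null fun n =>
    (Measure.hausdorffMeasure_zero_or_top hd _).resolve_right (h2 n).ne)

theorem null_mono_dim {d d' : ℝ} {S : Set A} (h : μH[d] S = 0) (hd : d ≤ d') : μH[d'] S = 0 := le_antisymm ((Measure.hausdorffMeasure_mono hd S).trans h.le) zero_le

theorem SF.image [SecondCountableTopology A] {d : ℝ} (hd : 0 ≤ d) {S : Set A} (h : SF d S)
    {f : A → B} (hf : ∀ x ∈ S, ∃ N ∈ 𝓝 x, ∃ K : ℝ≥0, LipschitzOnWith K f N) :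
    SF d (f '' S) := by
  choose! N h1 K h2 using hf
  obtain ⟨s, s1, s2⟩ := h
  obtain ⟨t, ht, hc, hcov⟩ := TopologicalSpace.countable_cover_nhdsWithin (s := S) (f := N)
    fun x hx => mem_nhdsWithin_of_mem_nhds (h1 x hx)
  have := hc.to_subtype
  refine (sf_iUnion (S := fun x : t × ℕ => f '' (N x.1 ∩ s x.2)) fun x => sf_of_lt_top ?_).mono ?_
  · refine (((h2 _ (ht x.1.2)).mono inter_subset_left).hausdorffMeasure_image_le hd).trans_lt ?_
    exact ENNReal.mul_lt_top (ENNReal.rpow_lt_top_of_nonneg hd (by simp))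
      ((measure_mono inter_subset_right).trans_lt (s2 _))
  · rintro _ ⟨x, hx, rfl⟩
    obtain ⟨y, hy, hxy⟩ := mem_iUnion₂.1 (hcov hx)
    obtain ⟨n, hn⟩ := mem_iUnion.1 (s1 hx)
    exact mem_iUnion.2 ⟨(⟨y, hy⟩, n), x, ⟨hxy, hn⟩, rfl⟩

theorem null_image [SecondCountableTopology A] {d : ℝ} (hd : 0 ≤ d) {S : Set A}
    (h : μH[d] S = 0) {f : A → B}
    (hf : ∀ x ∈ S, ∃ N ∈ 𝓝 x, ∃ K : ℝ≥0, LipschitzOnWith K f N) : μH[d] (f '' S) = 0 := by
  choose! N h1 K h2 using hf
  obtain ⟨t, ht, hc, hcov⟩ := TopologicalSpace.countable_cover_nhdsWithin (s := S) (f := N)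
    fun x hx => mem_nhdsWithin_of_mem_nhds (h1 x hx)
  refine measure_mono_null (t := ⋃ y ∈ t, f '' (N y ∩ S)) ?_
    ((measure_biUnion_null_iff hc).2 fun y hy => ?_)
  · rintro _ ⟨x, hx, rfl⟩
    obtain ⟨y, hy, hxy⟩ := mem_iUnion₂.1 (hcov hx)
    exact mem_biUnion hy ⟨x, ⟨hxy, hx⟩, rfl⟩
  · have := ((h2 _ (ht hy)).mono (inter_subset_left (t := S))).hausdorffMeasure_image_le hd
    rw [measure_mono_null inter_subset_right h, mul_zero] at this
    exact le_antisymm this zero_le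

theorem null_of_isolated [SecondCountableTopology A] {d : ℝ} (hd : 0 < d) {S : Set A}
    (h : ∀ p ∈ S, ∀ᶠ x in 𝓝 p, x ∈ S → x = p) : μH[d] S = 0 := by
  have := Measure.nullSingletonClass_hausdorff A hd
  exact null_of_local fun p hp => ⟨_, h p hp,
    measure_mono_null (fun x hx => hx.2 hx.1) (measure_singleton p)⟩

end Metric

variable {A T : Type} [NormedAddCommGroup A] [NormedSpace ℂ A] [FiniteDimensional ℂ A]
  [MeasurableSpace A] [BorelSpace A]
  [NormedAddCommGroup T] [NormedSpace ℂ T] [FiniteDimensional ℂ T] [MeasurableSpace T]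
  [BorelSpace T]

theorem sfb_aux_rd (T : Type) [NormedAddCommGroup T] [NormedSpace ℂ T] :
    rd T = (Module.finrank ℝ T : ℝ) := by
  rw [rd, finrank_real_of_complex]; push_cast; ring

theorem rd_nonneg : 0 ≤ rd T := by
  unfold rd
  positivity

theorem two_le_rd [Nontrivial T] : 2 ≤ rd T := by
  have : (1 : ℝ) ≤ Module.finrank ℂ T := by exact_mod_cast Module.finrank_pos
  unfold rd
  linarith

theorem second_countable_fd (T : Type) [NormedAddCommGroup T] [NormedSpace ℂ T]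
    [FiniteDimensional ℂ T] : SecondCountableTopology T := by
  have := FiniteDimensional.proper ℂ T
  infer_instance

theorem haar_hausdorff : Measure.IsAddHaarMeasure (μH[rd T] : Measure T) := by
  have : FiniteDimensional ℝ T := Module.Finite.trans ℂ T
  rw [sfb_aux_rd]
  infer_instance

theorem sf_univ : SF (rd T) (univ : Set T) := by
  have := haar_hausdorff (T := T)
  have := FiniteDimensional.proper ℂ T
  exact ⟨fun n => closedBall 0 n, by simp [iUnion_closedBall_nat],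
    fun n => (isCompact_closedBall _ _).measure_lt_top⟩

theorem haar_null_iff (μ : Measure T) [μ.IsAddHaarMeasure] {S : Set T} :
    μ S = 0 ↔ μH[rd T] S = 0 := by
  have := haar_hausdorff (T := T)
  have := FiniteDimensional.proper ℂ T
  exact ⟨fun h => Measure.absolutelyContinuous_isAddHaarMeasure _ μ h,
    fun h => Measure.absolutelyContinuous_isAddHaarMeasure μ _ h⟩

theorem hausdorff_ne_zero {S : Set T} {t : T} (h : S ∈ 𝓝 t) : μH[rd T] S ≠ 0 := by
  have := haar_hausdorff (T := T)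
  exact (Measure.measure_pos_of_mem_nhds _ h).ne'

theorem exists_notMem_of_null {S O : Set T} (h : μH[rd T] S = 0) (hO : IsOpen O)
    (hne : O.Nonempty) : ∃ t ∈ O, t ∉ S := by
  obtain ⟨t, ht⟩ := hne
  by_contra! h1
  exact hausdorff_ne_zero (hO.mem_nhds ht) (measure_mono_null h1 h)

theorem haar_closedBall (μ : Measure T) [μ.IsAddHaarMeasure] :
    ∃ c : ℝ≥0, 0 < c ∧ ∀ (t : T) (r : ℝ), 0 < r →
      μ (closedBall t r) = c * ENNReal.ofReal (r ^ rd T) ∧
        μ (ball t r) = c * ENNReal.ofReal (r ^ rd T) := by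
  have : FiniteDimensional ℝ T := Module.Finite.trans ℂ T
  have := FiniteDimensional.proper ℂ T
  have h1 : μ (ball (0 : T) 1) ≠ ⊤ := measure_ball_lt_top.ne
  refine ⟨(μ (ball 0 1)).toNNReal, ENNReal.toNNReal_pos (measure_ball_pos μ 0 one_pos).ne' h1,
    fun t r hr => ?_⟩
  rw [ENNReal.coe_toNNReal h1, sfb_aux_rd, Real.rpow_natCast, mul_comm]
  exact ⟨Measure.addHaar_closedBall μ t hr.le, Measure.addHaar_ball_of_pos μ t hr⟩

theorem SF.image_clm {d : ℝ} (hd : 0 ≤ d) {S : Set A} (h : SF d S) (L : A →L[ℂ] T) :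
    SF d (L '' S) := by
  have := second_countable_fd A
  exact h.image hd fun _ _ => ⟨univ, univ_mem, _, L.lipschitz.lipschitzOnWith⟩

theorem null_image_clm {d : ℝ} (hd : 0 ≤ d) {S : Set A} (h : μH[d] S = 0) (L : A →L[ℂ] T) :
    μH[d] (L '' S) = 0 := by
  have := second_countable_fd A
  exact null_image hd h fun _ _ => ⟨univ, univ_mem, _, L.lipschitz.lipschitzOnWith⟩

theorem SF.image_hol {d : ℝ} (hd : 0 ≤ d) {S U : Set T} (h : SF d S) (hU : IsOpen U) (hs : S ⊆ U)
    {f : T → A} (hf : DifferentiableOn ℂ f U) : SF d (f '' S) := by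
  have := second_countable_fd T
  exact h.image hd fun x hx => hol_locLip hU hf x (hs hx)

theorem Pure.inter_open {d : ℝ} {Z N : Set A} (h : Pure d Z) (hN : IsOpen N) :
    Pure d (Z ∩ N) := fun p hp M hM => by
  rw [inter_assoc]
  exact h p hp.1 _ (inter_mem (hN.mem_nhds hp.2) hM)

end Pool.Agent.Lib.MP_823829_an
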