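import Pool.Agent.Lib.MP_823829_an.T2
import Pool.Agent.Lib.MP_823829_an.SFb

/-! Hausdorff dimension of analytic sets. -/

namespace Pool.Agent.Lib.MP_823829_an

open Set Metric Filter MeasureTheory
open scoped Topology ENNReal NNReal ContDiff ComplexConjugate

variable {A T : Type} [NormedAddCommGroup A] [NormedSpace ℂ A] [FiniteDimensional ℂ A]
  [MeasurableSpace A] [BorelSpace A]
  [NormedAddCommGroup T] [NormedSpace ℂ T] [FiniteDimensional ℂ T] [MeasurableSpace T]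
  [BorelSpace T]

theorem th_aux_good (Z : Set A) (L : A →L[ℂ] T) :
    SF (rd T) (Z ∩ L ⁻¹' {t | ∃ d, Good Z L d t}) := by
  have := second_countable_fd A
  refine sf_of_local ?_
  rintro p ⟨-, d, U, hU, hpU, s, hs⟩
  refine ⟨L ⁻¹' U, (hU.preimage L.continuous).mem_nhds hpU, ?_⟩
  have h1 : SF (rd T) (⋃ j, s j '' U) :=
    sf_iUnion fun j =>
      SF.image_hol rd_nonneg (sf_univ.mono (subset_univ _)) hU subset_rfl (hs.hol j)
  refine h1.mono ?_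
  rintro x ⟨⟨hxZ, -⟩, hxU⟩
  obtain ⟨j, hj⟩ := (hs.mem x hxU).1 hxZ
  exact mem_iUnion.2 ⟨j, L x, hxU, hj.symm⟩

theorem th_aux_step (j : ℕ)
    (ih : ∀ Z : Set A, (∀ p ∈ Z, AnAt Z p ∧ ∃ L : A →L[ℂ] (Fin j → ℂ), Iso Z p L) →
      SF (2 * (j : ℝ)) Z)
    (hj : Module.finrank ℂ T = j + 1) {Z : Set A} {L : A →L[ℂ] T}
    (h : ∀ p ∈ Z, AnAt Z p ∧ Iso Z p L) {σ T₀ : Set T} (hσ : Neg σ T₀) :
    SF (2 * (j : ℝ)) (Z ∩ L ⁻¹' (σ ∩ T₀)) := by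
  have := second_countable_fd A
  refine sf_of_local ?_
  rintro p ⟨-, -, hpT⟩
  obtain ⟨U, hU, hpU, δ, hδ, hz, hne⟩ := hσ _ hpT
  have hU' : IsOpen (L ⁻¹' U) := hU.preimage L.continuous
  refine ⟨L ⁻¹' U, hU'.mem_nhds hpU, ?_⟩
  have h1 : SF (2 * (j : ℝ)) ((Z ∩ {x | δ (L x) = (fun _ => (0 : ℂ)) x}) ∩ L ⁻¹' U) := by
    refine ih _ ?_
    rintro q hq
    obtain ⟨⟨hqZ, hq0⟩, hqU⟩ := id hq
    have hd : DifferentiableOn ℂ (fun x => δ (L x)) (L ⁻¹' U) :=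
      hδ.comp L.differentiableOn (fun x hx => hx)
    refine ⟨((h q hqZ).1.inter (anAt_eq hU' hqU hd (differentiableOn_const _))).inter_nhds
      (hU'.mem_nhds hqU), ?_⟩
    have hi : Iso ((Z ∩ {x | δ (L x) = (fun _ => (0 : ℂ)) x}) ∩ L ⁻¹' U) q L :=
      (h q hqZ).2.mono (Eventually.of_forall fun x hx => hx.1.1)
    have hn : Neg {t | δ t = 0} {L q} := by
      intro t ht
      rw [mem_singleton_iff] at ht
      subst ht
      exact ⟨U, hU, hqU, δ, hδ, fun y _ hy => hy, hne⟩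
    exact drop hi hq hj hn (Eventually.of_forall fun x hx => hx.1.2)
  refine h1.mono ?_
  rintro x ⟨⟨hxZ, hxσ, -⟩, hxU⟩
  exact ⟨⟨hxZ, hz _ hxU hxσ⟩, hxU⟩

theorem th_aux_zero (hj : Module.finrank ℂ T = 0) {σ T₀ : Set T} (hσ : Neg σ T₀) :
    σ ∩ T₀ = ∅ := by
  refine eq_empty_of_forall_notMem ?_
  rintro t ⟨h1, h2⟩
  exact neg_zero_dim hj (hσ.subset (singleton_subset_iff.2 h2) subset_rfl) h1

theorem th_aux_loc {d : ℝ} (hd : rd T ≤ d)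
    (hs : ∀ (Z : Set A) (L : A →L[ℂ] T), (∀ p ∈ Z, AnAt Z p ∧ Iso Z p L) →
      ∀ σ T₀ : Set T, Neg σ T₀ → SF d (Z ∩ L ⁻¹' (σ ∩ T₀)))
    {Z : Set A} (h : ∀ p ∈ Z, AnAt Z p ∧ ∃ L : A →L[ℂ] T, Iso Z p L) : SF d Z := by
  have := second_countable_fd A
  refine sf_of_local ?_
  intro p hp
  obtain ⟨ha, L, hi⟩ := h p hp
  obtain ⟨ρ, hρ, η, hη, -, h2, h3, -⟩ := hi.scale ha univ_mem
  have hfb := scale_fb h2 h3
  refine ⟨box p L ρ η, box_mem_nhds p L hρ hη, ?_⟩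
  have g1 := (th_aux_good (Z ∩ box p L ρ η) L).mono_dim hd
  have g2 := hs (Z ∩ box p L ρ η) L (fun q hq => ⟨hfb.an q (hfb.sub q hq), hfb.iso hq⟩) _ _
    (t2_loc hfb)
  refine (g1.union g2).mono ?_
  intro x hx
  by_cases hg : ∃ d, Good (Z ∩ box p L ρ η) L d (L x)
  · exact Or.inl ⟨hx, hg⟩
  · exact Or.inr ⟨hx, hg, hfb.sub x hx⟩

theorem th_loc (j : ℕ) {Z : Set A}
    (h : ∀ p ∈ Z, AnAt Z p ∧ ∃ L : A →L[ℂ] (Fin j → ℂ), Iso Z p L) : SF (2 * (j : ℝ)) Z := by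
  induction j generalizing Z with
  | zero =>
    refine th_aux_loc (rd_fin 0).le ?_ h
    intro Z L _ σ T₀ hσ
    rw [th_aux_zero (by simp) hσ, preimage_empty, inter_empty]
    exact sf_empty _
  | succ j ih =>
    refine th_aux_loc (rd_fin (j + 1)).le ?_ h
    intro Z L hZ σ T₀ hσ
    refine (th_aux_step j (fun Z hZ => ih hZ) (by simp) hZ hσ).mono_dim ?_
    push_cast
    linarith

theorem th_neg [Nontrivial T] {Z : Set A} {L : A →L[ℂ] T} (h : ∀ p ∈ Z, AnAt Z p ∧ Iso Z p L)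
    {σ T₀ : Set T} (hσ : Neg σ T₀) : SF (rd T - 2) (Z ∩ L ⁻¹' (σ ∩ T₀)) := by
  obtain ⟨j, hj⟩ : ∃ j, Module.finrank ℂ T = j + 1 :=
    Nat.exists_eq_succ_of_ne_zero (Module.finrank_pos (R := ℂ) (M := T)).ne'
  have e : rd T - 2 = 2 * (j : ℝ) := by
    rw [rd, hj]
    push_cast
    ring
  rw [e]
  exact th_aux_step j (fun Z hZ => th_loc j hZ) hj h hσ

theorem th_neg_null {Z : Set A} {L : A →L[ℂ] T} (h : ∀ p ∈ Z, AnAt Z p ∧ Iso Z p L)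
    {σ T₀ : Set T} (hσ : Neg σ T₀) : μH[rd T] (Z ∩ L ⁻¹' (σ ∩ T₀)) = 0 := by
  rcases subsingleton_or_nontrivial T with hT | hT
  · rw [th_aux_zero Module.finrank_zero_of_subsingleton hσ, preimage_empty, inter_empty]
    exact measure_empty
  · exact (th_neg h hσ).null (by linarith)

theorem th_aux_univ (p : T) (_hp : p ∈ (univ : Set T)) :
    AnAt (univ : Set T) p ∧ Iso (univ : Set T) p (ContinuousLinearMap.id ℂ T) :=
  ⟨anAt_univ p, Eventually.of_forall fun _ _ hx => hx⟩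

theorem neg_sf [Nontrivial T] {σ T₀ : Set T} (hσ : Neg σ T₀) : SF (rd T - 2) (σ ∩ T₀) := by
  exact (th_neg th_aux_univ hσ).mono fun x hx => ⟨mem_univ x, hx⟩

theorem neg_null {σ T₀ : Set T} (hσ : Neg σ T₀) : μH[rd T] (σ ∩ T₀) = 0 := by
  refine measure_mono_null ?_ (th_neg_null th_aux_univ hσ)
  exact fun x hx => ⟨mem_univ x, hx⟩

theorem dim_iso {Z N : Set A} {p : A} (h : AnAt Z p) (hp : p ∈ Z) (hN : N ∈ 𝓝 p)
    (h0 : μH[rd T + 2] (Z ∩ N) = 0) : ∃ L : A →L[ℂ] T, Iso Z p L := by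
  obtain ⟨j, L, hi, hL⟩ := loc_param h hp
  refine hi.pad ?_
  by_contra hc
  have hj : Module.finrank ℂ T + 1 ≤ j := by
    simp only [Module.finrank_fin_fun] at hc
    omega
  have hj' : (Module.finrank ℂ T : ℝ) + 1 ≤ j := by exact_mod_cast hj
  have h1 := null_image_clm (by linarith [rd_nonneg (T := T)]) h0 L
  refine hausdorff_ne_zero (hL N hN) (null_mono_dim h1 ?_)
  rw [rd_fin, rd]
  linarith

theorem dim_sf (j : ℕ) {Z : Set A} (h : LocAn Z) (h0 : μH[2 * (j : ℝ) + 2] Z = 0) :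
    SF (2 * (j : ℝ)) Z := by
  refine th_loc j fun p hp => ⟨h p hp, dim_iso (h p hp) hp univ_mem ?_⟩
  rw [rd_fin, inter_univ]
  exact h0

theorem isolated_of_null {Z N : Set A} {p : A} (h : AnAt Z p) (hp : p ∈ Z) (hN : N ∈ 𝓝 p)
    (h0 : μH[2] (Z ∩ N) = 0) : ∀ᶠ x in 𝓝 p, x ∈ Z → x = p := by
  obtain ⟨L, hL⟩ : ∃ L : A →L[ℂ] (Fin 0 → ℂ), Iso Z p L := by
    refine dim_iso h hp hN ?_
    rw [rd_fin]
    simpa using h0
  filter_upwards [hL] with x hx hxZ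
  exact hx hxZ (Subsingleton.elim _ _)

end Pool.Agent.Lib.MP_823829_an
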