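import Pool.Agent.Lib.MP_823829_an.Split
import Pool.Agent.Lib.MP_823829_an.Th

/-! Points near which an analytic set is a holomorphic graph. -/

namespace Pool.Agent.Lib.MP_823829_an

open Set Metric Filter MeasureTheory
open scoped Topology ENNReal NNReal ContDiff ComplexConjugate

variable {A T : Type} [NormedAddCommGroup A] [NormedSpace ℂ A] [FiniteDimensional ℂ A]
  [NormedAddCommGroup T] [NormedSpace ℂ T] [FiniteDimensional ℂ T]

omit [FiniteDimensional ℂ A] [FiniteDimensional ℂ T] in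
theorem mutual_bij {B : Type} [NormedAddCommGroup B] [NormedSpace ℂ B] {h : B → T × A}
    {L : T × A →L[ℂ] B} {g : T → A} {u₀ : B} (hh : DifferentiableAt ℂ h u₀)
    (hL : ∀ᶠ u in 𝓝 u₀, L (h u) = u) (hg : DifferentiableAt ℂ g (h u₀).1)
    (h1 : ∀ᶠ u in 𝓝 u₀, (h u).2 = g (h u).1)
    (h2 : ∀ᶠ t in 𝓝 (h u₀).1, h (L (t, g t)) = (t, g t)) :
    Function.Bijective (fderiv ℂ (fun u => (h u).1) u₀) ∧
      Function.Bijective (fderiv ℂ (fun t => L (t, g t)) (h u₀).1) := by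
  have hΦ : DifferentiableAt ℂ (fun u => (h u).1) u₀ := hh.fst
  have hΨ : DifferentiableAt ℂ (fun t => L (t, g t)) (h u₀).1 :=
    L.differentiableAt.comp _ (differentiableAt_id.prodMk hg)
  have e1 : ((fun t => L (t, g t)) ∘ fun u => (h u).1) =ᶠ[𝓝 u₀] id := by
    filter_upwards [hL, h1] with u hu hu1
    simp only [Function.comp_apply, id_eq, ← hu1]
    exact hu
  have e0 : L ((h u₀).1, g (h u₀).1) = u₀ := e1.self_of_nhds
  have e2 : ((fun u => (h u).1) ∘ fun t => L (t, g t)) =ᶠ[𝓝 (h u₀).1] id := by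
    filter_upwards [h2] with t ht
    simp only [Function.comp_apply, id_eq, ht]
  have c1 := (fderiv_comp u₀ hΨ hΦ).symm.trans (e1.fderiv_eq.trans fderiv_id)
  have hΦ' : DifferentiableAt ℂ (fun u => (h u).1) (L ((h u₀).1, g (h u₀).1)) := by
    rw [e0]; exact hΦ
  have c2 := (fderiv_comp (h u₀).1 hΦ' hΨ).symm.trans (e2.fderiv_eq.trans fderiv_id)
  simp only [e0] at c2
  have l1 : Function.LeftInverse (fderiv ℂ (fun t => L (t, g t)) (h u₀).1)
      (fderiv ℂ (fun u => (h u).1) u₀) := fun v => by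
    simpa using DFunLike.congr_fun c1 v
  have l2 : Function.RightInverse (fderiv ℂ (fun t => L (t, g t)) (h u₀).1)
      (fderiv ℂ (fun u => (h u).1) u₀) := fun v => by
    simpa using DFunLike.congr_fun c2 v
  exact ⟨⟨l1.injective, l2.surjective⟩, ⟨l2.injective, l1.surjective⟩⟩

omit [FiniteDimensional ℂ A] [FiniteDimensional ℂ T] in
theorem HeartE.mem {Z : Set (T × A)} {p : T × A} (h : HeartE Z p) : p ∈ Z := by
  obtain ⟨U, N, g, -, -, hp, hpg, -, hm, hZ⟩ := h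
  have := (hZ p.1 hp p.2 (hpg ▸ hm hp)).2 hpg
  simpa using this

omit [FiniteDimensional ℂ A] [FiniteDimensional ℂ T] in
theorem HeartE.eventually {Z : Set (T × A)} {p : T × A} (h : HeartE Z p) :
    ∀ᶠ q in 𝓝 p, q ∈ Z → HeartE Z q := by
  obtain ⟨U, N, g, hU, hN, hp, hpg, hg, hm, hZ⟩ := h
  have hpN : p.2 ∈ N := hpg ▸ hm hp
  have : U ×ˢ N ∈ 𝓝 p := (hU.prod hN).mem_nhds ⟨hp, hpN⟩
  filter_upwards [this] with q hq hqZ
  exact ⟨U, N, g, hU, hN, hq.1, (hZ q.1 hq.1 q.2 hq.2).1 hqZ, hg, hm, hZ⟩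

omit [FiniteDimensional ℂ A] [FiniteDimensional ℂ T] in
theorem HeartE.congr {Z Z' : Set (T × A)} {p : T × A} (h : HeartE Z p)
    (he : ∀ᶠ q in 𝓝 p, q ∈ Z ↔ q ∈ Z') : HeartE Z' p := by
  obtain ⟨U, N, g, hU, hN, hp, hpg, hg, hm, hZ⟩ := h
  obtain ⟨U', N', hU', hpU', hN', hpN', hs⟩ :=
    mem_nhds_prod_iff'.1 (show {q | q ∈ Z ↔ q ∈ Z'} ∈ 𝓝 (p.1, p.2) from he)
  refine ⟨U ∩ g ⁻¹' N' ∩ U', N ∩ N', g,
    (hg.continuousOn.isOpen_inter_preimage hU hN').inter hU', hN.inter hN',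
    ⟨⟨hp, by simpa [← hpg] using hpN'⟩, hpU'⟩, hpg, hg.mono fun t ht => ht.1.1,
    fun t ht => ⟨hm ht.1.1, ht.1.2⟩, fun t ht y hy => ?_⟩
  rw [← hZ t ht.1.1 y hy.1]
  exact (hs (show (t, y) ∈ U' ×ˢ N' from ⟨ht.2, hy.2⟩)).symm

omit [FiniteDimensional ℂ A] in
/-- At a point of a sheet that is open in Z, the set Z is a graph if and only if the projection
of the sheet has invertible derivative. -/
theorem heartE_iff_bij {B : Type} [NormedAddCommGroup B] [NormedSpace ℂ B] [FiniteDimensional ℂ B]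
    {Z : Set (T × A)} {h : B → T × A} {L : T × A →L[ℂ] B} {U : Set B} (hU : IsOpen U)
    (hh : DifferentiableOn ℂ h U) (hL : ∀ u ∈ U, L (h u) = u) (hZ : ∀ u ∈ U, h u ∈ Z) {u₀ : B}
    (hu : u₀ ∈ U) (ho : ∀ᶠ x in 𝓝 (h u₀), x ∈ Z → x = h (L x)) :
    HeartE Z (h u₀) ↔ Function.Bijective (fderiv ℂ (fun u => (h u).1) u₀) := by
  have hUu : U ∈ 𝓝 u₀ := hU.mem_nhds hu
  have hd : DifferentiableAt ℂ h u₀ := hh.differentiableAt hUu
  constructor
  · rintro ⟨U', N, g, hU', hN, hp, hpg, hg, hm, hZ'⟩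
    have hgd : DifferentiableAt ℂ g (h u₀).1 := hg.differentiableAt (hU'.mem_nhds hp)
    refine (mutual_bij (L := L) (g := g) hd ?_ hgd ?_ ?_).1
    · filter_upwards [hUu] with u hu' using hL u hu'
    · have : U' ×ˢ N ∈ 𝓝 (h u₀) := (hU'.prod hN).mem_nhds ⟨hp, hpg ▸ hm hp⟩
      filter_upwards [hUu, hd.continuousAt.preimage_mem_nhds this] with u hu' hu''
      exact (hZ' _ hu''.1 _ hu''.2).1 (hZ u hu')
    · have hc : Tendsto (fun t => (t, g t)) (𝓝 (h u₀).1) (𝓝 (h u₀)) := by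
        have := continuousAt_id.prodMk hgd.continuousAt
        simpa [ContinuousAt, ← hpg] using this
      filter_upwards [hc.eventually ho, hU'.mem_nhds hp] with t ht ht'
      exact (ht ((hZ' t ht' _ (hm ht')).2 rfl)).symm
  · intro hb
    obtain ⟨U', V', ψ, hU', hV', hu', hU'U, hψ, hm1, hm2, hi1, hi2⟩ :=
      hol_ift (Φ := fun u => (h u).1) hU hh.fst hu hb
    have hLU : ∀ᶠ x in 𝓝 (h u₀), L x ∈ U' :=
      L.continuous.continuousAt.preimage_mem_nhds (by rw [hL u₀ hu]; exact hU'.mem_nhds hu')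
    obtain ⟨U₂, N, hU₂, hpU₂, hN, hpN, hs⟩ :=
      mem_nhds_prod_iff'.1 (show {x | (x ∈ Z → x = h (L x)) ∧ L x ∈ U'} ∈ 𝓝 ((h u₀).1, (h u₀).2)
        from ho.and hLU)
    have hg : DifferentiableOn ℂ (fun t => (h (ψ t)).2) V' :=
      (hh.comp hψ fun t ht => hU'U (hm2 ht)).snd
    have hg0 : (h u₀).2 = (h (ψ (h u₀).1)).2 := by rw [hi1 u₀ hu']
    refine ⟨V' ∩ (fun t => (h (ψ t)).2) ⁻¹' N ∩ U₂, N, fun t => (h (ψ t)).2,
      (hg.continuousOn.isOpen_inter_preimage hV' hN).inter hU₂, hN,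
      ⟨⟨hm1 hu', by simpa [← hg0] using hpN⟩, hpU₂⟩, hg0, hg.mono fun t ht => ht.1.1,
      fun t ht => ht.1.2, fun t ht y hy => ⟨fun hz => ?_, fun hy' => ?_⟩⟩
    · obtain ⟨h1, h2⟩ := hs (show (t, y) ∈ U₂ ×ˢ N from ⟨ht.2, hy⟩)
      have h3 := h1 hz
      have h4 : t = (h (L (t, y))).1 := congrArg Prod.fst h3
      have h5 : ψ t = L (t, y) := by
        conv_lhs => rw [h4]
        exact hi1 _ h2
      change y = (h (ψ t)).2
      rw [h5]
      exact congrArg Prod.snd h3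
    · have h1 : (t, y) = h (ψ t) := Prod.ext (hi2 t ht.1.1).symm hy'
      rw [h1]
      exact hZ _ (hU'U (hm2 ht.1.1))

omit [FiniteDimensional ℂ A] in
theorem heart_aux_det {B : Type} [NormedAddCommGroup B] [NormedSpace ℂ B] [FiniteDimensional ℂ B]
    {U : Set A} (e : T →ₗ[ℂ] B) {D : A → B →L[ℂ] T} (hD : DifferentiableOn ℂ D U) :
    DifferentiableOn ℂ (fun u => LinearMap.det (e ∘ₗ (D u : B →ₗ[ℂ] T))) U := by
  classical
  let b := Module.finBasis ℂ B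
  have h1 : (fun u => LinearMap.det (e ∘ₗ (D u : B →ₗ[ℂ] T))) = fun u =>
      ∑ σ : Equiv.Perm (Fin (Module.finrank ℂ B)), ((Equiv.Perm.sign σ : ℤ) : ℂ) *
        ∏ i, LinearMap.toContinuousLinearMap (b.coord (σ i) ∘ₗ e) (D u (b i)) := by
    funext u
    rw [← LinearMap.det_toMatrix b, Matrix.det_apply']
    simp [LinearMap.toMatrix_apply]
  rw [h1]
  refine DifferentiableOn.fun_sum fun σ _ => DifferentiableOn.const_mul ?_ _
  intro x hx
  have h2 : ∀ i, DifferentiableWithinAt ℂ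
      (fun u => LinearMap.toContinuousLinearMap (b.coord (σ i) ∘ₗ e) (D u (b i))) U x := fun i =>
    (LinearMap.toContinuousLinearMap (b.coord (σ i) ∘ₗ e)).differentiable.comp_differentiableOn
      (hD.clm_apply (differentiableOn_const _)) x hx
  exact (HasFDerivWithinAt.finsetProd fun i _ => (h2 i).hasFDerivWithinAt).differentiableWithinAt

/-- The set where the derivative of a holomorphic map is not invertible is everything or
negligible, and it is analytic when the derivative is invertible somewhere. -/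
theorem bij_dich {B : Type} [NormedAddCommGroup B] [NormedSpace ℂ B] [FiniteDimensional ℂ B]
    {U : Set B} (hU : IsOpen U) (hc : IsPreconnected U) {Φ : B → T} (hΦ : DifferentiableOn ℂ Φ U)
    {u₀ : B} (hu : u₀ ∈ U) (hb : Function.Bijective (fderiv ℂ Φ u₀)) :
    Neg {u | ¬ Function.Bijective (fderiv ℂ Φ u)} U ∧
      ∀ u ∈ U, AnAt {u | ¬ Function.Bijective (fderiv ℂ Φ u)} u := by
  let e : B ≃ₗ[ℂ] T := LinearEquiv.ofBijective (fderiv ℂ Φ u₀ : B →ₗ[ℂ] T) hb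
  let δ : B → ℂ := fun u => LinearMap.det (e.symm.toLinearMap ∘ₗ (fderiv ℂ Φ u : B →ₗ[ℂ] T))
  have hδ : DifferentiableOn ℂ δ U := heart_aux_det e.symm.toLinearMap (hol_fderiv hU hΦ)
  have key : ∀ u, ¬ Function.Bijective (fderiv ℂ Φ u) ↔ δ u = 0 := fun u => by
    rw [not_iff_comm, ← Ne, ← isUnit_iff_ne_zero, ← LinearMap.isUnit_iff_isUnit_det,
      Module.End.isUnit_iff]
    exact (Function.Bijective.of_comp_iff' e.symm.bijective (fderiv ℂ Φ u))
  have hs : {u | ¬ Function.Bijective (fderiv ℂ Φ u)} = {u | δ u = 0} := Set.ext key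
  rw [hs]
  exact ⟨neg_zero hU hc hδ ⟨u₀, hu, fun h0 => (key u₀).2 h0 hb⟩,
    fun u hu' => anAt_eq hU hu' hδ (differentiableOn_const 0)⟩

theorem heart_an {Z : Set (T × A)} {p : T × A} (h : AnAt Z p) :
    AnAt (closure {q | HeartE Z q}) p := by
  refine split1 h (fun q hq => HeartE.mem hq) (fun q hq => HeartE.eventually hq) ?_
  intro j U s L hU hc hs hL hZ ho
  by_cases hex : ∃ u₀ ∈ U, HeartE Z (s u₀)
  · obtain ⟨u₀, hu₀, hH⟩ := hex
    have hb := (heartE_iff_bij hU hs hL hZ hu₀ (ho u₀ hu₀)).1 hH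
    have hn := (bij_dich hU hc hs.fst hu₀ hb).1
    refine Or.inr fun u hu => ?_
    refine ((hn.frequently hu).and_eventually (hU.mem_nhds hu)).mono fun u' hu' => ?_
    exact (heartE_iff_bij hU hs hL hZ hu'.2 (ho u' hu'.2)).2 (not_not.1 hu'.1)
  · exact Or.inl fun u hu hH => hex ⟨u, hu, hH⟩

section Cover

variable [MeasurableSpace A] [BorelSpace A]

/-- The set `Y` is covered by countably many locally analytic sets of sigma-finite measure. -/
def HeartAuxCov (d : ℝ) (Y : Set A) : Prop :=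
  ∃ S : ℕ → Set A, (∀ n, LocAn (S n) ∧ SF d (S n)) ∧ Y ⊆ ⋃ n, S n

omit [FiniteDimensional ℂ A] in
theorem heart_aux_cov_of {d : ℝ} {Y P : Set A} (h1 : LocAn P) (h2 : SF d P) (hY : Y ⊆ P) :
    HeartAuxCov d Y :=
  ⟨fun _ => P, fun _ => ⟨h1, h2⟩, fun _ hx => mem_iUnion.2 ⟨0, hY hx⟩⟩

omit [FiniteDimensional ℂ A] in
theorem heart_aux_cov_empty (d : ℝ) : HeartAuxCov d (∅ : Set A) :=
  heart_aux_cov_of (fun _ hx => hx.elim) (sf_empty d) subset_rfl

omit [FiniteDimensional ℂ A] in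
theorem heart_aux_cov_mono {d : ℝ} {Y Y' : Set A} (h : HeartAuxCov d Y) (hY : Y' ⊆ Y) :
    HeartAuxCov d Y' := by
  obtain ⟨S, hS, hs⟩ := h
  exact ⟨S, hS, hY.trans hs⟩

omit [FiniteDimensional ℂ A] in
theorem heart_aux_cov_iUnion {d : ℝ} {Y : ℕ → Set A} (h : ∀ n, HeartAuxCov d (Y n)) :
    HeartAuxCov d (⋃ n, Y n) := by
  choose S hS hs using h
  refine ⟨fun n => S n.unpair.1 n.unpair.2, fun n => hS _ _, fun x hx => ?_⟩
  obtain ⟨a, ha⟩ := mem_iUnion.1 hx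
  obtain ⟨b, hb⟩ := mem_iUnion.1 (hs a ha)
  exact mem_iUnion.2 ⟨Nat.pair a b, by simpa using hb⟩

omit [FiniteDimensional ℂ A] in
theorem heart_aux_cov_union {d : ℝ} {Y Y' : Set A} (h : HeartAuxCov d Y) (h' : HeartAuxCov d Y') :
    HeartAuxCov d (Y ∪ Y') := by
  refine heart_aux_cov_mono (heart_aux_cov_iUnion (Y := fun n => if n = 0 then Y else Y')
    fun n => ?_) ?_
  · split_ifs
    exacts [h, h']
  · rintro x (hx | hx)
    · exact mem_iUnion.2 ⟨0, by simpa using hx⟩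
    · exact mem_iUnion.2 ⟨1, by simpa using hx⟩

theorem heart_aux_cov_local {d : ℝ} {Y : Set A}
    (h : ∀ p ∈ Y, ∃ N ∈ 𝓝 p, HeartAuxCov d (Y ∩ N)) : HeartAuxCov d Y := by
  have := second_countable_fd A
  choose! N hN hc using h
  obtain ⟨s, hsY, hsc, hs⟩ := TopologicalSpace.countable_cover_nhdsWithin
    (f := fun p => Y ∩ N p) (s := Y) fun p hp => inter_mem_nhdsWithin Y (hN p hp)
  rcases s.eq_empty_or_nonempty with rfl | hne
  · exact heart_aux_cov_mono (heart_aux_cov_empty d) (by simpa using hs)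
  · obtain ⟨f, rfl⟩ := hsc.exists_eq_range hne
    refine heart_aux_cov_mono (heart_aux_cov_iUnion (Y := fun n => Y ∩ N (f n))
      fun n => hc _ (hsY ⟨n, rfl⟩)) ?_
    simpa using hs

end Cover

/-- On a sheet of a set in which the graph points are dense the projection has invertible
derivative somewhere. -/
theorem heart_aux_sheet {B : Type} [NormedAddCommGroup B] [NormedSpace ℂ B] [FiniteDimensional ℂ B]
    {Z : Set (T × A)} (hd : Z ⊆ closure {q | HeartE Z q}) {L : T × A →L[ℂ] B} {U : Set B} {d : ℕ}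
    {s : Fin d → B → T × A} (hs : Sheets Z L U d s) (hU : IsOpen U) (k : Fin d) {u : B}
    (hu : u ∈ U) : ∃ u' ∈ U, Function.Bijective (fderiv ℂ (fun u => (s k u).1) u') := by
  have h1 : ∀ᶠ x in 𝓝 (s k u), L x ∈ U :=
    L.continuous.continuousAt.preimage_mem_nhds (by rw [hs.sec k u hu]; exact hU.mem_nhds hu)
  obtain ⟨q, hq, hq1, hq2⟩ := ((mem_closure_iff_frequently.1 (hd (hs.mem_self k hu))).and_eventually
    (h1.and (hs.isOpen hU k hu))).exists
  have hq3 : q = s k (L q) := hq2 (HeartE.mem hq)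
  refine ⟨L q, hq1, (heartE_iff_bij hU (hs.hol k) (hs.sec k) (fun u hu => hs.mem_self k hu) hq1
    (hs.isOpen hU k hq1)).1 ?_⟩
  rw [← hq3]
  exact hq

/-- The points over good points that are not graph points. -/
theorem heart_aux_good {B : Type} [NormedAddCommGroup B] [NormedSpace ℂ B] [FiniteDimensional ℂ B]
    [Nontrivial B] [MeasurableSpace (T × A)] [BorelSpace (T × A)]
    {Z : Set (T × A)} (hd : Z ⊆ closure {q | HeartE Z q}) (L : T × A →L[ℂ] B) :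
    HeartAuxCov (rd B - 2) {x | x ∈ Z ∧ ¬ HeartE Z x ∧ ∃ d, Good Z L d (L x)} := by
  let _ : MeasurableSpace B := borel B
  have : BorelSpace B := ⟨rfl⟩
  refine heart_aux_cov_local fun q ⟨hqZ, _, d, hq⟩ => ?_
  obtain ⟨r, hr, -, s, hs⟩ := hq.exists_ball univ_mem
  have hqB : L q ∈ ball (L q) r := mem_ball_self hr
  obtain ⟨k, hk⟩ := (hs.mem q hqB).1 hqZ
  obtain ⟨u₀, hu₀, hb⟩ := heart_aux_sheet hd hs isOpen_ball k hqB
  obtain ⟨hneg, han⟩ := bij_dich isOpen_ball (convex_ball (L q) r).isPreconnected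
    (hs.hol k).fst hu₀ hb
  have hoB : IsOpen (L ⁻¹' ball (L q) r) := isOpen_ball.preimage L.continuous
  have h1 := hs.isOpen isOpen_ball k hqB
  rw [← hk] at h1
  refine ⟨_, (h1.and (hoB.mem_nhds hqB) :), heart_aux_cov_of
    (P := {x | x = s k (L x)} ∩
      L ⁻¹' {u | ¬ Function.Bijective (fderiv ℂ (fun u => (s k u).1) u)} ∩ L ⁻¹' ball (L q) r)
    (fun x hx => ?_) ?_ ?_⟩
  · refine AnAt.inter_nhds (AnAt.inter ?_ ?_) (hoB.mem_nhds hx.2)
    · exact anAt_eq (g := fun x => x) hoB hx.2 differentiableOn_id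
        ((hs.hol k).comp L.differentiable.differentiableOn fun y hy => hy)
    · exact (han _ hx.2).preimage (Eventually.of_forall fun y => L.differentiableAt)
  · have h2 : (0 : ℝ) ≤ rd B - 2 := sub_nonneg.2 two_le_rd
    refine ((neg_sf hneg).image_hol h2 isOpen_ball inter_subset_right (hs.hol k)).mono ?_
    rintro x ⟨⟨hx1, hx2⟩, hx3⟩
    exact ⟨L x, ⟨hx2, hx3⟩, hx1.symm⟩
  · rintro x ⟨⟨hxZ, hxH, -⟩, hx1, hx2⟩
    have hx3 : x = s k (L x) := hx1 hxZ
    refine ⟨⟨hx3, fun hb' => hxH ?_⟩, hx2⟩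
    rw [hx3]
    exact (heartE_iff_bij isOpen_ball (hs.hol k) (hs.sec k) (fun u hu => hs.mem_self k hu) hx2
      (hs.isOpen isOpen_ball k hx2)).2 hb'

theorem bcover [Nontrivial T] [MeasurableSpace (T × A)] [BorelSpace (T × A)] {Z : Set (T × A)}
    (hZ : LocAn Z) (hd : Z ⊆ closure {q | HeartE Z q}) :
    ∃ S : ℕ → Set (T × A), (∀ n, LocAn (S n) ∧ SF (rd T - 2) (S n)) ∧
      ∀ p ∈ Z, ¬ HeartE Z p → ∃ n, p ∈ S n := by
  suffices hc : HeartAuxCov (rd T - 2) {p | p ∈ Z ∧ ¬ HeartE Z p} by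
    obtain ⟨S, hS, hs⟩ := hc
    exact ⟨S, hS, fun p hp hH => mem_iUnion.1 (hs ⟨hp, hH⟩)⟩
  refine heart_aux_cov_local fun p ⟨hp, _⟩ => ?_
  obtain ⟨j, L, hi, hL⟩ := loc_param (hZ p hp) hp
  obtain ⟨ρ, hρ, η, hη, -, han, hside, -⟩ := hi.scale (hZ p hp) univ_mem
  have hfb := scale_fb han hside
  have hbox := isOpen_box p L ρ η
  have hbp := box_mem_nhds p L hρ hη
  have hneg := t2_loc hfb
  have hiff : ∀ x ∈ box p L ρ η, ∀ᶠ q in 𝓝 x, q ∈ Z ↔ q ∈ Z ∩ box p L ρ η := fun x hx => by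
    filter_upwards [hbox.mem_nhds hx] with q hq
    exact ⟨fun h => ⟨h, hq⟩, fun h => h.1⟩
  have hd₁ : Z ∩ box p L ρ η ⊆ closure {q | HeartE (Z ∩ box p L ρ η) q} := fun x hx => by
    refine mem_closure_iff_frequently.2 ?_
    refine ((mem_closure_iff_frequently.1 (hd hx.1)).and_eventually
      (hbox.mem_nhds hx.2)).mono fun q hq => ?_
    exact HeartE.congr hq.1 (hiff q hq.2)
  have hrank : Module.finrank ℂ (Fin j → ℂ) = Module.finrank ℂ T := by
    obtain ⟨t, ht, x, hx, rfl⟩ :=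
      ((hneg.frequently (mem_ball_self hη)).and_eventually (hL _ hbp)).exists
    obtain ⟨d, U, hU, hxU, s, hs⟩ := not_not.1 ht
    obtain ⟨k, -⟩ := (hs.mem x hxU).1 hx
    obtain ⟨u, -, hb⟩ := heart_aux_sheet hd₁ hs hU k hxU
    exact (LinearEquiv.ofBijective
      (fderiv ℂ (fun u => (s k u).1) u : (Fin j → ℂ) →ₗ[ℂ] T) hb).finrank_eq
  have hrd : rd T = rd (Fin j → ℂ) := by
    unfold rd
    rw [hrank]
  have : Nontrivial (Fin j → ℂ) := by
    rw [← Module.finrank_pos_iff (R := ℂ), hrank]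
    exact Module.finrank_pos
  obtain ⟨U₀, hU₀, hpU₀, δ, hδ, hσ, hne⟩ := hneg (L p) (mem_ball_self hη)
  have hoU : IsOpen (L ⁻¹' U₀) := hU₀.preimage L.continuous
  have hneg₀ : Neg {t | δ t = 0} U₀ := fun t ht => ⟨U₀, hU₀, ht, δ, hδ, fun _ _ h => h, hne⟩
  have hc1 : HeartAuxCov (rd (Fin j → ℂ) - 2)
      (Z ∩ box p L ρ η ∩ L ⁻¹' ({t | δ t = 0} ∩ U₀)) := by
    refine heart_aux_cov_of (fun x hx => ?_)
      (th_neg (fun q hq => ⟨hfb.an q (hfb.sub q hq), hfb.iso hq⟩) hneg₀) subset_rfl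
    refine (hfb.an x (hfb.sub x hx.1)).inter (AnAt.preimage ?_
      (Eventually.of_forall fun y => L.differentiableAt))
    exact (anAt_eq hU₀ hx.2.2 hδ (differentiableOn_const 0)).inter_nhds (hU₀.mem_nhds hx.2.2)
  refine ⟨_, inter_mem hbp (hoU.mem_nhds hpU₀), ?_⟩
  rw [hrd]
  refine heart_aux_cov_mono (heart_aux_cov_union hc1 (heart_aux_good hd₁ L)) ?_
  rintro x ⟨⟨hxZ, hxH⟩, hx1, hx2⟩
  by_cases h0 : δ (L x) = 0
  · exact Or.inl ⟨⟨hxZ, hx1⟩, h0, hx2⟩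
  · refine Or.inr ⟨⟨hxZ, hx1⟩, fun hH => hxH ?_, ?_⟩
    · exact hH.congr ((hiff x hx1).mono fun q hq => hq.symm)
    · by_contra hng
      exact h0 (hσ _ hx2 hng)

end Pool.Agent.Lib.MP_823829_an
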