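import Pool.Agent.Lib.MP_823829_an.Th

/-! Pure dimensional bounded analytic sets and holomorphic graphs. -/

namespace Pool.Agent.Lib.MP_823829_an

open Set Metric Filter MeasureTheory
open scoped Topology ENNReal NNReal ContDiff ComplexConjugate

variable {A T : Type} [NormedAddCommGroup A] [NormedSpace ℂ A] [FiniteDimensional ℂ A]
  [MeasurableSpace A] [BorelSpace A]
  [NormedAddCommGroup T] [NormedSpace ℂ T] [FiniteDimensional ℂ T] [MeasurableSpace T]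
  [BorelSpace T]

omit [MeasurableSpace A] [BorelSpace A] [MeasurableSpace T] [BorelSpace T] in
theorem t4_aux {Z : Set A} {L : A →L[ℂ] T} {T₀ : Set T} (h : FB Z L T₀) {d : ℕ}
    (hσ : Neg {t | ¬ Good Z L d t} T₀) :
    ∃ Y : T → Fin d → A, HM Y T₀ ∧
      (∀ t ∈ T₀, ∀ x, (x ∈ closure (Z ∩ L ⁻¹' (T₀ \ {t | ¬ Good Z L d t})) ∧ L x = t) ↔
        ∃ j, x = Y t j) ∧ ∀ t ∈ T₀, ∀ j, Y t j ∈ Z ∧ L (Y t j) = t := by
  have ho : IsOpen (T₀ \ {t | ¬ Good Z L d t}) := by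
    have : T₀ \ {t | ¬ Good Z L d t} = T₀ ∩ {t | Good Z L d t} := by
      ext t
      simp
    rw [this]
    exact h.op.inter (isOpen_good Z L d)
  have hg : ∀ t ∈ T₀ \ {t | ¬ Good Z L d t},
      Good (Z ∩ L ⁻¹' (T₀ \ {t | ¬ Good Z L d t})) L d t := by
    intro t ht
    have h1 : Good Z L d t := not_not.1 ht.2
    refine h1.congr ?_
    filter_upwards [ho.mem_nhds ht] with t' ht' x hx
    refine ⟨fun h2 => ⟨h2, ?_⟩, fun h2 => h2.1⟩
    show L x ∈ T₀ \ {t | ¬ Good Z L d t}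
    rw [hx]
    exact ht'
  obtain ⟨Y, hY, hiff, -⟩ := t3 h.op hσ ho (h.bdd.subset inter_subset_left)
    (fun x hx => hx.2) hg
  refine ⟨Y, hY, hiff, fun t ht j => ?_⟩
  obtain ⟨h1, h2⟩ := (hiff t ht (Y t j)).2 ⟨j, rfl⟩
  refine ⟨(h.an _ ?_).mem_of_closure (closure_mono inter_subset_left h1), h2⟩
  rw [h2]
  exact ht

theorem t4 {Z : Set A} {L : A →L[ℂ] T} {T₀ : Set T} (h : FB Z L T₀) (hc : IsPreconnected T₀)
    (hp : Pure (rd T) Z) :
    ∃ (d : ℕ) (Y : T → Fin d → A), HM Y T₀ ∧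
      (∀ t ∈ T₀, ∀ x, (x ∈ Z ∧ L x = t) ↔ ∃ j, x = Y t j) ∧ Neg {t | ¬ Good Z L d t} T₀ := by
  obtain ⟨d, hσ⟩ := t2 h hc
  obtain ⟨Y, hY, hiff, hmem⟩ := t4_aux h hσ
  refine ⟨d, Y, hY, fun t ht x => ⟨fun hx => (hiff t ht x).1 ⟨?_, hx.2⟩, ?_⟩, hσ⟩
  · by_contra hn
    have h0 := th_neg_null (fun p hp => ⟨h.an p (h.sub p hp), h.iso hp⟩) hσ
    refine hp x hx.1 _ (isClosed_closure.isOpen_compl.mem_nhds hn) (measure_mono_null ?_ h0)
    intro y hy
    refine ⟨hy.1, ?_, h.sub y hy.1⟩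
    by_contra h2
    exact hy.2 (subset_closure ⟨hy.1, h.sub y hy.1, h2⟩)
  · rintro ⟨j, rfl⟩
    exact hmem t ht j

omit [MeasurableSpace A] [BorelSpace A] [MeasurableSpace T] [BorelSpace T] in
theorem t4_aux_one {Z : Set (T × A)} {d : ℕ} {t : T}
    (hg : Good Z (ContinuousLinearMap.fst ℂ T A) d t) (hu : ∃! y, (t, y) ∈ Z) : d = 1 := by
  obtain ⟨y, hy, huy⟩ := hu
  have h1 := hg.encard
  have h2 : Z ∩ (ContinuousLinearMap.fst ℂ T A) ⁻¹' {t} = {(t, y)} := by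
    ext q
    constructor
    · rintro ⟨h3, h4⟩
      have h5 : q.1 = t := h4
      have h6 : (t, q.2) ∈ Z := by
        rw [← h5]
        exact h3
      exact Prod.ext h5 (huy _ h6)
    · rintro rfl
      exact ⟨hy, rfl⟩
  rw [h2, encard_singleton] at h1
  exact_mod_cast h1.symm

omit [MeasurableSpace A] [BorelSpace A] [MeasurableSpace T] [BorelSpace T] in
theorem ch {Z : Set (T × A)} {T₀ O : Set T} (h : FB Z (ContinuousLinearMap.fst ℂ T A) T₀)
    (hc : IsPreconnected T₀) (hO : IsOpen O) (hs : O ⊆ T₀) (hd : T₀ ⊆ closure O)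
    (hu : ∀ t ∈ O, ∃! y, (t, y) ∈ Z) (hZ : Z ⊆ closure (Z ∩ Prod.fst ⁻¹' O)) :
    ∃ g : T → A, DifferentiableOn ℂ g T₀ ∧ ∀ t ∈ T₀, ∀ y, (t, y) ∈ Z ↔ y = g t := by
  rcases T₀.eq_empty_or_nonempty with h0 | ⟨t₀, ht₀⟩
  · subst h0
    exact ⟨fun _ => 0, differentiableOn_empty, fun t ht => ht.elim⟩
  have hne : O.Nonempty := closure_nonempty_iff.1 ⟨t₀, hd ht₀⟩
  obtain ⟨d, hσ⟩ := t2 h hc
  obtain ⟨t₁, ht₁, hg₁⟩ := hσ.exists_mem hO hs hne
  have hd1 : d = 1 := t4_aux_one (not_not.1 hg₁) (hu t₁ ht₁)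
  subst hd1
  obtain ⟨Y, hY, -, hmem⟩ := t4_aux h hσ
  have hg : DifferentiableOn ℂ (fun t => (Y t 0).2) T₀ :=
    differentiable_snd.comp_differentiableOn hY.one
  have hgZ : ∀ t ∈ T₀, (t, (Y t 0).2) ∈ Z := fun t ht => by
    obtain ⟨h1, h2⟩ := hmem t ht 0
    have h3 : (Y t 0).1 = t := h2
    have h4 : (t, (Y t 0).2) = Y t 0 := Prod.ext h3.symm rfl
    rw [h4]
    exact h1
  refine ⟨fun t => (Y t 0).2, hg, fun t ht y => ⟨fun hy => ?_, ?_⟩⟩
  · by_contra hn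
    have hcont : ContinuousAt (fun q : T × A => (Y q.1 0).2) (t, y) :=
      ContinuousAt.comp (f := Prod.fst) (hg.continuousOn.continuousAt (h.op.mem_nhds ht))
        continuousAt_fst
    have hev : ∀ᶠ q in 𝓝 (t, y), q.2 ≠ (Y q.1 0).2 :=
      (continuousAt_snd.prodMk hcont).eventually_mem
        (isClosed_diagonal.isOpen_compl.mem_nhds hn)
    obtain ⟨q, hq1, hq2, hq3⟩ := mem_closure_iff_nhds.1 (hZ hy) _ hev
    exact hq1 ((hu q.1 hq3).unique hq2 (hgZ q.1 (hs hq3)))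
  · rintro rfl
    exact hgZ t ht

omit [MeasurableSpace A] [BorelSpace A] [MeasurableSpace T] [BorelSpace T] in
theorem ch_loc {Z : Set (T × A)} {T₀ O : Set T} (h : FB Z (ContinuousLinearMap.fst ℂ T A) T₀)
    (hO : IsOpen O) (hne : O.Nonempty) (hs : O ⊆ T₀) (hu : ∀ t ∈ O, ∃! y, (t, y) ∈ Z) :
    ∃ (U : Set T) (g : T → A), IsOpen U ∧ U.Nonempty ∧ U ⊆ O ∧ DifferentiableOn ℂ g U ∧
      ∀ t ∈ U, ∀ y, (t, y) ∈ Z ↔ y = g t := by
  obtain ⟨t₁, ht₁, hg₁⟩ := (t2_loc h).exists_mem hO hs hne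
  obtain ⟨d, hg⟩ : ∃ d, Good Z (ContinuousLinearMap.fst ℂ T A) d t₁ := not_not.1 hg₁
  have hd1 : d = 1 := t4_aux_one hg (hu t₁ ht₁)
  subst hd1
  obtain ⟨r, hr, hsub, s, hsh⟩ := hg.exists_ball (hO.mem_nhds ht₁)
  refine ⟨ball t₁ r, fun t => (s 0 t).2, isOpen_ball, ⟨t₁, mem_ball_self hr⟩, hsub,
    differentiable_snd.comp_differentiableOn (hsh.hol 0), fun t ht y => ?_⟩
  rw [hsh.mem (t, y) ht]
  constructor
  · rintro ⟨j, hj⟩
    rw [Subsingleton.elim j 0] at hj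
    exact congrArg Prod.snd hj
  · rintro rfl
    exact ⟨0, Prod.ext (hsh.sec 0 t ht).symm rfl⟩

variable [MeasurableSpace (T × A)] [BorelSpace (T × A)]

omit [MeasurableSpace A] [BorelSpace A] in
theorem GS.pure {Z W : Set (T × A)} {O : Set T} {g : T → A} (h : GS Z W O g) :
    Pure (rd T) Z := by
  intro p hp N hN h0
  obtain ⟨q, hq1, hq2, hq3⟩ := mem_closure_iff_nhds.1 (h.dense hp) _ (interior_mem_nhds.2 hN)
  have hq4 : q.2 = g q.1 := (h.gr q.1 hq3 q.2).1 hq2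
  have hcont : ContinuousAt (fun t => (t, g t)) q.1 :=
    continuousAt_id.prodMk (h.hol.continuousOn.continuousAt (h.opO.mem_nhds hq3))
  have hev : ∀ᶠ t in 𝓝 q.1, (t, g t) ∈ interior N := by
    refine hcont.eventually_mem (isOpen_interior.mem_nhds ?_)
    rw [← hq4]
    exact hq1
  have h1 := null_image_clm (rd_nonneg (T := T)) h0 (ContinuousLinearMap.fst ℂ T A)
  refine hausdorff_ne_zero (t := q.1) ?_ h1
  filter_upwards [hev, h.opO.mem_nhds hq3] with t ht htO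
  exact ⟨(t, g t), ⟨(h.gr t htO _).2 rfl, interior_subset ht⟩, rfl⟩

omit [MeasurableSpace A] [BorelSpace A] in
theorem GS.sf {Z W : Set (T × A)} {O : Set T} {g : T → A} (h : GS Z W O g) : SF (rd T) Z := by
  have h1 : SF (rd T) ((fun t => (t, g t)) '' O) :=
    SF.image_hol (rd_nonneg (T := T)) (sf_univ.mono (subset_univ O)) h.opO subset_rfl
      (differentiableOn_id.prodMk h.hol)
  have h2 : SF (rd T) (Z \ Prod.fst ⁻¹' O) :=
    (sf_of_lt_top (d := rd T - 1) (by rw [h.thin]; exact ENNReal.zero_lt_top)).mono_dim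
      (by linarith)
  refine (h1.union h2).mono fun q hq => ?_
  by_cases h3 : q.1 ∈ O
  · exact Or.inl ⟨q.1, h3, Prod.ext rfl ((h.gr q.1 h3 q.2).1 hq).symm⟩
  · exact Or.inr ⟨hq, h3⟩

omit [MeasurableSpace A] [BorelSpace A] in
theorem GS.iso {Z W : Set (T × A)} {O : Set T} {g : T → A} (h : GS Z W O g) {p : T × A}
    (hp : p ∈ Z) : ∃ L : T × A →L[ℂ] T, Iso Z p L := by
  refine dim_iso (h.an p (h.sub hp)) hp univ_mem ?_
  rw [inter_univ]
  exact h.sf.null (by linarith)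

omit [MeasurableSpace A] [BorelSpace A] in
theorem t4_aux_compact {Z W : Set (T × A)} {O : Set T} {g : T → A} (h : GS Z W O g)
    {K : Set (T × A)} (hK : IsCompact K) (hW : K ⊆ W) : IsCompact (K ∩ Z) := by
  have : K ∩ Z = K ∩ closure Z := by
    ext q
    exact ⟨fun hq => ⟨hq.1, subset_closure hq.2⟩,
      fun hq => ⟨hq.1, (h.an q (hW hq.1)).mem_of_closure hq.2⟩⟩
  rw [this]
  exact hK.inter_right isClosed_closure

omit [MeasurableSpace A] [BorelSpace A] in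
/-- A compact subset of the chart domain that avoids the singular part meets the graph over a
compact set. -/
theorem GS.isCompact {Z W : Set (T × A)} {O : Set T} {g : T → A} (h : GS Z W O g)
    {K : Set (T × A)} (hK : IsCompact K) (hW : K ⊆ W) (hE : Disjoint K (Z \ Prod.fst ⁻¹' O)) :
    IsCompact (O ∩ {t | (t, g t) ∈ K}) := by
  have : O ∩ {t | (t, g t) ∈ K} = Prod.fst '' (K ∩ Z) := by
    ext t
    constructor
    · rintro ⟨h1, h2⟩
      exact ⟨(t, g t), ⟨h2, (h.gr t h1 _).2 rfl⟩, rfl⟩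
    · rintro ⟨q, ⟨h1, h2⟩, rfl⟩
      have h3 : q.1 ∈ O := by
        by_contra h4
        exact Set.disjoint_left.1 hE h1 ⟨h2, h4⟩
      refine ⟨h3, ?_⟩
      show (q.1, g q.1) ∈ K
      rw [← (h.gr q.1 h3 q.2).1 h2]
      exact h1
  rw [this]
  exact (t4_aux_compact h hK hW).image continuous_fst

omit [MeasurableSpace A] [BorelSpace A] in
theorem GS.isCompact_sing {Z W : Set (T × A)} {O : Set T} {g : T → A} (h : GS Z W O g)
    {K : Set (T × A)} (hK : IsCompact K) (hW : K ⊆ W) :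
    IsCompact (K ∩ (Z \ Prod.fst ⁻¹' O)) := by
  have : K ∩ (Z \ Prod.fst ⁻¹' O) = (K ∩ Z) ∩ (Prod.fst ⁻¹' O)ᶜ := by
    rw [inter_assoc]
    rfl
  rw [this]
  exact (t4_aux_compact h hK hW).inter_right (h.opO.preimage continuous_fst).isClosed_compl

omit [MeasurableSpace A] [BorelSpace A] in
theorem GS.measurableSet {Z W : Set (T × A)} {O : Set T} {g : T → A} (h : GS Z W O g)
    {B : Set (T × A)} (hB : MeasurableSet B) : MeasurableSet (O ∩ {t | (t, g t) ∈ B}) := by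
  classical
  have h1 : Measurable (O.piecewise (fun t => (t, g t)) fun _ => (0 : T × A)) :=
    ContinuousOn.measurable_piecewise (continuousOn_id.prodMk h.hol.continuousOn)
      continuousOn_const h.opO.measurableSet
  have : O ∩ {t | (t, g t) ∈ B} =
      O ∩ (O.piecewise (fun t => (t, g t)) fun _ => (0 : T × A)) ⁻¹' B := by
    ext t
    refine and_congr_right fun ht => ?_
    rw [mem_preimage, piecewise_eq_of_mem _ _ _ ht]
    rfl
  rw [this]
  exact h.opO.measurableSet.inter (h1 hB)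

end Pool.Agent.Lib.MP_823829_an
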