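import Pool.Agent.Lib.MP_823829_an.TC
import Pool.Agent.Lib.MP_823829_an.Heart
import Pool.Agent.Lib.MP_823829_an.T4

/-! Holomorphic families of sheets near a nice fibre. -/

namespace Pool.Agent.Lib.MP_823829_an

open Set Metric Filter MeasureTheory
open scoped Topology ENNReal NNReal ContDiff ComplexConjugate

variable {E : Type} [NormedAddCommGroup E] [NormedSpace ℂ E] [FiniteDimensional ℂ E]
  [MeasurableSpace (C2 × E)] [BorelSpace (C2 × E)]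

/-- The data of the extension lemma in a chart. -/
structure LC (F : Filter C2) (s : C2) (Z : C2 → Set (C2 × E)) (W : Set (C2 × E)) : Prop where
  rf : RF F s
  op : IsOpen W
  an : ∀ᶠ z in F, Z z ⊆ W ∧ (∀ x ∈ W, AnAt (Z z) x) ∧ Pure 4 (Z z)
  avoid : ∀ C ⊆ W, IsCompact C → Disjoint C (Z s) → ∀ᶠ z in F, Disjoint C (Z z)
  nice : μH[4] (Z s \ {q | Fam F s Z q}) = 0
  dim : μH[6] (Z s) = 0

omit [MeasurableSpace (C2 × E)] [BorelSpace (C2 × E)] [FiniteDimensional ℂ E] in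
theorem a2a_aux_bij {L : C2 × E →L[ℂ] C2} {g : C4 → E} {s w : C2}
    (hg : DifferentiableAt ℂ g (s, w))
    (hb : Function.Bijective (fderiv ℂ (fun t => L (t, g (s, t))) w)) :
    Function.Bijective (fderiv ℂ (fun r : C4 => ((r.1, L (r.2, g r)) : C4)) (s, w)) := by
  have h2 : DifferentiableAt ℂ (fun r : C4 => L (r.2, g r)) (s, w) :=
    L.differentiableAt.comp _ (differentiableAt_snd.prodMk hg)
  have hD := (hasFDerivAt_fst (𝕜 := ℂ) (p := ((s, w) : C4))).prodMk h2.hasFDerivAt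
  have hc : fderiv ℂ (fun t => L (t, g (s, t))) w =
      (fderiv ℂ (fun r : C4 => L (r.2, g r)) (s, w)).comp (ContinuousLinearMap.inr ℂ C2 C2) :=
    (h2.hasFDerivAt.comp w (hasFDerivAt_prodMk_right (𝕜 := ℂ) s w)).fderiv
  rw [hD.fderiv]
  set D := fderiv ℂ (fun r : C4 => L (r.2, g r)) (s, w)
  have hinj : Function.Injective ((ContinuousLinearMap.fst ℂ C2 C2).prod D) := by
    refine (injective_iff_map_eq_zero _).2 fun a ha => ?_
    have h1 : a.1 = 0 := congrArg Prod.fst ha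
    have h3 : D a = 0 := congrArg Prod.snd ha
    have h4 : a = (0, a.2) := Prod.ext h1 rfl
    have h5 : a.2 = 0 := by
      refine (injective_iff_map_eq_zero _).1 hb.1 a.2 ?_
      rw [hc]
      rw [h4] at h3
      exact h3
    exact Prod.ext h1 h5
  exact ⟨hinj, (LinearMap.injective_iff_surjective
    (f := ((ContinuousLinearMap.fst ℂ C2 C2).prod D).toLinearMap)).1 hinj⟩

omit [MeasurableSpace (C2 × E)] [BorelSpace (C2 × E)] in
theorem a2a_aux_loc {F : Filter C2} {s : C2} {Z : C2 → Set (C2 × E)} (hF : RF F s)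
    {L : C2 × E →L[ℂ] C2} {k : C2 → C2 × E} {t₁ : C2} (hfam : Fam F s Z (k t₁))
    (hk : DifferentiableAt ℂ k t₁) (hL : ∀ᶠ u in 𝓝 t₁, L (k u) = u)
    (hZ : ∀ᶠ u in 𝓝 t₁, k u ∈ Z s) (ho : ∀ᶠ x in 𝓝 (k t₁), x ∈ Z s → x = k (L x))
    {N' : Set (C2 × E)} (hN' : IsOpen N') (hq : k t₁ ∈ N') :
    ∃ (V T : Set C2) (O : Set (C2 × E)) (y : C2 × C2 → C2 × E), IsOpen V ∧ IsOpen T ∧ IsOpen O ∧
      s ∈ V ∧ t₁ ∈ T ∧ k t₁ ∈ O ∧ DifferentiableOn ℂ y (V ×ˢ T) ∧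
      ∀ᶠ z in F, (∀ t ∈ T, y (z, t) ∈ Z z ∧ y (z, t) ∈ N' ∧ L (y (z, t)) = t) ∧
        ∀ x ∈ O, x ∈ Z z → x = y (z, L x) := by
  obtain ⟨V, B, N, g, hV, hB, hN, hsV, hqB, hqN, hg, hgN, hev⟩ := hfam
  have hs := hF.self hev
  have hVB : IsOpen (V ×ˢ B) := hV.prod hB
  have hq2 : (k t₁).2 = g (s, (k t₁).1) := (hs _ hqB _ hqN).1 hZ.self_of_nhds
  have hgd : DifferentiableAt ℂ g (s, (k t₁).1) := hg.differentiableAt (hVB.mem_nhds ⟨hsV, hqB⟩)
  have hgs : DifferentiableAt ℂ (fun t => g (s, t)) (k t₁).1 :=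
    hgd.comp _ ((differentiableAt_const s).prodMk differentiableAt_id)
  have h1 : ∀ᶠ u in 𝓝 t₁, (k u).2 = g (s, (k u).1) := by
    filter_upwards [hZ, hk.continuousAt.preimage_mem_nhds ((hB.prod hN).mem_nhds ⟨hqB, hqN⟩)]
      with u hu hu'
    exact (hs _ hu'.1 _ hu'.2).1 hu
  have h2 : ∀ᶠ t in 𝓝 (k t₁).1, k (L (t, g (s, t))) = (t, g (s, t)) := by
    have hc : Tendsto (fun t => ((t, g (s, t)) : C2 × E)) (𝓝 (k t₁).1) (𝓝 (k t₁)) := by
      have := (continuousAt_id.prodMk hgs.continuousAt).tendsto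
      simp only [id] at this
      rwa [← hq2] at this
    filter_upwards [hc.eventually ho, hB.mem_nhds hqB] with t ht htB
    exact (ht ((hs t htB _ (hgN ⟨hsV, htB⟩)).2 rfl)).symm
  have hb := a2a_aux_bij hgd (mutual_bij (g := fun t => g (s, t)) hk hL hgs h1 h2).2
  have hG : DifferentiableOn ℂ (fun r : C4 => ((r.2, g r) : C2 × E)) (V ×ˢ B) :=
    differentiableOn_snd.prodMk hg
  have hU : IsOpen (V ×ˢ B ∩ (fun r : C4 => ((r.2, g r) : C2 × E)) ⁻¹' N') :=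
    hG.continuousOn.isOpen_inter_preimage hVB hN'
  have hΦ : DifferentiableOn ℂ (fun r : C4 => ((r.1, L (r.2, g r)) : C4))
      (V ×ˢ B ∩ (fun r : C4 => ((r.2, g r) : C2 × E)) ⁻¹' N') :=
    differentiableOn_fst.prodMk
      (L.differentiable.comp_differentiableOn (hG.mono inter_subset_left))
  have hqq : (((k t₁).1, g (s, (k t₁).1)) : C2 × E) = k t₁ := by rw [← hq2]
  obtain ⟨U', V', ψ, hU', hV', hpU, hUU, hψ, hm1, hm2, hi1, hi2⟩ :=
    hol_ift hU hΦ (p := (s, (k t₁).1)) ⟨⟨hsV, hqB⟩, by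
      show (((k t₁).1, g (s, (k t₁).1)) : C2 × E) ∈ N'
      rwa [hqq]⟩ hb
  have hst : ((s, t₁) : C4) ∈ V' := by
    have := hm1 hpU
    simp only [hqq, hL.self_of_nhds] at this
    exact this
  obtain ⟨V₁, T, hV₁, hT, hs₁, ht₁, hVT⟩ := isOpen_prod_iff.1 hV' s t₁ hst
  obtain ⟨V₂, B₂, hV₂, hB₂, hs₂, hq₂, hVB₂⟩ := isOpen_prod_iff.1 hU' s (k t₁).1 hpU
  refine ⟨V₁, T, B₂ ×ˢ N, fun r => ((ψ r).2, g (ψ r)), hV₁, hT, hB₂.prod hN, hs₁, ht₁,
    ⟨hq₂, hqN⟩, hG.comp (hψ.mono hVT) fun r hr => (hUU (hm2 (hVT hr))).1, ?_⟩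
  filter_upwards [hev, hF.le (hV₁.mem_nhds hs₁), hF.le (hV₂.mem_nhds hs₂)] with z hz hz₁ hz₂
  refine ⟨fun t ht => ?_, fun x hx hxZ => ?_⟩
  · have a1 : ((z, t) : C4) ∈ V' := hVT ⟨hz₁, ht⟩
    have a2 := hUU (hm2 a1)
    have a3 := hi2 _ a1
    have a4 : (ψ (z, t)).1 = z := congrArg Prod.fst a3
    refine ⟨(hz _ a2.1.2 _ (hgN a2.1)).2 ?_, a2.2, congrArg Prod.snd a3⟩
    exact congrArg g (Prod.ext a4 rfl)
  · have a1 : ((z, x.1) : C4) ∈ U' := hVB₂ ⟨hz₂, hx.1⟩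
    have a2 : x.2 = g (z, x.1) := (hz _ (hUU a1).1.2 _ hx.2).1 hxZ
    have a3 : ((x.1, g (z, x.1)) : C2 × E) = x := by rw [← a2]
    have a4 := hi1 _ a1
    simp only [a3] at a4
    simp only [a4, a3]

theorem lc_sheets {F : Filter C2} {s : C2} {Z : C2 → Set (C2 × E)} {W : Set (C2 × E)}
    (h : LC F s Z W) {p : C2 × E} {L : C2 × E →L[ℂ] C2} {ρ η : ℝ} (hη : 0 < η)
    (hW : closedBall p ρ ⊆ W) (hs : Disjoint (side p L ρ η) (Z s)) {κ : ℝ} (hκ : 0 < κ) :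
    ∃ t₁ ∈ ball (L p) κ, ∃ ε : ℝ, 0 < ε ∧ ball t₁ ε ⊆ ball (L p) η ∧
      ∃ V : Set C2, IsOpen V ∧ s ∈ V ∧ ∃ (d : ℕ) (y : Fin d → C2 × C2 → C2 × E),
        (∀ j, DifferentiableOn ℂ (y j) (V ×ˢ ball t₁ ε)) ∧
          ∀ᶠ z in F, Sheets (Z z ∩ box p L ρ η) L (ball t₁ ε) d fun j t => y j (z, t) := by
  have := FiniteDimensional.proper ℂ (C2 × E)
  obtain ⟨-, han, -⟩ := h.rf.self h.an
  have hfb : FB (Z s ∩ box p L ρ η) L (ball (L p) η) :=
    scale_fb (fun x hx => han x (hW hx)) hs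
  obtain ⟨d, hd⟩ := t2 hfb (convex_ball _ _).isPreconnected
  have hn1 := neg_null hd
  have hn2 := null_image_clm (by norm_num) h.nice L
  rw [← rd_C2] at hn2
  obtain ⟨t₁, ht₁, hno⟩ := exists_notMem_of_null (measure_union_null hn1 hn2)
    (O := ball (L p) (min κ η)) isOpen_ball (nonempty_ball.2 (lt_min hκ hη))
  have htκ : t₁ ∈ ball (L p) κ := ball_subset_ball (min_le_left _ _) ht₁
  have htη : t₁ ∈ ball (L p) η := ball_subset_ball (min_le_right _ _) ht₁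
  have hgood : Good (Z s ∩ box p L ρ η) L d t₁ := by
    by_contra hc
    exact hno (Or.inl ⟨hc, htη⟩)
  obtain ⟨U, hU, htU, k, hk⟩ := hgood
  have hfam : ∀ j, Fam F s Z (k j t₁) := fun j => by
    by_contra hc
    exact hno (Or.inr ⟨k j t₁, ⟨(hk.mem_self j htU).1, hc⟩, hk.sec j t₁ htU⟩)
  obtain ⟨S, hS, hSd⟩ := (finite_range fun j => k j t₁).t2_separation
  have hbox := isOpen_box p L ρ η
  have key := fun j => a2a_aux_loc h.rf (hfam j) ((hk.hol j).differentiableAt (hU.mem_nhds htU))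
    (by filter_upwards [hU.mem_nhds htU] with u hu using hk.sec j u hu)
    (by filter_upwards [hU.mem_nhds htU] with u hu using (hk.mem_self j hu).1)
    (by
      filter_upwards [hk.isOpen hU j htU, hbox.mem_nhds (hk.mem_self j htU).2] with x h1 h2 h3
      exact h1 ⟨h3, h2⟩)
    ((hS (k j t₁)).2.inter hbox) ⟨(hS _).1, (hk.mem_self j htU).2⟩
  choose V T O y hV hT hO hsV htT hqO hy hev using key
  have hOo : IsOpen (⋃ j, O j) := isOpen_iUnion hO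
  have htube := hfb.tube htη hOo fun x hx hxt => by
    obtain ⟨j, hj⟩ := (hk.mem x (hxt ▸ htU)).1 hx
    rw [hxt] at hj
    exact mem_iUnion.2 ⟨j, hj ▸ hqO j⟩
  have hTs : ∀ᶠ t in 𝓝 t₁, ∀ j, t ∈ T j := eventually_all.2 fun j => (hT j).mem_nhds (htT j)
  obtain ⟨ε, hε, hεs⟩ := Metric.nhds_basis_closedBall.mem_iff.1
    (htube.and (hTs.and (isOpen_ball.mem_nhds htη)))
  have hb : ∀ t ∈ ball t₁ ε, ∀ j, t ∈ T j := fun t ht => (hεs (ball_subset_closedBall ht)).2.1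
  have hC : IsCompact ((closedBall p ρ ∩ L ⁻¹' closedBall t₁ ε) \ ⋃ j, O j) :=
    ((isCompact_closedBall p ρ).inter_right (isClosed_closedBall.preimage L.continuous)).diff hOo
  have hav := h.avoid _ (fun x hx => hW hx.1.1) hC (by
    refine disjoint_left.2 fun x hx hxZ => ?_
    obtain ⟨a1, -, a2⟩ := hεs hx.1.2
    rcases (mem_closedBall.1 hx.1.1).lt_or_eq with h1 | h1
    · exact hx.2 (a1 x ⟨hxZ, h1, a2⟩ rfl)
    · exact disjoint_left.1 hs ⟨h1, ball_subset_closedBall a2⟩ hxZ)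
  refine ⟨t₁, htκ, ε, hε, fun t ht => (hεs (ball_subset_closedBall ht)).2.2, ⋂ j, V j,
    isOpen_iInter_of_finite hV, mem_iInter.2 hsV, d, y,
    fun j => (hy j).mono fun r hr => ⟨mem_iInter.1 hr.1 j, hb _ hr.2 j⟩, ?_⟩
  filter_upwards [hav, eventually_all.2 hev,
    eventually_all.2 fun j => h.rf.le ((hV j).mem_nhds (hsV j))] with z hz1 hz2 hz3
  refine ⟨fun j => ?_, fun j t ht => ((hz2 j).1 t (hb t ht j)).2.2, fun t ht i j hij => ?_,
    fun x hx => ⟨fun hxZ => ?_, ?_⟩⟩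
  · exact (hy j).comp ((differentiableOn_const z).prodMk differentiableOn_id)
      fun t ht => ⟨hz3 j, hb t ht j⟩
  · by_contra hne
    have a1 : k i t₁ ≠ k j t₁ := fun he => hne (hk.inj t₁ htU he)
    have a2 := ((hz2 i).1 t (hb t ht i)).2.1.1
    have a3 := ((hz2 j).1 t (hb t ht j)).2.1.1
    have a4 : y i (z, t) = y j (z, t) := hij
    rw [a4] at a2
    exact disjoint_left.1 (hSd (mem_range_self i) (mem_range_self j) a1) a2 a3
  · have a1 : x ∈ ⋃ j, O j := by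
      by_contra hc
      exact disjoint_left.1 hz1
        ⟨⟨ball_subset_closedBall hxZ.2.1, ball_subset_closedBall hx⟩, hc⟩ hxZ.1
    obtain ⟨j, hj⟩ := mem_iUnion.1 a1
    exact ⟨j, (hz2 j).2 x hj hxZ.1⟩
  · rintro ⟨j, hj⟩
    have a1 := (hz2 j).1 (L x) (hb _ hx j)
    rw [← hj] at a1
    exact ⟨a1.1, a1.2.1.2⟩

end Pool.Agent.Lib.MP_823829_an
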