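import Pool.Agent.Lib.MP_823829_an.An

/-! Holomorphic multifunctions and closures of bounded covers. -/

namespace Pool.Agent.Lib.MP_823829_an

open Set Metric Filter MeasureTheory
open scoped Topology ENNReal NNReal ContDiff ComplexConjugate

variable {A T : Type} [NormedAddCommGroup A] [NormedSpace ℂ A] [FiniteDimensional ℂ A]
  [NormedAddCommGroup T] [NormedSpace ℂ T] [FiniteDimensional ℂ T]

theorem hm_aux_det (F : Type) [NormedAddCommGroup F] [NormedSpace ℂ F] [FiniteDimensional ℂ F]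
    (d : ℕ) : ∃ (n : ℕ) (ξ : Fin n → F →L[ℂ] ℂ),
      ∀ v : Fin d → F, (∀ i, v i ≠ 0) → ∃ j, ∀ i, ξ j (v i) ≠ 0 := by
  classical
  let P : F →ₗ[ℂ] Polynomial ℂ :=
    (Polynomial.ofFn (Module.finrank ℂ F)).comp (Module.finBasis ℂ F).equivFun.toLinearMap
  have hP : Function.Injective P :=
    (Polynomial.injective_ofFn _).comp (Module.finBasis ℂ F).equivFun.injective
  have hd : ∀ v, (P v).natDegree ≤ Module.finrank ℂ F := fun v =>
    Polynomial.natDegree_le_of_degree_le (Polynomial.ofFn_degree_lt _).le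
  refine ⟨d * Module.finrank ℂ F + 1, fun j => LinearMap.toContinuousLinearMap
    ((Polynomial.leval ((j : ℕ) : ℂ)).comp P), fun v hv => ?_⟩
  by_contra h
  push Not at h
  have h0 : ∏ i, P (v i) = 0 := by
    refine Polynomial.eq_zero_of_natDegree_lt_card_of_eval_eq_zero _
      (f := fun j : Fin (d * Module.finrank ℂ F + 1) => ((j : ℕ) : ℂ))
      (Nat.cast_injective.comp Fin.val_injective) (fun j => ?_) ?_
    · obtain ⟨i, hi⟩ := h j
      rw [Polynomial.eval_prod]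
      exact Finset.prod_eq_zero (Finset.mem_univ i) hi
    · refine (Polynomial.natDegree_prod_le _ _).trans_lt ?_
      rw [Fintype.card_fin, Nat.lt_succ_iff]
      exact (Finset.sum_le_card_nsmul _ _ _ fun i _ => hd (v i)).trans_eq (by simp)
  obtain ⟨i, -, hi⟩ := Finset.prod_eq_zero_iff.1 h0
  exact hv i (hP (hi.trans (map_zero P).symm))

theorem sep_family (A : Type) [NormedAddCommGroup A] [NormedSpace ℂ A] [FiniteDimensional ℂ A]
    (d : ℕ) : ∃ Ξ : Finset (A →L[ℂ] ℂ), ∀ (y : Fin d → A) (x : A),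
      (∀ ξ ∈ Ξ, ∏ j, (ξ x - ξ (y j)) = 0) → ∃ j, x = y j := by
  classical
  obtain ⟨n, ξ, hξ⟩ := hm_aux_det A d
  refine ⟨Finset.univ.image ξ, fun y x h => ?_⟩
  by_contra hn
  obtain ⟨k, hk⟩ := hξ (fun j => x - y j) fun j e => hn ⟨j, sub_eq_zero.1 e⟩
  obtain ⟨j, -, hj⟩ :=
    Finset.prod_eq_zero_iff.1 (h (ξ k) (Finset.mem_image_of_mem _ (Finset.mem_univ k)))
  exact hk j (by rw [map_sub]; exact hj)

theorem lagr_prod (d : ℕ) : ∃ ℓ : Fin (d + 1) → ℂ → ℂ, (∀ i, Differentiable ℂ (ℓ i)) ∧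
    ∀ (r : Fin d → ℂ) (c : ℂ), ∏ j, (c - r j) = ∑ i, ℓ i c * ∏ j, (((i : ℕ) : ℂ) - r j) := by
  classical
  let v : Fin (d + 1) → ℂ := fun i => ((i : ℕ) : ℂ)
  have hv : Set.InjOn v (Finset.univ : Finset (Fin (d + 1))) :=
    (Nat.cast_injective.comp Fin.val_injective).injOn
  refine ⟨fun i c => (Lagrange.basis Finset.univ v i).eval c,
    fun i => Polynomial.differentiable _, fun r c => ?_⟩
  have hdeg : (∏ j, (Polynomial.X - Polynomial.C (r j))).degree <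
      (((Finset.univ : Finset (Fin (d + 1))).card : ℕ) : WithBot ℕ) := by
    rw [Polynomial.degree_prod]
    simp only [Polynomial.degree_X_sub_C, Finset.sum_const, Finset.card_univ, Fintype.card_fin,
      nsmul_eq_mul, mul_one]
    exact_mod_cast Nat.lt_succ_self d
  have h := congrArg (Polynomial.eval c) (Lagrange.eq_interpolate hv hdeg)
  rw [Lagrange.interpolate_apply, Polynomial.eval_finsetSum] at h
  simp only [Polynomial.eval_prod, Polynomial.eval_sub, Polynomial.eval_X, Polynomial.eval_C,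
    Polynomial.eval_mul] at h
  rw [h]
  exact Finset.sum_congr rfl fun i _ => mul_comm _ _

theorem prod_eq_of_range {α : Type} {d : ℕ} {y y' : Fin d → α} (hy : Function.Injective y)
    (h : ∀ x, (∃ j, x = y j) ↔ ∃ j, x = y' j) (φ : α → ℂ) : ∏ j, φ (y j) = ∏ j, φ (y' j) := by
  choose e he using fun j => (h (y j)).1 ⟨j, rfl⟩
  have hi : Function.Injective e := fun a b hab => hy (by rw [he a, he b, hab])
  exact Fintype.prod_bijective e (Finite.injective_iff_bijective.1 hi) _ _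
    fun j => congrArg φ (he j)

omit [FiniteDimensional ℂ A] [FiniteDimensional ℂ T] in
theorem HM.joint {d : ℕ} {Y : T → Fin d → A} {T₀ : Set T} (h : HM Y T₀) (ξ : A →L[ℂ] ℂ) :
    DifferentiableOn ℂ (fun q : T × ℂ => ∏ j, (q.2 - ξ (Y q.1 j))) (T₀ ×ˢ univ) := by
  obtain ⟨ℓ, hℓ, e⟩ := lagr_prod d
  refine DifferentiableOn.congr
    (f := fun q : T × ℂ => ∑ i, ℓ i q.2 * ∏ j, (((i : ℕ) : ℂ) - ξ (Y q.1 j))) ?_
    fun q _ => e (fun j => ξ (Y q.1 j)) q.2
  refine DifferentiableOn.fun_sum fun i _ => DifferentiableOn.mul ?_ ?_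
  · exact ((hℓ i).comp differentiable_snd).differentiableOn
  · exact (h ξ ((i : ℕ) : ℂ)).comp differentiableOn_fst fun q hq => hq.1

omit [FiniteDimensional ℂ T] in
theorem HM.anAt {d : ℕ} {Y : T → Fin d → A} {T₀ : Set T} (h : HM Y T₀) (hT : IsOpen T₀)
    (L : A →L[ℂ] T) {x : A} (hx : L x ∈ T₀) : AnAt {x | ∃ j, x = Y (L x) j} x := by
  obtain ⟨Ξ, hΞ⟩ := sep_family A d
  refine anAt_of_finite (ι := Ξ) (T := ℂ) (U := L ⁻¹' T₀) (hT.preimage L.continuous) hx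
    (fun ξ y => ∏ j, (ξ.1 y - ξ.1 (Y (L y) j))) (fun ξ => ?_) fun y _ => ⟨?_, fun h0 => ?_⟩
  · exact (h.joint ξ.1).comp (f := fun y : A => (L y, ξ.1 y)) (by fun_prop)
      fun y hy => ⟨hy, trivial⟩
  · rintro ⟨j, hj⟩ ξ
    exact Finset.prod_eq_zero (Finset.mem_univ j) (by rw [← hj, sub_self])
  · exact hΞ _ _ fun ξ hξ => h0 ⟨ξ, hξ⟩

omit [FiniteDimensional ℂ T] in
theorem HM.one {Y : T → Fin 1 → A} {T₀ : Set T} (h : HM Y T₀) :
    DifferentiableOn ℂ (fun t => Y t 0) T₀ := by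
  let e : A ≃L[ℂ] (Fin (Module.finrank ℂ A) → ℂ) := ContinuousLinearEquiv.ofFinrankEq (by simp)
  rw [← e.comp_differentiableOn_iff]
  refine differentiableOn_pi.2 fun i => ?_
  let ξ : A →L[ℂ] ℂ := (ContinuousLinearMap.proj (R := ℂ) (φ := fun _ => ℂ) i).comp
    (e : A →L[ℂ] (Fin (Module.finrank ℂ A) → ℂ))
  refine (h ξ 0).neg.congr fun t _ => ?_
  simp [ξ]

/-- a limit value of a bounded family along a filter that stays in `N` -/
theorem hm_aux_limit {T F : Type} [TopologicalSpace T] [NormedAddCommGroup F] [NormedSpace ℂ F]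
    [FiniteDimensional ℂ F] {d : ℕ} (τ : T → Fin d → F) (N : Set T) (R : ℝ)
    (hR : ∀ t ∈ N, ∀ i, ‖τ t i‖ ≤ R) (t : T) :
    ∃ v : Fin d → F, (t ∈ N → v = τ t) ∧ ((∃ᶠ y in 𝓝 t, y ∈ N) →
      ∃ l : Filter T, l.NeBot ∧ l ≤ 𝓝 t ∧ (∀ᶠ y in l, y ∈ N) ∧ Tendsto τ l (𝓝 v)) := by
  by_cases ht : t ∈ N
  · exact ⟨τ t, fun _ => rfl, fun _ => ⟨pure t, inferInstance, pure_le_nhds t,
      by simpa using ht, tendsto_pure_nhds τ t⟩⟩
  by_cases hf : ∃ᶠ y in 𝓝 t, y ∈ N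
  · have : ProperSpace F := FiniteDimensional.proper ℂ F
    have hne : (𝓝 t ⊓ 𝓟 N).NeBot := frequently_mem_iff_neBot.1 hf
    let l : Ultrafilter T := Ultrafilter.of (𝓝 t ⊓ 𝓟 N)
    have hl : (l : Filter T) ≤ 𝓝 t ⊓ 𝓟 N := Ultrafilter.of_le _
    have hN : ∀ᶠ y in (l : Filter T), y ∈ N := le_principal_iff.1 (hl.trans inf_le_right)
    have hK : IsCompact (Set.pi univ fun _ : Fin d => closedBall (0 : F) R) :=
      isCompact_univ_pi fun _ => isCompact_closedBall 0 R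
    obtain ⟨v, -, hlv⟩ := hK.ultrafilter_le_nhds (l.map τ) (by
      rw [le_principal_iff, Ultrafilter.coe_map, mem_map]
      filter_upwards [hN] with y hy i _
      simpa using hR y hy i)
    exact ⟨v, fun h => absurd h ht, fun _ => ⟨l, inferInstance, hl.trans inf_le_left, hN, hlv⟩⟩
  · exact ⟨τ t, fun _ => rfl, fun h => absurd h hf⟩

theorem t3 {C : Set A} {L : A →L[ℂ] T} {T₀ σ : Set T} (hT : IsOpen T₀) (hσ : Neg σ T₀)
    (ho : IsOpen (T₀ \ σ)) (hb : Bornology.IsBounded C) (hs : ∀ x ∈ C, L x ∈ T₀ \ σ) {d : ℕ}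
    (hg : ∀ t ∈ T₀ \ σ, Good C L d t) :
    ∃ Y : T → Fin d → A, HM Y T₀ ∧
      (∀ t ∈ T₀, ∀ x, (x ∈ closure C ∧ L x = t) ↔ ∃ j, x = Y t j) ∧
        ∀ x, L x ∈ T₀ → AnAt (closure C) x := by
  classical
  obtain ⟨R, hR⟩ := hb.exists_norm_le
  choose! U hU htU s hS using hg
  have fib : ∀ t ∈ T₀ \ σ, ∀ u ∈ U t, ∀ x, (x ∈ C ∧ L x = u) ↔ ∃ j, x = s t j u := by
    intro t ht u hu x
    constructor
    · rintro ⟨hx, rfl⟩
      exact ((hS t ht).mem x hu).1 hx
    · rintro ⟨j, rfl⟩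
      exact ⟨(hS t ht).mem_self j hu, (hS t ht).sec j u hu⟩
  have hτ : ∀ t ∈ T₀ \ σ, ∀ j, s t j t ∈ C ∧ L (s t j t) = t := fun t ht j =>
    (fib t ht t (htU t ht) _).2 ⟨j, rfl⟩
  have hτR : ∀ t ∈ T₀ \ σ, ∀ j, ‖s t j t‖ ≤ R := fun t ht j => hR _ (hτ t ht j).1
  choose Y hY1 hY2 using hm_aux_limit (fun t j => s t j t) (T₀ \ σ) R hτR
  have hfr : ∀ t ∈ T₀, ∃ᶠ y in 𝓝 t, y ∈ T₀ \ σ := fun t ht =>
    ((hσ.frequently ht).and_eventually (hT.mem_nhds ht)).mono fun y hy => ⟨hy.2, hy.1⟩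
  have hHM : HM Y T₀ := by
    intro ξ c
    have hf : DifferentiableOn ℂ (fun t => ∏ j, (c - ξ (s t j t))) (T₀ \ σ) := by
      intro t ht
      have h1 : DifferentiableAt ℂ (fun u => ∏ j, (c - ξ (s t j u))) t :=
        (HasFDerivAt.finsetProd fun j _ => ((differentiableAt_const c).sub
          (ξ.differentiableAt.comp t (((hS t ht).hol j).differentiableAt
            ((hU t ht).mem_nhds (htU t ht))))).hasFDerivAt).differentiableAt
      refine (h1.congr_of_eventuallyEq ?_).differentiableWithinAt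
      filter_upwards [ho.mem_nhds ht, (hU t ht).mem_nhds (htU t ht)] with u hu hu'
      exact prod_eq_of_range ((hS u hu).inj u (htU u hu))
        (fun x => (fib u hu u (htU u hu) x).symm.trans (fib t ht u hu' x)) fun x => c - ξ x
    obtain ⟨g, hg, hgf⟩ := riemann hT hσ ho hf (M := (‖c‖ + ‖ξ‖ * R) ^ d) (by
      intro y hy
      rw [norm_prod]
      calc ∏ j, ‖c - ξ (s y j y)‖ ≤ ∏ _j : Fin d, (‖c‖ + ‖ξ‖ * R) :=
            Finset.prod_le_prod (fun j _ => norm_nonneg _) fun j _ =>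
              (norm_sub_le _ _).trans (add_le_add le_rfl (ξ.le_opNorm_of_le (hτR y hy j)))
        _ = (‖c‖ + ‖ξ‖ * R) ^ d := by simp)
    refine hg.congr fun t ht => ?_
    obtain ⟨l, hl, hlt, hlN, hlim⟩ := hY2 t (hfr t ht)
    have a1 : Tendsto g l (𝓝 (g t)) :=
      ((hg.continuousOn.continuousAt (hT.mem_nhds ht)).tendsto).mono_left hlt
    have hc : Continuous fun v : Fin d → A => ∏ i, (c - ξ (v i)) := by fun_prop
    have a2 : Tendsto (fun y => ∏ j, (c - ξ (s y j y))) l (𝓝 (∏ j, (c - ξ (Y t j)))) :=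
      (hc.tendsto (Y t)).comp hlim
    exact tendsto_nhds_unique (a2.congr' (hlN.mono fun y hy => (hgf hy).symm)) a1
  have key : ∀ t ∈ T₀, ∀ x, (x ∈ closure C ∧ L x = t) ↔ ∃ j, x = Y t j := by
    intro t ht x
    constructor
    · rintro ⟨hx, rfl⟩
      refine (hHM.anAt hT L ht).mem_of_closure (closure_mono (fun z hz => ?_) hx)
      obtain ⟨j, hj⟩ := (fib _ (hs z hz) _ (htU _ (hs z hz)) z).1 ⟨hz, rfl⟩
      exact ⟨j, by rw [hY1 _ (hs z hz)]; exact hj⟩
    · rintro ⟨j, rfl⟩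
      obtain ⟨l, hl, hlt, hlN, hlim⟩ := hY2 t (hfr t ht)
      have a1 : Tendsto (fun y => s y j y) l (𝓝 (Y t j)) :=
        ((continuous_apply j).tendsto (Y t)).comp hlim
      refine ⟨mem_closure_of_tendsto a1 (hlN.mono fun y hy => (hτ y hy j).1), ?_⟩
      exact tendsto_nhds_unique ((L.continuous.tendsto _).comp a1)
        (Tendsto.congr' (hlN.mono fun y hy => (hτ y hy j).2.symm) hlt)
  refine ⟨Y, hHM, key, fun x hx => (hHM.anAt hT L hx).congr ?_⟩
  filter_upwards [(hT.preimage L.continuous).mem_nhds hx] with y hy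
  exact ((key _ hy y).symm.trans (and_iff_left rfl))

end Pool.Agent.Lib.MP_823829_an
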