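import Pool.Agent.Lib.MP_823829_an.T1a

/-! Finite fibres and analytic image. -/

namespace Pool.Agent.Lib.MP_823829_an

open Set Metric Filter MeasureTheory
open scoped Topology ENNReal NNReal ContDiff ComplexConjugate

theorem t1_aux_fst (n : ℕ) : ∀ (T : Type) [NormedAddCommGroup T] [NormedSpace ℂ T]
    [FiniteDimensional ℂ T] (Z : Set (T × (Fin n → ℂ))) (T₀ : Set T),
    FB Z (ContinuousLinearMap.fst ℂ T (Fin n → ℂ)) T₀ →
      (∀ t ∈ T₀, (Z ∩ Prod.fst ⁻¹' {t}).Finite) ∧ ∀ t ∈ T₀, AnAt (Prod.fst '' Z) t := by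
  induction n with
  | zero =>
    intro T _ _ _ Z T₀ h
    refine ⟨fun t _ => ?_, fun t ht => ?_⟩
    · refine (finite_singleton (t, (0 : Fin 0 → ℂ))).subset ?_
      rintro ⟨a, b⟩ ⟨_, hb⟩
      have hb' : a = t := hb
      rw [hb', Subsingleton.elim b 0]
      rfl
    · have he : Prod.fst '' Z = (fun t : T => (t, (0 : Fin 0 → ℂ))) ⁻¹' Z := by
        ext a
        constructor
        · rintro ⟨⟨a', b⟩, hq, rfl⟩
          rw [Subsingleton.elim b 0] at hq
          exact hq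
        · intro ha
          exact ⟨_, ha, rfl⟩
      rw [he]
      refine AnAt.preimage (h.an _ ht) (Eventually.of_forall fun y => ?_)
      exact differentiableAt_id.prodMk (differentiableAt_const _)
  | succ n ih =>
    intro T _ _ _ Z T₀ h
    let ψ : ((Fin n → ℂ) × ℂ) ≃L[ℂ] (Fin (n + 1) → ℂ) :=
      ContinuousLinearEquiv.ofFinrankEq (by simp)
    let e : ((T × (Fin n → ℂ)) × ℂ) ≃L[ℂ] (T × (Fin (n + 1) → ℂ)) :=
      (ContinuousLinearEquiv.prodAssoc ℂ T (Fin n → ℂ) ℂ).trans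
        ((ContinuousLinearEquiv.refl ℂ T).prodCongr ψ)
    have he : ∀ q, (e q).1 = q.1.1 := fun q => rfl
    have hb : Bornology.IsBounded (e ⁻¹' Z) := by
      have : e ⁻¹' Z = e.symm '' Z := by
        ext q
        constructor
        · intro hq
          exact ⟨e q, hq, e.symm_apply_apply q⟩
        · rintro ⟨x, hx, rfl⟩
          show e (e.symm x) ∈ Z
          rwa [e.apply_symm_apply]
      rw [this]
      exact e.symm.lipschitz.isBounded_image h.bdd
    have h1 : FB (e ⁻¹' Z) (ContinuousLinearMap.fst ℂ (T × (Fin n → ℂ)) ℂ)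
        (Prod.fst ⁻¹' T₀) :=
      { op := h.op.preimage continuous_fst
        sub := fun q hq => h.sub (e q) hq
        bdd := hb
        an := fun q hq => AnAt.preimage (h.an (e q) hq)
          (Eventually.of_forall fun y => e.differentiableAt) }
    obtain ⟨hf, ha⟩ := t1_one h1
    have h2 : FB (Prod.fst '' (e ⁻¹' Z)) (ContinuousLinearMap.fst ℂ T (Fin n → ℂ)) T₀ :=
      { op := h.op
        sub := by
          rintro _ ⟨q, hq, rfl⟩
          exact h.sub (e q) hq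
        bdd := hb.image_fst
        an := fun q hq => ha q hq }
    obtain ⟨hf2, ha2⟩ := ih T _ T₀ h2
    refine ⟨fun t ht => ?_, fun t ht => ?_⟩
    · have hfin : (⋃ s ∈ Prod.fst '' (e ⁻¹' Z) ∩ Prod.fst ⁻¹' {t},
          (fun c => e (s, c)) '' {c | (s, c) ∈ e ⁻¹' Z}).Finite := by
        refine (hf2 t ht).biUnion fun s hs => (hf s ?_).image _
        have : s.1 = t := hs.2
        show s.1 ∈ T₀
        rw [this]
        exact ht
      refine hfin.subset fun x hx => ?_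
      have hx1 : e.symm x ∈ e ⁻¹' Z := by
        show e (e.symm x) ∈ Z
        rw [e.apply_symm_apply]
        exact hx.1
      have hx2 : (e.symm x).1.1 = t := by
        rw [← he, e.apply_symm_apply]
        exact hx.2
      refine mem_biUnion (x := (e.symm x).1) ⟨⟨_, hx1, rfl⟩, hx2⟩ ⟨(e.symm x).2, hx1, ?_⟩
      exact e.apply_symm_apply x
    · have : Prod.fst '' Z = Prod.fst '' (Prod.fst '' (e ⁻¹' Z)) := by
        ext a
        constructor
        · rintro ⟨x, hx, rfl⟩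
          refine ⟨(e.symm x).1, ⟨e.symm x, ?_, rfl⟩, ?_⟩
          · show e (e.symm x) ∈ Z
            rwa [e.apply_symm_apply]
          · rw [← he, e.apply_symm_apply]
        · rintro ⟨_, ⟨q, hq, rfl⟩, rfl⟩
          exact ⟨e q, hq, he q⟩
      rw [this]
      exact ha2 t ht

variable {A T : Type} [NormedAddCommGroup A] [NormedSpace ℂ A] [FiniteDimensional ℂ A]
  [NormedAddCommGroup T] [NormedSpace ℂ T] [FiniteDimensional ℂ T]

theorem t1 {Z : Set A} {L : A →L[ℂ] T} {T₀ : Set T} (h : FB Z L T₀) :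
    (∀ t ∈ T₀, (Z ∩ L ⁻¹' {t}).Finite) ∧ ∀ t ∈ T₀, AnAt (L '' Z) t := by
  let φ : A ≃L[ℂ] (Fin (Module.finrank ℂ A) → ℂ) := ContinuousLinearEquiv.ofFinrankEq (by simp)
  let Z' : Set (T × (Fin (Module.finrank ℂ A) → ℂ)) :=
    {q | q.1 = L (φ.symm q.2)} ∩ (fun q => φ.symm q.2) ⁻¹' Z
  have hd1 : Differentiable ℂ fun q : T × (Fin (Module.finrank ℂ A) → ℂ) => φ.symm q.2 :=
    φ.symm.differentiable.comp differentiable_snd
  have hd2 : Differentiable ℂ fun q : T × (Fin (Module.finrank ℂ A) → ℂ) => L (φ.symm q.2) :=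
    L.differentiable.comp hd1
  have h1 : FB Z' (ContinuousLinearMap.fst ℂ T (Fin (Module.finrank ℂ A) → ℂ)) T₀ :=
    { op := h.op
      sub := fun q hq => by
        have h3 : q.1 = L (φ.symm q.2) := hq.1
        show q.1 ∈ T₀
        rw [h3]
        exact h.sub _ hq.2
      bdd := by
        refine ((L.prod (φ : A →L[ℂ] _)).lipschitz.isBounded_image h.bdd).subset fun q hq => ?_
        refine ⟨φ.symm q.2, hq.2, ?_⟩
        have h3 : q.1 = L (φ.symm q.2) := hq.1
        ext1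
        · exact h3.symm
        · exact φ.apply_symm_apply q.2
      an := fun q hq => by
        by_cases h3 : q.1 = L (φ.symm q.2)
        · refine (anAt_eq isOpen_univ (mem_univ q) differentiable_fst.differentiableOn
            hd2.differentiableOn).inter ?_
          refine AnAt.preimage (h.an _ ?_) (Eventually.of_forall fun y => hd1 y)
          rw [← h3]
          exact hq
        · refine (anAt_empty q).congr ?_
          have : ∀ᶠ y in 𝓝 q, y.1 ≠ L (φ.symm y.2) :=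
            (isOpen_ne_fun continuous_fst hd2.continuous).mem_nhds h3
          filter_upwards [this] with y hy
          exact ⟨fun h4 => h4.elim, fun h4 => hy h4.1⟩ }
  obtain ⟨hf, ha⟩ := t1_aux_fst _ T Z' T₀ h1
  have hmem : ∀ x ∈ Z, (L x, φ x) ∈ Z' := fun x hx => by
    refine ⟨?_, ?_⟩
    · show L x = L (φ.symm (φ x))
      rw [φ.symm_apply_apply]
    · show φ.symm (φ x) ∈ Z
      rwa [φ.symm_apply_apply]
  refine ⟨fun t ht => ?_, fun t ht => ?_⟩
  · refine ((hf t ht).image fun q => φ.symm q.2).subset fun x hx => ?_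
    exact ⟨(L x, φ x), ⟨hmem x hx.1, hx.2⟩, φ.symm_apply_apply x⟩
  · have : L '' Z = Prod.fst '' Z' := by
      ext a
      constructor
      · rintro ⟨x, hx, rfl⟩
        exact ⟨_, hmem x hx, rfl⟩
      · rintro ⟨q, hq, rfl⟩
        exact ⟨φ.symm q.2, hq.2, hq.1.symm⟩
    rw [this]
    exact ha t ht

theorem FB.iso {Z : Set A} {L : A →L[ℂ] T} {T₀ : Set T} (h : FB Z L T₀) {p : A} (hp : p ∈ Z) :
    Iso Z p L := by
  have hf : ((Z ∩ L ⁻¹' {L p}) \ {p}).Finite := ((t1 h).1 _ (h.sub p hp)).subset sdiff_subset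
  have : ∀ᶠ x in 𝓝 p, x ∉ (Z ∩ L ⁻¹' {L p}) \ {p} :=
    hf.isClosed.isOpen_compl.mem_nhds fun h1 => h1.2 rfl
  filter_upwards [this] with x hx hZ hL
  by_contra hne
  exact hx ⟨⟨hZ, hL⟩, hne⟩

theorem FB.surj {Z : Set A} {L : A →L[ℂ] T} {T₀ O : Set T} (h : FB Z L T₀)
    (hc : IsPreconnected T₀) (hO : IsOpen O) (hne : O.Nonempty) (hs : O ⊆ T₀)
    (hf : ∀ t ∈ O, ∃ x ∈ Z, L x = t) : ∀ t ∈ T₀, ∃ x ∈ Z, L x = t := by
  obtain ⟨t₀, ht₀⟩ := hne
  have hS : L '' Z ∈ 𝓝 t₀ := mem_of_superset (hO.mem_nhds ht₀) fun t ht => hf t ht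
  intro t ht
  exact an_id h.op hc (t1 h).2 (hs ht₀) hS ht

/-- The image of a bounded analytic set under the map with components L and M. -/
theorem FB.image {B : Type} [NormedAddCommGroup B] [NormedSpace ℂ B] [FiniteDimensional ℂ B]
    {Z : Set A} {L : A →L[ℂ] T} {T₀ : Set T} (h : FB Z L T₀) (M : A →L[ℂ] B) :
    FB ((fun x => (L x, M x)) '' Z) (ContinuousLinearMap.fst ℂ T B) T₀ := by
  have h1 : FB Z (L.prod M) (Prod.fst ⁻¹' T₀) :=
    { op := h.op.preimage continuous_fst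
      sub := fun x hx => h.sub x hx
      bdd := h.bdd
      an := fun x hx => h.an x hx }
  exact
    { op := h.op
      sub := by
        rintro _ ⟨x, hx, rfl⟩
        exact h.sub x hx
      bdd := (L.prod M).lipschitz.isBounded_image h.bdd
      an := fun q hq => (t1 h1).2 q hq }

theorem iso_stable {Z : Set A} {p : A} {L₀ : A →L[ℂ] T} (h : AnAt Z p) (hp : p ∈ Z)
    (hi : Iso Z p L₀) : ∀ᶠ L in 𝓝 L₀, Iso Z p L := by
  obtain ⟨ρ, hρ, η, hη, -, han, hs, -⟩ := hi.scale h univ_mem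
  have hε : 0 < η / (2 * ρ) := by positivity
  filter_upwards [ball_mem_nhds L₀ hε] with L hL
  have hL' : ‖L - L₀‖ < η / (2 * ρ) := by rwa [← dist_eq_norm, ← mem_ball]
  have hs' : Disjoint (side p L ρ (η / 2)) Z := by
    rw [Set.disjoint_left] at hs ⊢
    intro x hx hxZ
    refine hs ⟨hx.1, ?_⟩ hxZ
    have h1 : ‖x - p‖ = ρ := by rw [← dist_eq_norm]; exact hx.1
    have h2 : ‖L x - L p‖ ≤ η / 2 := by rw [← dist_eq_norm]; exact hx.2
    have h3 : ‖(L - L₀) (x - p)‖ ≤ η / 2 := by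
      calc ‖(L - L₀) (x - p)‖ ≤ ‖L - L₀‖ * ‖x - p‖ := (L - L₀).le_opNorm _
        _ ≤ η / (2 * ρ) * ρ := by rw [h1]; exact mul_le_mul_of_nonneg_right hL'.le hρ.le
        _ = η / 2 := by field_simp
    have h4 : L₀ x - L₀ p = (L x - L p) - (L - L₀) (x - p) := by
      simp only [sub_apply, map_sub]
      abel
    show dist (L₀ x) (L₀ p) ≤ η
    rw [dist_eq_norm, h4]
    calc _ ≤ ‖L x - L p‖ + ‖(L - L₀) (x - p)‖ := norm_sub_le _ _
      _ ≤ η := by linarith
  have hfb := scale_fb han hs'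
  have hbox := box_mem_nhds p L hρ (half_pos hη)
  refine (hfb.iso ⟨hp, mem_of_mem_nhds hbox⟩).mono ?_
  filter_upwards [hbox] with x hx hxZ
  exact ⟨hxZ, hx⟩

omit [FiniteDimensional ℂ A] in
theorem drop {Z : Set A} {p : A} {L : A →L[ℂ] T} (hi : Iso Z p L) (hp : p ∈ Z) {j : ℕ}
    (hj : Module.finrank ℂ T = j + 1) {σ : Set T} (hσ : Neg σ {L p})
    (hs : ∀ᶠ x in 𝓝 p, x ∈ Z → L x ∈ σ) : ∃ L' : A →L[ℂ] (Fin j → ℂ), Iso Z p L' := by
  obtain ⟨U, hU, hpU, δ, hδ, h0, hne⟩ := hσ (L p) rfl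
  obtain ⟨v, hv, hτ⟩ := exists_line hU hδ hpU (h0 _ hpU (hs.self_of_nhds hp)) (hne _ hpU)
  have hq : Module.finrank ℂ (T ⧸ Submodule.span ℂ {v}) = Module.finrank ℂ (Fin j → ℂ) := by
    have h1 := (Submodule.span ℂ {v}).finrank_quotient_add_finrank
    rw [finrank_span_singleton hv, hj] at h1
    simp only [Module.finrank_fintype_fun_eq_card, Fintype.card_fin]
    omega
  let e : (T ⧸ Submodule.span ℂ {v}) ≃ₗ[ℂ] (Fin j → ℂ) := LinearEquiv.ofFinrankEq _ _ hq
  let M : T →L[ℂ] (Fin j → ℂ) :=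
    LinearMap.toContinuousLinearMap (e.toLinearMap ∘ₗ (Submodule.span ℂ {v}).mkQ)
  have hM : ∀ a b : T, M a = M b → ∃ τ : ℂ, a = b + τ • v := by
    intro a b hab
    have h1 : e ((Submodule.span ℂ {v}).mkQ a) = e ((Submodule.span ℂ {v}).mkQ b) := hab
    have h2 := e.injective h1
    rw [Submodule.mkQ_apply, Submodule.mkQ_apply, Submodule.Quotient.eq,
      Submodule.mem_span_singleton] at h2
    obtain ⟨τ, hτ⟩ := h2
    exact ⟨τ, by rw [hτ]; abel⟩
  refine ⟨M.comp L, ?_⟩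
  rw [eventually_nhdsWithin_iff, Metric.eventually_nhds_iff] at hτ
  obtain ⟨ε, hε, hτ⟩ := hτ
  have hv' : 0 < ‖v‖ := norm_pos_iff.2 hv
  have h1 : ∀ᶠ x in 𝓝 p, L x ∈ ball (L p) (ε * ‖v‖) :=
    L.continuous.continuousAt.eventually_mem (ball_mem_nhds _ (by positivity))
  have h2 : ∀ᶠ x in 𝓝 p, L x ∈ U := L.continuous.continuousAt.eventually_mem (hU.mem_nhds hpU)
  filter_upwards [hi, hs, h1, h2] with x hx hxσ hx1 hx2 hxZ hL
  obtain ⟨τ, hτx⟩ := hM (L x) (L p) hL
  by_cases hτ0 : τ = 0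
  · refine hx hxZ ?_
    rw [hτx, hτ0, zero_smul, add_zero]
  · exfalso
    refine hτ (y := τ) ?_ hτ0 ?_
    · rw [mem_ball, dist_eq_norm, hτx, add_sub_cancel_left, norm_smul] at hx1
      rw [dist_zero_right]
      exact lt_of_mul_lt_mul_right hx1 hv'.le
    · rw [← hτx]
      exact h0 _ hx2 (hxσ hxZ)

theorem neg_zero_dim (hj : Module.finrank ℂ T = 0) {σ : Set T} {t : T} (hσ : Neg σ {t}) :
    t ∉ σ := by
  have : Subsingleton T := Module.finrank_zero_iff.1 hj
  obtain ⟨y, hy⟩ := (hσ.frequently (mem_singleton t)).exists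
  rwa [Subsingleton.elim y t] at hy

omit [FiniteDimensional ℂ A] in
theorem Iso.pad {B : Type} [NormedAddCommGroup B] [NormedSpace ℂ B] [FiniteDimensional ℂ B]
    {Z : Set A} {p : A} {L : A →L[ℂ] T} (hi : Iso Z p L)
    (hle : Module.finrank ℂ T ≤ Module.finrank ℂ B) : ∃ L' : A →L[ℂ] B, Iso Z p L' := by
  obtain ⟨J, hJ⟩ := finrank_le_iff_exists_linearMap.1 hle
  refine ⟨(LinearMap.toContinuousLinearMap J).comp L, ?_⟩
  filter_upwards [hi] with x hx hxZ hL
  exact hx hxZ (hJ hL)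

theorem exists_iso (Z : Set A) (p : A) : ∃ (j : ℕ) (L : A →L[ℂ] (Fin j → ℂ)), Iso Z p L := by
  let φ : A ≃L[ℂ] (Fin (Module.finrank ℂ A) → ℂ) := ContinuousLinearEquiv.ofFinrankEq (by simp)
  exact ⟨_, φ.toContinuousLinearMap, Eventually.of_forall fun x _ hx => φ.injective hx⟩

theorem loc_param {Z : Set A} {p : A} (h : AnAt Z p) (hp : p ∈ Z) :
    ∃ (j : ℕ) (L : A →L[ℂ] (Fin j → ℂ)), Iso Z p L ∧ ∀ N ∈ 𝓝 p, L '' (Z ∩ N) ∈ 𝓝 (L p) := by
  classical
  have hex := exists_iso Z p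
  obtain ⟨L, hL⟩ := Nat.find_spec hex
  refine ⟨Nat.find hex, L, hL, fun N hN => ?_⟩
  obtain ⟨ρ, hρ, η, hη, hsub, han, hs, -⟩ := hL.scale h hN
  have hfb := scale_fb han hs
  have hbox := box_mem_nhds p L hρ hη
  rcases ((t1 hfb).2 (L p) (mem_ball_self hη)).neg_or with h1 | h1
  · refine mem_of_superset h1 (image_mono fun x hx => ⟨hx.1, hsub ?_⟩)
    exact ball_subset_closedBall hx.2.1
  · exfalso
    rcases Nat.eq_zero_or_eq_succ_pred (Nat.find hex) with h0 | h0
    · refine neg_zero_dim (by simp [h0]) h1 ⟨p, ⟨hp, mem_of_mem_nhds hbox⟩, rfl⟩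
    · have h2 : Module.finrank ℂ (Fin (Nat.find hex) → ℂ) = (Nat.find hex).pred + 1 := by
        simp only [Module.finrank_fintype_fun_eq_card, Fintype.card_fin]
        exact h0
      have h3 : ∀ᶠ x in 𝓝 p, x ∈ Z → L x ∈ L '' (Z ∩ box p L ρ η) := by
        filter_upwards [hbox] with x hx hxZ
        exact ⟨x, ⟨hxZ, hx⟩, rfl⟩
      have h4 : (Nat.find hex).pred < Nat.find hex := by
        have h5 : Nat.find hex = (Nat.find hex).pred + 1 := h0
        omega
      exact Nat.find_min hex h4 (drop hL hp h2 h1 h3)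

end Pool.Agent.Lib.MP_823829_an
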