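import Pool.Agent.Lib.MP_823829_an.TC
import Pool.Agent.Lib.MP_823829_an.T1
import Pool.Agent.Lib.MP_823829_an.HM

/-! Rigid analytic families defined by extended canonical polynomials. -/

namespace Pool.Agent.Lib.MP_823829_an

open Set Metric Filter MeasureTheory
open scoped Topology ENNReal NNReal ContDiff ComplexConjugate

variable {A T : Type} [NormedAddCommGroup A] [NormedSpace ℂ A] [FiniteDimensional ℂ A]
  [NormedAddCommGroup T] [NormedSpace ℂ T] [FiniteDimensional ℂ T]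

theorem rig_aux_ball {W B : Type} [TopologicalSpace W] [PseudoMetricSpace B] {f : W → B}
    (hf : Continuous f) {w : W} {c : B} {r : ℝ} (h : f w ∉ sphere c r) :
    (∀ᶠ w' in 𝓝 w, f w' ∈ ball c r) ∨ ∀ᶠ w' in 𝓝 w, f w' ∉ ball c r := by
  rcases lt_or_gt_of_ne (show dist (f w) c ≠ r from h) with h1 | h1
  · exact Or.inl (hf.continuousAt.eventually (isOpen_ball.mem_nhds h1))
  · right
    have h2 : (closedBall c r)ᶜ ∈ 𝓝 (f w) :=
      isClosed_closedBall.isOpen_compl.mem_nhds (by simpa using h1)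
    filter_upwards [hf.continuousAt.eventually h2] with w' hw' hb
    exact hw' (ball_subset_closedBall hb)

theorem rig_aux_radius {B : Type} [PseudoMetricSpace B] {d : ℕ} (y : Fin d → B) (c : B) {r₀ : ℝ}
    (h : 0 < r₀) : ∃ r : ℝ, 0 < r ∧ r < r₀ ∧ ∀ j, y j ∉ sphere c r := by
  obtain ⟨r, hr, hn⟩ := (Set.Ioo_infinite h).exists_notMem_finite
    (Set.finite_range fun j => dist (y j) c)
  exact ⟨r, hr.1, hr.2, fun j hj => hn ⟨j, hj⟩⟩

omit [FiniteDimensional ℂ A] [FiniteDimensional ℂ T] in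
theorem rig_aux_diff {d : ℕ} {ℓ : Fin (d + 1) → ℂ → ℂ} (hℓ : ∀ i, Differentiable ℂ (ℓ i))
    {Φ : Fin (d + 1) → C2 × T → ℂ} {O : Set (C2 × T)} (hΦ : ∀ i, DifferentiableOn ℂ (Φ i) O)
    (ξ : A →L[ℂ] ℂ) :
    DifferentiableOn ℂ (fun q : (C2 × T) × A => ∑ i, ℓ i (ξ q.2) * Φ i q.1) (O ×ˢ univ) := by
  refine DifferentiableOn.fun_sum fun i _ => DifferentiableOn.mul ?_ ?_
  · exact ((hℓ i).comp (ξ.differentiable.comp differentiable_snd)).differentiableOn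
  · exact (hΦ i).comp differentiableOn_fst fun q hq => hq.1

/-- The incidence set is bounded and analytic over a small ball. -/
theorem rig_aux_fb {d : ℕ} {Ξ : Finset (A →L[ℂ] ℂ)} {Φ : (A →L[ℂ] ℂ) → Fin (d + 1) → C2 × T → ℂ}
    {q₀ : C2 × T} {η : ℝ} (hΦ : ∀ ξ ∈ Ξ, ∀ i, DifferentiableOn ℂ (Φ ξ i) (ball q₀ η))
    {p x₀ : A} {ρ r : ℝ} {H' : Set (C2 × A)}
    (hH : ∀ q ∈ ball q₀ η, ∀ x ∈ ball x₀ r, AnAt H' (q.1, x))
    (hS : ∀ q ∈ ball q₀ η, ∀ y : Fin d → A,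
      (∀ ξ ∈ Ξ, ∀ i : Fin (d + 1), ∏ j, (((i : ℕ) : ℂ) - ξ (y j)) = Φ ξ i q) →
        ∀ j, y j ∉ sphere p ρ ∧ y j ∉ sphere x₀ r) :
    FB {w : (C2 × T) × (Fin d → A) | w.1 ∈ ball q₀ η ∧
        (∀ ξ ∈ Ξ, ∀ i : Fin (d + 1), ∏ j, (((i : ℕ) : ℂ) - ξ (w.2 j)) = Φ ξ i w.1) ∧
        (∀ j, w.2 j ∈ ball p ρ) ∧ ∀ j, w.2 j ∈ ball x₀ r → (w.1.1, w.2 j) ∈ H'}
      (ContinuousLinearMap.fst ℂ (C2 × T) (Fin d → A)) (ball q₀ η) := by
  refine ⟨isOpen_ball, fun w hw => hw.1, ?_, ?_⟩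
  · refine ((isBounded_ball (x := q₀) (r := η)).prod
      (Bornology.IsBounded.pi fun _ : Fin d => isBounded_ball (x := p) (r := ρ))).subset ?_
    intro w hw
    exact ⟨hw.1, fun j _ => hw.2.2.1 j⟩
  intro w hw
  have hw' : w.1 ∈ ball q₀ η := hw
  have hO : IsOpen (Prod.fst ⁻¹' ball q₀ η : Set ((C2 × T) × (Fin d → A))) :=
    isOpen_ball.preimage continuous_fst
  have hd : ∀ j, Differentiable ℂ fun w : (C2 × T) × (Fin d → A) => w.2 j := fun j => by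
    fun_prop
  set E : Set ((C2 × T) × (Fin d → A)) :=
    {w | ∀ ξ ∈ Ξ, ∀ i : Fin (d + 1), ∏ j, (((i : ℕ) : ℂ) - ξ (w.2 j)) = Φ ξ i w.1} with hE
  have hEan : AnAt E w := by
    refine anAt_of_finite (ι := Ξ × Fin (d + 1)) (T := ℂ) hO hw'
      (fun k w => ∏ j, (((k.2 : ℕ) : ℂ) - k.1.1 (w.2 j)) - Φ k.1.1 k.2 w.1) ?_ ?_
    · intro k
      refine DifferentiableOn.sub ?_ ?_
      · refine Differentiable.differentiableOn fun y => ?_
        have h1 : ∀ j, Differentiable ℂ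
            fun w : (C2 × T) × (Fin d → A) => ((k.2 : ℕ) : ℂ) - k.1.1 (w.2 j) := fun j =>
          (differentiable_const _).sub (k.1.1.differentiable.comp (hd j))
        exact (HasFDerivAt.finsetProd (u := Finset.univ)
          fun j _ => (h1 j y).hasFDerivAt).differentiableAt
      · exact (hΦ k.1.1 k.1.2 k.2).comp differentiableOn_fst fun q hq => hq
    · intro y _
      constructor
      · intro h k
        exact sub_eq_zero.2 (h k.1.1 k.1.2 k.2)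
      · intro h ξ hξ i
        exact sub_eq_zero.1 (h (⟨ξ, hξ⟩, i))
  by_cases hwE : w ∈ E
  swap
  · refine (anAt_empty w).congr ?_
    filter_upwards [hEan.notMem_nhds hwE] with w' hw'
    exact ⟨fun h => h.elim, fun h => hw' h.2.1⟩
  have hsp := hS w.1 hw' w.2 hwE
  have hc : ∀ j, Continuous fun w : (C2 × T) × (Fin d → A) => w.2 j := fun j =>
    (continuous_apply j).comp continuous_snd
  have h1 : ∀ j, AnAt {w : (C2 × T) × (Fin d → A) | w.2 j ∈ ball p ρ} w := by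
    intro j
    rcases rig_aux_ball (hc j) (hsp j).1 with h | h
    · exact anAt_of_mem_nhds h
    · refine (anAt_empty w).congr ?_
      filter_upwards [h] with w' hw'
      exact ⟨fun h => h.elim, fun h => hw' h⟩
  have h2 : ∀ j, AnAt
      {w : (C2 × T) × (Fin d → A) | w.2 j ∈ ball x₀ r → (w.1.1, w.2 j) ∈ H'} w := by
    intro j
    rcases rig_aux_ball (hc j) (hsp j).2 with h | h
    · have h3 : AnAt ((fun w : (C2 × T) × (Fin d → A) => (w.1.1, w.2 j)) ⁻¹' H') w := by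
        refine AnAt.preimage (hH w.1 hw' _ h.self_of_nhds) (Eventually.of_forall fun y => ?_)
        exact (differentiableAt_fst.comp y differentiableAt_fst).prodMk (hd j y)
      refine h3.congr ?_
      filter_upwards [h] with w' hw'
      exact ⟨fun h _ => h, fun h => h hw'⟩
    · refine anAt_of_mem_nhds ?_
      filter_upwards [h] with w' hw' hb
      exact (hw' hb).elim
  refine (((hEan.inter (anAt_iInter h1)).inter (anAt_iInter h2)).inter_nhds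
    (hO.mem_nhds hw')).congr (Eventually.of_forall fun y => ?_)
  simp only [mem_inter_iff, mem_iInter, mem_ofPred_eq, mem_preimage, hE]
  tauto

theorem rig {F : Filter C2} {s : C2} (hF : RF F s) {Z : C2 → Set A} {p : A} {ρ : ℝ}
    {L : A →L[ℂ] T} {T' : Set T} (hT : IsOpen T') {d : ℕ} {Y : C2 → T → Fin d → A}
    (hY : ∀ᶠ z in F, ∀ t ∈ T', ∀ x, (x ∈ Z z ∧ x ∈ ball p ρ ∧ L x = t) ↔ ∃ j, x = Y z t j)
    (hext : ∀ (ξ : A →L[ℂ] ℂ) (c : ℂ), ∃ V : Set C2, IsOpen V ∧ s ∈ V ∧ ∃ Φ : C2 × T → ℂ,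
      DifferentiableOn ℂ Φ (V ×ˢ T') ∧
        ∀ᶠ z in F, ∀ t ∈ T', Φ (z, t) = ∏ j, (c - ξ (Y z t j))) :
    ∃ H : Set (C2 × A), Rigid F s Z (ball p ρ ∩ L ⁻¹' T') H := by
  classical
  obtain ⟨Ξ, hΞ⟩ := sep_family A d
  obtain ⟨ℓ, hℓ, hlag⟩ := lagr_prod d
  choose V hVo hsV Φ₀ hΦ₀ hΦe using hext
  set Φ : (A →L[ℂ] ℂ) → Fin (d + 1) → C2 × T → ℂ := fun ξ i => Φ₀ ξ ((i : ℕ) : ℂ) with hΦdef
  set W : Set C2 := ⋂ ξ ∈ Ξ, ⋂ i : Fin (d + 1), V ξ ((i : ℕ) : ℂ) with hW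
  have hWo : IsOpen W :=
    isOpen_biInter_finset fun ξ _ => isOpen_iInter_of_finite fun i => hVo ξ _
  have hsW : s ∈ W := by
    simp only [hW, mem_iInter]
    exact fun ξ _ i => hsV ξ _
  have hOo : IsOpen (W ×ˢ T') := hWo.prod hT
  have hΦ : ∀ ξ ∈ Ξ, ∀ i, DifferentiableOn ℂ (Φ ξ i) (W ×ˢ T') := by
    intro ξ hξ i
    refine (hΦ₀ ξ _).mono (prod_mono ?_ Subset.rfl)
    intro z hz
    simp only [hW, mem_iInter] at hz
    exact hz ξ hξ i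
  have hgood : ∀ᶠ z in F, ∀ ξ ∈ Ξ, ∀ i : Fin (d + 1), ∀ t ∈ T',
      Φ ξ i (z, t) = ∏ j, (((i : ℕ) : ℂ) - ξ (Y z t j)) :=
    (eventually_all_finset Ξ).2 fun ξ _ => eventually_all.2 fun i => hΦe ξ _
  -- the key algebraic fact
  have hkey : ∀ (q : C2 × T) (y : Fin d → A),
      (∀ ξ ∈ Ξ, ∀ i : Fin (d + 1), ∏ j, (((i : ℕ) : ℂ) - ξ (y j)) = Φ ξ i q) →
      ∀ x : A, (∀ ξ ∈ Ξ, ∑ i, ℓ i (ξ x) * Φ ξ i q = 0) ↔ ∃ j, x = y j := by
    intro q y hy x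
    have h1 : ∀ ξ ∈ Ξ, ∑ i, ℓ i (ξ x) * Φ ξ i q = ∏ j, (ξ x - ξ (y j)) := by
      intro ξ hξ
      rw [hlag (fun j => ξ (y j)) (ξ x)]
      exact Finset.sum_congr rfl fun i _ => by rw [hy ξ hξ i]
    constructor
    · intro h
      exact hΞ y x fun ξ hξ => (h1 ξ hξ).symm.trans (h ξ hξ)
    · rintro ⟨j, rfl⟩ ξ hξ
      rw [h1 ξ hξ]
      exact Finset.prod_eq_zero (Finset.mem_univ j) (sub_self _)
  have hLc : Continuous fun q : C2 × A => ((q.1, L q.2) : C2 × T) :=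
    continuous_fst.prodMk (L.continuous.comp continuous_snd)
  refine ⟨{q | ∀ ξ ∈ Ξ, ∑ i, ℓ i (ξ q.2) * Φ ξ i (q.1, L q.2) = 0}, ?_, ?_, ?_⟩
  · intro x hx
    refine anAt_of_finite (ι := Ξ) (T := ℂ) (hOo.preimage hLc) (⟨hsW, hx.2⟩)
      (fun k q => ∑ i, ℓ i (k.1 q.2) * Φ k.1 i (q.1, L q.2)) ?_ ?_
    · intro k
      have h1 := rig_aux_diff hℓ (hΦ k.1 k.2) k.1
      have h2 : Differentiable ℂ fun q : C2 × A => (((q.1, L q.2), q.2) : (C2 × T) × A) :=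
        (differentiable_fst.prodMk (L.differentiable.comp differentiable_snd)).prodMk
          differentiable_snd
      exact h1.comp h2.differentiableOn fun q hq => ⟨hq, mem_univ _⟩
    · intro y _
      exact ⟨fun h k => h k.1 k.2, fun h ξ hξ => h ⟨ξ, hξ⟩⟩
  · filter_upwards [hY, hgood] with z hz1 hz2 x hx
    have h1 := hkey (z, L x) (Y z (L x)) (fun ξ hξ i => (hz2 ξ hξ i _ hx.2).symm) x
    refine h1.trans ((hz1 _ hx.2 x).symm.trans ?_)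
    exact ⟨fun h => h.1, fun h => ⟨h, hx.1, rfl⟩⟩
  rintro x₀ hx₀ H' hH' ⟨N', hN', hZH⟩
  have hYs := hF.self hY
  have hgs := hF.self hgood
  -- radii
  obtain ⟨r₁, hr₁, hb₁⟩ := Metric.eventually_nhds_iff_ball.1 hH'.eventually
  obtain ⟨r₂, hr₂, hb₂⟩ := Metric.mem_nhds_iff.1 hN'
  obtain ⟨r, hr, hrlt, hrs⟩ := rig_aux_radius (Y s (L x₀)) x₀ (lt_min hr₁ hr₂)
  have hq₀ : ((s, L x₀) : C2 × T) ∈ W ×ˢ T' := ⟨hsW, hx₀.2⟩
  have : ProperSpace A := FiniteDimensional.proper ℂ A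
  have hK : IsCompact (sphere p ρ ∪ sphere x₀ r) := (isCompact_sphere _ _).union (isCompact_sphere _ _)
  have htube : ∀ᶠ q in 𝓝 ((s, L x₀) : C2 × T), ∀ y ∈ sphere p ρ ∪ sphere x₀ r,
      ¬ ∀ ξ ∈ Ξ, ∑ i, ℓ i (ξ y) * Φ ξ i q = 0 := by
    refine hK.eventually_forall_of_forall_eventually fun y hy => ?_
    have h1 : ¬ ∀ ξ ∈ Ξ, ∑ i, ℓ i (ξ y) * Φ ξ i (s, L x₀) = 0 := by
      rw [hkey (s, L x₀) (Y s (L x₀)) (fun ξ hξ i => (hgs ξ hξ i _ hx₀.2).symm) y]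
      rintro ⟨j, rfl⟩
      rcases hy with hy | hy
      · have h2 := ((hYs _ hx₀.2 _).2 ⟨j, rfl⟩).2.1
        exact (mem_ball.1 h2).ne (mem_sphere.1 hy)
      · exact hrs j hy
    push Not at h1
    obtain ⟨ξ, hξ, hne⟩ := h1
    have h2 : ContinuousAt (fun q : (C2 × T) × A => ∑ i, ℓ i (ξ q.2) * Φ ξ i q.1)
        ((s, L x₀), y) :=
      (rig_aux_diff hℓ (hΦ ξ hξ) ξ).continuousOn.continuousAt
        ((hOo.prod isOpen_univ).mem_nhds ⟨hq₀, mem_univ _⟩)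
    filter_upwards [h2.eventually_ne hne] with q hq hall
    exact hq (hall ξ hξ)
  obtain ⟨η₀, hη₀, hbη⟩ := Metric.eventually_nhds_iff_ball.1
    (htube.and (hOo.mem_nhds hq₀ : ∀ᶠ q in 𝓝 ((s, L x₀) : C2 × T), q ∈ W ×ˢ T'))
  set η := min η₀ r₁ with hη
  have hηpos : 0 < η := lt_min hη₀ hr₁
  have hsub : ball ((s, L x₀) : C2 × T) η ⊆ ball (s, L x₀) η₀ :=
    ball_subset_ball (min_le_left _ _)
  have hfb := rig_aux_fb (d := d) (Ξ := Ξ) (Φ := Φ) (q₀ := (s, L x₀)) (η := η)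
    (fun ξ hξ i => (hΦ ξ hξ i).mono fun q hq => (hbη q (hsub hq)).2)
    (p := p) (x₀ := x₀) (ρ := ρ) (r := r) (H' := H') ?_ ?_
  rotate_left
  · intro q hq x hx
    refine hb₁ _ ?_
    rw [← ball_prod_same] at hq ⊢
    exact ⟨ball_subset_ball (min_le_right _ _) hq.1,
      ball_subset_ball (hrlt.le.trans (min_le_left _ _)) hx⟩
  · intro q hq y hy j
    have h1 := (hkey q y hy (y j)).2 ⟨j, rfl⟩
    have h2 := (hbη q (hsub hq)).1 (y j)
    exact ⟨fun h => h2 (Or.inl h) h1, fun h => h2 (Or.inr h) h1⟩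
  have han := (t1 hfb).2 (s, L x₀) (mem_ball_self hηpos)
  have hnh := ru hF han ?_
  swap
  · refine ⟨ball (L x₀) η, ball_mem_nhds _ hηpos, ?_⟩
    filter_upwards [hY, hgood, hZH, hF.le (ball_mem_nhds s hηpos)] with z hz1 hz2 hz3 hz4 t ht
    have hq : ((z, t) : C2 × T) ∈ ball ((s, L x₀) : C2 × T) η := by
      rw [← ball_prod_same]
      exact ⟨hz4, ht⟩
    have ht' : t ∈ T' := (hbη _ (hsub hq)).2.2
    refine ⟨((z, t), Y z t), ⟨hq, fun ξ hξ i => (hz2 ξ hξ i t ht').symm,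
      fun j => ((hz1 t ht' _).2 ⟨j, rfl⟩).2.1, fun j hj => ?_⟩, rfl⟩
    refine hz3 _ (hb₂ (ball_subset_ball (hrlt.le.trans (min_le_right _ _)) hj)) ?_
    exact ((hz1 t ht' _).2 ⟨j, rfl⟩).1
  have h1 := (hLc.continuousAt (x := (s, x₀))).eventually hnh
  have h2 : ∀ᶠ q in 𝓝 ((s, x₀) : C2 × A), q.2 ∈ ball x₀ r :=
    continuous_snd.continuousAt.eventually (ball_mem_nhds x₀ hr)
  filter_upwards [h1, h2] with q hq1 hq2 hqH
  obtain ⟨w, hw, hwq⟩ := hq1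
  have hw1 : w.1 = (q.1, L q.2) := hwq
  obtain ⟨j, hj⟩ := (hkey w.1 w.2 hw.2.1 q.2).1 (by rw [hw1]; exact hqH)
  have h3 := hw.2.2.2 j (hj ▸ hq2)
  rw [hw1, ← hj] at h3
  exact h3

end Pool.Agent.Lib.MP_823829_an
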