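import Pool.Agent.Lib.MP_823829_an.A2a
import Pool.Agent.Lib.MP_823829_an.Rig

/-! Rigid families in a chart. -/

namespace Pool.Agent.Lib.MP_823829_an

open Set Metric Filter MeasureTheory
open scoped Topology ENNReal NNReal ContDiff ComplexConjugate

variable {E : Type} [NormedAddCommGroup E] [NormedSpace ℂ E] [FiniteDimensional ℂ E]
  [MeasurableSpace (C2 × E)] [BorelSpace (C2 × E)]

theorem a2b_aux_bound {A : Type} [NormedAddCommGroup A] [NormedSpace ℂ A] {d : ℕ}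
    {y : Fin d → A} {p : A} {ρ : ℝ} (hy : ∀ j, y j ∈ ball p ρ) (ξ : A →L[ℂ] ℂ) (c : ℂ) :
    ‖∏ j, (c - ξ (y j))‖ ≤ (‖c‖ + ‖ξ‖ * (‖p‖ + ρ)) ^ d := by
  rw [norm_prod]
  have h1 : ∀ j, ‖c - ξ (y j)‖ ≤ ‖c‖ + ‖ξ‖ * (‖p‖ + ρ) := by
    intro j
    have h2 : ‖y j‖ ≤ ‖p‖ + ρ := by
      have h3 := hy j
      rw [mem_ball, dist_eq_norm] at h3
      have h4 : ‖y j‖ ≤ ‖p‖ + ‖y j - p‖ := by
        calc ‖y j‖ = ‖p + (y j - p)‖ := by congr 1; abel
          _ ≤ ‖p‖ + ‖y j - p‖ := norm_add_le _ _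
      linarith
    calc ‖c - ξ (y j)‖ ≤ ‖c‖ + ‖ξ (y j)‖ := norm_sub_le _ _
      _ ≤ ‖c‖ + ‖ξ‖ * ‖y j‖ := by gcongr; exact ξ.le_opNorm _
      _ ≤ ‖c‖ + ‖ξ‖ * (‖p‖ + ρ) := by gcongr
  calc ∏ j, ‖c - ξ (y j)‖ ≤ ∏ _j : Fin d, (‖c‖ + ‖ξ‖ * (‖p‖ + ρ)) :=
        Finset.prod_le_prod (fun j _ => norm_nonneg _) (fun j _ => h1 j)
    _ = (‖c‖ + ‖ξ‖ * (‖p‖ + ρ)) ^ d := by simp

theorem a2b_aux_prod {A ι : Type} [NormedAddCommGroup A] [NormedSpace ℂ A] (u : Finset ι)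
    {f : ι → A → ℂ} {U : Set A} (hf : ∀ j, DifferentiableOn ℂ (f j) U) :
    DifferentiableOn ℂ (fun q => ∏ j ∈ u, f j q) U := by
  classical
  induction u using Finset.induction_on with
  | empty => simp
  | insert a u ha ih =>
    simp only [Finset.prod_insert ha]
    exact (hf a).mul ih

theorem lc_rigid {F : Filter C2} {s : C2} {Z : C2 → Set (C2 × E)} {W : Set (C2 × E)}
    (h : LC F s Z W) {p : C2 × E} (hp : p ∈ Z s) :
    ∃ N : Set (C2 × E), IsOpen N ∧ p ∈ N ∧ N ⊆ W ∧ ∃ H : Set (C2 × (C2 × E)),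
      Rigid F s Z N H := by
  obtain ⟨hsW, hsA, -⟩ := h.rf.self h.an
  have hpW : p ∈ W := hsW hp
  have hA : AnAt (Z s) p := hsA p hpW
  have h6 : μH[rd C2 + 2] (Z s ∩ univ) = 0 := by
    rw [rd_C2, inter_univ]
    have h46 : (4 : ℝ) + 2 = 6 := by norm_num
    rw [h46]
    exact h.dim
  obtain ⟨L, hL⟩ := dim_iso (T := C2) hA hp univ_mem h6
  obtain ⟨ρ, hρ, η, hη, hW, -, hside, -⟩ := hL.scale hA (h.op.mem_nhds hpW)
  have hsideW : side p L ρ η ⊆ W := fun x hx => hW (sphere_subset_closedBall hx.1)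
  have hav := h.avoid _ hsideW (isCompact_side p L ρ η) hside
  obtain ⟨t₁, ht₁, ε, hε, hεη, V, hV, hsV, d, y, hy, hsh⟩ :=
    lc_sheets h hη hW hside (κ := η / 4) (by positivity)
  have hex : ∀ᶠ z in F, ∃ Y : C2 → Fin d → C2 × E, HM Y (ball (L p) η) ∧
      ∀ t ∈ ball (L p) η, ∀ x, (x ∈ Z z ∩ box p L ρ η ∧ L x = t) ↔ ∃ j, x = Y t j := by
    filter_upwards [h.an, hav, hsh] with z hz hd hs
    have hfb : FB (Z z ∩ box p L ρ η) L (ball (L p) η) :=
      scale_fb (fun x hx => hz.2.1 x (hW hx)) hd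
    have hpu : Pure (rd C2) (Z z ∩ box p L ρ η) := by
      rw [rd_C2]
      exact hz.2.2.inter_open (isOpen_box p L ρ η)
    obtain ⟨d', Y, hY1, hY2, hY3⟩ := t4 hfb (convex_ball _ _).isPreconnected hpu
    obtain ⟨t, ht, hg⟩ := hY3.exists_mem isOpen_ball hεη (nonempty_ball.2 hε)
    have hg' : Good (Z z ∩ box p L ρ η) L d' t := by
      by_contra hc
      exact hg hc
    have hg'' : Good (Z z ∩ box p L ρ η) L d t := ⟨ball t₁ ε, isOpen_ball, ht, _, hs⟩
    obtain rfl := hg'.unique hg''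
    exact ⟨Y, hY1, hY2⟩
  have : F.NeBot := ⟨fun hF => h.rf.self (P := fun _ => False) (by rw [hF]; exact eventually_bot)⟩
  obtain ⟨Y, hY⟩ := hex.choice
  have ht₁' : dist t₁ (L p) < η / 4 := mem_ball.1 ht₁
  have hsub1 : ball (L p) (η / 4) ⊆ ball (L p) η := ball_subset_ball (by linarith)
  have hsub2 : ball t₁ (3 * η / 4) ⊆ ball (L p) η := by
    intro t ht
    rw [mem_ball] at ht ⊢
    have := dist_triangle t t₁ (L p)
    linarith
  have hsub3 : ball (L p) (η / 4) ⊆ ball t₁ (η / 2) := by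
    intro t ht
    rw [mem_ball] at ht ⊢
    have := dist_triangle t (L p) t₁
    rw [dist_comm (L p) t₁] at this
    linarith
  have hrig : ∃ H : Set (C2 × (C2 × E)),
      Rigid F s Z (ball p ρ ∩ L ⁻¹' ball (L p) (η / 4)) H := by
    refine rig h.rf isOpen_ball (d := d) (Y := Y) ?_ ?_
    · filter_upwards [hY] with z hz t ht x
      rw [← hz.2 t (hsub1 ht) x]
      constructor
      · rintro ⟨h1, h2, h3⟩
        refine ⟨⟨h1, h2, ?_⟩, h3⟩
        rw [mem_preimage, h3]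
        exact hsub1 ht
      · rintro ⟨⟨h1, h2, -⟩, h3⟩
        exact ⟨h1, h2, h3⟩
    · intro ξ c
      have hε' : 0 < min ε (3 * η / 4) := lt_min hε (by positivity)
      have hb : ball t₁ (min ε (3 * η / 4)) ⊆ ball t₁ ε := ball_subset_ball (min_le_left _ _)
      have hΦ : DifferentiableOn ℂ (fun q : C2 × C2 => ∏ j, (c - ξ (y j q)))
          (V ×ˢ ball t₁ (min ε (3 * η / 4))) := by
        refine a2b_aux_prod Finset.univ (f := fun j (q : C2 × C2) => c - ξ (y j q)) fun j => ?_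
        exact (differentiableOn_const c).sub
          (ξ.differentiable.comp_differentiableOn ((hy j).mono (prod_mono Subset.rfl hb)))
      have hΨ : ∀ᶠ z in F, DifferentiableOn ℂ (fun t => ∏ j, (c - ξ (Y z t j)))
            (ball t₁ (3 * η / 4)) ∧
          (∀ t ∈ ball t₁ (3 * η / 4),
            ‖∏ j, (c - ξ (Y z t j))‖ ≤ (‖c‖ + ‖ξ‖ * (‖p‖ + ρ)) ^ d) ∧
          ∀ t ∈ ball t₁ (min ε (3 * η / 4)),
            ∏ j, (c - ξ (Y z t j)) = ∏ j, (c - ξ (y j (z, t))) := by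
        filter_upwards [hY, hsh] with z hz hs
        refine ⟨(hz.1 ξ c).mono hsub2, fun t ht => ?_, fun t ht => ?_⟩
        · refine a2b_aux_bound (fun j => ?_) ξ c
          exact ((hz.2 t (hsub2 ht) (Y z t j)).2 ⟨j, rfl⟩).1.2.1
        · have ht' := hb ht
          refine (prod_eq_of_range (hs.inj t ht') (fun x => ?_) fun x => c - ξ x).symm
          rw [← hz.2 t (hεη ht') x]
          constructor
          · rintro ⟨j, rfl⟩
            exact ⟨hs.mem_self j ht', hs.sec j t ht'⟩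
          · rintro ⟨h1, rfl⟩
            exact (hs.mem x ht').1 h1
      obtain ⟨V', hV', hsV', Φ', hΦ', he⟩ := tc h.rf hV hsV (R := 3 * η / 4) (R' := η / 2) hε'
        (min_le_right _ _) (by linarith) hΦ (Ψ := fun z t => ∏ j, (c - ξ (Y z t j))) hΨ
      refine ⟨V', hV', hsV', Φ', hΦ'.mono (prod_mono Subset.rfl hsub3), ?_⟩
      filter_upwards [he] with z hz t ht
      exact hz t (hsub3 ht)
  refine ⟨ball p ρ ∩ L ⁻¹' ball (L p) (η / 4),
    isOpen_ball.inter (isOpen_ball.preimage L.continuous),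
    ⟨mem_ball_self hρ, mem_ball_self (by positivity)⟩,
    fun x hx => hW (ball_subset_closedBall hx.1), hrig⟩

end Pool.Agent.Lib.MP_823829_an
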