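import Pool.Agent.Lib.MP_823829_an.A1
import Pool.Agent.Lib.MP_823829_an.A2b

/-! Rigid families on the manifold. -/

namespace Pool.Agent.Lib.MP_823829_an

open Set Metric Filter MeasureTheory
open scoped Topology ENNReal NNReal ContDiff ComplexConjugate

variable {X : Type*} [TopologicalSpace X] [T2Space X] [CompactSpace X] [Nonempty X] {m : ℕ}
  {a : Atl X m}

theorem a3_aux_fam {f : C4 → X} {ρ₁ ρ₂ : ℝ} {V : Set C2} {s : C2} {F : Filter C2}
    {G : C2 → Set (C2 × X)} (h : LA a f ρ₁ ρ₂ V s F G) (i : Fin a.n) {q : C2 × (Fin m → ℂ)}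
    (hq : q ∈ cs a i (G s)) (hr : q.1 ∈ reg a (G s)) : Fam F s (fun z => cs a i (G z)) q := by
  obtain ⟨V', B, g, oV, oB, sV, qB, hg, he⟩ := la_prop h hr
  have e0 : (a.e i).symm q.2 = g (s, q.1) := (h.rf.self he q.1 qB _).1 hq.2
  obtain ⟨oU, dU⟩ := holAt_chart (oV.prod oB) hg i
  obtain ⟨V₁, B₁, oV₁, oB₁, sV₁, qB₁, hs⟩ := isOpen_prod_iff.1 oU s q.1
    ⟨⟨sV, qB⟩, by rw [mem_preimage, ← e0]; exact (a.e i).map_target hq.1⟩
  refine ⟨V₁, B₁, (a.e i).target, a.e i ∘ g, oV₁, oB₁, (a.e i).open_target, sV₁, qB₁, hq.1,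
    dU.mono hs, fun t ht => (a.e i).map_source (hs ht).2, ?_⟩
  filter_upwards [he, h.rf.le (oV₁.mem_nhds sV₁)] with z hz zV w hw y hy
  have hm := hs (mk_mem_prod zV hw)
  refine (and_iff_right hy).trans ((hz w hm.1.2 _).trans ⟨fun e => ?_, fun e => ?_⟩)
  · rw [Function.comp_apply, ← e, (a.e i).right_inv hy]
  · rw [e, Function.comp_apply, (a.e i).left_inv hm.2]

theorem la_lc {f : C4 → X} {ρ₁ ρ₂ : ℝ} {V : Set C2} {s : C2} {F : Filter C2}
    {G : C2 → Set (C2 × X)} (h : LA a f ρ₁ ρ₂ V s F G) (i : Fin a.n) :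
    LC F s (fun z => cs a i (G z)) (ball 0 ρ₂ ×ˢ (a.e i).target) := by
  have hs := (h.rf.self h.mg).1
  refine ⟨h.rf, isOpen_ball.prod (a.e i).open_target, ?_, fun C hC cC dC => ?_, ?_, ?_⟩
  · filter_upwards [h.mg] with z hz
    have gs := hz.1.gs i
    exact ⟨gs.sub, gs.an, rd_C2 ▸ gs.pure⟩
  · filter_upwards [h.avoid _ (isCompact_chart_image cC fun q hq => (hC hq).2)
      (by rintro _ ⟨q, hq, rfl⟩; exact (hC hq).1)
      (disjoint_left.2 (by
        rintro _ ⟨q, hq, rfl⟩ hG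
        exact disjoint_left.1 dC hq ⟨(hC hq).2, hG⟩))] with z hz
    exact disjoint_left.2 fun q hq hG => disjoint_left.1 hz (mem_image_of_mem _ hq) hG.2
  · refine measure_mono_null (fun q hq => ?_) ((hs.thinE i).null (by rw [rd_C2]; norm_num))
    exact ⟨hq.1, fun hr => hq.2 (a3_aux_fam h i hq.1 hr)⟩
  · exact (hs.gs i).sf.null (by rw [rd_C2]; norm_num)

theorem la_rigid {f : C4 → X} {ρ₁ ρ₂ : ℝ} {V : Set C2} {s : C2} {F : Filter C2}
    {G : C2 → Set (C2 × X)} (h : LA a f ρ₁ ρ₂ V s F G) {p : C2 × X}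
    (hp : p.1 ∈ ball (0 : C2) ρ₂) :
    ∃ N : Set (C2 × X), IsOpen N ∧ p ∈ N ∧ ∃ H : Set (C4 × X), RigidX a F s G N H := by
  have hs := (h.rf.self h.mg).1
  by_cases hG : p ∈ G s
  · obtain ⟨i, hi⟩ := a.cov p.2
    obtain ⟨N, oN, pN, -, H, R⟩ := lc_rigid (la_lc h i) (p := (p.1, a.e i p.2))
      ((mem_cs hi).2 hG)
    let Φ := ContinuousLinearEquiv.prodAssoc ℂ C2 C2 (Fin m → ℂ)
    refine ⟨{q | q.2 ∈ (a.e i).source ∧ (q.1, a.e i q.2) ∈ N}, ?_, ⟨hi, pN⟩,
      {q | q.2 ∈ (a.e i).source ∧ (q.1.1, (q.1.2, a.e i q.2)) ∈ H}, fun q hq => ?_, ?_,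
      fun q hq H' aH ⟨N', hN', he⟩ => ?_⟩
    · exact ContinuousOn.isOpen_inter_preimage (s := {q : C2 × X | q.2 ∈ (a.e i).source})
        (f := fun q => (q.1, a.e i q.2))
        (continuousOn_fst.prodMk ((a.e i).continuousOn.comp continuousOn_snd fun _ h => h))
        ((a.e i).open_source.preimage continuous_snd) oN
    · refine AnX.of_chart i hq.1 (AnAt.congr (AnAt.preimage (Φ := Φ) (R.an _ hq.2)
        (Eventually.of_forall fun _ => Φ.differentiableAt)) ?_)
      filter_upwards [continuous_snd.continuousAt.preimage_mem_nhds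
        ((a.e i).open_target.mem_nhds ((a.e i).map_source hq.1))] with r hr
      have hr' : r.2 ∈ (a.e i).target := hr
      simp only [cs, mem_ofPred_eq, hr', (a.e i).map_target hr', (a.e i).right_inv hr', true_and]
      rfl
    · filter_upwards [R.eq] with z hz q hq
      exact (and_iff_right hq.1).trans ((hz _ hq.2).trans (mem_cs hq.1))
    · have h1 := R.rig _ hq.2 (Φ.symm ⁻¹' cs a i H') (AnAt.preimage (Φ := Φ.symm) (aH i hq.1)
        (Eventually.of_forall fun _ => Φ.symm.differentiableAt))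
        ⟨_, (eventually_chart hq.1 (P := fun r => r ∈ N')).1 hN', by
          filter_upwards [he] with z hz r hr hc
          exact ⟨hc.1, hz _ hr hc.2⟩⟩
      refine (eventually_chart (p := emb s q) hq.1).2 ?_
      filter_upwards [(Φ.continuous.tendsto ((s, q.1), a.e i q.2)).eventually h1,
        continuous_snd.continuousAt.preimage_mem_nhds
        ((a.e i).open_target.mem_nhds ((a.e i).map_source hq.1))] with r h2 hr h3
      have hr' : r.2 ∈ (a.e i).target := hr
      have h4 := h3.2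
      simp only [(a.e i).right_inv hr'] at h4
      exact (h2 h4).2
  · obtain ⟨C, hC, sC, cC⟩ := local_compact_nhds (((hs.an.2 p hp).notMem_nhds hG).and
      (continuous_fst.continuousAt.preimage_mem_nhds (isOpen_ball.mem_nhds hp)))
    refine ⟨interior C, isOpen_interior, mem_interior_iff_mem_nhds.2 hC, ∅,
      fun q _ => anX_of_notMem_closure (by simp), ?_,
      fun _ _ _ _ _ => Eventually.of_forall fun _ h => h.elim⟩
    filter_upwards [h.avoid C cC (fun q hq => (sC hq).2)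
      (disjoint_left.2 fun q hq => (sC hq).1)] with z hz q hq
    exact iff_of_false (notMem_empty _) (disjoint_left.1 hz (interior_subset hq))

end Pool.Agent.Lib.MP_823829_an
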