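import Pool.Agent.Lib.MP_823829_an.MLemX
import Pool.Agent.Lib.MP_823829_an.Geo

/-! Uniqueness and irreducibility of meromorphic graphs. -/

namespace Pool.Agent.Lib.MP_823829_an

open Set Metric Filter MeasureTheory
open scoped Topology ENNReal NNReal ContDiff ComplexConjugate

variable {X : Type*} [TopologicalSpace X] [T2Space X] [CompactSpace X] [Nonempty X] {m : ℕ}
  {a : Atl X m} {T : Type} [NormedAddCommGroup T] [NormedSpace ℂ T] [FiniteDimensional ℂ T]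
  [Nontrivial T] [MeasurableSpace T] [BorelSpace T]

omit [T2Space X] [CompactSpace X] [Nontrivial T] [MeasurableSpace T] [BorelSpace T] in
theorem muniq_aux_an {D : Set T} {Γ Z : Set (T × X)} (h : MG a D Γ) (hZ : AnOn a D Z) :
    ∀ t ∈ reg a Γ, AnAt {t | (t, gf Γ t) ∈ Z} t := by
  intro t ht
  have htD : t ∈ D := reg_subset h.an.1 ht
  refine AnX.graph_preimage (hZ.2 (t, gf Γ t) htD) ?_
  filter_upwards [(isOpen_reg (a := a) Γ).mem_nhds ht] with t' ht'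
  exact (graphOn_reg (a := a) Γ).1 t' ht'

omit [T2Space X] [CompactSpace X] [Nontrivial T] [MeasurableSpace T] [BorelSpace T] in
theorem muniq_aux_sub {D : Set T} {Γ Z : Set (T × X)} (h : MG a D Γ) (hZ : AnOn a D Z)
    (hs : reg a Γ ⊆ {t | (t, gf Γ t) ∈ Z}) : Γ ⊆ Z := by
  intro p hp
  refine (hZ.2 p (h.an.1 p hp)).mem_of_closure (closure_mono ?_ (h.cl hp))
  rintro ⟨t, x⟩ ⟨hq, hq'⟩
  have hx : x = gf Γ t := ((graphOn_reg (a := a) Γ).2 t hq' x).1 hq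
  subst hx
  exact hs hq'

omit [T2Space X] [CompactSpace X] [FiniteDimensional ℂ T] [Nontrivial T] [MeasurableSpace T]
  [BorelSpace T] in
theorem muniq_aux_mem {Γ : Set (T × X)} {t : T} (ht : t ∈ reg a Γ) : (t, gf Γ t) ∈ Γ :=
  ((graphOn_reg (a := a) Γ).2 t ht _).2 rfl

theorem MG.subset_of_nhds {D : Set T} {Γ Z : Set (T × X)} (h : MG a D Γ) (hc : IsPreconnected D)
    (hZ : AnOn a D Z) {D₀ : Set T} (h₀ : IsOpen D₀) (hne : D₀.Nonempty) (hs : D₀ ⊆ D)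
    (hsub : ∀ t ∈ D₀, ∀ x, (t, x) ∈ Γ → (t, x) ∈ Z) : Γ ⊆ Z := by
  obtain ⟨t₁, ht₁⟩ := hne
  obtain ⟨t₀, ht₀D, ht₀⟩ := mem_closure_iff.1 (h.dense (hs ht₁)) D₀ h₀ ht₁
  refine muniq_aux_sub h hZ
    (an_id (isOpen_reg Γ) (h.preconnected_reg hc) (muniq_aux_an h hZ) ht₀ ?_)
  filter_upwards [h₀.mem_nhds ht₀D, (isOpen_reg (a := a) Γ).mem_nhds ht₀] with t ht ht'
  exact hsub t ht _ (muniq_aux_mem ht')

theorem MG.uniq {D D₀ : Set T} {Γ₁ Γ₂ : Set (T × X)} (h₁ : MG a D Γ₁) (h₂ : MG a D Γ₂)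
    (hc : IsPreconnected D) (h₀ : IsOpen D₀) (hne : D₀.Nonempty) (hs : D₀ ⊆ D)
    (ha : Agree Γ₁ Γ₂ D₀) : Γ₁ = Γ₂ :=
  Subset.antisymm
    (h₁.subset_of_nhds hc h₂.an h₀ hne hs fun t ht x hx => (ha t ht x).1 hx)
    (h₂.subset_of_nhds hc h₁.an h₀ hne hs fun t ht x hx => (ha t ht x).2 hx)

theorem MG.agree {D₁ D₂ U D₀ : Set T} {Γ₁ Γ₂ : Set (T × X)} (h₁ : MG a D₁ Γ₁) (h₂ : MG a D₂ Γ₂)
    (hU : IsOpen U) (hc : IsPreconnected U) (hs₁ : U ⊆ D₁) (hs₂ : U ⊆ D₂) (h₀ : IsOpen D₀)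
    (hne : D₀.Nonempty) (hs : D₀ ⊆ U) (ha : Agree Γ₁ Γ₂ D₀) : Agree Γ₁ Γ₂ U := by
  have he : res Γ₁ U = res Γ₂ U := by
    refine (h₁.restrict hU hs₁).uniq (h₂.restrict hU hs₂) hc h₀ hne hs ?_
    intro t ht x
    constructor
    · rintro ⟨hx, hx'⟩
      exact ⟨(ha t ht x).1 hx, hx'⟩
    · rintro ⟨hx, hx'⟩
      exact ⟨(ha t ht x).2 hx, hx'⟩
  intro t ht x
  constructor
  · intro hx
    have : (t, x) ∈ res Γ₁ U := ⟨hx, ht⟩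
    rw [he] at this
    exact this.1
  · intro hx
    have : (t, x) ∈ res Γ₂ U := ⟨hx, ht⟩
    rw [← he] at this
    exact this.1

theorem MG.irr {D : Set T} {Γ Z₁ Z₂ : Set (T × X)} (h : MG a D Γ) (hc : IsPreconnected D)
    (h₁ : AnOn a D Z₁) (h₂ : AnOn a D Z₂) (he : Γ = Z₁ ∪ Z₂) : Γ = Z₁ ∨ Γ = Z₂ := by
  have hs₁ : Z₁ ⊆ Γ := he ▸ subset_union_left
  have hs₂ : Z₂ ⊆ Γ := he ▸ subset_union_right
  have hp := h.preconnected_reg hc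
  rcases an_dich (isOpen_reg Γ) hp (muniq_aux_an h h₁) with k₁ | k₁
  · exact Or.inl (Subset.antisymm (muniq_aux_sub h h₁ k₁) hs₁)
  rcases an_dich (isOpen_reg Γ) hp (muniq_aux_an h h₂) with k₂ | k₂
  · exact Or.inr (Subset.antisymm (muniq_aux_sub h h₂ k₂) hs₂)
  rcases (reg a Γ).eq_empty_or_nonempty with hr | hr
  · refine Or.inl (Subset.antisymm (muniq_aux_sub h h₁ ?_) hs₁)
    rw [hr]
    exact empty_subset _
  · obtain ⟨t, ht, hn⟩ := (k₁.union k₂).exists_mem (isOpen_reg Γ) Subset.rfl hr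
    have hm : (t, gf Γ t) ∈ Z₁ ∪ Z₂ := by
      have := muniq_aux_mem ht
      generalize gf Γ t = y at this
      rwa [he] at this
    exact absurd hm hn

theorem mg_of_irr {D O : Set T} {Γ : Set (T × X)} (hD : IsOpen D) (hc : IsPreconnected D)
    (h : AnOn a D Γ)
    (hirr : ∀ Z₁ Z₂ : Set (T × X), AnOn a D Z₁ → AnOn a D Z₂ → Γ = Z₁ ∪ Z₂ → Γ = Z₁ ∨ Γ = Z₂)
    (hO : IsOpen O) (hne : O.Nonempty) (hs : O ⊆ D) (hu : ∀ t ∈ O, ∃! x, (t, x) ∈ Γ) :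
    MG a D Γ := by
  obtain ⟨U, g, hU, hUne, hUO, hg⟩ := graph_of_unique hD h hO hne hs hu
  obtain ⟨G₁, hG, hsub, hag⟩ := lemX hD hc h hU hUne hg
  have hsp := split_diffX h hG.an
  have he : Γ = G₁ ∪ res (closure (Γ \ G₁)) D := by
    apply Subset.antisymm
    · intro p hp
      by_cases hq : p ∈ G₁
      · exact Or.inl hq
      · exact Or.inr ⟨subset_closure ⟨hp, hq⟩, h.1 p hp⟩
    · rintro p (hp | ⟨hp, hpD⟩)
      · exact hsub hp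
      · exact (h.2 p hpD).mem_of_closure (closure_mono sdiff_subset hp)
  rcases hirr _ _ hG.an hsp he with k | k
  · rw [k]
    exact hG
  · exfalso
    obtain ⟨t, ht⟩ := hUne
    have htr : t ∈ reg a Γ := hg.subset_reg hU ht
    have hm : (t, g t) ∈ Γ := (hg.2 t ht _).2 rfl
    have hm' : (t, g t) ∈ closure (Γ \ G₁) := by
      have : (t, g t) ∈ res (closure (Γ \ G₁)) D := k ▸ hm
      exact this.1
    obtain ⟨q, hq, hq'⟩ := mem_closure_iff.1 hm' (Prod.fst ⁻¹' reg a Γ)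
      ((isOpen_reg Γ).preimage continuous_fst) htr
    exact hq'.2 ((hag q.1 hq q.2).2 hq'.1)

/-- Two extensions over products with a bidisc that agree over the shell agree everywhere. -/
theorem agree_prod {N₁ N₂ : Set C2} {ρ₁ ρ₂ : ℝ} (h0 : 0 < ρ₁) (hρ : ρ₁ < ρ₂)
    {G₁ G₂ : Set (C4 × X)} (hN₁ : IsOpen N₁) (hN₂ : IsOpen N₂)
    (h₁ : MG a (N₁ ×ˢ ball 0 ρ₂) G₁) (h₂ : MG a (N₂ ×ˢ ball 0 ρ₂) G₂)
    (ha : Agree G₁ G₂ ((N₁ ∩ N₂) ×ˢ shell ρ₁ ρ₂)) :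
    Agree G₁ G₂ (N₁ ×ˢ ball 0 ρ₂ ∩ N₂ ×ˢ ball 0 ρ₂) := by
  rintro ⟨z, w⟩ ⟨⟨hz₁, hw⟩, ⟨hz₂, -⟩⟩
  obtain ⟨r, hr, hB⟩ := Metric.isOpen_iff.1 (hN₁.inter hN₂) z ⟨hz₁, hz₂⟩
  have c₁ : IsPreconnected (ball z r) := (convex_ball z r).isPreconnected
  have c₂ : IsPreconnected (ball (0 : C2) ρ₂) := (convex_ball (0 : C2) ρ₂).isPreconnected
  have c : IsPreconnected (ball z r ×ˢ ball (0 : C2) ρ₂) := c₁.prod c₂
  have o₁ : IsOpen (ball z r ×ˢ ball (0 : C2) ρ₂) := isOpen_ball.prod isOpen_ball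
  have o₂ : IsOpen (ball z r ×ˢ shell ρ₁ ρ₂) := isOpen_ball.prod (isOpen_shell ρ₁ ρ₂)
  have s₁ : ball z r ×ˢ ball (0 : C2) ρ₂ ⊆ N₁ ×ˢ ball (0 : C2) ρ₂ :=
    prod_mono (hB.trans inter_subset_left) Subset.rfl
  have s₂ : ball z r ×ˢ ball (0 : C2) ρ₂ ⊆ N₂ ×ˢ ball (0 : C2) ρ₂ :=
    prod_mono (hB.trans inter_subset_right) Subset.rfl
  have s₃ : ball z r ×ˢ shell ρ₁ ρ₂ ⊆ ball z r ×ˢ ball (0 : C2) ρ₂ :=
    prod_mono Subset.rfl (shell_subset ρ₁ ρ₂)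
  have n : (ball z r ×ˢ shell ρ₁ ρ₂).Nonempty :=
    (nonempty_ball.2 hr).prod (shell_nonempty h0 hρ)
  have ha' : Agree G₁ G₂ (ball z r ×ˢ shell ρ₁ ρ₂) := fun t ht => ha t ⟨hB ht.1, ht.2⟩
  have key : Agree G₁ G₂ (ball z r ×ˢ ball (0 : C2) ρ₂) :=
    MG.agree h₁ h₂ o₁ c s₁ s₂ o₂ n s₃ ha'
  exact key (z, w) ⟨mem_ball_self hr, hw⟩

end Pool.Agent.Lib.MP_823829_an
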