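import Pool.Agent.Lib.MP_823829_an.A3
import Pool.Agent.Lib.MP_823829_an.MUniq

/-! Patching the rigid families: the extension lemma at one point. -/

namespace Pool.Agent.Lib.MP_823829_an

open Set Metric Filter MeasureTheory
open scoped Topology ENNReal NNReal ContDiff ComplexConjugate

variable {X : Type*} [TopologicalSpace X] [T2Space X] [CompactSpace X] [Nonempty X] {m : ℕ}
  {a : Atl X m}

omit [T2Space X] [CompactSpace X] [Nonempty X] in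
theorem a4_aux_tube {s : C2} {K : Set (C2 × X)} (hK : IsCompact K) {P : C4 × X → Prop}
    (h : ∀ p ∈ K, ∀ᶠ q in 𝓝 (emb s p), P q) : ∀ᶠ z in 𝓝 s, ∀ p ∈ K, P (emb z p) := by
  have hc : Continuous fun q : C2 × C2 × X => emb q.1 q.2 := by
    unfold emb
    fun_prop
  exact hK.eventually_forall_of_forall_eventually fun p hp =>
    (hc.tendsto (s, p)).eventually (h p hp)

theorem la_patch {f : C4 → X} {ρ₁ ρ₂ : ℝ} {V : Set C2} {s : C2} {F : Filter C2}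
    {G : C2 → Set (C2 × X)} (h : LA a f ρ₁ ρ₂ V s F G) {ρ : ℝ} (h2 : ρ < ρ₂) :
    ∃ V₀ : Set C2, IsOpen V₀ ∧ s ∈ V₀ ∧ ∃ H : Set (C4 × X), AnOn a (V₀ ×ˢ ball 0 ρ) H ∧
      RigidX a F s G (ball 0 ρ ×ˢ univ) H := by
  have := a.locallyCompact
  choose N hN hp H hH using fun p : (closedBall (0 : C2) ρ ×ˢ (univ : Set X) :) =>
    la_rigid h (p := p.1) (closedBall_subset_ball h2 p.2.1)
  choose M m1 m2 m3 using fun p => exists_compact_subset (hN p) (hp p)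
  obtain ⟨t, ht⟩ := ((isCompact_closedBall (0 : C2) ρ).prod isCompact_univ).elim_finite_subcover
    (fun p => interior (M p)) (fun _ => isOpen_interior) fun p hp => mem_iUnion.2 ⟨⟨p, hp⟩, m2 _⟩
  have cov : ∀ p : C2 × X, p.1 ∈ ball (0 : C2) ρ → ∃ α ∈ t, p ∈ interior (M α) := fun p hp => by
    simpa using ht ⟨ball_subset_closedBall hp, mem_univ p.2⟩
  have h3 : ∀ᶠ z in 𝓝 s, ∀ α ∈ t, (∀ p ∈ M α, AnX a (H α) (emb z p)) ∧
      ∀ β ∈ t, ∀ p ∈ M α ∩ M β, emb z p ∈ H α → emb z p ∈ H β :=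
    (eventually_all_finset t).2 fun α _ => (a4_aux_tube (m1 α) fun p hp =>
      ((hH α).an p (m3 α hp)).eventually).and ((eventually_all_finset t).2 fun β _ =>
        a4_aux_tube (P := fun q => q ∈ H α → q ∈ H β) ((m1 α).inter (m1 β)) fun p hp =>
          (hH α).rig p (m3 α hp.1) _ ((hH β).an p (m3 β hp.2))
            ⟨N β, (hN β).mem_nhds (m3 β hp.2), (hH β).eq.mono fun z hz q hq => (hz q hq).2⟩)
  obtain ⟨V₀, v1, v2, v3⟩ := _root_.eventually_nhds_iff.1 h3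
  let H₀ : Set (C4 × X) := {q | q.1 ∈ V₀ ×ˢ ball (0 : C2) ρ ∧
    ∃ α ∈ t, (q.1.2, q.2) ∈ interior (M α) ∧ q ∈ H α}
  have loc : ∀ α ∈ t, ∀ q : C4 × X, q.1 ∈ V₀ ×ˢ ball (0 : C2) ρ → (q.1.2, q.2) ∈ interior (M α) →
      (q ∈ H α ↔ q ∈ H₀) := fun α hα q q1 q2 => ⟨fun e => ⟨q1, α, hα, q2, e⟩,
    fun ⟨_, β, hβ, b1, b2⟩ => (v1 _ q1.1 β hβ).2 α hα _
      ⟨interior_subset b1, interior_subset q2⟩ b2⟩
  have loc' : ∀ α ∈ t, ∀ q : C4 × X, q.1 ∈ V₀ ×ˢ ball (0 : C2) ρ →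
      (q.1.2, q.2) ∈ interior (M α) → ∀ᶠ q' in 𝓝 q, q' ∈ H α ↔ q' ∈ H₀ := fun α hα q q1 q2 => by
    have c : Continuous fun q : C4 × X => (q.1.2, q.2) := by fun_prop
    filter_upwards [((v2.prod isOpen_ball).preimage continuous_fst).mem_nhds q1,
      (isOpen_interior.preimage c).mem_nhds q2] with q' using loc α hα q'
  have an : AnOn a (V₀ ×ˢ ball 0 ρ) H₀ := ⟨fun q hq => hq.1, fun q hq => by
    obtain ⟨α, hα, e⟩ := cov (q.1.2, q.2) hq.2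
    exact ((v1 _ hq.1 α hα).1 _ (interior_subset e)).congr (loc' α hα q hq e)⟩
  refine ⟨V₀, v2, v3, H₀, an, fun p hp => an.2 _ ⟨v3, hp.1⟩, ?_, fun p hp H' h4 h5 => ?_⟩
  · filter_upwards [h.rf.le (v2.mem_nhds v3), (eventually_all_finset t).2 fun α _ => (hH α).eq]
      with z z1 z2 p hp
    obtain ⟨α, hα, e⟩ := cov p hp.1
    exact (loc α hα (emb z p) ⟨z1, hp.1⟩ e).symm.trans (z2 α hα p (m3 α (interior_subset e)))
  · obtain ⟨α, hα, e⟩ := cov p hp.1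
    filter_upwards [(hH α).rig p (m3 α (interior_subset e)) H' h4 h5,
      loc' α hα (emb s p) ⟨v3, hp.1⟩ e] with q q1 q2 q3 using q1 (q2.2 q3)

theorem la_ext {f : C4 → X} {ρ₁ ρ₂ : ℝ} {V : Set C2} {s : C2} {F : Filter C2}
    {G : C2 → Set (C2 × X)} (h : LA a f ρ₁ ρ₂ V s F G) : ExtN a f ρ₁ ρ₂ s := by
  obtain ⟨ρ, r1, r2⟩ := exists_between h.lt
  obtain ⟨V₀, v1, v2, H, an, R⟩ := la_patch h r2
  obtain ⟨w, hw⟩ := shell_nonempty h.pos r1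
  have sh : shell ρ₁ ρ ⊆ shell ρ₁ ρ₂ := fun u hu =>
    mem_shell.2 ⟨(mem_shell.1 hu).1, (mem_shell.1 hu).2.trans r2⟩
  have hol : ∀ᶠ t in 𝓝 (s, w), HolAt a f t :=
    mem_of_superset ((h.opV.prod (isOpen_shell _ _)).mem_nhds ⟨h.memV, sh hw⟩) h.hol
  have h1 : ∀ᶠ t in 𝓝 (s, w), ∀ x ∈ (univ : Set X), (t, x) ∈ H → x = f t :=
    isCompact_univ.eventually_forall_of_forall_eventually fun x _ =>
      R.rig (w, x) ⟨shell_subset _ _ hw, mem_univ _⟩ (grf f) (anX_grf hol)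
        ⟨shell ρ₁ ρ₂ ×ˢ univ, ((isOpen_shell _ _).prod isOpen_univ).mem_nhds ⟨sh hw, mem_univ _⟩,
          h.mg.mono fun z hz p hp => (hz.2 p.1 hp.1 p.2).1⟩
  have h2 : {t | (t, f t) ∈ H} ∈ 𝓝 (s, w) :=
    ru h.rf ((an.2 ((s, w), f (s, w)) ⟨v2, shell_subset _ _ hw⟩).graph_preimage hol)
      ⟨_, (isOpen_shell _ _).mem_nhds hw, (h.mg.and R.eq).mono fun z hz u hu =>
        (hz.2 (u, f (z, u)) ⟨shell_subset _ _ hu, mem_univ _⟩).2 ((hz.1.2 u (sh hu) _).2 rfl)⟩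
  obtain ⟨ε, e0, he⟩ := Metric.mem_nhds_iff.1 (inter_mem (v1.mem_nhds v2) (h.opV.mem_nhds h.memV))
  have oD : IsOpen (ball s ε ×ˢ ball (0 : C2) ρ) := isOpen_ball.prod isOpen_ball
  have oU : IsOpen (ball s ε ×ˢ shell ρ₁ ρ) := isOpen_ball.prod (isOpen_shell _ _)
  have oE : IsOpen (ball s ε ×ˢ shell ρ₁ ρ₂) := isOpen_ball.prod (isOpen_shell _ _)
  have sD : ball s ε ×ˢ shell ρ₁ ρ ⊆ ball s ε ×ˢ ball (0 : C2) ρ :=
    prod_mono subset_rfl (shell_subset _ _)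
  have sE : ball s ε ×ˢ shell ρ₁ ρ ⊆ ball s ε ×ˢ shell ρ₁ ρ₂ := prod_mono subset_rfl sh
  obtain ⟨D₀, d1, d2, d3⟩ := _root_.eventually_nhds_iff.1
    (hol.and (h1.and (Eventually.and h2 (oU.mem_nhds ⟨mem_ball_self e0, hw⟩))))
  have gr : GraphOn a (res H (ball s ε ×ˢ ball (0 : C2) ρ)) D₀ f :=
    ⟨fun t ht => (d1 t ht).1, fun t ht x => ⟨fun e => (d1 t ht).2.1 x (mem_univ _) e.1,
      fun e => e ▸ ⟨(d1 t ht).2.2.1, sD (d1 t ht).2.2.2⟩⟩⟩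
  obtain ⟨G₁, g1, -, g2⟩ := lemX oD (((convex_ball _ _).prod (convex_ball _ _)).isPreconnected)
    (an.restrict oD (prod_mono (fun u hu => (he hu).1) subset_rfl)) d2 ⟨_, d3⟩ gr
  have g3 := mg_graph (a := a) oE fun t ht => h.hol t ⟨(he ht.1).2, ht.2⟩
  have g4 := g1.agree g3 oU ((convex_ball s ε).isPreconnected.prod (isPreconnected_shell h.pos))
    sD sE d2 ⟨_, d3⟩ (fun t ht => (d1 t ht).2.2.2) fun t ht x =>
      (g2 t (gr.subset_reg d2 ht) x).trans ((gr.2 t ht x).trans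
        (and_iff_left (sE (d1 t ht).2.2.2)).symm)
  obtain ⟨g5, -, g6⟩ := g1.union g3 fun t ht => g4 t ⟨ht.1.1,
    mem_shell.2 ⟨(mem_shell.1 ht.2.2).1, mem_ball_zero_iff.1 ht.1.2⟩⟩
  have e : ball s ε ×ˢ ball (0 : C2) ρ ∪ ball s ε ×ˢ shell ρ₁ ρ₂ = ball s ε ×ˢ ball 0 ρ₂ := by
    rw [← prod_union]
    congr 1
    refine (union_subset (ball_subset_ball r2.le) (shell_subset _ _)).antisymm fun u hu => ?_
    exact (lt_or_ge ‖u‖ ρ).imp mem_ball_zero_iff.2 fun e =>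
      mem_shell.2 ⟨r1.trans_le e, mem_ball_zero_iff.1 hu⟩
  exact ⟨_, isOpen_ball, mem_ball_self e0, _, e ▸ g5, fun t ht x =>
    (g6 t ht x).trans (and_iff_left ht)⟩

end Pool.Agent.Lib.MP_823829_an
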