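import Pool.Agent.Lib.MP_823829_an.Key

/-! Points without the two-constants property form a polar set. -/

namespace Pool.Agent.Lib.MP_823829_an

open Set Metric Filter MeasureTheory
open scoped Topology ENNReal NNReal ContDiff ComplexConjugate

/-- The normalized positive part of the logarithm of the modulus. -/
noncomputable def lemkU (k : ℕ) (a : C2 → ℂ) (z : C2) : ℝ := Real.log (max 1 ‖a z‖) / k

/-- The test pairs in the two-constants property on `V`. -/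
def lemkFam (K V : Set C2) (k : ℕ) (a : C2 → ℂ) : Prop :=
  1 ≤ k ∧ DifferentiableOn ℂ a V ∧ (∀ z ∈ V, ‖a z‖ ≤ Real.exp k) ∧ ∀ z ∈ K ∩ V, ‖a z‖ ≤ 1

/-- The two-constants property for one open set and one exponent. -/
def lemkReg (K V : Set C2) (ε : ℝ) (s : C2) : Prop :=
  ∃ V' : Set C2, IsOpen V' ∧ s ∈ V' ∧ V' ⊆ V ∧
    ∀ (k : ℕ) (a : C2 → ℂ), lemkFam K V k a → ∀ z ∈ V', ‖a z‖ ≤ Real.exp (ε * k)

theorem lemk_aux_nonneg (k : ℕ) (a : C2 → ℂ) (z : C2) : 0 ≤ lemkU k a z :=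
  div_nonneg (Real.log_nonneg (le_max_left _ _)) (Nat.cast_nonneg k)

theorem lemk_aux_exp {k : ℕ} (hk : 1 ≤ k) (a : C2 → ℂ) (z : C2) :
    Real.exp (lemkU k a z * k) = max 1 ‖a z‖ := by
  have hk0 : (k : ℝ) ≠ 0 := by
    have : (1 : ℝ) ≤ k := by exact_mod_cast hk
    linarith
  rw [lemkU, div_mul_cancel₀ _ hk0, Real.exp_log (lt_of_lt_of_le one_pos (le_max_left _ _))]

theorem lemk_aux_le_iff {k : ℕ} (hk : 1 ≤ k) (a : C2 → ℂ) (z : C2) {M : ℝ} (hM : 0 ≤ M) :
    lemkU k a z ≤ M ↔ ‖a z‖ ≤ Real.exp (M * k) := by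
  have hk0 : (0 : ℝ) < k := by
    have : (1 : ℝ) ≤ k := by exact_mod_cast hk
    linarith
  have h1 : (1 : ℝ) ≤ Real.exp (M * k) := Real.one_le_exp (mul_nonneg hM hk0.le)
  rw [← mul_le_mul_iff_of_pos_right hk0, ← Real.exp_le_exp, lemk_aux_exp hk, max_le_iff]
  exact ⟨fun h => h.2, fun h => ⟨h1, h⟩⟩

theorem lemk_aux_cont (k : ℕ) {a : C2 → ℂ} {V : Set C2} (ha : DifferentiableOn ℂ a V) :
    ContinuousOn (lemkU k a) V := by
  unfold lemkU
  refine ContinuousOn.div_const ?_ _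
  refine ContinuousOn.log (continuousOn_const.sup ha.continuousOn.norm) fun z _ => ?_
  exact (lt_of_lt_of_le one_pos (le_max_left _ _)).ne'

theorem lemkFam.le_one {K V : Set C2} {k : ℕ} {a : C2 → ℂ} (h : lemkFam K V k a) {z : C2}
    (hz : z ∈ V) : lemkU k a z ≤ 1 := by
  rw [lemk_aux_le_iff h.1 a z zero_le_one, one_mul]
  exact h.2.2.1 z hz

theorem lemkFam.le_zero {K V : Set C2} {k : ℕ} {a : C2 → ℂ} (h : lemkFam K V k a) {z : C2}
    (hz : z ∈ K ∩ V) : lemkU k a z ≤ 0 := by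
  rw [lemk_aux_le_iff h.1 a z le_rfl, zero_mul, Real.exp_zero]
  exact h.2.2.2 z hz

theorem lemkFam.abs_le {K V : Set C2} {k : ℕ} {a : C2 → ℂ} (h : lemkFam K V k a) {z : C2}
    (hz : z ∈ V) : |lemkU k a z| ≤ 1 := by
  rw [abs_of_nonneg (lemk_aux_nonneg k a z)]
  exact h.le_one hz

/-- A smooth subharmonic function that approximates the maximum of finitely many functions. -/
theorem lemk_aux_smooth {V : Set C2} (hV : IsOpen V) {n : ℕ} (k : Fin n → ℕ)
    (a : Fin n → C2 → ℂ) (hk : ∀ i, 1 ≤ k i) (ha : ∀ i, DifferentiableOn ℂ (a i) V) {η : ℝ}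
    (hη : 0 < η) :
    ∃ U : C2 → ℝ, ContDiffOn ℝ 2 U V ∧ (∀ z ∈ V, 0 ≤ lap U z) ∧ (∀ z, 0 ≤ U z) ∧
      (∀ i z, lemkU (k i) (a i) z ≤ U z) ∧
      ∀ z M, 0 ≤ M → (∀ i, lemkU (k i) (a i) z ≤ M) → U z ≤ M + η := by
  classical
  obtain ⟨q, hq⟩ := exists_nat_gt (Real.log (1 + n) / η)
  have hlog : 0 ≤ Real.log (1 + n) := Real.log_nonneg (by
    have : (0 : ℝ) ≤ n := Nat.cast_nonneg n
    linarith)
  have hq0 : 0 < q := by
    have : (0 : ℝ) < q := lt_of_le_of_lt (div_nonneg hlog hη.le) hq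
    exact_mod_cast this
  set P : ℕ := q * ∏ i, k i with hP
  have hprod : 0 < ∏ i, k i := Finset.prod_pos fun i _ => hk i
  have hPq : q ≤ P := Nat.le_mul_of_pos_right q hprod
  have hP0 : (0 : ℝ) < P := by exact_mod_cast lt_of_lt_of_le hq0 hPq
  have hdvd : ∀ i, ∃ e : ℕ, P = k i * e := fun i =>
    Dvd.dvd.mul_left (Finset.dvd_prod_of_mem k (Finset.mem_univ i)) q
  choose e he using hdvd
  have hb : ∀ i, DifferentiableOn ℂ (fun z => a i z ^ e i) V := fun i => (ha i).pow _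
  obtain ⟨hs, hl⟩ := psh_log (b := fun i z => a i z ^ e i) hV hb
  have hs2 : ContDiffOn ℝ 2 (fun z => Real.log (1 + ∑ i, ‖a i z ^ e i‖ ^ 2)) V :=
    hs.of_le (ENat.natCast_le_of_coe_top_le_withTop le_rfl 2)
  have hsum : ∀ z, 0 ≤ ∑ i, ‖a i z ^ e i‖ ^ 2 := fun z =>
    Finset.sum_nonneg fun i _ => by positivity
  have hexp : ∀ i z, Real.exp (2 * P * lemkU (k i) (a i) z) = (max 1 ‖a i z‖) ^ (2 * e i) := by
    intro i z
    rw [← lemk_aux_exp (hk i), ← Real.exp_nat_mul, he i]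
    congr 1
    push_cast
    ring
  have hpow : ∀ i z, ‖a i z ^ e i‖ ^ 2 = ‖a i z‖ ^ (2 * e i) := by
    intro i z
    rw [norm_pow, ← pow_mul, mul_comm]
  refine ⟨fun z => (2 * P : ℝ)⁻¹ * Real.log (1 + ∑ i, ‖a i z ^ e i‖ ^ 2),
    contDiffOn_const.mul hs2, fun z hz => ?_, fun z => ?_, fun i z => ?_, fun z M hM h => ?_⟩
  · rw [lap_const_mul _ (hs2.contDiffAt (hV.mem_nhds hz))]
    exact mul_nonneg (by positivity) (hl z hz)
  · exact mul_nonneg (by positivity) (Real.log_nonneg (by linarith [hsum z]))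
  · rw [le_inv_mul_iff₀ (by positivity), Real.le_log_iff_exp_le (by linarith [hsum z]), hexp]
    have h1 : ‖a i z ^ e i‖ ^ 2 ≤ ∑ j, ‖a j z ^ e j‖ ^ 2 :=
      Finset.single_le_sum (f := fun j => ‖a j z ^ e j‖ ^ 2) (fun j _ => by positivity)
        (Finset.mem_univ i)
    rcases le_total 1 ‖a i z‖ with h | h
    · rw [max_eq_right h, ← hpow]
      linarith
    · rw [max_eq_left h, one_pow]
      linarith [hsum z]
  · have hE : (1 : ℝ) ≤ Real.exp (2 * P * M) := Real.one_le_exp (by positivity)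
    have h1 : ∀ i, ‖a i z ^ e i‖ ^ 2 ≤ Real.exp (2 * P * M) := by
      intro i
      rw [hpow]
      calc ‖a i z‖ ^ (2 * e i) ≤ (max 1 ‖a i z‖) ^ (2 * e i) :=
            pow_le_pow_left₀ (norm_nonneg _) (le_max_right _ _) _
        _ = Real.exp (2 * P * lemkU (k i) (a i) z) := (hexp i z).symm
        _ ≤ Real.exp (2 * P * M) :=
            Real.exp_le_exp.2 (mul_le_mul_of_nonneg_left (h i) (by positivity))
    have h2 : ∑ i, ‖a i z ^ e i‖ ^ 2 ≤ n * Real.exp (2 * P * M) := by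
      calc ∑ i, ‖a i z ^ e i‖ ^ 2 ≤ ∑ _i : Fin n, Real.exp (2 * P * M) :=
            Finset.sum_le_sum fun i _ => h1 i
        _ = n * Real.exp (2 * P * M) := by simp
    have h3 : Real.log (1 + ∑ i, ‖a i z ^ e i‖ ^ 2) ≤ Real.log (1 + n) + 2 * P * M := by
      rw [Real.log_le_iff_le_exp (by linarith [hsum z]), Real.exp_add,
        Real.exp_log (by positivity)]
      nlinarith
    have h4 : Real.log (1 + n) ≤ 2 * P * η := by
      rw [div_lt_iff₀ hη] at hq
      have : (q : ℝ) ≤ P := by exact_mod_cast hPq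
      nlinarith
    rw [inv_mul_le_iff₀ (by positivity)]
    linarith

/-- The mean value inequality for the positive part of the logarithm. -/
theorem lemk_aux_mean {V : Set C2} (hV : IsOpen V) {k : ℕ} {a : C2 → ℂ} (hk : 1 ≤ k)
    (ha : DifferentiableOn ℂ a V) {δ : ℝ} (hδ : 0 < δ) {z : C2} (hz : closedBall z δ ⊆ V) :
    lemkU k a z ≤ avg δ (lemkU k a) z := by
  refine le_of_forall_pos_le_add fun η hη => ?_
  obtain ⟨U, hU, hl, -, h1, h2⟩ := lemk_aux_smooth hV (n := 1) (fun _ => k) (fun _ => a)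
    (fun _ => hk) (fun _ => ha) hη
  obtain ⟨C, hC⟩ := green
  have hc := (lemk_aux_cont k ha).mono hz
  calc lemkU k a z ≤ U z := h1 0 z
    _ ≤ avg δ U z := (hC δ z V U hδ hV hz hU hl).1
    _ ≤ avg δ (fun y => lemkU k a y + η) z :=
        avg_mono hδ (hU.continuousOn.mono hz) (hc.add continuousOn_const)
          fun y _ => h2 y _ (lemk_aux_nonneg k a y) fun _ => le_rfl
    _ = avg δ (lemkU k a) z + η := by
        rw [avg_add hδ hc continuousOn_const, avg_const hδ]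

/-- The averages of the test functions are uniformly equicontinuous. -/
theorem lemk_aux_equi {δ : ℝ} (hδ : 0 < δ) {ε : ℝ} (hε : 0 < ε) : ∃ η : ℝ, 0 < η ∧ η ≤ δ ∧
    ∀ (K V : Set C2) (k : ℕ) (a : C2 → ℂ) (s z : C2), lemkFam K V k a →
      closedBall s (2 * δ) ⊆ V → z ∈ ball s η →
        |avg δ (lemkU k a) s - avg δ (lemkU k a) z| ≤ ε := by
  obtain ⟨C, hC0, hC⟩ := avg_lip hδ
  refine ⟨min δ (ε / (C + 1)), lt_min hδ (by positivity), min_le_left _ _,
    fun K V k a s z h hs hz => ?_⟩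
  rw [mem_ball, dist_comm, dist_eq_norm, lt_min_iff] at hz
  have h1 := hC (lemkU k a) s z 1 hz.1.le ((lemk_aux_cont k h.2.1).mono hs)
    fun y hy => h.abs_le (hs hy)
  have h2 := hz.2
  rw [lt_div_iff₀ (by positivity)] at h2
  have h3 := norm_nonneg (s - z)
  nlinarith

/-- Small averages at one scale give the two-constants property. -/
theorem lemk_aux_reg {K V : Set C2} (hV : IsOpen V) {δ ε : ℝ} (hδ : 0 < δ) (hε : 0 < ε) {s : C2}
    (hs : closedBall s (2 * δ) ⊆ V)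
    (h : ∀ k a, lemkFam K V k a → avg δ (lemkU k a) s ≤ ε / 2) : lemkReg K V ε s := by
  obtain ⟨η, hη, hηδ, hE⟩ := lemk_aux_equi hδ (half_pos hε)
  refine ⟨ball s η, isOpen_ball, mem_ball_self hη,
    (ball_subset_closedBall.trans (closedBall_subset_closedBall (by linarith))).trans hs,
    fun k a hka z hz => ?_⟩
  rw [← lemk_aux_le_iff hka.1 a z hε.le]
  have hz' : closedBall z δ ⊆ V := by
    refine Subset.trans (closedBall_subset_closedBall' ?_) hs
    have := mem_ball.1 hz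
    linarith
  have h1 := lemk_aux_mean hV hka.1 hka.2.1 hδ hz'
  have h2 := (abs_le.1 (hE K V k a s z hka hs hz)).1
  have h3 := h k a hka
  linarith

/-- One smooth subharmonic function detects all points with a large average. -/
theorem lemk_aux_one {K V K' : Set C2} (hV : IsOpen V) (hK' : IsCompact K') {δ ε : ℝ}
    (hδ : 0 < δ) (hε : 0 < ε) (hs : ∀ s ∈ K', closedBall s (2 * δ) ⊆ V) :
    ∃ U : C2 → ℝ, ContDiffOn ℝ 2 U V ∧ (∀ z ∈ V, 0 ≤ lap U z) ∧ (∀ z ∈ V, |U z| ≤ 1 + ε) ∧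
      ∀ s ∈ K ∩ K', (∃ k a, lemkFam K V k a ∧ ε / 2 < avg δ (lemkU k a) s) →
        ε / 8 ≤ avg δ U s - U s := by
  classical
  obtain ⟨η, hη, hηδ, hE⟩ := lemk_aux_equi hδ (show 0 < ε / 4 by positivity)
  set B : Set C2 := {s ∈ K' | ∃ k a, lemkFam K V k a ∧ ε / 2 < avg δ (lemkU k a) s} with hB
  have hBt : TotallyBounded B := hK'.totallyBounded.subset (sep_subset _ _)
  obtain ⟨t, htB, htf, hcov⟩ := finite_approx_of_totallyBounded hBt η hη
  obtain ⟨n, c, hc⟩ : ∃ (n : ℕ) (c : Fin n → C2), range c = t := by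
    obtain ⟨n, c, -, hc⟩ := htf.fin_param
    exact ⟨n, c, hc⟩
  have hcB : ∀ i, c i ∈ B := fun i => htB (hc ▸ mem_range_self i)
  choose k a hka hav using fun i => (hcB i).2
  obtain ⟨U, hU, hl, h0, h1, h2⟩ := lemk_aux_smooth hV k a (fun i => (hka i).1)
    (fun i => (hka i).2.1) (show 0 < ε / 8 by positivity)
  refine ⟨U, hU, hl, fun z hz => ?_, fun s hsK hex => ?_⟩
  · rw [abs_of_nonneg (h0 z)]
    have := h2 z 1 zero_le_one fun i => (hka i).le_one hz
    linarith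
  · have hsB : s ∈ B := ⟨hsK.2, hex⟩
    have hsV : closedBall s δ ⊆ V :=
      (closedBall_subset_closedBall (by linarith)).trans (hs s hsK.2)
    obtain ⟨y, hy, hsy⟩ := mem_iUnion₂.1 (hcov hsB)
    rw [← hc] at hy
    obtain ⟨i, rfl⟩ := hy
    have h3 := (abs_le.1 (hE K V (k i) (a i) (c i) s (hka i) (hs _ (hcB i).1) hsy)).2
    have h4 : avg δ (lemkU (k i) (a i)) s ≤ avg δ U s :=
      avg_mono hδ ((lemk_aux_cont _ (hka i).2.1).mono hsV) (hU.continuousOn.mono hsV)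
        fun y _ => h1 i y
    have h5 := h2 s 0 le_rfl fun j => (hka j).le_zero ⟨hsK.1, hsV (mem_closedBall_self hδ.le)⟩
    have h6 := hav i
    linarith

/-- The exceptional set for one bounded open set and one exponent is polar. -/
theorem lemk_aux_main (K : Set C2) {V K' : Set C2} (hV : IsOpen V) (hVb : volume V ≠ ⊤)
    (hK' : IsCompact K') (hKV : K' ⊆ V) {ε : ℝ} (hε : 0 < ε) :
    Polar {s ∈ K ∩ K' | ¬ lemkReg K V ε s} := by
  intro ν hν
  obtain ⟨δ₀, hδ₀, hth, C, hC⟩ := key hK' hV hKV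
  set A : ℝ≥0∞ := ν {s ∈ K ∩ K' | ¬ lemkReg K V ε s} with hA
  set D : ℝ≥0∞ := C * (ENNReal.ofReal (1 + ε) * volume V) with hD
  have hDt : D ≠ ⊤ :=
    ENNReal.mul_ne_top ENNReal.coe_ne_top (ENNReal.mul_ne_top ENNReal.ofReal_ne_top hVb)
  have hbound : ∀ e : ℝ≥0∞, 0 < e → ENNReal.ofReal (ε / 8) * A ≤ D * e := by
    intro e he
    obtain ⟨δ₁, hδ₁, hpot⟩ := hν.2 e he
    set δ : ℝ := min δ₁ (δ₀ / 2) with hδdef
    have hδ : 0 < δ := lt_min hδ₁ (half_pos hδ₀)
    have hδ2 : 2 * δ ≤ δ₀ := by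
      have : δ ≤ δ₀ / 2 := min_le_right _ _
      linarith
    have hs : ∀ s ∈ K', closedBall s (2 * δ) ⊆ V := fun s hs =>
      (closedBall_subset_closedBall hδ2).trans ((closedBall_subset_cthickening hs δ₀).trans hth)
    obtain ⟨U, hU, hl, hb, hdet⟩ := lemk_aux_one (K := K) hV hK' hδ hε hs
    have hpot' : ∀ x, ∫⁻ y in ball x δ, ker x y ∂ν ≤ e := fun x =>
      (lintegral_mono_set (ball_subset_ball (min_le_left _ _))).trans (hpot x)
    have hkey := hC δ hδ (by linarith) U hU hl ν e hν.1 hpot'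
    have hcont : ContinuousOn (fun x => avg δ U x - U x) K' :=
      (continuousOn_avg hδ hK' (hU.continuousOn.mono
        ((cthickening_mono (by linarith) K').trans hth))).sub (hU.continuousOn.mono hKV)
    have hmeas : AEMeasurable (fun x => ENNReal.ofReal (avg δ U x - U x)) (ν.restrict K') :=
      (hcont.aemeasurable hK'.measurableSet).ennreal_ofReal
    have hsub : {s ∈ K ∩ K' | ¬ lemkReg K V ε s} ⊆
        {x | ENNReal.ofReal (ε / 8) ≤ ENNReal.ofReal (avg δ U x - U x)} ∩ K' := by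
      rintro s ⟨hsK, hsn⟩
      refine ⟨ENNReal.ofReal_le_ofReal (hdet s hsK ?_), hsK.2⟩
      by_contra hne
      refine hsn (lemk_aux_reg hV hδ hε (hs s hsK.2) fun k a hka => ?_)
      by_contra hlt
      exact hne ⟨k, a, hka, not_le.1 hlt⟩
    have hint : ∫⁻ y in V, ‖U y‖ₑ ≤ ENNReal.ofReal (1 + ε) * volume V := by
      calc ∫⁻ y in V, ‖U y‖ₑ ≤ ∫⁻ _y in V, ENNReal.ofReal (1 + ε) := by
            refine setLIntegral_mono' hV.measurableSet fun y hy => ?_
            rw [Real.enorm_eq_ofReal_abs]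
            exact ENNReal.ofReal_le_ofReal (hb y hy)
        _ = ENNReal.ofReal (1 + ε) * volume V := setLIntegral_const _ _
    calc ENNReal.ofReal (ε / 8) * A
        ≤ ENNReal.ofReal (ε / 8) * (ν.restrict K')
            {x | ENNReal.ofReal (ε / 8) ≤ ENNReal.ofReal (avg δ U x - U x)} := by
          gcongr
          exact (measure_mono hsub).trans (Measure.le_restrict_apply _ _)
      _ ≤ ∫⁻ x in K', ENNReal.ofReal (avg δ U x - U x) ∂ν := mul_meas_ge_le_lintegral₀ hmeas _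
      _ ≤ C * e * ∫⁻ y in V, ‖U y‖ₑ := hkey
      _ ≤ C * e * (ENNReal.ofReal (1 + ε) * volume V) := by gcongr
      _ = D * e := by rw [hD]; ring
  have hlim : Tendsto (fun e : ℝ≥0∞ => D * e) (𝓝[>] 0) (𝓝 0) := by
    have := ENNReal.Tendsto.const_mul (a := D) (b := 0) (f := 𝓝[>] (0 : ℝ≥0∞)) (m := id)
      (tendsto_nhdsWithin_of_tendsto_nhds tendsto_id) (Or.inr hDt)
    simpa using this
  have hz : ENNReal.ofReal (ε / 8) * A ≤ 0 :=
    ge_of_tendsto hlim (eventually_nhdsWithin_of_forall fun e he => hbound e he)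
  rcases mul_eq_zero.1 (le_antisymm hz zero_le) with h | h
  · exact absurd h (ENNReal.ofReal_pos.2 (by positivity)).ne'
  · exact h

theorem lemK (K : Set C2) : Polar {s ∈ K | ¬ REG K s} := by
  obtain ⟨c, hc⟩ : ∃ c : ℕ → C2, DenseRange c := TopologicalSpace.exists_dense_seq C2
  have hR : ∀ n : ℕ, (0 : ℝ) < 1 / ((n : ℝ) + 1) := fun n => Nat.one_div_pos_of_nat
  refine (polar_iUnion (ι := ℕ × ℕ × ℕ) (S := fun p =>
    {s ∈ K ∩ closedBall (c p.1) (1 / ((p.2.1 : ℝ) + 1) / 2) |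
      ¬ lemkReg K (ball (c p.1) (1 / ((p.2.1 : ℝ) + 1))) (1 / ((p.2.2 : ℝ) + 1)) s})
    fun p => lemk_aux_main K isOpen_ball measure_ball_lt_top.ne (isCompact_closedBall _ _)
      (closedBall_subset_ball (half_lt_self (hR _))) (hR _)).mono ?_
  rintro s ⟨hsK, hsn⟩
  by_contra hne
  refine hsn fun V hV hsV ε hε => ?_
  obtain ⟨r, hr, hrV⟩ := isOpen_iff.1 hV s hsV
  obtain ⟨n, hn⟩ := exists_nat_one_div_lt (half_pos hr)
  obtain ⟨m, hm⟩ := exists_nat_one_div_lt hε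
  obtain ⟨j, hj⟩ := hc.exists_dist_lt s (half_pos (hR n))
  have hreg : lemkReg K (ball (c j) (1 / ((n : ℝ) + 1))) (1 / ((m : ℝ) + 1)) s := by
    by_contra hno
    exact hne (mem_iUnion.2 ⟨(j, n, m), ⟨hsK, mem_closedBall.2 hj.le⟩, hno⟩)
  have hsub : ball (c j) (1 / ((n : ℝ) + 1)) ⊆ V := by
    refine Subset.trans (ball_subset_ball' ?_) hrV
    rw [dist_comm]
    linarith [hR n]
  obtain ⟨V', hV', hsV', hsub', h⟩ := hreg
  refine ⟨V', hV', hsV', hsub'.trans hsub, fun k a hk ha h1 h2 z hz => ?_⟩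
  refine (h k a ⟨hk, ha.mono hsub, fun z hz => h1 z (hsub hz),
    fun z hz => h2 z ⟨hz.1, hsub hz.2⟩⟩ z hz).trans (Real.exp_le_exp.2 ?_)
  exact mul_le_mul_of_nonneg_right hm.le (Nat.cast_nonneg k)

end Pool.Agent.Lib.MP_823829_an
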