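import Pool.Agent.Lib.MP_823829_an.A4
import Pool.Agent.Lib.MP_823829_an.LemK

/-! The points where a slice extends but no neighbourhood does form a polar set. -/

namespace Pool.Agent.Lib.MP_823829_an

open Set Metric Filter MeasureTheory
open scoped Topology ENNReal NNReal ContDiff ComplexConjugate

variable {X : Type*} [TopologicalSpace X] [T2Space X] [CompactSpace X] [Nonempty X] {m : ℕ}
  {a : Atl X m}

theorem ext_polar {f : C4 → X} {ρ₁ ρ₂ : ℝ} (h0 : 0 < ρ₁) (hρ : ρ₁ < ρ₂) {V : Set C2}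
    (hV : IsOpen V) (hf : ∀ t ∈ V ×ˢ shell ρ₁ ρ₂, HolAt a f t) :
    Polar {s ∈ V | ExtS a f ρ₁ ρ₂ s ∧ ¬ ExtN a f ρ₁ ρ₂ s} := by
  classical
  have hch : ∀ z : C2, ∃ G : Set (C2 × X), ExtS a f ρ₁ ρ₂ z →
      MG a (ball 0 ρ₂) G ∧ Agree G (grf fun w => f (z, w)) (shell ρ₁ ρ₂) := by
    intro z
    by_cases hz : ExtS a f ρ₁ ρ₂ z
    · obtain ⟨G, hG⟩ := hz
      exact ⟨G, fun _ => hG⟩
    · exact ⟨∅, fun h => absurd h hz⟩
  choose G hG using hch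
  have : SecondCountableTopology X := a.secondCountable
  let B : Set (Set (C2 × X)) := TopologicalSpace.countableBasis (C2 × X)
  let 𝒞 : Set (Set (Set (C2 × X))) := {S | S.Finite ∧ S ⊆ B}
  have hc : 𝒞.Countable :=
    Set.countable_ofPred_finite_subset (TopologicalSpace.countable_countableBasis (C2 × X))
  have : Countable 𝒞 := hc.to_subtype
  let K : Set (Set (C2 × X)) → Set C2 :=
    fun S => {z | ExtS a f ρ₁ ρ₂ z ∧ Disjoint (⋃₀ S) (G z)}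
  refine (polar_iUnion fun S : 𝒞 => lemK (K S)).mono ?_
  rintro s ⟨hsV, hsE, hsN⟩
  by_contra hcon
  have hreg : ∀ S ∈ 𝒞, s ∈ K S → REG (K S) s := by
    intro S hS hs
    by_contra hr
    exact hcon (mem_iUnion.2 ⟨⟨S, hS⟩, hs, hr⟩)
  have he : (∅ : Set (Set (C2 × X))) ∈ 𝒞 := ⟨finite_empty, empty_subset _⟩
  have hse : s ∈ K ∅ := ⟨hsE, by simp⟩
  have hun : ∀ S ∈ 𝒞, ∀ S' ∈ 𝒞, S ∪ S' ∈ 𝒞 := fun S hS S' hS' =>
    ⟨hS.1.union hS'.1, union_subset hS.2 hS'.2⟩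
  have hK : ∀ S S' z, z ∈ K (S ∪ S') ↔ z ∈ K S ∧ z ∈ K S' := by
    intro S S' z
    simp only [K, mem_ofPred_eq, sUnion_union, disjoint_union_left]
    tauto
  let F : Filter C2 :=
    { sets := {L | ∃ N ∈ 𝓝 s, ∃ S ∈ 𝒞, s ∈ K S ∧ K S ∩ N ⊆ L}
      univ_sets := ⟨univ, univ_mem, ∅, he, hse, subset_univ _⟩
      sets_of_superset := by
        rintro L L' ⟨N, hN, S, hS, hs, hL⟩ hLL
        exact ⟨N, hN, S, hS, hs, hL.trans hLL⟩
      inter_sets := by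
        rintro L L' ⟨N, hN, S, hS, hs, hL⟩ ⟨N', hN', S', hS', hs', hL'⟩
        refine ⟨N ∩ N', inter_mem hN hN', S ∪ S', hun S hS S' hS', (hK S S' s).2 ⟨hs, hs'⟩, ?_⟩
        rintro z ⟨hz, hzN, hzN'⟩
        exact ⟨hL ⟨((hK S S' z).1 hz).1, hzN⟩, hL' ⟨((hK S S' z).1 hz).2, hzN'⟩⟩ }
  refine hsN (la_ext (V := V) (F := F) (G := G) ⟨h0, hρ, hV, hsV, hf, ⟨?_, ?_, ?_⟩, ?_, ?_⟩)
  · intro N hN
    exact ⟨N, hN, ∅, he, hse, inter_subset_right⟩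
  · rintro L ⟨N, hN, S, -, hs, hL⟩
    exact hL ⟨hs, mem_of_mem_nhds hN⟩
  · rintro L ⟨N, hN, S, hS, hs, hL⟩
    exact ((hreg S hS hs).inter_nhds hN).mono hL
  · exact ⟨univ, univ_mem, ∅, he, hse, fun z hz => hG z hz.1.1⟩
  · intro C hC hCb hd
    have key : ∃ S ∈ 𝒞, C ⊆ ⋃₀ S ∧ s ∈ K S := by
      refine hC.induction_on (p := fun C' => ∃ S ∈ 𝒞, C' ⊆ ⋃₀ S ∧ s ∈ K S)
        ⟨∅, he, empty_subset _, hse⟩ ?_ ?_ ?_
      · rintro C₁ C₂ h12 ⟨S, hS, h1, h2⟩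
        exact ⟨S, hS, h12.trans h1, h2⟩
      · rintro C₁ C₂ ⟨S, hS, h1, h2⟩ ⟨S', hS', h1', h2'⟩
        refine ⟨S ∪ S', hun S hS S' hS', ?_, (hK S S' s).2 ⟨h2, h2'⟩⟩
        rw [sUnion_union]
        exact union_subset_union h1 h1'
      · intro p hp
        have h1 : ∀ᶠ q in 𝓝 p, q ∉ G s :=
          ((hG s hsE).1.an.2 p (hCb p hp)).notMem_nhds (disjoint_left.1 hd hp)
        obtain ⟨b, hb, hpb, hbs⟩ :=
          (TopologicalSpace.isBasis_countableBasis (C2 × X)).mem_nhds_iff.1 h1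
        refine ⟨b, mem_nhdsWithin_of_mem_nhds
          ((TopologicalSpace.isOpen_of_mem_countableBasis hb).mem_nhds hpb), {b},
          ⟨finite_singleton b, singleton_subset_iff.2 hb⟩, by simp, hsE, ?_⟩
        rw [sUnion_singleton]
        exact disjoint_left.2 fun q hq => hbs hq
    obtain ⟨S, hS, hCS, hs⟩ := key
    exact ⟨univ, univ_mem, S, hS, hs, fun z hz => hz.1.2.mono_left hCS⟩

end Pool.Agent.Lib.MP_823829_an
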