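import Pool.Agent.Lib.MP_823829_an.Riem

/-! Elementary properties of analytic sets, boxes and sheets. -/

namespace Pool.Agent.Lib.MP_823829_an

open Set Metric Filter MeasureTheory
open scoped Topology ENNReal NNReal ContDiff ComplexConjugate

variable {A T : Type} [NormedAddCommGroup A] [NormedSpace ℂ A] [FiniteDimensional ℂ A]
  [NormedAddCommGroup T] [NormedSpace ℂ T] [FiniteDimensional ℂ T]

theorem anAt_of_finite {ι : Type} [Finite ι] {Z U : Set A} {x : A} (hU : IsOpen U) (hx : x ∈ U)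
    (g : ι → A → T) (hg : ∀ i, DifferentiableOn ℂ (g i) U)
    (h : ∀ y ∈ U, y ∈ Z ↔ ∀ i, g i y = 0) : AnAt Z x := by
  classical
  have e : T ≃L[ℂ] (Fin (Module.finrank ℂ T) → ℂ) :=
    ContinuousLinearEquiv.ofFinrankEq (by simp)
  obtain ⟨N, ⟨φ⟩⟩ := Finite.exists_equiv_fin (ι × Fin (Module.finrank ℂ T))
  refine ⟨U, hU, hx, N, fun y k => e (g (φ.symm k).1 y) (φ.symm k).2, ?_, ?_⟩
  · rw [differentiableOn_pi]
    intro k
    have h1 : DifferentiableOn ℂ (fun y => e (g (φ.symm k).1 y)) U :=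
      e.differentiable.comp_differentiableOn (hg _)
    exact (differentiableOn_pi.1 h1) _
  · intro y hy
    rw [h y hy]
    constructor
    · intro h0
      funext k
      simp [h0]
    · intro h0 i
      have h1 : e (g i y) = 0 := by
        funext j
        have h2 := congrFun h0 (φ (i, j))
        simpa using h2
      exact (map_eq_zero_iff e e.injective).1 h1

theorem anAt_eq {U : Set A} {x : A} (hU : IsOpen U) (hx : x ∈ U) {g g' : A → T}
    (hg : DifferentiableOn ℂ g U) (hg' : DifferentiableOn ℂ g' U) : AnAt {y | g y = g' y} x := by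
  refine anAt_of_finite (ι := Unit) hU hx (fun _ y => g y - g' y) (fun _ => hg.sub hg') ?_
  intro y _
  simp [sub_eq_zero]

theorem AnAt.congr {Z Z' : Set A} {x : A} (h : AnAt Z x) (he : ∀ᶠ y in 𝓝 x, y ∈ Z ↔ y ∈ Z') :
    AnAt Z' x := by
  obtain ⟨U, hU, hx, n, g, hg, hZ⟩ := h
  obtain ⟨V, hV, hVo, hxV⟩ := _root_.eventually_nhds_iff.1 he
  refine ⟨U ∩ V, hU.inter hVo, ⟨hx, hxV⟩, n, g, hg.mono inter_subset_left, fun y hy => ?_⟩
  rw [← hV y hy.2, hZ y hy.1]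

theorem AnAt.eventually {Z : Set A} {x : A} (h : AnAt Z x) : ∀ᶠ y in 𝓝 x, AnAt Z y := by
  obtain ⟨U, hU, hx, n, g, hg, hZ⟩ := h
  filter_upwards [hU.mem_nhds hx] with y hy
  exact ⟨U, hU, hy, n, g, hg, hZ⟩

theorem isOpen_anAt (Z : Set A) : IsOpen {x | AnAt Z x} := by
  rw [isOpen_iff_mem_nhds]
  intro x hx
  exact AnAt.eventually hx

theorem anAt_univ (x : A) : AnAt univ x := by
  refine ⟨univ, isOpen_univ, mem_univ _, 0, fun _ => 0, differentiableOn_const _, fun y _ => ?_⟩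
  simp

theorem anAt_empty (x : A) : AnAt ∅ x := by
  refine ⟨univ, isOpen_univ, mem_univ _, 1, fun _ => 1, differentiableOn_const _, fun y _ => ?_⟩
  simp

theorem anAt_of_mem_nhds {Z : Set A} {x : A} (h : Z ∈ 𝓝 x) : AnAt Z x := by
  refine (anAt_univ x).congr ?_
  filter_upwards [h] with y hy
  simp [hy]

theorem anAt_of_notMem_closure {Z : Set A} {x : A} (h : x ∉ closure Z) : AnAt Z x := by
  refine (anAt_empty x).congr ?_
  filter_upwards [isClosed_closure.isOpen_compl.mem_nhds h] with y hy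
  simp only [mem_empty_iff_false, false_iff]
  exact fun hz => hy (subset_closure hz)

theorem AnAt.inter {Z Z' : Set A} {x : A} (h : AnAt Z x) (h' : AnAt Z' x) : AnAt (Z ∩ Z') x := by
  obtain ⟨U, hU, hx, n, g, hg, hZ⟩ := h
  obtain ⟨U', hU', hx', n', g', hg', hZ'⟩ := h'
  refine anAt_of_finite (T := ℂ) (ι := Fin n ⊕ Fin n') (hU.inter hU') ⟨hx, hx'⟩
    (fun i y => Sum.elim (g y) (g' y) i) ?_ ?_
  · rintro (i | i)
    · exact ((differentiableOn_pi.1 hg) i).mono inter_subset_left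
    · exact ((differentiableOn_pi.1 hg') i).mono inter_subset_right
  · intro y hy
    rw [mem_inter_iff, hZ y hy.1, hZ' y hy.2, Sum.forall, funext_iff, funext_iff]
    simp

theorem AnAt.union {Z Z' : Set A} {x : A} (h : AnAt Z x) (h' : AnAt Z' x) : AnAt (Z ∪ Z') x := by
  obtain ⟨U, hU, hx, n, g, hg, hZ⟩ := h
  obtain ⟨U', hU', hx', n', g', hg', hZ'⟩ := h'
  refine anAt_of_finite (T := ℂ) (ι := Fin n × Fin n') (hU.inter hU') ⟨hx, hx'⟩
    (fun i y => g y i.1 * g' y i.2) ?_ ?_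
  · rintro ⟨i, j⟩
    exact (((differentiableOn_pi.1 hg) i).mono inter_subset_left).mul
      (((differentiableOn_pi.1 hg') j).mono inter_subset_right)
  · intro y hy
    rw [mem_union, hZ y hy.1, hZ' y hy.2]
    constructor
    · rintro (h0 | h0) i <;> simp [h0]
    · intro h0
      by_contra hne
      rw [not_or] at hne
      obtain ⟨i, hi⟩ := Function.ne_iff.1 hne.1
      obtain ⟨j, hj⟩ := Function.ne_iff.1 hne.2
      exact mul_ne_zero hi hj (h0 (i, j))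

theorem AnAt.inter_nhds {Z N : Set A} {x : A} (h : AnAt Z x) (hN : N ∈ 𝓝 x) :
    AnAt (Z ∩ N) x := by
  exact h.inter (anAt_of_mem_nhds hN)

theorem anAt_iInter {ι : Type} [Finite ι] {Z : ι → Set A} {x : A} (h : ∀ i, AnAt (Z i) x) :
    AnAt (⋂ i, Z i) x := by
  classical
  haveI := Fintype.ofFinite ι
  have key : ∀ s : Finset ι, AnAt (⋂ i ∈ s, Z i) x := by
    intro s
    induction s using Finset.induction_on with
    | empty => simpa using anAt_univ x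
    | insert a s _ ih =>
      rw [Finset.set_biInter_insert]
      exact (h a).inter ih
  simpa using key Finset.univ

theorem anAt_iUnion {ι : Type} [Finite ι] {Z : ι → Set A} {x : A} (h : ∀ i, AnAt (Z i) x) :
    AnAt (⋃ i, Z i) x := by
  classical
  haveI := Fintype.ofFinite ι
  have key : ∀ s : Finset ι, AnAt (⋃ i ∈ s, Z i) x := by
    intro s
    induction s using Finset.induction_on with
    | empty => simpa using anAt_empty x
    | insert a s _ ih =>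
      rw [Finset.set_biUnion_insert]
      exact (h a).union ih
  simpa using key Finset.univ

theorem AnAt.preimage {Z : Set T} {Φ : A → T} {x : A} (h : AnAt Z (Φ x))
    (hΦ : ∀ᶠ y in 𝓝 x, DifferentiableAt ℂ Φ y) : AnAt (Φ ⁻¹' Z) x := by
  obtain ⟨U, hU, hx, n, g, hg, hZ⟩ := h
  have hc : ContinuousAt Φ x := hΦ.self_of_nhds.continuousAt
  have h1 : ∀ᶠ y in 𝓝 x, DifferentiableAt ℂ Φ y ∧ Φ y ∈ U :=
    hΦ.and (hc.preimage_mem_nhds (hU.mem_nhds hx))
  obtain ⟨V, hV, hVo, hxV⟩ := _root_.eventually_nhds_iff.1 h1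
  refine ⟨V, hVo, hxV, n, fun y => g (Φ y), fun y hy => ?_, fun y hy => ?_⟩
  · exact ((hg.differentiableAt (hU.mem_nhds (hV y hy).2)).comp y
      (hV y hy).1).differentiableWithinAt
  · exact hZ _ (hV y hy).2

theorem AnAt.mem_of_closure {Z : Set A} {x : A} (h : AnAt Z x) (hx : x ∈ closure Z) : x ∈ Z := by
  obtain ⟨U, hU, hxU, n, g, hg, hZ⟩ := h
  by_contra hn
  have h0 : g x ≠ 0 := fun h0 => hn ((hZ x hxU).2 h0)
  have hc : ContinuousAt g x := (hg.differentiableAt (hU.mem_nhds hxU)).continuousAt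
  have h1 : ∀ᶠ y in 𝓝 x, g y ≠ 0 := hc.eventually_ne h0
  have h2 : ∃ᶠ y in 𝓝 x, y ∈ Z := mem_closure_iff_frequently.1 hx
  obtain ⟨y, hy, hy1, hy2⟩ := (h2.and_eventually (h1.and (hU.mem_nhds hxU))).exists
  exact hy1 ((hZ y hy2).1 hy)

theorem AnAt.notMem_nhds {Z : Set A} {x : A} (h : AnAt Z x) (hx : x ∉ Z) :
    ∀ᶠ y in 𝓝 x, y ∉ Z := by
  have h1 : x ∉ closure Z := fun hc => hx (h.mem_of_closure hc)
  filter_upwards [isClosed_closure.isOpen_compl.mem_nhds h1] with y hy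
  exact fun hz => hy (subset_closure hz)

theorem AnAt.neg_or {Z : Set A} {x : A} (h : AnAt Z x) : Z ∈ 𝓝 x ∨ Neg Z {x} := by
  obtain ⟨U, hU, hxU, n, g, hg, hZ⟩ := h
  obtain ⟨r, hr, hb⟩ := Metric.isOpen_iff.1 hU x hxU
  by_cases h0 : ∀ y ∈ ball x r, g y = 0
  · left
    filter_upwards [ball_mem_nhds x hr] with y hy
    exact (hZ y (hb hy)).2 (h0 y hy)
  · right
    push Not at h0
    obtain ⟨y, hy, hy0⟩ := h0
    obtain ⟨i, hi⟩ := Function.ne_iff.1 hy0
    have h1 : Neg {t | g t i = 0} (ball x r) :=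
      neg_zero isOpen_ball (convex_ball x r).isPreconnected
        (((differentiableOn_pi.1 hg) i).mono hb) ⟨y, hy, hi⟩
    have h2 : Neg Z (ball x r) := by
      refine h1.mono isOpen_ball Subset.rfl fun t ht htZ => ?_
      have h3 := (hZ t (hb ht)).1 htZ
      simp [h3]
    exact h2.subset (singleton_subset_iff.2 (mem_ball_self hr)) Subset.rfl

theorem an_id {S U : Set A} (hU : IsOpen U) (hc : IsPreconnected U) (h : ∀ t ∈ U, AnAt S t)
    {t₀ : A} (ht₀ : t₀ ∈ U) (hS : S ∈ 𝓝 t₀) : U ⊆ S := by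
  have h1 : U ⊆ interior S := by
    refine hc.subset_of_closure_inter_subset isOpen_interior
      ⟨t₀, ht₀, mem_interior_iff_mem_nhds.2 hS⟩ ?_
    rintro t ⟨htc, htU⟩
    rcases (h t htU).neg_or with h2 | h2
    · exact mem_interior_iff_mem_nhds.2 h2
    · exfalso
      obtain ⟨V, hV, htV, δ, -, hδ0, hδ1⟩ := h2 t rfl
      obtain ⟨y, hyV, hyS⟩ := mem_closure_iff.1 htc V hV htV
      have h3 : ∀ᶠ y' in 𝓝 y, δ y' = 0 := by
        filter_upwards [hV.mem_nhds hyV, mem_interior_iff_mem_nhds.1 hyS] with y' h4 h5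
        exact hδ0 y' h4 h5
      obtain ⟨y', h4, h5⟩ := ((hδ1 y hyV).and_eventually h3).exists
      exact h4 h5
  exact h1.trans interior_subset

theorem an_dich {S U : Set A} (hU : IsOpen U) (hc : IsPreconnected U) (h : ∀ t ∈ U, AnAt S t) :
    U ⊆ S ∨ Neg S U := by
  by_cases h0 : ∃ t ∈ U, S ∈ 𝓝 t
  · obtain ⟨t, ht, hS⟩ := h0
    exact Or.inl (an_id hU hc h ht hS)
  · right
    rw [neg_iff]
    intro t ht
    rcases (h t ht).neg_or with h2 | h2
    · exact absurd ⟨t, ht, h2⟩ h0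
    · exact h2

theorem an_neg {S U : Set A} (h : ∀ t ∈ U, AnAt S t) (hn : ∀ t ∈ U, ∃ᶠ y in 𝓝 t, y ∉ S) :
    Neg S U := by
  rw [neg_iff]
  intro t ht
  rcases (h t ht).neg_or with h2 | h2
  · exfalso
    obtain ⟨y, h3, h4⟩ := ((hn t ht).and_eventually h2).exists
    exact h3 h4
  · exact h2

theorem an_isOpen_diff {S U : Set A} (hU : IsOpen U) (h : ∀ t ∈ U, AnAt S t) :
    IsOpen (U \ S) := by
  rw [isOpen_iff_mem_nhds]
  rintro t ⟨ht, htS⟩
  filter_upwards [hU.mem_nhds ht, (h t ht).notMem_nhds htS] with y h1 h2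
  exact ⟨h1, h2⟩

theorem isOpen_box (p : A) (L : A →L[ℂ] T) (ρ η : ℝ) : IsOpen (box p L ρ η) := by
  exact isOpen_ball.inter (isOpen_ball.preimage L.continuous)

theorem box_mem_nhds (p : A) (L : A →L[ℂ] T) {ρ η : ℝ} (hρ : 0 < ρ) (hη : 0 < η) :
    box p L ρ η ∈ 𝓝 p := by
  exact (isOpen_box p L ρ η).mem_nhds ⟨mem_ball_self hρ, mem_ball_self hη⟩

theorem isCompact_side (p : A) (L : A →L[ℂ] T) (ρ η : ℝ) : IsCompact (side p L ρ η) := by
  haveI := FiniteDimensional.proper ℂ A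
  exact (isCompact_sphere p ρ).inter_right (isClosed_closedBall.preimage L.continuous)

theorem side_mono (p : A) (L : A →L[ℂ] T) (ρ : ℝ) {η η' : ℝ} (h : η ≤ η') :
    side p L ρ η ⊆ side p L ρ η' := by
  exact inter_subset_inter_right _ (preimage_mono (closedBall_subset_closedBall h))

theorem exists_side {Z : Set A} {p : A} {L : A →L[ℂ] T} {ρ : ℝ}
    (h : ∀ x ∈ sphere p ρ, L x = L p → x ∉ closure Z) :
    ∃ η : ℝ, 0 < η ∧ Disjoint (side p L ρ η) (closure Z) := by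
  haveI := FiniteDimensional.proper ℂ A
  have hK : IsCompact (sphere p ρ ∩ closure Z) := (isCompact_sphere p ρ).inter_right isClosed_closure
  have hc : ContinuousOn (fun x => dist (L x) (L p)) (sphere p ρ ∩ closure Z) :=
    (L.continuous.dist continuous_const).continuousOn
  obtain ⟨a, ha, hb⟩ := hK.exists_forall_le' (a := 0) hc
    (fun x hx => dist_pos.2 fun he => h x hx.1 he hx.2)
  refine ⟨a / 2, by positivity, Set.disjoint_left.2 fun x hx hz => ?_⟩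
  have h1 := hb x ⟨hx.1, hz⟩
  have h2 : dist (L x) (L p) ≤ a / 2 := hx.2
  linarith

theorem scale_fb {Z : Set A} {p : A} {L : A →L[ℂ] T} {ρ η : ℝ}
    (h : ∀ x ∈ closedBall p ρ, AnAt Z x) (hs : Disjoint (side p L ρ η) Z) :
    FB (Z ∩ box p L ρ η) L (ball (L p) η) := by
  refine ⟨isOpen_ball, fun x hx => hx.2.2, isBounded_ball.subset fun x hx => hx.2.1,
    fun x hx => ?_⟩
  rcases lt_trichotomy (dist x p) ρ with h1 | h1 | h1
  · exact (h x h1.le).inter_nhds ((isOpen_box p L ρ η).mem_nhds ⟨h1, hx⟩)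
  · have h2 : x ∉ Z := Set.disjoint_left.1 hs ⟨h1, ball_subset_closedBall hx⟩
    refine (anAt_empty x).congr ?_
    filter_upwards [(h x h1.le).notMem_nhds h2] with y hy
    simp [hy]
  · have h2 : x ∈ (closedBall p ρ)ᶜ := fun h3 => absurd (mem_closedBall.1 h3) (not_le.2 h1)
    refine (anAt_empty x).congr ?_
    filter_upwards [isClosed_closedBall.isOpen_compl.mem_nhds h2] with y hy
    simp only [mem_empty_iff_false, false_iff]
    exact fun h3 => hy (ball_subset_closedBall h3.2.1)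

theorem Iso.scale {Z : Set A} {p : A} {L : A →L[ℂ] T} (hi : Iso Z p L) (h : AnAt Z p)
    {N : Set A} (hN : N ∈ 𝓝 p) :
    ∃ ρ : ℝ, 0 < ρ ∧ ∃ η : ℝ, 0 < η ∧ closedBall p ρ ⊆ N ∧ (∀ x ∈ closedBall p ρ, AnAt Z x) ∧
      Disjoint (side p L ρ η) Z ∧ ∀ x ∈ closedBall p ρ, x ∈ Z → L x = L p → x = p := by
  have h1 : ∀ᶠ x in 𝓝 p, x ∈ N ∧ AnAt Z x ∧ (x ∈ Z → L x = L p → x = p) :=
    Eventually.and hN (h.eventually.and hi)
  obtain ⟨ρ, hρ, hb⟩ := Metric.nhds_basis_closedBall.eventually_iff.1 h1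
  obtain ⟨η, hη, hd⟩ := exists_side (Z := Z) (p := p) (L := L) (ρ := ρ) (by
    intro x hx he hc
    have h2 := hb (sphere_subset_closedBall hx)
    have h3 := h2.2.2 (h2.2.1.mem_of_closure hc) he
    rw [h3, mem_sphere, dist_self] at hx
    exact hρ.ne hx)
  exact ⟨ρ, hρ, η, hη, fun x hx => (hb hx).1, fun x hx => (hb hx).2.1,
    hd.mono_right subset_closure, fun x hx => (hb hx).2.2⟩

theorem Iso.mono {Z Z' : Set A} {p : A} {L : A →L[ℂ] T} (hi : Iso Z p L)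
    (h : ∀ᶠ x in 𝓝 p, x ∈ Z' → x ∈ Z) : Iso Z' p L := by
  unfold Iso at hi ⊢
  filter_upwards [hi, h] with x h1 h2 h3 h4
  exact h1 (h2 h3) h4

theorem FB.restrict {Z : Set A} {L : A →L[ℂ] T} {T₀ T₁ : Set T} (h : FB Z L T₀) (h1 : IsOpen T₁)
    (hs : T₁ ⊆ T₀) : FB (Z ∩ L ⁻¹' T₁) L T₁ := by
  exact ⟨h1, fun x hx => hx.2, h.bdd.subset inter_subset_left, fun x hx =>
    (h.an x (hs hx)).inter_nhds ((h1.preimage L.continuous).mem_nhds hx)⟩

theorem FB.inter {Z Z' : Set A} {L : A →L[ℂ] T} {T₀ : Set T} (h : FB Z L T₀)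
    (h' : ∀ x ∈ Z, AnAt Z' x) : FB (Z ∩ Z') L T₀ := by
  refine ⟨h.op, fun x hx => h.sub x hx.1, h.bdd.subset inter_subset_left, fun x hx => ?_⟩
  by_cases hz : x ∈ Z
  · exact (h.an x hx).inter (h' x hz)
  · refine (anAt_empty x).congr ?_
    filter_upwards [(h.an x hx).notMem_nhds hz] with y hy
    simp [hy]

theorem FB.isCompact {Z : Set A} {L : A →L[ℂ] T} {T₀ K : Set T} (h : FB Z L T₀)
    (hK : IsCompact K) (hs : K ⊆ T₀) : IsCompact (Z ∩ L ⁻¹' K) := by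
  haveI := FiniteDimensional.proper ℂ A
  refine Metric.isCompact_of_isClosed_isBounded ?_ (h.bdd.subset inter_subset_left)
  refine isClosed_of_closure_subset fun x hx => ?_
  have h1 : x ∈ L ⁻¹' K :=
    (hK.isClosed.preimage L.continuous).closure_subset (closure_mono inter_subset_right hx)
  exact ⟨(h.an x (hs h1)).mem_of_closure (closure_mono inter_subset_left hx), h1⟩

theorem FB.tube {Z N : Set A} {L : A →L[ℂ] T} {T₀ : Set T} (h : FB Z L T₀) {t : T} (ht : t ∈ T₀)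
    (hN : IsOpen N) (hf : ∀ x ∈ Z, L x = t → x ∈ N) :
    ∀ᶠ t' in 𝓝 t, ∀ x ∈ Z, L x = t' → x ∈ N := by
  haveI := FiniteDimensional.proper ℂ T
  obtain ⟨r, hr, hb⟩ := Metric.nhds_basis_closedBall.mem_iff.1 (h.op.mem_nhds ht)
  have hC : IsCompact ((Z ∩ L ⁻¹' closedBall t r) \ N) :=
    (h.isCompact (isCompact_closedBall t r) hb).diff hN
  have hI : IsClosed (L '' ((Z ∩ L ⁻¹' closedBall t r) \ N)) := (hC.image L.continuous).isClosed
  have ht' : t ∈ (L '' ((Z ∩ L ⁻¹' closedBall t r) \ N))ᶜ := by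
    rintro ⟨x, hx, he⟩
    exact hx.2 (hf x hx.1.1 he)
  filter_upwards [hI.isOpen_compl.mem_nhds ht', closedBall_mem_nhds t hr] with t' h1 h2 x hx he
  by_contra hn
  refine h1 ⟨x, ⟨⟨hx, ?_⟩, hn⟩, he⟩
  rw [mem_preimage, he]
  exact h2

theorem Sheets.mono {Z : Set A} {L : A →L[ℂ] T} {U U' : Set T} {d : ℕ} {h : Fin d → T → A}
    (hs : Sheets Z L U d h) (hU : U' ⊆ U) : Sheets Z L U' d h := by
  exact ⟨fun j => (hs.hol j).mono hU, fun j t ht => hs.sec j t (hU ht),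
    fun t ht => hs.inj t (hU ht), fun x hx => hs.mem x (hU hx)⟩

theorem Sheets.congr {Z Z' : Set A} {L : A →L[ℂ] T} {U : Set T} {d : ℕ} {h : Fin d → T → A}
    (hs : Sheets Z L U d h) (he : ∀ x, L x ∈ U → (x ∈ Z ↔ x ∈ Z')) : Sheets Z' L U d h := by
  exact ⟨hs.hol, hs.sec, hs.inj, fun x hx => (he x hx).symm.trans (hs.mem x hx)⟩

theorem Sheets.mem_self {Z : Set A} {L : A →L[ℂ] T} {U : Set T} {d : ℕ} {h : Fin d → T → A}
    (hs : Sheets Z L U d h) (j : Fin d) {u : T} (hu : u ∈ U) : h j u ∈ Z := by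
  have h1 := hs.sec j u hu
  refine (hs.mem _ (by rw [h1]; exact hu)).2 ⟨j, ?_⟩
  rw [h1]

theorem Sheets.isOpen {Z : Set A} {L : A →L[ℂ] T} {U : Set T} {d : ℕ} {h : Fin d → T → A}
    (hs : Sheets Z L U d h) (hU : IsOpen U) (j : Fin d) {u : T} (hu : u ∈ U) :
    ∀ᶠ x in 𝓝 (h j u), x ∈ Z → x = h j (L x) := by
  have h1 := hs.sec j u hu
  have hL : Tendsto L (𝓝 (h j u)) (𝓝 u) := by
    have h2 := L.continuous.tendsto (h j u)
    rwa [h1] at h2
  have h2 : ∀ᶠ x in 𝓝 (h j u), L x ∈ U := hL (hU.mem_nhds hu)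
  have h3 : ∀ k, ∀ᶠ x in 𝓝 (h j u), k ≠ j → x ≠ h k (L x) := by
    intro k
    by_cases hk : k = j
    · exact Eventually.of_forall fun x hx => absurd hk hx
    · have h4 : Tendsto (fun x => x - h k (L x)) (𝓝 (h j u)) (𝓝 (h j u - h k u)) :=
        tendsto_id.sub
          ((((hs.hol k).differentiableAt (hU.mem_nhds hu)).continuousAt.tendsto).comp hL)
      have h5 : h j u - h k u ≠ 0 := fun h6 => hk (hs.inj u hu (sub_eq_zero.1 h6)).symm
      filter_upwards [h4.eventually_ne h5] with x hx _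
      exact sub_ne_zero.1 hx
  filter_upwards [h2, eventually_all.2 h3] with x hx h4 hz
  obtain ⟨k, hk⟩ := (hs.mem x hx).1 hz
  by_cases hkj : k = j
  · rw [← hkj]
    exact hk
  · exact absurd hk (h4 k hkj)

/-- A subfamily of the sheets. -/
theorem Sheets.sub {Z Z' : Set A} {L : A →L[ℂ] T} {U : Set T} {d : ℕ} {h : Fin d → T → A}
    (hs : Sheets Z L U d h) (hZ : ∀ x, L x ∈ U → x ∈ Z' → x ∈ Z)
    (hd : ∀ j, (∀ u ∈ U, h j u ∈ Z') ∨ ∀ u ∈ U, h j u ∉ Z') :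
    ∃ (d' : ℕ) (h' : Fin d' → T → A), Sheets Z' L U d' h' := by
  classical
  obtain ⟨d', ⟨e⟩⟩ := Finite.exists_equiv_fin {j : Fin d // ∀ u ∈ U, h j u ∈ Z'}
  refine ⟨d', fun i => h (e.symm i).1, fun i => hs.hol _, fun i => hs.sec _, fun t ht => ?_,
    fun x hx => ⟨fun hz => ?_, ?_⟩⟩
  · intro i i' hi
    exact e.symm.injective (Subtype.ext (hs.inj t ht hi))
  · obtain ⟨j, hj⟩ := (hs.mem x hx).1 (hZ x hx hz)
    rcases hd j with h1 | h1
    · refine ⟨e ⟨j, h1⟩, ?_⟩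
      rw [Equiv.symm_apply_apply]
      exact hj
    · exact absurd (hj ▸ hz) (h1 _ hx)
  · rintro ⟨i, hi⟩
    rw [hi]
    exact (e.symm i).2 _ hx

theorem Good.congr {Z Z' : Set A} {L : A →L[ℂ] T} {d : ℕ} {t : T} (h : Good Z L d t)
    (he : ∀ᶠ t' in 𝓝 t, ∀ x, L x = t' → (x ∈ Z ↔ x ∈ Z')) : Good Z' L d t := by
  obtain ⟨U, hU, ht, s, hs⟩ := h
  obtain ⟨V, hV, hVo, htV⟩ := _root_.eventually_nhds_iff.1 he
  exact ⟨U ∩ V, hU.inter hVo, ⟨ht, htV⟩, s,
    (hs.mono inter_subset_left).congr fun x hx => hV _ hx.2 x rfl⟩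

theorem Good.exists_ball {Z : Set A} {L : A →L[ℂ] T} {d : ℕ} {t : T} (h : Good Z L d t) {N : Set T}
    (hN : N ∈ 𝓝 t) : ∃ r : ℝ, 0 < r ∧ ball t r ⊆ N ∧ ∃ s : Fin d → T → A,
      Sheets Z L (ball t r) d s := by
  obtain ⟨U, hU, ht, s, hs⟩ := h
  obtain ⟨r, hr, hb⟩ := Metric.mem_nhds_iff.1 (inter_mem (hU.mem_nhds ht) hN)
  exact ⟨r, hr, hb.trans inter_subset_right, s, hs.mono (hb.trans inter_subset_left)⟩

theorem Good.encard {Z : Set A} {L : A →L[ℂ] T} {d : ℕ} {t : T} (h : Good Z L d t) :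
    (Z ∩ L ⁻¹' {t}).encard = d := by
  obtain ⟨U, hU, ht, s, hs⟩ := h
  have h1 : Z ∩ L ⁻¹' {t} = (fun j => s j t) '' univ := by
    ext x
    constructor
    · rintro ⟨hz, hx⟩
      have hx' : L x = t := hx
      obtain ⟨j, hj⟩ := (hs.mem x (by rw [hx']; exact ht)).1 hz
      rw [hx'] at hj
      exact ⟨j, mem_univ _, hj.symm⟩
    · rintro ⟨j, -, rfl⟩
      exact ⟨hs.mem_self j ht, hs.sec j t ht⟩
  rw [h1, (hs.inj t ht).encard_image, Set.encard_univ, ENat.card_eq_coe_fintype_card,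
    Fintype.card_fin]

theorem Good.unique {Z : Set A} {L : A →L[ℂ] T} {d d' : ℕ} {t : T} (h : Good Z L d t)
    (h' : Good Z L d' t) : d = d' := by
  have h1 := h.encard.symm.trans h'.encard
  exact_mod_cast h1

theorem isOpen_good (Z : Set A) (L : A →L[ℂ] T) (d : ℕ) : IsOpen {t | Good Z L d t} := by
  rw [isOpen_iff_mem_nhds]
  rintro t ⟨U, hU, ht, s, hs⟩
  filter_upwards [hU.mem_nhds ht] with t' ht'
  exact ⟨U, hU, ht', s, hs⟩

theorem good_const {Z : Set A} {L : A →L[ℂ] T} {T₁ : Set T} (hc : IsPreconnected T₁)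
    (h : ∀ t ∈ T₁, ∃ d, Good Z L d t) : ∃ d, ∀ t ∈ T₁, Good Z L d t := by
  rcases T₁.eq_empty_or_nonempty with h0 | ⟨t₀, ht₀⟩
  · exact ⟨0, fun t ht => by simp [h0] at ht⟩
  obtain ⟨d, hd⟩ := h t₀ ht₀
  refine ⟨d, fun t ht => ?_⟩
  refine hc.subset_of_closure_inter_subset (isOpen_good Z L d) ⟨t₀, ht₀, hd⟩ ?_ ht
  rintro t' ⟨h1, h2⟩
  obtain ⟨d', hd'⟩ := h t' h2
  obtain ⟨y, h3, h4⟩ := mem_closure_iff.1 h1 _ (isOpen_good Z L d') hd'
  have h5 : d' = d := Good.unique h3 h4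
  rw [← h5]
  exact hd'

end Pool.Agent.Lib.MP_823829_an
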