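import Pool.Agent.Lib.MP_823829_an.H98.AreaC
import Pool.Agent.Lib.MP_823829_an.SFb

/-! The area formula for holomorphic maps. -/

namespace Pool.Agent.Lib.MP_823829_an

open Set Metric Filter MeasureTheory
open scoped Topology ENNReal NNReal ContDiff ComplexConjugate

variable {T : Type} [NormedAddCommGroup T] [NormedSpace ℂ T] [FiniteDimensional ℂ T]

theorem det_real [NormedSpace ℝ T] [IsScalarTower ℝ ℂ T] (M : T →L[ℂ] T) :
    (M.restrictScalars ℝ).det = ‖M.det‖ ^ 2 := by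
  have := LinearMap.det_restrictScalars (R := ℝ) (S := ℂ) (f := (M : T →ₗ[ℂ] T))
  rw [Algebra.norm_complex_apply, Complex.normSq_eq_norm_sq] at this
  exact this

variable [MeasurableSpace T] [BorelSpace T]

theorem haar_image_clm (μ : Measure T) [μ.IsAddHaarMeasure] (M : T →L[ℂ] T) (S : Set T) :
    μ (M '' S) = ‖M.det‖ₑ ^ 2 * μ S := by
  have : FiniteDimensional ℝ T := Module.Finite.trans ℂ T
  have := μ.addHaar_image_continuousLinearMap (M.restrictScalars ℝ) S
  rw [show LinearMap.det _ = (M.restrictScalars ℝ).det from rfl, det_real, abs_sq] at this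
  rw [← ofReal_norm, ← ENNReal.ofReal_pow (norm_nonneg _)]
  exact this

theorem area_le (μ : Measure T) [μ.IsAddHaarMeasure] {O S B : Set T} (hO : IsOpen O) {G : T → T}
    (hG : DifferentiableOn ℂ G O) (hS : MeasurableSet S) (hSO : S ⊆ O) (hB : MeasurableSet B)
    (hm : MapsTo G S B) {d : ℕ} (hd : ∀ᵐ y ∂μ, (S ∩ G ⁻¹' {y}).encard ≤ d) :
    ∫⁻ t in S, ‖(fderiv ℂ G t).det‖ₑ ^ 2 ∂μ ≤ d * μ B := by
  have := H98.areaC_le μ hS
    (fun x hx => ((hG.differentiableAt (hO.mem_nhds (hSO hx))).hasFDerivAt).hasFDerivWithinAt) hd hm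
  simpa only [ENNReal.ofReal_pow (norm_nonneg _), ofReal_norm] using this

theorem area_ge (μ : Measure T) [μ.IsAddHaarMeasure] {O S B : Set T} (hO : IsOpen O) {G : T → T}
    (hG : DifferentiableOn ℂ G O) (hS : MeasurableSet S) (hSO : S ⊆ O) (hB : MeasurableSet B)
    {d : ℕ} (hd : ∀ᵐ y ∂μ, y ∈ B → (d : ℕ∞) ≤ (S ∩ G ⁻¹' {y}).encard) :
    d * μ B ≤ ∫⁻ t in S, ‖(fderiv ℂ G t).det‖ₑ ^ 2 ∂μ := by
  have := H98.areaC_count μ hS
    fun x hx => ((hG.differentiableAt (hO.mem_nhds (hSO hx))).hasFDerivAt).hasFDerivWithinAt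
  simp only [ENNReal.ofReal_pow (norm_nonneg _), ofReal_norm] at this
  rw [this, ← lintegral_indicator_const hB]
  refine lintegral_mono_ae (hd.mono fun y hy => ?_)
  by_cases h : y ∈ B
  · rw [indicator_of_mem h]
    exact_mod_cast ENat.toENNReal_le.2 (hy h)
  · simp [h]

end Pool.Agent.Lib.MP_823829_an
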