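import Pool.Agent.Lib.MP_823829_an.Defs
import Pool.Agent.Lib.MP_caab05_ag.GB.Osg
import Pool.Agent.Lib.MP_e941ef_an.SCV

/-! Holomorphic maps of several variables: basic facts. -/

namespace Pool.Agent.Lib.MP_823829_an

open Set Metric Filter MeasureTheory
open scoped Topology ENNReal NNReal ContDiff ComplexConjugate

variable {A B : Type} [NormedAddCommGroup A] [NormedSpace ℂ A] [FiniteDimensional ℂ A]
  [NormedAddCommGroup B] [NormedSpace ℂ B] [FiniteDimensional ℂ B]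

theorem hol_aux_ana {f : A → B} {U : Set A} (hU : IsOpen U) (hf : DifferentiableOn ℂ f U) :
    AnalyticOnNhd ℂ f U := by
  have := FiniteDimensional.complete ℂ B
  exact MP_caab05_ag.GB.osg A B f U hU hf

theorem hol_contDiffOn {f : A → B} {U : Set A} (hU : IsOpen U) (hf : DifferentiableOn ℂ f U) :
    ContDiffOn ℂ ∞ f U :=
  (hol_aux_ana hU hf).contDiffOn hU.uniqueDiffOn

theorem hol_fderiv {f : A → B} {U : Set A} (hU : IsOpen U) (hf : DifferentiableOn ℂ f U) :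
    DifferentiableOn ℂ (fderiv ℂ f) U := by
  have := FiniteDimensional.complete ℂ B
  exact (hol_aux_ana hU hf).fderiv.differentiableOn

theorem hol_fderiv_symm {f : A → B} {U : Set A} (hU : IsOpen U) (hf : DifferentiableOn ℂ f U)
    {t : A} (ht : t ∈ U) (u v : A) :
    fderiv ℂ (fun y => fderiv ℂ f y u) t v = fderiv ℂ (fun y => fderiv ℂ f y v) t u := by
  have := FiniteDimensional.complete ℂ B
  have hd : DifferentiableAt ℂ (fderiv ℂ f) t := (hol_fderiv hU hf).differentiableAt (hU.mem_nhds ht)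
  have key : ∀ a b : A, fderiv ℂ (fun y => fderiv ℂ f y a) t b = fderiv ℂ (fderiv ℂ f) t b a := by
    intro a b
    rw [fderiv_clm_apply hd (differentiableAt_const a)]
    simp
  rw [key, key]
  have hc : ContDiffAt ℂ ω f t := (hol_aux_ana hU hf t ht).contDiffAt
  exact hc.isSymmSndFDerivAt (by simp) v u

theorem hol_id {f : A → B} {U : Set A} (hU : IsOpen U) (hc : IsPreconnected U)
    (hf : DifferentiableOn ℂ f U) {t₀ : A} (ht₀ : t₀ ∈ U) (h0 : ∀ᶠ t in 𝓝 t₀, f t = 0) :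
    ∀ t ∈ U, f t = 0 :=
  (hol_aux_ana hU hf).eqOn_zero_of_preconnected_of_eventuallyEq_zero hc ht₀ h0

theorem hol_ift {Φ : A → B} {U : Set A} (hU : IsOpen U) (hΦ : DifferentiableOn ℂ Φ U) {p : A}
    (hp : p ∈ U) (hb : Function.Bijective (fderiv ℂ Φ p)) :
    ∃ (U' : Set A) (V' : Set B) (ψ : B → A), IsOpen U' ∧ IsOpen V' ∧ p ∈ U' ∧ U' ⊆ U ∧
      DifferentiableOn ℂ ψ V' ∧ MapsTo Φ U' V' ∧ MapsTo ψ V' U' ∧ (∀ x ∈ U', ψ (Φ x) = x) ∧
        ∀ y ∈ V', Φ (ψ y) = y := by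
  have := FiniteDimensional.complete ℂ A
  have := FiniteDimensional.complete ℂ B
  let e : A ≃L[ℂ] B :=
    (LinearEquiv.ofBijective (fderiv ℂ Φ p : A →ₗ[ℂ] B) hb).toContinuousLinearEquiv
  have he : (e : A →L[ℂ] B) = fderiv ℂ Φ p := by
    ext x
    rfl
  have hc : ContDiffAt ℂ 1 Φ p := (hol_aux_ana hU hΦ p hp).contDiffAt
  have hd : HasFDerivAt Φ (e : A →L[ℂ] B) p := by
    rw [he]
    exact (hΦ.differentiableAt (hU.mem_nhds hp)).hasFDerivAt
  let H := hc.toOpenPartialHomeomorph Φ hd one_ne_zero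
  have hH : (H : A → B) = Φ := hc.toOpenPartialHomeomorph_coe hd one_ne_zero
  have hps : p ∈ H.source := hc.mem_toOpenPartialHomeomorph_source hd one_ne_zero
  have hinv : ContDiffAt ℂ 1 H.symm (Φ p) := hc.to_localInverse hd one_ne_zero
  obtain ⟨W, hWo, hW1, hW2⟩ : ∃ W : Set B, IsOpen W ∧ Φ p ∈ W ∧ DifferentiableOn ℂ H.symm W := by
    obtain ⟨W, hW, hW'⟩ := hinv.contDiffOn le_rfl (by simp)
    refine ⟨interior W, isOpen_interior, mem_interior_iff_mem_nhds.2 hW, ?_⟩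
    exact (hW'.differentiableOn one_ne_zero).mono interior_subset
  refine ⟨H.source ∩ H ⁻¹' W ∩ U, H.target ∩ H.symm ⁻¹' U ∩ W, H.symm,
    (H.isOpen_inter_preimage hWo).inter hU, (H.isOpen_inter_preimage_symm hU).inter hWo,
    ⟨⟨hps, by rw [mem_preimage, hH]; exact hW1⟩, hp⟩, inter_subset_right,
    hW2.mono inter_subset_right, ?_, ?_, ?_, ?_⟩
  · rintro x ⟨⟨h1, h2⟩, h3⟩
    rw [← hH]
    exact ⟨⟨H.map_source h1, by rw [mem_preimage, H.left_inv h1]; exact h3⟩, h2⟩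
  · rintro y ⟨⟨h1, h2⟩, h3⟩
    exact ⟨⟨H.map_target h1, by rw [mem_preimage, H.right_inv h1]; exact h3⟩, h2⟩
  · rintro x ⟨⟨h1, _⟩, _⟩
    rw [← hH]
    exact H.left_inv h1
  · rintro y ⟨⟨h1, _⟩, _⟩
    rw [← hH]
    exact H.right_inv h1

omit [FiniteDimensional ℂ A] in
theorem hol_circle {Φ : A × ℂ → ℂ} {W : Set (A × ℂ)} (hW : IsOpen W)
    (hΦ : DifferentiableOn ℂ Φ W) {U : Set A} (hU : IsOpen U) {c : ℂ} {R : ℝ} (hR : 0 ≤ R)
    (h : ∀ p ∈ U, ∀ z ∈ sphere c R, (p, z) ∈ W) :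
    DifferentiableOn ℂ (fun p => ∮ z in C(c, R), Φ (p, z)) U := by
  have hΨ : DifferentiableOn ℂ (fun q : A × ℂ => ((q.2 - c) * Complex.I) * Φ q) W :=
    DifferentiableOn.mul (by fun_prop) hΦ
  have hI := MP_e941ef_an.holo_integral_gen hW hΨ (γ := circleMap c R) (continuous_circleMap c R)
    hU (a := 0) (b := 2 * Real.pi) fun p hp t _ => h p hp _ (circleMap_mem_sphere c hR t)
  refine hI.congr fun p _ => ?_
  simp only [circleIntegral, deriv_circleMap, smul_eq_mul, circleMap_sub_center]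

omit [FiniteDimensional ℂ A] [FiniteDimensional ℂ B] in
/-- the sharp Cauchy estimate at the centre -/
theorem hol_aux_cauchy {f : A → B} {c : A} {r M : ℝ} (hr : 0 < r)
    (hf : DifferentiableOn ℂ f (ball c r)) (hM : ∀ x ∈ ball c r, ‖f x‖ ≤ M) :
    ‖fderiv ℂ f c‖ ≤ M / r := by
  have hM0 : 0 ≤ M := (norm_nonneg _).trans (hM c (mem_ball_self hr))
  refine ContinuousLinearMap.opNorm_le_bound _ (by positivity) fun v => ?_
  rcases eq_or_ne v 0 with rfl | hv
  · simp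
  have hv0 : 0 < ‖v‖ := norm_pos_iff.2 hv
  have hmem : ∀ s : ℂ, ‖s‖ < r / ‖v‖ → c + s • v ∈ ball c r := fun s hs => by
    rw [mem_ball, dist_eq_norm, add_sub_cancel_left, norm_smul]
    exact (lt_div_iff₀ hv0).1 hs
  have hl : Differentiable ℂ fun s : ℂ => c + s • v := by fun_prop
  have hg : DifferentiableOn ℂ (fun s : ℂ => f (c + s • v)) (ball 0 (r / ‖v‖)) :=
    hf.comp hl.differentiableOn fun s hs => hmem s (by simpa using hs)
  have hder : deriv (fun s : ℂ => f (c + s • v)) 0 = fderiv ℂ f c v := by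
    have h1 : HasFDerivAt f (fderiv ℂ f c) (c + (0 : ℂ) • v) := by
      simpa using (hf.differentiableAt (ball_mem_nhds c hr)).hasFDerivAt
    have h2 : HasDerivAt (fun s : ℂ => c + s • v) v 0 := by
      simpa using ((hasDerivAt_id (0 : ℂ)).smul_const v).const_add c
    exact (h1.comp_hasDerivAt (0 : ℂ) h2).deriv
  have hρ : ∀ ρ : ℝ, 0 < ρ → ρ < r / ‖v‖ → ‖fderiv ℂ f c v‖ * ρ ≤ M := fun ρ h0 h1 => by
    have := Complex.norm_deriv_le_of_forall_mem_sphere_norm_le (c := 0) (C := M) h0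
      (hg.diffContOnCl_ball (closedBall_subset_ball h1)) fun s hs =>
        hM _ (hmem s (by rw [mem_sphere_zero_iff_norm.1 hs]; exact h1))
    rw [hder] at this
    exact (le_div_iff₀ h0).1 this
  have hlim : ‖fderiv ℂ f c v‖ * (r / ‖v‖) ≤ M := by
    have hpos : 0 < r / ‖v‖ := div_pos hr hv0
    have ht : Tendsto (fun ρ : ℝ => ‖fderiv ℂ f c v‖ * ρ) (𝓝[<] (r / ‖v‖))
        (𝓝 (‖fderiv ℂ f c v‖ * (r / ‖v‖))) :=
      ((continuous_const.mul continuous_id).tendsto _).mono_left nhdsWithin_le_nhds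
    refine le_of_tendsto ht ?_
    filter_upwards [Ioo_mem_nhdsLT hpos] with ρ h using hρ ρ h.1 h.2
  rw [div_mul_eq_mul_div, le_div_iff₀ hr]
  rw [← mul_div_assoc, div_le_iff₀ hv0] at hlim
  exact hlim

omit [FiniteDimensional ℂ A] [FiniteDimensional ℂ B] in
theorem hol_fderiv_le {f : A → B} {c : A} {R M : ℝ} (hR : 0 < R)
    (hf : DifferentiableOn ℂ f (ball c R)) (hM : ∀ x ∈ ball c R, ‖f x‖ ≤ M) :
    ∀ x ∈ ball c (R / 2), ‖fderiv ℂ f x‖ ≤ 2 * M / R := by
  intro x hx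
  have hsub : ball x (R / 2) ⊆ ball c R := ball_subset_ball' (by linarith [mem_ball.1 hx])
  have := hol_aux_cauchy (half_pos hR) (hf.mono hsub) fun y hy => hM y (hsub hy)
  calc _ ≤ M / (R / 2) := this
    _ = 2 * M / R := by field_simp

omit [FiniteDimensional ℂ A] [FiniteDimensional ℂ B] in
theorem hol_lip {f : A → B} {c : A} {R M : ℝ} (hR : 0 < R)
    (hf : DifferentiableOn ℂ f (ball c R)) (hM : ∀ x ∈ ball c R, ‖f x‖ ≤ M) :
    ∀ x ∈ ball c (R / 2), ∀ y ∈ ball c (R / 2), ‖f x - f y‖ ≤ 2 * M / R * ‖x - y‖ := by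
  intro x hx y hy
  exact (convex_ball c (R / 2)).norm_image_sub_le_of_norm_fderiv_le (𝕜 := ℂ)
    (fun z hz => hf.differentiableAt
      (isOpen_ball.mem_nhds (ball_subset_ball (half_le_self hR.le) hz)))
    (hol_fderiv_le hR hf hM) hy hx

theorem hol_locLip {f : A → B} {U : Set A} (hU : IsOpen U) (hf : DifferentiableOn ℂ f U) :
    ∀ x ∈ U, ∃ N ∈ 𝓝 x, ∃ K : ℝ≥0, LipschitzOnWith K f N := by
  intro x hx
  have hc : ContDiffAt ℂ 1 f x := (hol_aux_ana hU hf x hx).contDiffAt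
  obtain ⟨K, N, hN, hK⟩ := hc.exists_lipschitzOnWith
  exact ⟨N, hN, K, hK⟩

theorem hol_lim {ι : Type*} {l : Filter ι} [l.NeBot] {g : ι → A → B} {g₀ : A → B} {U : Set A}
    (hU : IsOpen U) {M : ℝ}
    (hg : ∀ᶠ n in l, DifferentiableOn ℂ (g n) U ∧ ∀ t ∈ U, ‖g n t‖ ≤ M)
    (hl : ∀ t ∈ U, Tendsto (fun n => g n t) l (𝓝 (g₀ t))) :
    DifferentiableOn ℂ g₀ U ∧ ∀ t ∈ U, ∀ τ : ι → A, Tendsto τ l (𝓝 t) →
      Tendsto (fun n => g n (τ n)) l (𝓝 (g₀ t)) := by
  constructor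
  · intro t ht
    obtain ⟨R, hR, hRU⟩ := Metric.isOpen_iff.1 hU t ht
    have := FiniteDimensional.proper ℂ (A →L[ℂ] B)
    let 𝒰 : Ultrafilter ι := Ultrafilter.of l
    have h𝒰 : (𝒰 : Filter ι) ≤ l := Ultrafilter.of_le l
    obtain ⟨D, _, hD⟩ := (isCompact_closedBall (0 : A →L[ℂ] B) (2 * M / R)).ultrafilter_le_nhds
      (𝒰.map fun n => fderiv ℂ (g n) t) (by
        rw [le_principal_iff, Ultrafilter.coe_map, mem_map]
        filter_upwards [h𝒰 hg] with n hn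
        exact mem_closedBall_zero_iff.2 (hol_fderiv_le hR (hn.1.mono hRU)
          (fun x hx => hn.2 x (hRU hx)) t (mem_ball_self (half_pos hR))))
    have hD' : Tendsto (fun n => fderiv ℂ (g n) t) 𝒰 (𝓝 D) := hD
    have hb : ∀ z ∈ ball t R, ‖g₀ z - g₀ t - D (z - t)‖ ≤ 4 * M * (‖z - t‖ / R) ^ 2 := by
      intro z hz
      have h1 : Tendsto (fun n => ‖g n z - g n t - fderiv ℂ (g n) t (z - t)‖) 𝒰
          (𝓝 ‖g₀ z - g₀ t - D (z - t)‖) := by
        refine Tendsto.norm (Tendsto.sub (((hl z (hRU hz)).mono_left h𝒰).sub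
          ((hl t ht).mono_left h𝒰)) ?_)
        exact ((ContinuousLinearMap.apply ℂ B (z - t)).continuous.tendsto D).comp hD'
      refine le_of_tendsto h1 ?_
      filter_upwards [h𝒰 hg] with n hn
      exact MP_caab05_ag.GB.OsgAux.second (hn.1.mono hRU) (fun x hx => hn.2 x (hRU hx)) hz
    have hF : HasFDerivAt g₀ D t := by
      rw [hasFDerivAt_iff_isLittleO]
      refine Asymptotics.IsBigO.trans_isLittleO (g := fun z => ‖z - t‖ ^ 2) ?_
        (Asymptotics.isLittleO_pow_sub_sub t one_lt_two)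
      refine Asymptotics.IsBigO.of_bound (4 * M / R ^ 2) ?_
      filter_upwards [ball_mem_nhds t hR] with z hz
      refine (hb z hz).trans (le_of_eq ?_)
      rw [Real.norm_of_nonneg (by positivity)]
      field_simp
    exact hF.differentiableAt.differentiableWithinAt
  · intro t ht τ hτ
    obtain ⟨R, hR, hRU⟩ := Metric.isOpen_iff.1 hU t ht
    have h1 : Tendsto (fun n => g n (τ n) - g n t) l (𝓝 0) := by
      have h2 : Tendsto (fun n => 2 * M / R * ‖τ n - t‖) l (𝓝 0) := by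
        simpa using (tendsto_iff_norm_sub_tendsto_zero.1 hτ).const_mul (2 * M / R)
      refine squeeze_zero_norm' ?_ h2
      filter_upwards [hg, hτ (ball_mem_nhds t (half_pos hR))] with n hn hn'
      exact hol_lip hR (hn.1.mono hRU) (fun x hx => hn.2 x (hRU hx)) _ hn' _
        (mem_ball_self (half_pos hR))
    simpa using h1.add (hl t ht)

end Pool.Agent.Lib.MP_823829_an
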