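import Pool.Agent.Lib.MP_823829_an.Geo
import Pool.Agent.Lib.MP_823829_an.Hol

/-! A finite atlas with a smooth partition of unity. -/

namespace Pool.Agent.Lib.MP_823829_an

open Set Metric Filter MeasureTheory
open scoped Topology ENNReal NNReal ContDiff ComplexConjugate

open scoped Manifold

variable {m : ℕ} {X : Type*} [TopologicalSpace X] [ChartedSpace (Fin m → ℂ) X]
  [IsManifold 𝓘(ℂ, Fin m → ℂ) 1 X]

theorem br1_aux_trans {e e' : OpenPartialHomeomorph X (Fin m → ℂ)}
    (he : e ∈ atlas (Fin m → ℂ) X) (he' : e' ∈ atlas (Fin m → ℂ) X) :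
    DifferentiableOn ℂ (e' ∘ e.symm) (e.target ∩ e.symm ⁻¹' e'.source) :=
  mdifferentiableOn_iff_differentiableOn.1
    ((mdifferentiableOn_atlas (I := 𝓘(ℂ, Fin m → ℂ)) he').comp
      ((mdifferentiableOn_atlas_symm (I := 𝓘(ℂ, Fin m → ℂ)) he).mono inter_subset_left)
      inter_subset_right)

theorem br1_aux_bump [T2Space X] (x : X) : ∃ β : X → ℝ, β x = 1 ∧ (∀ y, 0 ≤ β y) ∧
    Continuous β ∧ tsupport β ⊆ (chartAt (Fin m → ℂ) x).source ∧
      ∀ e ∈ atlas (Fin m → ℂ) X, ContDiffOn ℝ ∞ (β ∘ e.symm) e.target := by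
  set c := chartAt (Fin m → ℂ) x with hc
  obtain ⟨ϱ, h1, h2, h3, h4, h5⟩ := exists_bump (isCompact_singleton (x := c x)) c.open_target
    (singleton_subset_iff.2 (mem_chart_target _ x))
  have hS : IsClosed (c.symm '' tsupport ϱ) :=
    (h2.isCompact.image_of_continuousOn (c.continuousOn_symm.mono h3)).isClosed
  have hSs : c.symm '' tsupport ϱ ⊆ c.source := by
    rintro _ ⟨y, hy, rfl⟩
    exact c.map_target (h3 hy)
  have hsupp : tsupport (c.source.indicator (ϱ ∘ c)) ⊆ c.symm '' tsupport ϱ := by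
    refine closure_minimal (fun y hy => ?_) hS
    have hy1 : y ∈ c.source := support_indicator_subset hy
    rw [Function.mem_support, indicator_of_mem hy1] at hy
    exact ⟨c y, subset_tsupport _ hy, c.left_inv hy1⟩
  have hloc : ∀ y ∈ c.source, c.source.indicator (ϱ ∘ c) =ᶠ[𝓝 y] ϱ ∘ c := fun y hy =>
    mem_of_superset (c.open_source.mem_nhds hy) fun z hz => indicator_of_mem hz _
  have hout : ∀ y ∉ c.source, c.source.indicator (ϱ ∘ c) =ᶠ[𝓝 y] 0 := fun y hy =>
    notMem_tsupport_iff_eventuallyEq.1 fun h => hy (hSs (hsupp h))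
  refine ⟨c.source.indicator (ϱ ∘ c), ?_, fun y => indicator_nonneg (fun z _ => (h5 _).1) y,
    continuous_iff_continuousAt.2 fun y => ?_, hsupp.trans hSs, fun e he z hz => ?_⟩
  · rw [indicator_of_mem (mem_chart_source _ x)]
    exact h4 _ rfl
  · by_cases hy : y ∈ c.source
    · exact (h1.continuous.continuousAt.comp (c.continuousAt hy)).congr (hloc y hy).symm
    · exact continuousAt_const.congr (hout y hy).symm
  · apply ContDiffAt.contDiffWithinAt
    by_cases hy : e.symm z ∈ c.source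
    · have ho : IsOpen (e.target ∩ e.symm ⁻¹' c.source) :=
        e.isOpen_inter_preimage_symm c.open_source
      have ht := ((hol_contDiffOn ho (br1_aux_trans he (chart_mem_atlas _ x))).restrict_scalars
        ℝ).contDiffAt (ho.mem_nhds ⟨hz, hy⟩)
      exact (h1.contDiffAt.comp z ht).congr_of_eventuallyEq
        ((hloc _ hy).comp_tendsto (e.continuousAt_symm hz))
    · exact (contDiffAt_const (c := (0 : ℝ))).congr_of_eventuallyEq
        ((hout _ hy).comp_tendsto (e.continuousAt_symm hz))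

theorem exists_atl [CompactSpace X] [T2Space X] :
    ∃ a : Atl X m, (∀ i, a.e i ∈ atlas (Fin m → ℂ) X) ∧ ∃ ρ : Fin a.n → X → ℝ,
      (∀ i x, 0 ≤ ρ i x) ∧ (∀ x, ∑ i, ρ i x = 1) ∧ (∀ i, Continuous (ρ i)) ∧
        (∀ i, tsupport (ρ i) ⊆ (a.e i).source) ∧
          ∀ i j, ContDiffOn ℝ ∞ (ρ i ∘ (a.e j).symm) (a.e j).target := by
  choose β h1 h2 h3 h4 h5 using br1_aux_bump (m := m) (X := X)
  obtain ⟨t, ht⟩ := isCompact_univ.elim_finite_subcover (fun x => {y | 0 < β x y})
    (fun x => isOpen_lt continuous_const (h3 x))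
    (fun x _ => mem_iUnion.2 ⟨x, by simp [h1 x]⟩)
  let p : Fin t.card → X := fun i => t.equivFin.symm i
  have hcov : ∀ y, ∃ i, 0 < β (p i) y := fun y => by
    obtain ⟨x, hx, hy⟩ := mem_iUnion₂.1 (ht (mem_univ y))
    exact ⟨t.equivFin ⟨x, hx⟩, by simpa [p] using hy⟩
  have hpos : ∀ y, ∑ i, β (p i) y ≠ 0 := fun y => by
    obtain ⟨i, hi⟩ := hcov y
    exact (Finset.sum_pos' (fun j _ => h2 _ y) ⟨i, Finset.mem_univ i, hi⟩).ne'
  refine ⟨⟨t.card, fun i => chartAt _ (p i), fun y => ?_, fun i j =>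
    br1_aux_trans (chart_mem_atlas _ _) (chart_mem_atlas _ _)⟩, fun i => chart_mem_atlas _ _,
    fun i y => β (p i) y / ∑ j, β (p j) y, fun i y => ?_, fun y => ?_, fun i => ?_, fun i => ?_,
    fun i j => ?_⟩
  · obtain ⟨i, hi⟩ := hcov y
    exact ⟨i, h4 _ (subset_tsupport _ hi.ne')⟩
  · exact div_nonneg (h2 _ _) (Finset.sum_nonneg fun j _ => h2 _ y)
  · rw [← Finset.sum_div, div_self (hpos y)]
  · exact (h3 _).div (continuous_finsetSum _ fun j _ => h3 _) hpos
  · refine (closure_mono fun y hy => ?_).trans (h4 (p i))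
    exact fun h0 => hy (by simp [h0])
  · exact (h5 _ _ (chart_mem_atlas _ _)).div
      (ContDiffOn.sum fun k _ => h5 (p k) _ (chart_mem_atlas _ (p j))) fun z _ => hpos _

end Pool.Agent.Lib.MP_823829_an
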