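import Pool.Agent.Lib.MP_823829_an.Defs

/-! Algebra of alternating forms of type (2,2) and positivity. -/

namespace Pool.Agent.Lib.MP_823829_an

open Set Metric Filter MeasureTheory
open scoped Topology ENNReal NNReal ContDiff ComplexConjugate

theorem form_expand' {V : Type} [AddCommGroup V] [Module ℂ V] {κ : Type} [Fintype κ]
    (b : Module.Basis κ ℂ V) (W : Form V) (u₁ u₂ v₁ v₂ : V) :
    W u₁ u₂ v₁ v₂ = ∑ a, ∑ a', ∑ c, ∑ c', W (b a) (b a') (b c) (b c') *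
      (b.repr u₁ a * b.repr u₂ a') * conj (b.repr v₁ c * b.repr v₂ c') := by
  conv_lhs => rw [← b.sum_repr u₁]
  rw [map_sum, LinearMap.sum_apply, LinearMap.sum_apply, LinearMap.sum_apply]
  refine Finset.sum_congr rfl fun a _ => ?_
  conv_lhs => rw [← b.sum_repr u₂]
  rw [map_sum, LinearMap.sum_apply, LinearMap.sum_apply]
  refine Finset.sum_congr rfl fun a' _ => ?_
  conv_lhs => rw [← b.sum_repr v₁]
  rw [map_sum, LinearMap.sum_apply]
  refine Finset.sum_congr rfl fun c _ => ?_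
  conv_lhs => rw [← b.sum_repr v₂]
  rw [map_sum]
  refine Finset.sum_congr rfl fun c' _ => ?_
  simp only [map_smul, LinearMap.smul_apply, LinearMap.map_smulₛₗ, smul_eq_mul, map_mul]
  ring

theorem form_swap_left {V : Type} [AddCommGroup V] [Module ℂ V] (W : Form V)
    (hl : ∀ u v₁ v₂, W u u v₁ v₂ = 0) (u₁ u₂ v₁ v₂ : V) : W u₂ u₁ v₁ v₂ = -W u₁ u₂ v₁ v₂ := by
  have h := hl (u₁ + u₂) v₁ v₂
  simp only [map_add, LinearMap.add_apply, hl] at h
  linear_combination h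

theorem form_swap_right {V : Type} [AddCommGroup V] [Module ℂ V] (W : Form V)
    (hr : ∀ u₁ u₂ v, W u₁ u₂ v v = 0) (u₁ u₂ v₁ v₂ : V) : W u₁ u₂ v₂ v₁ = -W u₁ u₂ v₁ v₂ := by
  have h := hr u₁ u₂ (v₁ + v₂)
  simp only [map_add, LinearMap.add_apply, hr] at h
  linear_combination h

theorem form_expand {V : Type} [AddCommGroup V] [Module ℂ V] {κ : Type} [Fintype κ]
    (b : Module.Basis κ ℂ V) (W : Form V) (hl : ∀ u v₁ v₂, W u u v₁ v₂ = 0)
    (hr : ∀ u₁ u₂ v, W u₁ u₂ v v = 0) (u₁ u₂ v₁ v₂ : V) :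
    W u₁ u₂ v₁ v₂ = (1 / 4 : ℂ) * ∑ a, ∑ a', ∑ c, ∑ c', W (b a) (b a') (b c) (b c') *
      (b.repr u₁ a * b.repr u₂ a' - b.repr u₁ a' * b.repr u₂ a) *
        conj (b.repr v₁ c * b.repr v₂ c' - b.repr v₁ c' * b.repr v₂ c) := by
  have h1 : W u₁ u₂ v₁ v₂ = (1 / 4 : ℂ) *
      (W u₁ u₂ v₁ v₂ - W u₂ u₁ v₁ v₂ - W u₁ u₂ v₂ v₁ + W u₂ u₁ v₂ v₁) := by
    rw [form_swap_left W hl u₁ u₂ v₁ v₂, form_swap_left W hl u₁ u₂ v₂ v₁,
      form_swap_right W hr u₁ u₂ v₁ v₂]
    ring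
  rw [h1, form_expand' b W u₁ u₂ v₁ v₂, form_expand' b W u₂ u₁ v₁ v₂, form_expand' b W u₁ u₂ v₂ v₁,
    form_expand' b W u₂ u₁ v₂ v₁]
  congr 1
  simp only [← Finset.sum_sub_distrib, ← Finset.sum_add_distrib]
  refine Finset.sum_congr rfl fun a _ => Finset.sum_congr rfl fun a' _ =>
    Finset.sum_congr rfl fun c _ => Finset.sum_congr rfl fun c' _ => ?_
  simp only [map_mul, map_sub]
  ring

theorem form_nonneg {V : Type} [AddCommGroup V] [Module ℂ V] (W : Form V)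
    (hl : ∀ u v₁ v₂, W u u v₁ v₂ = 0)
    (hp : ∀ u v, LinearIndependent ℂ ![u, v] → 0 < (W u v u v).re) (u v : V) :
    0 ≤ (W u v u v).re := by
  by_cases h : LinearIndependent ℂ ![u, v]
  · exact (hp u v h).le
  · by_cases hu : u = 0
    · simp [hu]
    · rw [LinearIndependent.pair_iff' hu] at h
      push Not at h
      obtain ⟨a, ha⟩ := h
      have : W u v u v = a * W u u u v := by
        conv_lhs => enter [1, 1, 2]; rw [← ha]
        simp
      rw [this, hl]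
      simp

/-- Pullback of a form by a linear map. -/
theorem exists_form_comap {V V' : Type} [AddCommGroup V] [Module ℂ V] [AddCommGroup V']
    [Module ℂ V'] (M : V →ₗ[ℂ] V') : ∃ P : Form V' →ₗ[ℂ] Form V,
      ∀ W u₁ u₂ v₁ v₂, P W u₁ u₂ v₁ v₂ = W (M u₁) (M u₂) (M v₁) (M v₂) := by
  let Q : (V' →ₗ⋆[ℂ] V' →ₗ⋆[ℂ] ℂ) →ₗ[ℂ] (V →ₗ⋆[ℂ] V →ₗ⋆[ℂ] ℂ) :=
    { toFun := fun B => LinearMap.mk₂'ₛₗ (starRingEnd ℂ) (starRingEnd ℂ) (fun x y => B (M x) (M y))
        (by intros; simp) (by intros; simp) (by intros; simp) (by intros; simp)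
      map_add' := by intros; ext; simp
      map_smul' := by intros; ext; simp }
  refine ⟨{ toFun := fun W => LinearMap.mk₂ ℂ (fun x y => Q (W (M x) (M y)))
              (by intros; simp) (by intros; simp) (by intros; simp) (by intros; simp)
            map_add' := by intros; ext; simp
            map_smul' := by intros; ext; simp }, fun W u₁ u₂ v₁ v₂ => rfl⟩

variable {m : ℕ}

theorem wedge2_nonneg (u v : Fin m → ℂ) : 0 ≤ wedge2 u v :=
  Finset.sum_nonneg fun _ _ => Finset.sum_nonneg fun _ _ => by positivity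

theorem pos_aux_minor (u v : Fin m → ℂ) (a b : Fin m) :
    ‖u a * v b - u b * v a‖ ^ 2 ≤ wedge2 u v :=
  (Finset.single_le_sum (f := fun b => ‖u a * v b - u b * v a‖ ^ 2) (fun _ _ => by positivity)
    (Finset.mem_univ b)).trans
    (Finset.single_le_sum (f := fun a => ∑ b, ‖u a * v b - u b * v a‖ ^ 2)
      (fun _ _ => Finset.sum_nonneg fun _ _ => by positivity) (Finset.mem_univ a))

theorem form_le {W : (Fin m → ℂ) → Form (Fin m → ℂ)} {K : Set (Fin m → ℂ)} (hK : IsCompact K)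
    (hc : ∀ u₁ u₂ v₁ v₂, ContinuousOn (fun y => W y u₁ u₂ v₁ v₂) K)
    (hl : ∀ y u v₁ v₂, W y u u v₁ v₂ = 0) (hr : ∀ y u₁ u₂ v, W y u₁ u₂ v v = 0) :
    ∃ C : ℝ, 0 ≤ C ∧ ∀ y ∈ K, ∀ u v, ‖W y u v u v‖ ≤ C * wedge2 u v := by
  set b := Pi.basisFun ℂ (Fin m) with hb
  have h1 : ContinuousOn (fun y => ∑ a, ∑ a', ∑ c, ∑ c', ‖W y (b a) (b a') (b c) (b c')‖) K :=
    continuousOn_finsetSum _ fun a _ => continuousOn_finsetSum _ fun a' _ =>
      continuousOn_finsetSum _ fun c _ => continuousOn_finsetSum _ fun c' _ => (hc _ _ _ _).norm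
  obtain ⟨C, hC⟩ := hK.bddAbove_image h1
  refine ⟨max C 0, le_max_right _ _, fun y hy u v => ?_⟩
  have h2 : ∑ a, ∑ a', ∑ c, ∑ c', ‖W y (b a) (b a') (b c) (b c')‖ ≤ max C 0 :=
    (hC ⟨y, hy, rfl⟩).trans (le_max_left _ _)
  have h3 := wedge2_nonneg u v
  refine le_trans ?_ (mul_le_mul_of_nonneg_right h2 h3)
  rw [form_expand b (W y) (hl y) (hr y), norm_mul]
  refine le_trans (mul_le_of_le_one_left (norm_nonneg _) (by simp; norm_num)) ?_
  simp only [Finset.sum_mul]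
  refine (norm_sum_le _ _).trans (Finset.sum_le_sum fun a _ => ?_)
  refine (norm_sum_le _ _).trans (Finset.sum_le_sum fun a' _ => ?_)
  refine (norm_sum_le _ _).trans (Finset.sum_le_sum fun c _ => ?_)
  refine (norm_sum_le _ _).trans (Finset.sum_le_sum fun c' _ => ?_)
  rw [norm_mul, norm_mul, Complex.norm_conj, mul_assoc]
  refine mul_le_mul_of_nonneg_left ?_ (norm_nonneg _)
  simp only [hb, Pi.basisFun_repr]
  have h4 := pos_aux_minor u v a a'
  have h5 := pos_aux_minor u v c c'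
  nlinarith [sq_nonneg (‖u a * v a' - u a' * v a‖ - ‖u c * v c' - u c' * v c‖)]

theorem pos_aux_scale {V : Type} [AddCommGroup V] [Module ℂ V] (W : Form V)
    (hl : ∀ u v₁ v₂, W u u v₁ v₂ = 0) (hr : ∀ u₁ u₂ v, W u₁ u₂ v v = 0) (u v : V)
    (p q r s : ℂ) : W (p • u + q • v) (r • u + s • v) (p • u + q • v) (r • u + s • v) =
      ((‖p * s - q * r‖ ^ 2 : ℝ) : ℂ) * W u v u v := by
  rw [← Complex.normSq_eq_norm_sq, ← Complex.mul_conj]
  simp only [map_add, map_smul, LinearMap.add_apply, LinearMap.smul_apply, LinearMap.map_smulₛₗ,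
    smul_eq_mul, hl, hr, map_sub, map_mul]
  rw [form_swap_left W hl u v u v, form_swap_left W hl u v v u, form_swap_right W hr u v u v]
  ring

theorem pos_bound {W : (Fin m → ℂ) → Form (Fin m → ℂ)} {K : Set (Fin m → ℂ)} (hK : IsCompact K)
    (hc : ∀ u₁ u₂ v₁ v₂, ContinuousOn (fun y => W y u₁ u₂ v₁ v₂) K)
    (hl : ∀ y u v₁ v₂, W y u u v₁ v₂ = 0) (hr : ∀ y u₁ u₂ v, W y u₁ u₂ v v = 0)
    (hp : ∀ y ∈ K, ∀ u v, LinearIndependent ℂ ![u, v] → 0 < (W y u v u v).re) :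
    ∃ C : ℝ, 0 ≤ C ∧ ∀ y ∈ K, ∀ u v, wedge2 u v ≤ C * (W y u v u v).re := by
  set S : Set ((Fin m → ℂ) × (Fin m → ℂ)) := (closedBall 0 1 ×ˢ closedBall 0 1) ∩
    ⋃ a : Fin m × Fin m, {p | p.1 a.1 = 1 ∧ p.1 a.2 = 0 ∧ p.2 a.1 = 0 ∧ p.2 a.2 = 1} with hS
  have hSc : IsCompact S := by
    refine ((isCompact_closedBall _ _).prod (isCompact_closedBall _ _)).inter_right
      (isClosed_iUnion_of_finite fun a => ?_)
    have c1 : ∀ i, Continuous fun p : (Fin m → ℂ) × (Fin m → ℂ) => p.1 i := fun i => by fun_prop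
    have c2 : ∀ i, Continuous fun p : (Fin m → ℂ) × (Fin m → ℂ) => p.2 i := fun i => by fun_prop
    exact (isClosed_eq (c1 _) continuous_const).inter ((isClosed_eq (c1 _) continuous_const).inter
      ((isClosed_eq (c2 _) continuous_const).inter (isClosed_eq (c2 _) continuous_const)))
  have hcont : ContinuousOn (fun q : (Fin m → ℂ) × (Fin m → ℂ) × (Fin m → ℂ) =>
      (W q.1 q.2.1 q.2.2 q.2.1 q.2.2).re) (K ×ˢ S) := by
    refine Complex.continuous_re.comp_continuousOn ?_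
    simp_rw [fun q : (Fin m → ℂ) × (Fin m → ℂ) × (Fin m → ℂ) =>
      form_expand' (Pi.basisFun ℂ (Fin m)) (W q.1) q.2.1 q.2.2 q.2.1 q.2.2]
    refine continuousOn_finsetSum _ fun a _ => continuousOn_finsetSum _ fun a' _ =>
      continuousOn_finsetSum _ fun c _ => continuousOn_finsetSum _ fun c' _ => ?_
    simp only [Pi.basisFun_repr]
    refine (ContinuousOn.mul ?_ (by fun_prop)).mul (Continuous.continuousOn ?_)
    · exact (hc _ _ _ _).comp continuousOn_fst fun q hq => hq.1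
    · exact Complex.continuous_conj.comp (by fun_prop)
  obtain ⟨c, hc0, hc1⟩ := (hK.prod hSc).exists_forall_le' hcont (a := 0) (by
    rintro ⟨y, u, v⟩ ⟨hy, -, hq⟩
    obtain ⟨a, h1, h2, h3, h4⟩ := mem_iUnion.1 hq
    refine hp y hy u v (LinearIndependent.pair_iff.2 fun s t hst => ?_)
    have h5 := congrFun hst a.1
    have h6 := congrFun hst a.2
    simp only [Pi.add_apply, Pi.smul_apply, smul_eq_mul, Pi.zero_apply] at h1 h2 h3 h4 h5 h6
    rw [h1, h3] at h5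
    rw [h2, h4] at h6
    exact ⟨by simpa using h5, by simpa using h6⟩)
  refine ⟨(m : ℝ) ^ 2 / c, by positivity, fun y hy u v => ?_⟩
  by_cases h0 : ∀ a b, u a * v b - u b * v a = 0
  · have : wedge2 u v = 0 := by simp [wedge2, h0]
    rw [this]
    exact mul_nonneg (by positivity) (form_nonneg (W y) (hl y) (hp y hy) u v)
  push Not at h0
  obtain ⟨a₀, b₀, h0⟩ := h0
  obtain ⟨⟨a, b⟩, -, hab⟩ := Finset.exists_max_image Finset.univ
    (fun p : Fin m × Fin m => ‖u p.1 * v p.2 - u p.2 * v p.1‖) ⟨(a₀, b₀), Finset.mem_univ _⟩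
  have hab' : ∀ i j, ‖u i * v j - u j * v i‖ ≤ ‖u a * v b - u b * v a‖ :=
    fun i j => hab (i, j) (Finset.mem_univ _)
  set D := u a * v b - u b * v a with hD
  have hDp : 0 < ‖D‖ := (norm_pos_iff.2 h0).trans_le (hab' a₀ b₀)
  have hD0 : D ≠ 0 := norm_pos_iff.1 hDp
  set u' : Fin m → ℂ := fun i => (u i * v b - u b * v i) / D with hu'
  set v' : Fin m → ℂ := fun i => (u a * v i - u i * v a) / D with hv'
  have hmem : (u', v') ∈ S := by
    refine ⟨⟨?_, ?_⟩, mem_iUnion.2 ⟨(a, b), ?_, ?_, ?_, ?_⟩⟩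
    · rw [mem_closedBall_zero_iff, pi_norm_le_iff_of_nonneg zero_le_one]
      intro i
      simp only [hu', norm_div]
      exact (div_le_one hDp).2 (hab' i b)
    · rw [mem_closedBall_zero_iff, pi_norm_le_iff_of_nonneg zero_le_one]
      intro i
      simp only [hv', norm_div]
      exact (div_le_one hDp).2 (hab' a i)
    · exact div_self hD0
    · simp [hu']
    · simp [hv']
    · exact div_self hD0
  have hu : u = u a • u' + u b • v' := by
    funext i
    simp only [hu', hv', Pi.add_apply, Pi.smul_apply, smul_eq_mul]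
    field_simp
    rw [hD]; ring
  have hv : v = v a • u' + v b • v' := by
    funext i
    simp only [hu', hv', Pi.add_apply, Pi.smul_apply, smul_eq_mul]
    field_simp
    rw [hD]; ring
  have h1 := pos_aux_scale (W y) (hl y) (hr y) u' v' (u a) (u b) (v a) (v b)
  rw [← hu, ← hv, ← hD] at h1
  have h2 : c ≤ (W y u' v' u' v').re := hc1 (y, u', v') ⟨hy, hmem⟩
  have h3 : wedge2 u v ≤ (m : ℝ) ^ 2 * ‖D‖ ^ 2 := by
    calc wedge2 u v ≤ ∑ _i : Fin m, ∑ _j : Fin m, ‖D‖ ^ 2 :=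
          Finset.sum_le_sum fun i _ => Finset.sum_le_sum fun j _ => by
            gcongr; exact hab' i j
      _ = _ := by simp; ring
  rw [h1, Complex.re_ofReal_mul]
  calc wedge2 u v ≤ (m : ℝ) ^ 2 / c * (‖D‖ ^ 2 * c) := by
        refine h3.trans (le_of_eq ?_); field_simp
    _ ≤ _ := by gcongr

end Pool.Agent.Lib.MP_823829_an
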