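import Pool.Agent.Lib.MP_823829_an.BR1
import Pool.Agent.Lib.MP_823829_an.Pos

/-! The form in the charts of the finite atlas. -/

namespace Pool.Agent.Lib.MP_823829_an

open Set Metric Filter MeasureTheory
open scoped Topology ENNReal NNReal ContDiff ComplexConjugate

open scoped Manifold

variable {m : ℕ} {X : Type*} [TopologicalSpace X] [ChartedSpace (Fin m → ℂ) X]
  [IsManifold 𝓘(ℂ, Fin m → ℂ) 1 X]

omit [IsManifold 𝓘(ℂ, Fin m → ℂ) 1 X] in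
theorem br2_aux_form (Ω : (x : X) → Form (TangentSpace 𝓘(ℂ, Fin m → ℂ) x))
    (e : OpenPartialHomeomorph X (Fin m → ℂ)) (y : Fin m → ℂ) :
    ∃ W : Form (Fin m → ℂ), ∀ u₁ u₂ v₁ v₂, W u₁ u₂ v₁ v₂ = inChart Ω e y u₁ u₂ v₁ v₂ := by
  obtain ⟨P, hP⟩ := exists_form_comap (V := Fin m → ℂ)
    (V' := TangentSpace 𝓘(ℂ, Fin m → ℂ) (e.symm y))
    (mfderiv 𝓘(ℂ, Fin m → ℂ) 𝓘(ℂ, Fin m → ℂ) e.symm y).toLinearMap
  exact ⟨P (Ω (e.symm y)), fun u₁ u₂ v₁ v₂ => hP _ _ _ _ _⟩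

theorem br2_aux_deriv {e e' : OpenPartialHomeomorph X (Fin m → ℂ)}
    (he : e ∈ atlas (Fin m → ℂ) X) (he' : e' ∈ atlas (Fin m → ℂ) X) {y : Fin m → ℂ}
    (hy : y ∈ e.target) (hy' : e.symm y ∈ e'.source) (u : Fin m → ℂ) :
    (mfderiv 𝓘(ℂ, Fin m → ℂ) 𝓘(ℂ, Fin m → ℂ) e'.symm (e' (e.symm y))
      (fderiv ℂ (e' ∘ e.symm) y u) : Fin m → ℂ) =
      mfderiv 𝓘(ℂ, Fin m → ℂ) 𝓘(ℂ, Fin m → ℂ) e.symm y u := by
  have h1 := mdifferentiableAt_atlas_symm (I := 𝓘(ℂ, Fin m → ℂ)) he hy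
  have h2 := mdifferentiableAt_atlas (I := 𝓘(ℂ, Fin m → ℂ)) he' hy'
  have h3 := mfderiv_comp y h2 h1
  rw [mfderiv_eq_fderiv] at h3
  have h4 := (mdifferentiable_of_mem_atlas (I := 𝓘(ℂ, Fin m → ℂ)) he').symm_comp_deriv hy'
  have h5 : fderiv ℂ (e' ∘ e.symm) y u = mfderiv 𝓘(ℂ, Fin m → ℂ) 𝓘(ℂ, Fin m → ℂ) e' (e.symm y)
      (mfderiv 𝓘(ℂ, Fin m → ℂ) 𝓘(ℂ, Fin m → ℂ) e.symm y u) := congrArg (fun L => L u) h3
  rw [h5]
  exact congrArg (fun L => L (mfderiv 𝓘(ℂ, Fin m → ℂ) 𝓘(ℂ, Fin m → ℂ) e.symm y u)) h4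

theorem exists_frm [CompactSpace X] [T2Space X]
    {Ω : (x : X) → Form (TangentSpace 𝓘(ℂ, Fin m → ℂ) x)} (hΩ : IsPosPluriclosed Ω) :
    ∃ a : Atl X m, (∀ i, a.e i ∈ atlas (Fin m → ℂ) X) ∧ Nonempty (Frm a) := by
  obtain ⟨a, ha, ρ, h1, h2, h3, h4, h5⟩ := exists_atl (m := m) (X := X)
  choose W hW using br2_aux_form Ω
  have key : ∀ x x' : X, x = x' → ∀ u₁ u₂ v₁ v₂ : Fin m → ℂ,
      Ω x u₁ u₂ v₁ v₂ = Ω x' u₁ u₂ v₁ v₂ := by
    rintro x _ rfl u₁ u₂ v₁ v₂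
    rfl
  refine ⟨a, ha, ⟨{ W := fun i => W (a.e i)
                    ρ := ρ
                    altl := fun i y u v₁ v₂ => ?_
                    altr := fun i y u₁ u₂ v => ?_
                    smooth := fun i u₁ u₂ v₁ v₂ => ?_
                    dd := fun i y hy u v => ?_
                    pos := fun i y hy u v huv => ?_
                    compat := fun i j y hy hy' u₁ u₂ v₁ v₂ => ?_
                    nonneg := h1
                    sum_one := h2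
                    cont := h3
                    supp := h4
                    rsmooth := h5 }⟩⟩
  · rw [hW]; exact hΩ.alt_left _ _ _ _
  · rw [hW]; exact hΩ.alt_right _ _ _ _
  · simp only [hW]
    exact hΩ.smooth _ (ha i) _ _ _ _
  · simp only [hW]
    exact hΩ.closed _ (ha i) y hy u v
  · rw [hW]
    refine hΩ.pos _ _ _ ?_
    have h6 := (mdifferentiable_of_mem_atlas (I := 𝓘(ℂ, Fin m → ℂ)) (ha i)).symm.mfderiv_injective
      (x := y) hy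
    refine LinearIndependent.pair_iff.2 fun s t hst => LinearIndependent.pair_iff.1 huv s t (h6 ?_)
    exact ((map_add _ _ _).trans ((congrArg₂ (· + ·) (map_smul _ _ _) (map_smul _ _ _)).trans
      hst)).trans (map_zero _).symm
  · rw [hW, hW]
    unfold inChart
    rw [key _ _ ((a.e j).left_inv hy')]
    rw [← br2_aux_deriv (ha i) (ha j) hy hy' u₁, ← br2_aux_deriv (ha i) (ha j) hy hy' u₂,
      ← br2_aux_deriv (ha i) (ha j) hy hy' v₁, ← br2_aux_deriv (ha i) (ha j) hy hy' v₂]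

end Pool.Agent.Lib.MP_823829_an
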