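import Pool.Agent.Lib.MP_823829_an.MB1

/-! Analytic subsets in the sense of manifolds and in the sense of the finite atlas. -/

namespace Pool.Agent.Lib.MP_823829_an

open Set Metric Filter MeasureTheory
open scoped Topology ENNReal NNReal ContDiff ComplexConjugate

open scoped Manifold

variable {m : ℕ} {X : Type*} [TopologicalSpace X] [ChartedSpace (Fin m → ℂ) X]
  [IsManifold 𝓘(ℂ, Fin m → ℂ) 1 X]

theorem analyticIn_iff (a : Atl X m) (ha : ∀ i, a.e i ∈ atlas (Fin m → ℂ) X) (D : Set C4)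
    (Γ : Set (C4 × X)) : IsAnalyticIn m D Γ ↔ AnOn a D Γ := by
  constructor
  · rintro ⟨hsub, han⟩
    refine ⟨fun p hp => (hsub hp).1, fun p hp i hi => ?_⟩
    obtain ⟨U, hU, hpU, n, g, hg, hiff⟩ := han p ⟨hp, mem_univ _⟩
    refine ⟨(Prod.snd ⁻¹' (a.e i).target) ∩
      (fun q : C4 × (Fin m → ℂ) => (q.1, (a.e i).symm q.2)) ⁻¹' U, ?_, ?_, n,
      fun q => g (q.1, (a.e i).symm q.2), ?_, ?_⟩
    · refine ContinuousOn.isOpen_inter_preimage ?_
        ((a.e i).open_target.preimage continuous_snd) hU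
      exact continuousOn_fst.prodMk ((a.e i).continuousOn_symm.comp continuousOn_snd
        fun q hq => hq)
    · refine ⟨(a.e i).map_source hi, ?_⟩
      show (p.1, (a.e i).symm (a.e i p.2)) ∈ U
      rw [(a.e i).left_inv hi]
      exact hpU
    · intro q hq
      have h1 : MDifferentiableAt 𝓘(ℂ, C4 × (Fin m → ℂ)) 𝓘(ℂ, C4)
          (fun q : C4 × (Fin m → ℂ) => q.1) q := differentiableAt_fst.mdifferentiableAt
      have h0 : MDifferentiableAt 𝓘(ℂ, C4 × (Fin m → ℂ)) 𝓘(ℂ, Fin m → ℂ)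
          (fun q : C4 × (Fin m → ℂ) => q.2) q := differentiableAt_snd.mdifferentiableAt
      have h2 : MDifferentiableAt 𝓘(ℂ, C4 × (Fin m → ℂ)) 𝓘(ℂ, Fin m → ℂ)
          (fun q : C4 × (Fin m → ℂ) => (a.e i).symm q.2) q :=
        (mdifferentiableAt_atlas_symm (I := 𝓘(ℂ, Fin m → ℂ)) (ha i) hq.1).comp q h0
      have h3 := (hg.mdifferentiableAt (hU.mem_nhds hq.2)).comp q (h1.prodMk h2)
      exact (mdifferentiableAt_iff_differentiableAt.1 h3).differentiableWithinAt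
    · intro q hq
      rw [← hiff _ hq.2]
      exact ⟨fun h => h.2, fun h => ⟨hq.1, h⟩⟩
  · rintro ⟨hsub, han⟩
    refine ⟨fun p hp => ⟨hsub p hp, mem_univ _⟩, fun p hp => ?_⟩
    obtain ⟨i, hi⟩ := a.cov p.2
    obtain ⟨U, hU, hpU, n, g, hg, hiff⟩ := han p hp.1 i hi
    refine ⟨(Prod.snd ⁻¹' (a.e i).source) ∩ (fun q : C4 × X => (q.1, a.e i q.2)) ⁻¹' U, ?_,
      ⟨hi, hpU⟩, n, fun q => g (q.1, a.e i q.2), ?_, ?_⟩
    · refine ContinuousOn.isOpen_inter_preimage ?_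
        ((a.e i).open_source.preimage continuous_snd) hU
      exact continuousOn_fst.prodMk ((a.e i).continuousOn.comp continuousOn_snd
        fun q hq => hq)
    · intro q hq
      have h2 : MDifferentiableAt (𝓘(ℂ, C4).prod 𝓘(ℂ, Fin m → ℂ)) 𝓘(ℂ, Fin m → ℂ)
          (fun q : C4 × X => a.e i q.2) q :=
        (mdifferentiableAt_atlas (I := 𝓘(ℂ, Fin m → ℂ)) (ha i) hq.1).comp q mdifferentiableAt_snd
      have h1 : MDifferentiableAt (𝓘(ℂ, C4).prod 𝓘(ℂ, Fin m → ℂ)) 𝓘(ℂ, C4)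
          (fun q : C4 × X => q.1) q := mdifferentiableAt_fst
      have h3 : MDifferentiableAt 𝓘(ℂ, C4 × (Fin m → ℂ)) 𝓘(ℂ, Fin n → ℂ) g (q.1, a.e i q.2) :=
        (hg.differentiableAt (hU.mem_nhds hq.2)).mdifferentiableAt
      exact (h3.comp q (h1.prodMk_space h2)).mdifferentiableWithinAt
    · intro q hq
      rw [← hiff _ hq.2]
      exact (mem_cs hq.1).symm

end Pool.Agent.Lib.MP_823829_an
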