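import Pool.Agent.Lib.MP_823829_an.An

/-! Analytic sets and holomorphic maps in a finite atlas: basic facts. -/

namespace Pool.Agent.Lib.MP_823829_an

open Set Metric Filter MeasureTheory
open scoped Topology ENNReal NNReal ContDiff ComplexConjugate

variable {X : Type*} [TopologicalSpace X] {m : ℕ} {a : Atl X m}
  {T : Type} [NormedAddCommGroup T] [NormedSpace ℂ T] [FiniteDimensional ℂ T]

theorem Atl.secondCountable (a : Atl X m) : SecondCountableTopology X := by
  have : ∀ i, SecondCountableTopology (a.e i).source := fun i =>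
    (a.e i).secondCountableTopology_source
  exact TopologicalSpace.secondCountableTopology_of_countable_cover
    (fun i => (a.e i).open_source) (eq_univ_of_forall fun x => mem_iUnion.2 (a.cov x))

theorem Atl.locallyCompact (a : Atl X m) : LocallyCompactSpace X := by
  let _ : ChartedSpace (Fin m → ℂ) X :=
    { atlas := range a.e
      chartAt := fun x => a.e (a.cov x).choose
      mem_chart_source := fun x => (a.cov x).choose_spec
      chart_mem_atlas := fun x => ⟨_, rfl⟩ }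
  exact ChartedSpace.locallyCompactSpace (Fin m → ℂ) X

theorem Atl.differentiableAt (a : Atl X m) (i j : Fin a.n) {y : Fin m → ℂ}
    (hy : y ∈ (a.e i).target) (hj : (a.e i).symm y ∈ (a.e j).source) :
    DifferentiableAt ℂ (a.e j ∘ (a.e i).symm) y := by
  exact (a.hol i j).differentiableAt
    (((a.e i).isOpen_inter_preimage_symm (a.e j).open_source).mem_nhds ⟨hy, hj⟩)

omit [NormedSpace ℂ T] [FiniteDimensional ℂ T] in
theorem mb1_aux_target {i : Fin a.n} {q : T × (Fin m → ℂ)} (hq : q.2 ∈ (a.e i).target) :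
    ∀ᶠ y in 𝓝 q, y.2 ∈ (a.e i).target :=
  continuousAt_snd.eventually ((a.e i).open_target.mem_nhds hq)

omit [NormedSpace ℂ T] [FiniteDimensional ℂ T] in
theorem mb1_aux_source {i : Fin a.n} {p : T × X} (hp : p.2 ∈ (a.e i).source) :
    ∀ᶠ y in 𝓝 p, y.2 ∈ (a.e i).source :=
  continuousAt_snd.eventually ((a.e i).open_source.mem_nhds hp)

omit [NormedSpace ℂ T] [FiniteDimensional ℂ T] in
theorem mb1_aux_tendsto {i : Fin a.n} {p : T × X} (hp : p.2 ∈ (a.e i).source) :
    Tendsto (fun q : T × X => (q.1, a.e i q.2)) (𝓝 p) (𝓝 (p.1, a.e i p.2)) :=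
  (continuousAt_fst.prodMk (ContinuousAt.comp (f := Prod.snd) ((a.e i).continuousAt hp)
    continuousAt_snd)).tendsto

omit [NormedSpace ℂ T] [FiniteDimensional ℂ T] in
theorem eventually_chart {i : Fin a.n} {p : T × X} (hi : p.2 ∈ (a.e i).source)
    {P : T × X → Prop} : (∀ᶠ q in 𝓝 p, P q) ↔
      ∀ᶠ q in 𝓝 (p.1, a.e i p.2), P (q.1, (a.e i).symm q.2) := by
  exact (((OpenPartialHomeomorph.refl T).prod (a.e i)).eventually_nhds' P
    (x := p) ⟨trivial, hi⟩).symm

omit [NormedAddCommGroup T] [NormedSpace ℂ T] [FiniteDimensional ℂ T] in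
theorem mem_cs {i : Fin a.n} {Γ : Set (T × X)} {t : T} {x : X} (hi : x ∈ (a.e i).source) :
    (t, a.e i x) ∈ cs a i Γ ↔ (t, x) ∈ Γ := by
  simp only [cs, mem_ofPred_eq, (a.e i).left_inv hi, (a.e i).map_source hi, true_and]

omit [NormedSpace ℂ T] [FiniteDimensional ℂ T] in
theorem mem_closure_cs {i : Fin a.n} {Γ : Set (T × X)} {q : T × (Fin m → ℂ)}
    (hq : q.2 ∈ (a.e i).target) :
    q ∈ closure (cs a i Γ) ↔ (q.1, (a.e i).symm q.2) ∈ closure Γ := by
  have h1 := eventually_chart (a := a) (p := (q.1, (a.e i).symm q.2)) (P := fun p => p ∉ Γ)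
    ((a.e i).map_target hq)
  simp only [(a.e i).right_inv hq] at h1
  rw [mem_closure_iff_frequently, mem_closure_iff_frequently, Filter.Frequently,
    Filter.Frequently, h1]
  refine not_congr (eventually_congr ?_)
  filter_upwards [mb1_aux_target hq] with y hy
  simp only [cs, mem_ofPred_eq, hy, true_and]

omit [NormedSpace ℂ T] [FiniteDimensional ℂ T] in
theorem isCompact_chart_image {i : Fin a.n} {C : Set (T × (Fin m → ℂ))} (hC : IsCompact C)
    (hs : ∀ q ∈ C, q.2 ∈ (a.e i).target) :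
    IsCompact ((fun q : T × (Fin m → ℂ) => (q.1, (a.e i).symm q.2)) '' C) := by
  exact hC.image_of_continuousOn (continuousOn_fst.prodMk
    ((a.e i).continuousOn_symm.comp continuousOn_snd hs))

theorem AnX.of_chart {Γ : Set (T × X)} {p : T × X} (i : Fin a.n) (hi : p.2 ∈ (a.e i).source)
    (h : AnAt (cs a i Γ) (p.1, a.e i p.2)) : AnX a Γ p := by
  intro j hj
  have ht := (a.e j).map_source hj
  have hd : ∀ᶠ q : T × (Fin m → ℂ) in 𝓝 (p.1, a.e j p.2),
      q.2 ∈ (a.e j).target ∧ (a.e j).symm q.2 ∈ (a.e i).source :=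
    (mb1_aux_target ht).and
      ((eventually_chart (P := fun q => q.2 ∈ (a.e i).source) hj).1 (mb1_aux_source hi))
  have h1 : AnAt (cs a i Γ) ((fun q : T × (Fin m → ℂ) => (q.1, a.e i ((a.e j).symm q.2)))
      (p.1, a.e j p.2)) := by
    simpa only [(a.e j).left_inv hj] using h
  refine (AnAt.preimage (Φ := fun q : T × (Fin m → ℂ) => (q.1, a.e i ((a.e j).symm q.2)))
    (x := (p.1, a.e j p.2)) h1 ?_).congr ?_
  · filter_upwards [hd] with q hq
    exact differentiableAt_fst.prodMk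
      ((a.differentiableAt j i hq.1 hq.2).comp q differentiableAt_snd)
  · filter_upwards [hd] with q hq
    rw [mem_preimage, mem_cs hq.2]
    exact ⟨fun h3 => ⟨hq.1, h3⟩, fun h3 => h3.2⟩

theorem AnX.congr {Γ Γ' : Set (T × X)} {p : T × X} (h : AnX a Γ p)
    (he : ∀ᶠ q in 𝓝 p, q ∈ Γ ↔ q ∈ Γ') : AnX a Γ' p := by
  intro i hi
  refine (h i hi).congr ?_
  filter_upwards [(eventually_chart hi).1 he] with q hq
  exact and_congr_right fun _ => hq

theorem AnX.eventually {Γ : Set (T × X)} {p : T × X} (h : AnX a Γ p) :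
    ∀ᶠ q in 𝓝 p, AnX a Γ q := by
  obtain ⟨i, hi⟩ := a.cov p.2
  have h1 := (mb1_aux_tendsto hi).eventually (h i hi).eventually
  filter_upwards [h1, mb1_aux_source hi] with q h3 h4 using AnX.of_chart i h4 h3

theorem AnX.union {Γ Γ' : Set (T × X)} {p : T × X} (h : AnX a Γ p) (h' : AnX a Γ' p) :
    AnX a (Γ ∪ Γ') p := by
  intro i hi
  refine ((h i hi).union (h' i hi)).congr (Eventually.of_forall fun q => ?_)
  simp only [cs, mem_union, mem_ofPred_eq, and_or_left]

theorem AnX.inter {Γ Γ' : Set (T × X)} {p : T × X} (h : AnX a Γ p) (h' : AnX a Γ' p) :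
    AnX a (Γ ∩ Γ') p := by
  intro i hi
  refine ((h i hi).inter (h' i hi)).congr (Eventually.of_forall fun q => ?_)
  simp only [cs, mem_inter_iff, mem_ofPred_eq]
  tauto

theorem anX_of_notMem_closure {Γ : Set (T × X)} {p : T × X} (h : p ∉ closure Γ) : AnX a Γ p := by
  intro i hi
  refine anAt_of_notMem_closure fun h1 => h ?_
  simpa only [(a.e i).left_inv hi] using (mem_closure_cs ((a.e i).map_source hi)).1 h1

theorem AnX.mem_of_closure {Γ : Set (T × X)} {p : T × X} (h : AnX a Γ p) (hp : p ∈ closure Γ) :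
    p ∈ Γ := by
  obtain ⟨i, hi⟩ := a.cov p.2
  refine (mem_cs hi).1 ((h i hi).mem_of_closure ((mem_closure_cs ((a.e i).map_source hi)).2 ?_))
  simpa only [(a.e i).left_inv hi] using hp

theorem AnX.notMem_nhds {Γ : Set (T × X)} {p : T × X} (h : AnX a Γ p) (hp : p ∉ Γ) :
    ∀ᶠ q in 𝓝 p, q ∉ Γ := by
  have := mt h.mem_of_closure hp
  rwa [mem_closure_iff_frequently, not_frequently] at this

omit [FiniteDimensional ℂ T] in
theorem AnOn.anAt {D : Set T} {Γ : Set (T × X)} (h : AnOn a D Γ) (i : Fin a.n)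
    {q : T × (Fin m → ℂ)} (h1 : q.1 ∈ D) (h2 : q.2 ∈ (a.e i).target) : AnAt (cs a i Γ) q := by
  have h3 := h.2 (q.1, (a.e i).symm q.2) h1 i ((a.e i).map_target h2)
  simpa only [(a.e i).right_inv h2] using h3

omit [FiniteDimensional ℂ T] in
theorem AnOn.locAn {D : Set T} {Γ : Set (T × X)} (h : AnOn a D Γ) (i : Fin a.n) :
    LocAn (cs a i Γ) := by
  exact fun q hq => h.anAt i (h.1 (q.1, (a.e i).symm q.2) hq.2) hq.1

theorem AnOn.restrict {D U : Set T} {Γ : Set (T × X)} (h : AnOn a D Γ) (hU : IsOpen U) (hs : U ⊆ D) :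
    AnOn a U (res Γ U) := by
  refine ⟨fun p hp => hp.2, fun p hp => (h.2 p (hs hp)).congr ?_⟩
  filter_upwards [continuousAt_fst.eventually (hU.mem_nhds hp)] with q hq
  exact ⟨fun h1 => ⟨h1, hq⟩, fun h1 => h1.1⟩

theorem AnOn.isCompact [CompactSpace X] {D K : Set T} {Γ : Set (T × X)} (h : AnOn a D Γ)
    (hK : IsCompact K) (hs : K ⊆ D) : IsCompact (res Γ K) := by
  refine (hK.prod (isCompact_univ (X := X))).of_isClosed_subset ?_ fun p hp => ⟨hp.2, trivial⟩
  refine isClosed_of_closure_subset fun p hp => ?_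
  have h1 : p.1 ∈ K :=
    (hK.isClosed.preimage continuous_fst).closure_subset (closure_mono inter_subset_right hp)
  exact ⟨(h.2 p (hs h1)).mem_of_closure (closure_mono inter_subset_left hp), h1⟩

omit [NormedSpace ℂ T] [FiniteDimensional ℂ T] in
theorem tube [CompactSpace X] {Γ : Set (T × X)} {t : T} {N : Set X} (hN : IsOpen N)
    (h : ∀ x, x ∉ N → (t, x) ∉ closure Γ) : ∀ᶠ t' in 𝓝 t, ∀ x, (t', x) ∈ Γ → x ∈ N := by
  have h1 := hN.isClosed_compl.isCompact.eventually_forall_of_forall_eventually (x₀ := t)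
    (P := fun t' x => (t', x) ∉ Γ) (fun x hx => by
      have := h x hx
      rwa [mem_closure_iff_frequently, not_frequently] at this)
  filter_upwards [h1] with t' ht' x hx
  by_contra hcon
  exact ht' x hcon hx

theorem AnOn.tube [CompactSpace X] {D : Set T} {Γ : Set (T × X)} (h : AnOn a D Γ) {t : T}
    (ht : t ∈ D) {N : Set X} (hN : IsOpen N) (hf : ∀ x, (t, x) ∈ Γ → x ∈ N) :
    ∀ᶠ t' in 𝓝 t, ∀ x, (t', x) ∈ Γ → x ∈ N := by
  exact _root_.Pool.Agent.Lib.MP_823829_an.tube hN fun x hx hc =>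
    hx (hf x ((h.2 (t, x) ht).mem_of_closure hc))

omit [FiniteDimensional ℂ T] in
theorem HolAt.of_chart {g : T → X} {t : T} (hc : ContinuousAt g t) (i : Fin a.n)
    (hi : g t ∈ (a.e i).source) (hd : DifferentiableAt ℂ (a.e i ∘ g) t) : HolAt a g t := by
  refine ⟨hc, fun j hj => ?_⟩
  have h1 := (a.differentiableAt i j ((a.e i).map_source hi)
    (by rwa [(a.e i).left_inv hi])).comp t hd
  refine h1.congr_of_eventuallyEq ?_
  filter_upwards [hc.eventually ((a.e i).open_source.mem_nhds hi)] with s hs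
  simp only [Function.comp_apply, (a.e i).left_inv hs]

omit [FiniteDimensional ℂ T] in
theorem holAt_symm {g : T → Fin m → ℂ} {t : T} (i : Fin a.n) (hd : DifferentiableAt ℂ g t)
    (hi : g t ∈ (a.e i).target) : HolAt a (fun t => (a.e i).symm (g t)) t := by
  exact ⟨((a.e i).continuousAt_symm hi).comp hd.continuousAt, fun j hj =>
    (a.differentiableAt i j hi hj).comp t hd⟩

omit [FiniteDimensional ℂ T] in
theorem HolAt.congr {g g' : T → X} {t : T} (h : HolAt a g t) (he : g =ᶠ[𝓝 t] g') :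
    HolAt a g' t := by
  refine ⟨h.1.congr he, fun i hi => ?_⟩
  exact (h.2 i (by rwa [he.eq_of_nhds])).congr_of_eventuallyEq (he.symm.fun_comp _)

omit [FiniteDimensional ℂ T] in
theorem HolAt.comp {T' : Type} [NormedAddCommGroup T'] [NormedSpace ℂ T'] {g : T → X} {Φ : T' → T}
    {t : T'} (h : HolAt a g (Φ t)) (hΦ : DifferentiableAt ℂ Φ t) :
    HolAt a (fun t => g (Φ t)) t := by
  exact ⟨h.1.comp hΦ.continuousAt, fun i hi => (h.2 i hi).comp t hΦ⟩

omit [FiniteDimensional ℂ T] in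
theorem holAt_chart {g : T → X} {U : Set T} (hU : IsOpen U) (h : ∀ t ∈ U, HolAt a g t)
    (i : Fin a.n) : IsOpen (U ∩ g ⁻¹' (a.e i).source) ∧
      DifferentiableOn ℂ (a.e i ∘ g) (U ∩ g ⁻¹' (a.e i).source) := by
  refine ⟨ContinuousOn.isOpen_inter_preimage (fun t ht => (h t ht).1.continuousWithinAt) hU
    (a.e i).open_source, fun t ht => ((h t ht.1).2 i ht.2).differentiableWithinAt⟩

theorem anX_grf [T2Space X] {f : T → X} {p : T × X} (h : ∀ᶠ t in 𝓝 p.1, HolAt a f t) :
    AnX a (grf f) p := by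
  by_cases hp : p.2 = f p.1
  · intro i hi
    have hc : ContinuousAt f p.1 := h.self_of_nhds.1
    have h1 : ∀ᶠ t in 𝓝 p.1, HolAt a f t ∧ f t ∈ (a.e i).source :=
      h.and (hc.eventually ((a.e i).open_source.mem_nhds (hp ▸ hi)))
    obtain ⟨U, hU, hUo, hpU⟩ := _root_.eventually_nhds_iff.1 h1
    have h2 : AnAt {q : T × (Fin m → ℂ) | q.2 = a.e i (f q.1)} (p.1, a.e i p.2) :=
      anAt_eq (U := U ×ˢ univ) (hUo.prod isOpen_univ) ⟨hpU, trivial⟩ differentiableOn_snd
        fun q hq => (((hU q.1 hq.1).1.2 i (hU q.1 hq.1).2).comp q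
          differentiableAt_fst).differentiableWithinAt
    refine h2.congr ?_
    filter_upwards [mb1_aux_target (q := (p.1, a.e i p.2)) ((a.e i).map_source hi),
      continuousAt_fst.eventually (hUo.mem_nhds (x := (p.1, a.e i p.2).1) hpU)] with q h3 h4
    simp only [cs, grf, mem_ofPred_eq, h3, true_and]
    constructor
    · intro h5
      rw [h5, (a.e i).left_inv (hU _ h4).2]
    · intro h5
      rw [← h5, (a.e i).right_inv h3]
  · refine anX_of_notMem_closure ?_
    rw [mem_closure_iff_frequently, not_frequently]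
    have hc : ContinuousAt (fun q : T × X => f q.1) p :=
      ContinuousAt.comp h.self_of_nhds.1 continuousAt_fst
    exact (continuousAt_snd.prodMk hc).eventually (isClosed_diagonal.isOpen_compl.mem_nhds hp)

theorem AnX.graph_preimage {Γ : Set (T × X)} {f : T → X} {t : T} (h : AnX a Γ (t, f t))
    (hf : ∀ᶠ t' in 𝓝 t, HolAt a f t') : AnAt {t' | (t', f t') ∈ Γ} t := by
  obtain ⟨i, hi⟩ := a.cov (f t)
  have h1 : ∀ᶠ s in 𝓝 t, f s ∈ (a.e i).source :=
    hf.self_of_nhds.1.eventually ((a.e i).open_source.mem_nhds hi)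
  refine (AnAt.preimage (Φ := fun s => (s, a.e i (f s))) (x := t) (h i hi) ?_).congr ?_
  · filter_upwards [hf, h1] with s h3 h4 using differentiableAt_id.prodMk (h3.2 i h4)
  · filter_upwards [h1] with s h4 using mem_cs h4

theorem AnX.pull {T' : Type} [NormedAddCommGroup T'] [NormedSpace ℂ T'] [FiniteDimensional ℂ T']
    {Γ : Set (T × X)} {Φ : T' → T} {p : T' × X} (h : AnX a Γ (Φ p.1, p.2))
    (hΦ : ∀ᶠ t in 𝓝 p.1, DifferentiableAt ℂ Φ t) :
    AnX a {q : T' × X | (Φ q.1, q.2) ∈ Γ} p := by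
  intro i hi
  refine AnAt.preimage (Φ := fun q : T' × (Fin m → ℂ) => (Φ q.1, q.2)) (x := (p.1, a.e i p.2))
    (h i hi) ?_
  have h3 : ∀ᶠ q : T' × (Fin m → ℂ) in 𝓝 (p.1, a.e i p.2), DifferentiableAt ℂ Φ q.1 :=
    continuousAt_fst.eventually hΦ
  filter_upwards [h3] with q hq
  exact (hq.comp q differentiableAt_fst).prodMk differentiableAt_snd

theorem AnOn.sliced {U B : Set C2} {Γ : Set (C4 × X)} (h : AnOn a (U ×ˢ B) Γ) {z : C2}
    (hz : z ∈ U) : AnOn a B (slice Γ z) := by
  refine ⟨fun p hp => (h.1 _ hp).2, fun p hp => ?_⟩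
  exact AnX.pull (Φ := fun w : C2 => ((z, w) : C4)) (h.2 ((z, p.1), p.2) ⟨hz, hp⟩)
    (Eventually.of_forall fun _ => (differentiableAt_const _).prodMk differentiableAt_id)

end Pool.Agent.Lib.MP_823829_an
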