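import Pool.Agent.Lib.MP_823829_an.Stmt2
import Pool.Agent.Lib.MP_823829_an.MB1

/-! Local irreducibility in the sense of manifolds and in the sense of the finite atlas. -/

namespace Pool.Agent.Lib.MP_823829_an

open Set Metric Filter MeasureTheory
open scoped Topology ENNReal NNReal ContDiff ComplexConjugate Manifold

section Atlas

variable {X : Type*} [TopologicalSpace X] {m : ℕ}
  {T : Type} [NormedAddCommGroup T] [NormedSpace ℂ T]

/-- The germ of `Γ` at `p` is irreducible. -/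
def LIrrAt (a : Atl X m) (Γ : Set (T × X)) (p : T × X) : Prop :=
  ∀ Z₁ Z₂ : Set (T × X), AnX a Z₁ p → AnX a Z₂ p → (∀ᶠ q in 𝓝 p, q ∈ Γ ↔ q ∈ Z₁ ∪ Z₂) →
    (∀ᶠ q in 𝓝 p, q ∈ Γ ↔ q ∈ Z₁) ∨ (∀ᶠ q in 𝓝 p, q ∈ Γ ↔ q ∈ Z₂)

/-- The germ of `Γ` at each of its points is irreducible. -/
def LIrr (a : Atl X m) (Γ : Set (T × X)) : Prop := ∀ p ∈ Γ, LIrrAt a Γ p

end Atlas

variable {m : ℕ} {X : Type*} [TopologicalSpace X] [ChartedSpace (Fin m → ℂ) X]
  [IsManifold 𝓘(ℂ, Fin m → ℂ) 1 X]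

theorem analyticNear_iff (a : Atl X m) (ha : ∀ i, a.e i ∈ atlas (Fin m → ℂ) X)
    (Γ : Set (C4 × X)) (p : C4 × X) : IsAnalyticNear m Γ p ↔ AnX a Γ p := by
  constructor
  · rintro ⟨U, hU, hpU, n, g, hg, hiff⟩ i hi
    refine ⟨(Prod.snd ⁻¹' (a.e i).target) ∩
      (fun q : C4 × (Fin m → ℂ) => (q.1, (a.e i).symm q.2)) ⁻¹' U, ?_, ?_, n,
      fun q => g (q.1, (a.e i).symm q.2), ?_, ?_⟩
    · refine ContinuousOn.isOpen_inter_preimage ?_
        ((a.e i).open_target.preimage continuous_snd) hU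
      exact continuousOn_fst.prodMk ((a.e i).continuousOn_symm.comp continuousOn_snd
        fun q hq => hq)
    · refine ⟨(a.e i).map_source hi, ?_⟩
      show (p.1, (a.e i).symm (a.e i p.2)) ∈ U
      rw [(a.e i).left_inv hi]
      exact hpU
    · intro q hq
      have h1 : MDifferentiableAt 𝓘(ℂ, C4 × (Fin m → ℂ)) 𝓘(ℂ, C4)
          (fun q : C4 × (Fin m → ℂ) => q.1) q := differentiableAt_fst.mdifferentiableAt
      have h0 : MDifferentiableAt 𝓘(ℂ, C4 × (Fin m → ℂ)) 𝓘(ℂ, Fin m → ℂ)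
          (fun q : C4 × (Fin m → ℂ) => q.2) q := differentiableAt_snd.mdifferentiableAt
      have h2 : MDifferentiableAt 𝓘(ℂ, C4 × (Fin m → ℂ)) 𝓘(ℂ, Fin m → ℂ)
          (fun q : C4 × (Fin m → ℂ) => (a.e i).symm q.2) q :=
        (mdifferentiableAt_atlas_symm (I := 𝓘(ℂ, Fin m → ℂ)) (ha i) hq.1).comp q h0
      have h3 := (hg.mdifferentiableAt (hU.mem_nhds hq.2)).comp q (h1.prodMk h2)
      exact (mdifferentiableAt_iff_differentiableAt.1 h3).differentiableWithinAt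
    · intro q hq
      rw [← hiff _ hq.2]
      exact ⟨fun h => h.2, fun h => ⟨hq.1, h⟩⟩
  · intro han
    obtain ⟨i, hi⟩ := a.cov p.2
    obtain ⟨U, hU, hpU, n, g, hg, hiff⟩ := han i hi
    refine ⟨(Prod.snd ⁻¹' (a.e i).source) ∩ (fun q : C4 × X => (q.1, a.e i q.2)) ⁻¹' U, ?_,
      ⟨hi, hpU⟩, n, fun q => g (q.1, a.e i q.2), ?_, ?_⟩
    · refine ContinuousOn.isOpen_inter_preimage ?_
        ((a.e i).open_source.preimage continuous_snd) hU
      exact continuousOn_fst.prodMk ((a.e i).continuousOn.comp continuousOn_snd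
        fun q hq => hq)
    · intro q hq
      have h2 : MDifferentiableAt (𝓘(ℂ, C4).prod 𝓘(ℂ, Fin m → ℂ)) 𝓘(ℂ, Fin m → ℂ)
          (fun q : C4 × X => a.e i q.2) q :=
        (mdifferentiableAt_atlas (I := 𝓘(ℂ, Fin m → ℂ)) (ha i) hq.1).comp q mdifferentiableAt_snd
      have h1 : MDifferentiableAt (𝓘(ℂ, C4).prod 𝓘(ℂ, Fin m → ℂ)) 𝓘(ℂ, C4)
          (fun q : C4 × X => q.1) q := mdifferentiableAt_fst
      have h3 : MDifferentiableAt 𝓘(ℂ, C4 × (Fin m → ℂ)) 𝓘(ℂ, Fin n → ℂ) g (q.1, a.e i q.2) :=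
        (hg.differentiableAt (hU.mem_nhds hq.2)).mdifferentiableAt
      exact (h3.comp q (h1.prodMk_space h2)).mdifferentiableWithinAt
    · intro q hq
      rw [← hiff _ hq.2]
      exact (mem_cs hq.1).symm

theorem locallyIrreducible_iff (a : Atl X m) (ha : ∀ i, a.e i ∈ atlas (Fin m → ℂ) X)
    (Γ : Set (C4 × X)) : IsLocallyIrreducible m Γ ↔ LIrr a Γ := by
  simp only [IsLocallyIrreducible, LIrr, LIrrAt, analyticNear_iff a ha]

end Pool.Agent.Lib.MP_823829_an
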