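import Pool.Agent.Lib.MP_823829_an.St2

/-! A Caccioppoli inequality for the mixed term of the volume. -/

namespace Pool.Agent.Lib.MP_823829_an

open Set Metric Filter MeasureTheory
open scoped Topology ENNReal NNReal ContDiff ComplexConjugate

theorem cacc_aux_lint {α : Type} [MeasurableSpace α] {μ : Measure α} {f h G : α → ℝ}
    (hh : Integrable h μ) (h0 : ∫ x, h x ∂μ = 0) (hG : AEMeasurable G μ)
    (hG0 : ∀ x, 0 ≤ G x) (hf0 : ∀ x, 0 ≤ f x) (hle : ∀ᵐ x ∂μ, f x ≤ h x + G x) :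
    ∫⁻ x, ENNReal.ofReal (f x) ∂μ ≤ ∫⁻ x, ENNReal.ofReal (G x) ∂μ := by
  by_cases ht : ∫⁻ x, ENNReal.ofReal (G x) ∂μ = ⊤
  · rw [ht]; exact le_top
  have hGi : Integrable G μ :=
    (lintegral_ofReal_ne_top_iff_integrable hG.aestronglyMeasurable (ae_of_all _ hG0)).1 ht
  have hs : Integrable (fun x => h x + G x) μ := hh.add hGi
  calc ∫⁻ x, ENNReal.ofReal (f x) ∂μ ≤ ∫⁻ x, ENNReal.ofReal (h x + G x) ∂μ :=
        lintegral_mono_ae (hle.mono fun x hx => ENNReal.ofReal_le_ofReal hx)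
    _ = ENNReal.ofReal (∫ x, h x + G x ∂μ) :=
        (ofReal_integral_eq_lintegral_ofReal hs (hle.mono fun x hx => (hf0 x).trans hx)).symm
    _ = ENNReal.ofReal (∫ x, G x ∂μ) := by rw [integral_add hh hGi, h0, zero_add]
    _ = _ := ofReal_integral_eq_lintegral_ofReal hGi (ae_of_all _ hG0)

variable {m : ℕ}

/-- The product cutoff. -/
noncomputable def cacc_aux_be (χ : C2 → ℝ) (ϱ : (Fin m → ℂ) → ℝ) (p : C2 × (Fin m → ℂ)) : ℂ :=
  (χ p.1 : ℂ) * (ϱ p.2 : ℂ)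

/-- The test function. -/
noncomputable def cacc_aux_b (χ : C2 → ℝ) (ϱ : (Fin m → ℂ) → ℝ) (j : Fin 2)
    (p : C2 × (Fin m → ℂ)) : ℂ :=
  cacc_aux_be χ ϱ p * cacc_aux_be χ ϱ p * p.1 j

/-- The error term. -/
noncomputable def cacc_aux_X (χ : C2 → ℝ) (ϱ : (Fin m → ℂ) → ℝ) (g : C2 → Fin m → ℂ) (t : C2)
    (a : Fin m) : ℂ :=
  ∑ c, dH (cacc_aux_be χ ϱ) (t, g t) (bas c) * minor g t c (Sum.inr a)

/-- The integrand of the Stokes formula. -/
noncomputable def cacc_aux_F (χ : C2 → ℝ) (ϱ : (Fin m → ℂ) → ℝ) (g : C2 → Fin m → ℂ) (j : Fin 2)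
    (a : Fin m) (t : C2) : ℂ :=
  ∑ c, dH (cacc_aux_b χ ϱ j) (t, g t) (bas c) * minor g t c (Sum.inr a) *
    conj (minor g t (Sum.inl j) (Sum.inr a))

theorem cacc_aux_ofReal {V : Type} [NormedAddCommGroup V] [NormedSpace ℝ V] {φ : V → ℝ}
    (hφ : ContDiff ℝ ∞ φ) : ContDiff ℝ ∞ fun x => (φ x : ℂ) :=
  Complex.ofRealCLM.contDiff.comp hφ

theorem cacc_aux_be_smooth {χ : C2 → ℝ} {ϱ : (Fin m → ℂ) → ℝ} (hχ : ContDiff ℝ ∞ χ)
    (hϱ : ContDiff ℝ ∞ ϱ) : ContDiff ℝ ∞ (cacc_aux_be χ ϱ) :=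
  ((cacc_aux_ofReal hχ).comp contDiff_fst).mul ((cacc_aux_ofReal hϱ).comp contDiff_snd)

theorem cacc_aux_b_smooth {χ : C2 → ℝ} {ϱ : (Fin m → ℂ) → ℝ} (hχ : ContDiff ℝ ∞ χ)
    (hϱ : ContDiff ℝ ∞ ϱ) (j : Fin 2) : ContDiff ℝ ∞ (cacc_aux_b χ ϱ j) :=
  ((cacc_aux_be_smooth hχ hϱ).mul (cacc_aux_be_smooth hχ hϱ)).mul
    ((contDiff_apply ℝ ℂ j).comp contDiff_fst)

theorem cacc_aux_supp (χ : C2 → ℝ) (ϱ : (Fin m → ℂ) → ℝ) (j : Fin 2) :
    tsupport (cacc_aux_b χ ϱ j) ⊆ tsupport χ ×ˢ tsupport ϱ := by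
  refine closure_minimal (fun p hp => ?_) ((isClosed_tsupport _).prod (isClosed_tsupport _))
  refine ⟨subset_tsupport _ fun h => hp ?_, subset_tsupport _ fun h => hp ?_⟩ <;>
    simp [cacc_aux_b, cacc_aux_be, h]

theorem cacc_aux_dH_be {χ : C2 → ℝ} {ϱ : (Fin m → ℂ) → ℝ} (hχ : ContDiff ℝ ∞ χ)
    (hϱ : ContDiff ℝ ∞ ϱ) (p u : C2 × (Fin m → ℂ)) :
    dH (cacc_aux_be χ ϱ) p u = dH (fun x => (χ x : ℂ)) p.1 u.1 * (ϱ p.2 : ℂ) +
      (χ p.1 : ℂ) * dH (fun x => (ϱ x : ℂ)) p.2 u.2 := by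
  have h1 := (cacc_aux_ofReal hχ).differentiable (by simp)
  have h2 := (cacc_aux_ofReal hϱ).differentiable (by simp)
  have e1 := dH_comp (b := fun x => (χ x : ℂ)) (F := fun q : C2 × (Fin m → ℂ) => q.1) (t := p)
    (h1 _) differentiableAt_fst u
  have e2 := dH_comp (b := fun x => (ϱ x : ℂ)) (F := fun q : C2 × (Fin m → ℂ) => q.2) (t := p)
    (h2 _) differentiableAt_snd u
  rw [fderiv_fst] at e1
  rw [fderiv_snd] at e2
  unfold cacc_aux_be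
  rw [dH_mul (f := fun q : C2 × (Fin m → ℂ) => (χ q.1 : ℂ))
    (g := fun q : C2 × (Fin m → ℂ) => (ϱ q.2 : ℂ)) ((h1 _).comp p differentiableAt_fst)
    ((h2 _).comp p differentiableAt_snd), e1, e2]
  rfl

theorem cacc_aux_dH_b {χ : C2 → ℝ} {ϱ : (Fin m → ℂ) → ℝ} (hχ : ContDiff ℝ ∞ χ)
    (hϱ : ContDiff ℝ ∞ ϱ) (j : Fin 2) (p u : C2 × (Fin m → ℂ)) :
    dH (cacc_aux_b χ ϱ j) p u = 2 * cacc_aux_be χ ϱ p * p.1 j * dH (cacc_aux_be χ ϱ) p u +
      cacc_aux_be χ ϱ p ^ 2 * u.1 j := by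
  have h1 := (cacc_aux_be_smooth hχ hϱ).differentiable (by simp) p
  obtain ⟨ξ, hξ⟩ := exists_crd_clm (m := m) (Sum.inl j)
  have hξ' : (fun q : C2 × (Fin m → ℂ) => q.1 j) = ξ := funext fun q => (hξ q).symm
  have h2 : DifferentiableAt ℝ (fun q : C2 × (Fin m → ℂ) => q.1 j) p :=
    (((contDiff_apply ℝ ℂ j).comp contDiff_fst).differentiable (n := 1) (by simp)) p
  have h3 : dH (fun q : C2 × (Fin m → ℂ) => q.1 j) p u = u.1 j := by
    rw [hξ', dH_hol ξ.differentiableAt, ξ.fderiv, hξ]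
    rfl
  unfold cacc_aux_b
  rw [dH_mul (f := fun q => cacc_aux_be χ ϱ q * cacc_aux_be χ ϱ q)
    (g := fun q : C2 × (Fin m → ℂ) => q.1 j) (h1.mul h1) h2, dH_mul h1 h1, h3]
  ring

theorem cacc_aux_F_eq {χ : C2 → ℝ} {ϱ : (Fin m → ℂ) → ℝ} (hχ : ContDiff ℝ ∞ χ)
    (hϱ : ContDiff ℝ ∞ ϱ) (g : C2 → Fin m → ℂ) (j : Fin 2) (a : Fin m) (t : C2) :
    cacc_aux_F χ ϱ g j a t =
      2 * cacc_aux_be χ ϱ (t, g t) * (t j * cacc_aux_X χ ϱ g t a) *
          conj (minor g t (Sum.inl j) (Sum.inr a)) +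
        cacc_aux_be χ ϱ (t, g t) ^ 2 * (minor g t (Sum.inl j) (Sum.inr a) *
          conj (minor g t (Sum.inl j) (Sum.inr a))) := by
  have e : ∑ c : Fin 2 ⊕ Fin m, (bas c : C2 × (Fin m → ℂ)).1 j * minor g t c (Sum.inr a) =
      minor g t (Sum.inl j) (Sum.inr a) := by
    rw [Fintype.sum_sum_type]
    fin_cases j <;> simp [bas]
  unfold cacc_aux_F cacc_aux_X
  rw [← e]
  simp only [cacc_aux_dH_b hχ hϱ, Finset.mul_sum, Finset.sum_mul, ← Finset.sum_add_distrib]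
  rw [e]
  refine Finset.sum_congr rfl fun c _ => ?_
  ring

theorem cacc_aux_re (β : ℝ) (Y μ : ℂ) :
    β ^ 2 * ‖μ‖ ^ 2 ≤ 2 * (2 * (β : ℂ) * Y * conj μ + (β : ℂ) ^ 2 * (μ * conj μ)).re +
      4 * ‖Y‖ ^ 2 := by
  rw [Complex.sq_norm, Complex.sq_norm, Complex.normSq_apply, Complex.normSq_apply]
  simp only [Complex.add_re, Complex.mul_re, Complex.mul_im, Complex.conj_re, Complex.conj_im,
    Complex.ofReal_re, Complex.ofReal_im, sq, Complex.re_ofNat, Complex.im_ofNat]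
  nlinarith [sq_nonneg (β * μ.re + 2 * Y.re), sq_nonneg (β * μ.im + 2 * Y.im)]

theorem cacc_aux_minor0 (g : C2 → Fin m → ℂ) (t : C2) (a : Fin m) :
    minor g t (Sum.inl 0) (Sum.inr a) = fderiv ℂ g t (e2 1) a := by
  simp [minor, crd, tg, e2]

theorem cacc_aux_minor1 (g : C2 → Fin m → ℂ) (t : C2) (a : Fin m) :
    minor g t (Sum.inl 1) (Sum.inr a) = -fderiv ℂ g t (e2 0) a := by
  simp [minor, crd, tg, e2]

theorem cacc_aux_minor_le (g : C2 → Fin m → ℂ) (t : C2) (i : Fin 2) (a : Fin m) :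
    ‖minor g t (Sum.inl i) (Sum.inr a)‖ ≤ ‖fderiv ℂ g t‖ := by
  have h : ∀ k : Fin 2, ‖fderiv ℂ g t (e2 k) a‖ ≤ ‖fderiv ℂ g t‖ := fun k => by
    refine (norm_le_pi_norm _ a).trans (((fderiv ℂ g t).le_opNorm _).trans (le_of_eq ?_))
    rw [e2, Pi.norm_single, norm_one, mul_one]
  fin_cases i
  · exact (cacc_aux_minor0 g t a).symm ▸ h 1
  · have := h 0
    rw [← norm_neg, ← cacc_aux_minor1] at this
    exact this

theorem cacc_aux_wedge (g : C2 → Fin m → ℂ) (t : C2) :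
    wedge2 (fderiv ℂ g t (e2 0)) (fderiv ℂ g t (e2 1)) =
      ∑ a, ∑ b, ‖minor g t (Sum.inr a) (Sum.inr b)‖ ^ 2 := rfl

theorem cacc_aux_wedge_nonneg (u v : Fin m → ℂ) : 0 ≤ wedge2 u v :=
  Finset.sum_nonneg fun _ _ => Finset.sum_nonneg fun _ _ => sq_nonneg _

theorem cacc_aux_vd (g : C2 → Fin m → ℂ) (t : C2) :
    vd g t = 2 + 2 * ∑ j : Fin 2, ∑ a : Fin m, ‖minor g t (Sum.inl j) (Sum.inr a)‖ ^ 2 +
      wedge2 (fderiv ℂ g t (e2 0)) (fderiv ℂ g t (e2 1)) := by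
  rw [vd_eq]
  simp only [Fin.sum_univ_two, cacc_aux_minor0, cacc_aux_minor1, norm_neg]
  ring

theorem cacc_aux_bdd {V : Type} [NormedAddCommGroup V] [NormedSpace ℝ V] {φ : V → ℝ}
    (hφ : ContDiff ℝ ∞ φ) (hc : HasCompactSupport φ) :
    ∃ B : ℝ, 0 ≤ B ∧ (∀ x, |φ x| ≤ B) ∧ (∀ x, ‖fderiv ℝ (fun y => (φ y : ℂ)) x‖ ≤ B) ∧
      ∀ x ∈ tsupport φ, ‖x‖ ≤ B := by
  obtain ⟨B1, h1⟩ := hφ.continuous.bounded_above_of_compact_support hc
  have hc' : HasCompactSupport fun y => (φ y : ℂ) := hc.comp_left Complex.ofReal_zero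
  obtain ⟨B2, h2⟩ := ((cacc_aux_ofReal hφ).continuous_fderiv
    (by simp)).bounded_above_of_compact_support (hc'.fderiv ℝ)
  obtain ⟨B3, h3⟩ := hc.isCompact.isBounded.exists_norm_le
  refine ⟨max 0 (max B1 (max B2 B3)), le_max_left _ _, fun x => ?_, fun x => ?_, fun x hx => ?_⟩
  · exact (h1 x).trans (by simp)
  · exact (h2 x).trans (by simp)
  · exact (h3 x hx).trans (by simp)

theorem cacc_aux_fd0 {V : Type} [NormedAddCommGroup V] [NormedSpace ℝ V] {φ : V → ℝ}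
    (hφ : ContDiff ℝ ∞ φ) {x : V} (h : fderiv ℝ φ x = 0) :
    fderiv ℝ (fun y => (φ y : ℂ)) x = 0 := by
  have := (Complex.ofRealCLM.hasFDerivAt.comp x
    (hφ.differentiable (by simp) x).hasFDerivAt).fderiv
  rw [h, ContinuousLinearMap.comp_zero] at this
  exact this

theorem cacc_aux_out {V : Type} [NormedAddCommGroup V] [NormedSpace ℝ V] {φ : V → ℝ} {x : V}
    (h : x ∉ tsupport φ) : φ x = 0 ∧ fderiv ℝ φ x = 0 :=
  ⟨image_eq_zero_of_notMem_tsupport h, fderiv_of_notMem_tsupport ℝ h⟩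

theorem cacc_aux_X_eq {χ : C2 → ℝ} {ϱ : (Fin m → ℂ) → ℝ} (hχ : ContDiff ℝ ∞ χ)
    (hϱ : ContDiff ℝ ∞ ϱ) (g : C2 → Fin m → ℂ) (t : C2) (a : Fin m) :
    cacc_aux_X χ ϱ g t a =
      ∑ i : Fin 2, dH (fun x => (χ x : ℂ)) t (Pi.single i 1) * (ϱ (g t) : ℂ) *
          minor g t (Sum.inl i) (Sum.inr a) +
        ∑ i : Fin m, (χ t : ℂ) * dH (fun x => (ϱ x : ℂ)) (g t) (Pi.single i 1) *
          minor g t (Sum.inr i) (Sum.inr a) := by
  unfold cacc_aux_X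
  rw [Fintype.sum_sum_type]
  simp only [cacc_aux_dH_be hχ hϱ, bas, Sum.elim_inl, Sum.elim_inr]
  have z1 : dH (fun x => (χ x : ℂ)) t 0 = 0 := by simp [dH]
  have z2 : dH (fun x => (ϱ x : ℂ)) (g t) 0 = 0 := by simp [dH]
  simp only [z1, z2, mul_zero, zero_mul, add_zero, zero_add]

open Classical in
theorem cacc_aux_X_le {χ : C2 → ℝ} {ϱ : (Fin m → ℂ) → ℝ} (hχ : ContDiff ℝ ∞ χ)
    (hχc : HasCompactSupport χ) (hϱ : ContDiff ℝ ∞ ϱ) (hϱc : HasCompactSupport ϱ) (M : ℝ) :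
    ∃ C : ℝ, 0 ≤ C ∧ ∀ (g : C2 → Fin m → ℂ) (t : C2),
      (fderiv ℝ χ t ≠ 0 → g t ∈ tsupport ϱ → ‖fderiv ℂ g t‖ ≤ M) → ∀ (j : Fin 2) (a : Fin m),
        ‖t j * cacc_aux_X χ ϱ g t a‖ ^ 2 ≤ C * ((if t ∈ tsupport χ then 1 else 0) +
          if g t ∈ tsupport ϱ then
            χ t ^ 2 * wedge2 (fderiv ℂ g t (e2 0)) (fderiv ℂ g t (e2 1)) else 0) := by
  obtain ⟨B, hB, b1, b2, b3⟩ := cacc_aux_bdd hχ hχc
  obtain ⟨D, hD, d1, d2, -⟩ := cacc_aux_bdd hϱ hϱc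
  refine ⟨2 * B ^ 2 * ((2 * (B * D * |M|)) ^ 2 + m * D ^ 2), by positivity,
    fun g t hM j a => ?_⟩
  set w := wedge2 (fderiv ℂ g t (e2 0)) (fderiv ℂ g t (e2 1)) with hw
  have hw0 : 0 ≤ w := cacc_aux_wedge_nonneg _ _
  rw [cacc_aux_X_eq hχ hϱ]
  by_cases ht : t ∈ tsupport χ
  swap
  · have z : ∀ u, dH (fun x => (χ x : ℂ)) t u = 0 := fun u => by
      simp [dH, cacc_aux_fd0 hχ (cacc_aux_out ht).2]
    simp only [z, (cacc_aux_out ht).1, Complex.ofReal_zero, zero_mul, Finset.sum_const_zero,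
      add_zero, mul_zero, norm_zero]
    rw [zero_pow two_ne_zero]
    split_ifs <;> positivity
  by_cases hg : g t ∈ tsupport ϱ
  swap
  · have z : ∀ u, dH (fun x => (ϱ x : ℂ)) (g t) u = 0 := fun u => by
      simp [dH, cacc_aux_fd0 hϱ (cacc_aux_out hg).2]
    simp only [z, (cacc_aux_out hg).1, Complex.ofReal_zero, zero_mul, Finset.sum_const_zero,
      add_zero, mul_zero, norm_zero]
    rw [zero_pow two_ne_zero]
    rw [if_pos ht, if_neg hg]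
    positivity
  rw [if_pos ht, if_pos hg]
  set X1 := ∑ i : Fin 2, dH (fun x => (χ x : ℂ)) t (Pi.single i 1) * (ϱ (g t) : ℂ) *
    minor g t (Sum.inl i) (Sum.inr a) with hX1
  set X2 := ∑ i : Fin m, (χ t : ℂ) * dH (fun x => (ϱ x : ℂ)) (g t) (Pi.single i 1) *
    minor g t (Sum.inr i) (Sum.inr a) with hX2
  have n1 : ‖X1‖ ≤ 2 * (B * D * |M|) := by
    by_cases h0 : fderiv ℝ χ t = 0
    · have z : ∀ u, dH (fun x => (χ x : ℂ)) t u = 0 := fun u => by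
        simp [dH, cacc_aux_fd0 hχ h0]
      simp only [hX1, z, zero_mul, Finset.sum_const_zero, norm_zero]
      positivity
    have hM' := (hM h0 hg).trans (le_abs_self M)
    refine (norm_sum_le _ _).trans ((Finset.sum_le_sum (g := fun _ => B * D * |M|)
      fun i _ => ?_).trans (by simp))
    rw [norm_mul, norm_mul, Complex.norm_real, Real.norm_eq_abs]
    have k1 : ‖dH (fun x => (χ x : ℂ)) t (Pi.single i 1)‖ ≤ B := by
      refine (norm_dH_le _ _ _).trans ?_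
      rw [Pi.norm_single, norm_one, mul_one]
      exact b2 t
    exact mul_le_mul (mul_le_mul k1 (d1 _) (abs_nonneg _) hB)
      ((cacc_aux_minor_le g t i a).trans hM') (norm_nonneg _) (by positivity)
  have n2 : ‖X2‖ ≤ |χ t| * D * ∑ i : Fin m, ‖minor g t (Sum.inr i) (Sum.inr a)‖ := by
    rw [Finset.mul_sum]
    refine (norm_sum_le _ _).trans (Finset.sum_le_sum fun i _ => ?_)
    rw [norm_mul, norm_mul, Complex.norm_real, Real.norm_eq_abs]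
    have k1 : ‖dH (fun x => (ϱ x : ℂ)) (g t) (Pi.single i 1)‖ ≤ D := by
      refine (norm_dH_le _ _ _).trans ?_
      rw [Pi.norm_single, norm_one, mul_one]
      exact d2 _
    exact mul_le_mul_of_nonneg_right (mul_le_mul_of_nonneg_left k1 (abs_nonneg _)) (norm_nonneg _)
  have n3 : (∑ i : Fin m, ‖minor g t (Sum.inr i) (Sum.inr a)‖) ^ 2 ≤ m * w := by
    refine sq_sum_le_card_mul_sum_sq.trans ?_
    rw [Finset.card_univ, Fintype.card_fin, hw, cacc_aux_wedge]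
    refine mul_le_mul_of_nonneg_left (Finset.sum_le_sum fun i _ => ?_) (by positivity)
    exact Finset.single_le_sum (f := fun b => ‖minor g t (Sum.inr i) (Sum.inr b)‖ ^ 2)
      (fun _ _ => sq_nonneg _) (Finset.mem_univ a)
  have n4 : ‖X2‖ ^ 2 ≤ m * D ^ 2 * (χ t ^ 2 * w) := by
    refine (pow_le_pow_left₀ (norm_nonneg _) n2 2).trans ?_
    rw [mul_pow, mul_pow, sq_abs]
    calc χ t ^ 2 * D ^ 2 * (∑ i : Fin m, ‖minor g t (Sum.inr i) (Sum.inr a)‖) ^ 2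
        ≤ χ t ^ 2 * D ^ 2 * (m * w) := mul_le_mul_of_nonneg_left n3 (by positivity)
      _ = _ := by ring
  have n5 : ‖X1‖ ^ 2 ≤ (2 * (B * D * |M|)) ^ 2 := pow_le_pow_left₀ (norm_nonneg _) n1 2
  have n6 : ‖t j‖ ^ 2 ≤ B ^ 2 :=
    pow_le_pow_left₀ (norm_nonneg _) ((norm_le_pi_norm t j).trans (b3 t ht)) 2
  have n7 : ‖X1 + X2‖ ^ 2 ≤ 2 * (‖X1‖ ^ 2 + ‖X2‖ ^ 2) := by
    refine (pow_le_pow_left₀ (norm_nonneg _) (norm_add_le X1 X2) 2).trans ?_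
    nlinarith [sq_nonneg (‖X1‖ - ‖X2‖)]
  rw [norm_mul, mul_pow]
  set P := (2 * (B * D * |M|)) ^ 2
  set Q := (m : ℝ) * D ^ 2
  set R := χ t ^ 2 * w
  have hP : 0 ≤ P := sq_nonneg _
  have hQ : 0 ≤ Q := by positivity
  have hR : 0 ≤ R := by positivity
  calc ‖t j‖ ^ 2 * ‖X1 + X2‖ ^ 2 ≤ B ^ 2 * (2 * (P + Q * R)) :=
        mul_le_mul n6 (n7.trans (by linarith)) (sq_nonneg _) (sq_nonneg _)
    _ ≤ B ^ 2 * (2 * ((P + Q) * (1 + R))) := by
        refine mul_le_mul_of_nonneg_left ?_ (sq_nonneg _)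
        nlinarith [mul_nonneg hP hR]
    _ = _ := by ring

open Classical in
theorem cacc_aux_pt {χ : C2 → ℝ} {ϱ : (Fin m → ℂ) → ℝ} (hχ : ContDiff ℝ ∞ χ)
    (hχc : HasCompactSupport χ) (hϱ : ContDiff ℝ ∞ ϱ) (hϱc : HasCompactSupport ϱ) (M : ℝ) :
    ∃ C : ℝ, 0 ≤ C ∧ ∀ (g : C2 → Fin m → ℂ) (t : C2),
      (fderiv ℝ χ t ≠ 0 → g t ∈ tsupport ϱ → ‖fderiv ℂ g t‖ ≤ M) →
        (χ t * ϱ (g t)) ^ 2 * vd g t ≤
          4 * ∑ j, ∑ a, (cacc_aux_F χ ϱ g j a t).re + C * ((if t ∈ tsupport χ then 1 else 0) +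
          if g t ∈ tsupport ϱ then
            χ t ^ 2 * wedge2 (fderiv ℂ g t (e2 0)) (fderiv ℂ g t (e2 1)) else 0) := by
  obtain ⟨C, hC, h⟩ := cacc_aux_X_le hχ hχc hϱ hϱc M
  obtain ⟨B, hB, b1, -, -⟩ := cacc_aux_bdd hχ hχc
  obtain ⟨D, hD, d1, -, -⟩ := cacc_aux_bdd hϱ hϱc
  refine ⟨16 * m * C + (2 * B ^ 2 * D ^ 2 + D ^ 2), by positivity, fun g t hM => ?_⟩
  have h1 := h g t hM
  set w := wedge2 (fderiv ℂ g t (e2 0)) (fderiv ℂ g t (e2 1)) with hw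
  have hw0 : 0 ≤ w := cacc_aux_wedge_nonneg _ _
  set P : ℝ := if t ∈ tsupport χ then 1 else 0 with hP
  set Q : ℝ := if g t ∈ tsupport ϱ then χ t ^ 2 * w else 0 with hQ
  have hP0 : 0 ≤ P := by rw [hP]; split_ifs <;> positivity
  have hQ0 : 0 ≤ Q := by rw [hQ]; split_ifs <;> positivity
  have q1 : χ t ^ 2 ≤ B ^ 2 := sq_le_sq' (abs_le.1 (b1 t)).1 (abs_le.1 (b1 t)).2
  have q2 : ϱ (g t) ^ 2 ≤ D ^ 2 := sq_le_sq' (abs_le.1 (d1 _)).1 (abs_le.1 (d1 _)).2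
  have k1 : (χ t * ϱ (g t)) ^ 2 ≤ B ^ 2 * D ^ 2 * P := by
    rw [hP]
    split_ifs with ht
    · rw [mul_pow, mul_one]
      exact mul_le_mul q1 q2 (sq_nonneg _) (sq_nonneg _)
    · simp [(cacc_aux_out ht).1]
  have k2 : (χ t * ϱ (g t)) ^ 2 * w ≤ D ^ 2 * Q := by
    rw [hQ]
    split_ifs with ht
    · calc (χ t * ϱ (g t)) ^ 2 * w = ϱ (g t) ^ 2 * (χ t ^ 2 * w) := by ring
        _ ≤ _ := mul_le_mul_of_nonneg_right q2 (by positivity)
    · simp [(cacc_aux_out ht).1]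
  have k3 : ∀ j a, (χ t * ϱ (g t)) ^ 2 * ‖minor g t (Sum.inl j) (Sum.inr a)‖ ^ 2 ≤
      2 * (cacc_aux_F χ ϱ g j a t).re + 4 * (C * (P + Q)) := fun j a => by
    have e : cacc_aux_be χ ϱ (t, g t) = ((χ t * ϱ (g t) : ℝ) : ℂ) := by
      simp [cacc_aux_be]
    rw [cacc_aux_F_eq hχ hϱ, e]
    refine (cacc_aux_re _ (t j * cacc_aux_X χ ϱ g t a) _).trans ?_
    linarith [h1 j a]
  have k4 : (χ t * ϱ (g t)) ^ 2 * ∑ j : Fin 2, ∑ a : Fin m,
      ‖minor g t (Sum.inl j) (Sum.inr a)‖ ^ 2 ≤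
      2 * ∑ j, ∑ a, (cacc_aux_F χ ϱ g j a t).re + 8 * m * (C * (P + Q)) := by
    simp only [Finset.mul_sum]
    refine (Finset.sum_le_sum fun j _ => Finset.sum_le_sum fun a _ => k3 j a).trans (le_of_eq ?_)
    simp only [Finset.sum_add_distrib, Finset.sum_const, Finset.card_univ, Fintype.card_fin,
      nsmul_eq_mul]
    push_cast
    ring
  rw [cacc_aux_vd, ← hw]
  have p1 : 0 ≤ B ^ 2 * D ^ 2 * Q := by positivity
  have p2 : 0 ≤ D ^ 2 * P := by positivity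
  nlinarith

theorem cacc_aux_int {χ : C2 → ℝ} {ϱ : (Fin m → ℂ) → ℝ} (hχ : ContDiff ℝ ∞ χ)
    (hχc : HasCompactSupport χ) (hϱ : ContDiff ℝ ∞ ϱ) (hϱc : HasCompactSupport ϱ)
    {Z W : Set (C2 × (Fin m → ℂ))} {O : Set C2} {g : C2 → Fin m → ℂ} (hG : GS Z W O g)
    (hs : tsupport χ ×ˢ tsupport ϱ ⊆ W) (j : Fin 2) (a : Fin m) :
    IntegrableOn (fun t => (cacc_aux_F χ ϱ g j a t).re) O ∧
      ∫ t in O, (cacc_aux_F χ ϱ g j a t).re = 0 := by
  have hb := cacc_aux_b_smooth hχ hϱ j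
  have hsb := cacc_aux_supp χ ϱ j
  have hc : HasCompactSupport (cacc_aux_b χ ϱ j) :=
    (hχc.isCompact.prod hϱc.isCompact).of_isClosed_subset (isClosed_tsupport _) hsb
  have hi : ∀ c : Fin 2 ⊕ Fin m, IntegrableOn (fun t => dH (cacc_aux_b χ ϱ j) (t, g t) (bas c) *
      minor g t c (Sum.inr a) * conj (minor g t (Sum.inl j) (Sum.inr a))) O := fun c => by
    refine st2_int hG (c := fun p => dH (cacc_aux_b χ ϱ j) p (bas c)) ?_ ?_ ?_ _ _ _ _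
    · exact continuous_iff_continuousAt.2 fun p =>
        (contDiffAt_dH (n := 0) (hb.contDiffAt (x := p)) (by simp) _).continuousAt
    · exact hc.isCompact.of_isClosed_subset (isClosed_tsupport _) (tsupport_dH _ _)
    · exact (tsupport_dH _ _).trans (hsb.trans hs)
  have hF : IntegrableOn (cacc_aux_F χ ϱ g j a) O := integrable_finsetSum _ fun c _ => hi c
  have h0 : ∫ t in O, cacc_aux_F χ ϱ g j a t = 0 := by
    rw [← st2 hG (hb.of_le (by simp)) hc (hsb.trans hs) (Sum.inr a) (Sum.inl j) (Sum.inr a)]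
    exact integral_finsetSum _ fun c _ => hi c
  refine ⟨hF.re, ?_⟩
  have := integral_re hF
  rw [h0] at this
  exact this

theorem cacc {m : ℕ} {χ : C2 → ℝ} {ϱ : (Fin m → ℂ) → ℝ} (hχ : ContDiff ℝ ∞ χ)
    (hχc : HasCompactSupport χ) (hϱ : ContDiff ℝ ∞ ϱ) (hϱc : HasCompactSupport ϱ) (M : ℝ) :
    ∃ C : ℝ≥0, ∀ (Z W : Set (C2 × (Fin m → ℂ))) (O : Set C2) (g : C2 → Fin m → ℂ), GS Z W O g →
      tsupport χ ×ˢ tsupport ϱ ⊆ W →
      (∀ t ∈ O, fderiv ℝ χ t ≠ 0 → g t ∈ tsupport ϱ → ‖fderiv ℂ g t‖ ≤ M) →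
      ∫⁻ t in O, ENNReal.ofReal ((χ t * ϱ (g t)) ^ 2 * vd g t) ≤
        C * (1 + ∫⁻ t in O ∩ g ⁻¹' tsupport ϱ,
          ENNReal.ofReal (χ t ^ 2 * wedge2 (fderiv ℂ g t (e2 0)) (fderiv ℂ g t (e2 1)))) := by
  classical
  obtain ⟨C, hC, h⟩ := cacc_aux_pt hχ hχc hϱ hϱc M
  have hv : volume (tsupport χ) ≠ ⊤ := hχc.isCompact.measure_lt_top.ne
  refine ⟨C.toNNReal * (1 + (volume (tsupport χ)).toNNReal), fun Z W O g hG hs hM => ?_⟩
  set S := O ∩ g ⁻¹' tsupport ϱ with hS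
  set w : C2 → ℝ := fun t => χ t ^ 2 * wedge2 (fderiv ℂ g t (e2 0)) (fderiv ℂ g t (e2 1)) with hw
  have hw0 : ∀ t, 0 ≤ w t := fun t => mul_nonneg (sq_nonneg _) (cacc_aux_wedge_nonneg _ _)
  have hO := hG.opO.measurableSet
  have hT := (isClosed_tsupport χ).measurableSet
  have hSm : MeasurableSet S := by
    have ho := hG.hol.continuousOn.isOpen_inter_preimage hG.opO
      (isClosed_tsupport ϱ).isOpen_compl
    have e : S = O \ (O ∩ g ⁻¹' (tsupport ϱ)ᶜ) := by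
      ext t
      simp only [hS, mem_inter_iff, mem_preimage, Set.mem_sdiff, mem_compl_iff]
      tauto
    rw [e]
    exact hO.diff ho.measurableSet
  have hwc : ContinuousOn w O := by
    refine (hχ.continuous.pow 2).continuousOn.mul ?_
    simp only [cacc_aux_wedge]
    exact continuousOn_finsetSum _ fun a _ => continuousOn_finsetSum _ fun b _ =>
      (continuousOn_minor hG.opO hG.hol _ _).norm.pow 2
  have hwm : AEMeasurable w (volume.restrict O) := hwc.aemeasurable hO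
  have m1 : AEMeasurable ((tsupport χ).indicator fun _ => (1 : ℝ)) (volume.restrict O) :=
    (measurable_const.indicator hT).aemeasurable
  have m2 : AEMeasurable (S.indicator w) (volume.restrict O) := hwm.indicator hSm
  have i1 : ∀ t, 0 ≤ (tsupport χ).indicator (fun _ => (1 : ℝ)) t :=
    indicator_nonneg fun _ _ => zero_le_one
  have i2 : ∀ t, 0 ≤ S.indicator w t := indicator_nonneg fun t _ => hw0 t
  have hI := fun j a => cacc_aux_int hχ hχc hϱ hϱc hG hs j a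
  have hI2 : ∀ j, IntegrableOn (fun t => ∑ a, (cacc_aux_F χ ϱ g j a t).re) O := fun j =>
    integrable_finsetSum _ fun a _ => (hI j a).1
  refine (cacc_aux_lint (h := fun t => 4 * ∑ j, ∑ a, (cacc_aux_F χ ϱ g j a t).re)
    (G := fun t => C * ((tsupport χ).indicator (fun _ => (1 : ℝ)) t + S.indicator w t))
    ((integrable_finsetSum _ fun j _ => hI2 j).const_mul 4) ?_ ((m1.add m2).const_mul C)
    (fun t => mul_nonneg hC (add_nonneg (i1 t) (i2 t)))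
    (fun t => mul_nonneg (sq_nonneg _) (vd_nonneg g t)) ?_).trans ?_
  · rw [integral_const_mul, integral_finsetSum _ fun j _ => hI2 j]
    rw [Finset.sum_eq_zero fun j _ => ?_, mul_zero]
    rw [integral_finsetSum _ fun a _ => (hI j a).1]
    exact Finset.sum_eq_zero fun a _ => (hI j a).2
  · refine (ae_restrict_mem hO).mono fun t ht => (h g t (hM t ht)).trans (le_of_eq ?_)
    simp only [indicator_apply, hS, mem_inter_iff, mem_preimage, ht, true_and, hw]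
  · have e : ∀ t, ENNReal.ofReal
        (C * ((tsupport χ).indicator (fun _ => (1 : ℝ)) t + S.indicator w t)) =
        ENNReal.ofReal C * ((tsupport χ).indicator (fun _ => (1 : ℝ≥0∞)) t +
          S.indicator (fun t => ENNReal.ofReal (w t)) t) := fun t => by
      rw [ENNReal.ofReal_mul hC, ENNReal.ofReal_add (i1 t) (i2 t)]
      simp only [indicator_apply]
      split_ifs <;> simp
    simp only [e]
    rw [lintegral_const_mul' _ _ ENNReal.ofReal_ne_top,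
      lintegral_add_left (measurable_const.indicator hT), lintegral_indicator hT,
      lintegral_indicator hSm, Measure.restrict_restrict hSm,
      inter_eq_self_of_subset_left (show S ⊆ O from inter_subset_left), setLIntegral_one,
      ENNReal.coe_mul, ENNReal.coe_add, ENNReal.coe_one, ENNReal.coe_toNNReal hv, mul_assoc]
    refine mul_le_mul_right ?_ _
    rw [mul_add, mul_one]
    exact add_le_add ((Measure.restrict_apply_le _ _).trans le_add_self)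
      (le_mul_of_one_le_left' le_self_add)

end Pool.Agent.Lib.MP_823829_an
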