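import Pool.Agent.Lib.MP_823829_an.MUa
import Pool.Agent.Lib.MP_823829_an.Cacc

/-! Volume bounds for the slices. -/

namespace Pool.Agent.Lib.MP_823829_an

open Set Metric Filter MeasureTheory
open scoped Topology ENNReal NNReal ContDiff ComplexConjugate

theorem bish2a_aux_meas {Y : Type*} [TopologicalSpace Y] {O : Set C2} (hO : IsOpen O)
    {F : C2 → Y} (hF : ContinuousOn F O) {C : Set Y} (hC : IsClosed C) :
    MeasurableSet (O ∩ F ⁻¹' C) := by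
  have h1 : IsOpen (O ∩ F ⁻¹' Cᶜ) := hF.isOpen_inter_preimage hO hC.isOpen_compl
  have h2 : O ∩ F ⁻¹' C = O \ (O ∩ F ⁻¹' Cᶜ) := by
    ext t
    simp only [mem_inter_iff, mem_preimage, Set.mem_sdiff, mem_compl_iff, not_and, not_not]
    tauto
  rw [h2]
  exact hO.measurableSet.diff h1.measurableSet

theorem bish2a_aux_fderiv {m : ℕ} {Φ : C4 → Fin m → ℂ} {g : C2 → Fin m → ℂ} {z w : C2}
    (hΦ : DifferentiableAt ℂ Φ (z, w)) (he : g =ᶠ[𝓝 w] fun w' => Φ (z, w')) :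
    fderiv ℂ g w = (fderiv ℂ Φ (z, w)).comp (ContinuousLinearMap.inr ℂ C2 C2) := by
  rw [he.fderiv_eq]
  exact (hΦ.hasFDerivAt.comp w (hasFDerivAt_prodMk_right z w)).fderiv

variable {X : Type*} [TopologicalSpace X] [T2Space X] [CompactSpace X] [Nonempty X] {m : ℕ}
  {a : Atl X m}

omit [T2Space X] [CompactSpace X] in
theorem bish2a_aux_gf {Γ : Set (C4 × X)} {G : Set (C2 × X)} {z w : C2}
    (hG : Agree G (slice Γ z) {w | (z, w) ∈ reg a Γ}) (hw : (z, w) ∈ reg a Γ) :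
    gf G =ᶠ[𝓝 w] fun w' => gf Γ (z, w') := by
  have h1 : IsOpen {w' : C2 | (z, w') ∈ reg a Γ} :=
    (isOpen_reg Γ).preimage (Continuous.prodMk_right z)
  filter_upwards [h1.mem_nhds hw] with w' hw'
  exact gf_eq fun x => (hG w' hw' x).trans ((graphOn_reg Γ).2 (z, w') hw' x)

omit [CompactSpace X] [Nonempty X] in
theorem bish2a_aux_bound {D P₀ : Set C4} (hD : IsOpen D) {f : C4 → X}
    (hf : ∀ t ∈ D, HolAt a f t) (hP₀ : IsCompact P₀) (hs : P₀ ⊆ D) (i : Fin a.n)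
    {L : Set (Fin m → ℂ)} (hL : IsCompact L) (hLs : L ⊆ (a.e i).target) :
    ∃ M₁ : ℝ, ∀ t ∈ P₀, f t ∈ (a.e i).source → a.e i (f t) ∈ L →
      ‖fderiv ℂ (a.e i ∘ f) t‖ ≤ M₁ := by
  have hc : ContinuousOn f P₀ := fun t ht => (hf t (hs ht)).1.continuousWithinAt
  have hL' : IsCompact ((a.e i).symm '' L) :=
    hL.image_of_continuousOn ((a.e i).continuousOn_symm.mono hLs)
  have hP : IsCompact (P₀ ∩ f ⁻¹' ((a.e i).symm '' L)) :=
    hP₀.of_isClosed_subset (hc.preimage_isClosed_of_isClosed hP₀.isClosed hL'.isClosed)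
      inter_subset_left
  obtain ⟨h1, h2⟩ := holAt_chart hD hf i
  have h3 : P₀ ∩ f ⁻¹' ((a.e i).symm '' L) ⊆ D ∩ f ⁻¹' (a.e i).source := by
    rintro t ⟨ht, y, hy, hyt⟩
    refine ⟨hs ht, ?_⟩
    rw [mem_preimage, ← hyt]
    exact (a.e i).map_target (hLs hy)
  obtain ⟨M₁, hM₁⟩ := hP.exists_bound_of_continuousOn ((hol_fderiv h1 h2).continuousOn.mono h3)
  exact ⟨M₁, fun t ht hi hy => hM₁ t ⟨ht, _, hy, (a.e i).left_inv hi⟩⟩

theorem slice_vol (Ω : Frm a) {V U : Set C2} (hV : IsOpen V) (hU : IsOpen U) (hUV : U ⊆ V)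
    {ρ₁ ρ₂ ρ₃ : ℝ} (h13 : ρ₁ < ρ₃) {χ : C2 → ℝ} (hχ : Cut χ ρ₃ ρ₂) {f : C4 → X}
    (hf : ∀ t ∈ V ×ˢ shell ρ₁ ρ₂, HolAt a f t) {Γ : Set (C4 × X)}
    (ha : Agree Γ (grf f) (U ×ˢ shell ρ₁ ρ₂)) {Kz : Set C2} (hKz : IsCompact Kz) (hKV : Kz ⊆ V)
    (M : ℝ) (i : Fin a.n) {K : Set (C2 × (Fin m → ℂ))} (hK : IsCompact K)
    (hs : K ⊆ ball 0 ρ₃ ×ˢ (a.e i).target) :
    ∃ C : ℝ≥0, ∀ z ∈ Kz ∩ U, ∀ G : Set (C2 × X), MG a (ball 0 ρ₂) G →
      Agree G (slice Γ z) {w | (z, w) ∈ reg a Γ} →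
      volume {w ∈ ball (0 : C2) ρ₂ | (z, w) ∉ reg a Γ} = 0 →
      (Integrable fun w => χ w ^ 2 * fd Ω Γ (z, w)) → mu Ω Γ χ z ≤ M →
        gvol (regI a i G) (a.e i ∘ gf G) K ≤ C := by
  obtain ⟨ϱ, hϱ, hϱc, hϱs, hϱ1, -⟩ := exists_bump (hK.image continuous_snd) (a.e i).open_target
    (by rintro _ ⟨p, hp, rfl⟩; exact (hs hp).2)
  obtain ⟨hS1, hS2⟩ := hχ.subset_shell h13
  obtain ⟨M₁, hM₁⟩ := bish2a_aux_bound (hV.prod (isOpen_shell ρ₁ ρ₂)) hf (hKz.prod hS2)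
    (prod_mono hKV hS1) i hϱc.isCompact hϱs
  obtain ⟨C₁, hC₁⟩ := cacc hχ.smooth hχ.cpt hϱ hϱc M₁
  obtain ⟨C₂, hC₂0, hC₂⟩ := pos_bound (W := Ω.W i) hϱc.isCompact
    (fun u₁ u₂ v₁ v₂ => (Ω.smooth i u₁ u₂ v₁ v₂).continuousOn.mono hϱs) (Ω.altl i) (Ω.altr i)
    fun y hy => Ω.pos i y (hϱs hy)
  refine ⟨C₁ * (1 + C₂.toNNReal * M.toNNReal), ?_⟩
  rintro z ⟨hzK, hzU⟩ G hG hag hnull hint hmu
  have hO : IsOpen (regI a i G) := isOpen_regI i G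
  have hg : ContinuousOn (a.e i ∘ gf G) (regI a i G) := (differentiableOn_regI i G).continuousOn
  have hop : IsOpen (U ×ˢ shell ρ₁ ρ₂) := hU.prod (isOpen_shell ρ₁ ρ₂)
  have hgr : GraphOn a Γ (U ×ˢ shell ρ₁ ρ₂) f :=
    graphOn_of_agree ha fun t ht => hf t ⟨hUV ht.1, ht.2⟩
  have hbd : ∀ t ∈ regI a i G, fderiv ℝ χ t ≠ 0 → (a.e i ∘ gf G) t ∈ tsupport ϱ →
      ‖fderiv ℂ (a.e i ∘ gf G) t‖ ≤ M₁ := by
    intro t ht hd hy
    have htS := hχ.fderiv_mem hd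
    have hzt : (z, t) ∈ U ×ˢ shell ρ₁ ρ₂ := ⟨hzU, hS1 htS⟩
    have h1 : gf G =ᶠ[𝓝 t] fun w' => f (z, w') := by
      have h2 : ∀ᶠ w' in 𝓝 t, (z, w') ∈ U ×ˢ shell ρ₁ ρ₂ :=
        (hop.preimage (Continuous.prodMk_right z)).mem_nhds hzt
      filter_upwards [bish2a_aux_gf hag (hgr.subset_reg hop hzt), h2] with w' h3 h4
      exact h3.trans (gf_eq (hgr.2 _ h4))
    have h5 : gf G t = f (z, t) := h1.eq_of_nhds
    have hi : f (z, t) ∈ (a.e i).source := h5 ▸ ht.2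
    have h6 : (a.e i ∘ gf G) =ᶠ[𝓝 t] fun w' => (a.e i ∘ f) (z, w') := by
      filter_upwards [h1] with w' h using congrArg (a.e i) h
    have h7 := hM₁ (z, t) ⟨hzK, htS⟩ hi (by rw [← h5]; exact hy)
    rw [bish2a_aux_fderiv ((hgr.1 _ hzt).2 i hi) h6]
    refine (ContinuousLinearMap.opNorm_comp_le _ _).trans (le_trans ?_ h7)
    exact mul_le_of_le_one_right (norm_nonneg _) (ContinuousLinearMap.norm_inr_le_one ℂ C2 C2)
  have key := hC₁ _ _ _ _ (hG.gs i) (prod_mono hχ.supp hϱs) hbd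
  have hA : gvol (regI a i G) (a.e i ∘ gf G) K ≤ ∫⁻ t in regI a i G, ENNReal.ofReal
      ((χ t * ϱ ((a.e i ∘ gf G) t)) ^ 2 * vd (a.e i ∘ gf G) t) := by
    have hm : MeasurableSet (regI a i G ∩ {t | (t, (a.e i ∘ gf G) t) ∈ K}) :=
      bish2a_aux_meas hO (continuousOn_id.prodMk hg) hK.isClosed
    refine le_trans (le_of_eq ?_) (lintegral_mono_set
      (inter_subset_left (t := {t | (t, (a.e i ∘ gf G) t) ∈ K})))
    refine setLIntegral_congr_fun hm fun t ht => ?_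
    have h1 : χ t = 1 := hχ.one t (hs ht.2).1
    have h2 : ϱ ((a.e i ∘ gf G) t) = 1 := hϱ1 _ ⟨_, ht.2, rfl⟩
    simp only [h1, h2, one_mul, one_pow]
  have hB : ∫⁻ t in regI a i G ∩ (a.e i ∘ gf G) ⁻¹' tsupport ϱ, ENNReal.ofReal (χ t ^ 2 *
      wedge2 (fderiv ℂ (a.e i ∘ gf G) t (e2 0)) (fderiv ℂ (a.e i ∘ gf G) t (e2 1))) ≤
      ENNReal.ofReal C₂ * ENNReal.ofReal M := by
    have hm : MeasurableSet (regI a i G ∩ (a.e i ∘ gf G) ⁻¹' tsupport ϱ) :=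
      bish2a_aux_meas hO hg (isClosed_tsupport ϱ)
    have hae : ∀ᵐ t : C2, t ∈ ball (0 : C2) ρ₂ → (z, t) ∈ reg a Γ := by
      rw [ae_iff]
      simpa only [Classical.not_imp] using hnull
    have hnn : ∀ w, 0 ≤ χ w ^ 2 * fd Ω Γ (z, w) := fun w =>
      mul_nonneg (sq_nonneg _) (fd_nonneg Ω Γ _)
    calc _ ≤ ∫⁻ t in regI a i G ∩ (a.e i ∘ gf G) ⁻¹' tsupport ϱ,
          ENNReal.ofReal C₂ * ENNReal.ofReal (χ t ^ 2 * fd Ω Γ (z, t)) := by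
          refine lintegral_mono_ae ?_
          filter_upwards [ae_restrict_mem hm, ae_restrict_of_ae hae] with t ht hr
          have hreg : (z, t) ∈ reg a Γ := hr (reg_subset hG.an.1 ht.1.1)
          have h1 := bish2a_aux_gf hag hreg
          have h5 : gf G t = gf Γ (z, t) := h1.eq_of_nhds
          have hi : gf Γ (z, t) ∈ (a.e i).source := h5 ▸ ht.1.2
          have hh : HolAt a (gf Γ) (z, t) := (graphOn_reg Γ).1 _ hreg
          have h6 : (a.e i ∘ gf G) =ᶠ[𝓝 t] fun w' => (a.e i ∘ gf Γ) (z, w') := by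
            filter_upwards [h1] with w' h using congrArg (a.e i) h
          have h7 := hC₂ (a.e i (gf Γ (z, t))) (by rw [← h5]; exact ht.2)
            (fderiv ℂ (a.e i ∘ gf Γ) (z, t) (0, e2 0)) (fderiv ℂ (a.e i ∘ gf Γ) (z, t) (0, e2 1))
          rw [← pb_eq Ω i hh hi] at h7
          have h8 : fd Ω Γ (z, t) =
              (pb Ω (gf Γ) (z, t) (0, e2 0) (0, e2 1) (0, e2 0) (0, e2 1)).re :=
            indicator_of_mem hreg _
          rw [← ENNReal.ofReal_mul hC₂0, bish2a_aux_fderiv (hh.2 i hi) h6, h8]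
          refine ENNReal.ofReal_le_ofReal ?_
          rw [mul_left_comm]
          exact mul_le_mul_of_nonneg_left h7 (sq_nonneg _)
      _ ≤ ∫⁻ t, ENNReal.ofReal C₂ * ENNReal.ofReal (χ t ^ 2 * fd Ω Γ (z, t)) :=
          setLIntegral_le_lintegral _ _
      _ = ENNReal.ofReal C₂ * ENNReal.ofReal (mu Ω Γ χ z) := by
          rw [lintegral_const_mul' _ _ ENNReal.ofReal_ne_top,
            ← ofReal_integral_eq_lintegral_ofReal hint (Eventually.of_forall hnn)]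
          rfl
      _ ≤ _ := by gcongr
  refine hA.trans (key.trans ?_)
  push_cast
  gcongr
  exact hB

end Pool.Agent.Lib.MP_823829_an
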