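import Pool.Agent.Lib.MP_823829_an.SFb

/-! Eilenberg type inequalities. -/

namespace Pool.Agent.Lib.MP_823829_an

open Set Metric Filter MeasureTheory
open scoped Topology ENNReal NNReal ContDiff ComplexConjugate

variable {A Y : Type} [MetricSpace A] [MeasurableSpace A] [BorelSpace A] [MetricSpace Y]
  [MeasurableSpace Y] [BorelSpace Y]

omit [MetricSpace Y] [BorelSpace Y] in
theorem eil_aux_null {ν : Measure Y} {g : Y → ℝ≥0∞}
    (h : ∀ l : ℝ≥0∞, 0 < l → l * ν {y | l ≤ g y} ≤ 0) : ∀ᵐ y ∂ν, g y = 0 := by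
  have h1 : ∀ k : ℕ, ν {y | ((k : ℝ≥0∞))⁻¹ ≤ g y} = 0 := fun k =>
    (mul_eq_zero.1 (le_antisymm (h _ (by simp)) zero_le)).resolve_left (by simp)
  refine measure_mono_null (fun y hy => ?_) (measure_iUnion_null h1)
  obtain ⟨k, hk⟩ := ENNReal.exists_inv_nat_lt hy
  exact mem_iUnion.2 ⟨k, hk.le⟩

theorem eil_aux_core {s n : ℝ} (hs : 0 < s) (hn : 0 < n) {S : Set A} {b : ℝ≥0∞}
    (hS : μH[s + n] S < b) {Ψ : A → Y} {K : ℝ≥0} (hΨ : LipschitzOnWith K Ψ S) (ν : Measure Y)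
    {c : ℝ≥0} {δ : ℝ} (hδ : 0 < δ)
    (hν : ∀ y r, 0 < r → r < δ → ν (closedBall y r) ≤ c * ENNReal.ofReal (r ^ n)) (l : ℝ≥0∞) :
    l * ν {y | l ≤ μH[s] (S ∩ Ψ ⁻¹' {y})} ≤ c * ENNReal.ofReal (((K : ℝ) + 1) ^ n) * b := by
  classical
  have hK : (0 : ℝ) < K + 1 := by positivity
  let r : ℕ → ℝ := fun i => δ / (K + 1) / 2 * (1 / ((i : ℝ) + 1))
  have hr : ∀ i, 0 < r i := fun i => by positivity
  have hc : ∀ i, ∃ t : ℕ → Set A, S ⊆ ⋃ k, t k ∧ (∀ k, ediam (t k) ≤ ENNReal.ofReal (r i)) ∧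
      ∑' k, ediam (t k) ^ (s + n) < b := fun i => by
    rw [Measure.hausdorffMeasure_apply] at hS
    have h2 := (le_iSup₂_of_le (ENNReal.ofReal (r i)) (by simpa using hr i) le_rfl).trans_lt hS
    simp only [iInf_lt_iff] at h2
    obtain ⟨t, ht, hd, hl⟩ := h2
    refine ⟨t, ht, hd, lt_of_le_of_lt (ENNReal.tsum_le_tsum fun k => ?_) hl⟩
    rcases (t k).eq_empty_or_nonempty with h0 | h0
    · simp [h0, add_pos hs hn]
    · simp [h0]
  choose t ht hd hl using hc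
  let C : ℕ → ℕ → Set Y := fun i k => closure (Ψ '' (t i k ∩ S))
  let G : ℕ → Y → ℝ≥0∞ := fun i y => ∑' k, (C i k).indicator (fun _ => ediam (t i k) ^ s) y
  have hm : ∀ i k, Measurable ((C i k).indicator fun _ : Y => ediam (t i k) ^ s) := fun i k =>
    measurable_const.indicator isClosed_closure.measurableSet
  have hG : ∀ i, ∫⁻ y, G i y ∂ν ≤ c * ENNReal.ofReal (((K : ℝ) + 1) ^ n) * b := fun i => by
    rw [lintegral_tsum fun k => (hm i k).aemeasurable]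
    refine le_trans (ENNReal.tsum_le_tsum fun k => ?_)
      (ENNReal.tsum_mul_left.le.trans (mul_le_mul' le_rfl (hl i).le))
    rw [lintegral_indicator_const isClosed_closure.measurableSet]
    rcases eq_or_ne (ediam (t i k)) 0 with h0 | h0
    · simp [h0, hs]
    rcases (t i k ∩ S).eq_empty_or_nonempty with h1 | ⟨x, hx⟩
    · simp [C, h1]
    have hfin : ediam (t i k) ≠ ⊤ := ne_top_of_le_ne_top (by simp) (hd i k)
    have hp : 0 < diam (t i k) := ENNReal.toReal_pos h0 hfin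
    have hle : diam (t i k) ≤ r i := diam_le_of_forall_dist_le (hr i).le fun x hx y hy =>
      (edist_le_ofReal (hr i).le).1 ((edist_le_ediam_of_mem hx hy).trans (hd i k))
    have h2 : C i k ⊆ closedBall (Ψ x) ((K + 1) * diam (t i k)) := by
      refine closure_minimal ?_ isClosed_closedBall
      rintro _ ⟨y, hy, rfl⟩
      have h3 := dist_le_diam_of_mem (isBounded_iff_ediam_ne_top.2 hfin) hy.1 hx.1
      exact (hΨ.dist_le_mul y hy.2 x hx.2).trans (by gcongr; linarith)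
    have h3 : (K + 1) * diam (t i k) < δ := by
      have h4 : r i ≤ δ / (K + 1) / 2 := mul_le_of_le_one_right (by positivity)
        (by rw [div_le_one (by positivity)]; linarith [Nat.cast_nonneg (α := ℝ) i])
      rw [← lt_div_iff₀' hK]
      linarith [div_pos hδ hK]
    refine (mul_le_mul' le_rfl ((measure_mono h2).trans (hν _ _ (by positivity) h3))).trans
      (le_of_eq ?_)
    rw [Real.mul_rpow hK.le hp.le, ENNReal.ofReal_mul (by positivity),
      ← ENNReal.ofReal_rpow_of_pos hp, diam, ENNReal.ofReal_toReal hfin,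
      ENNReal.rpow_add_of_nonneg _ _ hs.le hn.le]
    ring
  have hGm : ∀ i, Measurable (G i) := fun i => Measurable.tsum (hm i)
  have hr0 : Tendsto (fun i => ENNReal.ofReal (r i)) atTop (𝓝 0) := by
    have h0 := ENNReal.tendsto_ofReal
      (tendsto_one_div_add_atTop_nhds_zero_nat.const_mul (δ / (K + 1) / 2))
    rwa [mul_zero, ENNReal.ofReal_zero] at h0
  have h1 : ∀ y, μH[s] (S ∩ Ψ ⁻¹' {y}) ≤ liminf (fun i => G i y) atTop := fun y => by
    refine (Measure.hausdorffMeasure_le_liminf_tsum s _ _ hr0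
      (fun i k => if y ∈ C i k then t i k else ∅) (Eventually.of_forall fun i k => ?_)
      (Eventually.of_forall fun i x hx => ?_)).trans (le_of_eq ?_)
    · split_ifs
      · exact hd i k
      · simp
    · obtain ⟨k, hk⟩ := mem_iUnion.1 (ht i hx.1)
      have : y ∈ C i k := subset_closure ⟨x, ⟨hk, hx.1⟩, hx.2⟩
      exact mem_iUnion.2 ⟨k, by simpa [this] using hk⟩
    · congr 1
      funext i
      refine tsum_congr fun k => ?_
      by_cases h : y ∈ C i k <;> simp [h, hs]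
  refine (mul_le_mul' le_rfl (measure_mono fun y hy => le_trans hy (h1 y))).trans
    ((mul_meas_ge_le_lintegral (Measurable.liminf hGm) l).trans ((lintegral_liminf_le hGm).trans ?_))
  exact liminf_le_of_frequently_le' (Frequently.of_forall hG)

theorem eil1 {s n : ℝ} (hs : 0 < s) (hn : 0 < n) {S : Set A} (hS : μH[s + n] S = 0) {Ψ : A → Y}
    {K : ℝ≥0} (hΨ : LipschitzOnWith K Ψ S) (ν : Measure Y) {c : ℝ≥0} {δ : ℝ} (hδ : 0 < δ)
    (hν : ∀ y r, 0 < r → r < δ → ν (closedBall y r) ≤ c * ENNReal.ofReal (r ^ n)) :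
    ∀ᵐ y ∂ν, μH[s] (S ∩ Ψ ⁻¹' {y}) = 0 := by
  refine eil_aux_null fun l hl => ?_
  have h1 : Tendsto (fun b : ℝ≥0∞ => (c : ℝ≥0∞) * ENNReal.ofReal (((K : ℝ) + 1) ^ n) * b)
      (𝓝[>] 0) (𝓝 0) := by
    simpa using (ENNReal.Tendsto.const_mul (tendsto_id (x := 𝓝 (0 : ℝ≥0∞)))
      (Or.inr (ENNReal.mul_ne_top (by simp) (by simp) :
        (c : ℝ≥0∞) * ENNReal.ofReal (((K : ℝ) + 1) ^ n) ≠ ⊤))).mono_left nhdsWithin_le_nhds
  exact ge_of_tendsto h1 (eventually_nhdsWithin_of_forall fun b hb =>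
    eil_aux_core hs hn (hS.trans_lt hb) hΨ ν hδ hν l)

theorem eil2 {s n : ℝ} (hs : 0 < s) (hn : 0 < n) {S : Set A} (hS : SF (s + n) S) {Ψ : A → Y}
    {K : ℝ≥0} (hΨ : LipschitzOnWith K Ψ S) (ν : Measure Y)
    (hν : ∀ c : ℝ≥0, 0 < c → ∃ δ : ℝ, 0 < δ ∧
      ∀ y r, 0 < r → r < δ → ν (closedBall y r) ≤ c * ENNReal.ofReal (r ^ n)) :
    ∀ᵐ y ∂ν, μH[s] (S ∩ Ψ ⁻¹' {y}) = 0 := by
  obtain ⟨t, h1, h2⟩ := hS
  have h3 : ∀ k, ∀ᵐ y ∂ν, μH[s] ((S ∩ t k) ∩ Ψ ⁻¹' {y}) = 0 := fun k => by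
    refine eil_aux_null fun l hl => ?_
    have h4 : Tendsto (fun c : ℝ≥0 => (c : ℝ≥0∞) * (ENNReal.ofReal (((K : ℝ) + 1) ^ n)
        * (μH[s + n] (t k) + 1))) (𝓝[>] 0) (𝓝 0) := by
      simpa using (ENNReal.Tendsto.mul_const (ENNReal.continuous_coe.tendsto 0)
        (Or.inr (ENNReal.mul_ne_top (by simp) (by simp [(h2 k).ne]) :
          ENNReal.ofReal (((K : ℝ) + 1) ^ n) * (μH[s + n] (t k) + 1) ≠ ⊤))).mono_left
            nhdsWithin_le_nhds
    refine ge_of_tendsto h4 (eventually_nhdsWithin_of_forall fun c hc => ?_)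
    obtain ⟨δ, hδ, h5⟩ := hν c hc
    rw [← mul_assoc]
    exact eil_aux_core hs hn ((measure_mono inter_subset_right).trans_lt
      (ENNReal.lt_add_right (h2 k).ne one_ne_zero)) (hΨ.mono inter_subset_left) ν hδ h5 l
  filter_upwards [ae_all_iff.2 h3] with y hy
  refine measure_mono_null (fun x hx => ?_) (measure_iUnion_null hy)
  obtain ⟨k, hk⟩ := mem_iUnion.1 (h1 hx.1)
  exact mem_iUnion.2 ⟨k, ⟨hx.1, hk⟩, hx.2⟩

end Pool.Agent.Lib.MP_823829_an
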