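import Pool.Agent.Lib.MP_823829_an.LA.Scale
import Pool.Agent.Lib.MP_823829_an.Eil

/-! General position of a linear projection. -/

namespace Pool.Agent.Lib.MP_823829_an

open Set Metric Filter MeasureTheory
open scoped Topology ENNReal NNReal ContDiff ComplexConjugate

variable {A T : Type} [NormedAddCommGroup A] [NormedSpace ℂ A] [FiniteDimensional ℂ A]
  [MeasurableSpace A] [BorelSpace A]
  [NormedAddCommGroup T] [NormedSpace ℂ T] [FiniteDimensional ℂ T] [MeasurableSpace T]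
  [BorelSpace T]

theorem gp [Nontrivial T] {S : Set A} (h : μH[rd T + 1] S = 0) (p : A) :
    ∃ L : A →L[ℂ] T, ∀ ε : ℝ, 0 < ε → ∃ ρ : ℝ, 0 < ρ ∧ ρ < ε ∧
      ∀ x ∈ sphere p ρ, L x = L p → x ∉ S := by
  obtain ⟨L, hL⟩ := (LA.sliceS A T S p h).nonempty
  refine ⟨L, fun ε hε => ?_⟩
  have h1 : volume ((fun y => dist y p) '' (S ∩ {x | L x = L p})) = 0 := by
    rw [← hausdorffMeasure_real]
    have := (LipschitzWith.dist_left p).hausdorffMeasure_image_le zero_le_one (S ∩ {x | L x = L p})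
    rw [hL, mul_zero] at this
    exact le_antisymm this zero_le
  obtain ⟨ρ, hρ, hρ'⟩ :=
    (Measure.dense_of_ae (measure_eq_zero_iff_ae_notMem.1 h1)).exists_between hε
  exact ⟨ρ, hρ'.1, hρ'.2, fun x hx h2 h3 => hρ ⟨x, ⟨h3, h2⟩, hx⟩⟩

end Pool.Agent.Lib.MP_823829_an
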