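import Pool.Agent.Lib.MP_823829_an.St

/-! The Stokes formula and volumes for graphs over domains of dimension two. -/

namespace Pool.Agent.Lib.MP_823829_an

open Set Metric Filter MeasureTheory
open scoped Topology ENNReal NNReal ContDiff ComplexConjugate

variable {m : ℕ}

/-- The standard basis vectors of the product space. -/
noncomputable def bas (a : Fin 2 ⊕ Fin m) : C2 × (Fin m → ℂ) :=
  Sum.elim (fun i => (Pi.single i 1, 0)) (fun i => (0, Pi.single i 1)) a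

theorem st2_aux_decomp (u : C2 × (Fin m → ℂ)) : u = ∑ a, crd a u • bas a := by
  rw [Fintype.sum_sum_type]
  refine Prod.ext ?_ ?_
  · funext i
    fin_cases i <;> simp [bas, crd, Prod.fst_sum]
  · funext i
    simp [bas, crd, Prod.snd_sum, Finset.sum_apply, Pi.single_apply]

theorem st2_aux_lin (ℓ : (C2 × (Fin m → ℂ)) →ₗ[ℂ] ℂ) (u : C2 × (Fin m → ℂ)) :
    ℓ u = ∑ a, ℓ (bas a) * crd a u := by
  conv_lhs => rw [st2_aux_decomp u]
  rw [map_sum]
  refine Finset.sum_congr rfl fun a _ => ?_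
  rw [map_smul, smul_eq_mul, mul_comm]

theorem dH_crd (b : C2 × (Fin m → ℂ) → ℂ) (p u : C2 × (Fin m → ℂ)) :
    dH b p u = ∑ a, dH b p (bas a) * crd a u := by
  let ℓ : (C2 × (Fin m → ℂ)) →ₗ[ℂ] ℂ :=
    { toFun := fun u => dH b p u
      map_add' := fun u u' => dH_add_dir b p u u'
      map_smul' := fun c u => dH_smul_dir b p c u }
  have h : ℓ u = ∑ a, ℓ (bas a) * crd a u := st2_aux_lin ℓ u
  exact h

theorem norm_bas (a : Fin 2 ⊕ Fin m) : ‖(bas a : C2 × (Fin m → ℂ))‖ = 1 := by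
  rcases a with i | i
  · simp [bas, Prod.norm_def, Pi.norm_single]
  · simp [bas, Prod.norm_def, Pi.norm_single]

theorem exists_crd_clm (a : Fin 2 ⊕ Fin m) :
    ∃ ξ : C2 × (Fin m → ℂ) →L[ℂ] ℂ, ∀ x, ξ x = crd a x := by
  rcases a with i | i
  · exact ⟨(ContinuousLinearMap.proj i).comp (ContinuousLinearMap.fst ℂ C2 (Fin m → ℂ)),
      fun _ => rfl⟩
  · exact ⟨(ContinuousLinearMap.proj i).comp (ContinuousLinearMap.snd ℂ C2 (Fin m → ℂ)),
      fun _ => rfl⟩

theorem vd_nonneg (g : C2 → Fin m → ℂ) (t : C2) : 0 ≤ vd g t := by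
  unfold vd
  positivity

theorem vd_eq (g : C2 → Fin m → ℂ) (t : C2) :
    vd g t = 2 + 2 * ∑ j : Fin 2, ∑ a : Fin m, ‖fderiv ℂ g t (e2 j) a‖ ^ 2 +
      wedge2 (fderiv ℂ g t (e2 0)) (fderiv ℂ g t (e2 1)) := by
  unfold vd wedge2
  simp only [Fintype.sum_sum_type, Fin.sum_univ_two, Finset.sum_add_distrib]
  simp [minor, crd, tg, e2]
  ring

theorem continuousOn_minor {O : Set C2} (hO : IsOpen O) {g : C2 → Fin m → ℂ}
    (hg : DifferentiableOn ℂ g O) (a b : Fin 2 ⊕ Fin m) :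
    ContinuousOn (fun t => minor g t a b) O := by
  have h : ∀ (c : Fin 2 ⊕ Fin m) (u : C2), ContinuousOn (fun t => crd c (tg g t u)) O := by
    intro c u
    obtain ⟨ξ, hξ⟩ := exists_crd_clm c
    have h1 : ContinuousOn (fun t => tg g t u) O :=
      continuousOn_const.prodMk ((hol_fderiv hO hg).continuousOn.clm_apply continuousOn_const)
    exact (ξ.continuous.comp_continuousOn h1).congr fun t _ => (hξ _).symm
  exact ((h a _).mul (h b _)).sub ((h b _).mul (h a _))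

theorem continuousOn_vd {O : Set C2} (hO : IsOpen O) {g : C2 → Fin m → ℂ}
    (hg : DifferentiableOn ℂ g O) : ContinuousOn (vd g) O := by
  refine continuousOn_finsetSum _ fun a _ => continuousOn_finsetSum _ fun b _ => ?_
  exact (continuousOn_minor hO hg a b).norm.pow 2

theorem st2_aux_det (M : C2 →L[ℂ] C2) :
    M.det = M (e2 0) 0 * M (e2 1) 1 - M (e2 1) 0 * M (e2 0) 1 := by
  rw [ContinuousLinearMap.det, ← LinearMap.det_toMatrix', Matrix.det_fin_two]
  simp [LinearMap.toMatrix'_apply, e2]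

theorem st2_aux_cs {κ : Type} [Fintype κ] (x y : κ → κ → ℂ) :
    ‖∑ a, ∑ b, x a b * y a b‖ ^ 2 ≤ (∑ a, ∑ b, ‖x a b‖ ^ 2) * ∑ a, ∑ b, ‖y a b‖ ^ 2 := by
  rw [← Fintype.sum_prod_type', ← Fintype.sum_prod_type' (fun a b => ‖x a b‖ ^ 2),
    ← Fintype.sum_prod_type' (fun a b => ‖y a b‖ ^ 2)]
  refine le_trans ?_ (Finset.sum_mul_sq_le_sq_mul_sq Finset.univ
    (fun p : κ × κ => ‖x p.1 p.2‖) (fun p : κ × κ => ‖y p.1 p.2‖))
  refine pow_le_pow_left₀ (norm_nonneg _) ((norm_sum_le _ _).trans (le_of_eq ?_)) 2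
  exact Finset.sum_congr rfl fun p _ => norm_mul _ _

theorem det_le_vd (L : C2 × (Fin m → ℂ) →L[ℂ] C2) : ∃ C : ℝ, 0 ≤ C ∧
    ∀ (g : C2 → Fin m → ℂ) (t : C2), DifferentiableAt ℂ g t →
      ‖(fderiv ℂ (fun t => L (t, g t)) t).det‖ ^ 2 ≤ C * vd g t := by
  refine ⟨∑ a, ∑ b, ‖L (bas a) 0 * L (bas b) 1‖ ^ 2, by positivity, fun g t hg => ?_⟩
  have hd : HasFDerivAt (fun t => L (t, g t))
      (L.comp ((ContinuousLinearMap.id ℂ C2).prod (fderiv ℂ g t))) t :=
    L.hasFDerivAt.comp t ((hasFDerivAt_id t).prodMk hg.hasFDerivAt)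
  rw [hd.fderiv, st2_aux_det]
  have hL : ∀ (i : Fin 2) (u : C2 × (Fin m → ℂ)), L u i = ∑ a, L (bas a) i * crd a u :=
    fun i u => st2_aux_lin ((LinearMap.proj i).comp (L : C2 × (Fin m → ℂ) →ₗ[ℂ] C2)) u
  have he : ∀ j, (L.comp ((ContinuousLinearMap.id ℂ C2).prod (fderiv ℂ g t))) (e2 j) =
      L (tg g t (e2 j)) := fun _ => rfl
  have hsum : L (tg g t (e2 0)) 0 * L (tg g t (e2 1)) 1 -
      L (tg g t (e2 1)) 0 * L (tg g t (e2 0)) 1 =
      ∑ a, ∑ b, (L (bas a) 0 * L (bas b) 1) * minor g t a b := by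
    rw [hL 0 (tg g t (e2 0)), hL 1 (tg g t (e2 1)), hL 0 (tg g t (e2 1)), hL 1 (tg g t (e2 0)),
      Finset.sum_mul_sum, Finset.sum_mul_sum, ← Finset.sum_sub_distrib]
    refine Finset.sum_congr rfl fun a _ => ?_
    rw [← Finset.sum_sub_distrib]
    refine Finset.sum_congr rfl fun b _ => ?_
    unfold minor
    ring
  rw [he, he, hsum]
  exact st2_aux_cs (fun a b => L (bas a) 0 * L (bas b) 1) (fun a b => minor g t a b)

theorem gvol_mono (O : Set C2) (g : C2 → Fin m → ℂ) {B B' : Set (C2 × (Fin m → ℂ))}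
    (h : B ⊆ B') : gvol O g B ≤ gvol O g B' := by
  exact lintegral_mono_set fun t ht => ⟨ht.1, h ht.2⟩

theorem st2_aux_basis (j : Fin 2) : Pi.basisFun ℂ (Fin 2) j = e2 j := by
  simp [e2]

theorem st2_aux_jac (a b : Fin 2 ⊕ Fin m) :
    ∃ ξ : Fin 2 → (C2 × (Fin m → ℂ) →L[ℂ] ℂ), ∀ (g : C2 → Fin m → ℂ) (t : C2),
      Jac (fun i => ξ i) (fun j => tg g t (Pi.basisFun ℂ (Fin 2) j)) = minor g t a b := by
  obtain ⟨ξ, hξ⟩ := exists_crd_clm a
  obtain ⟨ζ, hζ⟩ := exists_crd_clm b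
  refine ⟨![ξ, ζ], fun g t => ?_⟩
  simp only [Jac, Matrix.det_fin_two, Matrix.of_apply, st2_aux_basis, minor, Matrix.cons_val_zero,
    Matrix.cons_val_one, hξ, hζ]
  ring

theorem gvol_lt_top {Z W : Set (C2 × (Fin m → ℂ))} {O : Set C2} {g : C2 → Fin m → ℂ}
    (hG : GS Z W O g) {K : Set (C2 × (Fin m → ℂ))} (hK : IsCompact K) (hW : K ⊆ W) :
    gvol O g K < ⊤ := by
  have hv : ∀ t, ENNReal.ofReal (vd g t) =
      ∑ p : (Fin 2 ⊕ Fin m) × (Fin 2 ⊕ Fin m), ‖minor g t p.1 p.2‖ₑ ^ 2 := by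
    intro t
    rw [vd, ← Fintype.sum_prod_type' (fun a b => ‖minor g t a b‖ ^ 2),
      ENNReal.ofReal_sum_of_nonneg fun _ _ => by positivity]
    refine Finset.sum_congr rfl fun p _ => ?_
    rw [ENNReal.ofReal_pow (norm_nonneg _), ofReal_norm]
  unfold gvol
  simp only [hv]
  rw [lintegral_finsetSum']
  · refine ENNReal.sum_lt_top.2 fun p _ => ?_
    obtain ⟨ξ, hξ⟩ := st2_aux_jac p.1 p.2
    have h := vfin hG volume (Pi.basisFun ℂ (Fin 2)) ξ hK hW
    simpa only [hξ] using h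
  · intro p _
    have h1 : AEMeasurable (fun t => minor g t p.1 p.2) (volume.restrict O) :=
      (continuousOn_minor hG.opO hG.hol p.1 p.2).aemeasurable hG.opO.measurableSet
    exact ((h1.mono_measure (Measure.restrict_mono inter_subset_left le_rfl)).enorm).pow_const 2

theorem st2_int {Z W : Set (C2 × (Fin m → ℂ))} {O : Set C2} {g : C2 → Fin m → ℂ}
    (hG : GS Z W O g) {c : C2 × (Fin m → ℂ) → ℂ} (hc : Continuous c) (hcc : HasCompactSupport c)
    (hs : tsupport c ⊆ W) (a b a' b' : Fin 2 ⊕ Fin m) :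
    IntegrableOn (fun t => c (t, g t) * minor g t a b * conj (minor g t a' b')) O := by
  obtain ⟨ξ, hξ⟩ := st2_aux_jac a b
  obtain ⟨ζ, hζ⟩ := st2_aux_jac a' b'
  have h := st_int hG volume (Pi.basisFun ℂ (Fin 2)) ξ ζ hc hcc hs
  simpa only [hξ, hζ] using h

theorem st2 {Z W : Set (C2 × (Fin m → ℂ))} {O : Set C2} {g : C2 → Fin m → ℂ}
    (hG : GS Z W O g) {b : C2 × (Fin m → ℂ) → ℂ} (hb : ContDiff ℝ 1 b) (hc : HasCompactSupport b)
    (hs : tsupport b ⊆ W) (a a' b' : Fin 2 ⊕ Fin m) :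
    ∑ c, ∫ t in O, dH b (t, g t) (bas c) * minor g t c a * conj (minor g t a' b') = 0 := by
  obtain ⟨ξ, hξ⟩ := exists_crd_clm a
  obtain ⟨ζ, hζ⟩ := st2_aux_jac a' b'
  have h := (st hG volume (Pi.basisFun ℂ (Fin 2)) (fun _ => ξ) ζ 0 hb hc hs).2
  rw [← integral_finsetSum]
  · rw [← h]
    refine integral_congr_ae (Eventually.of_forall fun t => ?_)
    simp only [hζ]
    rw [← Finset.sum_mul]
    congr 1
    have h1 : (1 : Fin 2) ≠ 0 := by decide
    simp only [Jac, Matrix.det_fin_two, Matrix.of_apply, st2_aux_basis, Function.update_self,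
      Function.update_of_ne h1, hξ]
    rw [dH_crd b (t, g t) (tg g t (e2 0)), dH_crd b (t, g t) (tg g t (e2 1)), Finset.sum_mul,
      Finset.sum_mul, ← Finset.sum_sub_distrib]
    refine Finset.sum_congr rfl fun c _ => ?_
    unfold minor
    ring
  · intro c _
    have h1 : Continuous fun p => dH b p (bas c) := by
      refine continuous_iff_continuousAt.2 fun p => ?_
      exact (contDiffAt_dH (n := 0) (k := 1) hb.contDiffAt (by simp) (bas c)).continuousAt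
    exact st2_int hG h1 (hc.of_isClosed_subset (isClosed_tsupport _) (tsupport_dH b (bas c)))
      ((tsupport_dH b (bas c)).trans hs) c a a' b'

end Pool.Agent.Lib.MP_823829_an
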