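import Pool.Agent.Lib.MP_823829_an.BishA
import Pool.Agent.Lib.MP_823829_an.GP
import Pool.Agent.Lib.MP_823829_an.HM
import Pool.Agent.Lib.MP_823829_an.T4
import Pool.Agent.Lib.MP_823829_an.Area
import Pool.Agent.Lib.MP_823829_an.St2

/-! The theorem of Bishop in a chart. -/

namespace Pool.Agent.Lib.MP_823829_an

open Set Metric Filter MeasureTheory
open scoped Topology ENNReal NNReal ContDiff ComplexConjugate

/-- A point of the limit set is a limit of points of the closures. -/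
theorem bishb_aux_pt {A ι : Type*} [PseudoMetricSpace A] [ProperSpace A] {l : Filter ι}
    {Z : ι → Set A} {x : A} (hx : x ∈ ulim l Z) :
    ∃ τ : ι → A, Tendsto τ l (𝓝 x) ∧ ∀ᶠ n in l, τ n ∈ closure (Z n) := by
  have h1 : ∀ n, ∃ y : A, (Z n).Nonempty →
      y ∈ closure (Z n) ∧ infDist x (closure (Z n)) = dist x y := by
    intro n
    by_cases h : (Z n).Nonempty
    · obtain ⟨y, hy, hd⟩ := isClosed_closure.exists_infDist_eq_dist h.closure x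
      exact ⟨y, fun _ => ⟨hy, hd⟩⟩
    · exact ⟨x, fun h' => (h h').elim⟩
  choose τ hτ using h1
  refine ⟨τ, Metric.tendsto_nhds.2 fun ε hε => ?_, ?_⟩
  · filter_upwards [hx (ball x ε) (ball_mem_nhds x hε)] with n hn
    obtain ⟨y, hy, hyb⟩ := hn
    rw [dist_comm, ← (hτ n ⟨y, hy⟩).2]
    refine (infDist_le_dist_of_mem (subset_closure hy)).trans_lt ?_
    rw [dist_comm]
    exact hyb
  · filter_upwards [hx univ univ_mem] with n hn
    obtain ⟨y, hy, -⟩ := hn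
    exact (hτ n ⟨y, hy⟩).1

theorem bishb_aux_nat {v K : ℝ≥0∞} (hv : v ≠ 0) (hK : K ≠ ⊤) :
    ∃ D : ℕ, ∀ d : ℕ, (d : ℝ≥0∞) * v ≤ K → d ≤ D := by
  obtain ⟨D, hD⟩ := ENNReal.exists_nat_gt (ENNReal.div_ne_top hK hv)
  refine ⟨D, fun d hd => ?_⟩
  have h1 : (d : ℝ≥0∞) ≤ K / v := (ENNReal.le_div_iff_mul_le (Or.inl hv) (Or.inr hK)).2 hd
  exact_mod_cast (h1.trans_lt hD).le

/-- The number of sheets is bounded by the volume. -/
theorem bishb_aux_deg {m : ℕ} (L : C2 × (Fin m → ℂ) →L[ℂ] C2) : ∃ C : ℝ≥0∞, C ≠ ⊤ ∧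
    ∀ (Z W B : Set (C2 × (Fin m → ℂ))) (O T₀ : Set C2) (g : C2 → Fin m → ℂ) (d : ℕ),
      GS Z W O g → IsOpen B → IsOpen T₀ → Neg {t | ¬ Good (Z ∩ B) L d t} T₀ →
        (d : ℝ≥0∞) * volume T₀ ≤ C * gvol O g B := by
  obtain ⟨C, hC0, hC⟩ := det_le_vd L
  refine ⟨ENNReal.ofReal C, ENNReal.ofReal_ne_top, fun Z W B O T₀ g d hG hB hT hN => ?_⟩
  have hS := hG.measurableSet hB.measurableSet
  have hhol : DifferentiableOn ℂ (fun t => L (t, g t)) O :=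
    L.differentiable.comp_differentiableOn (differentiableOn_id.prodMk hG.hol)
  have n1 : volume ({t | ¬ Good (Z ∩ B) L d t} ∩ T₀) = 0 :=
    (haar_null_iff volume).2 (neg_null hN)
  have n2 : volume (L '' (Z \ Prod.fst ⁻¹' O)) = 0 :=
    (haar_null_iff volume).2
      (null_image_clm rd_nonneg (null_mono_dim hG.thin (by linarith)) L)
  have key := area_ge volume hG.opO hhol hS inter_subset_left hT.measurableSet (d := d) (by
    filter_upwards [measure_eq_zero_iff_ae_notMem.1 n1, measure_eq_zero_iff_ae_notMem.1 n2]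
      with y h1 h2 hy
    have hg : Good (Z ∩ B) L d y := by
      by_contra h
      exact h1 ⟨h, hy⟩
    rw [← hg.encard]
    refine le_trans (encard_le_encard ?_) (encard_image_le (fun t => (t, g t)) _)
    rintro ⟨t, z⟩ ⟨⟨hz, hb⟩, hL⟩
    have ht : t ∈ O := by
      by_contra h
      exact h2 ⟨(t, z), ⟨hz, h⟩, hL⟩
    obtain rfl := (hG.gr t ht z).1 hz
    exact ⟨t, ⟨⟨ht, hb⟩, hL⟩, rfl⟩)
  refine key.trans ?_
  rw [gvol, ← lintegral_const_mul' _ _ ENNReal.ofReal_ne_top]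
  refine setLIntegral_mono' hS fun t ht => ?_
  rw [← ENNReal.ofReal_mul hC0, ← ofReal_norm, ← ENNReal.ofReal_pow (norm_nonneg _)]
  exact ENNReal.ofReal_le_ofReal
    (hC g t (hG.hol.differentiableAt (hG.opO.mem_nhds ht.1)))

section Lim

variable {A T : Type} [NormedAddCommGroup A] [NormedSpace ℂ A] [FiniteDimensional ℂ A]
  [NormedAddCommGroup T] [NormedSpace ℂ T] [FiniteDimensional ℂ T]

/-- The limit of bounded holomorphic multifunctions. -/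
theorem bishb_aux_lim {ι : Type*} (𝒰 : Ultrafilter ι) {d : ℕ} {Yn : ι → T → Fin d → A}
    {T₀ : Set T} (hT : IsOpen T₀) {R : ℝ}
    (h : ∀ᶠ n in (𝒰 : Filter ι), HM (Yn n) T₀ ∧ ∀ t ∈ T₀, ∀ j, ‖Yn n t j‖ ≤ R) :
    ∃ Y : T → Fin d → A, HM Y T₀ ∧
      (∀ t ∈ T₀, ∀ j, Tendsto (fun n => Yn n t j) 𝒰 (𝓝 (Y t j))) ∧
      ∀ (ξ : A →L[ℂ] ℂ), ∀ t ∈ T₀, ∀ (c : ℂ) (τ : ι → T) (γ : ι → ℂ), Tendsto τ 𝒰 (𝓝 t) →
        Tendsto γ 𝒰 (𝓝 c) →
          Tendsto (fun n => ∏ j, (γ n - ξ (Yn n (τ n) j))) 𝒰 (𝓝 (∏ j, (c - ξ (Y t j)))) := by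
  have : ProperSpace A := FiniteDimensional.proper ℂ A
  have h1 : ∀ t j, ∃ y : A, t ∈ T₀ → Tendsto (fun n => Yn n t j) 𝒰 (𝓝 y) := by
    intro t j
    by_cases ht : t ∈ T₀
    · obtain ⟨y, -, hy⟩ := (isCompact_closedBall (0 : A) R).ultrafilter_le_nhds
        (𝒰.map fun n => Yn n t j) (by
          rw [Ultrafilter.coe_map, le_principal_iff, mem_map]
          filter_upwards [h] with n hn
          exact mem_closedBall_zero_iff.2 (hn.2 t ht j))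
      exact ⟨y, fun _ => hy⟩
    · exact ⟨0, fun h' => (ht h').elim⟩
  choose Y hY using h1
  have h2 : ∀ (ξ : A →L[ℂ] ℂ) (c : ℂ), DifferentiableOn ℂ (fun t => ∏ j, (c - ξ (Y t j))) T₀ ∧
      ∀ t ∈ T₀, ∀ τ : ι → T, Tendsto τ 𝒰 (𝓝 t) →
        Tendsto (fun n => ∏ j, (c - ξ (Yn n (τ n) j))) 𝒰 (𝓝 (∏ j, (c - ξ (Y t j)))) := by
    intro ξ c
    refine hol_lim (g := fun n t => ∏ j, (c - ξ (Yn n t j))) hT
      (M := ∏ _j : Fin d, (‖c‖ + ‖ξ‖ * R)) ?_ fun t ht => ?_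
    · filter_upwards [h] with n hn
      refine ⟨hn.1 ξ c, fun t ht => ?_⟩
      rw [norm_prod]
      refine Finset.prod_le_prod (fun j _ => norm_nonneg _) fun j _ => ?_
      refine (norm_sub_le _ _).trans (add_le_add le_rfl ((ξ.le_opNorm _).trans ?_))
      exact mul_le_mul_of_nonneg_left (hn.2 t ht j) (norm_nonneg _)
    · exact tendsto_finsetProd _ fun j _ =>
        tendsto_const_nhds.sub ((ξ.continuous.tendsto _).comp (hY t j ht))
  refine ⟨Y, fun ξ c => (h2 ξ c).1, fun t ht j => hY t j ht, fun ξ t ht c τ γ hτ hγ => ?_⟩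
  obtain ⟨ℓ, hℓ, hp⟩ := lagr_prod d
  rw [hp (fun j => ξ (Y t j)) c]
  refine Tendsto.congr (fun n => (hp (fun j => ξ (Yn n (τ n) j)) (γ n)).symm) ?_
  exact tendsto_finsetSum _ fun i _ =>
    (((hℓ i).continuous.tendsto c).comp hγ).mul ((h2 ξ _).2 t ht τ hτ)

/-- The limit set of finite covers of the same degree. -/
theorem bishb_aux_an {ι : Type*} (𝒰 : Ultrafilter ι) {d : ℕ} {Z : ι → Set A} {B : Set A}
    {L : A →L[ℂ] T} {T₀ : Set T} (hT : IsOpen T₀) (hB : IsOpen B) (hb : Bornology.IsBounded B)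
    (hBT : ∀ x ∈ B, L x ∈ T₀) (han : ∀ᶠ n in (𝒰 : Filter ι), ∀ x ∈ B, AnAt (Z n) x)
    (h : ∀ᶠ n in (𝒰 : Filter ι), ∃ Y : T → Fin d → A, HM Y T₀ ∧
      ∀ t ∈ T₀, ∀ x, (x ∈ Z n ∩ B ∧ L x = t) ↔ ∃ j, x = Y t j) :
    ∀ p ∈ B, AnAt (ulim 𝒰 Z) p := by
  have : ProperSpace A := FiniteDimensional.proper ℂ A
  obtain ⟨Yn, hYn⟩ := h.choice
  obtain ⟨R, hR⟩ := hb.exists_norm_le
  obtain ⟨Y, hY, hl, hp⟩ := bishb_aux_lim 𝒰 (Yn := Yn) hT (R := R) (by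
    filter_upwards [hYn] with n hn
    exact ⟨hn.1, fun t ht j => hR _ ((hn.2 t ht _).2 ⟨j, rfl⟩).1.2⟩)
  obtain ⟨Ξ, hΞ⟩ := sep_family A d
  intro p hpB
  refine (hY.anAt hT L (hBT p hpB)).congr ?_
  filter_upwards [hB.mem_nhds hpB] with x hx
  constructor
  · rintro ⟨j, hj⟩ N hN
    rw [hj] at hN
    filter_upwards [hYn, hl _ (hBT x hx) j hN] with n hn hnN
    exact ⟨_, ((hn.2 _ (hBT x hx) _).2 ⟨j, rfl⟩).1.1, hnN⟩
  · intro hu
    obtain ⟨τ, hτ, hτZ⟩ := bishb_aux_pt hu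
    refine hΞ _ x fun ξ _ => ?_
    refine tendsto_nhds_unique (hp ξ _ (hBT x hx) (ξ x) (fun n => L (τ n)) (fun n => ξ (τ n))
      ((L.continuous.tendsto x).comp hτ) ((ξ.continuous.tendsto x).comp hτ))
      (tendsto_const_nhds.congr' ?_)
    filter_upwards [hYn, han, hτZ, hτ (hB.mem_nhds hx)] with n hn ha hc hnB
    obtain ⟨j, hj⟩ := (hn.2 _ (hBT _ hnB) (τ n)).1 ⟨⟨(ha _ hnB).mem_of_closure hc, hnB⟩, rfl⟩
    refine (Finset.prod_eq_zero (Finset.mem_univ j) ?_).symm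
    rw [← hj, sub_self]

end Lim

theorem bish_an {m : ℕ} {ι : Type*} (𝒰 : Ultrafilter ι) {W : Set (C2 × (Fin m → ℂ))}
    {Z : ι → Set (C2 × (Fin m → ℂ))} {O : ι → Set C2} {g : ι → C2 → Fin m → ℂ}
    (hG : ∀ᶠ n in (𝒰 : Filter ι), GS (Z n) W (O n) (g n))
    (hv : ∀ K ⊆ W, IsCompact K → ∃ C : ℝ≥0, ∀ᶠ n in (𝒰 : Filter ι), gvol (O n) (g n) K ≤ C) :
    ∀ p ∈ W, AnAt (ulim 𝒰 Z) p := by
  intro p hp
  have hW : IsOpen W := hG.exists.choose_spec.opW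
  have h5 : μH[rd C2 + 1] (ulim 𝒰 Z ∩ W) = 0 := by
    rw [rd_C2, show (4 : ℝ) + 1 = 5 by norm_num]
    exact bish_null _ hG hv
  obtain ⟨L, hL⟩ := gp h5 p
  obtain ⟨ε, hε, hεW⟩ := Metric.isOpen_iff.1 hW p hp
  obtain ⟨ρ, hρ, hρε, hsph⟩ := hL ε hε
  have hρW : closedBall p ρ ⊆ W := (closedBall_subset_ball hρε).trans hεW
  obtain ⟨η, hη, hside⟩ := exists_side (Z := ulim 𝒰 Z) (p := p) (L := L) (ρ := ρ)
    fun x hx hxL h => hsph x hx hxL
      ⟨(isClosed_ulim _ Z).closure_subset h, hρW (sphere_subset_closedBall hx)⟩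
  have hav := ulim_avoid 𝒰 Z (isCompact_side p L ρ η) (hside.mono_right subset_closure)
  have hbox : box p L ρ η ⊆ closedBall p ρ := fun x hx => ball_subset_closedBall hx.1
  obtain ⟨C, hC⟩ := hv _ hρW (isCompact_closedBall p ρ)
  obtain ⟨C', hC', hdeg⟩ := bishb_aux_deg L
  obtain ⟨D, hD⟩ := bishb_aux_nat (measure_ball_pos volume (L p) hη).ne'
    (ENNReal.mul_ne_top hC' (ENNReal.coe_ne_top (r := C)))
  have hall : ∀ᶠ n in (𝒰 : Filter ι), ∃ d ∈ Set.Iic D, ∃ Y : C2 → Fin d → C2 × (Fin m → ℂ),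
      HM Y (ball (L p) η) ∧ ∀ t ∈ ball (L p) η, ∀ x,
        (x ∈ Z n ∩ box p L ρ η ∧ L x = t) ↔ ∃ j, x = Y t j := by
    filter_upwards [hG, hav, hC] with n h1 h2 h3
    obtain ⟨d, Y, hY, hf, hN⟩ := t4 (scale_fb (fun x hx => h1.an x (hρW hx)) h2)
      (convex_ball _ _).isPreconnected (h1.pure.inter_open (isOpen_box p L ρ η))
    refine ⟨d, hD d ?_, Y, hY, hf⟩
    refine (hdeg _ _ _ _ _ _ d h1 (isOpen_box p L ρ η) isOpen_ball hN).trans ?_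
    exact mul_le_mul_right ((gvol_mono _ _ hbox).trans h3) _
  obtain ⟨d, -, hd⟩ := (Ultrafilter.eventually_exists_mem_iff (Set.finite_Iic D)).1 hall
  refine bishb_aux_an 𝒰 isOpen_ball (isOpen_box p L ρ η) (isBounded_closedBall.subset hbox)
    (fun x hx => hx.2) ?_ hd p (mem_of_mem_nhds (box_mem_nhds p L hρ hη))
  filter_upwards [hG] with n hn x hx
  exact hn.an x (hρW (hbox hx))

end Pool.Agent.Lib.MP_823829_an
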