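import Pool.Agent.Lib.MP_823829_an.MThin
import Pool.Agent.Lib.MP_823829_an.BishB

/-! The theorem of Bishop for meromorphic graphs. -/

namespace Pool.Agent.Lib.MP_823829_an

open Set Metric Filter MeasureTheory
open scoped Topology ENNReal NNReal ContDiff ComplexConjugate

variable {X : Type*} [TopologicalSpace X] [T2Space X] [CompactSpace X] [Nonempty X] {m : ℕ}
  {a : Atl X m}

omit [T2Space X] [CompactSpace X] [Nonempty X] in
theorem mbish_aux_ulim {ι : Type*} (l : Filter ι) (G : ι → Set (C2 × X)) (i : Fin a.n)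
    {q : C2 × (Fin m → ℂ)} (hq : q.2 ∈ (a.e i).target) :
    q ∈ ulim l (fun n => cs a i (G n)) ↔ (q.1, (a.e i).symm q.2) ∈ ulim l G := by
  have hsrc : ((q.1, (a.e i).symm q.2) : C2 × X).2 ∈ (a.e i).source := (a.e i).map_target hq
  have hq' : ((q.1, a.e i ((a.e i).symm q.2)) : C2 × (Fin m → ℂ)) = q := by
    rw [(a.e i).right_inv hq]
  constructor
  · intro h N hN
    have h1 := (eventually_chart (a := a) hsrc (P := fun p => p ∈ N)).1 hN
    simp only at h1
    rw [hq'] at h1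
    filter_upwards [h _ h1] with n hn
    obtain ⟨x, hx1, hx2⟩ := hn
    exact ⟨(x.1, (a.e i).symm x.2), hx1.2, hx2⟩
  · intro h N hN
    have h1 : ∀ᶠ p in 𝓝 ((q.1, (a.e i).symm q.2) : C2 × X),
        p.2 ∈ (a.e i).source ∧ (p.1, a.e i p.2) ∈ N := by
      rw [eventually_chart (a := a) hsrc]
      simp only
      rw [hq']
      have ht : ∀ᶠ x in 𝓝 q, x.2 ∈ (a.e i).target :=
        continuous_snd.continuousAt.preimage_mem_nhds ((a.e i).open_target.mem_nhds hq)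
      filter_upwards [ht, hN] with x hx hxN
      refine ⟨(a.e i).map_target hx, ?_⟩
      rw [(a.e i).right_inv hx]
      exact hxN
    filter_upwards [h _ h1] with n hn
    obtain ⟨x, hx1, hx2, hx3⟩ := hn
    exact ⟨(x.1, a.e i x.2), (mem_cs hx2).2 hx1, hx3⟩

theorem bishop {ι : Type*} (𝒰 : Ultrafilter ι) {D : Set C2} {G : ι → Set (C2 × X)}
    (hG : ∀ᶠ n in (𝒰 : Filter ι), MG a D (G n))
    (hv : ∀ (i : Fin a.n), ∀ K ⊆ D ×ˢ (a.e i).target, IsCompact K → ∃ C : ℝ≥0,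
      ∀ᶠ n in (𝒰 : Filter ι), gvol (regI a i (G n)) (a.e i ∘ gf (G n)) K ≤ C) :
    AnOn a D (res (ulim 𝒰 G) D) := by
  obtain ⟨n₀, hn₀⟩ := hG.exists
  have hD : IsOpen D := hn₀.op
  refine ⟨fun p hp => hp.2, fun p hp i hi => ?_⟩
  have h1 := bish_an 𝒰 (W := D ×ˢ (a.e i).target) (Z := fun n => cs a i (G n))
    (O := fun n => regI a i (G n)) (g := fun n => a.e i ∘ gf (G n))
    (hG.mono fun n hn => hn.gs i) (hv i) (p.1, a.e i p.2) ⟨hp, (a.e i).map_source hi⟩
  refine h1.congr ?_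
  have hW : D ×ˢ (a.e i).target ∈ 𝓝 ((p.1, a.e i p.2) : C2 × (Fin m → ℂ)) :=
    (hD.prod (a.e i).open_target).mem_nhds ⟨hp, (a.e i).map_source hi⟩
  filter_upwards [hW] with q hq
  rw [mbish_aux_ulim _ G i hq.2]
  exact ⟨fun h => ⟨hq.2, h, hq.1⟩, fun h => h.2.1⟩

end Pool.Agent.Lib.MP_823829_an
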