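import Pool.Agent.Lib.MP_823829_an.Bish2a
import Pool.Agent.Lib.MP_823829_an.MBish
import Pool.Agent.Lib.MP_823829_an.MUniq

/-! Slices over limit points with bounded area extend. -/

namespace Pool.Agent.Lib.MP_823829_an

open Set Metric Filter MeasureTheory
open scoped Topology ENNReal NNReal ContDiff ComplexConjugate

variable {X : Type*} [TopologicalSpace X] [T2Space X] [CompactSpace X] [Nonempty X] {m : ℕ}
  {a : Atl X m}

omit [T2Space X] [CompactSpace X] [Nonempty X] in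
theorem bish2b_aux_hol {g : C4 → X} {z w : C2} (h : HolAt a g (z, w)) :
    HolAt a (fun w => g (z, w)) w :=
  HolAt.comp (Φ := fun w : C2 => ((z, w) : C4)) h (by fun_prop)

/-- The main component of a slice. -/
theorem bish2b_aux_slice {U : Set C2} {ρ₁ ρ₂ : ℝ} (h0 : 0 < ρ₁) (h12 : ρ₁ < ρ₂) {f : C4 → X}
    {Γ : Set (C4 × X)} (h : MG a (U ×ˢ ball 0 ρ₂) Γ) (ha : Agree Γ (grf f) (U ×ˢ shell ρ₁ ρ₂))
    {z : C2} (hz : z ∈ U) (hf : ∀ w ∈ shell ρ₁ ρ₂, HolAt a f (z, w)) :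
    ∃ G : Set (C2 × X), MG a (ball 0 ρ₂) G ∧ Agree G (slice Γ z) {w | (z, w) ∈ reg a Γ} ∧
      ∀ w ∈ shell ρ₁ ρ₂, ∀ x, (w, x) ∈ G ↔ x = f (z, w) := by
  have hg : GraphOn a (slice Γ z) (shell ρ₁ ρ₂) (fun w => f (z, w)) :=
    ⟨fun w hw => bish2b_aux_hol (hf w hw), fun w hw x => ha (z, w) ⟨hz, hw⟩ x⟩
  have hg' : GraphOn a (slice Γ z) {w | (z, w) ∈ reg a Γ} (fun w => gf Γ (z, w)) :=
    ⟨fun w hw => bish2b_aux_hol ((graphOn_reg Γ).1 (z, w) hw),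
      fun w hw x => (graphOn_reg (a := a) Γ).2 (z, w) hw x⟩
  have ho : IsOpen {w : C2 | (z, w) ∈ reg a Γ} :=
    (isOpen_reg (a := a) Γ).preimage (by fun_prop : Continuous fun w : C2 => ((z, w) : C4))
  obtain ⟨G, hG, -, hag⟩ := lemX isOpen_ball (convex_ball (0 : C2) ρ₂).isPreconnected
    (h.an.sliced hz) (isOpen_shell ρ₁ ρ₂) (shell_nonempty h0 h12) hg
  refine ⟨G, hG, fun w hw x => hag w (hg'.subset_reg ho hw) x, fun w hw x => ?_⟩
  exact (hag w (hg.subset_reg (isOpen_shell ρ₁ ρ₂) hw) x).trans (hg.2 w hw x)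

/-- The volume over a compact part does not see the restriction. -/
theorem bish2b_aux_gvol {G : Set (C2 × X)} {B : Set C2} (hB : IsOpen B) (i : Fin a.n)
    {K : Set (C2 × (Fin m → ℂ))} (hK : ∀ p ∈ K, p.1 ∈ B) :
    gvol (regI a i (res G B)) (a.e i ∘ gf (res G B)) K =
      gvol (regI a i G) (a.e i ∘ gf G) K := by
  have hag : Agree (res G B) G B := fun t ht x => ⟨fun h => h.1, fun h => ⟨h, ht⟩⟩
  have hgf : ∀ t ∈ B, gf (res G B) t = gf G t := fun t ht => gf_congr (hag t ht)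
  have hset : regI a i (res G B) ∩ {t | (t, (a.e i ∘ gf (res G B)) t) ∈ K} =
      regI a i G ∩ {t | (t, (a.e i ∘ gf G) t) ∈ K} := by
    ext t
    by_cases ht : t ∈ B
    · simp only [regI, mem_inter_iff, mem_preimage, mem_ofPred_eq, Function.comp, hgf t ht,
        reg_congr hB hag t ht]
    · exact ⟨fun h => absurd (hK _ h.2) ht, fun h => absurd (hK _ h.2) ht⟩
  unfold gvol
  rw [hset]
  refine lintegral_congr_ae ?_
  have hsub : regI a i G ∩ {t | (t, (a.e i ∘ gf G) t) ∈ K} ⊆ B := fun t ht => hK _ ht.2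
  refine ae_restrict_of_ae_restrict_of_subset hsub ?_
  filter_upwards [ae_restrict_mem hB.measurableSet] with t ht
  have he : (a.e i ∘ gf (res G B)) =ᶠ[𝓝 t] (a.e i ∘ gf G) := by
    filter_upwards [hB.mem_nhds ht] with t' ht'
    simp only [Function.comp, hgf t' ht']
  simp only [vd, minor, tg, he.fderiv_eq]

omit [CompactSpace X] [Nonempty X] in
/-- Over an open set where the members of the family are graphs of the slices of a continuous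
map, the limit set is the graph of the limit slice. -/
theorem bish2b_aux_lim {ι : Type*} {l : Filter ι} [l.NeBot] {H : ι → Set (C2 × X)} {z : ι → C2}
    {s : C2} (hz : Tendsto z l (𝓝 s)) {S : Set C2} (hS : IsOpen S) {f : C4 → X}
    (hH : ∀ n, ∀ w ∈ S, ∀ x, (w, x) ∈ H n ↔ x = f (z n, w)) {w : C2} (hw : w ∈ S)
    (hf : ContinuousAt f (s, w)) (x : X) : (w, x) ∈ ulim l H ↔ x = f (s, w) := by
  constructor
  · intro hx
    by_contra hne
    have hc : ContinuousAt (fun q : C2 × (C2 × X) => (q.2.2, f (q.1, q.2.1))) (s, (w, x)) := by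
      refine ContinuousAt.prodMk (by fun_prop) ?_
      exact ContinuousAt.comp (f := fun q : C2 × (C2 × X) => ((q.1, q.2.1) : C4)) (g := f)
        (x := (s, (w, x))) hf (by fun_prop)
    have hev : ∀ᶠ q : C2 × (C2 × X) in 𝓝 (s, (w, x)), q.2.2 ≠ f (q.1, q.2.1) :=
      hc.eventually (isClosed_diagonal.isOpen_compl.mem_nhds (by simpa using hne))
    rw [nhds_prod_eq] at hev
    obtain ⟨P, hP, Q, hQ, hPQ⟩ := eventually_prod_iff.1 hev
    have hN : {p : C2 × X | Q p} ∩ Prod.fst ⁻¹' S ∈ 𝓝 (w, x) :=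
      inter_mem hQ ((hS.preimage continuous_fst).mem_nhds hw)
    obtain ⟨n, ⟨p, hp, hpQ, hpS⟩, hn⟩ := ((hx _ hN).and (hz.eventually hP)).exists
    exact hPQ hn hpQ ((hH n p.1 hpS p.2).1 hp)
  · rintro rfl N hN
    have ht : Tendsto (fun n => (w, f (z n, w))) l (𝓝 (w, f (s, w))) :=
      tendsto_const_nhds.prodMk_nhds (hf.tendsto.comp (hz.prodMk_nhds tendsto_const_nhds))
    filter_upwards [ht.eventually hN] with n hn
    exact ⟨(w, f (z n, w)), (hH n w hw _).2 rfl, hn⟩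

theorem ext_of_bdd (Ω : Frm a) {V U : Set C2} (hV : IsOpen V) (hU : IsOpen U) (hUV : U ⊆ V)
    {ρ₁ ρ₂ ρ₃ : ℝ} (h0 : 0 < ρ₁) (h13 : ρ₁ < ρ₃) (h32 : ρ₃ < ρ₂) {χ : C2 → ℝ} (hχ : Cut χ ρ₃ ρ₂)
    {f : C4 → X} (hf : ∀ t ∈ V ×ˢ shell ρ₁ ρ₂, HolAt a f t) {Γ : Set (C4 × X)}
    (h : MG a (U ×ˢ ball 0 ρ₂) Γ) (ha : Agree Γ (grf f) (U ×ˢ shell ρ₁ ρ₂)) {s : C2} (hs : s ∈ V)
    {M : ℝ} (hM : ∀ N ∈ 𝓝 s, volume {y ∈ U ∩ N | mu Ω Γ χ y ≤ M} ≠ 0) :
    ExtS a f ρ₁ ρ₂ s := by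
  obtain ⟨r, hr, hrV⟩ := nhds_basis_closedBall.mem_iff.1 (hV.mem_nhds hs)
  have hae := (mu_loc Ω hU hχ h).2.and (slice_null h)
  have hz : ∀ n : ℕ, ∃ z, z ∈ U ∧ z ∈ closedBall s r ∧ dist z s < 1 / ((n : ℝ) + 1) ∧
      mu Ω Γ χ z ≤ M ∧ (Integrable fun w => χ w ^ 2 * fd Ω Γ (z, w)) ∧
      volume {w ∈ ball (0 : C2) ρ₂ | (z, w) ∉ reg a Γ} = 0 := by
    intro n
    have hN : closedBall s r ∩ ball s (1 / ((n : ℝ) + 1)) ∈ 𝓝 s :=
      inter_mem (closedBall_mem_nhds s hr) (ball_mem_nhds s Nat.one_div_pos_of_nat)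
    obtain ⟨z, hz, h1, h2⟩ := (frequently_ae_iff.2 (hM _ hN)).and_eventually hae |>.exists
    exact ⟨z, hz.1.1, hz.1.2.1, hz.1.2.2, hz.2, h1 hz.1.1, h2 hz.1.1⟩
  choose z hzU hzK hzd hzM hzI hz0 using hz
  have hzs : Tendsto z atTop (𝓝 s) :=
    tendsto_iff_dist_tendsto_zero.2 (squeeze_zero (fun _ => dist_nonneg) (fun n => (hzd n).le)
      tendsto_one_div_add_atTop_nhds_zero_nat)
  have hzu : Tendsto z (hyperfilter ℕ : Filter ℕ) (𝓝 s) :=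
    hzs.mono_left Nat.hyperfilter_le_atTop
  choose G hG hGa hGf using fun n => bish2b_aux_slice h0 (h13.trans h32) h ha (hzU n)
    fun w hw => hf (z n, w) ⟨hUV (hzU n), hw⟩
  have hsh : ∀ w ∈ shell ρ₁ ρ₃, w ∈ shell ρ₁ ρ₂ := fun w hw =>
    mem_shell.2 ⟨(mem_shell.1 hw).1, (mem_shell.1 hw).2.trans h32⟩
  have hL : AnOn a (ball 0 ρ₃)
      (res (ulim (hyperfilter ℕ : Filter ℕ) fun n => res (G n) (ball 0 ρ₃)) (ball 0 ρ₃)) := by
    refine bishop (hyperfilter ℕ) (Eventually.of_forall fun n =>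
      (hG n).restrict isOpen_ball (ball_subset_ball h32.le)) fun i K hK hKc => ?_
    obtain ⟨C, hC⟩ := slice_vol Ω hV hU hUV h13 hχ hf ha (isCompact_closedBall s r) hrV M i hKc hK
    refine ⟨C, Eventually.of_forall fun n => ?_⟩
    rw [bish2b_aux_gvol isOpen_ball i fun p hp => (hK hp).1]
    exact hC (z n) ⟨hzK n, hzU n⟩ (G n) (hG n) (hGa n) (hz0 n) (hzI n) (hzM n)
  have hfs : ∀ w ∈ shell ρ₁ ρ₂, HolAt a (fun w => f (s, w)) w := fun w hw =>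
    bish2b_aux_hol (hf (s, w) ⟨hs, hw⟩)
  have hg : GraphOn a
      (res (ulim (hyperfilter ℕ : Filter ℕ) fun n => res (G n) (ball 0 ρ₃)) (ball 0 ρ₃))
      (shell ρ₁ ρ₃) (fun w => f (s, w)) := by
    refine ⟨fun w hw => hfs w (hsh w hw), fun w hw x => ?_⟩
    have hl := bish2b_aux_lim (H := fun n => res (G n) (ball 0 ρ₃)) hzu (isOpen_shell ρ₁ ρ₃)
      (fun n w hw x => ⟨fun hx => (hGf n w (hsh w hw) x).1 hx.1,
        fun hx => ⟨(hGf n w (hsh w hw) x).2 hx, shell_subset _ _ hw⟩⟩) hw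
      (hf (s, w) ⟨hs, hsh w hw⟩).1 x
    exact ⟨fun hx => hl.1 hx.1, fun hx => ⟨hl.2 hx, shell_subset _ _ hw⟩⟩
  obtain ⟨G₁, hG₁, -, hag⟩ := lemX isOpen_ball (convex_ball (0 : C2) ρ₃).isPreconnected hL
    (isOpen_shell ρ₁ ρ₃) (shell_nonempty h0 h13) hg
  have hG₂ := mg_graph (isOpen_shell ρ₁ ρ₂) hfs
  have hc : Agree G₁ (res (grf fun w => f (s, w)) (shell ρ₁ ρ₂)) (ball 0 ρ₃ ∩ shell ρ₁ ρ₂) := by
    intro w hw x
    have hw' : w ∈ shell ρ₁ ρ₃ :=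
      mem_shell.2 ⟨(mem_shell.1 hw.2).1, mem_ball_zero_iff.1 hw.1⟩
    refine ((hag w (hg.subset_reg (isOpen_shell ρ₁ ρ₃) hw') x).trans (hg.2 w hw' x)).trans ?_
    exact ⟨fun hx => ⟨hx, hw.2⟩, fun hx => hx.1⟩
  obtain ⟨hu, -, hu₂⟩ := hG₁.union hG₂ hc
  have he : ball (0 : C2) ρ₃ ∪ shell ρ₁ ρ₂ = ball 0 ρ₂ := by
    ext w
    rw [mem_union, mem_shell, mem_ball_zero_iff, mem_ball_zero_iff]
    constructor
    · rintro (hw | hw)
      · exact hw.trans h32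
      · exact hw.2
    · intro hw
      by_cases h3 : ‖w‖ < ρ₃
      · exact Or.inl h3
      · exact Or.inr ⟨h13.trans_le (not_lt.1 h3), hw⟩
  rw [he] at hu
  refine ⟨_, hu, fun w hw x => (hu₂ w hw x).trans ⟨fun hx => hx.1, fun hx => ⟨hx, hw⟩⟩⟩

end Pool.Agent.Lib.MP_823829_an
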