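import Pool.Agent.Lib.MP_823829_an.LelB

/-! The limit of graphs of bounded volume has measure zero in dimension five. -/

namespace Pool.Agent.Lib.MP_823829_an

open Set Metric Filter MeasureTheory
open scoped Topology ENNReal NNReal ContDiff ComplexConjugate

section Pack

variable {E : Type} [MetricSpace E]

theorem bisha_aux_pack (A : Set E) (δ B : ℝ)
    (h : ∀ S : Finset E, ↑S ⊆ A → (S : Set E).Pairwise (fun a b => δ ≤ dist a b) → S.card ≤ B) :
    ∃ S : Finset E, S.card ≤ B ∧ ∀ a ∈ A, ∃ p ∈ S, a = p ∨ dist a p < δ := by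
  classical
  obtain ⟨S, h1, h2, h3⟩ := Nat.sSup_mem (s := {n | ∃ S : Finset E, ↑S ⊆ A ∧
    (S : Set E).Pairwise (fun a b => δ ≤ dist a b) ∧ S.card = n}) ⟨0, ∅, by simp⟩
    ⟨⌊B⌋₊, by rintro _ ⟨S, h1, h2, rfl⟩; exact Nat.le_floor (h S h1 h2)⟩
  refine ⟨S, h S h1 h2, fun a ha => ?_⟩
  by_contra hn
  push Not at hn
  have h4 : a ∉ S := fun h => (hn a h).1 rfl
  have h5 : (insert a S).card ≤ S.card := h3 ▸ le_csSup
    ⟨⌊B⌋₊, by rintro _ ⟨S, h1, h2, rfl⟩; exact Nat.le_floor (h S h1 h2)⟩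
    ⟨insert a S, by rw [Finset.coe_insert]; exact insert_subset ha h1, by
      rw [Finset.coe_insert]
      exact h2.insert fun b hb _ => ⟨(hn b hb).2, dist_comm a b ▸ (hn b hb).2⟩, rfl⟩
  rw [Finset.card_insert_of_notMem h4] at h5
  omega

variable [MeasurableSpace E] [BorelSpace E]

theorem bisha_aux_fin (A : Set E) {s C r : ℝ} (hs : 0 ≤ s) (hr : 0 < r)
    (h : ∀ ρ, 0 < ρ → ρ ≤ r → ∀ S : Finset E, ↑S ⊆ A →
      (S : Set E).Pairwise (fun a b => 4 * ρ ≤ dist a b) → S.card ≤ C / ρ ^ s) :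
    μH[s] A ≠ ⊤ := by
  have h1 : ∀ ρ : ℝ, ∃ S : Finset E, 0 < ρ → ρ ≤ r → S.card ≤ C / ρ ^ s ∧
      ∀ a ∈ A, ∃ p ∈ S, a = p ∨ dist a p < 4 * ρ := fun ρ => by
    by_cases h0 : 0 < ρ ∧ ρ ≤ r
    · obtain ⟨S, hS⟩ := bisha_aux_pack A _ _ (h ρ h0.1 h0.2)
      exact ⟨S, fun _ _ => hS⟩
    · exact ⟨∅, fun a b => absurd ⟨a, b⟩ h0⟩
  choose S hS using h1
  have h2 : ∀ᶠ ρ in 𝓝[>] (0 : ℝ), 0 < ρ ∧ ρ ≤ r := Ioc_mem_nhdsGT hr
  have h3 : ∀ (ρ : ℝ) (p : E), ediam (closedBall p (4 * ρ)) ≤ ENNReal.ofReal (8 * ρ) :=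
    fun ρ p => ediam_le_of_forall_dist_le fun a ha b hb => by
      linarith [dist_triangle_right a b p, mem_closedBall.1 ha, mem_closedBall.1 hb]
  have h4 : Tendsto (fun ρ : ℝ => ENNReal.ofReal (8 * ρ)) (𝓝[>] 0) (𝓝 0) := by
    have : Continuous fun ρ : ℝ => ENNReal.ofReal (8 * ρ) :=
      ENNReal.continuous_ofReal.comp (by fun_prop)
    simpa using (this.tendsto 0).mono_left nhdsWithin_le_nhds
  refine ne_top_of_le_ne_top (ENNReal.ofReal_ne_top (r := C * 8 ^ s))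
    ((Measure.hausdorffMeasure_le_liminf_sum (ι := fun ρ => S ρ) s A _ h4
      (fun ρ p => closedBall p (4 * ρ)) (Eventually.of_forall fun ρ p => h3 ρ p)
      (h2.mono fun ρ hρ a ha => ?_)).trans
      (liminf_le_of_frequently_le' (h2.mono fun ρ hρ => ?_).frequently))
  · obtain ⟨p, hp, e⟩ := (hS ρ hρ.1 hρ.2).2 a ha
    refine mem_iUnion.2 ⟨⟨p, hp⟩, ?_⟩
    rcases e with rfl | e
    · exact mem_closedBall_self (by linarith [hρ.1])
    · exact e.le
  · have h0 := hρ.1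
    refine (Finset.sum_le_card_nsmul _ _ (ENNReal.ofReal (8 * ρ) ^ s) fun (p : S ρ) _ =>
      ENNReal.rpow_le_rpow (h3 ρ p) hs).trans ?_
    rw [Finset.card_univ, Fintype.card_coe, nsmul_eq_mul,
      ENNReal.ofReal_rpow_of_pos (by positivity), ← ENNReal.ofReal_natCast,
      ← ENNReal.ofReal_mul (by positivity), Real.mul_rpow (by norm_num) h0.le]
    refine ENNReal.ofReal_le_ofReal ?_
    have h5 := (le_div_iff₀ (by positivity)).1 (hS ρ hρ.1 hρ.2).1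
    have h6 : (0 : ℝ) ≤ 8 ^ s := by positivity
    nlinarith

end Pack

theorem isClosed_ulim {Y ι : Type*} [TopologicalSpace Y] (l : Filter ι) (Z : ι → Set Y) :
    IsClosed (ulim l Z) := by
  refine isClosed_of_closure_subset fun p hp N hN => ?_
  obtain ⟨q, q1, q2⟩ := mem_closure_iff_nhds.1 hp _ (interior_mem_nhds.2 hN)
  exact q2 N (mem_interior_iff_mem_nhds.1 q1)

theorem ulim_avoid {Y ι : Type*} [TopologicalSpace Y] (𝒰 : Ultrafilter ι) (Z : ι → Set Y)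
    {C : Set Y} (hC : IsCompact C) (h : Disjoint C (ulim 𝒰 Z)) :
    ∀ᶠ n in (𝒰 : Filter ι), Disjoint C (Z n) := by
  refine hC.induction_on (p := fun S => ∀ᶠ n in (𝒰 : Filter ι), Disjoint S (Z n))
    (Eventually.of_forall fun _ => empty_disjoint _)
    (fun _ _ hs ht => ht.mono fun _ hn => hn.mono_left hs)
    (fun _ _ hs ht => (hs.and ht).mono fun _ hn => disjoint_union_left.2 hn) fun p hp => ?_
  have h1 : ¬ ∀ N ∈ 𝓝 p, ∀ᶠ n in (𝒰 : Filter ι), (Z n ∩ N).Nonempty := disjoint_left.1 h hp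
  obtain ⟨N, h2⟩ := not_forall.1 h1
  obtain ⟨hN, h3⟩ := Classical.not_imp.1 h2
  refine ⟨N, mem_nhdsWithin_of_mem_nhds hN, (Ultrafilter.eventually_not.2 h3).mono fun n hn => ?_⟩
  exact (not_not.1 (mt not_disjoint_iff_nonempty_inter.1 hn)).symm

theorem bish_null {m : ℕ} {ι : Type*} (l : Filter ι) [l.NeBot] {W : Set (C2 × (Fin m → ℂ))}
    {Z : ι → Set (C2 × (Fin m → ℂ))} {O : ι → Set C2} {g : ι → C2 → Fin m → ℂ}
    (hG : ∀ᶠ n in l, GS (Z n) W (O n) (g n))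
    (hv : ∀ K ⊆ W, IsCompact K → ∃ C : ℝ≥0, ∀ᶠ n in l, gvol (O n) (g n) K ≤ C) :
    μH[5] (ulim l Z ∩ W) = 0 := by
  obtain ⟨c, c0, hc⟩ := lelong m
  obtain ⟨n₀, hn₀⟩ := hG.exists
  refine measure_null_of_locally_null _ fun x hx => ?_
  obtain ⟨R, R0, hR⟩ := nhds_basis_closedBall.mem_iff.1 (hn₀.opW.mem_nhds hx.2)
  obtain ⟨M, hM⟩ := hv _ hR (isCompact_closedBall _ _)
  refine ⟨ulim l Z ∩ W ∩ closedBall x (R / 2),
    inter_mem_nhdsWithin _ (closedBall_mem_nhds x (half_pos R0)),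
    (Measure.hausdorffMeasure_zero_or_top (d₁ := 4) (by norm_num) _).resolve_right
      (bisha_aux_fin _ (C := M / c) (r := R / 4) (by norm_num) (by positivity)
        fun ρ a0 a1 S a2 a3 => ?_)⟩
  have b3 : ∀ᶠ j in l, ∀ p ∈ S, (Z j ∩ ball p ρ).Nonempty :=
    (eventually_all_finset S).2 fun p hp => (a2 hp).1.1 _ (ball_mem_nhds p a0)
  obtain ⟨j, c1, c2, c3⟩ := (hM.and (hG.and b3)).exists
  have b4 : ∀ p ∈ S, closedBall p (2 * ρ) ⊆ closedBall x R := fun p hp =>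
    closedBall_subset_closedBall' (by linarith only [mem_closedBall.1 (a2 hp).2, a1])
  have b5 : ∀ p ∈ S, ENNReal.ofReal (c * ρ ^ 4) ≤ gvol (O j) (g j) (ball p (2 * ρ)) :=
    fun p hp => by
      obtain ⟨q, q1, q2⟩ := c3 p hp
      obtain ⟨⟨t, y⟩, t1, t2, t3⟩ := mem_closure_iff.1 (c2.dense q1) _ isOpen_ball q2
      obtain rfl := (c2.gr t t3 y).1 t2
      have d1 : ρ + dist (t, g j t) p ≤ 2 * ρ := by linarith only [mem_ball.1 t1]
      exact (hc _ _ _ _ c2 t t3 ρ a0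
        ((closedBall_subset_closedBall' d1).trans ((b4 p hp).trans hR))).trans
        (gvol_mono _ _ (ball_subset_ball' d1))
  have b7 : ∑ p ∈ S, gvol (O j) (g j) (ball p (2 * ρ)) ≤ gvol (O j) (g j) (closedBall x R) := by
    unfold gvol
    rw [← lintegral_biUnion_finset (fun a ha b hb hab => ?_)
      fun p _ => c2.measurableSet measurableSet_ball]
    · exact lintegral_mono_set (iUnion₂_subset fun p hp t ht =>
        ⟨ht.1, b4 p hp (ball_subset_closedBall ht.2)⟩)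
    · exact disjoint_left.2 fun t h1 h2 => disjoint_left.1
        (ball_disjoint_ball (by linarith only [a3 ha hb hab])) h1.2 h2.2
  have b6 := (Finset.card_nsmul_le_sum _ _ _ b5).trans (b7.trans c1)
  rw [nsmul_eq_mul, ← ENNReal.ofReal_natCast, ← ENNReal.ofReal_mul (by positivity),
    ← ENNReal.ofReal_coe_nnreal] at b6
  rw [div_div, le_div_iff₀ (by positivity), Real.rpow_ofNat]
  exact (ENNReal.ofReal_le_ofReal_iff M.2).1 b6

end Pool.Agent.Lib.MP_823829_an
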