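import Pool.Agent.Lib.MP_823829_an.Defs

/-! Sets with small potentials have measure zero in dimension three. -/

namespace Pool.Agent.Lib.MP_823829_an

open Set Metric Filter MeasureTheory
open scoped Topology ENNReal NNReal ContDiff ComplexConjugate

theorem cartan_aux_pot {n : ℕ} (c ρ τ : Fin n → ℝ) (hc : ∀ i, 0 ≤ c i) (hτ : ∀ i, 0 < τ i)
    {t R : ℝ} (hR : 0 < R)
    (hm : ∀ r, 0 < r → r ≤ R → ∑ i, (if ρ i ≤ r then c i else 0) ≤ t * r ^ 3) :
    ∑ i, (if ρ i ≤ R then c i / (ρ i ^ 2 + τ i ^ 2) else 0) ≤ 8 * t * R := by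
  set f : ℝ → ℝ := fun s => ∑ i, (if ρ i ≤ s then c i / (ρ i ^ 2 + τ i ^ 2) else 0) with hf
  have hden : ∀ i, 0 < ρ i ^ 2 + τ i ^ 2 := fun i => by have := hτ i; positivity
  have step : ∀ s, 0 < s → s ≤ R → f s ≤ f (s / 2) + 4 * t * s := by
    intro s hs hsR
    have h1 : f s ≤ f (s / 2) + 4 / s ^ 2 * ∑ i, (if ρ i ≤ s then c i else 0) := by
      simp only [hf]
      rw [Finset.mul_sum, ← Finset.sum_add_distrib]
      refine Finset.sum_le_sum fun i _ => ?_
      have hci := hc i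
      have hd := hden i
      by_cases h2 : ρ i ≤ s / 2
      · have h3 : ρ i ≤ s := by linarith
        rw [if_pos h2, if_pos h3, if_pos h3]
        have : 0 ≤ 4 / s ^ 2 * c i := by positivity
        linarith
      · rw [if_neg h2]
        by_cases h3 : ρ i ≤ s
        · rw [if_pos h3, if_pos h3, zero_add, div_le_iff₀ hd]
          have h4 : s / 2 < ρ i := not_le.1 h2
          have h5 : s ^ 2 ≤ 4 * (ρ i ^ 2 + τ i ^ 2) := by nlinarith [sq_nonneg (τ i)]
          have h6 : 1 ≤ 4 / s ^ 2 * (ρ i ^ 2 + τ i ^ 2) := by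
            rw [div_mul_eq_mul_div, le_div_iff₀ (by positivity)]
            linarith
          nlinarith
        · rw [if_neg h3, if_neg h3]; simp
    have h2 : 4 / s ^ 2 * ∑ i, (if ρ i ≤ s then c i else 0) ≤ 4 / s ^ 2 * (t * s ^ 3) :=
      mul_le_mul_of_nonneg_left (hm s hs hsR) (by positivity)
    have h3 : 4 / s ^ 2 * (t * s ^ 3) = 4 * t * s := by field_simp
    linarith
  have hle : ∀ N : ℕ, R / 2 ^ N ≤ R := fun N =>
    div_le_self hR.le (one_le_pow₀ (by norm_num))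
  have ind : ∀ N : ℕ, f R ≤ f (R / 2 ^ N) + 8 * t * R * (1 - 1 / 2 ^ N) := by
    intro N
    induction N with
    | zero => simp
    | succ N ih =>
      have h1 := step (R / 2 ^ N) (by positivity) (hle N)
      have h2 : R / 2 ^ N / 2 = R / 2 ^ (N + 1) := by rw [pow_succ]; field_simp
      have h3 : 8 * t * R * (1 - 1 / 2 ^ N) + 4 * t * (R / 2 ^ N) =
          8 * t * R * (1 - 1 / 2 ^ (N + 1)) := by rw [pow_succ]; field_simp; ring
      rw [h2] at h1
      linarith
  set A : ℝ := ∑ i, 1 / τ i ^ 2 with hA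
  have hA0 : 0 ≤ A := Finset.sum_nonneg fun i _ => by positivity
  have tail : ∀ s, 0 < s → s ≤ R → f s ≤ A * (t * s ^ 3) := by
    intro s hs hsR
    refine le_trans ?_ (mul_le_mul_of_nonneg_left (hm s hs hsR) hA0)
    simp only [hf]
    rw [Finset.mul_sum]
    refine Finset.sum_le_sum fun i _ => ?_
    by_cases h3 : ρ i ≤ s
    · rw [if_pos h3, if_pos h3]
      have h1 : 1 / τ i ^ 2 ≤ A :=
        Finset.single_le_sum (f := fun i => 1 / τ i ^ 2) (fun i _ => by positivity)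
          (Finset.mem_univ i)
      have hti := hτ i
      have h2 : c i / (ρ i ^ 2 + τ i ^ 2) ≤ c i / τ i ^ 2 :=
        div_le_div_of_nonneg_left (hc i) (by positivity) (by nlinarith [sq_nonneg (ρ i)])
      have h4 : c i / τ i ^ 2 = 1 / τ i ^ 2 * c i := by ring
      have h5 := mul_le_mul_of_nonneg_right h1 (hc i)
      linarith
    · rw [if_neg h3, if_neg h3]; simp
  have hhalf : Tendsto (fun N : ℕ => (1 / 2 : ℝ) ^ N) atTop (𝓝 0) :=
    tendsto_pow_atTop_nhds_zero_of_lt_one (by norm_num) (by norm_num)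
  have hlim : Tendsto (fun N : ℕ => A * (t * (R * (1 / 2 : ℝ) ^ N) ^ 3) +
      8 * t * R * (1 - (1 / 2 : ℝ) ^ N)) atTop
      (𝓝 (A * (t * (R * 0) ^ 3) + 8 * t * R * (1 - 0))) :=
    ((((hhalf.const_mul R).pow 3).const_mul t).const_mul A).add
      ((tendsto_const_nhds.sub hhalf).const_mul _)
  have hfin : f R ≤ A * (t * (R * 0) ^ 3) + 8 * t * R * (1 - 0) := by
    refine ge_of_tendsto' hlim fun N => ?_
    have h1 := ind N
    have h2 := tail (R / 2 ^ N) (by positivity) (hle N)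
    have h3 : R * (1 / 2 : ℝ) ^ N = R / 2 ^ N := by rw [one_div_pow]; ring
    rw [h3, one_div_pow]
    linarith
  simpa using hfin

theorem cartan_aux_cover {V : Type} [NormedAddCommGroup V] {q : V → ℝ}
    (hq : ∀ x, ‖x‖ ^ 2 ≤ q x) {K : Set V} (h : Small q K) {R : ℝ} (hR : 0 < R) :
    ∃ (u : Finset V) (r : V → ℝ), (∀ b ∈ u, 0 < r b ∧ r b ≤ R) ∧
      (∀ x ∈ K, ∃ b ∈ u, x ∈ closedBall b (5 * r b)) ∧ ∑ b ∈ u, r b ^ 3 ≤ 8 * R ^ 3 := by
  classical
  obtain ⟨n, c, y, τ, hc, hτ, hsum, hK⟩ := h (R ^ 2 / 2) (by positivity)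
  set t : ℝ := 1 / (16 * R) with ht
  have ht0 : 0 < t := by positivity
  have key : ∀ x ∈ K, ∃ r, 0 < r ∧ r ≤ R ∧
      t * r ^ 3 < ∑ i, (if ‖x - y i‖ ≤ r then c i else 0) := by
    intro x hx
    by_contra hcon
    push Not at hcon
    have h1 := cartan_aux_pot c (fun i => ‖x - y i‖) τ hc hτ hR hcon
    have h2 : ∑ i, c i / (q (x - y i) + τ i ^ 2) ≤
        ∑ i, (if ‖x - y i‖ ≤ R then c i / (‖x - y i‖ ^ 2 + τ i ^ 2) else 0) +
          1 / R ^ 2 * ∑ i, c i := by
      rw [Finset.mul_sum, ← Finset.sum_add_distrib]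
      refine Finset.sum_le_sum fun i _ => ?_
      have hci := hc i
      have hti := hτ i
      have h3 : c i / (q (x - y i) + τ i ^ 2) ≤ c i / (‖x - y i‖ ^ 2 + τ i ^ 2) :=
        div_le_div_of_nonneg_left hci (by positivity) (by linarith [hq (x - y i)])
      by_cases h4 : ‖x - y i‖ ≤ R
      · rw [if_pos h4]
        have : 0 ≤ 1 / R ^ 2 * c i := by positivity
        linarith
      · rw [if_neg h4]
        have h5 : R < ‖x - y i‖ := not_le.1 h4
        have h6 : c i / (‖x - y i‖ ^ 2 + τ i ^ 2) ≤ c i / R ^ 2 :=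
          div_le_div_of_nonneg_left hci (by positivity) (by nlinarith [sq_nonneg (τ i)])
        have h7 : c i / R ^ 2 = 1 / R ^ 2 * c i := by ring
        linarith
    have h3 : 1 / R ^ 2 * ∑ i, c i ≤ 1 / R ^ 2 * (R ^ 2 / 2) :=
      mul_le_mul_of_nonneg_left hsum (by positivity)
    have h4 : 1 / R ^ 2 * (R ^ 2 / 2) = 1 / 2 := by field_simp
    have h5 : 8 * t * R = 1 / 2 := by rw [ht]; field_simp; norm_num
    have h6 := hK x hx
    linarith
  choose! r hr0 hrR hrm using key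
  obtain ⟨u, huK, hdisj, hcov⟩ :=
    Vitali.exists_disjoint_subfamily_covering_enlargement_closedBall K (fun x => x) r R hrR 5
      (by norm_num)
  have hex : ∀ b ∈ u, ∃ i, ‖b - y i‖ ≤ r b := by
    intro b hb
    by_contra hcon
    push Not at hcon
    have h1 := hrm b (huK hb)
    have h2 : ∑ i, (if ‖b - y i‖ ≤ r b then c i else 0) = 0 :=
      Finset.sum_eq_zero fun i _ => if_neg (not_le.2 (hcon i))
    have h3 := hr0 b (huK hb)
    have h4 : 0 < t * r b ^ 3 := by positivity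
    linarith
  have huniq : ∀ i, ∀ b ∈ u, ∀ b' ∈ u, ‖b - y i‖ ≤ r b → ‖b' - y i‖ ≤ r b' → b = b' := by
    intro i b hb b' hb' h1 h2
    by_contra hne
    have h3 := hdisj hb hb' hne
    have h4 : y i ∈ closedBall b (r b) := by
      rw [mem_closedBall, dist_comm, dist_eq_norm]; exact h1
    have h5 : y i ∈ closedBall b' (r b') := by
      rw [mem_closedBall, dist_comm, dist_eq_norm]; exact h2
    exact Set.disjoint_left.1 h3 h4 h5
  have hfin : u.Finite := by
    have h1 : u ⊆ ⋃ i, {b | b ∈ u ∧ ‖b - y i‖ ≤ r b} := by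
      intro b hb
      obtain ⟨i, hi⟩ := hex b hb
      exact mem_iUnion.2 ⟨i, hb, hi⟩
    refine Set.Finite.subset (Set.finite_iUnion fun i => Set.Subsingleton.finite ?_) h1
    intro b hb b' hb'
    exact huniq i b hb.1 b' hb'.1 hb.2 hb'.2
  refine ⟨hfin.toFinset, r, fun b hb => ?_, fun x hx => ?_, ?_⟩
  · have hb' := huK (hfin.mem_toFinset.1 hb)
    exact ⟨hr0 b hb', hrR b hb'⟩
  · obtain ⟨b, hb, hsub⟩ := hcov x hx
    exact ⟨b, hfin.mem_toFinset.2 hb, hsub (mem_closedBall_self (hr0 x hx).le)⟩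
  · have h1 : ∑ b ∈ hfin.toFinset, t * r b ^ 3 ≤
        ∑ b ∈ hfin.toFinset, ∑ i, (if ‖b - y i‖ ≤ r b then c i else 0) :=
      Finset.sum_le_sum fun b hb => (hrm b (huK (hfin.mem_toFinset.1 hb))).le
    have h2 : ∑ b ∈ hfin.toFinset, ∑ i, (if ‖b - y i‖ ≤ r b then c i else 0) ≤ ∑ i, c i := by
      rw [Finset.sum_comm]
      refine Finset.sum_le_sum fun i _ => ?_
      by_cases h3 : ∃ b ∈ hfin.toFinset, ‖b - y i‖ ≤ r b
      · obtain ⟨b, hb, hbi⟩ := h3
        rw [Finset.sum_eq_single_of_mem b hb, if_pos hbi]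
        intro b' hb' hne
        refine if_neg fun h4 => hne ?_
        exact huniq i b' (hfin.mem_toFinset.1 hb') b (hfin.mem_toFinset.1 hb) h4 hbi
      · rw [Finset.sum_eq_zero fun b hb => if_neg fun h4 => h3 ⟨b, hb, h4⟩]
        exact hc i
    rw [← Finset.mul_sum] at h1
    have h3 : t * ∑ b ∈ hfin.toFinset, r b ^ 3 ≤ t * (8 * R ^ 3) := by
      have h4 : t * (8 * R ^ 3) = R ^ 2 / 2 := by rw [ht]; field_simp; norm_num
      linarith
    exact le_of_mul_le_mul_left h3 ht0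

theorem cartan_aux_ediam {V : Type} [NormedAddCommGroup V] (b : V) (s : ℝ) :
    ediam (closedBall b s) ≤ ENNReal.ofReal (2 * s) := by
  refine Metric.ediam_le fun x hx z hz => ?_
  rw [edist_dist]
  refine ENNReal.ofReal_le_ofReal ?_
  have h1 := dist_triangle_right x z b
  rw [mem_closedBall] at hx hz
  linarith

theorem cartan {V : Type} [NormedAddCommGroup V] [SecondCountableTopology V] [MeasurableSpace V]
    [BorelSpace V] {q : V → ℝ} (hq : ∀ x, ‖x‖ ^ 2 ≤ q x) {K : Set V} (h : Small q K) :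
    μH[3] K = 0 := by
  have hpos : ∀ k : ℕ, (0 : ℝ) < 1 / ((k : ℝ) + 1) := fun k => by positivity
  choose u r hr hcov hsum using fun k : ℕ => cartan_aux_cover hq h (hpos k)
  have hR : Tendsto (fun k : ℕ => 1 / ((k : ℝ) + 1)) atTop (𝓝 0) :=
    tendsto_one_div_add_atTop_nhds_zero_nat
  have h1 : Tendsto (fun k : ℕ => ENNReal.ofReal (10 * (1 / ((k : ℝ) + 1)))) atTop (𝓝 0) := by
    have := ENNReal.tendsto_ofReal (hR.const_mul 10)
    simpa using this
  have h2 : Tendsto (fun k : ℕ => ENNReal.ofReal (8000 * (1 / ((k : ℝ) + 1)) ^ 3)) atTop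
      (𝓝 0) := by
    have := ENNReal.tendsto_ofReal ((hR.pow 3).const_mul 8000)
    simpa using this
  have h3 := Measure.hausdorffMeasure_le_liminf_sum (ι := fun k : ℕ => ↥(u k)) 3 K
    (l := atTop) _ h1 (fun k b => closedBall (b : V) (5 * r k b))
    (Eventually.of_forall fun k b => by
      refine (cartan_aux_ediam _ _).trans (ENNReal.ofReal_le_ofReal ?_)
      have := (hr k b b.2).2
      linarith)
    (Eventually.of_forall fun k x hx => by
      obtain ⟨b, hb, hxb⟩ := hcov k x hx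
      exact mem_iUnion.2 ⟨⟨b, hb⟩, hxb⟩)
  refine le_antisymm (h3.trans ?_) zero_le
  rw [← h2.liminf_eq]
  refine liminf_le_liminf (Eventually.of_forall fun k => ?_)
  have h4 : ∀ b : ↥(u k), ediam (closedBall (b : V) (5 * r k b)) ^ (3 : ℝ) ≤
      ENNReal.ofReal (1000 * r k b ^ 3) := by
    intro b
    have h5 := (hr k b b.2).1
    refine (ENNReal.rpow_le_rpow (cartan_aux_ediam _ _) (by norm_num)).trans (le_of_eq ?_)
    rw [ENNReal.ofReal_rpow_of_nonneg (by positivity) (by norm_num)]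
    congr 1
    rw [show (3 : ℝ) = ((3 : ℕ) : ℝ) by norm_num, Real.rpow_natCast]
    ring
  refine (Finset.sum_le_sum fun b _ => h4 b).trans ?_
  rw [← ENNReal.ofReal_sum_of_nonneg fun b _ => by have := (hr k b b.2).1; positivity]
  refine ENNReal.ofReal_le_ofReal ?_
  rw [← Finset.mul_sum, Finset.sum_coe_sort (u k) fun b => r k b ^ 3]
  have := hsum k
  linarith

end Pool.Agent.Lib.MP_823829_an
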