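import Pool.Agent.Lib.MP_823829_an.SFb

/-! Closed sets of small measure do not disconnect. -/

namespace Pool.Agent.Lib.MP_823829_an

open Set Metric Filter MeasureTheory
open scoped Topology ENNReal NNReal ContDiff ComplexConjugate

variable {A T : Type} [NormedAddCommGroup A] [NormedSpace ℂ A] [FiniteDimensional ℂ A]
  [MeasurableSpace A] [BorelSpace A]
  [NormedAddCommGroup T] [NormedSpace ℂ T] [FiniteDimensional ℂ T] [MeasurableSpace T]
  [BorelSpace T]

theorem Slim.mono {R R' : Set T} (h : Slim R) (hs : R' ⊆ R) : Slim R' := fun v => measure_mono_null (fun _ hx => hx.imp fun _ h1 => hs h1) (h v)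

theorem Slim.union {R R' : Set T} (h : Slim R) (h' : Slim R') : Slim (R ∪ R') := fun v =>
  measure_mono_null (by rintro x ⟨s, h1 | h1⟩; exacts [Or.inl ⟨s, h1⟩, Or.inr ⟨s, h1⟩])
    (measure_union_null (h v) (h' v))

theorem Slim.null {R : Set T} (h : Slim R) : μH[rd T] R = 0 := 
  measure_mono_null (fun x hx => by exact ⟨0, by simpa using hx⟩) (h 0)

theorem conn_aux_pre {E F : Type} [NormedAddCommGroup E] [NormedSpace ℝ E] [FiniteDimensional ℝ E]
    [MeasurableSpace E] [BorelSpace E] [NormedAddCommGroup F] [NormedSpace ℝ F]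
    [FiniteDimensional ℝ F] [MeasurableSpace F] [BorelSpace F] (Q : E →ₗ[ℝ] F)
    (hQ : LinearMap.range Q = ⊤) (μ : Measure E) [μ.IsAddHaarMeasure] (ν : Measure F)
    [ν.IsAddHaarMeasure] {S : Set F} (h : ν S = 0) : μ (Q ⁻¹' S) = 0 := by
  have := FiniteDimensional.proper ℝ F
  have h1 := (ae_comp_linearMap_mem_iff Q μ ν (LinearMap.range_eq_top.1 hQ)
    (measurableSet_toMeasurable ν S).compl).2
    (measure_eq_zero_iff_ae_notMem.1 ((measure_toMeasurable S).trans h))
  exact measure_eq_zero_iff_ae_notMem.2 (h1.mono fun x hx h2 => hx (subset_toMeasurable ν S h2))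

theorem slim_of_null [Nontrivial T] {R : Set T} (h : μH[rd T - 1] R = 0) : Slim R := fun v => by
  have : FiniteDimensional ℝ T := Module.Finite.trans ℂ T
  have h2 := two_le_rd (T := T)
  rcases eq_or_ne v 0 with rfl | hv
  · exact measure_mono_null (fun x ⟨_, hx⟩ => by simpa using hx) (null_mono_dim h (by linarith))
  let W := Fin (Module.finrank ℝ T - 1) → ℝ
  have h3 : Module.finrank ℝ (T ⧸ Submodule.span ℝ {v}) = Module.finrank ℝ W := by
    have := (Submodule.span ℝ {v}).finrank_quotient_add_finrank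
    rw [finrank_span_singleton hv] at this
    simp [W, ← this]
  let Q : T →ₗ[ℝ] W := (LinearEquiv.ofFinrankEq _ _ h3).toLinearMap ∘ₗ (Submodule.span ℝ {v}).mkQ
  have hQ : LinearMap.range Q = ⊤ := LinearMap.range_eq_top.2
    ((LinearEquiv.surjective _).comp (Submodule.mkQ_surjective _))
  have hv0 : Q v = 0 := by
    simp [Q, (Submodule.Quotient.mk_eq_zero _).2 (Submodule.mem_span_singleton_self v)]
  have h4 : μH[rd T - 1] (Q '' R) = 0 := by
    have := Q.toContinuousLinearMap.lipschitz.hausdorffMeasure_image_le (d := rd T - 1)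
      (by linarith) R
    rw [h, mul_zero] at this
    exact le_antisymm this zero_le
  have h5 : rd T - 1 = (Fintype.card (Fin (Module.finrank ℝ T - 1)) : ℝ) := by
    have h6 : 1 ≤ Module.finrank ℝ T := Module.finrank_pos
    rw [sfb_aux_rd, Fintype.card_fin, Nat.cast_sub h6, Nat.cast_one]
  rw [h5, hausdorffMeasure_pi_real] at h4
  have := haar_hausdorff (T := T)
  refine measure_mono_null (fun x ⟨s, hx⟩ => ?_) (conn_aux_pre Q hQ _ volume h4)
  exact ⟨_, hx, by rw [map_add, Complex.coe_smul, map_smul, hv0, smul_zero, add_zero]⟩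

theorem Slim.preimage {S : Set T} (h : Slim S) (Q : A →L[ℂ] T) (hQ : Function.Surjective Q) :
    Slim (Q ⁻¹' S) := fun v => by
  have : FiniteDimensional ℝ T := Module.Finite.trans ℂ T
  have : FiniteDimensional ℝ A := Module.Finite.trans ℂ A
  have := haar_hausdorff (T := T)
  have := haar_hausdorff (T := A)
  refine measure_mono_null (fun x ⟨s, hx⟩ => ?_) (conn_aux_pre
    ((Q.restrictScalars ℝ : A →L[ℝ] T) : A →ₗ[ℝ] T) (LinearMap.range_eq_top.2 hQ) _ _ (h (Q v)))
  exact ⟨s, by simpa using hx⟩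

theorem conn_aux_ball {U R : Set T} {z : T} {r : ℝ} (hB : ball z r ⊆ U) (ho : IsOpen (U \ R))
    (hs : Slim (R ∩ U)) : IsPreconnected (ball z r \ R) := by
  have ho' : IsOpen (ball z r \ R) := by
    rw [show ball z r \ R = ball z r ∩ (U \ R) from
      ext fun x => ⟨fun h => ⟨h.1, hB h.1, h.2⟩, fun h => ⟨h.1, h.2.2⟩⟩]
    exact isOpen_ball.inter ho
  refine isPreconnected_of_forall_pair fun x hx y hy => ?_
  obtain ⟨a, ha, hxa⟩ := Metric.isOpen_iff.1 ho' x hx
  obtain ⟨b, hb, hyb⟩ := Metric.isOpen_iff.1 ho' y hy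
  obtain ⟨x', h1, h2⟩ := exists_notMem_of_null (hs (y - x)) isOpen_ball
    ⟨x, mem_ball_self (lt_min ha hb)⟩
  have h3 : x' ∈ ball x a := ball_subset_ball (min_le_left _ _) h1
  have h4 : x' + (y - x) ∈ ball y b := by
    rw [mem_ball, dist_eq_norm, show x' + (y - x) - y = x' - x by abel, ← dist_eq_norm]
    exact (mem_ball.1 h1).trans_le (min_le_right _ _)
  refine ⟨ball x a ∪ segment ℝ x' (x' + (y - x)) ∪ ball y b, union_subset (union_subset hxa ?_) hyb,
    Or.inl (Or.inl (mem_ball_self ha)), Or.inr (mem_ball_self hb),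
    ((convex_ball x a).isPreconnected.union x' h3 (left_mem_segment _ _ _)
      (convex_segment _ _).isPreconnected).union _ (Or.inr (right_mem_segment _ _ _)) h4
      (convex_ball y b).isPreconnected⟩
  intro w hw
  have h5 := (convex_ball z r).segment_subset (hxa h3).1 (hyb h4).1 hw
  refine ⟨h5, fun h6 => h2 ?_⟩
  rw [segment_eq_image'] at hw
  obtain ⟨s, -, rfl⟩ := hw
  exact ⟨s, by simpa [Complex.coe_smul] using And.intro h6 (hB h5)⟩

theorem conn {U R : Set T} (hU : IsOpen U) (hc : IsPreconnected U) (ho : IsOpen (U \ R))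
    (hs : Slim (R ∩ U)) : IsPreconnected (U \ R) ∧ U ⊆ closure (U \ R) := by
  have hd : ∀ {D : Set T}, IsOpen D → D ⊆ U → D ⊆ closure (D \ R) := fun hD hDU x hx =>
    mem_closure_iff.2 fun O hO hxO => by
      obtain ⟨t, ht, ht'⟩ := exists_notMem_of_null hs.null (hO.inter hD) ⟨x, hxO, hx⟩
      exact ⟨t, ht.1, ht.2, fun h => ht' ⟨h, hDU ht.2⟩⟩
  refine ⟨?_, hd hU Subset.rfl⟩
  intro u v hu hv huv ⟨x, hx, hxu⟩ ⟨y, hy, hyv⟩
  by_contra hne
  have hdis : ∀ z ∈ U \ R, z ∈ u → z ∉ v := fun z hz h1 h2 => hne ⟨z, hz, h1, h2⟩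
  have key : ∀ z ∈ U, z ∈ interior (R ∪ u) ∨ z ∈ interior (R ∪ v) := fun z hz => by
    obtain ⟨r, hr, hzr⟩ := Metric.isOpen_iff.1 hU z hz
    have h1 := conn_aux_ball hzr ho hs
    have h2 : ball z r \ R ⊆ U \ R := fun w hw => ⟨hzr hw.1, hw.2⟩
    have h3 : ∀ {a : Set T}, ball z r \ R ⊆ a → z ∈ interior (R ∪ a) := fun h =>
      mem_interior_iff_mem_nhds.2 (mem_of_superset (ball_mem_nhds z hr) fun w hw => by
        by_cases h4 : w ∈ R
        · exact Or.inl h4
        · exact Or.inr (h ⟨hw, h4⟩))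
    by_cases h4 : (ball z r \ R ∩ u).Nonempty
    · refine Or.inl (h3 fun w hw => (huv (h2 hw)).resolve_right fun h5 => ?_)
      obtain ⟨w', hw'⟩ := h1 u v hu hv (h2.trans huv) h4 ⟨w, hw, h5⟩
      exact hdis w' (h2 hw'.1) hw'.2.1 hw'.2.2
    · exact Or.inr (h3 fun w hw => (huv (h2 hw)).resolve_left fun h5 => h4 ⟨w, hw, h5⟩)
  obtain ⟨z, hz, z1, z2⟩ := hc _ _ isOpen_interior isOpen_interior key
    ⟨x, hx.1, interior_maximal subset_union_right hu hxu⟩
    ⟨y, hy.1, interior_maximal subset_union_right hv hyv⟩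
  obtain ⟨w, w1, w2⟩ := mem_closure_iff.1 (hd hU Subset.rfl hz) _
    (isOpen_interior.inter isOpen_interior) ⟨z1, z2⟩
  exact hdis w w2 ((interior_subset w1.1).resolve_left w2.2)
    ((interior_subset w1.2).resolve_left w2.2)

end Pool.Agent.Lib.MP_823829_an
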