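import Pool.Agent.Lib.MP_823829_an.Stmt

/-!
Internal definitions for the extension theorem.
-/

namespace Pool.Agent.Lib.MP_823829_an

open Set Metric Filter MeasureTheory
open scoped Topology ENNReal NNReal ContDiff ComplexConjugate

section Local

variable {A T : Type} [NormedAddCommGroup A] [NormedSpace ℂ A] [NormedAddCommGroup T]
  [NormedSpace ℂ T]

/-- The real dimension of a complex space, as a real number. -/
noncomputable def rd (T : Type) [NormedAddCommGroup T] [NormedSpace ℂ T] : ℝ :=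
  2 * (Module.finrank ℂ T : ℝ)

/-- `Z` is analytic at the point `x` (which need not belong to `Z`). -/
def AnAt (Z : Set A) (x : A) : Prop :=
  ∃ U : Set A, IsOpen U ∧ x ∈ U ∧ ∃ (n : ℕ) (g : A → Fin n → ℂ),
    DifferentiableOn ℂ g U ∧ ∀ y ∈ U, y ∈ Z ↔ g y = 0

/-- `Z` is analytic at each of its points. -/
def LocAn (Z : Set A) : Prop := ∀ x ∈ Z, AnAt Z x

/-- Near each point of `T₀` the set `σ` lies in the zero set of a holomorphic function that is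
nowhere locally zero. -/
def Neg (σ T₀ : Set T) : Prop :=
  ∀ t ∈ T₀, ∃ U : Set T, IsOpen U ∧ t ∈ U ∧ ∃ δ : T → ℂ, DifferentiableOn ℂ δ U ∧
    (∀ y ∈ U, y ∈ σ → δ y = 0) ∧ ∀ y ∈ U, ∃ᶠ y' in 𝓝 y, δ y' ≠ 0

/-- `Z` is a bounded set, analytic over the open set `T₀` for the linear map `L`. -/
structure FB (Z : Set A) (L : A →L[ℂ] T) (T₀ : Set T) : Prop where
  op : IsOpen T₀
  sub : ∀ x ∈ Z, L x ∈ T₀
  bdd : Bornology.IsBounded Z
  an : ∀ x, L x ∈ T₀ → AnAt Z x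

/-- `p` is isolated in the fibre of `L` on `Z` through `p`. -/
def Iso (Z : Set A) (p : A) (L : A →L[ℂ] T) : Prop :=
  ∀ᶠ x in 𝓝 p, x ∈ Z → L x = L p → x = p

/-- The box of radii `ρ`, `η` around `p`. -/
def box (p : A) (L : A →L[ℂ] T) (ρ η : ℝ) : Set A := ball p ρ ∩ L ⁻¹' ball (L p) η

/-- The compact side of the box of radii `ρ`, `η` around `p`. -/
def side (p : A) (L : A →L[ℂ] T) (ρ η : ℝ) : Set A := sphere p ρ ∩ L ⁻¹' closedBall (L p) η

/-- Over `U` the set `Z` is the disjoint union of the `d` holomorphic sheets `h j`. -/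
structure Sheets (Z : Set A) (L : A →L[ℂ] T) (U : Set T) (d : ℕ) (h : Fin d → T → A) : Prop where
  hol : ∀ j, DifferentiableOn ℂ (h j) U
  sec : ∀ j, ∀ t ∈ U, L (h j t) = t
  inj : ∀ t ∈ U, Function.Injective fun j => h j t
  mem : ∀ x, L x ∈ U → (x ∈ Z ↔ ∃ j, x = h j (L x))

/-- Over a neighbourhood of `t` the set `Z` is a disjoint union of `d` holomorphic sheets. -/
def Good (Z : Set A) (L : A →L[ℂ] T) (d : ℕ) (t : T) : Prop :=
  ∃ U : Set T, IsOpen U ∧ t ∈ U ∧ ∃ h : Fin d → T → A, Sheets Z L U d h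

/-- `Y` is a holomorphic multifunction on `T₀`. -/
def HM {d : ℕ} (Y : T → Fin d → A) (T₀ : Set T) : Prop :=
  ∀ (ξ : A →L[ℂ] ℂ) (c : ℂ), DifferentiableOn ℂ (fun t => ∏ j, (c - ξ (Y t j))) T₀

/-- On every connected sheet that is open in `Z`, the set `H` is empty or dense. -/
def Dich (Z H : Set A) : Prop :=
  ∀ (j : ℕ) (U : Set (Fin j → ℂ)) (h : (Fin j → ℂ) → A) (L : A →L[ℂ] (Fin j → ℂ)),
    IsOpen U → IsPreconnected U → DifferentiableOn ℂ h U → (∀ u ∈ U, L (h u) = u) →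
    (∀ u ∈ U, h u ∈ Z) → (∀ u ∈ U, ∀ᶠ x in 𝓝 (h u), x ∈ Z → x = h (L x)) →
    (∀ u ∈ U, h u ∉ H) ∨ (∀ u ∈ U, ∃ᶠ u' in 𝓝 u, h u' ∈ H)

/-- Near its point `p` the set `Z ⊆ T × A` is the graph of a holomorphic map. -/
def HeartE (Z : Set (T × A)) (p : T × A) : Prop :=
  ∃ (U : Set T) (N : Set A) (g : T → A), IsOpen U ∧ IsOpen N ∧ p.1 ∈ U ∧ p.2 = g p.1 ∧
    DifferentiableOn ℂ g U ∧ MapsTo g U N ∧ ∀ t ∈ U, ∀ y ∈ N, (t, y) ∈ Z ↔ y = g t

/-- The tangent vector to the graph of `g` over `u`. -/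
noncomputable def tg (g : T → A) (t u : T) : T × A := (u, fderiv ℂ g t u)

/-- The determinant of the matrix `ξ i (u j)`. -/
noncomputable def Jac {ι : Type} [Fintype ι] [DecidableEq ι] (ξ : ι → A → ℂ) (u : ι → A) : ℂ :=
  Matrix.det (Matrix.of fun i j => ξ i (u j))

/-- The limit set of the family `Z` along the filter `l`. -/
def ulim {Y ι : Type*} [TopologicalSpace Y] (l : Filter ι) (Z : ι → Set Y) : Set Y :=
  {p | ∀ N ∈ 𝓝 p, ∀ᶠ n in l, (Z n ∩ N).Nonempty}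

end Local

section Meas

/-- `S` has sigma-finite `d`-dimensional Hausdorff measure. -/
def SF {A : Type} [EMetricSpace A] [MeasurableSpace A] [BorelSpace A] (d : ℝ) (S : Set A) :
    Prop :=
  ∃ s : ℕ → Set A, S ⊆ ⋃ n, s n ∧ ∀ n, μH[d] (s n) < ⊤

/-- Every neighbourhood of a point of `Z` meets `Z` in positive `d`-dimensional measure. -/
def Pure {A : Type} [EMetricSpace A] [MeasurableSpace A] [BorelSpace A] (d : ℝ) (Z : Set A) :
    Prop :=
  ∀ p ∈ Z, ∀ N ∈ 𝓝 p, μH[d] (Z ∩ N) ≠ 0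

variable {A T : Type} [NormedAddCommGroup A] [NormedSpace ℂ A] [NormedAddCommGroup T]
  [NormedSpace ℂ T] [MeasurableSpace T] [BorelSpace T]

/-- For each real direction, the union of the lines in this direction that meet `R` is null. -/
def Slim (R : Set T) : Prop :=
  ∀ v : T, μH[rd T] {x | ∃ s : ℝ, x + (s : ℂ) • v ∈ R} = 0

/-- A graph in a chart: `Z` is analytic in `W`, it is the graph of `g` over `O`, this part is
dense, and the rest has measure zero in real codimension one. -/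
structure GS [MeasurableSpace (T × A)] [BorelSpace (T × A)] (Z W : Set (T × A)) (O : Set T)
    (g : T → A) : Prop where
  opW : IsOpen W
  opO : IsOpen O
  sub : Z ⊆ W
  an : ∀ p ∈ W, AnAt Z p
  hol : DifferentiableOn ℂ g O
  gr : ∀ t ∈ O, ∀ y, (t, y) ∈ Z ↔ y = g t
  dense : Z ⊆ closure (Z ∩ Prod.fst ⁻¹' O)
  thin : μH[rd T - 1] (Z \ Prod.fst ⁻¹' O) = 0

end Meas

section Two

variable {m : ℕ}

/-- The standard basis of `ℂ²`. -/
def e2 (j : Fin 2) : C2 := Pi.single j 1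

/-- The coordinates of `ℂ² × ℂ^m`. -/
def crd (a : Fin 2 ⊕ Fin m) (x : C2 × (Fin m → ℂ)) : ℂ := Sum.elim x.1 x.2 a

/-- The minors of the tangent map of the graph of `g`. -/
noncomputable def minor (g : C2 → Fin m → ℂ) (t : C2) (a b : Fin 2 ⊕ Fin m) : ℂ :=
  crd a (tg g t (e2 0)) * crd b (tg g t (e2 1)) - crd b (tg g t (e2 0)) * crd a (tg g t (e2 1))

/-- The volume density of the graph of `g` (twice the Euclidean one). -/
noncomputable def vd (g : C2 → Fin m → ℂ) (t : C2) : ℝ := ∑ a, ∑ b, ‖minor g t a b‖ ^ 2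

/-- The volume of the part of the graph of `g` over `O` that lies in `B`. -/
noncomputable def gvol (O : Set C2) (g : C2 → Fin m → ℂ) (B : Set (C2 × (Fin m → ℂ))) : ℝ≥0∞ :=
  ∫⁻ t in O ∩ {t | (t, g t) ∈ B}, ENNReal.ofReal (vd g t)

/-- The sum of the squares of the minors of two vectors of `ℂ^m`. -/
noncomputable def wedge2 (u v : Fin m → ℂ) : ℝ := ∑ a, ∑ b, ‖u a * v b - u b * v a‖ ^ 2

/-- The shell between two bidiscs. -/
def shell (ρ₁ ρ₂ : ℝ) : Set C2 := ball (0 : C2) ρ₂ \ closedBall (0 : C2) ρ₁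

/-- A Hartogs figure with general radii in the base. -/
def hart (r₀ R₀ r : ℝ) : Set C4 :=
  (ball (0 : C2) r₀ ×ˢ ball (0 : C2) 1) ∪ (ball (0 : C2) R₀ ×ˢ shell r 1)

/-- The tilted projection `(z, w) ↦ z + w₀ a + w₁ b`. -/
def tilt (a b : C2) (p : C4) : C2 := p.1 + p.2 0 • a + p.2 1 • b

end Two

section Potential

/-- The Euclidean norm squared on `ℂ²`. -/
noncomputable def nsq (x : C2) : ℝ := ‖x 0‖ ^ 2 + ‖x 1‖ ^ 2

/-- The second derivative of `φ` in the direction `v`. -/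
noncomputable def d2 (φ : C2 → ℝ) (z v : C2) : ℝ := fderiv ℝ (fun y => fderiv ℝ φ y v) z v

/-- The Laplacian on `ℂ² = ℝ⁴`. -/
noncomputable def lap (φ : C2 → ℝ) (z : C2) : ℝ :=
  ∑ j : Fin 2, (d2 φ z (e2 j) + d2 φ z (Complex.I • e2 j))

/-- The kernel `|x - y|⁻²`. -/
noncomputable def ker {V : Type} [PseudoEMetricSpace V] (x y : V) : ℝ≥0∞ := (edist x y ^ 2)⁻¹

/-- Finite measures whose truncated potentials tend to zero uniformly. -/
def Kato (ν : Measure C2) : Prop :=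
  IsFiniteMeasure ν ∧ ∀ ε : ℝ≥0∞, 0 < ε → ∃ δ : ℝ, 0 < δ ∧ ∀ x, ∫⁻ y in ball x δ, ker x y ∂ν ≤ ε

/-- Sets that are null for every Kato measure. -/
def Polar (S : Set C2) : Prop := ∀ ν : Measure C2, Kato ν → ν S = 0

/-- The averaging kernel at scale `δ`. -/
noncomputable def moll (δ : ℝ) (x : C2) : ℝ :=
  max (1 - nsq x / δ ^ 2) 0 / (δ ^ 4 * ∫ y : C2, max (1 - nsq y) 0)

/-- The average of `φ` at scale `δ`. -/
noncomputable def avg (δ : ℝ) (φ : C2 → ℝ) (x : C2) : ℝ := ∫ y, moll δ (x - y) * φ y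

/-- For every `ε` some positive combination of regularized kernels of total mass at most `ε`
exceeds `1` on `K`. -/
def Small {V : Type} [NormedAddCommGroup V] (q : V → ℝ) (K : Set V) : Prop :=
  ∀ ε : ℝ, 0 < ε → ∃ (n : ℕ) (c : Fin n → ℝ) (y : Fin n → V) (τ : Fin n → ℝ),
    (∀ i, 0 ≤ c i) ∧ (∀ i, 0 < τ i) ∧ ∑ i, c i ≤ ε ∧
      ∀ x ∈ K, 1 < ∑ i, c i / (q (x - y i) + τ i ^ 2)

/-- The two-constants property of `K` at `s`. -/
def REG (K : Set C2) (s : C2) : Prop :=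
  ∀ V : Set C2, IsOpen V → s ∈ V → ∀ ε : ℝ, 0 < ε → ∃ V' : Set C2, IsOpen V' ∧ s ∈ V' ∧ V' ⊆ V ∧
    ∀ (k : ℕ) (a : C2 → ℂ), 1 ≤ k → DifferentiableOn ℂ a V → (∀ z ∈ V, ‖a z‖ ≤ Real.exp k) →
      (∀ z ∈ K ∩ V, ‖a z‖ ≤ 1) → ∀ z ∈ V', ‖a z‖ ≤ Real.exp (ε * k)

/-- A filter finer than the neighbourhood filter of `s`, whose sets contain `s` and have the
two-constants property at `s`. -/
structure RF (F : Filter C2) (s : C2) : Prop where
  le : F ≤ 𝓝 s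
  mem : ∀ K ∈ F, s ∈ K
  reg : ∀ K ∈ F, REG K s

end Potential

section Family

variable {A E : Type} [NormedAddCommGroup A] [NormedSpace ℂ A] [NormedAddCommGroup E]
  [NormedSpace ℂ E]

/-- Near `q`, the sets `Z z` are for `F`-most `z` the graphs of one holomorphic family. -/
def Fam (F : Filter C2) (s : C2) (Z : C2 → Set (C2 × E)) (q : C2 × E) : Prop :=
  ∃ (V B : Set C2) (N : Set E) (g : C4 → E), IsOpen V ∧ IsOpen B ∧ IsOpen N ∧ s ∈ V ∧ q.1 ∈ B ∧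
    q.2 ∈ N ∧ DifferentiableOn ℂ g (V ×ˢ B) ∧ MapsTo g (V ×ˢ B) N ∧
      ∀ᶠ z in F, ∀ w ∈ B, ∀ y ∈ N, (w, y) ∈ Z z ↔ y = g (z, w)

/-- `H` is a rigid analytic family interpolating the sets `Z z` on `N`. -/
structure Rigid (F : Filter C2) (s : C2) (Z : C2 → Set A) (N : Set A) (H : Set (C2 × A)) :
    Prop where
  an : ∀ x ∈ N, AnAt H (s, x)
  eq : ∀ᶠ z in F, ∀ x ∈ N, (z, x) ∈ H ↔ x ∈ Z z
  rig : ∀ x₀ ∈ N, ∀ H' : Set (C2 × A), AnAt H' (s, x₀) →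
    (∃ N' ∈ 𝓝 x₀, ∀ᶠ z in F, ∀ x ∈ N', x ∈ Z z → (z, x) ∈ H') →
      ∀ᶠ q in 𝓝 (s, x₀), q ∈ H → q ∈ H'

end Family

section Mfd

/-- A finite holomorphic atlas. -/
structure Atl (X : Type*) [TopologicalSpace X] (m : ℕ) where
  n : ℕ
  e : Fin n → OpenPartialHomeomorph X (Fin m → ℂ)
  cov : ∀ x, ∃ i, x ∈ (e i).source
  hol : ∀ i j, DifferentiableOn ℂ (e j ∘ (e i).symm)
    ((e i).target ∩ (e i).symm ⁻¹' (e j).source)

variable {X : Type*} [TopologicalSpace X] {m : ℕ}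

/-- The form in the charts of a finite atlas, with a partition of unity. -/
structure Frm (a : Atl X m) where
  W : Fin a.n → (Fin m → ℂ) → Form (Fin m → ℂ)
  ρ : Fin a.n → X → ℝ
  altl : ∀ i y u v₁ v₂, W i y u u v₁ v₂ = 0
  altr : ∀ i y u₁ u₂ v, W i y u₁ u₂ v v = 0
  smooth : ∀ i u₁ u₂ v₁ v₂, ContDiffOn ℝ ∞ (fun y => W i y u₁ u₂ v₁ v₂) (a.e i).target
  dd : ∀ i, ∀ y ∈ (a.e i).target, ∀ u v,
    ddbar (fun y u₁ u₂ v₁ v₂ => W i y u₁ u₂ v₁ v₂) y u v = 0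
  pos : ∀ i, ∀ y ∈ (a.e i).target, ∀ u v, LinearIndependent ℂ ![u, v] → 0 < (W i y u v u v).re
  compat : ∀ i j, ∀ y ∈ (a.e i).target, (a.e i).symm y ∈ (a.e j).source → ∀ u₁ u₂ v₁ v₂,
    W i y u₁ u₂ v₁ v₂ = W j (a.e j ((a.e i).symm y))
      (fderiv ℂ (a.e j ∘ (a.e i).symm) y u₁) (fderiv ℂ (a.e j ∘ (a.e i).symm) y u₂)
      (fderiv ℂ (a.e j ∘ (a.e i).symm) y v₁) (fderiv ℂ (a.e j ∘ (a.e i).symm) y v₂)
  nonneg : ∀ i x, 0 ≤ ρ i x
  sum_one : ∀ x, ∑ i, ρ i x = 1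
  cont : ∀ i, Continuous (ρ i)
  supp : ∀ i, tsupport (ρ i) ⊆ (a.e i).source
  rsmooth : ∀ i j, ContDiffOn ℝ ∞ (ρ i ∘ (a.e j).symm) (a.e j).target

variable {T : Type} [NormedAddCommGroup T] [NormedSpace ℂ T]

/-- The set `Γ` read in the chart `i`. -/
def cs (a : Atl X m) (i : Fin a.n) (Γ : Set (T × X)) : Set (T × (Fin m → ℂ)) :=
  {p | p.2 ∈ (a.e i).target ∧ (p.1, (a.e i).symm p.2) ∈ Γ}

/-- `Γ` is analytic at the point `p` of `T × X`. -/
def AnX (a : Atl X m) (Γ : Set (T × X)) (p : T × X) : Prop :=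
  ∀ i, p.2 ∈ (a.e i).source → AnAt (cs a i Γ) (p.1, a.e i p.2)

/-- `Γ` is an analytic subset of `D × X`. -/
def AnOn (a : Atl X m) (D : Set T) (Γ : Set (T × X)) : Prop :=
  (∀ p ∈ Γ, p.1 ∈ D) ∧ ∀ p : T × X, p.1 ∈ D → AnX a Γ p

/-- `g` is continuous at `t` and complex differentiable at `t` in the charts. -/
def HolAt (a : Atl X m) (g : T → X) (t : T) : Prop :=
  ContinuousAt g t ∧ ∀ i, g t ∈ (a.e i).source → DifferentiableAt ℂ (a.e i ∘ g) t

/-- Over `U` the set `Γ` is the graph of the holomorphic map `g`. -/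
def GraphOn (a : Atl X m) (Γ : Set (T × X)) (U : Set T) (g : T → X) : Prop :=
  (∀ t ∈ U, HolAt a g t) ∧ ∀ t ∈ U, ∀ x, (t, x) ∈ Γ ↔ x = g t

/-- The points over a neighbourhood of which `Γ` is a holomorphic graph. -/
def reg (a : Atl X m) (Γ : Set (T × X)) : Set T :=
  {t | ∃ U : Set T, IsOpen U ∧ t ∈ U ∧ ∃ g : T → X, GraphOn a Γ U g}

/-- The map whose graph is `Γ` over `reg a Γ`. -/
noncomputable def gf [Nonempty X] (Γ : Set (T × X)) (t : T) : X :=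
  Classical.epsilon fun x => (t, x) ∈ Γ

/-- Near its point `p` the set `Γ` is the graph of a holomorphic map. -/
def Heart (a : Atl X m) (Γ : Set (T × X)) (p : T × X) : Prop :=
  ∃ (U : Set T) (N : Set X) (g : T → X), IsOpen U ∧ IsOpen N ∧ p.1 ∈ U ∧ p.2 = g p.1 ∧
    (∀ t ∈ U, HolAt a g t) ∧ MapsTo g U N ∧ ∀ t ∈ U, ∀ x ∈ N, (t, x) ∈ Γ ↔ x = g t

/-- `Γ` is the graph of a meromorphic map on `D`. -/
structure MG (a : Atl X m) (D : Set T) (Γ : Set (T × X)) : Prop where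
  op : IsOpen D
  an : AnOn a D Γ
  dense : D ⊆ closure (reg a Γ)
  cl : Γ ⊆ closure (Γ ∩ Prod.fst ⁻¹' reg a Γ)

/-- The part of `Γ` over `U`. -/
def res {T : Type} (Γ : Set (T × X)) (U : Set T) : Set (T × X) := Γ ∩ Prod.fst ⁻¹' U

/-- `Γ` and `Γ'` have the same fibres over `U`. -/
def Agree {T : Type} (Γ Γ' : Set (T × X)) (U : Set T) : Prop :=
  ∀ t ∈ U, ∀ x, (t, x) ∈ Γ ↔ (t, x) ∈ Γ'

/-- The graph of `f`. -/
def grf {T : Type} (f : T → X) : Set (T × X) := {p | p.2 = f p.1}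

/-- The slice of `Γ` over `z`. -/
def slice (Γ : Set (C4 × X)) (z : C2) : Set (C2 × X) := {p | ((z, p.1), p.2) ∈ Γ}

/-- The open subset of `T` over which the graph lies in the chart `i`. -/
def regI [Nonempty X] (a : Atl X m) (i : Fin a.n) (Γ : Set (T × X)) : Set T :=
  reg a Γ ∩ gf Γ ⁻¹' (a.e i).source

/-- The restriction of `f` to `{z} × shell` extends meromorphically to the bidisc. -/
def ExtS (a : Atl X m) (f : C4 → X) (ρ₁ ρ₂ : ℝ) (z : C2) : Prop :=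
  ∃ G : Set (C2 × X), MG a (ball 0 ρ₂) G ∧ Agree G (grf fun w => f (z, w)) (shell ρ₁ ρ₂)

/-- `f` extends meromorphically from `N × shell` to `N × bidisc` for a neighbourhood `N` of
`s`. -/
def ExtN (a : Atl X m) (f : C4 → X) (ρ₁ ρ₂ : ℝ) (s : C2) : Prop :=
  ∃ N : Set C2, IsOpen N ∧ s ∈ N ∧ ∃ G : Set (C4 × X), MG a (N ×ˢ ball 0 ρ₂) G ∧
    Agree G (grf f) (N ×ˢ shell ρ₁ ρ₂)

/-- The data of the extension lemma at `s`. -/
structure LA (a : Atl X m) (f : C4 → X) (ρ₁ ρ₂ : ℝ) (V : Set C2) (s : C2) (F : Filter C2)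
    (G : C2 → Set (C2 × X)) : Prop where
  pos : 0 < ρ₁
  lt : ρ₁ < ρ₂
  opV : IsOpen V
  memV : s ∈ V
  hol : ∀ t ∈ V ×ˢ shell ρ₁ ρ₂, HolAt a f t
  rf : RF F s
  mg : ∀ᶠ z in F, MG a (ball 0 ρ₂) (G z) ∧ Agree (G z) (grf fun w => f (z, w)) (shell ρ₁ ρ₂)
  avoid : ∀ C : Set (C2 × X), IsCompact C → (∀ p ∈ C, p.1 ∈ ball (0 : C2) ρ₂) →
    Disjoint C (G s) → ∀ᶠ z in F, Disjoint C (G z)

/-- The point `((z, w), x)` of `ℂ⁴ × X` attached to `z` and `(w, x)`. -/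
def emb (z : C2) (p : C2 × X) : C4 × X := ((z, p.1), p.2)

/-- `H` is a rigid analytic family interpolating the sets `G z` on `N`. -/
structure RigidX (a : Atl X m) (F : Filter C2) (s : C2) (G : C2 → Set (C2 × X))
    (N : Set (C2 × X)) (H : Set (C4 × X)) : Prop where
  an : ∀ p ∈ N, AnX a H (emb s p)
  eq : ∀ᶠ z in F, ∀ p ∈ N, emb z p ∈ H ↔ p ∈ G z
  rig : ∀ p₀ ∈ N, ∀ H' : Set (C4 × X), AnX a H' (emb s p₀) →
    (∃ N' ∈ 𝓝 p₀, ∀ᶠ z in F, ∀ p ∈ N', p ∈ G z → emb z p ∈ H') →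
      ∀ᶠ q in 𝓝 (emb s p₀), q ∈ H → q ∈ H'

variable {a : Atl X m}

/-- The term of the chart `i` in the pullback of the form by `f`. -/
noncomputable def pbI (Ω : Frm a) (i : Fin a.n) (f : T → X) (t u₁ u₂ v₁ v₂ : T) : ℂ :=
  (Ω.ρ i (f t) : ℂ) * Ω.W i (a.e i (f t)) (fderiv ℂ (a.e i ∘ f) t u₁) (fderiv ℂ (a.e i ∘ f) t u₂)
    (fderiv ℂ (a.e i ∘ f) t v₁) (fderiv ℂ (a.e i ∘ f) t v₂)

/-- The pullback of the form by `f`. -/
noncomputable def pb (Ω : Frm a) (f : T → X) (t u₁ u₂ v₁ v₂ : T) : ℂ :=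
  ∑ i, pbI Ω i f t u₁ u₂ v₁ v₂

/-- The form of the chart `i` cut off by the partition of unity, extended by zero. -/
noncomputable def Wc (Ω : Frm a) (i : Fin a.n) (y : Fin m → ℂ) : Form (Fin m → ℂ) :=
  (a.e i).target.indicator (fun y => (Ω.ρ i ((a.e i).symm y) : ℂ) • Ω.W i y) y

/-- The density of the pulled back form in the fibre directions. -/
noncomputable def fd [Nonempty X] (Ω : Frm a) (Γ : Set (C4 × X)) (t : C4) : ℝ :=
  (reg a Γ).indicator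
    (fun t => (pb Ω (gf Γ) t (0, e2 0) (0, e2 1) (0, e2 0) (0, e2 1)).re) t

/-- The area function. -/
noncomputable def mu [Nonempty X] (Ω : Frm a) (Γ : Set (C4 × X)) (χ : C2 → ℝ) (z : C2) : ℝ :=
  ∫ w, χ w ^ 2 * fd Ω Γ (z, w)

end Mfd

/-- A cutoff in the fibre: smooth, equal to one on the bidisc of radius `ρ₃`, supported in a
compact part of the bidisc of radius `ρ₂`. -/
structure Cut (χ : C2 → ℝ) (ρ₃ ρ₂ : ℝ) : Prop where
  smooth : ContDiff ℝ ∞ χ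
  one : ∀ w ∈ ball (0 : C2) ρ₃, χ w = 1
  cpt : HasCompactSupport χ
  supp : tsupport χ ⊆ ball (0 : C2) ρ₂

theorem rd_fin (j : ℕ) : rd (Fin j → ℂ) = 2 * j := by
  simp [rd]

theorem rd_C2 : rd C2 = 4 := by
  rw [rd_fin]; norm_num

theorem rd_C4 : rd C4 = 8 := by
  simp [rd, Module.finrank_prod]; norm_num

end Pool.Agent.Lib.MP_823829_an
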