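import Pool.Agent.Lib.MP_823829_an.Key

/-! Duality for the kernel of order two. -/

namespace Pool.Agent.Lib.MP_823829_an

open Set Metric Filter MeasureTheory
open scoped Topology ENNReal NNReal ContDiff ComplexConjugate

open scoped CompactlySupported in
/-- a family of nonnegative functions no average of which exceeds one everywhere has integrals
at most one for some probability measure -/
theorem dual_aux_measure {K ι : Type} [TopologicalSpace K] [T2Space K] [CompactSpace K]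
    [MeasurableSpace K] [BorelSpace K] [Nonempty ι] (F : ι → C(K, ℝ)) (hF : ∀ i x, 0 ≤ F i x)
    (h : ∀ (n : ℕ) (w : Fin n → ℝ) (j : Fin n → ι), (∀ i, 0 ≤ w i) → ∑ i, w i = 1 →
      ∃ x, ∑ i, w i * F (j i) x ≤ 1) :
    ∃ ν : Measure K, IsProbabilityMeasure ν ∧ ∀ i, ∫ x, F i x ∂ν ≤ 1 := by
  have hs : IsOpen {g : C(K, ℝ) | MapsTo g univ (Ioi 1)} :=
    ContinuousMap.isOpen_setOfPred_mapsTo isCompact_univ isOpen_Ioi
  have hc : Convex ℝ {g : C(K, ℝ) | MapsTo g univ (Ioi 1)} := fun g hg g' hg' a b ha hb hab x _ =>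
    convex_Ioi (𝕜 := ℝ) (1 : ℝ) (hg (mem_univ x)) (hg' (mem_univ x)) ha hb hab
  have hd : Disjoint {g : C(K, ℝ) | MapsTo g univ (Ioi 1)} (convexHull ℝ (range F)) := by
    rw [disjoint_right]
    intro g hg hg'
    obtain ⟨κ, _, w, z, hw, hw1, hz, rfl⟩ := mem_convexHull_iff_exists_fintype.1 hg
    choose j hj using hz
    let e := (Fintype.equivFin κ).symm
    obtain ⟨x, hx⟩ := h _ (fun i => w (e i)) (fun i => j (e i)) (fun i => hw _)
      (by rw [e.sum_comp w, hw1])
    rw [e.sum_comp fun i => w i * F (j i) x] at hx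
    have := hg' (mem_univ x)
    simp only [mem_Ioi, ContinuousMap.coe_sum, ContinuousMap.coe_smul, Finset.sum_apply,
      Pi.smul_apply, smul_eq_mul, ← hj] at this
    linarith
  obtain ⟨f, u, h1, h2⟩ := geometric_hahn_banach_open hc hs (convex_convexHull ℝ _) hd
  have h3 : ∀ g : C(K, ℝ), (∀ x, 0 ≤ g x) → f g ≤ 0 := by
    intro g hg
    by_contra hn
    have hn := not_le.1 hn
    have ht : 0 ≤ |u - f ((2 : ℝ) • 1)| / f g := by positivity
    have := h1 ((2 : ℝ) • 1 + (|u - f ((2 : ℝ) • 1)| / f g) • g) fun x _ => by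
      have := mul_nonneg ht (hg x)
      simp only [mem_Ioi, ContinuousMap.add_apply, ContinuousMap.smul_apply,
        ContinuousMap.one_apply, smul_eq_mul]
      linarith
    rw [map_add, map_smul f _ g, smul_eq_mul, div_mul_cancel₀ _ hn.ne'] at this
    linarith [le_abs_self (u - f ((2 : ℝ) • 1))]
  have h4 : ∀ r : ℝ, 1 < r → r * f 1 < u := fun r hr => by
    have := h1 (r • 1) fun x _ => by simpa using hr
    rwa [map_smul, smul_eq_mul] at this
  have h5 : ∀ i, u ≤ f (F i) := fun i => h2 _ (subset_convexHull ℝ _ (mem_range_self i))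
  have h6 : u ≤ 0 := (h5 (Classical.arbitrary ι)).trans (h3 _ (hF _))
  have h7 : f 1 < 0 := by linarith [h4 2 (by norm_num)]
  have h8 : f 1 ≤ u := by
    by_contra hn
    have hn := not_le.1 hn
    have := h4 (u / f 1) (by rw [lt_div_iff_of_neg h7]; linarith)
    rw [div_mul_cancel₀ _ h7.ne] at this
    exact lt_irrefl _ this
  let L : C_c(K, ℝ) →ₗ[ℝ] ℝ :=
    { toFun := fun g => f g.toContinuousMap / f 1
      map_add' := fun g g' => by rw [← add_div, ← map_add]; rfl
      map_smul' := fun r g => by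
        rw [RingHom.id_apply, smul_eq_mul, ← mul_div_assoc, ← smul_eq_mul r, ← map_smul]; rfl }
  let Λ : C_c(K, ℝ) →ₚ[ℝ] ℝ := PositiveLinearMap.mk₀ L fun g hg =>
    div_nonneg_of_nonpos (h3 _ fun x => hg x) h7.le
  have key : ∀ g : C(K, ℝ), ∫ x, g x ∂(RealRMK.rieszMeasure Λ) = f g / f 1 := fun g =>
    RealRMK.integral_rieszMeasure Λ (CompactlySupportedContinuousMap.continuousMapEquiv g)
  refine ⟨RealRMK.rieszMeasure Λ, ⟨?_⟩, fun i => ?_⟩
  · have := key 1
    simp only [ContinuousMap.one_apply, integral_const, smul_eq_mul, mul_one,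
      div_self h7.ne] at this
    exact (ENNReal.toReal_eq_one_iff _).1 this
  · rw [key, div_le_one_of_neg h7]
    exact h8.trans (h5 i)

theorem dual {V : Type} [NormedAddCommGroup V] [SecondCountableTopology V] [MeasurableSpace V]
    [BorelSpace V] {q : V → ℝ} (hq : Continuous q) (h0 : ∀ x, 0 ≤ q x) {C : ℝ}
    (hC : ∀ x, q x ≤ C * ‖x‖ ^ 2) {K : Set V} (hK : IsCompact K) :
    Small q K ∨ ∃ μ : Measure V, IsProbabilityMeasure μ ∧ μ Kᶜ = 0 ∧
      ∃ B : ℝ≥0, ∀ y ∈ K, ∫⁻ x, ker x y ∂μ ≤ B := by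
  refine or_iff_not_imp_left.2 fun hn => ?_
  simp only [Small, not_forall, not_exists, not_and, not_lt] at hn
  obtain ⟨ε, hε, hn⟩ := hn
  have : CompactSpace K := isCompact_iff_compactSpace.1 hK
  have hp : ∀ (x : V) (n : ℕ), 0 < q x + (1 / ((n : ℝ) + 1)) ^ 2 := fun x n =>
    add_pos_of_nonneg_of_pos (h0 x) (by positivity)
  let F : V × ℕ → C(K, ℝ) := fun i =>
    ⟨fun x => ε / (q (x - i.1) + (1 / ((i.2 : ℝ) + 1)) ^ 2),
      continuous_const.div (by fun_prop) fun x => (hp _ _).ne'⟩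
  have hF : ∀ i x, 0 ≤ F i x := fun i x => (div_pos hε (hp _ _)).le
  obtain ⟨ν, hν, hi⟩ := dual_aux_measure F hF fun n w j hw hw1 => by
    obtain ⟨x, hx, h⟩ := hn n (fun i => w i * ε) (fun i => (j i).1)
      (fun i => 1 / (((j i).2 : ℝ) + 1)) (fun i => mul_nonneg (hw i) hε.le)
      (fun i => by positivity) (by rw [← Finset.sum_mul, hw1, one_mul])
    refine ⟨⟨x, hx⟩, le_of_eq_of_le (Finset.sum_congr rfl fun i _ => ?_) h⟩
    exact (mul_div_assoc _ _ _).symm
  have hm : MeasurableEmbedding (Subtype.val : K → V) :=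
    MeasurableEmbedding.subtype_coe hK.measurableSet
  have hC' : 0 < max C 1 / ε := by positivity
  refine ⟨ν.map Subtype.val, Measure.isProbabilityMeasure_map hm.measurable.aemeasurable, ?_,
    (max C 1 / ε).toNNReal, fun y _ => ?_⟩
  · rw [hm.map_apply]
    convert measure_empty (μ := ν)
    ext x
    simp
  rw [hm.lintegral_map]
  have e1 : ∀ x : K, ker (x : V) y = liminf (fun n : ℕ =>
      (edist (x : V) y ^ 2 + ENNReal.ofReal ((1 / ((n : ℝ) + 1)) ^ 2))⁻¹) atTop := by
    intro x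
    have t1 : Tendsto (fun n : ℕ => ENNReal.ofReal ((1 / ((n : ℝ) + 1)) ^ 2)) atTop (𝓝 0) := by
      simpa using ENNReal.tendsto_ofReal (tendsto_one_div_add_atTop_nhds_zero_nat (𝕜 := ℝ) |>.pow 2)
    have t2 := tendsto_inv_iff.2 (t1.const_add (edist (x : V) y ^ 2))
    rw [t2.liminf_eq, add_zero, ker]
  simp only [e1]
  refine (lintegral_liminf_le fun n => by fun_prop).trans
    (liminf_le_of_frequently_le' (Frequently.of_forall fun n => ?_))
  have e2 : ∀ x : K, (edist (x : V) y ^ 2 + ENNReal.ofReal ((1 / ((n : ℝ) + 1)) ^ 2))⁻¹ ≤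
      ENNReal.ofReal (max C 1 / ε * F (y, n) x) := by
    intro x
    have p1 : 0 < (1 / ((n : ℝ) + 1)) ^ 2 := by positivity
    have p2 : 0 < ‖(x : V) - y‖ ^ 2 + (1 / ((n : ℝ) + 1)) ^ 2 := by positivity
    rw [edist_dist, dist_eq_norm, ← ENNReal.ofReal_pow (norm_nonneg _),
      ← ENNReal.ofReal_add (by positivity) p1.le, ← ENNReal.ofReal_inv_of_pos p2]
    refine ENNReal.ofReal_le_ofReal ?_
    change _ ≤ max C 1 / ε * (ε / (q (x - y) + (1 / ((n : ℝ) + 1)) ^ 2))
    rw [← mul_div_assoc, div_mul_cancel₀ _ hε.ne', inv_eq_one_div, div_le_div_iff₀ p2 (hp _ _)]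
    have p3 := hC ((x : V) - y)
    have p4 := mul_le_mul_of_nonneg_right (le_max_left C 1) (sq_nonneg ‖(x : V) - y‖)
    have p5 := mul_le_mul_of_nonneg_right (le_max_right C 1) p1.le
    linarith
  refine (lintegral_mono e2).trans ?_
  have e3 : Integrable (fun x : K => max C 1 / ε * F (y, n) x) ν :=
    ((F (y, n)).continuous.integrable_of_hasCompactSupport
      (HasCompactSupport.of_compactSpace _)).const_mul _
  rw [← ofReal_integral_eq_lintegral_ofReal e3
    (Eventually.of_forall fun x => mul_nonneg hC'.le (hF _ x)), integral_const_mul]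
  exact ENNReal.ofReal_le_ofReal (mul_le_of_le_one_right hC'.le (hi _))

end Pool.Agent.Lib.MP_823829_an
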