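import Pool.Agent.Lib.MP_823829_an.Dual
import Pool.Agent.Lib.MP_823829_an.Cartan
import Pool.Agent.Lib.MP_823829_an.SFb

/-! Polar sets are null for measures with finite potential. -/

namespace Pool.Agent.Lib.MP_823829_an

open Set Metric Filter MeasureTheory
open scoped Topology ENNReal NNReal ContDiff ComplexConjugate

theorem ego_aux_inv {a b c : ℝ≥0∞} (h0 : c ≠ 0) (ht : c ≠ ⊤) (h : b ≤ c * a) :
    (a ^ 2)⁻¹ ≤ c ^ 2 * (b ^ 2)⁻¹ := by
  have h1 : ((c * a) ^ 2)⁻¹ ≤ (b ^ 2)⁻¹ := ENNReal.inv_le_inv.2 (pow_le_pow_left' h 2)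
  have h2 : c ^ 2 ≠ 0 := pow_ne_zero 2 h0
  have h3 : c ^ 2 ≠ ⊤ := ENNReal.pow_ne_top ht
  rw [mul_pow, ENNReal.mul_inv (Or.inl h2) (Or.inl h3)] at h1
  calc (a ^ 2)⁻¹ = c ^ 2 * ((c ^ 2)⁻¹ * (a ^ 2)⁻¹) := by
        rw [← mul_assoc, ENNReal.mul_inv_cancel h2 h3, one_mul]
    _ ≤ _ := by gcongr

theorem ego_aux_meas {V : Type} [PseudoEMetricSpace V] [SecondCountableTopology V]
    [MeasurableSpace V] [BorelSpace V] {α : Type} [MeasurableSpace α] {f g : α → V}
    (hf : Measurable f) (hg : Measurable g) : Measurable fun a => ker (f a) (g a) :=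
  measurable_ker.comp (hf.prodMk hg)

theorem ego_aux_kato (ν : Measure C2) [IsFiniteMeasure ν] {G : Set C2} (hG : IsCompact G)
    (h : ∀ ε : ℝ≥0∞, 0 < ε → ∃ δ : ℝ, 0 < δ ∧ ∀ g ∈ G, ∫⁻ y in ball g δ, ker g y ∂ν ≤ ε) :
    Kato (ν.restrict G) := by
  refine ⟨inferInstance, fun ε hε => ?_⟩
  obtain ⟨δ, hδ, h⟩ := h (ε / 2 ^ 2) (ENNReal.div_pos hε.ne' (by simp))
  refine ⟨δ / 2, half_pos hδ, fun x => ?_⟩
  rcases G.eq_empty_or_nonempty with rfl | hne
  · simp
  obtain ⟨g, hg, hm⟩ := hG.exists_isMinOn hne (f := fun g => dist x g) (by fun_prop)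
  have key : ∀ y ∈ ball x (δ / 2) ∩ G, dist g y ≤ 2 * dist x y := fun y hy => by
    have h1 : dist x g ≤ dist x y := hm hy.2
    have h2 := dist_triangle_left g y x
    linarith
  rw [Measure.restrict_restrict measurableSet_ball]
  calc ∫⁻ y in ball x (δ / 2) ∩ G, ker x y ∂ν
      ≤ ∫⁻ y in ball x (δ / 2) ∩ G, 2 ^ 2 * ker g y ∂ν := by
        refine setLIntegral_mono' (measurableSet_ball.inter hG.measurableSet) fun y hy => ?_
        refine ego_aux_inv (by simp) (by simp) ?_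
        rw [edist_dist, edist_dist, ← ENNReal.ofReal_ofNat 2, ← ENNReal.ofReal_mul (by norm_num)]
        exact ENNReal.ofReal_le_ofReal (key y hy)
    _ ≤ ∫⁻ y in ball g δ, 2 ^ 2 * ker g y ∂ν := by
        refine lintegral_mono_set fun y hy => ?_
        have h1 := key y hy
        have h2 := mem_ball'.1 hy.1
        exact mem_ball'.2 (by linarith)
    _ = 2 ^ 2 * ∫⁻ y in ball g δ, ker g y ∂ν := lintegral_const_mul' _ _ (by simp)
    _ ≤ 2 ^ 2 * (ε / 2 ^ 2) := by gcongr; exact h g hg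
    _ = ε := ENNReal.mul_div_cancel (by simp) (by simp)

theorem ego_aux_tend (ν : Measure C2) [IsFiniteMeasure ν] {x : C2}
    (h : ∫⁻ y, ker x y ∂ν < ⊤) :
    Tendsto (fun n : ℕ => ∫⁻ y in ball x (1 / (n + 1)), ker x y ∂ν) atTop (𝓝 0) := by
  refine tendsto_setLIntegral_zero h.ne ?_
  have h0 : ν {x} = 0 := by
    by_contra h0
    have h1 : ∫⁻ y in {x}, ker x y ∂ν ≤ ∫⁻ y, ker x y ∂ν := setLIntegral_le_lintegral _ _
    rw [lintegral_singleton] at h1
    simp only [ker, edist_self, ne_eq, OfNat.ofNat_ne_zero, not_false_eq_true, zero_pow,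
      ENNReal.inv_zero, ENNReal.top_mul h0] at h1
    exact h.not_ge h1
  have h1 : ⋂ n : ℕ, ball x (1 / (n + 1)) = {x} := by
    refine Subset.antisymm (fun y hy => ?_) ?_
    · by_contra hne
      obtain ⟨n, hn⟩ := exists_nat_one_div_lt (dist_pos.2 hne)
      exact (mem_ball.1 (mem_iInter.1 hy n)).not_gt hn
    · rintro _ rfl
      exact mem_iInter.2 fun n => mem_ball_self (by positivity)
  have h2 := tendsto_measure_iInter_atTop (μ := ν) (s := fun n : ℕ => ball x (1 / (n + 1)))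
    (fun n => measurableSet_ball.nullMeasurableSet)
    (fun m n hmn => ball_subset_ball (Nat.one_div_le_one_div hmn)) ⟨0, measure_ne_top _ _⟩
  rwa [h1, h0] at h2

theorem Polar.null_of_finite {S : Set C2} (h : Polar S) (ν : Measure C2) [IsFiniteMeasure ν]
    (hν : ∀ᵐ x ∂ν, ∫⁻ y, ker x y ∂ν < ⊤) : ν S = 0 := by
  let f : ℕ → C2 → ℝ≥0∞ := fun n x => ∫⁻ y in ball x (1 / (n + 1)), ker x y ∂ν
  have hf : ∀ n, Measurable (f n) := fun n => by
    have h1 : MeasurableSet {p : C2 × C2 | dist p.2 p.1 < 1 / ((n : ℝ) + 1)} :=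
      (isOpen_lt (by fun_prop) continuous_const).measurableSet
    have h2 := (measurable_ker.indicator h1).lintegral_prod_right' (ν := ν)
    refine (funext fun x => ?_ : _ = f n) ▸ h2
    simp only [f]
    rw [← lintegral_indicator measurableSet_ball]
    rfl
  have ha : ∀ x, Antitone fun n => f n x := fun x m n hmn =>
    lintegral_mono_set (ball_subset_ball (Nat.one_div_le_one_div hmn))
  have hA : ∀ (k : ℕ) (η : ℝ≥0∞), 0 < η → ∃ n, ν {x | (k : ℝ≥0∞)⁻¹ < f n x} ≤ η := by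
    intro k η hη
    have h2 := tendsto_measure_iInter_atTop (μ := ν)
      (s := fun n : ℕ => {x | (k : ℝ≥0∞)⁻¹ < f n x})
      (fun n => (measurableSet_lt measurable_const (hf n)).nullMeasurableSet)
      (fun m n hmn x hx => lt_of_lt_of_le hx (ha x hmn)) ⟨0, measure_ne_top _ _⟩
    have h3 : ν (⋂ n : ℕ, {x | (k : ℝ≥0∞)⁻¹ < f n x}) = 0 := by
      refine measure_mono_null ?_ (ae_iff.1 hν)
      intro x hx hx'
      have h4 := ge_of_tendsto' (ego_aux_tend ν hx') fun n => (mem_iInter.1 hx n).le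
      simp at h4
    rw [h3] at h2
    exact ((ENNReal.tendsto_nhds_zero.1 h2) η hη).exists
  refine le_antisymm (ENNReal.le_of_forall_pos_le_add fun η hη _ => ?_) zero_le
  have hη2 : (η / 2 : ℝ≥0∞) ≠ 0 := by simpa using hη.ne'
  obtain ⟨e, he, hs⟩ := ENNReal.exists_pos_sum_of_countable' hη2 ℕ
  choose n hn using fun k => hA k (e k) (he k)
  let B : Set C2 := ⋃ k : ℕ, {x | (k : ℝ≥0∞)⁻¹ < f (n k) x}
  have hB : MeasurableSet B :=
    MeasurableSet.iUnion fun k => measurableSet_lt measurable_const (hf _)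
  have hB1 : ν B ≤ η / 2 := (measure_iUnion_le _).trans ((ENNReal.tsum_le_tsum hn).trans hs.le)
  obtain ⟨G, hG1, hG2, hG3⟩ := hB.compl.exists_isCompact_sdiff_lt (μ := ν) (measure_ne_top _ _) hη2
  have hK : Kato (ν.restrict G) := by
    refine ego_aux_kato ν hG2 fun ε hε => ?_
    obtain ⟨k, hk⟩ := ENNReal.exists_inv_nat_lt hε.ne'
    refine ⟨1 / (n k + 1), by positivity, fun g hg => le_trans (not_lt.1 fun h' => ?_) hk.le⟩
    exact hG1 hg (mem_iUnion.2 ⟨k, h'⟩)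
  have h1 := h _ hK
  rw [Measure.restrict_apply' hG2.measurableSet] at h1
  calc ν S ≤ ν (S ∩ G ∪ (B ∪ Bᶜ \ G)) := measure_mono fun x hx => by
        by_cases h2 : x ∈ G
        · exact Or.inl ⟨hx, h2⟩
        · by_cases h3 : x ∈ B
          · exact Or.inr (Or.inl h3)
          · exact Or.inr (Or.inr ⟨h3, h2⟩)
    _ ≤ ν (S ∩ G) + (ν B + ν (Bᶜ \ G)) :=
        (measure_union_le _ _).trans (by gcongr; exact measure_union_le _ _)
    _ ≤ 0 + (η / 2 + η / 2) := by rw [h1]; gcongr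
    _ = 0 + η := by rw [ENNReal.add_halves]

theorem Polar.small {K : Set C2} (h : Polar K) (hK : IsCompact K) : Small nsq K := by
  have hq : Continuous nsq := by unfold nsq; fun_prop
  have hC : ∀ x : C2, nsq x ≤ 2 * ‖x‖ ^ 2 := fun x => by
    have h0 := pow_le_pow_left₀ (norm_nonneg _) (norm_le_pi_norm x 0) 2
    have h1 := pow_le_pow_left₀ (norm_nonneg _) (norm_le_pi_norm x 1) 2
    unfold nsq
    linarith
  rcases dual hq (fun x => by unfold nsq; positivity) hC hK with h1 | ⟨μ, _, h1, B, h2⟩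
  · exact h1
  have h3 : μ K = 0 := by
    refine h.null_of_finite μ ?_
    filter_upwards [mem_ae_iff.2 h1] with x hx
    simp only [ker_comm x]
    exact (h2 x hx).trans_lt ENNReal.coe_lt_top
  have h4 := measure_univ_le_add_compl (μ := μ) K
  simp [h1, h3] at h4

theorem Polar.h3 {S U : Set C2} (hU : IsOpen U) (ho : IsOpen (U \ S)) (h : Polar (S ∩ U)) :
    μH[3] (S ∩ U) = 0 := by
  refine null_of_local fun p hp => ?_
  obtain ⟨r, hr, hs⟩ := nhds_basis_closedBall.mem_iff.1 (hU.mem_nhds hp.2)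
  have e : S ∩ U ∩ closedBall p r = closedBall p r \ (U \ S) := by
    ext x
    constructor
    · exact fun hx => ⟨hx.2, fun h' => h'.2 hx.1.1⟩
    · exact fun hx => ⟨⟨by_contra fun h' => hx.2 ⟨hs hx.1, h'⟩, hs hx.1⟩, hx.1⟩
  refine ⟨_, closedBall_mem_nhds p hr, cartan (q := nsq) (fun x => ?_)
    ((h.mono inter_subset_left).small (e ▸ (isCompact_closedBall p r).diff ho))⟩
  have h0 : 0 ≤ nsq x := by unfold nsq; positivity
  have h1 : ‖x‖ ≤ √(nsq x) := by
    rw [pi_norm_le_iff_of_nonneg (Real.sqrt_nonneg _), Fin.forall_fin_two]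
    unfold nsq
    constructor <;> refine Real.le_sqrt_of_sq_le ?_ <;> nlinarith [norm_nonneg (x 0), norm_nonneg (x 1)]
  exact (Real.le_sqrt (norm_nonneg _) h0).1 h1

theorem ego_aux_one {B : Set C2} {C : ℝ≥0} (hC : ∀ x : C2, ∫⁻ y in B, ker x y ≤ C) (z : C2)
    {s : ℂ} (hs : s ≠ 0) : ∫⁻ a in B, (‖z + s • a‖ₑ ^ 2)⁻¹ ≤ (‖s‖ₑ ^ 2)⁻¹ * C := by
  have h0 : ‖s‖ₑ ^ 2 ≠ 0 := by simpa using hs
  have e : ∀ a : C2, (‖z + s • a‖ₑ ^ 2)⁻¹ = (‖s‖ₑ ^ 2)⁻¹ * ker (-(s⁻¹ • z)) a := fun a => by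
    have : z + s • a = s • (a - -(s⁻¹ • z)) := by
      rw [sub_neg_eq_add, smul_add, smul_inv_smul₀ hs, add_comm]
    rw [this, enorm_smul, mul_pow, ENNReal.mul_inv (Or.inl h0) (Or.inl (by simp)), ker,
      edist_comm, edist_eq_enorm_sub]
  simp only [e]
  rw [lintegral_const_mul' _ _ (by simpa using hs)]
  gcongr
  exact hC _

theorem ego_aux_tilt {η : ℝ} (hη : 0 < η) : ∃ C : ℝ≥0∞, C ≠ ⊤ ∧ ∀ v : C4,
    ∫⁻ p, (‖tilt p.1 p.2 v‖ₑ ^ 2)⁻¹
      ∂((volume.restrict (ball (0 : C2) η)).prod (volume.restrict (ball (0 : C2) η)))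
      ≤ C * (‖v‖ₑ ^ 2)⁻¹ := by
  obtain ⟨C, hC⟩ := ker_bounded (B := ball (0 : C2) η) isBounded_ball
  set b : ℝ≥0∞ := volume (ball (0 : C2) η) with hb
  have hbt : b ≠ ⊤ := measure_ball_lt_top.ne
  set c : ℝ := 4 * η + 2 + 1 / (2 * η) with hc
  have hc0 : 0 < c := by positivity
  have h2η : 0 < 1 / (2 * η) := by positivity
  set d : ℝ≥0∞ := ENNReal.ofReal c with hd
  have hd0 : d ≠ 0 := by simpa [hd] using hc0
  have hdt : d ≠ ⊤ := ENNReal.ofReal_ne_top
  refine ⟨d ^ 2 * ((b + C) * b), by finiteness, fun v => ?_⟩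
  have hm : Measurable fun p : C2 × C2 => (‖tilt p.1 p.2 v‖ₑ ^ 2)⁻¹ := by
    refine (Measurable.pow_const (Continuous.measurable ?_) 2).inv
    unfold tilt
    fun_prop
  have inv : ∀ {V W : Type} [NormedAddCommGroup V] [NormedAddCommGroup W] (x : V) (y : W),
      ‖y‖ ≤ c * ‖x‖ → (‖x‖ₑ ^ 2)⁻¹ ≤ d ^ 2 * (‖y‖ₑ ^ 2)⁻¹ := fun x y h => by
    refine ego_aux_inv hd0 hdt ?_
    rw [← ofReal_norm, ← ofReal_norm, ← ENNReal.ofReal_mul hc0.le]
    exact ENNReal.ofReal_le_ofReal h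
  have fin : ∀ s : ℂ, ‖v‖ ≤ c * ‖s‖ →
      (‖s‖ₑ ^ 2)⁻¹ * C * b ≤ d ^ 2 * ((b + C) * b) * (‖v‖ₑ ^ 2)⁻¹ := fun s h => by
    calc (‖s‖ₑ ^ 2)⁻¹ * C * b ≤ d ^ 2 * (‖v‖ₑ ^ 2)⁻¹ * (b + C) * b := by
          gcongr
          · exact inv s v h
          · exact le_add_self
      _ = _ := by ring
  rcases le_or_gt (4 * η * ‖v.2‖) ‖v.1‖ with h | h
  · have h1 : ∀ᵐ p ∂((volume.restrict (ball (0 : C2) η)).prod (volume.restrict (ball (0 : C2) η))),
        (‖tilt p.1 p.2 v‖ₑ ^ 2)⁻¹ ≤ d ^ 2 * (‖v‖ₑ ^ 2)⁻¹ := by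
      rw [Measure.prod_restrict]
      filter_upwards [ae_restrict_mem (measurableSet_ball.prod measurableSet_ball)] with p hp
      refine inv _ _ ?_
      have e : v.1 = tilt p.1 p.2 v - v.2 0 • p.1 - v.2 1 • p.2 := by
        unfold tilt
        abel
      have h2 : ‖v.2 0 • p.1‖ ≤ ‖v.2‖ * η := by
        rw [norm_smul]
        exact mul_le_mul (norm_le_pi_norm _ _) (mem_ball_zero_iff.1 hp.1).le (norm_nonneg _)
          (norm_nonneg _)
      have h3 : ‖v.2 1 • p.2‖ ≤ ‖v.2‖ * η := by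
        rw [norm_smul]
        exact mul_le_mul (norm_le_pi_norm _ _) (mem_ball_zero_iff.1 hp.2).le (norm_nonneg _)
          (norm_nonneg _)
      have h4 := norm_sub_le (tilt p.1 p.2 v - v.2 0 • p.1) (v.2 1 • p.2)
      have h5 := norm_sub_le (tilt p.1 p.2 v) (v.2 0 • p.1)
      rw [← e] at h4
      have h6 : ‖v.1‖ ≤ 2 * ‖tilt p.1 p.2 v‖ := by linarith
      have h7 : ‖v.2‖ ≤ 1 / (2 * η) * ‖tilt p.1 p.2 v‖ := by
        rw [one_div, ← div_eq_inv_mul, le_div_iff₀ (by positivity)]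
        linarith
      have h8 := norm_nonneg (tilt p.1 p.2 v)
      rw [Prod.norm_def, max_le_iff]
      constructor <;> nlinarith
    refine (lintegral_mono_ae h1).trans ?_
    rw [lintegral_const, ← univ_prod_univ, Measure.prod_prod, Measure.restrict_apply_univ, ← hb]
    calc d ^ 2 * (‖v‖ₑ ^ 2)⁻¹ * (b * b) ≤ d ^ 2 * (‖v‖ₑ ^ 2)⁻¹ * ((b + C) * b) := by
          gcongr
          exact le_self_add
      _ = _ := by ring
  · have h0 := norm_nonneg v.2
    have h1 : ‖v‖ ≤ c * ‖v.2‖ := by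
      rw [Prod.norm_def, max_le_iff]
      constructor <;> nlinarith
    have h2 : 0 < ‖v.2‖ := by
      refine lt_of_le_of_ne h0 fun h' => ?_
      rw [← h', mul_zero] at h
      exact (norm_nonneg _).not_gt h
    rcases le_total ‖v.2 0‖ ‖v.2 1‖ with h3 | h3
    · have h4 : ‖v.2‖ ≤ ‖v.2 1‖ := by
        rw [pi_norm_le_iff_of_nonneg (norm_nonneg _), Fin.forall_fin_two]
        exact ⟨h3, le_rfl⟩
      rw [lintegral_prod _ hm.aemeasurable]
      refine (lintegral_mono fun a => ego_aux_one hC (v.1 + v.2 0 • a)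
        (norm_pos_iff.1 (h2.trans_le h4))).trans ?_
      rw [lintegral_const, Measure.restrict_apply_univ]
      exact fin _ (h1.trans (by gcongr))
    · have h4 : ‖v.2‖ ≤ ‖v.2 0‖ := by
        rw [pi_norm_le_iff_of_nonneg (norm_nonneg _), Fin.forall_fin_two]
        exact ⟨le_rfl, h3⟩
      rw [lintegral_prod_symm _ hm.aemeasurable]
      simp only [tilt, add_right_comm v.1 (v.2 0 • _)]
      refine (lintegral_mono fun a => ego_aux_one hC (v.1 + v.2 1 • a)
        (norm_pos_iff.1 (h2.trans_le h4))).trans ?_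
      rw [lintegral_const, Measure.restrict_apply_univ]
      exact fin _ (h1.trans (by gcongr))

theorem ego_aux_energy {η : ℝ} (hη : 0 < η) (μ : Measure C4) [IsProbabilityMeasure μ] {B : ℝ≥0}
    (h2 : ∀ᵐ y ∂μ, ∫⁻ x, ker x y ∂μ ≤ B) : ∃ a ∈ ball (0 : C2) η, ∃ b ∈ ball (0 : C2) η,
      ∫⁻ q, ker (tilt a b q.1) (tilt a b q.2) ∂(μ.prod μ) < ⊤ := by
  obtain ⟨C, hC, h3⟩ := ego_aux_tilt hη
  generalize hπ : (volume.restrict (ball (0 : C2) η)).prod (volume.restrict (ball (0 : C2) η)) = π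
    at h3
  have : SFinite π := hπ ▸ inferInstance
  have hm : Measurable fun r : (C2 × C2) × (C4 × C4) =>
      ker (tilt r.1.1 r.1.2 r.2.1) (tilt r.1.1 r.1.2 r.2.2) := by
    refine ego_aux_meas (Continuous.measurable ?_) (Continuous.measurable ?_) <;>
    · unfold tilt
      fun_prop
  have h4 : ∫⁻ p, ∫⁻ q, ker (tilt p.1 p.2 q.1) (tilt p.1 p.2 q.2) ∂(μ.prod μ) ∂π ≤ C * B := by
    rw [lintegral_lintegral_swap hm.aemeasurable]
    calc _ ≤ ∫⁻ q, C * ker q.1 q.2 ∂(μ.prod μ) := by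
          refine lintegral_mono fun q => ?_
          have e : ∀ a b, tilt a b q.1 - tilt a b q.2 = tilt a b (q.1 - q.2) := fun a b => by
            simp only [tilt, Prod.fst_sub, Prod.snd_sub, Pi.sub_apply, sub_smul]
            abel
          simp only [ker, edist_eq_enorm_sub, e]
          exact h3 _
      _ = C * ∫⁻ y, ∫⁻ x, ker x y ∂μ ∂μ := by
          rw [lintegral_const_mul' _ _ hC, lintegral_prod_symm _ measurable_ker.aemeasurable]
      _ ≤ C * ∫⁻ _, B ∂μ := mul_le_mul' le_rfl (lintegral_mono_ae h2)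
      _ = C * B := by simp
  have h5 := ae_lt_top (μ := π) (hm.lintegral_prod_right' (ν := μ.prod μ))
    (ne_top_of_le_ne_top (ENNReal.mul_ne_top hC ENNReal.coe_ne_top) h4)
  have h6 : ∀ᵐ p ∂π, p ∈ ball (0 : C2) η ×ˢ ball (0 : C2) η := by
    rw [← hπ, Measure.prod_restrict]
    exact ae_restrict_mem (measurableSet_ball.prod measurableSet_ball)
  have h7 : π ≠ 0 := by
    rw [← Measure.measure_univ_ne_zero, ← univ_prod_univ, ← hπ, Measure.prod_prod,
      Measure.restrict_apply_univ]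
    exact mul_ne_zero (measure_ball_pos _ _ hη).ne' (measure_ball_pos _ _ hη).ne'
  have := ae_neBot.2 h7
  obtain ⟨p, hp, hp'⟩ := (h5.and h6).exists
  exact ⟨p.1, hp'.1, p.2, hp'.2, hp⟩

theorem ego_aux_map {K : Set C4} (μ : Measure C4) [IsProbabilityMeasure μ] {T : C4 → C2}
    (hT : Measurable T) (h : Polar (T '' K))
    (hp : ∫⁻ q, ker (T q.1) (T q.2) ∂(μ.prod μ) < ⊤) : μ K = 0 := by
  have hk : ∀ x : C2, Measurable fun y => ker x y := fun x =>
    ego_aux_meas measurable_const measurable_id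
  have hl : Measurable fun x : C2 => ∫⁻ y, ker x y ∂(μ.map T) :=
    (measurable_ker (V := C2)).lintegral_prod_right'
  have h8 : μ.map T (T '' K) = 0 := by
    refine h.null_of_finite _ (ae_lt_top hl ?_)
    rw [lintegral_map hl hT]
    simp only [lintegral_map (hk _) hT]
    have hm : Measurable fun q : C4 × C4 => ker (T q.1) (T q.2) :=
      ego_aux_meas (hT.comp measurable_fst) (hT.comp measurable_snd)
    rw [lintegral_prod _ hm.aemeasurable] at hp
    exact hp.ne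
  exact le_zero_iff.1 ((Measure.le_map_apply_image hT.aemeasurable K).trans h8.le)

theorem final3 {K : Set C4} (hK : IsCompact K) {η : ℝ} (hη : 0 < η)
    (h : ∀ a ∈ ball (0 : C2) η, ∀ b ∈ ball (0 : C2) η, Polar (tilt a b '' K)) :
    μH[3] K = 0 := by
  rcases dual (q := fun x : C4 => ‖x‖ ^ 2) (by fun_prop) (fun x => by positivity) (C := 1)
    (fun x => by simp) hK with h1 | ⟨μ, _, h1, B, h2⟩
  · exact cartan (fun x => le_rfl) h1
  exfalso
  obtain ⟨a, ha, b, hb, h3⟩ := ego_aux_energy hη μ (B := B)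
    (by filter_upwards [mem_ae_iff.2 h1] with y hy using h2 y hy)
  have h4 := ego_aux_map μ (Continuous.measurable (by unfold tilt; fun_prop)) (h a ha b hb) h3
  have h5 := measure_univ_le_add_compl (μ := μ) K
  simp [h1, h4] at h5

end Pool.Agent.Lib.MP_823829_an
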