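import Pool.Agent.Lib.MP_823829_an.Defs
import Pool.Agent.Lib.MP_823829_an.PT.Rem
import Pool.Agent.Lib.MP_823829_an.GM.Tilt

/-! The potential theoretic steps, from the library `PT`. -/

namespace Pool.Agent.Lib.MP_823829_an

open Set Metric Filter MeasureTheory
open scoped Topology ENNReal NNReal ContDiff ComplexConjugate

theorem pt_ker : (ker : C2 → C2 → ℝ≥0∞) = PT.ker := by
  funext x y; rw [ker, PT.ker, edist_eq_enorm_sub]

theorem pt_polar {S : Set C2} : Polar S ↔ PT.NP S := by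
  simp only [Polar, Kato, pt_ker, and_imp]; rfl

theorem pt_hs {S U : Set C2} (hU : IsOpen U) (ho : IsOpen (U \ S)) (h : Polar (S ∩ U)) {s : ℝ}
    (hs : 2 < s) : μH[s] (S ∩ U) = 0 := by
  have e : U \ (U \ S) = S ∩ U := by rw [sdiff_sdiff_right_self, inter_comm]
  exact e ▸ PT.NP.hnull (e ▸ pt_polar.1 h) hU ho hs

theorem pt_final3 {K : Set C4} (hK : IsCompact K) {η : ℝ} (hη : 0 < η)
    (h : ∀ a ∈ ball (0 : C2) η, ∀ b ∈ ball (0 : C2) η, Polar (tilt a b '' K)) {t : ℝ}
    (ht : 2 < t) : μH[t] K = 0 := by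
  by_contra h0
  have h1 := min_le_left t 3
  have h2 := min_le_right t 3
  have h3 : 2 < min t 3 := lt_min ht (by norm_num)
  obtain ⟨l, hl, h4⟩ := GM.tilt (s := (2 + min t 3) / 2) (by linarith) (by linarith)
    (by rw [PT.finrank_E2]; push_cast; linarith) hK h0 hη
  have h5 : ∀ j, l (e2 j) ∈ ball (0 : C2) η := fun j => mem_ball_zero_iff.2
    ((l.le_opNorm _).trans_lt (by simpa [e2, Pi.norm_single] using hl))
  have e : (fun x : C2 × C2 => x.1 + l x.2) = tilt (l (e2 0)) (l (e2 1)) := by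
    funext x
    rw [tilt, add_assoc, ← map_smul, ← map_smul, ← map_add]
    congr 2
    ext i
    fin_cases i <;> simp [e2]
  have h6 : IsClosed (tilt (l (e2 0)) (l (e2 1)) '' K) :=
    (hK.image (by unfold tilt; fun_prop)).isClosed
  have h7 := pt_hs isOpen_univ (by simpa [← compl_eq_univ_sdiff] using h6)
    (by simpa using h _ (h5 0) _ (h5 1)) (s := (2 + min t 3) / 2) (by linarith)
  exact h4 (by rw [e]; simpa using h7)

end Pool.Agent.Lib.MP_823829_an
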