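import Pool.Agent.Lib.MP_823829_an.UT
import Pool.Agent.Lib.MP_823829_an.PTB

/-! Extension from the Hartogs figure outside a set of measure zero in dimension three. -/

namespace Pool.Agent.Lib.MP_823829_an

open Set Metric Filter MeasureTheory
open scoped Topology ENNReal NNReal ContDiff ComplexConjugate

/-- The tilted cylinder over a set of the base. -/
def globCyl (u v : C2) (U : Set C2) : Set C4 := {p | tilt u v p ∈ U ∧ p.2 ∈ ball (0 : C2) 1}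

theorem glob_aux_open (u v : C2) {U : Set C2} (hU : IsOpen U) : IsOpen (globCyl u v U) := by
  obtain ⟨Q, hQ, -⟩ := exists_tilt_clm u v
  have : globCyl u v U = Q ⁻¹' U ∩ Prod.snd ⁻¹' ball 0 1 := by
    ext p; simp [globCyl, hQ]
  rw [this]
  exact (hU.preimage Q.continuous).inter (isOpen_ball.preimage continuous_snd)

theorem glob_aux_convex (u v : C2) (R : ℝ) : Convex ℝ (globCyl u v (ball 0 R)) := by
  obtain ⟨Q, hQ, -⟩ := exists_tilt_clm u v
  have : globCyl u v (ball 0 R) =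
      (Q.restrictScalars ℝ).toLinearMap ⁻¹' ball 0 R ∩ (LinearMap.snd ℝ C2 C2) ⁻¹' ball 0 1 := by
    ext p; simp [globCyl, hQ]
  rw [this]
  exact ((convex_ball _ _).linear_preimage _).inter ((convex_ball _ _).linear_preimage _)

theorem glob_aux_norm {u v : C2} {η : ℝ} (hu : u ∈ ball (0 : C2) η) (hv : v ∈ ball (0 : C2) η)
    (p : C4) (hp : p.2 ∈ ball (0 : C2) 1) :
    ‖p.1‖ ≤ ‖tilt u v p‖ + 2 * η ∧ ‖tilt u v p‖ ≤ ‖p.1‖ + 2 * η := by
  have h := norm_tilt_sub_le (mem_ball_zero_iff.1 hu).le (mem_ball_zero_iff.1 hv).le p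
    (mem_ball_zero_iff.1 hp).le
  have h1 := norm_sub_norm_le (tilt u v p) p.1
  have h2 := norm_sub_norm_le p.1 (tilt u v p)
  rw [norm_sub_rev] at h2
  constructor <;> linarith

theorem glob_aux_slim (u v : C2) {R : ℝ} {U : Set C2} (hU : IsOpen U) (hs : U ⊆ ball 0 R)
    (hp : Polar (ball 0 R \ U)) : Slim {p : C4 | tilt u v p ∈ ball (0 : C2) R \ U} := by
  obtain ⟨Q, hQ, hsurj⟩ := exists_tilt_clm u v
  have h3 : μH[3] ((ball (0 : C2) R \ U) ∩ ball 0 R) = 0 :=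
    Polar.h3 isOpen_ball (by rw [sdiff_sdiff_cancel_left hs]; exact hU)
      (hp.mono inter_subset_left)
  have h4 : Slim (ball (0 : C2) R \ U) := by
    refine slim_of_null ?_
    rw [inter_eq_left.2 sdiff_subset] at h3
    have : rd C2 - 1 = 3 := by rw [rd_C2]; norm_num
    rwa [this]
  refine (h4.preimage Q hsurj).mono fun p hp => ?_
  simpa [hQ] using hp

/-- Removing a slim closed set from a convex open set. -/
theorem glob_aux_conn {P D R : Set C4} (hP : IsOpen P) (hc : Convex ℝ P) (hD : IsOpen D)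
    (he : P \ R = D) (hR : Slim R) : IsPreconnected D ∧
      ∀ O : Set C4, IsOpen O → (O ∩ P).Nonempty → (O ∩ D).Nonempty := by
  obtain ⟨h1, h2⟩ := conn hP hc.isPreconnected (he ▸ hD) (hR.mono inter_subset_left)
  rw [he] at h1 h2
  refine ⟨h1, fun O hO ⟨p, hp1, hp2⟩ => ?_⟩
  exact _root_.mem_closure_iff.1 (h2 hp2) O hO hp1

variable {X : Type*} [TopologicalSpace X] [T2Space X] [CompactSpace X] [Nonempty X] {m : ℕ}
  {a : Atl X m}

theorem glob_aux_one (Ω : Frm a) {r : ℝ} (hr : 0 < r) (hr1 : r < 1) {Γ : Set (C4 × X)}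
    (h : MG a (hartogs r) Γ) {η : ℝ} (hη : 0 < η) (hη1 : 4 * η < 1 - r) {u v : C2}
    (hu : u ∈ ball (0 : C2) η) (hv : v ∈ ball (0 : C2) η) :
    ∃ U : Set C2, IsOpen U ∧ U ⊆ ball 0 (1 - 2 * η) ∧ Polar (ball 0 (1 - 2 * η) \ U) ∧
      ∃ Γ' : Set (C4 × X), MG a (globCyl u v U) Γ' ∧
        Agree Γ' Γ (globCyl u v U ∩ hartogs r) := by
  obtain ⟨Φ, hΦ⟩ := exists_tilt_equiv u v
  have hΦ2 : ∀ q, (Φ q).2 = q.2 := fun q => by rw [(hΦ q).1]
  have hΦt : ∀ q, tilt u v (Φ q) = q.1 := fun q => by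
    have := (hΦ (Φ q)).2
    rw [Φ.symm_apply_apply] at this
    exact (congrArg Prod.fst this).symm
  have hsub : hart (1 - r - 2 * η) (1 - 2 * η) r ⊆ Φ ⁻¹' hartogs r := by
    intro q hq
    rw [mem_preimage, hartogs_eq]
    rcases hq with ⟨h1, h2⟩ | ⟨h1, h2⟩
    · have := (glob_aux_norm hu hv (Φ q) (by rw [hΦ2]; exact h2)).1
      rw [hΦt] at this
      rw [mem_ball_zero_iff] at h1
      exact Or.inl ⟨mem_ball_zero_iff.2 (by linarith), by rw [hΦ2]; exact h2⟩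
    · have := (glob_aux_norm hu hv (Φ q) (by rw [hΦ2]; exact shell_subset _ _ h2)).1
      rw [hΦt] at this
      rw [mem_ball_zero_iff] at h1
      exact Or.inr ⟨mem_ball_zero_iff.2 (by linarith), by rw [hΦ2]; exact h2⟩
  have h1 := (h.pull Φ).restrict (isOpen_hart _ _ _) hsub
  obtain ⟨U, hU, hUb, hUp, Γ₂, hΓ₂, hA⟩ := ut Ω (by linarith) (by linarith) hr hr1 h1
  have h3 := hΓ₂.pull Φ.symm
  have hD : Φ.symm ⁻¹' (U ×ˢ ball (0 : C2) 1) = globCyl u v U := by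
    ext p
    simp only [mem_preimage, (hΦ p).2, mem_prod, globCyl, mem_ofPred_eq]
  rw [hD] at h3
  refine ⟨U, hU, hUb, hUp, _, h3, ?_⟩
  have hsh : Agree {q : C4 × X | (Φ.symm q.1, q.2) ∈ Γ₂} Γ
      (globCyl u v U ∩ Prod.snd ⁻¹' shell r 1) := by
    rintro p ⟨⟨hp1, -⟩, hp2⟩ x
    have hm : Φ.symm p ∈ U ×ˢ shell r 1 := by rw [(hΦ p).2]; exact ⟨hp1, hp2⟩
    rw [mem_ofPred_eq, hA _ hm x]
    constructor
    · rintro ⟨h4, -⟩
      simpa using h4
    · intro h4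
      exact ⟨by simpa using h4, Or.inr ⟨hUb hm.1, hm.2⟩⟩
  set B : Set C4 := ball (0 : C2) (1 - r) ×ˢ ball (0 : C2) 1 with hB
  have hBo : IsOpen B := isOpen_ball.prod isOpen_ball
  have hBH : B ⊆ hartogs r := fun p hp => Or.inl hp
  obtain ⟨hc, hne⟩ := glob_aux_conn (P := globCyl u v (ball 0 (1 - 2 * η)) ∩ B)
    (D := globCyl u v U ∩ B) ((glob_aux_open u v isOpen_ball).inter hBo)
    ((glob_aux_convex u v _).inter ((convex_ball _ _).prod (convex_ball _ _)))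
    ((glob_aux_open u v hU).inter hBo) (by
      ext p
      simp only [globCyl, Set.mem_sdiff, mem_inter_iff, mem_ofPred_eq]
      constructor
      · rintro ⟨⟨⟨h4, h5⟩, h6⟩, h7⟩
        exact ⟨⟨by_contra fun h8 => h7 ⟨h4, h8⟩, h5⟩, h6⟩
      · rintro ⟨⟨h4, h5⟩, h6⟩
        exact ⟨⟨⟨hUb h4, h5⟩, h6⟩, fun h7 => h7.2 h4⟩) (glob_aux_slim u v hU hUb hUp)
  have hso : IsOpen (Prod.snd ⁻¹' shell r 1 : Set C4) := (isOpen_shell _ _).preimage continuous_snd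
  have hne2 : (Prod.snd ⁻¹' shell r 1 ∩ (globCyl u v U ∩ B)).Nonempty := by
    refine hne _ hso ?_
    obtain ⟨w, hw⟩ := shell_nonempty hr hr1
    have hw1 := shell_subset _ _ hw
    refine ⟨(0, w), hw, ⟨?_, hw1⟩, mem_ball_self (by linarith), hw1⟩
    have := (glob_aux_norm hu hv ((0 : C2), w) hw1).2
    simp only [norm_zero] at this
    exact mem_ball_zero_iff.2 (by linarith)
  have hB2 : Agree {q : C4 × X | (Φ.symm q.1, q.2) ∈ Γ₂} Γ (globCyl u v U ∩ B) :=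
    h3.agree h ((glob_aux_open u v hU).inter hBo) hc inter_subset_left
      (inter_subset_right.trans hBH) (hso.inter ((glob_aux_open u v hU).inter hBo)) hne2
      inter_subset_right (fun p hp => hsh p ⟨hp.2.1, hp.1⟩)
  rintro p ⟨hp1, hp2 | hp2⟩
  · exact hB2 p ⟨hp1, hp2⟩
  · exact hsh p ⟨hp1, hp2.2⟩

theorem glob_dim (Ω : Frm a) {r : ℝ} (hr : 0 < r) (hr1 : r < 1) {Γ : Set (C4 × X)}
    (h : MG a (hartogs r) Γ) :
    ∃ D : Set C4, hartogs r ⊆ D ∧ D ⊆ polydisc ∧ (∀ t : ℝ, 2 < t → μH[t] (polydisc \ D) = 0) ∧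
      ∃ Γ' : Set (C4 × X), MG a D Γ' ∧ Agree Γ' Γ (hartogs r) := by
  let ι : Type := {x : ℝ × C2 × C2 // 0 < x.1 ∧ 4 * x.1 < 1 - r ∧ x.2.1 ∈ ball (0 : C2) x.1 ∧
    x.2.2 ∈ ball (0 : C2) x.1}
  have h1 := fun i : ι => glob_aux_one Ω hr hr1 h i.2.1 i.2.2.1 i.2.2.2.1 i.2.2.2.2
  choose U hU hUb hUp G hG hA using h1
  have hHo : IsOpen (hartogs r) := h.op
  have hP : ∀ i : ι, globCyl i.1.2.1 i.1.2.2 (U i) ⊆ polydisc := by
    rintro i p ⟨hp1, hp2⟩
    have h2 := (glob_aux_norm i.2.2.2.1 i.2.2.2.2 p hp2).1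
    have h3 := mem_ball_zero_iff.1 (hUb i hp1)
    exact ⟨mem_ball_zero_iff.2 (by linarith), hp2⟩
  have hij : ∀ i j : ι, Agree (G i) (G j)
      (globCyl i.1.2.1 i.1.2.2 (U i) ∩ globCyl j.1.2.1 j.1.2.2 (U j)) := by
    intro i j
    have ho := (glob_aux_open i.1.2.1 i.1.2.2 (hU i)).inter (glob_aux_open j.1.2.1 j.1.2.2 (hU j))
    obtain ⟨hc, hne⟩ := glob_aux_conn
      (P := globCyl i.1.2.1 i.1.2.2 (ball 0 (1 - 2 * i.1.1)) ∩
        globCyl j.1.2.1 j.1.2.2 (ball 0 (1 - 2 * j.1.1)))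
      ((glob_aux_open _ _ isOpen_ball).inter (glob_aux_open _ _ isOpen_ball))
      ((glob_aux_convex _ _ _).inter (glob_aux_convex _ _ _)) ho (by
        ext p
        simp only [globCyl, Set.mem_sdiff, mem_inter_iff, mem_ofPred_eq, mem_union]
        constructor
        · rintro ⟨⟨⟨h4, h5⟩, h6, -⟩, h7⟩
          exact ⟨⟨by_contra fun h8 => h7 (Or.inl ⟨h4, h8⟩), h5⟩,
            by_contra fun h8 => h7 (Or.inr ⟨h6, h8⟩), h5⟩
        · rintro ⟨⟨h4, h5⟩, h6, -⟩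
          refine ⟨⟨⟨hUb i h4, h5⟩, hUb j h6, h5⟩, ?_⟩
          rintro (h7 | h7)
          · exact h7.2 h4
          · exact h7.2 h6)
      ((glob_aux_slim i.1.2.1 i.1.2.2 (hU i) (hUb i) (hUp i)).union
        (glob_aux_slim j.1.2.1 j.1.2.2 (hU j) (hUb j) (hUp j)))
    have h0 : ∀ k : ι, (0 : C4) ∈ globCyl k.1.2.1 k.1.2.2 (ball 0 (1 - 2 * k.1.1)) := by
      intro k
      have hk1 := k.2.1
      have hk2 := k.2.2.1
      refine ⟨?_, mem_ball_self one_pos⟩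
      simp only [tilt, Prod.fst_zero, Prod.snd_zero, Pi.zero_apply, zero_smul, add_zero]
      exact mem_ball_self (by linarith)
    have hne2 := hne _ hHo ⟨0, Or.inl ⟨mem_ball_self (by linarith), mem_ball_self one_pos⟩,
      h0 i, h0 j⟩
    refine (hG i).agree (hG j) ho hc inter_subset_left inter_subset_right (hHo.inter ho) hne2
      inter_subset_right ?_
    rintro p ⟨hp1, hp2, hp3⟩ x
    rw [hA i p ⟨hp2, hp1⟩ x, hA j p ⟨hp3, hp1⟩ x]
  obtain ⟨h2, h3⟩ := mg_glue hG hij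
  have hc : Agree Γ (⋃ i, G i) (hartogs r ∩ ⋃ i : ι, globCyl i.1.2.1 i.1.2.2 (U i)) := by
    rintro p ⟨hp1, hp2⟩ x
    obtain ⟨i, hi⟩ := mem_iUnion.1 hp2
    rw [h3 i p hi x, hA i p ⟨hi, hp1⟩ x]
  obtain ⟨h4, h5, -⟩ := h.union h2 hc
  refine ⟨_, subset_union_left, union_subset (hartogs_subset hr) (iUnion_subset hP), ?_, _, h4, h5⟩
  set D : Set C4 := hartogs r ∪ ⋃ i : ι, globCyl i.1.2.1 i.1.2.2 (U i) with hD
  have hDo : IsOpen D := h4.op
  intro t ht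
  refine null_of_local fun p hp => ?_
  have hp1 : ‖p‖ < 1 := by
    rw [Prod.norm_def]
    exact max_lt (mem_ball_zero_iff.1 hp.1.1) (mem_ball_zero_iff.1 hp.1.2)
  obtain ⟨ρ, hρ1, hρ2⟩ := exists_between hp1
  have hK : IsCompact (closedBall (0 : C4) ρ \ D) := (isCompact_closedBall _ _).diff hDo
  set η : ℝ := min ((1 - r) / 8) ((1 - ρ) / 8) with hη
  have hη0 : 0 < η := lt_min (by linarith) (by linarith)
  have hη1 : η ≤ (1 - r) / 8 := min_le_left _ _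
  have hη2 : η ≤ (1 - ρ) / 8 := min_le_right _ _
  have hnull : μH[t] (closedBall (0 : C4) ρ \ D) = 0 := by
    refine pt_final3 hK hη0 (fun u hu v hv => ?_) ht
    let i : ι := ⟨(η, u, v), hη0, by simp only; linarith, hu, hv⟩
    refine (hUp i).mono ?_
    rintro _ ⟨q, ⟨hq1, hq2⟩, rfl⟩
    have hq3 : ‖q‖ ≤ ρ := mem_closedBall_zero_iff.1 hq1
    have hq4 : q.2 ∈ ball (0 : C2) 1 :=
      mem_ball_zero_iff.2 ((norm_snd_le q).trans_lt (hq3.trans_lt hρ2))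
    have hq5 := (glob_aux_norm hu hv q hq4).2
    have hq6 := norm_fst_le q
    refine ⟨mem_ball_zero_iff.2 (by simp only [i]; linarith), fun hq7 => hq2 ?_⟩
    exact Or.inr (mem_iUnion.2 ⟨i, hq7, hq4⟩)
  refine ⟨closedBall 0 ρ, closedBall_mem_nhds_of_mem (mem_ball_zero_iff.2 hρ1),
    measure_mono_null ?_ hnull⟩
  exact fun q hq => ⟨hq.2, hq.1.2⟩

theorem glob (Ω : Frm a) {r : ℝ} (hr : 0 < r) (hr1 : r < 1) {Γ : Set (C4 × X)}
    (h : MG a (hartogs r) Γ) :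
    ∃ D : Set C4, hartogs r ⊆ D ∧ D ⊆ polydisc ∧ μH[3] (polydisc \ D) = 0 ∧
      ∃ Γ' : Set (C4 × X), MG a D Γ' ∧ Agree Γ' Γ (hartogs r) := by
  obtain ⟨D, h1, h2, h3, h4⟩ := glob_dim Ω hr hr1 h
  exact ⟨D, h1, h2, h3 3 (by norm_num), h4⟩

end Pool.Agent.Lib.MP_823829_an
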