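import Pool.Agent.Lib.MP_823829_an.Lap

/-! The mean value inequality with a Green kernel bound. -/

namespace Pool.Agent.Lib.MP_823829_an

open Set Metric Filter MeasureTheory
open scoped Topology ENNReal NNReal ContDiff ComplexConjugate

theorem green_aux_norm_lt {δ : ℝ} (hδ : 0 < δ) {x : C2} (h : nsq x < δ ^ 2) : ‖x‖ < δ :=
  lt_of_pow_lt_pow_left₀ 2 hδ.le ((norm_sq_le_nsq x).trans_lt h)

theorem green_aux_cont : Continuous fun y : C2 => max (1 - nsq y) 0 :=
  (continuous_const.sub contDiff_nsq.continuous).max continuous_const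

theorem green_aux_c0 : 0 < ∫ y : C2, max (1 - nsq y) 0 := by
  refine green_aux_cont.integral_pos_of_hasCompactSupport_nonneg_nonzero (x := 0) ?_
    (fun y => le_max_right _ _) (by simp [nsq])
  refine HasCompactSupport.intro (isCompact_closedBall (0 : C2) 1) fun y hy => ?_
  refine max_eq_right ?_
  by_contra h
  refine hy (mem_closedBall_zero_iff.2 (green_aux_norm_lt one_pos ?_).le)
  linarith [not_le.1 h]

theorem green_aux_nsq_smul (δ : ℝ) (x : C2) : nsq (δ⁻¹ • x) = nsq x / δ ^ 2 := by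
  simp only [nsq, Pi.smul_apply, norm_smul, mul_pow, Real.norm_eq_abs, sq_abs, inv_pow]
  ring

theorem moll_nonneg (δ : ℝ) (x : C2) : 0 ≤ moll δ x :=
  div_nonneg (le_max_right _ _) (mul_nonneg (by positivity) green_aux_c0.le)

theorem green_aux_lip {a b a' b' d : ℝ} (ha : 0 ≤ a) (hb : 0 ≤ b) (ha' : 0 ≤ a') (hb' : 0 ≤ b')
    (h1 : a' ≤ a + d) (h2 : b' ≤ b + d) (hd : 0 ≤ d) :
    max (1 - (a ^ 2 + b ^ 2)) 0 ≤ max (1 - (a' ^ 2 + b' ^ 2)) 0 + 6 * d := by
  have h0 : 0 ≤ max (1 - (a' ^ 2 + b' ^ 2)) 0 := le_max_right _ _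
  have h3 : 1 - (a' ^ 2 + b' ^ 2) ≤ max (1 - (a' ^ 2 + b' ^ 2)) 0 := le_max_left _ _
  refine max_le ?_ (by linarith)
  by_cases h4 : 1 - (a ^ 2 + b ^ 2) ≤ 0
  · linarith
  by_cases h5 : 1 ≤ d
  · nlinarith
  have ha1 : a ≤ 1 := by nlinarith
  have hb1 : b ≤ 1 := by nlinarith
  have e1 : a' ^ 2 ≤ (a + d) ^ 2 := pow_le_pow_left₀ ha' h1 2
  have e2 : b' ^ 2 ≤ (b + d) ^ 2 := pow_le_pow_left₀ hb' h2 2
  nlinarith

theorem green_aux_lip2 : LipschitzWith 6 fun y : C2 => max (1 - nsq y) 0 := by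
  refine LipschitzWith.of_le_add_mul 6 fun x y => ?_
  have h : ∀ j, ‖y j‖ ≤ ‖x j‖ + dist x y := fun j => by
    have h1 := dist_le_pi_dist x y j
    rw [dist_comm, dist_eq_norm] at h1
    linarith [norm_sub_norm_le (y j) (x j)]
  exact green_aux_lip (norm_nonneg _) (norm_nonneg _) (norm_nonneg _) (norm_nonneg _) (h 0) (h 1)
    dist_nonneg

theorem moll_lipschitz {δ : ℝ} (hδ : 0 < δ) : ∃ K : ℝ≥0, LipschitzWith K (moll δ) := by
  have hc := green_aux_c0
  refine ⟨_, LipschitzWith.of_dist_le' (K := 6 * δ⁻¹ / (δ ^ 4 * ∫ y : C2, max (1 - nsq y) 0))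
    fun x y => ?_⟩
  have h := green_aux_lip2.dist_le_mul (δ⁻¹ • x) (δ⁻¹ • y)
  rw [dist_smul₀, green_aux_nsq_smul, green_aux_nsq_smul, Real.norm_eq_abs,
    abs_of_pos (inv_pos.2 hδ), Real.dist_eq] at h
  have hp : 0 < δ ^ 4 * ∫ y : C2, max (1 - nsq y) 0 := by positivity
  rw [Real.dist_eq, moll, moll, ← sub_div, abs_div, abs_of_pos hp, div_mul_eq_mul_div,
    div_le_div_iff_of_pos_right hp, mul_assoc]
  exact h

theorem moll_support {δ : ℝ} (hδ : 0 < δ) {x : C2} (h : moll δ x ≠ 0) : ‖x‖ < δ := by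
  refine green_aux_norm_lt hδ ?_
  by_contra h1
  refine h ?_
  have : 1 ≤ nsq x / δ ^ 2 := by rw [le_div_iff₀ (by positivity)]; linarith [not_lt.1 h1]
  rw [moll, max_eq_right (by linarith), zero_div]

theorem moll_integral {δ : ℝ} (hδ : 0 < δ) : ∫ x, moll δ x = 1 := by
  have hc := green_aux_c0
  have h := Measure.integral_comp_inv_smul_of_nonneg (volume : Measure C2)
    (fun y : C2 => max (1 - nsq y) 0) hδ.le
  have hr : Module.finrank ℝ C2 = 4 := by
    rw [Module.finrank_pi_fintype]; simp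
  simp only [green_aux_nsq_smul, hr, smul_eq_mul] at h
  simp only [moll]
  rw [integral_div, h, div_self (by positivity)]

theorem moll_bounds : ∃ c C : ℝ, 0 < c ∧ 0 < C ∧ ∀ δ : ℝ, 0 < δ → ∀ x : C2,
    moll δ x ≤ C / δ ^ 4 ∧ (‖x‖ ≤ δ / 2 → c / δ ^ 4 ≤ moll δ x) := by
  have hc := green_aux_c0
  refine ⟨1 / 2 / ∫ y : C2, max (1 - nsq y) 0, 1 / ∫ y : C2, max (1 - nsq y) 0, by positivity,
    by positivity, fun δ hδ x => ⟨?_, fun hx => ?_⟩⟩
  · rw [moll, div_div, mul_comm]
    refine div_le_div_of_nonneg_right (max_le ?_ zero_le_one) (by positivity)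
    have : 0 ≤ nsq x / δ ^ 2 := div_nonneg (nsq_nonneg x) (by positivity)
    linarith
  · rw [moll, div_div, mul_comm]
    refine div_le_div_of_nonneg_right (le_max_of_le_left ?_) (by positivity)
    have h1 : ‖x‖ ^ 2 ≤ (δ / 2) ^ 2 := pow_le_pow_left₀ (norm_nonneg _) hx 2
    have : nsq x / δ ^ 2 ≤ 1 / 2 := by
      rw [div_le_iff₀ (by positivity)]; nlinarith [nsq_le x]
    linarith

theorem green_aux_mem {δ : ℝ} (hδ : 0 < δ) {x y : C2} (h : moll δ (x - y) ≠ 0) :
    y ∈ ball x δ := by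
  rw [mem_ball, dist_comm, dist_eq_norm]
  exact moll_support hδ h

theorem integrable_moll_mul {δ : ℝ} (hδ : 0 < δ) {x : C2} {φ : C2 → ℝ}
    (hφ : ContinuousOn φ (closedBall x δ)) : Integrable fun y => moll δ (x - y) * φ y := by
  obtain ⟨K, hK⟩ := moll_lipschitz hδ
  rw [← integrableOn_iff_integrable_of_support_subset (s := closedBall x δ)]
  · refine ContinuousOn.integrableOn_compact (isCompact_closedBall x δ) ?_
    exact (hK.continuous.comp (continuous_const.sub continuous_id)).continuousOn.mul hφ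
  · intro y hy
    exact ball_subset_closedBall (green_aux_mem hδ (left_ne_zero_of_mul hy))

theorem avg_mono {δ : ℝ} (hδ : 0 < δ) {x : C2} {φ ψ : C2 → ℝ}
    (hφ : ContinuousOn φ (closedBall x δ)) (hψ : ContinuousOn ψ (closedBall x δ))
    (h : ∀ y ∈ ball x δ, φ y ≤ ψ y) : avg δ φ x ≤ avg δ ψ x := by
  refine integral_mono (integrable_moll_mul hδ hφ) (integrable_moll_mul hδ hψ) fun y => ?_
  by_cases hy : moll δ (x - y) = 0
  · simp [hy]
  · exact mul_le_mul_of_nonneg_left (h y (green_aux_mem hδ hy)) (moll_nonneg _ _)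

theorem avg_const {δ : ℝ} (hδ : 0 < δ) (c : ℝ) (x : C2) : avg δ (fun _ => c) x = c := by
  rw [avg, integral_mul_const, integral_sub_left_eq_self (moll δ) volume x, moll_integral hδ,
    one_mul]

theorem avg_add {δ : ℝ} (hδ : 0 < δ) {x : C2} {φ ψ : C2 → ℝ}
    (hφ : ContinuousOn φ (closedBall x δ)) (hψ : ContinuousOn ψ (closedBall x δ)) :
    avg δ (fun y => φ y + ψ y) x = avg δ φ x + avg δ ψ x := by
  simp only [avg, mul_add]
  exact integral_add (integrable_moll_mul hδ hφ) (integrable_moll_mul hδ hψ)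

theorem avg_const_mul (δ c : ℝ) (φ : C2 → ℝ) (x : C2) :
    avg δ (fun y => c * φ y) x = c * avg δ φ x := by
  simp only [avg]
  rw [← integral_const_mul]
  congr 1
  funext y
  ring

theorem green_aux_diff {δ : ℝ} (hδ : 0 < δ) {K : ℝ≥0} (hK : LipschitzWith K (moll δ))
    {T : Set C2} (hT : IsCompact T) {φ : C2 → ℝ} (hφ : ContinuousOn φ T) {M : ℝ}
    (hM : ∀ y ∈ T, |φ y| ≤ M) {x x' : C2} (hx : closedBall x δ ⊆ T) (hx' : closedBall x' δ ⊆ T) :
    |avg δ φ x - avg δ φ x'| ≤ K * ‖x - x'‖ * M * volume.real T := by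
  rw [avg, avg, ← integral_sub (integrable_moll_mul hδ (hφ.mono hx))
    (integrable_moll_mul hδ (hφ.mono hx')),
    ← setIntegral_eq_integral_of_forall_compl_eq_zero (s := T), ← Real.norm_eq_abs]
  · refine norm_setIntegral_le_of_norm_le_const hT.measure_lt_top fun y hy => ?_
    rw [← sub_mul, norm_mul]
    refine mul_le_mul ?_ (hM y hy) (norm_nonneg _) (by positivity)
    have := hK.dist_le_mul (x - y) (x' - y)
    rwa [dist_eq_norm, dist_eq_norm, sub_sub_sub_cancel_right] at this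
  · intro y hy
    have h1 : moll δ (x - y) = 0 := by
      by_contra h; exact hy (hx (ball_subset_closedBall (green_aux_mem hδ h)))
    have h2 : moll δ (x' - y) = 0 := by
      by_contra h; exact hy (hx' (ball_subset_closedBall (green_aux_mem hδ h)))
    simp [h1, h2]

/-- Averages of uniformly bounded functions are uniformly Lipschitz. -/
theorem avg_lip {δ : ℝ} (hδ : 0 < δ) : ∃ C : ℝ, 0 ≤ C ∧ ∀ (φ : C2 → ℝ) (x x' : C2) (M : ℝ),
    ‖x - x'‖ ≤ δ → ContinuousOn φ (closedBall x (2 * δ)) →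
      (∀ y ∈ closedBall x (2 * δ), |φ y| ≤ M) → |avg δ φ x - avg δ φ x'| ≤ C * M * ‖x - x'‖ := by
  obtain ⟨K, hK⟩ := moll_lipschitz hδ
  refine ⟨K * volume.real (closedBall (0 : C2) (2 * δ)), by positivity,
    fun φ x x' M hx hφ hM => ?_⟩
  have h := green_aux_diff hδ hK (isCompact_closedBall x (2 * δ)) hφ hM
    (closedBall_subset_closedBall (by linarith))
    (x' := x') (closedBall_subset_closedBall' (by rw [dist_comm, dist_eq_norm]; linarith))
  have e : volume.real (closedBall x (2 * δ)) = volume.real (closedBall (0 : C2) (2 * δ)) := by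
    simp only [Measure.real, Measure.addHaar_closedBall_center]
  rw [e] at h
  refine h.trans (le_of_eq ?_)
  ring

theorem continuousOn_avg {δ : ℝ} (hδ : 0 < δ) {K : Set C2} (hK : IsCompact K) {φ : C2 → ℝ}
    (hφ : ContinuousOn φ (cthickening δ K)) : ContinuousOn (avg δ φ) K := by
  obtain ⟨L, hL⟩ := moll_lipschitz hδ
  obtain ⟨M, hM⟩ := hK.cthickening.exists_bound_of_continuousOn hφ
  refine (LipschitzOnWith.of_dist_le' (K := L * M * volume.real (cthickening δ K))
    fun x hx x' hx' => ?_).continuousOn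
  have h := green_aux_diff hδ hL hK.cthickening hφ hM (closedBall_subset_cthickening hx δ)
    (closedBall_subset_cthickening hx' δ)
  rw [Real.dist_eq, dist_eq_norm]
  refine h.trans (le_of_eq ?_)
  ring

theorem green_aux_pow (n : ℕ) (t : ℝ) :
    HasDerivAt (fun t : ℝ => max t 0 ^ (n + 2)) ((n + 2 : ℕ) * max t 0 ^ (n + 1)) t := by
  rcases lt_trichotomy t 0 with h | rfl | h
  · rw [max_eq_right h.le, zero_pow (by omega), mul_zero]
    refine (hasDerivAt_const t (0 : ℝ)).congr_of_eventuallyEq ?_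
    filter_upwards [gt_mem_nhds h] with s hs
    rw [max_eq_right hs.le, zero_pow (by omega)]
  · rw [max_self, zero_pow (by omega), mul_zero, hasDerivAt_iff_isLittleO]
    refine (Asymptotics.IsBigO.of_bound 1 (Eventually.of_forall fun s => ?_)).trans_isLittleO
      ((Asymptotics.isLittleO_pow_id (𝕜 := ℝ) (n := n + 2) (by omega)).congr_right
        fun s => (sub_zero s).symm)
    rw [max_self, zero_pow (by omega), smul_zero, sub_zero, sub_zero, one_mul, norm_pow, norm_pow]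
    refine pow_le_pow_left₀ (norm_nonneg _) ?_ _
    rw [Real.norm_eq_abs, Real.norm_eq_abs, abs_of_nonneg (le_max_right _ _)]
    exact max_le (le_abs_self s) (abs_nonneg s)
  · rw [max_eq_left h.le]
    refine (hasDerivAt_pow (n + 2) t).congr_of_eventuallyEq ?_
    filter_upwards [lt_mem_nhds h] with s hs
    rw [max_eq_left hs.le]

theorem green_aux_C1 : ContDiff ℝ 1 fun t : ℝ => max t 0 ^ 2 := by
  rw [contDiff_one_iff_deriv]
  refine ⟨fun t => (green_aux_pow 0 t).differentiableAt, ?_⟩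
  have : deriv (fun t : ℝ => max t 0 ^ 2) = fun t => ((0 + 2 : ℕ) : ℝ) * max t 0 ^ (0 + 1) :=
    funext fun t => (green_aux_pow 0 t).deriv
  rw [this]
  fun_prop

theorem green_aux_C2 : ContDiff ℝ 2 fun t : ℝ => max t 0 ^ 3 := by
  rw [show (2 : WithTop ℕ∞) = 1 + 1 from rfl, contDiff_succ_iff_deriv]
  refine ⟨fun t => (green_aux_pow 1 t).differentiableAt, by simp, ?_⟩
  have : deriv (fun t : ℝ => max t 0 ^ 3) = fun t => ((1 + 2 : ℕ) : ℝ) * max t 0 ^ (1 + 1) :=
    funext fun t => (green_aux_pow 1 t).deriv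
  rw [this]
  exact contDiff_const.mul green_aux_C1

/-- The truncated Newton kernel as a function of the squared norm. -/
noncomputable def green_aux_n (δ s : ℝ) : ℝ :=
  if s = 0 then 3 / δ ^ 2 else (1 - max (1 - s / δ ^ 2) 0 ^ 3) / s

theorem green_aux_mul_n (δ s : ℝ) : s * green_aux_n δ s = 1 - max (1 - s / δ ^ 2) 0 ^ 3 := by
  unfold green_aux_n
  split_ifs with h
  · simp [h]
  · rw [mul_div_cancel₀ _ h]

theorem green_aux_n_C2 {δ : ℝ} (hδ : 0 < δ) : ContDiff ℝ 2 (green_aux_n δ) := by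
  rw [contDiff_iff_contDiffAt]
  intro s
  by_cases hs : s = 0
  · have h1 : ContDiffAt ℝ 2 (fun s : ℝ => 3 / δ ^ 2 - 3 * s / δ ^ 4 + s ^ 2 / δ ^ 6) s := by
      fun_prop
    refine h1.congr_of_eventuallyEq ?_
    have h2 : s < δ ^ 2 := by rw [hs]; positivity
    filter_upwards [gt_mem_nhds h2] with t ht
    unfold green_aux_n
    split_ifs with h
    · simp [h]
    · have : t / δ ^ 2 ≤ 1 := by rw [div_le_one (by positivity)]; exact ht.le
      rw [max_eq_left (by linarith)]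
      field_simp
      ring
  · have h0 : ContDiff ℝ 2 fun s : ℝ => max (1 - s / δ ^ 2) 0 ^ 3 :=
      green_aux_C2.comp (f := fun s : ℝ => 1 - s / δ ^ 2) (by fun_prop)
    have h1 : ContDiffAt ℝ 2 (fun s : ℝ => (1 - max (1 - s / δ ^ 2) 0 ^ 3) / s) s :=
      (contDiffAt_const.sub h0.contDiffAt).div contDiffAt_id hs
    refine h1.congr_of_eventuallyEq ?_
    filter_upwards [isOpen_ne.mem_nhds hs] with t ht
    exact if_neg ht

theorem green_aux_trick {θ : ℝ → ℝ} (hθ : ContDiff ℝ 2 θ) (s : ℝ) :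
    deriv (deriv fun s => s * θ s) s = 2 * deriv θ s + s * deriv (deriv θ) s := by
  have h1 : Differentiable ℝ θ := hθ.differentiable (by simp)
  have h2 : Differentiable ℝ (deriv θ) := by
    rw [show (2 : WithTop ℕ∞) = 1 + 1 from rfl, contDiff_succ_iff_deriv] at hθ
    exact hθ.2.2.differentiable (by simp)
  have e : (deriv fun s => s * θ s) = fun s => 1 * θ s + s * deriv θ s :=
    funext fun t => ((hasDerivAt_id' t).mul (h1 t).hasDerivAt).deriv
  rw [e]
  have := (((h1 s).hasDerivAt.const_mul 1).add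
    ((hasDerivAt_id' s).mul (h2 s).hasDerivAt)).deriv
  refine Eq.trans this ?_
  ring

theorem green_aux_dd (δ s : ℝ) :
    deriv (deriv fun s => s * green_aux_n δ s) s = -(6 / δ ^ 4 * max (1 - s / δ ^ 2) 0) := by
  have hl : ∀ t : ℝ, HasDerivAt (fun s : ℝ => 1 - s / δ ^ 2) (-(1 / δ ^ 2)) t := fun t =>
    ((hasDerivAt_id' t).div_const _).const_sub 1
  have e : (deriv fun s => s * green_aux_n δ s) =
      fun s => 3 / δ ^ 2 * max (1 - s / δ ^ 2) 0 ^ 2 := by
    funext t
    simp only [green_aux_mul_n]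
    refine Eq.trans (((green_aux_pow 1 _).comp t (hl t)).const_sub 1).deriv ?_
    push_cast
    ring
  rw [e]
  refine Eq.trans (((green_aux_pow 0 _).comp s (hl s)).const_mul (3 / δ ^ 2)).deriv ?_
  push_cast
  ring

theorem green_aux_lap {δ : ℝ} (hδ : 0 < δ) (z : C2) :
    lap (fun x => green_aux_n δ (nsq x)) z =
      -(24 * (∫ y : C2, max (1 - nsq y) 0) * moll δ z) := by
  have hc := green_aux_c0
  have h1 := green_aux_trick (green_aux_n_C2 hδ) (nsq z)
  rw [green_aux_dd] at h1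
  rw [lap_radial (green_aux_n_C2 hδ).contDiffAt, moll]
  have e : 24 * (∫ y : C2, max (1 - nsq y) 0) * (max (1 - nsq z / δ ^ 2) 0 /
      (δ ^ 4 * ∫ y : C2, max (1 - nsq y) 0)) = 4 * (6 / δ ^ 4 * max (1 - nsq z / δ ^ 2) 0) := by
    field_simp
    ring
  rw [e]
  linarith

theorem green_aux_n_far {δ s : ℝ} (hδ : 0 < δ) (hs : δ ^ 2 ≤ s) : green_aux_n δ s = 1 / s := by
  have h0 : s ≠ 0 := (lt_of_lt_of_le (by positivity) hs).ne'
  have : 1 ≤ s / δ ^ 2 := by rw [le_div_iff₀ (by positivity)]; linarith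
  rw [green_aux_n, if_neg h0, max_eq_right (by linarith)]
  simp

theorem green_aux_n_mono {τ δ s : ℝ} (hτ : 0 < τ) (h : τ ≤ δ) (hs : 0 ≤ s) :
    green_aux_n δ s ≤ green_aux_n τ s := by
  have h2 : τ ^ 2 ≤ δ ^ 2 := pow_le_pow_left₀ hτ.le h 2
  unfold green_aux_n
  split_ifs with h0
  · exact div_le_div_of_nonneg_left (by norm_num) (by positivity) h2
  · refine div_le_div_of_nonneg_right (sub_le_sub_left ?_ 1) hs
    refine pow_le_pow_left₀ (le_max_right _ _) (max_le_max_right 0 (sub_le_sub_left ?_ 1)) 3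
    exact div_le_div_of_nonneg_left hs (by positivity) h2

theorem green_aux_n_le {τ δ s : ℝ} (hs : 0 < s) :
    green_aux_n τ s - green_aux_n δ s ≤ 1 / s := by
  rw [green_aux_n, green_aux_n, if_neg hs.ne', if_neg hs.ne', ← sub_div]
  refine div_le_div_of_nonneg_right ?_ hs.le
  have h1 : 0 ≤ max (1 - s / τ ^ 2) 0 ^ 3 := pow_nonneg (le_max_right _ _) 3
  have h2 : max (1 - s / δ ^ 2) 0 ^ 3 ≤ 1 := by
    refine pow_le_one₀ (le_max_right _ _) (max_le ?_ zero_le_one)
    have : 0 ≤ s / δ ^ 2 := by positivity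
    linarith
  linarith

theorem green_aux_two {τ δ : ℝ} (hτ : 0 < τ) (hτδ : τ ≤ δ) {x : C2} {V : Set C2} {φ : C2 → ℝ}
    (hV : IsOpen V) (hx : closedBall x δ ⊆ V) (hφ : ContDiffOn ℝ 2 φ V)
    (hl : ∀ y ∈ V, 0 ≤ lap φ y) :
    avg τ φ x ≤ avg δ φ x ∧
      ENNReal.ofReal (24 * (∫ y : C2, max (1 - nsq y) 0) * (avg δ φ x - avg τ φ x)) ≤
        ∫⁻ y in ball x δ, ker x y * ENNReal.ofReal (lap φ y) := by
  have hc := green_aux_c0
  have hδ : 0 < δ := hτ.trans_le hτδ
  have hN : ∀ {r : ℝ}, 0 < r → ContDiff ℝ 2 fun z : C2 => green_aux_n r (nsq z) := fun hr =>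
    (green_aux_n_C2 hr).comp (contDiff_infty.1 contDiff_nsq 2)
  set G : C2 → ℝ := fun z => green_aux_n τ (nsq z) + -green_aux_n δ (nsq z) with hG
  have hG2 : ContDiff ℝ 2 G := (hN hτ).add (hN hδ).neg
  have hG0 : ∀ y, y ∉ ball x δ → G (x - y) = 0 := by
    intro y hy
    have h1 : δ ^ 2 ≤ nsq (x - y) := by
      by_contra h
      refine hy ?_
      rw [mem_ball, dist_comm, dist_eq_norm]
      exact green_aux_norm_lt hδ (not_le.1 h)
    have h2 : τ ^ 2 ≤ nsq (x - y) := (pow_le_pow_left₀ hτ.le hτδ 2).trans h1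
    simp only [hG]
    rw [green_aux_n_far hδ h1, green_aux_n_far hτ h2, add_neg_cancel]
  have hGn : ∀ z, 0 ≤ G z := fun z => by
    have := green_aux_n_mono hτ hτδ (nsq_nonneg z)
    simp only [hG]; linarith
  have hsupp : tsupport (fun y => G (x - y)) ⊆ closedBall x δ := by
    refine closure_minimal (fun y hy => ?_) isClosed_closedBall
    by_contra h
    exact hy (hG0 y fun h' => h (ball_subset_closedBall h'))
  have hibp := lap_ibp hV hφ (ψ := fun y => G (x - y))
    (hG2.comp (contDiff_const.sub contDiff_id))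
    ((isCompact_closedBall x δ).of_isClosed_subset (isClosed_tsupport _) hsupp) (hsupp.trans hx)
  have hcδ : ContinuousOn φ (closedBall x δ) := hφ.continuousOn.mono hx
  have hcτ : ContinuousOn φ (closedBall x τ) := hcδ.mono (closedBall_subset_closedBall hτδ)
  have hr : ∫ y, φ y * lap (fun y => G (x - y)) y =
      24 * (∫ y : C2, max (1 - nsq y) 0) * (avg δ φ x - avg τ φ x) := by
    rw [avg, avg, ← integral_sub (integrable_moll_mul hδ hcδ) (integrable_moll_mul hτ hcτ),
      ← integral_const_mul]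
    congr 1
    funext y
    rw [lap_sub_left, hG, lap_add (hN hτ).contDiffAt (hN hδ).neg.contDiffAt,
      lap_neg (fun z => green_aux_n δ (nsq z)), green_aux_lap hτ, green_aux_lap hδ]
    ring
  rw [hr] at hibp
  refine ⟨?_, ?_⟩
  · have h0 : 0 ≤ ∫ y, G (x - y) * lap φ y := by
      refine integral_nonneg fun y => ?_
      by_cases hy : y ∈ ball x δ
      · exact mul_nonneg (hGn _) (hl y (hx (ball_subset_closedBall hy)))
      · simp [hG0 y hy]
    rw [hibp] at h0
    have := nonneg_of_mul_nonneg_right h0 (by positivity)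
    linarith
  · rw [← hibp, ← lintegral_indicator measurableSet_ball]
    refine (Real.ofReal_le_enorm _).trans ((enorm_integral_le_lintegral_enorm _).trans
      (lintegral_mono fun y => ?_))
    by_cases hy : y ∈ ball x δ
    · rw [indicator_of_mem hy, enorm_mul,
        Real.enorm_eq_ofReal (hl y (hx (ball_subset_closedBall hy)))]
      refine mul_le_mul_left ?_ _
      by_cases hxy : x = y
      · simp [ker, hxy]
      · have hp : 0 < ‖x - y‖ := norm_pos_iff.2 (sub_ne_zero.2 hxy)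
        have h1 : 0 < ‖x - y‖ ^ 2 := by positivity
        have h2 := norm_sq_le_nsq (x - y)
        have h3 : G (x - y) ≤ (‖x - y‖ ^ 2)⁻¹ := by
          have h4 := green_aux_n_le (τ := τ) (δ := δ) (h1.trans_le h2)
          have h5 := one_div_le_one_div_of_le h1 h2
          rw [one_div (‖x - y‖ ^ 2)] at h5
          simp only [hG]; linarith
        rw [Real.enorm_eq_ofReal (hGn _), ker, edist_dist, dist_eq_norm,
          ← ENNReal.ofReal_pow hp.le, ← ENNReal.ofReal_inv_of_pos h1]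
        exact ENNReal.ofReal_le_ofReal h3
    · simp [hG0 y hy]

theorem green : ∃ C : ℝ≥0, ∀ (δ : ℝ) (x : C2) (V : Set C2) (φ : C2 → ℝ), 0 < δ → IsOpen V →
    closedBall x δ ⊆ V → ContDiffOn ℝ 2 φ V → (∀ y ∈ V, 0 ≤ lap φ y) →
      φ x ≤ avg δ φ x ∧ ENNReal.ofReal (avg δ φ x - φ x) ≤
        C * ∫⁻ y in ball x δ, ker x y * ENNReal.ofReal (lap φ y) := by
  have hc := green_aux_c0
  have hp : 0 < 24 * ∫ y : C2, max (1 - nsq y) 0 := by positivity
  refine ⟨Real.toNNReal (24 * ∫ y : C2, max (1 - nsq y) 0)⁻¹, fun δ x V φ hδ hV hx hφ hl => ?_⟩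
  have hcδ : ContinuousOn φ (closedBall x δ) := hφ.continuousOn.mono hx
  have key : ∀ ε : ℝ, 0 < ε → ∃ τ, 0 < τ ∧ τ ≤ δ ∧ φ x - ε ≤ avg τ φ x ∧ avg τ φ x ≤ φ x + ε := by
    intro ε hε
    have hca : ContinuousAt φ x :=
      hφ.continuousOn.continuousAt (hV.mem_nhds (hx (mem_closedBall_self hδ.le)))
    obtain ⟨r, hr, h⟩ := Metric.continuousAt_iff.1 hca ε hε
    have hτ : 0 < min r δ := lt_min hr hδ
    have hcτ : ContinuousOn φ (closedBall x (min r δ)) :=
      hcδ.mono (closedBall_subset_closedBall (min_le_right _ _))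
    have h' : ∀ y ∈ ball x (min r δ), |φ y - φ x| < ε := fun y hy =>
      h ((mem_ball.1 hy).trans_le (min_le_left _ _))
    refine ⟨min r δ, hτ, min_le_right _ _, ?_, ?_⟩
    · rw [← avg_const hτ (φ x - ε) x]
      exact avg_mono hτ continuousOn_const hcτ fun y hy => by linarith [(abs_lt.1 (h' y hy)).1]
    · rw [← avg_const hτ (φ x + ε) x]
      exact avg_mono hτ hcτ continuousOn_const fun y hy => by linarith [(abs_lt.1 (h' y hy)).2]
  refine ⟨le_of_forall_pos_le_add fun ε hε => ?_, ?_⟩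
  · obtain ⟨τ, h1, h2, h3, -⟩ := key ε hε
    linarith [(green_aux_two h1 h2 hV hx hφ hl).1]
  · refine ENNReal.le_of_forall_pos_le_add fun ε hε _ => ?_
    obtain ⟨τ, h1, h2, -, h4⟩ := key ε hε
    have h5 := (green_aux_two h1 h2 hV hx hφ hl).2
    have e : avg δ φ x - φ x ≤ (24 * ∫ y : C2, max (1 - nsq y) 0)⁻¹ *
        (24 * (∫ y : C2, max (1 - nsq y) 0) * (avg δ φ x - avg τ φ x)) + ε := by
      rw [← mul_assoc, inv_mul_cancel₀ hp.ne']
      linarith
    refine (ENNReal.ofReal_le_ofReal e).trans (ENNReal.ofReal_add_le.trans ?_)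
    rw [ENNReal.ofReal_coe_nnreal, ENNReal.ofReal_mul (inv_pos.2 hp).le]
    exact add_le_add_left (mul_le_mul_right h5 _) _

end Pool.Agent.Lib.MP_823829_an
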