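import Pool.Agent.Lib.MP_823829_an.Green
import Pool.Agent.Lib.MP_823829_an.Geo

/-! Kato measures, polar sets and the key estimate. -/

namespace Pool.Agent.Lib.MP_823829_an

open Set Metric Filter MeasureTheory
open scoped Topology ENNReal NNReal ContDiff ComplexConjugate

theorem ker_comm {V : Type} [PseudoEMetricSpace V] (x y : V) : ker x y = ker y x := by
  unfold ker
  rw [edist_comm]

theorem measurable_ker {V : Type} [PseudoEMetricSpace V] [SecondCountableTopology V]
    [MeasurableSpace V] [BorelSpace V] : Measurable fun p : V × V => ker p.1 p.2 := by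
  unfold ker
  exact (measurable_edist.pow_const 2).inv

theorem key_aux_finrank : Module.finrank ℝ C2 = 4 := by
  simp [C2, Module.finrank_pi_fintype, Complex.finrank_real_complex]

theorem key_aux_meas (x : C2) : Measurable (ker x : C2 → ℝ≥0∞) := by
  have h : Measurable fun y : C2 => (edist x y ^ 2)⁻¹ :=
    ((continuous_const.edist continuous_id).measurable.pow_const 2).inv
  exact h

theorem key_aux_one : ∫⁻ y in ball (0 : C2) 1, ker 0 y < ⊤ := by
  have h : IntegrableOn (fun y : C2 => ‖y‖ ^ (-(2 : ℝ))) (ball 0 1) volume :=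
    integrableOn_ball_of_norm_le_rpow (C := 1) (α := 2) (by rw [key_aux_finrank]; norm_num)
      (by rw [key_aux_finrank]; norm_num)
      (Eventually.of_forall fun y => by
        rw [one_mul, Real.norm_of_nonneg (Real.rpow_nonneg (norm_nonneg y) _)])
      (measurable_norm.pow_const _).aestronglyMeasurable
  refine lt_of_le_of_lt (lintegral_mono_ae ?_) h.2
  have h0 : ∀ᵐ y : C2 ∂(volume.restrict (ball (0 : C2) 1)), y ≠ 0 :=
    ae_restrict_of_ae (by simp [ae_iff])
  filter_upwards [h0] with y hy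
  have hp : 0 < ‖y‖ := norm_pos_iff.2 hy
  rw [ker, edist_zero_left, Real.enorm_eq_ofReal (Real.rpow_nonneg hp.le _), Real.rpow_neg hp.le,
    ENNReal.ofReal_inv_of_pos (Real.rpow_pos_of_pos hp _), Real.rpow_two,
    ENNReal.ofReal_pow hp.le, ofReal_norm]
  exact le_rfl

theorem key_aux_scale (x : C2) {δ : ℝ} (hδ : 0 < δ) :
    ∫⁻ y in ball x δ, ker x y = ENNReal.ofReal (δ ^ 2) * ∫⁻ y in ball (0 : C2) 1, ker 0 y := by
  set G : C2 → ℝ≥0∞ := (ball x δ).indicator (ker x) with hG
  have hm : Measurable G := (key_aux_meas x).indicator measurableSet_ball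
  have h1 : ∫⁻ y, G (x + δ • y) = ENNReal.ofReal ((δ ^ 4)⁻¹) * ∫⁻ y, G y := by
    have hm' : Measurable fun z => G (x + z) := hm.comp (measurable_const_add x)
    rw [← lintegral_map hm' (measurable_const_smul δ), Measure.map_addHaar_smul _ hδ.ne',
      lintegral_smul_measure, lintegral_add_left_eq_self, key_aux_finrank,
      abs_of_pos (by positivity), smul_eq_mul]
  have h2 : ∀ y : C2, G (x + δ • y) =
      (ball (0 : C2) 1).indicator (fun y => ENNReal.ofReal ((δ ^ 2)⁻¹) * ker 0 y) y := by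
    intro y
    have hiff : x + δ • y ∈ ball x δ ↔ y ∈ ball (0 : C2) 1 := by
      rw [mem_ball_iff_norm, mem_ball_zero_iff, add_sub_cancel_left, norm_smul,
        Real.norm_of_nonneg hδ.le, mul_lt_iff_lt_one_right hδ]
    by_cases hy : y ∈ ball (0 : C2) 1
    · rw [hG, indicator_of_mem (hiff.2 hy), indicator_of_mem hy, ker, ker, edist_zero_left,
        edist_eq_enorm_sub, sub_add_cancel_left, enorm_neg, enorm_smul, mul_pow,
        Real.enorm_eq_ofReal hδ.le, ENNReal.ofReal_inv_of_pos (by positivity),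
        ENNReal.ofReal_pow hδ.le,
        ENNReal.mul_inv (Or.inl (pow_ne_zero _ (ENNReal.ofReal_pos.2 hδ).ne'))
          (Or.inl (ENNReal.pow_ne_top ENNReal.ofReal_ne_top))]
      rfl
    · rw [hG, indicator_of_notMem (fun h => hy (hiff.1 h)), indicator_of_notMem hy]
  simp only [h2] at h1
  rw [lintegral_indicator measurableSet_ball, lintegral_const_mul _ (key_aux_meas 0), hG,
    lintegral_indicator measurableSet_ball] at h1
  calc ∫⁻ y in ball x δ, ker x y
      = ENNReal.ofReal (δ ^ 4) * (ENNReal.ofReal ((δ ^ 4)⁻¹) * ∫⁻ y in ball x δ, ker x y) := by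
        rw [← mul_assoc, ← ENNReal.ofReal_mul (by positivity), mul_inv_cancel₀ (by positivity),
          ENNReal.ofReal_one, one_mul]
    _ = _ := by
        rw [← h1, ← mul_assoc, ← ENNReal.ofReal_mul (by positivity)]
        congr 2
        field_simp

theorem ker_ball_le : ∃ C : ℝ≥0, ∀ (x : C2) (δ : ℝ), 0 < δ →
    ∫⁻ y in ball x δ, ker x y ≤ C * ENNReal.ofReal (δ ^ 2) := by
  refine ⟨(∫⁻ y in ball (0 : C2) 1, ker 0 y).toNNReal, fun x δ hδ => ?_⟩
  rw [key_aux_scale x hδ, ENNReal.coe_toNNReal key_aux_one.ne, mul_comm]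

theorem ker_bounded {B : Set C2} (hB : Bornology.IsBounded B) :
    ∃ C : ℝ≥0, ∀ x : C2, ∫⁻ y in B, ker x y ≤ C := by
  obtain ⟨C, hC⟩ := ker_ball_le
  have hv : volume B < ⊤ := hB.measure_lt_top
  refine ⟨C + (volume B).toNNReal, fun x => ?_⟩
  have h1 : ∀ y, ker x y ≤ (ball x 1).indicator (ker x) y + 1 := by
    intro y
    by_cases hy : y ∈ ball x 1
    · rw [indicator_of_mem hy]
      exact le_self_add
    · rw [indicator_of_notMem hy, zero_add, ker, ENNReal.inv_le_one]
      refine one_le_pow₀ ?_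
      rw [mem_ball', not_lt] at hy
      rw [edist_dist, ← ENNReal.ofReal_one]
      exact ENNReal.ofReal_le_ofReal hy
  calc ∫⁻ y in B, ker x y ≤ ∫⁻ y in B, ((ball x 1).indicator (ker x) y + 1) := lintegral_mono h1
    _ = (∫⁻ y in B, (ball x 1).indicator (ker x) y) + volume B := by
        rw [lintegral_add_right _ measurable_const, lintegral_const, one_mul,
          Measure.restrict_apply_univ]
    _ ≤ C + volume B := by
        gcongr
        refine (setLIntegral_le_lintegral _ _).trans ?_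
        rw [lintegral_indicator measurableSet_ball]
        simpa using hC x 1 one_pos
    _ = _ := by rw [ENNReal.coe_add, ENNReal.coe_toNNReal hv.ne]

theorem kato_volume {B : Set C2} (hB : Bornology.IsBounded B) : Kato (volume.restrict B) := by
  refine ⟨⟨by rw [Measure.restrict_apply_univ]; exact hB.measure_lt_top⟩, fun ε hε => ?_⟩
  obtain ⟨C, hC⟩ := ker_ball_le
  have ht : Tendsto (fun δ : ℝ => (C : ℝ≥0∞) * ENNReal.ofReal (δ ^ 2)) (𝓝[>] 0) (𝓝 0) := by
    have h1 : Tendsto (fun δ : ℝ => ENNReal.ofReal (δ ^ 2)) (𝓝 0) (𝓝 0) := by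
      have : Continuous fun δ : ℝ => ENNReal.ofReal (δ ^ 2) :=
        ENNReal.continuous_ofReal.comp (continuous_pow 2)
      simpa using this.tendsto 0
    simpa using ENNReal.Tendsto.const_mul (h1.mono_left nhdsWithin_le_nhds)
      (Or.inr ENNReal.coe_ne_top)
  obtain ⟨δ, h1, h2⟩ := ((ht.eventually (ge_mem_nhds hε)).and self_mem_nhdsWithin).exists
  refine ⟨δ, h2, fun x => le_trans ?_ ((hC x δ h2).trans h1)⟩
  exact lintegral_mono' (Measure.restrict_mono subset_rfl Measure.restrict_le_self) le_rfl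

theorem Kato.ball_le {ν : Measure C2} (h : Kato ν) (c : ℝ≥0) (hc : 0 < c) : ∃ δ : ℝ, 0 < δ ∧
    ∀ y r, 0 < r → r < δ → ν (closedBall y r) ≤ c * ENNReal.ofReal (r ^ (2 : ℝ)) := by
  obtain ⟨δ, hδ, hν⟩ := h.2 c (ENNReal.coe_pos.2 hc)
  refine ⟨δ, hδ, fun y r hr hrδ => ?_⟩
  have h0 : ENNReal.ofReal r ^ 2 ≠ 0 := pow_ne_zero _ (ENNReal.ofReal_pos.2 hr).ne'
  have ht : ENNReal.ofReal r ^ 2 ≠ ⊤ := ENNReal.pow_ne_top ENNReal.ofReal_ne_top
  have h1 : (ENNReal.ofReal r ^ 2)⁻¹ * ν (closedBall y r) ≤ c := by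
    rw [← setLIntegral_const]
    refine le_trans ?_ ((lintegral_mono_set (closedBall_subset_ball hrδ)).trans (hν y))
    refine setLIntegral_mono (key_aux_meas y) fun z hz => ?_
    rw [ker, ENNReal.inv_le_inv, edist_dist]
    rw [mem_closedBall'] at hz
    gcongr
  rw [Real.rpow_two, ENNReal.ofReal_pow hr.le]
  calc ν (closedBall y r)
      = (ENNReal.ofReal r ^ 2)⁻¹ * ν (closedBall y r) * ENNReal.ofReal r ^ 2 := by
        rw [mul_right_comm, ENNReal.inv_mul_cancel h0 ht, one_mul]
    _ ≤ _ := by gcongr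

theorem Polar.mono {S S' : Set C2} (h : Polar S) (hs : S' ⊆ S) : Polar S' :=
  fun ν hν => measure_mono_null hs (h ν hν)

theorem polar_empty : Polar ∅ := fun _ _ => measure_empty

theorem Polar.union {S S' : Set C2} (h : Polar S) (h' : Polar S') : Polar (S ∪ S') :=
  fun ν hν => measure_union_null (h ν hν) (h' ν hν)

theorem polar_iUnion {ι : Type*} [Countable ι] {S : ι → Set C2} (h : ∀ i, Polar (S i)) :
    Polar (⋃ i, S i) :=
  fun ν hν => measure_iUnion_null fun i => h i ν hν

theorem polar_of_local {S : Set C2} (h : ∀ p ∈ S, ∃ N ∈ 𝓝 p, Polar (S ∩ N)) : Polar S := by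
  intro ν hν
  refine measure_null_of_locally_null S fun p hp => ?_
  obtain ⟨N, hN, hP⟩ := h p hp
  exact ⟨S ∩ N, inter_mem_nhdsWithin S hN, hP ν hν⟩

theorem Polar.vol_zero {S : Set C2} (h : Polar S) : volume S = 0 := by
  refine measure_null_of_locally_null S fun p _ => ?_
  refine ⟨S ∩ ball p 1, inter_mem_nhdsWithin S (ball_mem_nhds p one_pos), ?_⟩
  rw [← Measure.restrict_apply' measurableSet_ball]
  exact h _ (kato_volume isBounded_ball)

theorem Polar.exists_notMem {S O : Set C2} (h : Polar S) (hO : IsOpen O) (hne : O.Nonempty) :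
    ∃ z ∈ O, z ∉ S := by
  by_contra hc
  push Not at hc
  exact (hO.measure_pos volume hne).ne' (measure_mono_null hc h.vol_zero)

theorem key_aux_meas_lap (φ : C2 → ℝ) : Measurable (lap φ) := by
  unfold lap d2
  exact Finset.measurable_sum _ fun j _ =>
    (measurable_fderiv_apply_const ℝ _ _).add (measurable_fderiv_apply_const ℝ _ _)

/-- The mass of the Laplacian of a subharmonic function on a compact set. -/
theorem key_aux_mass {K V : Set C2} (hK : IsCompact K) (hV : IsOpen V) (hKV : K ⊆ V) :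
    ∃ M : ℝ≥0, ∀ φ : C2 → ℝ, ContDiffOn ℝ 2 φ V → (∀ y ∈ V, 0 ≤ lap φ y) →
      ∫⁻ y in K, ENNReal.ofReal (lap φ y) ≤ M * ∫⁻ y in V, ‖φ y‖ₑ := by
  obtain ⟨θ, hθ, hc, hs, h1, h01⟩ := exists_bump hK hV hKV
  have hθ2 : ContDiff ℝ 2 θ := hθ.of_le (by norm_cast)
  have hlc : Continuous (lap θ) :=
    continuous_iff_continuousAt.2 fun z => continuousAt_lap hθ2.contDiffAt
  have hls : HasCompactSupport (lap θ) :=
    hc.of_isClosed_subset (isClosed_tsupport _) (tsupport_lap θ)
  obtain ⟨M, hM⟩ := hls.exists_bound_of_continuous hlc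
  refine ⟨M.toNNReal, fun φ hφ hp => ?_⟩
  have hsub : tsupport (fun y => θ y * lap φ y) ⊆ tsupport θ := tsupport_mul_subset_left
  have hcont : Continuous fun y => θ y * lap φ y := by
    refine ContinuousOn.continuous_of_tsupport_subset (fun y hy => ?_) hV (hsub.trans hs)
    exact (hθ.continuous.continuousAt.mul
      (continuousAt_lap (hφ.contDiffAt (hV.mem_nhds hy)))).continuousWithinAt
  have hint : Integrable fun y => θ y * lap φ y :=
    hcont.integrable_of_hasCompactSupport (hc.of_isClosed_subset (isClosed_tsupport _) hsub)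
  have hnn : ∀ y, 0 ≤ θ y * lap φ y := by
    intro y
    by_cases hy : y ∈ V
    · exact mul_nonneg (h01 y).1 (hp y hy)
    · rw [image_eq_zero_of_notMem_tsupport fun h => hy (hs h), zero_mul]
  calc ∫⁻ y in K, ENNReal.ofReal (lap φ y)
      = ∫⁻ y in K, ENNReal.ofReal (θ y * lap φ y) :=
        setLIntegral_congr_fun hK.measurableSet fun y hy => by rw [h1 y hy, one_mul]
    _ ≤ ∫⁻ y, ENNReal.ofReal (θ y * lap φ y) := setLIntegral_le_lintegral _ _
    _ = ENNReal.ofReal (∫ y, φ y * lap θ y) := by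
        rw [← ofReal_integral_eq_lintegral_ofReal hint (Eventually.of_forall hnn),
          lap_ibp hV hφ hθ2 hc hs]
    _ ≤ ∫⁻ y, ‖φ y * lap θ y‖ₑ :=
        (Real.ofReal_le_enorm _).trans (enorm_integral_le_lintegral_enorm _)
    _ ≤ ∫⁻ y, V.indicator (fun y => (M.toNNReal : ℝ≥0∞) * ‖φ y‖ₑ) y := by
        refine lintegral_mono fun y => ?_
        by_cases hy : y ∈ V
        · rw [indicator_of_mem hy, enorm_mul, mul_comm]
          gcongr
          rw [← ofReal_norm]
          exact ENNReal.ofReal_le_ofReal (hM y)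
        · rw [image_eq_zero_of_notMem_tsupport fun h => hy (hs (tsupport_lap θ h))]
          simp
    _ = _ := by
        rw [lintegral_indicator hV.measurableSet, lintegral_const_mul' _ _ ENNReal.coe_ne_top]

theorem key {K V : Set C2} (hK : IsCompact K) (hV : IsOpen V) (hKV : K ⊆ V) :
    ∃ δ₀ : ℝ, 0 < δ₀ ∧ cthickening δ₀ K ⊆ V ∧ ∃ C : ℝ≥0, ∀ δ : ℝ, 0 < δ → δ ≤ δ₀ →
      ∀ φ : C2 → ℝ, ContDiffOn ℝ 2 φ V → (∀ y ∈ V, 0 ≤ lap φ y) →
        ∀ (ν : Measure C2) (ε : ℝ≥0∞), IsFiniteMeasure ν →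
          (∀ x, ∫⁻ y in ball x δ, ker x y ∂ν ≤ ε) →
            ∫⁻ x in K, ENNReal.ofReal (avg δ φ x - φ x) ∂ν ≤ C * ε * ∫⁻ y in V, ‖φ y‖ₑ := by
  obtain ⟨δ₀, h0, hsub⟩ := hK.exists_cthickening_subset_open hV hKV
  have hK1 : IsCompact (cthickening δ₀ K) := hK.cthickening
  obtain ⟨M, hM⟩ := key_aux_mass hK1 hV hsub
  obtain ⟨C, hC⟩ := green
  refine ⟨δ₀, h0, hsub, C * M, fun δ hδ hle φ hφ hp ν ε hν hε => ?_⟩
  set g : C2 → ℝ≥0∞ := (cthickening δ₀ K).indicator fun y => ENNReal.ofReal (lap φ y) with hg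
  have hgm : Measurable g :=
    (key_aux_meas_lap φ).ennreal_ofReal.indicator hK1.measurableSet
  set F : C2 × C2 → ℝ≥0∞ :=
    fun p => {p : C2 × C2 | dist p.1 p.2 < δ}.indicator (fun p => ker p.1 p.2) p with hF
  have hFm : Measurable F :=
    measurable_ker.indicator (isOpen_lt continuous_dist continuous_const).measurableSet
  have hFg : Measurable fun p : C2 × C2 => F p * g p.2 := hFm.mul (hgm.comp measurable_snd)
  have h1 : ∀ x ∈ K, ENNReal.ofReal (avg δ φ x - φ x) ≤ C * ∫⁻ y, F (x, y) * g y := by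
    intro x hx
    have hb : closedBall x δ ⊆ cthickening δ₀ K :=
      (closedBall_subset_closedBall hle).trans (closedBall_subset_cthickening hx δ₀)
    refine (hC δ x V φ hδ hV (hb.trans hsub) hφ hp).2.trans (mul_le_mul_right ?_ _)
    rw [← lintegral_indicator measurableSet_ball]
    refine lintegral_mono fun y => ?_
    by_cases hy : y ∈ ball x δ
    · rw [indicator_of_mem hy, hg, indicator_of_mem (hb (ball_subset_closedBall hy)), hF]
      simp only
      rw [indicator_of_mem (show (x, y) ∈ {p : C2 × C2 | dist p.1 p.2 < δ} from mem_ball'.1 hy)]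
    · rw [indicator_of_notMem hy]
      exact zero_le
  have h2 : ∀ y, ∫⁻ x, F (x, y) * g y ∂ν ≤ ε * g y := by
    intro y
    have hy : Measurable fun x => F (x, y) := hFm.of_uncurry_right (f := fun x y => F (x, y))
    rw [lintegral_mul_const _ hy]
    refine mul_le_mul_left (le_trans (le_of_eq ?_) (hε y)) _
    rw [← lintegral_indicator measurableSet_ball]
    refine lintegral_congr fun x => ?_
    by_cases hx : x ∈ ball y δ
    · rw [indicator_of_mem hx, ker_comm y x]
      exact indicator_of_mem (show (x, y) ∈ {p : C2 × C2 | dist p.1 p.2 < δ} from hx) _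
    · rw [indicator_of_notMem hx]
      exact indicator_of_notMem (show (x, y) ∉ {p : C2 × C2 | dist p.1 p.2 < δ} from hx) _
  calc ∫⁻ x in K, ENNReal.ofReal (avg δ φ x - φ x) ∂ν
      ≤ ∫⁻ x in K, (C * ∫⁻ y, F (x, y) * g y) ∂ν := setLIntegral_mono' hK.measurableSet h1
    _ ≤ ∫⁻ x, (C * ∫⁻ y, F (x, y) * g y) ∂ν := setLIntegral_le_lintegral _ _
    _ = C * ∫⁻ y, ∫⁻ x, F (x, y) * g y ∂ν := by
        rw [lintegral_const_mul' _ _ ENNReal.coe_ne_top,
          lintegral_lintegral_swap (f := fun x y => F (x, y) * g y) hFg.aemeasurable]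
    _ ≤ C * ∫⁻ y, ε * g y := by
        gcongr with y
        exact h2 y
    _ = C * (ε * ∫⁻ y in cthickening δ₀ K, ENNReal.ofReal (lap φ y)) := by
        rw [lintegral_const_mul _ hgm, hg, lintegral_indicator hK1.measurableSet]
    _ ≤ C * (ε * (M * ∫⁻ y in V, ‖φ y‖ₑ)) := by
        gcongr
        exact hM φ hφ hp
    _ = _ := by
        rw [ENNReal.coe_mul]
        ring

end Pool.Agent.Lib.MP_823829_an
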