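import Pool.Agent.Lib.MP_823829_an.MMax
import Pool.Agent.Lib.MP_823829_an.Conn

/-! The singular part of a meromorphic graph is thin. -/

namespace Pool.Agent.Lib.MP_823829_an

open Set Metric Filter MeasureTheory
open scoped Topology ENNReal NNReal ContDiff ComplexConjugate

variable {X : Type*} [TopologicalSpace X] [T2Space X] [CompactSpace X] [Nonempty X] {m : ℕ}
  {a : Atl X m} {T : Type} [NormedAddCommGroup T] [NormedSpace ℂ T] [FiniteDimensional ℂ T]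
  [Nontrivial T] [MeasurableSpace T] [BorelSpace T]

omit [T2Space X] [CompactSpace X] [Nonempty X] in
theorem bcoverX {D : Set T} {Γ : Set (T × X)} (h : AnOn a D Γ)
    (hd : Γ ⊆ closure {p | Heart a Γ p}) (i : Fin a.n) :
    ∃ S : ℕ → Set (T × (Fin m → ℂ)), (∀ n, LocAn (S n) ∧ SF (rd T - 2) (S n)) ∧
      ∀ p ∈ cs a i Γ, ¬ HeartE (cs a i Γ) p → ∃ n, p ∈ S n := by
  refine bcover (h.locAn i) fun q hq => closure_mono (fun r hr => ?_)
    ((mem_closure_cs (Γ := {p | Heart a Γ p}) hq.1).2 (hd hq.2))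
  have h1 := (heart_iff (Γ := Γ) (p := (r.1, (a.e i).symm r.2)) i ((a.e i).map_target hr.1)).1 hr.2
  rwa [(a.e i).right_inv hr.1] at h1

omit [T2Space X] [CompactSpace X] [Nonempty X] in
theorem sf_nonheart {D : Set T} {Γ : Set (T × X)} (h : AnOn a D Γ)
    (hd : Γ ⊆ closure {p | Heart a Γ p}) :
    SF (rd T - 2) {t | ∃ x, (t, x) ∈ Γ ∧ ¬ Heart a Γ (t, x)} := by
  choose S hS hS' using bcoverX h hd
  have h2 : (0 : ℝ) ≤ rd T - 2 := sub_nonneg.2 two_le_rd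
  refine SF.mono (sf_iUnion fun i => sf_iUnion fun n =>
    (hS i n).2.image_clm h2 (ContinuousLinearMap.fst ℂ T (Fin m → ℂ))) ?_
  rintro t ⟨x, hx, hn⟩
  obtain ⟨i, hi⟩ := a.cov x
  obtain ⟨n, hn'⟩ := hS' i (t, a.e i x) ((mem_cs hi).2 hx)
    fun h' => hn ((heart_iff (p := (t, x)) i hi).2 h')
  exact mem_iUnion.2 ⟨i, mem_iUnion.2 ⟨n, _, hn', rfl⟩⟩

omit [T2Space X] [Nonempty X] [Nontrivial T] [MeasurableSpace T] [BorelSpace T] in
theorem isOpen_allheart {D : Set T} {Γ : Set (T × X)} (hD : IsOpen D) (h : AnOn a D Γ) :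
    IsOpen (D \ {t | ∃ x, (t, x) ∈ Γ ∧ ¬ Heart a Γ (t, x)}) := by
  rw [isOpen_iff_mem_nhds]
  rintro t ⟨ht, hn⟩
  have key : ∀ᶠ t' in 𝓝 t, ∀ x ∈ (univ : Set X), (t', x) ∈ Γ → Heart a Γ (t', x) := by
    refine isCompact_univ.eventually_forall_of_forall_eventually
      (P := fun t' x => (t', x) ∈ Γ → Heart a Γ (t', x)) fun x _ => ?_
    by_cases hx : (t, x) ∈ Γ
    · exact Heart.eventually (not_not.1 fun h' => hn ⟨x, hx, h'⟩)
    · exact ((h.2 (t, x) ht).notMem_nhds hx).mono fun q hq h' => absurd h' hq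
  filter_upwards [key, hD.mem_nhds ht] with t' h1 h2
  exact ⟨h2, fun ⟨x, hx, hx'⟩ => hx' (h1 x trivial hx)⟩

omit [T2Space X] [Nonempty X] [Nontrivial T] [MeasurableSpace T] [BorelSpace T] in
theorem finite_of_allheart {D : Set T} {Γ : Set (T × X)} (h : AnOn a D Γ) {t : T} (ht : t ∈ D)
    (hh : ∀ x, (t, x) ∈ Γ → Heart a Γ (t, x)) : {x | (t, x) ∈ Γ}.Finite := by
  have key : ∀ x : X, {x' | (t, x') ∈ Γ → x' = x} ∈ 𝓝 x := by
    intro x
    by_cases hx : (t, x) ∈ Γ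
    · obtain ⟨U, N, g, -, hN, h1, h2, -, h3, h4⟩ := hh x hx
      have h5 : x ∈ N := by
        rw [show x = g t from h2]
        exact h3 h1
      filter_upwards [hN.mem_nhds h5] with x' hx' h6
      exact ((h4 t h1 x' hx').1 h6).trans h2.symm
    · have hc : Continuous fun x' : X => (t, x') := by fun_prop
      filter_upwards [hc.continuousAt.eventually ((h.2 (t, x) ht).notMem_nhds hx)] with x' h1 h2
      exact absurd h2 h1
  obtain ⟨s, -, hs⟩ := isCompact_univ.elim_nhds_subcover _ fun x _ => key x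
  refine s.finite_toSet.subset fun x hx => ?_
  obtain ⟨y, hy, h1⟩ := mem_iUnion₂.1 (hs (mem_univ x))
  rw [h1 hx]
  exact hy

theorem MG.thin {D : Set T} {Γ : Set (T × X)} (h : MG a D Γ) : SF (rd T - 2) (D \ reg a Γ) := by
  refine (sf_nonheart h.an h.heart_dense).mono fun t ht => ?_
  by_contra hn
  exact ht.2 (h.maximal ht.1
    (finite_of_allheart h.an ht.1 fun x hx => not_not.1 fun h' => hn ⟨x, hx, h'⟩))

theorem MG.thinE {D : Set T} {Γ : Set (T × X)} (h : MG a D Γ) (i : Fin a.n) :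
    SF (rd T - 2) (cs a i Γ \ Prod.fst ⁻¹' reg a Γ) := by
  have := second_countable_fd T
  have h2 : (0 : ℝ) ≤ rd T - 2 := sub_nonneg.2 two_le_rd
  obtain ⟨S, hS, hS'⟩ := bcoverX h.an h.heart_dense i
  have h3 : SF (rd T - 2) {q | HeartE (cs a i Γ) q ∧ q.1 ∉ reg a Γ} := by
    refine sf_of_local fun q hq => ?_
    obtain ⟨U, N, g, hU, hN, h4, h5, hg, h6, h7⟩ := hq.1
    have h8 : q ∈ U ×ˢ N := ⟨h4, by rw [h5]; exact h6 h4⟩
    refine ⟨U ×ˢ N, (hU.prod hN).mem_nhds h8, SF.mono (SF.image_hol h2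
      (h.thin.mono (inter_subset_right (s := U))) hU inter_subset_left
      (f := fun t => (t, g t)) (differentiableOn_id.prodMk hg)) ?_⟩
    rintro r ⟨⟨hr, hr'⟩, hr1, hr2⟩
    exact ⟨r.1, ⟨hr1, h.an.1 _ hr.mem.2, hr'⟩,
      Prod.ext rfl ((h7 r.1 hr1 r.2 hr2).1 hr.mem).symm⟩
  refine ((sf_iUnion fun n => (hS n).2).union h3).mono fun q hq => ?_
  by_cases hh : HeartE (cs a i Γ) q
  · exact Or.inr ⟨hh, hq.2⟩
  · exact Or.inl (mem_iUnion.2 (hS' q hq.1 hh))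

theorem MG.gs {D : Set T} {Γ : Set (T × X)} (h : MG a D Γ) (i : Fin a.n) :
    GS (cs a i Γ) (D ×ˢ (a.e i).target) (regI a i Γ) (a.e i ∘ gf Γ) := by
  have key : ∀ q ∈ cs a i Γ, q.1 ∈ reg a Γ → q.1 ∈ regI a i Γ := fun q hq h1 => by
    refine ⟨h1, ?_⟩
    rw [mem_preimage, ← ((graphOn_reg Γ).2 q.1 h1 _).1 hq.2]
    exact (a.e i).map_target hq.1
  refine ⟨h.op.prod (a.e i).open_target, isOpen_regI i Γ, fun q hq => ⟨h.an.1 _ hq.2, hq.1⟩,
    fun q hq => h.an.anAt i hq.1 hq.2, differentiableOn_regI i Γ, fun t ht y => ⟨fun hy => ?_, ?_⟩,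
    fun q hq => ?_, ?_⟩
  · rw [Function.comp_apply, ← ((graphOn_reg Γ).2 t ht.1 _).1 hy.2]
    exact ((a.e i).right_inv hy.1).symm
  · rintro rfl
    exact (mem_cs ht.2).2 (((graphOn_reg Γ).2 t ht.1 _).2 rfl)
  · refine closure_mono (fun r hr => ?_)
      ((mem_closure_cs (Γ := Γ ∩ Prod.fst ⁻¹' reg a Γ) hq.1).2 (h.cl hq.2))
    exact ⟨⟨hr.1, hr.2.1⟩, key r ⟨hr.1, hr.2.1⟩ hr.2.2⟩
  · refine SF.null ((h.thinE i).mono fun q hq => ?_) (by linarith)
    exact ⟨hq.1, fun h1 => hq.2 (key q hq.1 h1)⟩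

theorem MG.null {D : Set T} {Γ : Set (T × X)} (h : MG a D Γ) (μ : Measure T)
    [μ.IsAddHaarMeasure] : μ (D \ reg a Γ) = 0 := by
  exact (haar_null_iff μ).2 (h.thin.null (by linarith))

theorem MG.preconnected_reg {D : Set T} {Γ : Set (T × X)} (h : MG a D Γ)
    (hc : IsPreconnected D) : IsPreconnected (reg a Γ) := by
  have e : D \ (reg a Γ)ᶜ = reg a Γ := by
    rw [sdiff_compl]
    exact inter_eq_right.2 (reg_subset h.an.1)
  have h1 := (conn (R := (reg a Γ)ᶜ) h.op hc (by rw [e]; exact isOpen_reg Γ)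
    (slim_of_null (SF.null (h.thin.mono fun t ht => ⟨ht.2, ht.1⟩) (by linarith)))).1
  rwa [e] at h1

end Pool.Agent.Lib.MP_823829_an
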