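import Pool.Agent.Lib.MP_823829_an.Hol

/-! Calculus of the Laplacian on the base. -/

namespace Pool.Agent.Lib.MP_823829_an

open Set Metric Filter MeasureTheory
open scoped Topology ENNReal NNReal ContDiff ComplexConjugate

theorem nsq_nonneg (x : C2) : 0 ≤ nsq x := by
  unfold nsq
  positivity

theorem norm_sq_le_nsq (x : C2) : ‖x‖ ^ 2 ≤ nsq x := by
  have h0 : ‖x 0‖ ^ 2 ≤ nsq x := by
    unfold nsq
    nlinarith [sq_nonneg ‖x 1‖]
  have h1 : ‖x 1‖ ^ 2 ≤ nsq x := by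
    unfold nsq
    nlinarith [sq_nonneg ‖x 0‖]
  have h : ‖x‖ ≤ Real.sqrt (nsq x) := by
    refine (pi_norm_le_iff_of_nonneg (Real.sqrt_nonneg _)).mpr fun i => ?_
    apply Real.le_sqrt_of_sq_le
    fin_cases i
    · exact h0
    · exact h1
  calc ‖x‖ ^ 2 ≤ Real.sqrt (nsq x) ^ 2 := by gcongr
    _ = nsq x := Real.sq_sqrt (nsq_nonneg x)

theorem nsq_le (x : C2) : nsq x ≤ 2 * ‖x‖ ^ 2 := by
  have h0 : ‖x 0‖ ^ 2 ≤ ‖x‖ ^ 2 := by gcongr; exact norm_le_pi_norm x 0
  have h1 : ‖x 1‖ ^ 2 ≤ ‖x‖ ^ 2 := by gcongr; exact norm_le_pi_norm x 1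
  unfold nsq
  linarith

theorem contDiff_nsq : ContDiff ℝ ∞ nsq := by
  have h0 : ContDiff ℝ ∞ (fun x : C2 => ‖x 0‖ ^ 2) := (contDiff_apply ℝ ℂ 0).norm_sq ℂ
  have h1 : ContDiff ℝ ∞ (fun x : C2 => ‖x 1‖ ^ 2) := (contDiff_apply ℝ ℂ 1).norm_sq ℂ
  exact h0.add h1

theorem lap_aux_congr {φ ψ : C2 → ℝ} {z : C2} (h : φ =ᶠ[𝓝 z] ψ) (v : C2) :
    d2 φ z v = d2 ψ z v := by
  have h1 : (fun y => fderiv ℝ φ y v) =ᶠ[𝓝 z] fun y => fderiv ℝ ψ y v := by
    filter_upwards [h.fderiv (𝕜 := ℝ)] with y hy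
    rw [hy]
  unfold d2
  rw [h1.fderiv_eq]

theorem lap_aux_cd {φ : C2 → ℝ} {z : C2} (hφ : ContDiffAt ℝ 2 φ z) (v : C2) :
    ContDiffAt ℝ 1 (fun y => fderiv ℝ φ y v) z :=
  (hφ.fderiv_right (m := 1) (by norm_num)).clm_apply contDiffAt_const

theorem lap_aux_diff {φ : C2 → ℝ} {z : C2} (hφ : ContDiffAt ℝ 2 φ z) (v : C2) :
    DifferentiableAt ℝ (fun y => fderiv ℝ φ y v) z :=
  (lap_aux_cd hφ v).differentiableAt (by norm_num)

theorem lap_aux_ev {E F : Type} [NormedAddCommGroup E] [NormedSpace ℝ E] [NormedAddCommGroup F]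
    [NormedSpace ℝ F] {φ : E → F} {z : E} (hφ : ContDiffAt ℝ 2 φ z) :
    ∀ᶠ y in 𝓝 z, DifferentiableAt ℝ φ y := by
  filter_upwards [hφ.eventually (by simp)] with y hy
  exact hy.differentiableAt (by norm_num)

theorem lap_congr {φ ψ : C2 → ℝ} {z : C2} (h : φ =ᶠ[𝓝 z] ψ) : lap φ z = lap ψ z := by
  simp only [lap, lap_aux_congr h]

theorem lap_const (c : ℝ) (z : C2) : lap (fun _ => c) z = 0 := by
  simp [lap, d2]

theorem lap_aux_add {φ ψ : C2 → ℝ} {z : C2} (hφ : ContDiffAt ℝ 2 φ z) (hψ : ContDiffAt ℝ 2 ψ z)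
    (v : C2) : d2 (fun x => φ x + ψ x) z v = d2 φ z v + d2 ψ z v := by
  have h1 : (fun y => fderiv ℝ (fun x => φ x + ψ x) y v) =ᶠ[𝓝 z]
      fun y => fderiv ℝ φ y v + fderiv ℝ ψ y v := by
    filter_upwards [lap_aux_ev hφ, lap_aux_ev hψ] with y h1 h2
    rw [fderiv_fun_add h1 h2]
    rfl
  unfold d2
  rw [h1.fderiv_eq, fderiv_fun_add (lap_aux_diff hφ v) (lap_aux_diff hψ v)]
  rfl

theorem lap_add {φ ψ : C2 → ℝ} {z : C2} (hφ : ContDiffAt ℝ 2 φ z) (hψ : ContDiffAt ℝ 2 ψ z) :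
    lap (fun x => φ x + ψ x) z = lap φ z + lap ψ z := by
  simp only [lap, lap_aux_add hφ hψ, ← Finset.sum_add_distrib]
  refine Finset.sum_congr rfl fun j _ => by ring

theorem lap_aux_const_mul (c : ℝ) {φ : C2 → ℝ} {z : C2} (hφ : ContDiffAt ℝ 2 φ z) (v : C2) :
    d2 (fun x => c * φ x) z v = c * d2 φ z v := by
  have h1 : (fun y => fderiv ℝ (fun x => c * φ x) y v) =ᶠ[𝓝 z]
      fun y => c * fderiv ℝ φ y v := by
    filter_upwards [lap_aux_ev hφ] with y h1
    rw [fderiv_const_mul h1]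
    rfl
  unfold d2
  rw [h1.fderiv_eq, fderiv_const_mul (lap_aux_diff hφ v)]
  rfl

theorem lap_const_mul (c : ℝ) {φ : C2 → ℝ} {z : C2} (hφ : ContDiffAt ℝ 2 φ z) :
    lap (fun x => c * φ x) z = c * lap φ z := by
  simp only [lap, lap_aux_const_mul c hφ, Finset.mul_sum]
  refine Finset.sum_congr rfl fun j _ => by ring

theorem lap_aux_neg (φ : C2 → ℝ) (z v : C2) : d2 (fun x => -φ x) z v = -d2 φ z v := by
  have h1 : (fun y => fderiv ℝ (fun x => -φ x) y v) = fun y => -fderiv ℝ φ y v := by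
    funext y
    rw [fderiv_fun_neg]
    rfl
  unfold d2
  rw [h1, fderiv_fun_neg]
  rfl

theorem lap_neg (φ : C2 → ℝ) (z : C2) : lap (fun x => -φ x) z = -lap φ z := by
  simp only [lap, lap_aux_neg, ← Finset.sum_neg_distrib]
  refine Finset.sum_congr rfl fun j _ => by ring

theorem lap_sum {ι : Type} (s : Finset ι) {φ : ι → C2 → ℝ} {z : C2}
    (h : ∀ i ∈ s, ContDiffAt ℝ 2 (φ i) z) :
    lap (fun x => ∑ i ∈ s, φ i x) z = ∑ i ∈ s, lap (φ i) z := by
  classical
  induction s using Finset.induction_on with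
  | empty => simp [lap_const]
  | insert a s ha ih =>
    simp only [Finset.sum_insert ha]
    rw [lap_add (h a (Finset.mem_insert_self a s))
      (ContDiffAt.sum fun i hi => h i (Finset.mem_insert_of_mem hi)),
      ih fun i hi => h i (Finset.mem_insert_of_mem hi)]

theorem lap_aux_left (φ : C2 → ℝ) (x y v : C2) :
    fderiv ℝ (fun y => φ (x - y)) y v = -fderiv ℝ φ (x - y) v := by
  have h1 : (fun y => φ (x - y)) = fun y => (fun w => φ (x + w)) ((-1 : ℝ) • y) := by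
    funext y
    simp [sub_eq_add_neg]
  rw [h1, fderiv_comp_smul (f := fun w => φ (x + w)), fderiv_comp_add_left]
  simp [sub_eq_add_neg]

theorem lap_sub_left (φ : C2 → ℝ) (x z : C2) : lap (fun y => φ (x - y)) z = lap φ (x - z) := by
  have h2 : ∀ v, d2 (fun y => φ (x - y)) z v = d2 φ (x - z) v := fun v => by
    have h1 : (fun y => fderiv ℝ (fun y => φ (x - y)) y v) =
        fun y => -(fun w => fderiv ℝ φ w v) (x - y) := by
      funext y
      exact lap_aux_left φ x y v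
    unfold d2
    rw [h1, fderiv_fun_neg, _root_.neg_apply,
      lap_aux_left (fun w => fderiv ℝ φ w v) x z v, neg_neg]
  simp only [lap, h2]

theorem lap_sub_right (φ : C2 → ℝ) (y z : C2) : lap (fun x => φ (x - y)) z = lap φ (z - y) := by
  have h2 : ∀ v, d2 (fun x => φ (x - y)) z v = d2 φ (z - y) v := fun v => by
    have h1 : (fun w => fderiv ℝ (fun x => φ (x - y)) w v) =
        fun w => (fun w => fderiv ℝ φ w v) (w - y) := by
      funext w
      rw [fderiv_comp_sub]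
    unfold d2
    rw [h1, fderiv_comp_sub (f := fun w => fderiv ℝ φ w v)]
  simp only [lap, h2]

theorem lap_aux_cont {φ : C2 → ℝ} {z : C2} (h : ContDiffAt ℝ 2 φ z) (v : C2) :
    ContinuousAt (fun y => d2 φ y v) z :=
  ((lap_aux_cd h v).continuousAt_fderiv (by norm_num)).clm_apply continuousAt_const

theorem continuousAt_lap {φ : C2 → ℝ} {z : C2} (h : ContDiffAt ℝ 2 φ z) :
    ContinuousAt (lap φ) z := by
  unfold lap
  exact tendsto_finsetSum _ fun j _ => (lap_aux_cont h _).add (lap_aux_cont h _)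

theorem tsupport_lap (φ : C2 → ℝ) : tsupport (lap φ) ⊆ tsupport φ := by
  refine closure_minimal (fun z hz => ?_) (isClosed_tsupport φ)
  by_contra h
  apply hz
  rw [lap_congr (notMem_tsupport_iff_eventuallyEq.mp h)]
  exact lap_const 0 z

theorem lap_aux_comp {θ : ℝ → ℝ} {u : C2 → ℝ} {z : C2} (hθ : ContDiffAt ℝ 2 θ (u z))
    (hu : ContDiffAt ℝ 2 u z) (v : C2) :
    d2 (fun x => θ (u x)) z v =
      deriv θ (u z) * d2 u z v + deriv (deriv θ) (u z) * fderiv ℝ u z v ^ 2 := by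
  have hc : ContinuousAt u z := hu.continuousAt
  have h1 : (fun y => fderiv ℝ (fun x => θ (u x)) y v) =ᶠ[𝓝 z]
      fun y => deriv θ (u y) * fderiv ℝ u y v := by
    filter_upwards [lap_aux_ev hu, hc.eventually (lap_aux_ev hθ)] with y h1 h2
    have := (h2.hasDerivAt.comp_hasFDerivAt y h1.hasFDerivAt).fderiv
    rw [show (fun x => θ (u x)) = θ ∘ u from rfl, this]
    rfl
  have h2 : DifferentiableAt ℝ (deriv θ) (u z) := by
    have h3 : ContDiffAt ℝ 1 (fun t => fderiv ℝ θ t 1) (u z) :=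
      (hθ.fderiv_right (m := 1) (by norm_num)).clm_apply contDiffAt_const
    exact h3.differentiableAt (by norm_num)
  have h3 := (h2.hasDerivAt.comp_hasFDerivAt z
    (hu.differentiableAt (by norm_num)).hasFDerivAt).mul (lap_aux_diff hu v).hasFDerivAt
  have h4 : HasFDerivAt (fun y => deriv θ (u y) * fderiv ℝ u y v) _ z := h3
  unfold d2
  rw [h1.fderiv_eq, h4.fderiv]
  simp only [_root_.add_apply, _root_.smul_apply, smul_eq_mul,
    Function.comp]
  ring

/-- The Laplacian of a composition with a function of one variable. -/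
theorem lap_comp {θ : ℝ → ℝ} {u : C2 → ℝ} {z : C2} (hθ : ContDiffAt ℝ 2 θ (u z))
    (hu : ContDiffAt ℝ 2 u z) :
    lap (fun x => θ (u x)) z = deriv θ (u z) * lap u z + deriv (deriv θ) (u z) *
      ∑ j : Fin 2, (fderiv ℝ u z (e2 j) ^ 2 + fderiv ℝ u z (Complex.I • e2 j) ^ 2) := by
  simp only [lap, lap_aux_comp hθ hu, Finset.mul_sum, ← Finset.sum_add_distrib]
  refine Finset.sum_congr rfl fun j _ => by ring

theorem lap_aux_fnorm {b : C2 → ℂ} {y : C2} (hb : DifferentiableAt ℂ b y) (w : C2) :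
    fderiv ℝ (fun x => ‖b x‖ ^ 2) y w = 2 * (conj (b y) * fderiv ℂ b y w).re := by
  rw [(hb.hasFDerivAt.restrictScalars ℝ).norm_sq.fderiv]
  simp [Complex.inner, mul_comm]
  ring

theorem lap_aux_dnorm {b g : C2 → ℂ} {z : C2} (hb : DifferentiableAt ℂ b z)
    (hg : DifferentiableAt ℂ g z) (w : C2) :
    fderiv ℝ (fun y => 2 * (conj (b y) * g y).re) z w =
      2 * (conj (b z) * fderiv ℂ g z w + conj (fderiv ℂ b z w) * g z).re := by
  have h1 := Complex.conjCLE.toContinuousLinearMap.hasFDerivAt.comp z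
    (hb.hasFDerivAt.restrictScalars ℝ)
  have h2 := h1.mul (hg.hasFDerivAt.restrictScalars ℝ)
  have h3 := (Complex.reCLM.hasFDerivAt.comp z h2).const_mul 2
  have h4 : HasFDerivAt (fun y => 2 * (conj (b y) * g y).re) _ z := h3
  rw [h4.fderiv]
  simp
  ring

theorem lap_aux_normsq {b : C2 → ℂ} {z : C2} (hb : ContDiffAt ℂ 2 b z) :
    lap (fun x => ‖b x‖ ^ 2) z = 4 * ∑ j : Fin 2, ‖fderiv ℂ b z (e2 j)‖ ^ 2 := by
  have hev : ∀ᶠ y in 𝓝 z, DifferentiableAt ℂ b y := by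
    filter_upwards [hb.eventually (by simp)] with y hy
    exact hy.differentiableAt (by norm_num)
  have hd : DifferentiableAt ℂ b z := hb.differentiableAt (by norm_num)
  have key : ∀ v : C2, d2 (fun x => ‖b x‖ ^ 2) z v + d2 (fun x => ‖b x‖ ^ 2) z (Complex.I • v) =
      4 * ‖fderiv ℂ b z v‖ ^ 2 := fun v => by
    have hg : DifferentiableAt ℂ (fun y => fderiv ℂ b y v) z :=
      ((hb.fderiv_right (m := 1) (by norm_num)).clm_apply contDiffAt_const).differentiableAt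
        (by norm_num)
    have h1 : (fun y => fderiv ℝ (fun x => ‖b x‖ ^ 2) y v) =ᶠ[𝓝 z]
        fun y => 2 * (conj (b y) * fderiv ℂ b y v).re := by
      filter_upwards [hev] with y hy
      exact lap_aux_fnorm hy v
    have h2 : (fun y => fderiv ℝ (fun x => ‖b x‖ ^ 2) y (Complex.I • v)) =ᶠ[𝓝 z]
        fun y => 2 * (conj (b y) * (Complex.I * fderiv ℂ b y v)).re := by
      filter_upwards [hev] with y hy
      rw [lap_aux_fnorm hy, map_smul, smul_eq_mul]
    unfold d2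
    rw [h1.fderiv_eq, h2.fderiv_eq, lap_aux_dnorm hd hg, lap_aux_dnorm hd (hg.const_mul _),
      fderiv_const_mul hg]
    simp only [_root_.smul_apply, map_smul, smul_eq_mul]
    generalize fderiv ℂ (fun y => fderiv ℂ b y v) z v = p
    generalize fderiv ℂ b z v = q
    generalize b z = r
    rw [Complex.sq_norm, Complex.normSq_apply]
    simp
    ring
  simp only [lap, key, Finset.mul_sum]

theorem lap_aux_coord (i : Fin 2) (z w : C2) : fderiv ℂ (fun x : C2 => x i) z w = w i := by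
  rw [(hasFDerivAt_apply i z).fderiv]
  rfl

theorem lap_aux_fnsq (z w : C2) :
    fderiv ℝ nsq z w = 2 * (conj (z 0) * w 0).re + 2 * (conj (z 1) * w 1).re := by
  have h0 : ContDiffAt ℂ 2 (fun x : C2 => x 0) z := (contDiff_apply ℂ ℂ 0).contDiffAt
  have h1 : ContDiffAt ℂ 2 (fun x : C2 => x 1) z := (contDiff_apply ℂ ℂ 1).contDiffAt
  rw [show nsq = fun x : C2 => ‖x 0‖ ^ 2 + ‖x 1‖ ^ 2 from rfl,
    fderiv_fun_add (((h0.restrict_scalars ℝ).norm_sq ℂ).differentiableAt (by norm_num))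
      (((h1.restrict_scalars ℝ).norm_sq ℂ).differentiableAt (by norm_num)),
    _root_.add_apply, lap_aux_fnorm (h0.differentiableAt (by norm_num)),
    lap_aux_fnorm (h1.differentiableAt (by norm_num)), lap_aux_coord, lap_aux_coord]

theorem lap_nsq (z : C2) : lap nsq z = 8 := by
  have h0 : ContDiffAt ℂ 2 (fun x : C2 => x 0) z := (contDiff_apply ℂ ℂ 0).contDiffAt
  have h1 : ContDiffAt ℂ 2 (fun x : C2 => x 1) z := (contDiff_apply ℂ ℂ 1).contDiffAt
  have := lap_add ((h0.restrict_scalars ℝ).norm_sq ℂ) ((h1.restrict_scalars ℝ).norm_sq ℂ)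
  rw [lap_aux_normsq h0, lap_aux_normsq h1] at this
  rw [show nsq = fun x : C2 => ‖x 0‖ ^ 2 + ‖x 1‖ ^ 2 from rfl, this]
  simp [lap_aux_coord, e2, Fin.sum_univ_two]
  norm_num

theorem lap_radial {θ : ℝ → ℝ} {z : C2} (hθ : ContDiffAt ℝ 2 θ (nsq z)) :
    lap (fun x => θ (nsq x)) z =
      8 * deriv θ (nsq z) + 4 * nsq z * deriv (deriv θ) (nsq z) := by
  have hn : ContDiffAt ℝ 2 nsq z := contDiff_nsq.contDiffAt.of_le (by norm_cast)
  rw [lap_comp hθ hn, lap_nsq]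
  have : ∑ j : Fin 2, (fderiv ℝ nsq z (e2 j) ^ 2 + fderiv ℝ nsq z (Complex.I • e2 j) ^ 2) =
      4 * nsq z := by
    simp only [lap_aux_fnsq, nsq, Complex.sq_norm, Complex.normSq_apply]
    simp [e2, Fin.sum_univ_two]
    ring
  rw [this]
  ring

theorem kernel_super (y : C2) {τ : ℝ} (hτ : 0 < τ) :
    ContDiff ℝ ∞ (fun x => 1 / (nsq (x - y) + τ ^ 2)) ∧
      ∀ z, lap (fun x => 1 / (nsq (x - y) + τ ^ 2)) z ≤ 0 := by
  have hpos : ∀ w : C2, 0 < nsq w + τ ^ 2 := fun w => by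
    have := nsq_nonneg w
    positivity
  refine ⟨?_, fun z => ?_⟩
  · exact contDiff_const.div ((contDiff_nsq.comp (contDiff_id.sub contDiff_const)).add
      contDiff_const) fun x => (hpos _).ne'
  · rw [lap_sub_right (fun w => 1 / (nsq w + τ ^ 2)) y z]
    set s := nsq (z - y) with hs
    have hs0 : 0 < s + τ ^ 2 := hpos _
    have hθ : ContDiffAt ℝ 2 (fun t : ℝ => 1 / (t + τ ^ 2)) (nsq (z - y)) :=
      contDiffAt_const.div (contDiffAt_id.add contDiffAt_const) hs0.ne'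
    have hd : ∀ t : ℝ, 0 < t + τ ^ 2 →
        HasDerivAt (fun t : ℝ => 1 / (t + τ ^ 2)) (-1 / (t + τ ^ 2) ^ 2) t := fun t ht => by
      have := ((hasDerivAt_id t).add_const (τ ^ 2)).inv ht.ne'
      have h3 : (fun t : ℝ => 1 / (t + τ ^ 2)) = (fun x => id x + τ ^ 2)⁻¹ := by
        funext t
        simp
      rw [h3]
      exact this
    have hev : deriv (fun t : ℝ => 1 / (t + τ ^ 2)) =ᶠ[𝓝 s] fun t => -1 / (t + τ ^ 2) ^ 2 := by
      have ho : ∀ᶠ t in 𝓝 s, 0 < t + τ ^ 2 :=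
        (continuous_id.add continuous_const).continuousAt.eventually (lt_mem_nhds hs0)
      filter_upwards [ho] with t ht
      exact (hd t ht).deriv
    have hd2 : HasDerivAt (fun t : ℝ => -1 / (t + τ ^ 2) ^ 2) (2 / (s + τ ^ 2) ^ 3) s := by
      have h1 := (((hasDerivAt_id s).add_const (τ ^ 2)).pow 2).inv (pow_pos hs0 2).ne'
      have h2 := h1.const_mul (-1)
      have h3 : (fun t : ℝ => -1 / (t + τ ^ 2) ^ 2) =
          fun t : ℝ => -1 * ((fun x => id x + τ ^ 2) ^ 2)⁻¹ t := by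
        funext t
        simp [div_eq_mul_inv]
      rw [h3]
      refine h2.congr_deriv ?_
      simp only [id, Pi.pow_apply]
      field_simp
      ring
    rw [lap_radial (θ := fun t : ℝ => 1 / (t + τ ^ 2)) hθ, ← hs, hev.deriv_eq, hd2.deriv,
      (hd s hs0).deriv]
    have : 8 * (-1 / (s + τ ^ 2) ^ 2) + 4 * s * (2 / (s + τ ^ 2) ^ 3) =
        -(8 * τ ^ 2 / (s + τ ^ 2) ^ 3) := by
      field_simp
      ring
    rw [this, neg_nonpos]
    positivity

theorem lap_aux_int {V : Set C2} (hV : IsOpen V) {a b : C2 → ℝ} (ha : Continuous a)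
    (hc : HasCompactSupport a) (hs : tsupport a ⊆ V) (hb : ContinuousOn b V) :
    Integrable fun y => a y * b y := by
  have h1 : Continuous fun y => a y * b y :=
    (ha.continuousOn.mul hb).continuous_of_tsupport_subset hV
      ((tsupport_mul_subset_left).trans hs)
  exact h1.integrable_of_hasCompactSupport hc.mul_right

theorem lap_ibp {V : Set C2} (hV : IsOpen V) {φ ψ : C2 → ℝ} (hφ : ContDiffOn ℝ 2 φ V)
    (hψ : ContDiff ℝ 2 ψ) (hc : HasCompactSupport ψ) (hs : tsupport ψ ⊆ V) :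
    ∫ y, ψ y * lap φ y = ∫ y, φ y * lap ψ y := by
  have hφ2 : ∀ y ∈ V, ContDiffAt ℝ 2 φ y := fun y hy => hφ.contDiffAt (hV.mem_nhds hy)
  have cψ : Continuous ψ := hψ.continuous
  have cφ : ContinuousOn φ V := hφ.continuousOn
  have c1ψ : ∀ v, Continuous fun y => fderiv ℝ ψ y v := fun v =>
    continuous_iff_continuousAt.mpr fun y => (lap_aux_cd hψ.contDiffAt v).continuousAt
  have c2ψ : ∀ v, Continuous fun y => d2 ψ y v := fun v =>
    continuous_iff_continuousAt.mpr fun y => lap_aux_cont hψ.contDiffAt v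
  have c1φ : ∀ v, ContinuousOn (fun y => fderiv ℝ φ y v) V := fun v y hy =>
    (lap_aux_cd (hφ2 y hy) v).continuousAt.continuousWithinAt
  have c2φ : ∀ v, ContinuousOn (fun y => d2 φ y v) V := fun v y hy =>
    (lap_aux_cont (hφ2 y hy) v).continuousWithinAt
  have s1 : ∀ v, tsupport (fun y => fderiv ℝ ψ y v) ⊆ V := fun v =>
    (tsupport_fderiv_apply_subset ℝ v).trans hs
  have k1 : ∀ v, HasCompactSupport fun y => fderiv ℝ ψ y v := fun v => hc.fderiv_apply ℝ v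
  have s2 : ∀ v, tsupport (fun y => d2 ψ y v) ⊆ V := fun v =>
    (tsupport_fderiv_apply_subset ℝ v).trans (s1 v)
  have k2 : ∀ v, HasCompactSupport fun y => d2 ψ y v := fun v => (k1 v).fderiv_apply ℝ v
  have i1 : ∀ v, Integrable fun y => ψ y * d2 φ y v := fun v =>
    lap_aux_int hV cψ hc hs (c2φ v)
  have i2 : ∀ v, Integrable fun y => φ y * d2 ψ y v := fun v => by
    simpa only [mul_comm] using lap_aux_int hV (c2ψ v) (k2 v) (s2 v) cφ
  have key : ∀ v, ∫ y, ψ y * d2 φ y v = ∫ y, φ y * d2 ψ y v := fun v => by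
    have i3 : Integrable fun y => fderiv ℝ ψ y v * fderiv ℝ φ y v :=
      lap_aux_int hV (c1ψ v) (k1 v) (s1 v) (c1φ v)
    have a1 := integral_mul_fderiv_eq_neg_fderiv_mul_of_integrable (μ := volume) (f := ψ)
      (g := fun y => fderiv ℝ φ y v) (v := v) i3 (i1 v) (lap_aux_int hV cψ hc hs (c1φ v))
      (fun y _ => hψ.differentiable (by norm_num) y) fun y hy => lap_aux_diff (hφ2 y (hs hy)) v
    have a2 := integral_mul_fderiv_eq_neg_fderiv_mul_of_integrable (μ := volume) (f := φ)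
      (g := fun y => fderiv ℝ ψ y v) (v := v) (by simpa only [mul_comm] using i3) (i2 v)
      (by simpa only [mul_comm] using lap_aux_int hV (c1ψ v) (k1 v) (s1 v) cφ)
      (fun y hy => (hφ2 y (s1 v hy)).differentiableAt (by norm_num))
      fun y _ => lap_aux_diff hψ.contDiffAt v
    unfold d2
    rw [a1, a2]
    simp only [mul_comm]
  simp only [lap, Finset.mul_sum, mul_add]
  rw [integral_finsetSum (f := fun j y => ψ y * d2 φ y (e2 j) + ψ y * d2 φ y (Complex.I • e2 j))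
      _ fun j _ => (i1 _).add (i1 _),
    integral_finsetSum (f := fun j y => φ y * d2 ψ y (e2 j) + φ y * d2 ψ y (Complex.I • e2 j))
      _ fun j _ => (i2 _).add (i2 _)]
  refine Finset.sum_congr rfl fun j _ => ?_
  rw [integral_add (i1 _) (i1 _), integral_add (i2 _) (i2 _), key, key]

theorem lap_aux_pp (n : ℕ) (s : ℝ) :
    HasDerivAt (fun s : ℝ => max s 0 ^ (n + 2)) ((n + 2 : ℕ) * max s 0 ^ (n + 1)) s := by
  rcases lt_trichotomy s 0 with h | h | h
  · have h1 : (fun s : ℝ => max s 0 ^ (n + 2)) =ᶠ[𝓝 s] fun _ => 0 := by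
      filter_upwards [gt_mem_nhds h] with t ht
      rw [max_eq_right ht.le]
      simp
    rw [max_eq_right h.le]
    simpa using (hasDerivAt_const s (0 : ℝ)).congr_of_eventuallyEq h1
  · subst h
    have h1 : (fun s : ℝ => max s 0 ^ (n + 2)) =O[𝓝 0] fun x => ‖x - 0‖ ^ (n + 2) := by
      refine Asymptotics.IsBigO.of_bound 1 (Eventually.of_forall fun x => ?_)
      have h0 := le_max_right x 0
      have h2 : max x 0 ≤ |x| := max_le (le_abs_self x) (abs_nonneg x)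
      rw [Real.norm_of_nonneg (by positivity), Real.norm_of_nonneg (by positivity), one_mul,
        sub_zero, Real.norm_eq_abs]
      gcongr
    have h2 := (h1.hasFDerivAt (𝕜 := ℝ) (by omega)).hasDerivAt
    simpa using h2
  · have h1 : (fun s : ℝ => max s 0 ^ (n + 2)) =ᶠ[𝓝 s] fun t => t ^ (n + 2) := by
      filter_upwards [lt_mem_nhds h] with t ht
      rw [max_eq_left ht.le]
    rw [max_eq_left h.le]
    exact (hasDerivAt_pow (n + 2) s).congr_of_eventuallyEq h1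

/-- A concave cutoff used to truncate superharmonic functions. -/
theorem exists_concave : ∃ θ : ℝ → ℝ, ContDiff ℝ 2 θ ∧ (∀ t, 0 ≤ deriv θ t) ∧
    (∀ t, deriv (deriv θ) t ≤ 0) ∧ (∀ t, 1 ≤ t → θ t = 1) ∧
      ∀ t, 0 ≤ t → 0 ≤ θ t ∧ θ t ≤ 1 ∧ θ t ≤ 3 * t := by
  have d1 : ∀ t : ℝ, HasDerivAt (fun t : ℝ => 1 - max (1 - t) 0 ^ 3) (3 * max (1 - t) 0 ^ 2) t :=
    fun t => by
    have h := ((lap_aux_pp 1 (1 - t)).comp t ((hasDerivAt_id t).const_sub 1)).const_sub 1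
    refine HasDerivAt.congr_deriv h ?_
    push_cast
    ring
  have d2' : ∀ t : ℝ, HasDerivAt (fun t : ℝ => 3 * max (1 - t) 0 ^ 2) (-6 * max (1 - t) 0) t :=
    fun t => by
    have h := ((lap_aux_pp 0 (1 - t)).comp t ((hasDerivAt_id t).const_sub 1)).const_mul 3
    refine HasDerivAt.congr_deriv h ?_
    push_cast
    ring
  have e1 : deriv (fun t : ℝ => 1 - max (1 - t) 0 ^ 3) = fun t => 3 * max (1 - t) 0 ^ 2 :=
    funext fun t => (d1 t).deriv
  have e2 : deriv (fun t : ℝ => 3 * max (1 - t) 0 ^ 2) = fun t => -6 * max (1 - t) 0 :=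
    funext fun t => (d2' t).deriv
  refine ⟨fun t => 1 - max (1 - t) 0 ^ 3, ?_, fun t => ?_, fun t => ?_, fun t ht => ?_,
    fun t ht => ?_⟩
  · rw [show (2 : WithTop ℕ∞) = 1 + 1 from rfl, contDiff_succ_iff_deriv]
    refine ⟨fun t => (d1 t).differentiableAt, by simp, ?_⟩
    rw [e1, contDiff_one_iff_deriv]
    refine ⟨fun t => (d2' t).differentiableAt, ?_⟩
    rw [e2]
    fun_prop
  · rw [e1]
    positivity
  · rw [e1, e2]
    have := le_max_right (1 - t) 0
    simp only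
    linarith
  · simp only
    rw [max_eq_right (by linarith)]
    norm_num
  · simp only
    have h0 := le_max_right (1 - t) 0
    have h1 : max (1 - t) 0 ≤ 1 := max_le (by linarith) (by norm_num)
    refine ⟨?_, ?_, ?_⟩
    · have := pow_le_one₀ (n := 3) h0 h1
      linarith
    · have := pow_nonneg h0 3
      linarith
    · rcases le_total t 1 with h | h
      · rw [max_eq_left (by linarith)]
        nlinarith [mul_nonneg (sq_nonneg t) (by linarith : (0 : ℝ) ≤ 3 - t)]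
      · rw [max_eq_right (by linarith)]
        linarith

theorem psh_log {n : ℕ} {b : Fin n → C2 → ℂ} {V : Set C2} (hV : IsOpen V)
    (hb : ∀ i, DifferentiableOn ℂ (b i) V) :
    ContDiffOn ℝ ∞ (fun z => Real.log (1 + ∑ i, ‖b i z‖ ^ 2)) V ∧
      ∀ z ∈ V, 0 ≤ lap (fun z => Real.log (1 + ∑ i, ‖b i z‖ ^ 2)) z := by
  have hs : ∀ i, ∀ z ∈ V, ContDiffAt ℂ ∞ (b i) z := fun i z hz =>
    (hol_contDiffOn hV (hb i)).contDiffAt (hV.mem_nhds hz)
  have hpos : ∀ z, 0 < 1 + ∑ i, ‖b i z‖ ^ 2 := fun z => by positivity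
  have hu : ∀ z ∈ V, ContDiffAt ℝ ∞ (fun z => 1 + ∑ i, ‖b i z‖ ^ 2) z := fun z hz =>
    contDiffAt_const.add (ContDiffAt.sum fun i _ => ((hs i z hz).restrict_scalars ℝ).norm_sq ℂ)
  refine ⟨fun z hz => ((hu z hz).log (hpos z).ne').contDiffWithinAt, fun z hz => ?_⟩
  have hs2 : ∀ i, ContDiffAt ℂ 2 (b i) z := fun i => (hs i z hz).of_le (by norm_cast)
  have hn2 : ∀ i, ContDiffAt ℝ 2 (fun z => ‖b i z‖ ^ 2) z := fun i =>
    ((hs2 i).restrict_scalars ℝ).norm_sq ℂ
  have hS2 : ContDiffAt ℝ 2 (fun z => ∑ i, ‖b i z‖ ^ 2) z := ContDiffAt.sum fun i _ => hn2 i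
  have hlog : ContDiffAt ℝ 2 Real.log (1 + ∑ i, ‖b i z‖ ^ 2) :=
    Real.contDiffAt_log.mpr (hpos z).ne'
  have hlap : lap (fun z => 1 + ∑ i, ‖b i z‖ ^ 2) z =
      ∑ j : Fin 2, 4 * ∑ i, ‖fderiv ℂ (b i) z (e2 j)‖ ^ 2 := by
    rw [lap_add contDiffAt_const hS2, lap_const, zero_add, lap_sum _ fun i _ => hn2 i]
    simp only [lap_aux_normsq (hs2 _), Finset.mul_sum]
    exact Finset.sum_comm
  have hf : ∀ w, fderiv ℝ (fun z => 1 + ∑ i, ‖b i z‖ ^ 2) z w =
      2 * (∑ i, conj (b i z) * fderiv ℂ (b i) z w).re := fun w => by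
    rw [fderiv_const_add, fderiv_fun_sum fun i _ => (hn2 i).differentiableAt (by norm_num),
      _root_.sum_apply, Complex.re_sum, Finset.mul_sum]
    exact Finset.sum_congr rfl fun i _ => lap_aux_fnorm ((hs2 i).differentiableAt (by norm_num)) w
  have hdd : deriv (deriv Real.log) (1 + ∑ i, ‖b i z‖ ^ 2) = -((1 + ∑ i, ‖b i z‖ ^ 2) ^ 2)⁻¹ := by
    rw [Real.deriv_log', deriv_inv]
  rw [lap_comp (θ := Real.log) hlog (contDiffAt_const.add hS2), hlap, hdd, Real.deriv_log,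
    Finset.mul_sum, Finset.mul_sum, ← Finset.sum_add_distrib]
  refine Finset.sum_nonneg fun j _ => ?_
  rw [hf, hf]
  simp only [map_smul, smul_eq_mul]
  set S := ∑ i, conj (b i z) * fderiv ℂ (b i) z (e2 j) with hS
  have hI : ∑ i, conj (b i z) * (Complex.I * fderiv ℂ (b i) z (e2 j)) = Complex.I * S := by
    rw [hS, Finset.mul_sum]
    exact Finset.sum_congr rfl fun i _ => by ring
  rw [hI]
  have hN : (2 * S.re) ^ 2 + (2 * (Complex.I * S).re) ^ 2 = 4 * ‖S‖ ^ 2 := by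
    rw [Complex.sq_norm, Complex.normSq_apply]
    simp
    ring
  rw [hN]
  have hCS : ‖S‖ ^ 2 ≤ (∑ i, ‖b i z‖ ^ 2) * ∑ i, ‖fderiv ℂ (b i) z (e2 j)‖ ^ 2 := by
    refine le_trans ?_ (Finset.sum_mul_sq_le_sq_mul_sq _ _ _)
    have : ‖S‖ ≤ ∑ i, ‖b i z‖ * ‖fderiv ℂ (b i) z (e2 j)‖ := by
      refine (norm_sum_le _ _).trans (le_of_eq ?_)
      exact Finset.sum_congr rfl fun i _ => by rw [norm_mul, RCLike.norm_conj]
    gcongr
  have hp := hpos z
  set P := ∑ i, ‖b i z‖ ^ 2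
  set Q := ∑ i, ‖fderiv ℂ (b i) z (e2 j)‖ ^ 2 with hQ
  have hQ0 : 0 ≤ Q := by positivity
  have : (1 + P)⁻¹ * (4 * Q) + -((1 + P) ^ 2)⁻¹ * (4 * ‖S‖ ^ 2) =
      4 * ((1 + P) * Q - ‖S‖ ^ 2) / (1 + P) ^ 2 := by
    field_simp
    ring
  rw [this]
  have : 0 ≤ (1 + P) * Q - ‖S‖ ^ 2 := by nlinarith
  positivity

end Pool.Agent.Lib.MP_823829_an
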