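import Pool.Agent.Lib.MP_823829_an.MUa
import Pool.Agent.Lib.MP_823829_an.Lap

/-! The Laplacian of the area function is locally bounded above. -/

namespace Pool.Agent.Lib.MP_823829_an

open Set Metric Filter MeasureTheory
open scoped Topology ENNReal NNReal ContDiff ComplexConjugate

variable {X : Type*} [TopologicalSpace X] [T2Space X] [CompactSpace X] [Nonempty X] {m : ℕ}
  {a : Atl X m}

/-- The term of the chart `i` of the pulled back form, times the square of the cutoff. -/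
noncomputable def mub_auxI (Ω : Frm a) (χ : C2 → ℝ) (i : Fin a.n) (f : C4 → X)
    (x u₁ u₂ v₁ v₂ : C4) : ℂ := ((χ x.2 ^ 2 : ℝ) : ℂ) * pbI Ω i f x u₁ u₂ v₁ v₂

/-- The pulled back form times the square of the cutoff. -/
noncomputable def mub_auxP (Ω : Frm a) (χ : C2 → ℝ) (f : C4 → X)
    (x u₁ u₂ v₁ v₂ : C4) : ℂ := ((χ x.2 ^ 2 : ℝ) : ℂ) * pb Ω f x u₁ u₂ v₁ v₂

theorem mub_aux_two : (2 : WithTop ℕ∞) ≤ ((⊤ : ℕ∞) : WithTop ℕ∞) :=
  WithTop.coe_le_coe.2 (le_top : (2 : ℕ∞) ≤ ⊤)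

theorem mub_aux_chi {χ : C2 → ℝ} (hχ : ContDiff ℝ ∞ χ) :
    ContDiff ℝ ∞ fun x : C4 => ((χ x.2 ^ 2 : ℝ) : ℂ) :=
  Complex.ofRealCLM.contDiff.comp ((hχ.comp contDiff_snd).pow 2)

omit [T2Space X] [CompactSpace X] [Nonempty X] in
theorem mub_aux_sum (Ω : Frm a) (χ : C2 → ℝ) (f : C4 → X) :
    mub_auxP Ω χ f = fun x u₁ u₂ v₁ v₂ => ∑ i, mub_auxI Ω χ i f x u₁ u₂ v₁ v₂ := by
  funext x u₁ u₂ v₁ v₂
  simp only [mub_auxP, mub_auxI, pb, Finset.mul_sum]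

theorem mub_aux_tg {g : C4 → Fin m → ℂ} {t : C4} (hg : DifferentiableAt ℂ g t) (u : C4) :
    fderiv ℂ (fun x => (x, g x)) t u = tg g t u := by
  rw [DifferentiableAt.fderiv_prodMk differentiableAt_fun_id hg]
  simp [tg]

/-- One chart, one direction. -/
theorem mub_aux_chart (Ω : Frm a) {U : Set C2} {ρ₂ ρ₃ : ℝ} {χ : C2 → ℝ} (hχ : Cut χ ρ₃ ρ₂)
    {Γ : Set (C4 × X)} (h : MG a (U ×ˢ ball 0 ρ₂) Γ) {φ : C2 → ℂ} (hφ : ContDiff ℝ ∞ φ)
    (hc : HasCompactSupport φ) (hs : tsupport φ ⊆ U) (i : Fin a.n) (j : Fin 2) :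
    IntegrableOn (fun t : C4 => dH (fun z => dA φ z (e2 j)) t.1 (e2 j) *
      mub_auxI Ω χ i (gf Γ) t (0, e2 0) (0, e2 1) (0, e2 0) (0, e2 1)) (reg a Γ) ∧
    IntegrableOn (fun t : C4 => φ t.1 * ddbar (mub_auxI Ω χ i (gf Γ)) t (dir3 j) (dir3 j))
      (reg a Γ) ∧
    ∫ t in reg a Γ, dH (fun z => dA φ z (e2 j)) t.1 (e2 j) *
      mub_auxI Ω χ i (gf Γ) t (0, e2 0) (0, e2 1) (0, e2 0) (0, e2 1) =
    ∫ t in reg a Γ, φ t.1 * ddbar (mub_auxI Ω χ i (gf Γ)) t (dir3 j) (dir3 j) := by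
  obtain ⟨𝒲, hl, hr, hsm, hW⟩ := exists_chart_form Ω i hχ.smooth
  obtain ⟨Ki, hKi, hKt, hK0⟩ := wc_supp Ω i
  have hK : IsCompact ((tsupport φ ×ˢ tsupport χ) ×ˢ Ki) := (IsCompact.prod hc hχ.cpt).prod hKi
  have hKW : (tsupport φ ×ˢ tsupport χ) ×ˢ Ki ⊆ (U ×ˢ ball (0 : C2) ρ₂) ×ˢ (a.e i).target :=
    prod_mono (prod_mono hs hχ.supp) hKt
  have h0 : ∀ p : C4 × (Fin m → ℂ), p.1.1 ∈ tsupport φ →
      p ∉ (tsupport φ ×ˢ tsupport χ) ×ˢ Ki → 𝒲 p = 0 := by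
    intro p hp hn
    refine LinearMap.ext fun u₁ => LinearMap.ext fun u₂ => LinearMap.ext fun v₁ =>
      LinearMap.ext fun v₂ => ?_
    rw [hW]
    by_cases h1 : p.1.2 ∈ tsupport χ
    · rw [hK0 p.2 fun h2 => hn ⟨⟨hp, h1⟩, h2⟩]; simp
    · rw [image_eq_zero_of_notMem_tsupport h1]; simp
  obtain ⟨i1, i2, i3⟩ := mu1 (h.gs i) hl hr hsm hφ hK hKW h0 j
  have hO : IsOpen (regI a i Γ) := isOpen_regI i Γ
  have hR : IsOpen (reg a Γ) := isOpen_reg Γ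
  have hg := differentiableOn_regI (a := a) i Γ
  have hsub : regI a i Γ ⊆ reg a Γ := inter_subset_left
  have e1 : ∀ t ∈ regI a i Γ, ∀ u₁ u₂ v₁ v₂, 𝒲 (t, (a.e i ∘ gf Γ) t) (tg (a.e i ∘ gf Γ) t u₁)
      (tg (a.e i ∘ gf Γ) t u₂) (tg (a.e i ∘ gf Γ) t v₁) (tg (a.e i ∘ gf Γ) t v₂) =
      mub_auxI Ω χ i (gf Γ) t u₁ u₂ v₁ v₂ := by
    intro t ht u₁ u₂ v₁ v₂
    rw [hW, mub_auxI, pbI_eq_wc Ω i ht.2]
    rfl
  have e2' : ∀ t ∈ regI a i Γ, ddbar (fun p a b c d => 𝒲 p a b c d) (t, (a.e i ∘ gf Γ) t)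
      (fun k => tg (a.e i ∘ gf Γ) t (dir3 j k)) (fun k => tg (a.e i ∘ gf Γ) t (dir3 j k)) =
      ddbar (mub_auxI Ω χ i (gf Γ)) t (dir3 j) (dir3 j) := by
    intro t ht
    have hG : DifferentiableOn ℂ (fun x => (x, (a.e i ∘ gf Γ) x)) (regI a i Γ) :=
      differentiableOn_id.prodMk hg
    have hp := pull_ddbar hl hr hO hG ht (fun a b c d => (hsm a b c d).contDiffAt) (dir3 j)
      (dir3 j)
    simp only [mub_aux_tg (hg.differentiableAt (hO.mem_nhds ht))] at hp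
    rw [← hp]
    refine ddbar_congr ?_ _ _
    filter_upwards [hO.mem_nhds ht] with x hx
    funext u₁ u₂ v₁ v₂
    simp only [mub_aux_tg (hg.differentiableAt (hO.mem_nhds hx))]
    exact e1 x hx _ _ _ _
  have z0 : ∀ t ∈ reg a Γ \ regI a i Γ, mub_auxI Ω χ i (gf Γ) =ᶠ[𝓝 t] fun _ _ _ _ _ => 0 := by
    intro t ht
    have hz := pbI_zero Ω i ((graphOn_reg (a := a) Γ).1 t ht.1).1 fun hi => ht.2 ⟨ht.1, hi⟩
    filter_upwards [hz] with x hx
    funext u₁ u₂ v₁ v₂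
    rw [mub_auxI, hx]; simp
  have z1 : ∀ t ∈ reg a Γ \ regI a i Γ, dH (fun z => dA φ z (e2 j)) t.1 (e2 j) *
      mub_auxI Ω χ i (gf Γ) t (0, e2 0) (0, e2 1) (0, e2 0) (0, e2 1) = 0 := by
    intro t ht
    rw [(z0 t ht).self_of_nhds]; simp
  have z2 : ∀ t ∈ reg a Γ \ regI a i Γ,
      φ t.1 * ddbar (mub_auxI Ω χ i (gf Γ)) t (dir3 j) (dir3 j) = 0 := by
    intro t ht
    rw [ddbar_congr (z0 t ht), ddbar_zero, mul_zero]
  refine ⟨?_, ?_, ?_⟩
  · refine IntegrableOn.of_forall_sdiff_eq_zero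
      (i1.congr_fun (fun t ht => ?_) hO.measurableSet) hR.measurableSet z1
    simp only [e1 t ht]
  · refine IntegrableOn.of_forall_sdiff_eq_zero
      (i2.congr_fun (fun t ht => ?_) hO.measurableSet) hR.measurableSet z2
    simp only [e2' t ht]
  · rw [setIntegral_eq_of_subset_of_forall_sdiff_eq_zero hR.measurableSet hsub z1,
      setIntegral_eq_of_subset_of_forall_sdiff_eq_zero hR.measurableSet hsub z2]
    refine Eq.trans ?_ (i3.trans ?_)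
    · exact setIntegral_congr_fun hO.measurableSet fun t ht => by simp only [e1 t ht]
    · exact setIntegral_congr_fun hO.measurableSet fun t ht => by simp only [e2' t ht]

/-- All charts, one direction. -/
theorem mub_aux_dir (Ω : Frm a) {U : Set C2} {ρ₂ ρ₃ : ℝ} {χ : C2 → ℝ} (hχ : Cut χ ρ₃ ρ₂)
    {Γ : Set (C4 × X)} (h : MG a (U ×ˢ ball 0 ρ₂) Γ) {φ : C2 → ℂ} (hφ : ContDiff ℝ ∞ φ)
    (hc : HasCompactSupport φ) (hs : tsupport φ ⊆ U) (j : Fin 2) :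
    IntegrableOn (fun t : C4 => dH (fun z => dA φ z (e2 j)) t.1 (e2 j) *
      mub_auxP Ω χ (gf Γ) t (0, e2 0) (0, e2 1) (0, e2 0) (0, e2 1)) (reg a Γ) ∧
    IntegrableOn (fun t : C4 => φ t.1 * ddbar (mub_auxP Ω χ (gf Γ)) t (dir3 j) (dir3 j))
      (reg a Γ) ∧
    ∫ t in reg a Γ, dH (fun z => dA φ z (e2 j)) t.1 (e2 j) *
      mub_auxP Ω χ (gf Γ) t (0, e2 0) (0, e2 1) (0, e2 0) (0, e2 1) =
    ∫ t in reg a Γ, φ t.1 * ddbar (mub_auxP Ω χ (gf Γ)) t (dir3 j) (dir3 j) := by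
  have hR : IsOpen (reg a Γ) := isOpen_reg Γ
  have H := fun i => mub_aux_chart Ω hχ h hφ hc hs i j
  have e1 : (fun t : C4 => dH (fun z => dA φ z (e2 j)) t.1 (e2 j) *
      mub_auxP Ω χ (gf Γ) t (0, e2 0) (0, e2 1) (0, e2 0) (0, e2 1)) =
      fun t : C4 => ∑ i, dH (fun z => dA φ z (e2 j)) t.1 (e2 j) *
        mub_auxI Ω χ i (gf Γ) t (0, e2 0) (0, e2 1) (0, e2 0) (0, e2 1) := by
    funext t
    simp only [mub_aux_sum, Finset.mul_sum]
  have e2' : ∀ t ∈ reg a Γ, ∑ i, φ t.1 * ddbar (mub_auxI Ω χ i (gf Γ)) t (dir3 j) (dir3 j) =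
      φ t.1 * ddbar (mub_auxP Ω χ (gf Γ)) t (dir3 j) (dir3 j) := by
    intro t ht
    rw [mub_aux_sum, ddbar_sum, Finset.mul_sum]
    intro i _ u₁ u₂ v₁ v₂
    exact ((mub_aux_chi hχ.smooth).contDiffAt.mul
      (pbI_smooth Ω i hR (graphOn_reg (a := a) Γ).1 ht u₁ u₂ v₁ v₂)).of_le mub_aux_two
  have i2 : IntegrableOn (fun t : C4 =>
      ∑ i, φ t.1 * ddbar (mub_auxI Ω χ i (gf Γ)) t (dir3 j) (dir3 j)) (reg a Γ) :=
    integrable_finsetSum _ fun i _ => (H i).2.1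
  refine ⟨?_, i2.congr_fun e2' hR.measurableSet, ?_⟩
  · rw [e1]
    exact integrable_finsetSum _ fun i _ => (H i).1
  · rw [e1, integral_finsetSum _ fun i _ => (H i).1,
      ← setIntegral_congr_fun hR.measurableSet e2', integral_finsetSum _ fun i _ => (H i).2.1]
    exact Finset.sum_congr rfl fun i _ => (H i).2.2

theorem mu_lap (Ω : Frm a) {V U : Set C2} (hV : IsOpen V) (hU : IsOpen U) (hUV : U ⊆ V)
    {ρ₁ ρ₂ ρ₃ : ℝ} (h13 : ρ₁ < ρ₃) {χ : C2 → ℝ} (hχ : Cut χ ρ₃ ρ₂) {f : C4 → X}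
    (hf : ∀ t ∈ V ×ˢ shell ρ₁ ρ₂, HolAt a f t) {Γ : Set (C4 × X)}
    (h : MG a (U ×ˢ ball 0 ρ₂) Γ) (ha : Agree Γ (grf f) (U ×ˢ shell ρ₁ ρ₂)) :
    ∀ K ⊆ V, IsCompact K → ∃ C : ℝ, ∀ φ : C2 → ℝ, ContDiff ℝ ∞ φ → HasCompactSupport φ →
      tsupport φ ⊆ U ∩ K → (∀ z, 0 ≤ φ z) → ∫ z, mu Ω Γ χ z * lap φ z ≤ C * ∫ z, φ z := by
  intro K hKV hK
  obtain ⟨hSs, hS⟩ := hχ.subset_shell h13
  set S : Set C2 := tsupport χ \ ball 0 ρ₃ with hSdef
  have hR : IsOpen (reg a Γ) := isOpen_reg Γ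
  have hVs : IsOpen (V ×ˢ shell ρ₁ ρ₂) := hV.prod (isOpen_shell _ _)
  have hUs : IsOpen (U ×ˢ shell ρ₁ ρ₂) := hU.prod (isOpen_shell _ _)
  have hcont : ContinuousOn
      (fun t : C4 => ∑ j, ddbar (mub_auxP Ω χ f) t (dir3 j) (dir3 j)) (K ×ˢ S) := by
    refine continuousOn_finsetSum _ fun j _ t ht => ?_
    refine (continuousAt_ddbar (fun u₁ u₂ v₁ v₂ => ?_) _ _).continuousWithinAt
    exact ((mub_aux_chi hχ.smooth).contDiffAt.mul
      (pb_smooth Ω hVs hf ⟨hKV ht.1, hSs ht.2⟩ u₁ u₂ v₁ v₂)).of_le mub_aux_two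
  obtain ⟨C₀, hC₀⟩ := (hK.prod hS).exists_bound_of_continuousOn hcont
  refine ⟨4 * (max C₀ 0 * volume.real S), fun φ hφ hc hs hpos => ?_⟩
  have hsU : tsupport φ ⊆ U := hs.trans inter_subset_left
  have hlc : Continuous (lap φ) :=
    continuous_iff_continuousAt.2 fun z => continuousAt_lap (hφ.contDiffAt.of_le mub_aux_two)
  have hlk : HasCompactSupport (lap φ) :=
    IsCompact.of_isClosed_subset hc (isClosed_tsupport _) (tsupport_lap φ)
  rw [mu_fubini Ω hχ h hlc hlk ((tsupport_lap φ).trans hsU)]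
  set φc : C2 → ℂ := fun x => ((φ x : ℝ) : ℂ) with hφc
  have hφc1 : ContDiff ℝ ∞ φc := Complex.ofRealCLM.contDiff.comp hφ
  have hts : tsupport φc ⊆ tsupport φ :=
    closure_mono fun x hx h0 => hx (by simp only [hφc, h0, Complex.ofReal_zero])
  have hφc2 : HasCompactSupport φc := IsCompact.of_isClosed_subset hc (isClosed_tsupport _) hts
  have H := fun j => mub_aux_dir Ω hχ h hφc1 hφc2 (hts.trans hsU) j
  have i1 : IntegrableOn (fun t : C4 => ∑ j, dH (fun z => dA φc z (e2 j)) t.1 (e2 j) *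
      mub_auxP Ω χ (gf Γ) t (0, e2 0) (0, e2 1) (0, e2 0) (0, e2 1)) (reg a Γ) :=
    integrable_finsetSum _ fun j _ => (H j).1
  have s1 : ∫ t : C4, lap φ t.1 * (χ t.2 ^ 2 * fd Ω Γ t) =
      4 * (∫ t in reg a Γ, ∑ j, dH (fun z => dA φc z (e2 j)) t.1 (e2 j) *
        mub_auxP Ω χ (gf Γ) t (0, e2 0) (0, e2 1) (0, e2 0) (0, e2 1)).re := by
    have r1 := integral_re i1
    simp only [RCLike.re_to_complex] at r1
    rw [← r1, ← integral_const_mul, ← integral_indicator hR.measurableSet]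
    refine integral_congr_ae (Eventually.of_forall fun t => ?_)
    by_cases ht : t ∈ reg a Γ
    · have l1 := lap_eq_dH_dA (z := t.1) (hφ.contDiffAt.of_le mub_aux_two)
      have l2 : (∑ j, dH (fun z => dA φc z (e2 j)) t.1 (e2 j)) = ((lap φ t.1 / 4 : ℝ) : ℂ) := by
        push_cast
        rw [l1]; ring
      simp only [indicator_of_mem ht, fd, ← Finset.sum_mul, l2, mub_auxP, Complex.re_ofReal_mul]
      ring
    · simp only [indicator_of_notMem ht, fd, mul_zero]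
  have s2 : (∫ t in reg a Γ, ∑ j, dH (fun z => dA φc z (e2 j)) t.1 (e2 j) *
        mub_auxP Ω χ (gf Γ) t (0, e2 0) (0, e2 1) (0, e2 0) (0, e2 1)) =
      ∫ t in reg a Γ, φc t.1 * ∑ j, ddbar (mub_auxP Ω χ (gf Γ)) t (dir3 j) (dir3 j) := by
    simp only [Finset.mul_sum]
    rw [integral_finsetSum _ fun j _ => (H j).1, integral_finsetSum _ fun j _ => (H j).2.1]
    exact Finset.sum_congr rfl fun j _ => (H j).2.2
  have hφi : Integrable φ := hφ.continuous.integrable_of_hasCompactSupport hc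
  have hSi : Integrable (S.indicator fun _ : C2 => max C₀ 0) :=
    (integrable_indicator_iff hS.measurableSet).2 (integrableOn_const hS.measure_lt_top.ne)
  have hB : Integrable fun t : C4 => φ t.1 * S.indicator (fun _ : C2 => max C₀ 0) t.2 := by
    rw [Measure.volume_eq_prod]
    exact hφi.mul_prod hSi
  have hB0 : ∀ t : C4, 0 ≤ φ t.1 * S.indicator (fun _ : C2 => max C₀ 0) t.2 := fun t =>
    mul_nonneg (hpos _) (indicator_nonneg (fun _ _ => le_max_right _ _) _)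
  have hBv : ∫ t : C4, φ t.1 * S.indicator (fun _ : C2 => max C₀ 0) t.2 =
      (max C₀ 0 * volume.real S) * ∫ z, φ z := by
    rw [Measure.volume_eq_prod, integral_prod_mul φ (S.indicator fun _ : C2 => max C₀ 0),
      integral_indicator hS.measurableSet, setIntegral_const, smul_eq_mul]
    ring
  have hb : ∀ t ∈ reg a Γ, ‖φc t.1 * ∑ j, ddbar (mub_auxP Ω χ (gf Γ)) t (dir3 j) (dir3 j)‖ ≤
      φ t.1 * S.indicator (fun _ : C2 => max C₀ 0) t.2 := by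
    intro t ht
    by_cases h0 : φ t.1 = 0
    · simp only [hφc, h0, Complex.ofReal_zero, zero_mul, norm_zero, le_refl]
    have ht1 : t.1 ∈ U ∩ K := hs (subset_tsupport _ h0)
    by_cases h1 : t.2 ∈ S
    · have htU : t ∈ U ×ˢ shell ρ₁ ρ₂ := ⟨ht1.1, hSs h1⟩
      have g1 : gf Γ =ᶠ[𝓝 t] f := by
        filter_upwards [hUs.mem_nhds htU] with x hx
        exact gf_eq fun y => ha x hx y
      have g2 : mub_auxP Ω χ (gf Γ) =ᶠ[𝓝 t] mub_auxP Ω χ f := by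
        filter_upwards [pb_congr Ω g1] with x hx
        funext u₁ u₂ v₁ v₂
        rw [mub_auxP, mub_auxP, hx]
      simp only [ddbar_congr g2]
      rw [norm_mul, indicator_of_mem h1, hφc, Complex.norm_real, Real.norm_of_nonneg (hpos _)]
      exact mul_le_mul_of_nonneg_left ((hC₀ t ⟨ht1.2, h1⟩).trans (le_max_left _ _)) (hpos _)
    · have g0 : ∀ j, ddbar (mub_auxP Ω χ (gf Γ)) t (dir3 j) (dir3 j) = 0 := by
        intro j
        by_cases h2 : t.2 ∈ ball (0 : C2) ρ₃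
        · have g2 : mub_auxP Ω χ (gf Γ) =ᶠ[𝓝 t] pb Ω (gf Γ) := by
            filter_upwards [continuous_snd.continuousAt.preimage_mem_nhds
              (isOpen_ball.mem_nhds h2)] with x hx
            funext u₁ u₂ v₁ v₂
            rw [mub_auxP, hχ.one _ hx]; simp
          rw [ddbar_congr g2]
          exact pb_ddbar Ω hR (graphOn_reg (a := a) Γ).1 ht _ _
        · have h3 : t.2 ∉ tsupport χ := fun h3 => h1 ⟨h3, h2⟩
          have g2 : mub_auxP Ω χ (gf Γ) =ᶠ[𝓝 t] fun _ _ _ _ _ => 0 := by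
            filter_upwards [continuous_snd.continuousAt.preimage_mem_nhds
              ((isClosed_tsupport χ).isOpen_compl.mem_nhds h3)] with x hx
            funext u₁ u₂ v₁ v₂
            rw [mub_auxP, image_eq_zero_of_notMem_tsupport hx]; simp
          rw [ddbar_congr g2, ddbar_zero]
      simp only [g0, Finset.sum_const_zero, mul_zero, norm_zero]
      exact hB0 t
  have s3 : ‖∫ t in reg a Γ, φc t.1 * ∑ j, ddbar (mub_auxP Ω χ (gf Γ)) t (dir3 j) (dir3 j)‖ ≤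
      (max C₀ 0 * volume.real S) * ∫ z, φ z := by
    rw [← hBv]
    refine le_trans (norm_integral_le_of_norm_le hB.integrableOn ?_)
      (setIntegral_le_integral hB (Eventually.of_forall hB0))
    exact (ae_restrict_iff' hR.measurableSet).2 (Eventually.of_forall hb)
  rw [s1, s2]
  have s4 := (Complex.re_le_norm _).trans s3
  linarith

end Pool.Agent.Lib.MP_823829_an
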