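import Pool.Agent.Lib.MP_823829_an.PotB

/-! A superharmonic function that blows up at the boundary. -/

namespace Pool.Agent.Lib.MP_823829_an

open Set Metric Filter MeasureTheory
open scoped Topology ENNReal NNReal ContDiff ComplexConjugate

theorem pot {V U : Set C2} (hV : IsOpen V) (hc : IsPreconnected V) (hU : IsOpen U) (hUV : U ⊆ V)
    (hne : U.Nonempty) {μ : C2 → ℝ} (h0 : ∀ z, 0 ≤ μ z) (hi : LocallyIntegrableOn μ U)
    (hΔ : ∀ K ⊆ V, IsCompact K → ∃ C : ℝ, ∀ φ : C2 → ℝ, ContDiff ℝ ∞ φ → HasCompactSupport φ →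
      tsupport φ ⊆ U ∩ K → (∀ z, 0 ≤ φ z) → ∫ z, μ z * lap φ z ≤ C * ∫ z, φ z)
    (hF : ∀ M : ℝ, Polar {z ∈ V \ U | ∀ N ∈ 𝓝 z, volume {y ∈ U ∩ N | μ y ≤ M} ≠ 0}) :
    Polar (V \ U) := by
  have hloc : ∀ s ∈ V, s ∈ closure U → ∃ r : ℝ, 0 < r ∧ Polar (ball s r \ U) := by
    intro s hs hsU
    obtain ⟨ε, hε, hball⟩ := nhds_basis_closedBall.mem_iff.1 (hV.mem_nhds hs)
    obtain ⟨C, hC⟩ := hΔ _ hball (isCompact_closedBall s ε)
    have hδ : 0 < ε / 4 := by linarith
    have h4 : 4 * (ε / 4) = ε := by ring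
    have := pot_loc hU hsU hδ h0 hi (C := C) (fun φ h1 h2 h3 h5 => hC φ h1 h2
      (h3.trans (inter_subset_inter_right _ (by rw [h4]; exact ball_subset_closedBall))) h5)
      (fun M => (hF M).mono (by
        rintro z ⟨⟨hz1, hz2⟩, hz3⟩
        exact ⟨⟨hball (closedBall_subset_closedBall (by linarith) hz1), hz2⟩, hz3⟩))
    exact ⟨ε / 4 / 8, by linarith,
      this.mono (sdiff_subset_sdiff_left ball_subset_closedBall)⟩
  have hdense : V ⊆ closure U := by
    have h1 : V ⊆ interior (closure U) := by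
      refine hc.subset_of_closure_inter_subset isOpen_interior ?_ ?_
      · obtain ⟨u, hu⟩ := hne
        exact ⟨u, hUV hu, interior_maximal subset_closure hU hu⟩
      · rintro s ⟨hs1, hs2⟩
        have hs3 : s ∈ closure U := by
          have := closure_mono (interior_subset (s := closure U)) hs1
          rwa [closure_closure] at this
        obtain ⟨r, hr, hp⟩ := hloc s hs2 hs3
        refine mem_interior.2 ⟨ball s r, fun z hz => ?_, isOpen_ball, mem_ball_self hr⟩
        rw [_root_.mem_closure_iff]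
        intro o ho hzo
        obtain ⟨y, hy1, hy2⟩ := hp.exists_notMem (ho.inter isOpen_ball) ⟨z, hzo, hz⟩
        refine ⟨y, hy1.1, ?_⟩
        by_contra hyU
        exact hy2 ⟨hy1.2, hyU⟩
    exact h1.trans interior_subset
  refine polar_of_local fun s hs => ?_
  obtain ⟨r, hr, hp⟩ := hloc s hs.1 (hdense hs.1)
  exact ⟨ball s r, ball_mem_nhds s hr, hp.mono fun z hz => ⟨hz.2, hz.1.2⟩⟩

end Pool.Agent.Lib.MP_823829_an
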