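import Pool.Agent.Lib.MP_823829_an.Bish2b
import Pool.Agent.Lib.MP_823829_an.MUb
import Pool.Agent.Lib.MP_823829_an.A5
import Pool.Agent.Lib.MP_823829_an.Pot

/-! The local extension theorem over a holomorphic shell. -/

namespace Pool.Agent.Lib.MP_823829_an

open Set Metric Filter MeasureTheory
open scoped Topology ENNReal NNReal ContDiff ComplexConjugate

variable {X : Type*} [TopologicalSpace X] [T2Space X] [CompactSpace X] [Nonempty X] {m : ℕ}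
  {a : Atl X m}

omit [T2Space X] [CompactSpace X] [Nonempty X] in
theorem lt_aux_open (f : C4 → X) (ρ₁ ρ₂ : ℝ) : IsOpen {s | ExtN a f ρ₁ ρ₂ s} := by
  rw [isOpen_iff_mem_nhds]
  rintro s ⟨N, hN, hs, G, hG⟩
  filter_upwards [hN.mem_nhds hs] with s' hs'
  exact ⟨N, hN, hs', G, hG⟩

theorem lt_aux_glue {V : Set C2} (hV : IsOpen V) {ρ₁ ρ₂ : ℝ} (h0 : 0 < ρ₁) (hρ : ρ₁ < ρ₂)
    (f : C4 → X) : ∃ Γ : Set (C4 × X), MG a ({s ∈ V | ExtN a f ρ₁ ρ₂ s} ×ˢ ball 0 ρ₂) Γ ∧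
      Agree Γ (grf f) ({s ∈ V | ExtN a f ρ₁ ρ₂ s} ×ˢ shell ρ₁ ρ₂) := by
  set U : Set C2 := {s ∈ V | ExtN a f ρ₁ ρ₂ s} with hUdef
  have h : ∀ s : U, ∃ N : Set C2, IsOpen N ∧ s.1 ∈ N ∧ N ⊆ U ∧ ∃ G : Set (C4 × X),
      MG a (N ×ˢ ball 0 ρ₂) G ∧ Agree G (grf f) (N ×ˢ shell ρ₁ ρ₂) := by
    rintro ⟨s, hsV, N, hN, hsN, G, hG, hA⟩
    refine ⟨N ∩ V, hN.inter hV, ⟨hsN, hsV⟩, fun z hz => ⟨hz.2, N, hN, hz.1, G, hG, hA⟩,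
      res G ((N ∩ V) ×ˢ ball 0 ρ₂), hG.restrict ((hN.inter hV).prod isOpen_ball)
        (prod_mono inter_subset_left Subset.rfl), ?_⟩
    rintro t ⟨ht1, ht2⟩ x
    rw [← hA t ⟨ht1.1, ht2⟩ x]
    exact ⟨fun h => h.1, fun h => ⟨h, ht1, shell_subset _ _ ht2⟩⟩
  choose N hN hsN hNU G hG hA using h
  have hc : ∀ i j, Agree (G i) (G j) (N i ×ˢ ball 0 ρ₂ ∩ N j ×ˢ ball 0 ρ₂) := by
    intro i j
    refine agree_prod h0 hρ (hN i) (hN j) (hG i) (hG j) ?_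
    rintro t ⟨ht1, ht2⟩ x
    rw [hA i t ⟨ht1.1, ht2⟩ x, hA j t ⟨ht1.2, ht2⟩ x]
  obtain ⟨h1, h2⟩ := mg_glue hG hc
  have hU : (⋃ i, N i ×ˢ ball (0 : C2) ρ₂) = U ×ˢ ball 0 ρ₂ := by
    ext t
    simp only [mem_iUnion, mem_prod]
    exact ⟨fun ⟨i, hi1, hi2⟩ => ⟨hNU i hi1, hi2⟩, fun ⟨h3, h4⟩ => ⟨⟨t.1, h3⟩, hsN _, h4⟩⟩
  refine ⟨⋃ i, G i, hU ▸ h1, ?_⟩
  rintro t ⟨ht1, ht2⟩ x
  rw [h2 ⟨t.1, ht1⟩ t ⟨hsN _, shell_subset _ _ ht2⟩ x, hA ⟨t.1, ht1⟩ t ⟨hsN _, ht2⟩ x]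

theorem lt_polar (Ω : Frm a) {V : Set C2} (hV : IsOpen V) (hc : IsPreconnected V) {ρ₁ ρ₂ : ℝ}
    (h0 : 0 < ρ₁) (hρ : ρ₁ < ρ₂) {f : C4 → X} (hf : ∀ t ∈ V ×ˢ shell ρ₁ ρ₂, HolAt a f t)
    (hne : ∃ s ∈ V, ExtN a f ρ₁ ρ₂ s) : Polar {s ∈ V | ¬ ExtN a f ρ₁ ρ₂ s} := by
  obtain ⟨Γ, hΓ, hA⟩ := lt_aux_glue (a := a) hV h0 hρ f
  set U : Set C2 := {s ∈ V | ExtN a f ρ₁ ρ₂ s} with hUdef
  have hU : IsOpen U := hV.inter (lt_aux_open f ρ₁ ρ₂)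
  have hUV : U ⊆ V := fun s hs => hs.1
  have h13 : ρ₁ < (ρ₁ + ρ₂) / 2 := by linarith
  have h32 : (ρ₁ + ρ₂) / 2 < ρ₂ := by linarith
  obtain ⟨χ, hχ⟩ := exists_cut (h0.trans h13) h32
  have hp := pot hV hc hU hUV hne (mu_nonneg Ω Γ χ) (mu_loc Ω hU hχ hΓ).1
    (mu_lap Ω hV hU hUV h13 hχ hf hΓ hA) (fun M => (ext_polar h0 hρ hV hf).mono (by
      rintro s ⟨⟨hs1, hs2⟩, hs3⟩
      exact ⟨hs1, ext_of_bdd Ω hV hU hUV h0 h13 h32 hχ hf hΓ hA hs1 hs3,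
        fun h => hs2 ⟨hs1, h⟩⟩))
  exact hp.mono fun s hs => ⟨hs.1, fun h => hs.2 h.2⟩

end Pool.Agent.Lib.MP_823829_an
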