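import Pool.Agent.Lib.MP_823829_an.St2
import Pool.Agent.Lib.MP_823829_an.Area

/-! Density of a graph at one of its points. -/

namespace Pool.Agent.Lib.MP_823829_an

open Set Metric Filter MeasureTheory
open scoped Topology ENNReal NNReal ContDiff ComplexConjugate

theorem lela_aux_norm {m : ℕ} (x : C2 × (Fin m → ℂ)) {r : ℝ} (hr : 0 ≤ r)
    (h : ∀ c, ‖crd c x‖ ≤ r) : ‖x‖ ≤ r := by
  rw [Prod.norm_def]
  refine max_le ?_ ?_
  · exact (pi_norm_le_iff_of_nonneg hr).2 fun i => h (Sum.inl i)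
  · exact (pi_norm_le_iff_of_nonneg hr).2 fun i => h (Sum.inr i)

theorem lela_aux_split (h : C2) : h = h 0 • e2 0 + h 1 • e2 1 := by
  funext i
  fin_cases i <;> simp [e2]

theorem lela_aux_crd {m : ℕ} (g : C2 → Fin m → ℂ) (t h : C2) (c : Fin 2 ⊕ Fin m) :
    crd c (tg g t h) = h 0 * crd c (tg g t (e2 0)) + h 1 * crd c (tg g t (e2 1)) := by
  cases c with
  | inl i => fin_cases i <;> simp [crd, tg, e2]
  | inr i =>
    simp only [crd, tg, Sum.elim_inr]
    conv_lhs => rw [lela_aux_split h]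
    simp

theorem lela_aux_one {m : ℕ} (g : C2 → Fin m → ℂ) (t : C2) :
    minor g t (Sum.inl 0) (Sum.inl 1) = 1 := by
  simp [minor, crd, tg, e2]

theorem lela_aux_inv {m : ℕ} (g : C2 → Fin m → ℂ) (t : C2) (a b : Fin 2 ⊕ Fin m)
    (h0 : minor g t a b ≠ 0) (hmax : ∀ c d, ‖minor g t c d‖ ≤ ‖minor g t a b‖) :
    ∃ N : C2 →L[ℂ] C2, N.det = (minor g t a b)⁻¹ ∧ ∀ y, ‖tg g t (N y)‖ ≤ 2 * ‖y‖ := by
  set Δ := minor g t a b with hΔ
  set u := tg g t (e2 0) with hu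
  set v := tg g t (e2 1) with hv
  let B : Matrix (Fin 2) (Fin 2) ℂ :=
    !![crd b v / Δ, -crd a v / Δ; -crd b u / Δ, crd a u / Δ]
  have hΔ' : Δ = crd a u * crd b v - crd b u * crd a v := rfl
  refine ⟨LinearMap.toContinuousLinearMap (Matrix.toLin' B), ?_, ?_⟩
  · have : (LinearMap.toContinuousLinearMap (Matrix.toLin' B)).det = B.det := by
      simp [ContinuousLinearMap.det, LinearMap.det_toLin']
    rw [this, Matrix.det_fin_two_of]
    field_simp
    rw [hΔ']; ring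
  · intro y
    refine lela_aux_norm _ (by positivity) fun c => ?_
    rw [lela_aux_crd]
    have e0 : (LinearMap.toContinuousLinearMap (Matrix.toLin' B)) y 0 =
        crd b v / Δ * y 0 + -crd a v / Δ * y 1 := by
      simp [B, Matrix.mulVec, dotProduct, Fin.sum_univ_two]
    have e1 : (LinearMap.toContinuousLinearMap (Matrix.toLin' B)) y 1 =
        -crd b u / Δ * y 0 + crd a u / Δ * y 1 := by
      simp [B, Matrix.mulVec, dotProduct, Fin.sum_univ_two]
    rw [e0, e1, ← hu, ← hv]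
    have key : (crd b v / Δ * y 0 + -crd a v / Δ * y 1) * crd c u +
        (-crd b u / Δ * y 0 + crd a u / Δ * y 1) * crd c v =
        y 0 * (minor g t c b / Δ) + y 1 * (minor g t a c / Δ) := by
      simp only [minor, ← hu, ← hv]
      field_simp
      ring
    rw [key]
    have hp : 0 < ‖Δ‖ := norm_pos_iff.2 h0
    have q : ∀ c d, ‖minor g t c d / Δ‖ ≤ 1 := fun c d => by
      rw [norm_div, div_le_one hp]; exact hmax c d
    have y0 : ‖y 0‖ ≤ ‖y‖ := norm_le_pi_norm y 0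
    have y1 : ‖y 1‖ ≤ ‖y‖ := norm_le_pi_norm y 1
    calc ‖y 0 * (minor g t c b / Δ) + y 1 * (minor g t a c / Δ)‖
        ≤ ‖y 0‖ * ‖minor g t c b / Δ‖ + ‖y 1‖ * ‖minor g t a c / Δ‖ := by
          refine (norm_add_le _ _).trans ?_
          rw [norm_mul, norm_mul]
      _ ≤ ‖y‖ * 1 + ‖y‖ * 1 := by
          gcongr
          · exact q _ _
          · exact q _ _
      _ = 2 * ‖y‖ := by ring

theorem lela_aux_vd {m : ℕ} (g : C2 → Fin m → ℂ) (t : C2) (a b : Fin 2 ⊕ Fin m) :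
    ‖minor g t a b‖ ^ 2 ≤ vd g t := by
  unfold vd
  calc ‖minor g t a b‖ ^ 2 ≤ ∑ b', ‖minor g t a b'‖ ^ 2 :=
        Finset.single_le_sum (f := fun b' => ‖minor g t a b'‖ ^ 2) (fun _ _ => by positivity)
          (Finset.mem_univ b)
    _ ≤ ∑ a', ∑ b', ‖minor g t a' b'‖ ^ 2 :=
        Finset.single_le_sum (f := fun a' => ∑ b', ‖minor g t a' b'‖ ^ 2)
          (fun _ _ => Finset.sum_nonneg fun _ _ => by positivity) (Finset.mem_univ a)

theorem lel_density (m : ℕ) : ∃ c : ℝ, 0 < c ∧ ∀ (O : Set C2) (g : C2 → Fin m → ℂ), IsOpen O →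
    DifferentiableOn ℂ g O → ∀ t₀ ∈ O, ∀ᶠ s in 𝓝[>] (0 : ℝ),
      ENNReal.ofReal (c * s ^ 4) ≤ gvol O g (ball (t₀, g t₀) s) := by
  obtain ⟨c₀, hc₀, hvol⟩ := haar_closedBall (T := C2) (volume : Measure C2)
  have hc₀' : (0 : ℝ) < c₀ := hc₀
  refine ⟨(c₀ : ℝ) / 1024, by positivity, fun O g hO hg t₀ ht₀ => ?_⟩
  obtain ⟨⟨a, b⟩, -, hab⟩ := Finset.exists_max_image
    (Finset.univ : Finset ((Fin 2 ⊕ Fin m) × (Fin 2 ⊕ Fin m)))
    (fun p => ‖minor g t₀ p.1 p.2‖) ⟨(Sum.inl 0, Sum.inl 1), Finset.mem_univ _⟩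
  have hmax : ∀ c d, ‖minor g t₀ c d‖ ≤ ‖minor g t₀ a b‖ := fun c d =>
    hab (c, d) (Finset.mem_univ _)
  have h1 : 1 ≤ ‖minor g t₀ a b‖ := by
    have := hmax (Sum.inl 0) (Sum.inl 1)
    rwa [lela_aux_one, norm_one] at this
  have hp : 0 < ‖minor g t₀ a b‖ := lt_of_lt_of_le one_pos h1
  have h0 : minor g t₀ a b ≠ 0 := norm_pos_iff.1 hp
  obtain ⟨N, hN, hNy⟩ := lela_aux_inv g t₀ a b h0 hmax
  have hOn : O ∈ 𝓝 t₀ := hO.mem_nhds ht₀
  have hd : HasFDerivAt g (fderiv ℂ g t₀) t₀ := (hg.differentiableAt hOn).hasFDerivAt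
  have ev1 : ∀ᶠ t in 𝓝 t₀, ‖g t - g t₀ - fderiv ℂ g t₀ (t - t₀)‖ ≤ 1 / 2 * ‖t - t₀‖ :=
    hd.isLittleO.def (by norm_num)
  have hcont : ContinuousAt (fun t => ‖minor g t a b‖) t₀ :=
    ((continuousOn_minor hO hg a b).continuousAt hOn).norm
  have ev2 : ∀ᶠ t in 𝓝 t₀, ‖minor g t₀ a b‖ / 2 < ‖minor g t a b‖ :=
    hcont.eventually (lt_mem_nhds (by linarith))
  obtain ⟨δ, hδ, hball⟩ := Metric.eventually_nhds_iff.1 ((ev1.and ev2).and hOn)
  have evs : ∀ᶠ s in 𝓝[>] (0 : ℝ), s ∈ Ioo (0 : ℝ) δ := Ioo_mem_nhdsGT hδ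
  filter_upwards [evs] with s hs
  obtain ⟨hs0, hsδ⟩ := hs
  set K : Set C2 := (fun y => t₀ + N y) '' closedBall 0 (s / 4) with hK
  have hKc : IsCompact K :=
    (isCompact_closedBall _ _).image (continuous_const.add N.continuous)
  have hKp : ∀ t ∈ K, (t ∈ O ∧ (t, g t) ∈ ball (t₀, g t₀) s) ∧
      ‖minor g t₀ a b‖ ^ 2 / 4 ≤ vd g t := by
    rintro _ ⟨y, hy, rfl⟩
    rw [mem_closedBall_zero_iff] at hy
    have n1 : ‖N y‖ ≤ s / 2 := by
      have := (norm_fst_le (tg g t₀ (N y))).trans (hNy y)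
      simp only [tg] at this
      linarith
    have n2 : ‖fderiv ℂ g t₀ (N y)‖ ≤ s / 2 := by
      have := (norm_snd_le (tg g t₀ (N y))).trans (hNy y)
      simp only [tg] at this
      linarith
    have hd' : dist (t₀ + N y) t₀ < δ := by
      rw [dist_eq_norm, add_sub_cancel_left]; linarith
    obtain ⟨⟨p1, p2⟩, p3⟩ := hball hd'
    rw [add_sub_cancel_left] at p1
    refine ⟨⟨p3, ?_⟩, ?_⟩
    · rw [mem_ball, Prod.dist_eq]
      refine max_lt ?_ ?_
      · show dist (t₀ + N y) t₀ < s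
        rw [dist_eq_norm, add_sub_cancel_left]; linarith
      · show dist (g (t₀ + N y)) (g t₀) < s
        rw [dist_eq_norm]
        have := norm_add_le (g (t₀ + N y) - g t₀ - fderiv ℂ g t₀ (N y)) (fderiv ℂ g t₀ (N y))
        rw [sub_add_cancel] at this
        linarith
    · refine le_trans ?_ (lela_aux_vd g _ a b)
      nlinarith
  have hKv : volume K = ‖(minor g t₀ a b)⁻¹‖ₑ ^ 2 * (c₀ * ENNReal.ofReal ((s / 4) ^ 4)) := by
    have e : K = (fun x => t₀ + x) '' (N '' closedBall 0 (s / 4)) := by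
      rw [hK, image_image]
    rw [e, image_add_left, measure_preimage_add, haar_image_clm, hN,
      (hvol 0 (s / 4) (by positivity)).1, rd_C2]
    congr 3
    exact_mod_cast Real.rpow_natCast (s / 4) 4
  calc ENNReal.ofReal ((c₀ : ℝ) / 1024 * s ^ 4)
      = ENNReal.ofReal (‖minor g t₀ a b‖ ^ 2 / 4) * volume K := by
        rw [hKv, ← ofReal_norm, ← ENNReal.ofReal_pow (norm_nonneg _),
          ← ENNReal.ofReal_coe_nnreal, ← ENNReal.ofReal_mul hc₀'.le,
          ← ENNReal.ofReal_mul (by positivity), ← ENNReal.ofReal_mul (by positivity)]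
        congr 1
        rw [norm_inv]
        field_simp
        ring
    _ = ∫⁻ _ in K, ENNReal.ofReal (‖minor g t₀ a b‖ ^ 2 / 4) := (setLIntegral_const _ _).symm
    _ ≤ ∫⁻ t in K, ENNReal.ofReal (vd g t) :=
        setLIntegral_mono' hKc.measurableSet fun t ht => ENNReal.ofReal_le_ofReal (hKp t ht).2
    _ ≤ gvol O g (ball (t₀, g t₀) s) := lintegral_mono_set fun t ht => (hKp t ht).1

end Pool.Agent.Lib.MP_823829_an
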