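import Pool.Agent.Lib.MP_823829_an.LelA

/-! The lower volume bound of Lelong. -/

namespace Pool.Agent.Lib.MP_823829_an

open Set Metric Filter MeasureTheory
open scoped Topology ENNReal NNReal ContDiff ComplexConjugate

theorem lelb_aux_pos_sq (x : ℝ) : HasDerivAt (fun y : ℝ => max y 0 ^ 2) (2 * max x 0) x := by
  rcases lt_trichotomy x 0 with h | h | h
  · have e : (fun y : ℝ => max y 0 ^ 2) =ᶠ[𝓝 x] fun _ => 0 := by
      filter_upwards [Iio_mem_nhds h] with y hy
      rw [max_eq_right (le_of_lt hy)]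
      norm_num
    rw [max_eq_right h.le, mul_zero]
    exact (hasDerivAt_const x (0 : ℝ)).congr_of_eventuallyEq e
  · subst h
    have h1 : HasDerivAt (fun y : ℝ => y ^ 2) 0 0 := by simpa using hasDerivAt_pow 2 (0 : ℝ)
    rw [hasDerivAt_iff_isLittleO] at h1 ⊢
    refine (Asymptotics.IsBigO.of_norm_le fun y => ?_).trans_isLittleO h1.norm_left
    rcases le_total y 0 with hy | hy
    · simp [max_eq_right hy]
      positivity
    · simp [max_eq_left hy]
  · have e : (fun y : ℝ => max y 0 ^ 2) =ᶠ[𝓝 x] fun y => y ^ 2 := by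
      filter_upwards [Ioi_mem_nhds h] with y hy
      rw [max_eq_left (le_of_lt hy)]
    rw [max_eq_left h.le]
    have h1 : HasDerivAt (fun y : ℝ => y ^ 2) (2 * x) x := by simpa using hasDerivAt_pow 2 x
    exact h1.congr_of_eventuallyEq e

theorem lelb_aux_pos_sq_contDiff : ContDiff ℝ 1 (fun y : ℝ => max y 0 ^ 2) := by
  rw [contDiff_one_iff_deriv]
  refine ⟨fun x => (lelb_aux_pos_sq x).differentiableAt, ?_⟩
  have e : deriv (fun y : ℝ => max y 0 ^ 2) = fun x => 2 * max x 0 :=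
    funext fun x => (lelb_aux_pos_sq x).deriv
  rw [e]
  fun_prop

theorem lelb_aux_kappa {R s : ℝ} (hR : 0 < R) (hs : 0 < s) : ∃ κ : ℝ → ℝ,
    (∀ σ, 0 ≤ σ → ContDiffAt ℝ 1 κ σ) ∧ (∀ σ, R ≤ σ → κ σ = 0 ∧ deriv κ σ = 0) ∧
      ∀ σ, 0 ≤ σ → σ ≤ R → deriv κ σ ≤ 0 ∧
        s ^ 2 / (σ + s ^ 2) ^ 3 - 3 / R ^ 2 ≤ κ σ + deriv κ σ * σ / 2 := by
  set b := R + s ^ 2 with hb
  have hb0 : 0 < b := by positivity
  have hd : ∀ σ, 0 ≤ σ → HasDerivAt (fun σ => max (R - σ) 0 ^ 2 *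
      (2 * (σ + s ^ 2)⁻¹ / b ^ 3 + (σ + s ^ 2)⁻¹ ^ 2 / b ^ 2))
      (2 * max (R - σ) 0 * (-1) * (2 * (σ + s ^ 2)⁻¹ / b ^ 3 + (σ + s ^ 2)⁻¹ ^ 2 / b ^ 2) +
        max (R - σ) 0 ^ 2 * (2 * (-1 / (σ + s ^ 2) ^ 2) / b ^ 3 +
          2 * (σ + s ^ 2)⁻¹ * (-1 / (σ + s ^ 2) ^ 2) / b ^ 2)) σ := fun σ hσ => by
    have ha : σ + s ^ 2 ≠ 0 := by positivity
    have h1 := (lelb_aux_pos_sq (R - σ)).comp σ ((hasDerivAt_id' σ).const_sub R)
    have h2 : HasDerivAt (fun σ : ℝ => (σ + s ^ 2)⁻¹) (-1 / (σ + s ^ 2) ^ 2) σ :=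
      ((hasDerivAt_id' σ).add_const (s ^ 2)).fun_inv ha
    have h3 : HasDerivAt (fun σ : ℝ => (σ + s ^ 2)⁻¹ ^ 2)
        (2 * (σ + s ^ 2)⁻¹ * (-1 / (σ + s ^ 2) ^ 2)) σ := by simpa using h2.fun_pow 2
    exact h1.fun_mul (((h2.const_mul 2).div_const (b ^ 3)).fun_add (h3.div_const (b ^ 2)))
  refine ⟨fun σ => max (R - σ) 0 ^ 2 * (2 * (σ + s ^ 2)⁻¹ / b ^ 3 + (σ + s ^ 2)⁻¹ ^ 2 / b ^ 2),
    fun σ hσ => ?_, fun σ hσ => ?_, fun σ h0 hσ => ?_⟩
  · have ha : σ + s ^ 2 ≠ 0 := by positivity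
    have h1 : ContDiffAt ℝ 1 (fun σ : ℝ => max (R - σ) 0 ^ 2) σ :=
      (lelb_aux_pos_sq_contDiff.comp (contDiff_const.sub contDiff_id)).contDiffAt
    have h2 : ContDiffAt ℝ 1 (fun σ : ℝ => (σ + s ^ 2)⁻¹) σ :=
      (contDiffAt_id.add contDiffAt_const).inv ha
    exact h1.mul (((contDiffAt_const.mul h2).div_const _).add ((h2.pow 2).div_const _))
  · rw [(hd σ (hR.le.trans hσ)).deriv]
    beta_reduce
    rw [max_eq_right (sub_nonpos.2 hσ)]
    simp
  · rw [(hd σ h0).deriv]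
    beta_reduce
    rw [max_eq_left (sub_nonneg.2 hσ)]
    set a := σ + s ^ 2 with ha
    have ha0 : 0 < a := by positivity
    have hab : a ≤ b := by linarith
    have e0 : R - σ = b - a := by linarith
    have e1 : 2 * (b - a) * (-1) * (2 * a⁻¹ / b ^ 3 + a⁻¹ ^ 2 / b ^ 2) +
        (b - a) ^ 2 * (2 * (-1 / a ^ 2) / b ^ 3 + 2 * a⁻¹ * (-1 / a ^ 2) / b ^ 2) =
        2 / b ^ 3 - 2 / a ^ 3 := by
      field_simp
      ring
    have e2 : (b - a) ^ 2 * (2 * a⁻¹ / b ^ 3 + a⁻¹ ^ 2 / b ^ 2) =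
        1 / a ^ 2 - 1 / b ^ 2 - 2 * (b - a) / b ^ 3 := by
      field_simp
      ring
    rw [e0, e1, e2]
    refine ⟨sub_nonpos.2 (by gcongr), ?_⟩
    have e3 : s ^ 2 / a ^ 3 = 1 / a ^ 2 - 2 / a ^ 3 * σ / 2 := by
      have : s ^ 2 = a - σ := by linarith
      rw [this]
      field_simp
    have h1 : 1 / b ^ 2 ≤ 1 / R ^ 2 := by
      gcongr
      nlinarith [sq_nonneg s]
    have h2 : 2 * (b - a) / b ^ 3 ≤ 2 * (1 / b ^ 2) := by
      rw [div_le_iff₀ (by positivity)]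
      have : 2 * (1 / b ^ 2) * b ^ 3 = 2 * b := by field_simp
      rw [this]
      linarith
    have h3 : 0 ≤ 2 / b ^ 3 * σ / 2 := by positivity
    have e4 : 3 / R ^ 2 = 3 * (1 / R ^ 2) := by ring
    rw [e3, e4]
    nlinarith

theorem lelb_aux_wedge {ι : Type} [Fintype ι] (x : ι → ℂ) (M : ι → ι → ℂ)
    (hM : ∀ a b, M a b = -M b a) :
    2 * ∑ a, ‖∑ c, conj (x c) * M c a‖ ^ 2 ≤ (∑ a, ‖x a‖ ^ 2) * ∑ a, ∑ b, ‖M a b‖ ^ 2 := by
  set w : ι → ℂ := fun a => ∑ c, conj (x c) * M c a with hw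
  set N := ∑ a, ‖w a‖ ^ 2 with hN
  set ρ := ∑ a, ‖x a‖ ^ 2 with hρ
  set D := ∑ a, ∑ b, ‖M a b‖ ^ 2 with hD
  have N0 : 0 ≤ N := Finset.sum_nonneg fun _ _ => sq_nonneg _
  have ρ0 : 0 ≤ ρ := Finset.sum_nonneg fun _ _ => sq_nonneg _
  have D0 : 0 ≤ D := Finset.sum_nonneg fun _ _ => Finset.sum_nonneg fun _ _ => sq_nonneg _
  have hNc : (N : ℂ) = ∑ a, conj (w a) * w a := by
    simp only [hN, Complex.ofReal_sum, Complex.conj_mul', Complex.ofReal_pow]
  have h1 : ∑ c, ∑ a, conj (x c * w a) * M c a = N := by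
    rw [hNc, Finset.sum_comm]
    refine Finset.sum_congr rfl fun a _ => ?_
    conv_rhs => rw [show w a = ∑ c, conj (x c) * M c a from rfl, Finset.mul_sum]
    exact Finset.sum_congr rfl fun c _ => by
      rw [map_mul]
      ring
  have h2 : ∑ c, ∑ a, conj (x a * w c) * M c a = -N := by
    rw [← h1, Finset.sum_comm, ← Finset.sum_neg_distrib]
    refine Finset.sum_congr rfl fun a _ => ?_
    rw [← Finset.sum_neg_distrib]
    exact Finset.sum_congr rfl fun c _ => by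
      rw [hM c a]
      ring
  have h3 : ∑ q : ι × ι, conj (x q.1 * w q.2 - x q.2 * w q.1) * M q.1 q.2 = ((2 * N : ℝ) : ℂ) := by
    simp only [Fintype.sum_prod_type, map_sub, sub_mul, Finset.sum_sub_distrib, h1, h2]
    push_cast
    ring
  have h4 : 2 * N ≤ ∑ q : ι × ι, ‖x q.1 * w q.2 - x q.2 * w q.1‖ * ‖M q.1 q.2‖ := by
    have := norm_sum_le Finset.univ
      (fun q : ι × ι => conj (x q.1 * w q.2 - x q.2 * w q.1) * M q.1 q.2)
    rw [h3, Complex.norm_real, Real.norm_of_nonneg (by positivity)] at this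
    simpa only [norm_mul, Complex.norm_conj] using this
  have h5 := Finset.sum_mul_sq_le_sq_mul_sq Finset.univ
    (fun q : ι × ι => ‖x q.1 * w q.2 - x q.2 * w q.1‖) (fun q : ι × ι => ‖M q.1 q.2‖)
  have h6 : ∑ q : ι × ι, ‖M q.1 q.2‖ ^ 2 = D := by rw [Fintype.sum_prod_type]
  have h7 : ∑ q : ι × ι, ‖x q.1 * w q.2 - x q.2 * w q.1‖ ^ 2 ≤ 2 * ρ * N := by
    have e : ∀ a b, ‖x a * w b - x b * w a‖ ^ 2 = ‖x a‖ ^ 2 * ‖w b‖ ^ 2 + ‖w a‖ ^ 2 * ‖x b‖ ^ 2 -
        2 * ((x a * conj (w a)) * conj (x b * conj (w b))).re := fun a b => by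
      simp only [Complex.sq_norm, Complex.normSq_apply, Complex.sub_re, Complex.sub_im,
        Complex.mul_re, Complex.mul_im, Complex.conj_re, Complex.conj_im]
      ring
    have e2 : ∑ a, ∑ b, ((x a * conj (w a)) * conj (x b * conj (w b))).re =
        ‖∑ a, x a * conj (w a)‖ ^ 2 := by
      have := congrArg Complex.re (Complex.mul_conj' (∑ a, x a * conj (w a)))
      rw [map_sum, Finset.sum_mul_sum] at this
      simp only [Complex.re_sum] at this
      rw [this, ← Complex.ofReal_pow, Complex.ofReal_re]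
    simp only [Fintype.sum_prod_type, e, Finset.sum_sub_distrib, Finset.sum_add_distrib,
      ← Finset.mul_sum, ← Finset.sum_mul, e2]
    nlinarith [sq_nonneg ‖∑ a, x a * conj (w a)‖]
  rw [h6] at h5
  have h8 : (2 * N) ^ 2 ≤ 2 * ρ * N * D :=
    ((pow_le_pow_left₀ (by positivity) h4 2).trans h5).trans (mul_le_mul_of_nonneg_right h7 D0)
  rcases N0.eq_or_lt with h | h
  · rw [← h, mul_zero]
    positivity
  · nlinarith

variable {m : ℕ}

theorem lelb_aux_crd_bas (a c : Fin 2 ⊕ Fin m) :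
    crd a (bas c : C2 × (Fin m → ℂ)) = if a = c then 1 else 0 := by
  rcases a with a | a <;> rcases c with c | c <;> simp [crd, bas, Pi.single_apply]

theorem lelb_aux_crd_le (a : Fin 2 ⊕ Fin m) (x : C2 × (Fin m → ℂ)) : ‖crd a x‖ ≤ ‖x‖ := by
  rcases a with a | a
  · exact (norm_le_pi_norm x.1 a).trans (norm_fst_le x)
  · exact (norm_le_pi_norm x.2 a).trans (norm_snd_le x)

/-- The square of the Euclidean distance to `p`. -/
noncomputable def lelb_aux_rho (p x : C2 × (Fin m → ℂ)) : ℝ := ∑ a, ‖crd a (x - p)‖ ^ 2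

theorem lelb_aux_rho_nonneg (p x : C2 × (Fin m → ℂ)) : 0 ≤ lelb_aux_rho p x :=
  Finset.sum_nonneg fun _ _ => sq_nonneg _

theorem lelb_aux_rho_le (p x : C2 × (Fin m → ℂ)) :
    lelb_aux_rho p x ≤ (m + 2) * ‖x - p‖ ^ 2 := by
  have h := Finset.sum_le_card_nsmul Finset.univ (fun a => ‖crd a (x - p)‖ ^ 2) (‖x - p‖ ^ 2)
    fun a _ => pow_le_pow_left₀ (norm_nonneg _) (lelb_aux_crd_le a _) 2
  refine h.trans (le_of_eq ?_)
  simp [add_comm]

theorem lelb_aux_le_rho (p x : C2 × (Fin m → ℂ)) {r : ℝ} (hr : 0 ≤ r)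
    (h : lelb_aux_rho p x ≤ r ^ 2) : ‖x - p‖ ≤ r := by
  have h1 : ∀ a, ‖crd a (x - p)‖ ≤ r := fun a =>
    (pow_le_pow_iff_left₀ (norm_nonneg _) hr two_ne_zero).1
      ((Finset.single_le_sum (f := fun a => ‖crd a (x - p)‖ ^ 2) (fun _ _ => sq_nonneg _)
        (Finset.mem_univ a)).trans h)
  rw [Prod.norm_def, max_le_iff, pi_norm_le_iff_of_nonneg hr, pi_norm_le_iff_of_nonneg hr]
  exact ⟨fun i => h1 (Sum.inl i), fun i => h1 (Sum.inr i)⟩

theorem lelb_aux_crd_hol (p : C2 × (Fin m → ℂ)) (a : Fin 2 ⊕ Fin m) :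
    ContDiff ℂ 1 (fun x => crd a (x - p)) ∧
      ∀ y u, fderiv ℂ (fun x => crd a (x - p)) y u = crd a u := by
  obtain ⟨ξ, hξ⟩ := exists_crd_clm (m := m) a
  simp only [← hξ]
  refine ⟨ξ.contDiff.comp (contDiff_id.sub contDiff_const), fun y u => ?_⟩
  have h := (ξ.hasFDerivAt.comp y ((hasFDerivAt_id y).sub_const p)).fderiv
  exact (congrArg (fun L => L u) h).trans rfl

theorem lelb_aux_crd_real (p : C2 × (Fin m → ℂ)) (a : Fin 2 ⊕ Fin m) :
    ContDiff ℝ 1 (fun x => crd a (x - p)) :=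
  (lelb_aux_crd_hol p a).1.restrict_scalars ℝ

theorem lelb_aux_rho_contDiff (p : C2 × (Fin m → ℂ)) : ContDiff ℝ 1 (lelb_aux_rho p) :=
  ContDiff.sum fun a _ => (lelb_aux_crd_real p a).norm_sq ℂ

theorem lelb_aux_dH_crd (p y : C2 × (Fin m → ℂ)) (a c : Fin 2 ⊕ Fin m) :
    dH (fun x => crd a (x - p)) y (bas c) = if a = c then 1 else 0 := by
  rw [dH_hol ((lelb_aux_crd_hol p a).1.differentiable one_ne_zero y), (lelb_aux_crd_hol p a).2,
    lelb_aux_crd_bas]

theorem lelb_aux_dH_rho (p y : C2 × (Fin m → ℂ)) (c : Fin 2 ⊕ Fin m) :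
    dH (fun x => ((lelb_aux_rho p x : ℝ) : ℂ)) y (bas c) = conj (crd c (y - p)) := by
  have e : (fun x => ((lelb_aux_rho p x : ℝ) : ℂ)) =
      fun x => ∑ a, crd a (x - p) * conj (crd a (x - p)) := by
    funext x
    simp only [lelb_aux_rho, Complex.ofReal_sum, Complex.mul_conj', Complex.ofReal_pow]
  have d1 : ∀ a, DifferentiableAt ℝ (fun x => crd a (x - p)) y := fun a =>
    (lelb_aux_crd_real p a).differentiable one_ne_zero y
  have d2 : ∀ a, DifferentiableAt ℝ (fun x => conj (crd a (x - p))) y := fun a =>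
    Complex.conjCLE.differentiableAt.comp y (d1 a)
  rw [e, dH_sum Finset.univ (f := fun a x => crd a (x - p) * conj (crd a (x - p)))
    (fun a _ => (d1 a).mul (d2 a))]
  have e2 : ∀ a, dH (fun x => crd a (x - p) * conj (crd a (x - p))) y (bas c) =
      if a = c then conj (crd a (y - p)) else 0 := fun a => by
    rw [dH_mul (d1 a) (d2 a), dH_conj,
      dA_hol ((lelb_aux_crd_hol p a).1.differentiable one_ne_zero y), lelb_aux_dH_crd]
    split_ifs <;> simp
  simp only [e2, Finset.sum_ite_eq', Finset.mem_univ, if_true]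

theorem lelb_aux_stokes {Z W : Set (C2 × (Fin m → ℂ))} {O : Set C2} {g : C2 → Fin m → ℂ}
    (hG : GS Z W O g) (p : C2 × (Fin m → ℂ)) {r : ℝ} (hr : 0 ≤ r) (hW : closedBall p r ⊆ W)
    {κ : ℝ → ℝ} (hκ : ∀ σ, 0 ≤ σ → ContDiffAt ℝ 1 κ σ) (h0 : ∀ σ, r ^ 2 ≤ σ → κ σ = 0) :
    IntegrableOn (fun t => κ (lelb_aux_rho p (t, g t)) * vd g t +
      deriv κ (lelb_aux_rho p (t, g t)) *
        ∑ a, ‖∑ c, conj (crd c ((t, g t) - p)) * minor g t c a‖ ^ 2) O ∧
    ∫ t in O, (κ (lelb_aux_rho p (t, g t)) * vd g t + deriv κ (lelb_aux_rho p (t, g t)) *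
        ∑ a, ‖∑ c, conj (crd c ((t, g t) - p)) * minor g t c a‖ ^ 2) = 0 := by
  let b : Fin 2 ⊕ Fin m → C2 × (Fin m → ℂ) → ℂ :=
    fun a' x => ((κ (lelb_aux_rho p x) : ℝ) : ℂ) * crd a' (x - p)
  have k1 : ContDiff ℝ 1 fun x => ((κ (lelb_aux_rho p x) : ℝ) : ℂ) :=
    Complex.ofRealCLM.contDiff.comp (contDiff_iff_contDiffAt.2 fun x =>
      (hκ _ (lelb_aux_rho_nonneg p x)).comp x (lelb_aux_rho_contDiff p).contDiffAt)
  have b1 : ∀ a', ContDiff ℝ 1 (b a') := fun a' => k1.mul (lelb_aux_crd_real p a')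
  have b2 : ∀ a', tsupport (b a') ⊆ closedBall p r := fun a' =>
    closure_minimal (fun x hx => by
      by_contra hx'
      rcases le_total (lelb_aux_rho p x) (r ^ 2) with h | h
      · exact hx' (mem_closedBall_iff_norm.2 (lelb_aux_le_rho p x hr h))
      · exact hx (by simp only [b, h0 _ h, Complex.ofReal_zero, zero_mul])) isClosed_closedBall
  have b3 : ∀ a', HasCompactSupport (b a') := fun a' =>
    (isCompact_closedBall p r).of_isClosed_subset (isClosed_tsupport _) (b2 a')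
  have b4 : ∀ a' c y, dH (b a') y (bas c) =
      ((deriv κ (lelb_aux_rho p y) : ℝ) : ℂ) * conj (crd c (y - p)) * crd a' (y - p) +
        ((κ (lelb_aux_rho p y) : ℝ) : ℂ) * if a' = c then 1 else 0 := fun a' c y => by
    rw [dH_mul (k1.differentiable one_ne_zero y)
      ((lelb_aux_crd_real p a').differentiable one_ne_zero y),
      dH_real_comp ((hκ _ (lelb_aux_rho_nonneg p y)).differentiableAt one_ne_zero)
        ((lelb_aux_rho_contDiff p).differentiable one_ne_zero y), lelb_aux_dH_rho, lelb_aux_dH_crd]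
  have i1 : ∀ a' a c, IntegrableOn
      (fun t => dH (b a') (t, g t) (bas c) * minor g t c a * conj (minor g t a' a)) O :=
    fun a' a c => st2_int hG (c := fun x => dH (b a') x (bas c))
      (continuous_iff_continuousAt.2 fun x =>
        (contDiffAt_dH (n := 0) (b1 a').contDiffAt (by simp) (bas c)).continuousAt)
      ((b3 a').of_isClosed_subset (isClosed_tsupport _) (tsupport_dH _ _))
      ((tsupport_dH _ _).trans ((b2 a').trans hW)) c a a' a
  have e : ∀ t, ((κ (lelb_aux_rho p (t, g t)) * vd g t + deriv κ (lelb_aux_rho p (t, g t)) *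
        ∑ a, ‖∑ c, conj (crd c ((t, g t) - p)) * minor g t c a‖ ^ 2 : ℝ) : ℂ) =
      ∑ a', ∑ a, ∑ c, dH (b a') (t, g t) (bas c) * minor g t c a * conj (minor g t a' a) :=
    fun t => by
      simp only [b4, add_mul, Finset.sum_add_distrib, mul_ite, ite_mul, mul_one, mul_zero,
        zero_mul, Finset.sum_ite_eq, Finset.mem_univ, if_true]
      rw [add_comm]
      push_cast
      congr 1
      · rw [Finset.mul_sum, Finset.sum_comm]
        refine Finset.sum_congr rfl fun a _ => ?_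
        rw [← Complex.mul_conj', map_sum, Finset.sum_mul_sum, Finset.sum_comm, Finset.mul_sum]
        refine Finset.sum_congr rfl fun a' _ => ?_
        rw [Finset.mul_sum]
        refine Finset.sum_congr rfl fun c _ => ?_
        rw [map_mul, Complex.conj_conj]
        ring
      · simp only [vd, Complex.ofReal_sum, Complex.ofReal_pow, ← Complex.mul_conj',
          Finset.mul_sum, mul_assoc]
  have i2 : ∀ a' a, IntegrableOn
      (fun t => ∑ c, dH (b a') (t, g t) (bas c) * minor g t c a * conj (minor g t a' a)) O :=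
    fun a' a => integrable_finsetSum _ fun c _ => i1 a' a c
  have i3 : ∀ a', IntegrableOn
      (fun t => ∑ a, ∑ c, dH (b a') (t, g t) (bas c) * minor g t c a * conj (minor g t a' a)) O :=
    fun a' => integrable_finsetSum _ fun a _ => i2 a' a
  have i4 : IntegrableOn (fun t => ∑ a', ∑ a, ∑ c,
      dH (b a') (t, g t) (bas c) * minor g t c a * conj (minor g t a' a)) O :=
    integrable_finsetSum _ fun a' _ => i3 a'
  have z : ∫ t in O, ∑ a', ∑ a, ∑ c,
      dH (b a') (t, g t) (bas c) * minor g t c a * conj (minor g t a' a) = 0 := by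
    rw [integral_finsetSum _ fun a' _ => i3 a']
    refine Finset.sum_eq_zero fun a' _ => ?_
    rw [integral_finsetSum _ fun a _ => i2 a' a]
    refine Finset.sum_eq_zero fun a _ => ?_
    rw [integral_finsetSum _ fun c _ => i1 a' a c]
    exact st2 hG (b1 a') (b3 a') ((b2 a').trans hW) a a' a
  simp only [← e] at i4 z
  rw [integral_complex_ofReal, Complex.ofReal_eq_zero] at z
  refine ⟨?_, z⟩
  have := Integrable.re i4
  simp only [RCLike.re_to_complex, Complex.ofReal_re] at this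
  exact this

theorem lelong (m : ℕ) : ∃ c : ℝ, 0 < c ∧ ∀ (Z W : Set (C2 × (Fin m → ℂ))) (O : Set C2)
    (g : C2 → Fin m → ℂ), GS Z W O g → ∀ t₀ ∈ O, ∀ r : ℝ, 0 < r →
      closedBall (t₀, g t₀) r ⊆ W →
        ENNReal.ofReal (c * r ^ 4) ≤ gvol O g (ball (t₀, g t₀) r) := by
  obtain ⟨c, hc, hden⟩ := lel_density m
  refine ⟨c / (384 * (m + 2) ^ 4), by positivity, fun Z W O g hG t₀ ht₀ r hr hW => ?_⟩
  set p : C2 × (Fin m → ℂ) := (t₀, g t₀) with hp
  have hm : (2 : ℝ) ≤ m + 2 := by linarith [Nat.cast_nonneg (α := ℝ) m]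
  obtain ⟨s, hs1, hs0, hs2⟩ := ((hden O g hG.opO hG.hol t₀ ht₀).and
    (Ioo_mem_nhdsGT (show (0 : ℝ) < r / 2 / (m + 2) by positivity))).exists
  rw [lt_div_iff₀ (by positivity)] at hs2
  have hsr : s ≤ r := by nlinarith
  have hop : ∀ q : ℝ, MeasurableSet (O ∩ {t | (t, g t) ∈ ball p q}) := fun q =>
    ((continuousOn_id.prodMk hG.hol.continuousOn).isOpen_inter_preimage hG.opO
      isOpen_ball).measurableSet
  have hint : ∀ q ≤ r, IntegrableOn (vd g) (O ∩ {t | (t, g t) ∈ ball p q}) := fun q hq => by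
    refine ⟨((continuousOn_vd hG.opO hG.hol).mono inter_subset_left).aestronglyMeasurable
      (hop q), ?_⟩
    rw [hasFiniteIntegral_iff_ofReal (Eventually.of_forall fun t => vd_nonneg g t)]
    exact (gvol_mono O g ((ball_subset_ball hq).trans ball_subset_closedBall)).trans_lt
      (gvol_lt_top hG (isCompact_closedBall p r) hW)
  have hvol : ∀ q ≤ r, gvol O g (ball p q) =
      ENNReal.ofReal (∫ t in O ∩ {t | (t, g t) ∈ ball p q}, vd g t) := fun q hq =>
    (ofReal_integral_eq_lintegral_ofReal (hint q hq)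
      (Eventually.of_forall fun t => vd_nonneg g t)).symm
  rw [hvol s hsr, ENNReal.ofReal_le_ofReal_iff (integral_nonneg fun t => vd_nonneg g t)] at hs1
  rw [hvol r le_rfl]
  refine ENNReal.ofReal_le_ofReal ?_
  set S := s * (m + 2) with hS
  have hS0 : 0 < S := by positivity
  obtain ⟨κ, k1, k2, k3⟩ := lelb_aux_kappa (R := (r / 2) ^ 2) (by positivity) hS0
  obtain ⟨j1, j2⟩ := lelb_aux_stokes hG p (r := r / 2) (by positivity)
    ((closedBall_subset_closedBall (by linarith)).trans hW) k1 fun σ hσ => (k2 σ hσ).1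
  have hind : ∀ q ≤ r, IntegrableOn ((O ∩ {t | (t, g t) ∈ ball p q}).indicator (vd g)) O ∧
      ∫ t in O, (O ∩ {t | (t, g t) ∈ ball p q}).indicator (vd g) t =
        ∫ t in O ∩ {t | (t, g t) ∈ ball p q}, vd g t := fun q hq =>
    ⟨((integrable_indicator_iff (hop q)).2 (hint q hq)).integrableOn, by
      rw [setIntegral_indicator (hop q), ← inter_assoc, inter_self]⟩
  have key := setIntegral_mono_on ((hind s hsr).1.const_mul (1 / (8 * S ^ 4)))
    (j1.add ((hind r le_rfl).1.const_mul (3 / ((r / 2) ^ 2) ^ 2))) hG.opO.measurableSet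
    (fun t ht => by
      have v0 := vd_nonneg g t
      have ρ0 := lelb_aux_rho_nonneg p (t, g t)
      have ρ1 := lelb_aux_rho_le p (t, g t)
      have w := lelb_aux_wedge (fun c => crd c ((t, g t) - p)) (minor g t) fun a b => by
        simp only [minor]
        ring
      change 2 * _ ≤ lelb_aux_rho p (t, g t) * vd g t at w
      have hsmall : t ∈ O ∩ {t | (t, g t) ∈ ball p s} → lelb_aux_rho p (t, g t) ≤ S ^ 2 :=
        fun h => by
          have h1 : ‖(t, g t) - p‖ < s := mem_ball_iff_norm.1 h.2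
          have h2 : ‖(t, g t) - p‖ ^ 2 ≤ s ^ 2 := pow_le_pow_left₀ (norm_nonneg _) h1.le 2
          have h3 := mul_le_mul_of_nonneg_left h2 (show (0 : ℝ) ≤ m + 2 by positivity)
          have h4 : (m + 2) * s ^ 2 ≤ S ^ 2 := by
            rw [hS, mul_pow, mul_comm]
            gcongr
            nlinarith
          linarith
      have hS2 : S ^ 2 < (r / 2) ^ 2 := pow_lt_pow_left₀ hs2 hS0.le two_ne_zero
      simp only [Pi.add_apply]
      set σ := lelb_aux_rho p (t, g t) with hσ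
      set N := ∑ a, ‖∑ c, conj (crd c ((t, g t) - p)) * minor g t c a‖ ^ 2 with hN
      rcases le_total σ ((r / 2) ^ 2) with h | h
      · have h1 : t ∈ O ∩ {t | (t, g t) ∈ ball p r} :=
          ⟨ht, mem_ball_iff_norm.2 ((lelb_aux_le_rho p _ (by positivity) h).trans_lt
            (by linarith))⟩
        obtain ⟨h2, h3⟩ := k3 σ ρ0 h
        have h4 := mul_le_mul_of_nonneg_right h3 v0
        have h5 : deriv κ σ * (σ * vd g t) ≤ deriv κ σ * (2 * N) :=
          mul_le_mul_of_nonpos_left w h2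
        have h6 : 1 / (8 * S ^ 4) * (O ∩ {t | (t, g t) ∈ ball p s}).indicator (vd g) t ≤
            S ^ 2 / (σ + S ^ 2) ^ 3 * vd g t := by
          by_cases h7 : t ∈ O ∩ {t | (t, g t) ∈ ball p s}
          · rw [indicator_of_mem h7]
            refine mul_le_mul_of_nonneg_right ?_ v0
            have h8 : S ^ 2 / (S ^ 2 + S ^ 2) ^ 3 ≤ S ^ 2 / (σ + S ^ 2) ^ 3 := by
              have := hsmall h7
              gcongr
            refine le_trans (le_of_eq ?_) h8
            field_simp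
            ring
          · rw [indicator_of_notMem h7, mul_zero]
            positivity
        rw [indicator_of_mem h1]
        nlinarith
      · have h1 : t ∉ O ∩ {t | (t, g t) ∈ ball p s} := fun h1 => by linarith [hsmall h1]
        rw [indicator_of_notMem h1, (k2 σ h).1, (k2 σ h).2]
        have := indicator_nonneg (s := O ∩ {t | (t, g t) ∈ ball p r})
          (fun t _ => vd_nonneg g t) t
        simp only [mul_zero, zero_mul, zero_add]
        positivity)
  rw [integral_add' j1 ((hind r le_rfl).1.const_mul _), j2, zero_add, integral_const_mul,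
    integral_const_mul, (hind s hsr).2, (hind r le_rfl).2] at key
  have h1 : 1 / (8 * S ^ 4) * (c * s ^ 4) ≤
      3 / ((r / 2) ^ 2) ^ 2 * ∫ t in O ∩ {t | (t, g t) ∈ ball p r}, vd g t :=
    (mul_le_mul_of_nonneg_left hs1 (by positivity)).trans key
  rw [div_mul_eq_mul_div 3, le_div_iff₀ (by positivity)] at h1
  have e : 1 / (8 * S ^ 4) * (c * s ^ 4) * ((r / 2) ^ 2) ^ 2 =
      3 * (c / (384 * (m + 2) ^ 4) * r ^ 4) := by
    rw [hS]
    field_simp
    ring
  linarith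

end Pool.Agent.Lib.MP_823829_an
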