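import Pool.Agent.Lib.MP_823829_an.MB1
import Pool.Agent.Lib.MP_823829_an.Heart

/-! Graphs of meromorphic maps: restriction, gluing, pullback. -/

namespace Pool.Agent.Lib.MP_823829_an

open Set Metric Filter MeasureTheory
open scoped Topology ENNReal NNReal ContDiff ComplexConjugate

variable {X : Type*} [TopologicalSpace X] [T2Space X] [CompactSpace X] [Nonempty X] {m : ℕ}
  {a : Atl X m} {T : Type} [NormedAddCommGroup T] [NormedSpace ℂ T] [FiniteDimensional ℂ T]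

omit [T2Space X] [CompactSpace X] [Nonempty X] [FiniteDimensional ℂ T] in
theorem isOpen_reg (Γ : Set (T × X)) : IsOpen (reg a Γ) := by
  rw [isOpen_iff_mem_nhds]
  rintro t ⟨U, hU, ht, g, hg⟩
  exact mem_of_superset (hU.mem_nhds ht) fun s hs => ⟨U, hU, hs, g, hg⟩

omit [T2Space X] [CompactSpace X] [TopologicalSpace X] [NormedAddCommGroup T] [NormedSpace ℂ T]
  [FiniteDimensional ℂ T] in
theorem gf_eq {Γ : Set (T × X)} {t : T} {y : X} (h : ∀ x, (t, x) ∈ Γ ↔ x = y) : gf Γ t = y := by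
  have h1 : (t, gf Γ t) ∈ Γ :=
    Classical.epsilon_spec (p := fun x => (t, x) ∈ Γ) ⟨y, (h y).2 rfl⟩
  exact (h _).1 h1

omit [T2Space X] [CompactSpace X] [TopologicalSpace X] [NormedAddCommGroup T] [NormedSpace ℂ T]
  [FiniteDimensional ℂ T] in
theorem gf_congr {Γ Γ' : Set (T × X)} {t : T} (h : ∀ x, (t, x) ∈ Γ ↔ (t, x) ∈ Γ') :
    gf Γ t = gf Γ' t := by
  have h1 : (fun x => (t, x) ∈ Γ) = fun x => (t, x) ∈ Γ' := funext fun x => propext (h x)
  unfold gf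
  rw [h1]

omit [T2Space X] [CompactSpace X] [FiniteDimensional ℂ T] in
theorem graphOn_reg (Γ : Set (T × X)) : GraphOn a Γ (reg a Γ) (gf Γ) := by
  constructor
  · rintro t ⟨U, hU, ht, g, hg⟩
    refine (hg.1 t ht).congr ?_
    filter_upwards [hU.mem_nhds ht] with s hs
    exact (gf_eq (hg.2 s hs)).symm
  · rintro t ⟨U, hU, ht, g, hg⟩ x
    rw [gf_eq (hg.2 t ht)]
    exact hg.2 t ht x

omit [T2Space X] [CompactSpace X] [Nonempty X] [FiniteDimensional ℂ T] in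
theorem GraphOn.subset_reg {Γ : Set (T × X)} {U : Set T} {g : T → X} (h : GraphOn a Γ U g)
    (hU : IsOpen U) : U ⊆ reg a Γ := by
  exact fun t ht => ⟨U, hU, ht, g, h⟩

omit [T2Space X] [CompactSpace X] [Nonempty X] [FiniteDimensional ℂ T] in
theorem graphOn_of_agree {Γ : Set (T × X)} {U : Set T} {f : T → X} (h : Agree Γ (grf f) U)
    (hf : ∀ t ∈ U, HolAt a f t) : GraphOn a Γ U f := by
  exact ⟨hf, fun t ht x => h t ht x⟩

omit [T2Space X] [CompactSpace X] [Nonempty X] [FiniteDimensional ℂ T] in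
theorem GraphOn.agree {Γ : Set (T × X)} {U : Set T} {f : T → X} (h : GraphOn a Γ U f) :
    Agree Γ (grf f) U := by
  exact fun t ht x => h.2 t ht x

omit [T2Space X] [CompactSpace X] [FiniteDimensional ℂ T] in
theorem isOpen_regI (i : Fin a.n) (Γ : Set (T × X)) : IsOpen (regI a i Γ) := by
  exact (holAt_chart (isOpen_reg Γ) (graphOn_reg Γ).1 i).1

omit [T2Space X] [CompactSpace X] [FiniteDimensional ℂ T] in
theorem differentiableOn_regI (i : Fin a.n) (Γ : Set (T × X)) :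
    DifferentiableOn ℂ (a.e i ∘ gf Γ) (regI a i Γ) := by
  exact (holAt_chart (isOpen_reg Γ) (graphOn_reg Γ).1 i).2

omit [T2Space X] [CompactSpace X] [Nonempty X] [FiniteDimensional ℂ T] in
theorem reg_congr {Γ Γ' : Set (T × X)} {U : Set T} (hU : IsOpen U) (h : Agree Γ Γ' U) :
    ∀ t ∈ U, t ∈ reg a Γ ↔ t ∈ reg a Γ' := by
  intro t ht
  constructor
  · rintro ⟨V, hV, htV, g, hg⟩
    exact ⟨V ∩ U, hV.inter hU, ⟨htV, ht⟩, g, fun s hs => hg.1 s hs.1,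
      fun s hs x => (h s hs.2 x).symm.trans (hg.2 s hs.1 x)⟩
  · rintro ⟨V, hV, htV, g, hg⟩
    exact ⟨V ∩ U, hV.inter hU, ⟨htV, ht⟩, g, fun s hs => hg.1 s hs.1,
      fun s hs x => (h s hs.2 x).trans (hg.2 s hs.1 x)⟩

omit [T2Space X] [CompactSpace X] [Nonempty X] [FiniteDimensional ℂ T] in
theorem reg_subset {Γ : Set (T × X)} {D : Set T} (h : ∀ p ∈ Γ, p.1 ∈ D) : reg a Γ ⊆ D := by
  rintro t ⟨U, -, ht, g, hg⟩
  exact h (t, g t) ((hg.2 t ht _).2 rfl)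

omit [T2Space X] [CompactSpace X] [Nonempty X] in
theorem MG.restrict {D U : Set T} {Γ : Set (T × X)} (h : MG a D Γ) (hU : IsOpen U) (hs : U ⊆ D) :
    MG a U (res Γ U) := by
  have hag : Agree Γ (res Γ U) U := fun t ht x => ⟨fun hx => ⟨hx, ht⟩, fun hx => hx.1⟩
  have hreg : U ∩ reg a Γ ⊆ reg a (res Γ U) := fun t ht => (reg_congr hU hag t ht.1).1 ht.2
  refine ⟨hU, h.an.restrict hU hs, fun t ht => ?_, fun p hp => ?_⟩
  · exact closure_mono hreg (hU.inter_closure ⟨ht, h.dense (hs ht)⟩)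
  · have h1 : p ∈ closure (Prod.fst ⁻¹' U ∩ (Γ ∩ Prod.fst ⁻¹' reg a Γ)) :=
      (hU.preimage continuous_fst).inter_closure ⟨hp.2, h.cl hp.1⟩
    refine closure_mono ?_ h1
    rintro q ⟨hq1, hq2, hq3⟩
    exact ⟨⟨hq2, hq1⟩, hreg ⟨hq1, hq3⟩⟩

omit [T2Space X] [CompactSpace X] [Nonempty X] in
theorem MG.of_local {D : Set T} {Γ : Set (T × X)} (hs : ∀ p ∈ Γ, p.1 ∈ D)
    (h : ∀ t ∈ D, ∃ (U : Set T) (Γ' : Set (T × X)), t ∈ U ∧ U ⊆ D ∧ MG a U Γ' ∧ Agree Γ Γ' U) :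
    MG a D Γ := by
  refine ⟨?_, ⟨hs, fun p hp => ?_⟩, fun t ht => ?_, fun p hp => ?_⟩
  · rw [isOpen_iff_mem_nhds]
    intro t ht
    obtain ⟨U, Γ', htU, hUD, hm, -⟩ := h t ht
    exact mem_of_superset (hm.op.mem_nhds htU) hUD
  · obtain ⟨U, Γ', htU, hUD, hm, hag⟩ := h p.1 hp
    refine (hm.an.2 p htU).congr ?_
    filter_upwards [(hm.op.preimage continuous_fst).mem_nhds htU] with q hq
    exact (hag q.1 hq q.2).symm
  · obtain ⟨U, Γ', htU, hUD, hm, hag⟩ := h t ht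
    refine closure_mono ?_ (hm.op.inter_closure ⟨htU, hm.dense htU⟩)
    rintro s ⟨hs1, hs2⟩
    exact (reg_congr hm.op hag s hs1).2 hs2
  · obtain ⟨U, Γ', htU, hUD, hm, hag⟩ := h p.1 (hs p hp)
    refine closure_mono ?_ (hm.cl ((hag p.1 htU p.2).1 hp))
    rintro q ⟨hq1, hq2⟩
    have hqU : q.1 ∈ U := hm.an.1 q hq1
    exact ⟨(hag q.1 hqU q.2).2 hq1, (reg_congr hm.op hag q.1 hqU).2 hq2⟩

omit [T2Space X] [CompactSpace X] [Nonempty X] in
theorem mg_glue {ι : Type*} {D : ι → Set T} {Γ : ι → Set (T × X)} (h : ∀ i, MG a (D i) (Γ i))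
    (hc : ∀ i j, Agree (Γ i) (Γ j) (D i ∩ D j)) :
    MG a (⋃ i, D i) (⋃ i, Γ i) ∧ ∀ i, Agree (⋃ i, Γ i) (Γ i) (D i) := by
  have hag : ∀ i, Agree (⋃ i, Γ i) (Γ i) (D i) := by
    intro i t ht x
    constructor
    · intro hx
      obtain ⟨j, hj⟩ := mem_iUnion.1 hx
      exact (hc j i t ⟨(h j).an.1 _ hj, ht⟩ x).1 hj
    · intro hx
      exact mem_iUnion.2 ⟨i, hx⟩
  refine ⟨MG.of_local (fun p hp => ?_) (fun t ht => ?_), hag⟩
  · obtain ⟨j, hj⟩ := mem_iUnion.1 hp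
    exact mem_iUnion.2 ⟨j, (h j).an.1 _ hj⟩
  · obtain ⟨j, hj⟩ := mem_iUnion.1 ht
    exact ⟨D j, Γ j, hj, subset_iUnion D j, h j, hag j⟩

omit [T2Space X] [CompactSpace X] [Nonempty X] in
theorem MG.union {D₁ D₂ : Set T} {Γ₁ Γ₂ : Set (T × X)} (h₁ : MG a D₁ Γ₁) (h₂ : MG a D₂ Γ₂)
    (hc : Agree Γ₁ Γ₂ (D₁ ∩ D₂)) :
    MG a (D₁ ∪ D₂) (Γ₁ ∪ Γ₂) ∧ Agree (Γ₁ ∪ Γ₂) Γ₁ D₁ ∧ Agree (Γ₁ ∪ Γ₂) Γ₂ D₂ := by
  have hag₁ : Agree (Γ₁ ∪ Γ₂) Γ₁ D₁ := by
    intro t ht x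
    refine ⟨fun hx => ?_, fun hx => Or.inl hx⟩
    rcases hx with hx | hx
    · exact hx
    · exact (hc t ⟨ht, h₂.an.1 _ hx⟩ x).2 hx
  have hag₂ : Agree (Γ₁ ∪ Γ₂) Γ₂ D₂ := by
    intro t ht x
    refine ⟨fun hx => ?_, fun hx => Or.inr hx⟩
    rcases hx with hx | hx
    · exact (hc t ⟨h₁.an.1 _ hx, ht⟩ x).1 hx
    · exact hx
  refine ⟨MG.of_local (fun p hp => ?_) (fun t ht => ?_), hag₁, hag₂⟩
  · rcases hp with hp | hp
    · exact Or.inl (h₁.an.1 _ hp)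
    · exact Or.inr (h₂.an.1 _ hp)
  · rcases ht with ht | ht
    · exact ⟨D₁, Γ₁, ht, subset_union_left, h₁, hag₁⟩
    · exact ⟨D₂, Γ₂, ht, subset_union_right, h₂, hag₂⟩

omit [CompactSpace X] [Nonempty X] in
theorem mg_graph {D : Set T} (hD : IsOpen D) {f : T → X} (hf : ∀ t ∈ D, HolAt a f t) :
    MG a D (res (grf f) D) := by
  have hg : GraphOn a (res (grf f) D) D f :=
    ⟨hf, fun t ht x => ⟨fun hx => hx.1, fun hx => ⟨hx, ht⟩⟩⟩
  have hreg : D ⊆ reg a (res (grf f) D) := hg.subset_reg hD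
  refine ⟨hD, ⟨fun p hp => hp.2, fun p hp => ?_⟩, hreg.trans subset_closure,
    fun p hp => subset_closure ⟨hp, hreg hp.2⟩⟩
  have h1 : AnX a (grf f) p := by
    refine anX_grf ?_
    filter_upwards [hD.mem_nhds hp] with t ht using hf t ht
  refine h1.congr ?_
  filter_upwards [(hD.preimage continuous_fst).mem_nhds hp] with q hq
  exact ⟨fun hx => ⟨hx, hq⟩, fun hx => hx.1⟩

omit [T2Space X] [CompactSpace X] [Nonempty X] in
theorem MG.pull {T' : Type} [NormedAddCommGroup T'] [NormedSpace ℂ T'] [FiniteDimensional ℂ T']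
    {D : Set T} {Γ : Set (T × X)} (h : MG a D Γ) (Φ : T' ≃L[ℂ] T) :
    MG a (Φ ⁻¹' D) {q : T' × X | (Φ q.1, q.2) ∈ Γ} := by
  have hreg : Φ ⁻¹' reg a Γ ⊆ reg a {q : T' × X | (Φ q.1, q.2) ∈ Γ} := by
    rintro t ⟨U, hU, ht, g, hg⟩
    refine ⟨Φ ⁻¹' U, hU.preimage Φ.continuous, ht, fun s => g (Φ s), fun s hs => ?_,
      fun s hs x => hg.2 (Φ s) hs x⟩
    exact (hg.1 (Φ s) hs).comp Φ.differentiableAt
  refine ⟨h.op.preimage Φ.continuous, ⟨fun p hp => h.an.1 (Φ p.1, p.2) hp, fun p hp => ?_⟩,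
    fun t ht => ?_, fun p hp => ?_⟩
  · exact AnX.pull (Φ := fun t => Φ t) (h.an.2 (Φ p.1, p.2) hp)
      (Eventually.of_forall fun t => Φ.differentiableAt)
  · have h1 : t ∈ Φ.toHomeomorph ⁻¹' closure (reg a Γ) := h.dense ht
    rw [Homeomorph.preimage_closure] at h1
    exact closure_mono hreg h1
  · have h1 : p ∈ (Φ.toHomeomorph.prodCongr (Homeomorph.refl X)) ⁻¹'
        closure (Γ ∩ Prod.fst ⁻¹' reg a Γ) := h.cl hp
    rw [Homeomorph.preimage_closure] at h1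
    refine closure_mono ?_ h1
    rintro q ⟨hq1, hq2⟩
    exact ⟨hq1, hreg hq2⟩

omit [T2Space X] [Nonempty X] in
theorem MG.fibre_nonempty {D : Set T} {Γ : Set (T × X)} (h : MG a D Γ) {t : T} (ht : t ∈ D) :
    ∃ x, (t, x) ∈ Γ := by
  by_contra hne
  have h1 := h.an.tube ht isOpen_empty (fun x hx => (hne ⟨x, hx⟩).elim)
  obtain ⟨s, hs1, U, -, hsU, g, hg⟩ :=
    (mem_closure_iff_nhds.1 (h.dense ht)) _ h1
  exact hs1 (g s) ((hg.2 s hsU _).2 rfl)

omit [T2Space X] [CompactSpace X] [Nonempty X] [FiniteDimensional ℂ T] in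
theorem heart_iff {Γ : Set (T × X)} {p : T × X} (i : Fin a.n) (hi : p.2 ∈ (a.e i).source) :
    Heart a Γ p ↔ HeartE (cs a i Γ) (p.1, a.e i p.2) := by
  constructor
  · rintro ⟨U, N, g, hU, hN, hp1, hp2, hg, hm, hgr⟩
    obtain ⟨ho, hd⟩ := holAt_chart hU hg i
    refine ⟨U ∩ g ⁻¹' (a.e i).source, (a.e i).target ∩ (a.e i).symm ⁻¹' N, a.e i ∘ g, ho,
      (a.e i).isOpen_inter_preimage_symm hN, ⟨hp1, ?_⟩, ?_, hd, fun t ht => ⟨?_, ?_⟩,
      fun t ht y hy => ?_⟩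
    · show g p.1 ∈ (a.e i).source
      rw [← hp2]
      exact hi
    · show a.e i p.2 = a.e i (g p.1)
      rw [← hp2]
    · exact (a.e i).map_source ht.2
    · show (a.e i).symm (a.e i (g t)) ∈ N
      rw [(a.e i).left_inv ht.2]
      exact hm ht.1
    · constructor
      · intro hz
        have h1 : (a.e i).symm y = g t := (hgr t ht.1 _ hy.2).1 hz.2
        show y = a.e i (g t)
        rw [← h1, (a.e i).right_inv hy.1]
      · intro hz
        refine ⟨hy.1, (hgr t ht.1 _ hy.2).2 ?_⟩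
        show (a.e i).symm y = g t
        rw [hz]
        exact (a.e i).left_inv ht.2
  · rintro ⟨U, N, g, hU, hN, hp1, hp2, hg, hm, hgr⟩
    have hp2' : a.e i p.2 = g p.1 := hp2
    refine ⟨U ∩ g ⁻¹' (a.e i).target, (a.e i).source ∩ a.e i ⁻¹' N,
      fun t => (a.e i).symm (g t),
      hg.continuousOn.isOpen_inter_preimage hU (a.e i).open_target,
      (a.e i).isOpen_inter_preimage hN, ⟨hp1, ?_⟩, ?_, fun t ht => ?_, fun t ht => ⟨?_, ?_⟩,
      fun t ht x hx => ?_⟩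
    · show g p.1 ∈ (a.e i).target
      rw [← hp2']
      exact (a.e i).map_source hi
    · show p.2 = (a.e i).symm (g p.1)
      rw [← hp2', (a.e i).left_inv hi]
    · exact holAt_symm i (hg.differentiableAt (hU.mem_nhds ht.1)) ht.2
    · exact (a.e i).map_target ht.2
    · show a.e i ((a.e i).symm (g t)) ∈ N
      rw [(a.e i).right_inv ht.2]
      exact hm ht.1
    · rw [← mem_cs (a := a) (i := i) hx.1, hgr t ht.1 _ hx.2]
      constructor
      · intro hz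
        show x = (a.e i).symm (g t)
        rw [← hz, (a.e i).left_inv hx.1]
      · intro hz
        have hz' : x = (a.e i).symm (g t) := hz
        rw [hz']
        exact (a.e i).right_inv ht.2

omit [T2Space X] [CompactSpace X] [Nonempty X] [FiniteDimensional ℂ T] in
theorem Heart.mem {Γ : Set (T × X)} {p : T × X} (h : Heart a Γ p) : p ∈ Γ := by
  obtain ⟨U, N, g, -, -, hp1, hp2, -, hm, hgr⟩ := h
  have h1 : p.2 ∈ N := by
    rw [hp2]
    exact hm hp1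
  exact (hgr p.1 hp1 p.2 h1).2 hp2

omit [T2Space X] [CompactSpace X] [Nonempty X] [FiniteDimensional ℂ T] in
theorem Heart.eventually {Γ : Set (T × X)} {p : T × X} (h : Heart a Γ p) :
    ∀ᶠ q in 𝓝 p, q ∈ Γ → Heart a Γ q := by
  obtain ⟨U, N, g, hU, hN, hp1, hp2, hg, hm, hgr⟩ := h
  have h1 : p.2 ∈ N := by
    rw [hp2]
    exact hm hp1
  filter_upwards [(hU.prod hN).mem_nhds (show p ∈ U ×ˢ N from ⟨hp1, h1⟩)] with q hq hqΓ
  exact ⟨U, N, g, hU, hN, hq.1, (hgr q.1 hq.1 q.2 hq.2).1 hqΓ, hg, hm, hgr⟩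

omit [T2Space X] [CompactSpace X] [Nonempty X] [FiniteDimensional ℂ T] in
theorem Heart.congr {Γ Γ' : Set (T × X)} {p : T × X} (h : Heart a Γ p)
    (he : ∀ᶠ q in 𝓝 p, q ∈ Γ ↔ q ∈ Γ') : Heart a Γ' p := by
  obtain ⟨U, N, g, hU, hN, hp1, hp2, hg, hm, hgr⟩ := h
  obtain ⟨U₀, N₀, hU₀, hp1', hN₀, hp2', hsub⟩ :=
    mem_nhds_prod_iff'.1 (show {q | q ∈ Γ ↔ q ∈ Γ'} ∈ 𝓝 (p.1, p.2) from he)
  have hc : ContinuousOn g U := fun t ht => (hg t ht).1.continuousWithinAt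
  refine ⟨(U ∩ g ⁻¹' N₀) ∩ U₀, N ∩ N₀, g, (hc.isOpen_inter_preimage hU hN₀).inter hU₀,
    hN.inter hN₀, ⟨⟨hp1, ?_⟩, hp1'⟩, hp2, fun t ht => hg t ht.1.1,
    fun t ht => ⟨hm ht.1.1, ht.1.2⟩, fun t ht x hx => ?_⟩
  · show g p.1 ∈ N₀
    rw [← hp2]
    exact hp2'
  · have h1 : (t, x) ∈ Γ ↔ (t, x) ∈ Γ' := hsub (show (t, x) ∈ U₀ ×ˢ N₀ from ⟨ht.2, hx.2⟩)
    exact h1.symm.trans (hgr t ht.1.1 x hx.1)

omit [T2Space X] [CompactSpace X] [Nonempty X] [FiniteDimensional ℂ T] in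
theorem heart_of_reg {Γ : Set (T × X)} {p : T × X} (hp : p ∈ Γ) (h : p.1 ∈ reg a Γ) :
    Heart a Γ p := by
  obtain ⟨U, hU, ht, g, hg⟩ := h
  exact ⟨U, univ, g, hU, isOpen_univ, ht, (hg.2 p.1 ht p.2).1 hp, hg.1, mapsTo_univ _ _,
    fun t ht x _ => hg.2 t ht x⟩

omit [T2Space X] [CompactSpace X] [Nonempty X] [FiniteDimensional ℂ T] in
theorem MG.heart_dense {D : Set T} {Γ : Set (T × X)} (h : MG a D Γ) :
    Γ ⊆ closure {p | Heart a Γ p} := by
  refine h.cl.trans (closure_mono ?_)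
  rintro p ⟨hp1, hp2⟩
  exact heart_of_reg hp1 hp2

omit [T2Space X] [CompactSpace X] [Nonempty X] in
theorem heart_anX {Γ : Set (T × X)} {p : T × X} (h : AnX a Γ p) :
    AnX a (closure {q | Heart a Γ q}) p := by
  intro i hi
  have he : cs a i {q | Heart a Γ q} = {q | HeartE (cs a i Γ) q} := by
    ext q
    constructor
    · rintro ⟨h1, h2⟩
      have h3 := (heart_iff (p := (q.1, (a.e i).symm q.2)) i ((a.e i).map_target h1)).1 h2
      simp only [(a.e i).right_inv h1] at h3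
      exact h3
    · intro h2
      have h1 : q.2 ∈ (a.e i).target := (HeartE.mem h2).1
      refine ⟨h1, (heart_iff (p := (q.1, (a.e i).symm q.2)) i ((a.e i).map_target h1)).2 ?_⟩
      simp only [(a.e i).right_inv h1]
      exact h2
  have h1 := heart_an (h i hi)
  rw [← he] at h1
  refine h1.congr ?_
  filter_upwards [((a.e i).open_target.preimage continuous_snd).mem_nhds
    (show (p.1, a.e i p.2) ∈ Prod.snd ⁻¹' (a.e i).target from (a.e i).map_source hi)] with q hq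
  rw [mem_closure_cs hq]
  exact ⟨fun h2 => ⟨hq, h2⟩, fun h2 => h2.2⟩

omit [T2Space X] [CompactSpace X] [Nonempty X] in
theorem split_diffX {D : Set T} {Γ Γ' : Set (T × X)} (h : AnOn a D Γ) (h' : AnOn a D Γ') :
    AnOn a D (res (closure (Γ \ Γ')) D) := by
  refine ⟨fun p hp => hp.2, fun p hp => ?_⟩
  have h0 : AnX a (closure (Γ \ Γ')) p := by
    intro i hi
    have he : cs a i (Γ \ Γ') = cs a i Γ \ cs a i Γ' := by
      ext q
      constructor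
      · rintro ⟨h1, h2, h3⟩
        exact ⟨⟨h1, h2⟩, fun h4 => h3 h4.2⟩
      · rintro ⟨⟨h1, h2⟩, h3⟩
        exact ⟨h1, h2, fun h4 => h3 ⟨h1, h4⟩⟩
    have h1 := split_diff (Z' := cs a i Γ') (h.2 p hp i hi)
      (fun x hx => h'.anAt i (h.1 (x.1, (a.e i).symm x.2) hx.2) hx.1)
    rw [← he] at h1
    refine h1.congr ?_
    filter_upwards [((a.e i).open_target.preimage continuous_snd).mem_nhds
      (show (p.1, a.e i p.2) ∈ Prod.snd ⁻¹' (a.e i).target from (a.e i).map_source hi)] with q hq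
    rw [mem_closure_cs hq]
    exact ⟨fun h2 => ⟨hq, h2⟩, fun h2 => h2.2⟩
  refine h0.congr ?_
  filter_upwards [(h.2 p hp).eventually] with q hq
  exact ⟨fun h2 => ⟨h2, h.1 q (hq.mem_of_closure (closure_mono sdiff_subset h2))⟩,
    fun h2 => h2.1⟩

end Pool.Agent.Lib.MP_823829_an
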