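import Pool.Agent.Lib.MP_823829_an.MThin

/-! The main component of an analytic set that is somewhere a graph. -/

namespace Pool.Agent.Lib.MP_823829_an

open Set Metric Filter MeasureTheory
open scoped Topology ENNReal NNReal ContDiff ComplexConjugate

variable {X : Type*} [TopologicalSpace X] [T2Space X] [CompactSpace X] [Nonempty X] {m : ℕ}
  {a : Atl X m} {T : Type} [NormedAddCommGroup T] [NormedSpace ℂ T] [FiniteDimensional ℂ T]
  [Nontrivial T] [MeasurableSpace T] [BorelSpace T]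

omit [Nontrivial T] [MeasurableSpace T] [BorelSpace T] in
/-- A limit of regular points over which all points are graph points is regular. -/
theorem mlemx_aux_closed {D : Set T} {Γ : Set (T × X)} (h : AnOn a D Γ) {t : T} (ht : t ∈ D)
    (hc : t ∈ closure (reg a Γ)) (hh : ∀ x, (t, x) ∈ Γ → Heart a Γ (t, x)) : t ∈ reg a Γ := by
  have hfr : ∃ᶠ t' in 𝓝 t, t' ∈ reg a Γ := mem_closure_iff_frequently.1 hc
  have hgr := (graphOn_reg (a := a) Γ).2
  have hne : ∃ x, (t, x) ∈ Γ := by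
    by_contra hn
    have h1 := h.tube ht isOpen_empty (fun x hx => (hn ⟨x, hx⟩).elim)
    obtain ⟨t', h2, h3⟩ := (hfr.and_eventually h1).exists
    exact h3 _ ((hgr t' h2 _).2 rfl)
  obtain ⟨x, hx⟩ := hne
  obtain ⟨U, N, g, hU, hN, htU, hxg, hhol, hmap, hiff⟩ := hh x hx
  have hxg' : x = g t := hxg
  have huniq : ∀ y, (t, y) ∈ Γ → y ∈ N := by
    intro y hy
    obtain ⟨U', N', g', hU', hN', htU', hyg, hhol', hmap', hiff'⟩ := hh y hy
    have hyg' : y = g' t := hyg
    by_cases he : g' t = g t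
    · rw [hyg', he]
      exact hmap htU
    exfalso
    have h1 : ContinuousAt (fun s => (g' s, g s)) t := (hhol' t htU').1.prodMk (hhol t htU).1
    have h2 : ∀ᶠ s in 𝓝 t, (g' s, g s) ∈ (diagonal X)ᶜ :=
      h1.preimage_mem_nhds (isClosed_diagonal.isOpen_compl.mem_nhds he)
    obtain ⟨s, h3, h4, h5, h6⟩ :=
      (hfr.and_eventually (h2.and ((hU.eventually_mem htU).and (hU'.eventually_mem htU')))).exists
    have h7 := (hgr s h3 _).1 ((hiff s h5 _ (hmap h5)).2 rfl)
    have h8 := (hgr s h3 _).1 ((hiff' s h6 _ (hmap' h6)).2 rfl)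
    exact h4 (h8.trans h7.symm)
  have h1 := (h.tube ht hN huniq).and (hU.eventually_mem htU)
  obtain ⟨V, hV, hVo, htV⟩ := _root_.eventually_nhds_iff.1 h1
  refine ⟨V, hVo, htV, g, fun s hs => hhol s (hV s hs).2, fun s hs y => ⟨fun hy => ?_, ?_⟩⟩
  · exact (hiff s (hV s hs).2 y ((hV s hs).1 y hy)).1 hy
  · rintro rfl
    exact (hiff s (hV s hs).2 _ (hmap (hV s hs).2)).2 rfl

omit [T2Space X] [CompactSpace X] [Nonempty X] [FiniteDimensional ℂ T] [Nontrivial T]
  [MeasurableSpace T] [BorelSpace T] in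
/-- A graph point over the closure of `O` is a limit of points over `O`. -/
theorem mlemx_aux_cl {Γ : Set (T × X)} {O : Set T} {p : T × X} (h : Heart a Γ p)
    (hc : p.1 ∈ closure O) : p ∈ closure (Γ ∩ Prod.fst ⁻¹' O) := by
  obtain ⟨U, N, g, hU, hN, htU, hxg, hhol, hmap, hiff⟩ := h
  have hfr : ∃ᶠ t' in 𝓝 p.1, t' ∈ O := mem_closure_iff_frequently.1 hc
  have h1 : ContinuousAt (fun s => (s, g s)) p.1 := continuousAt_id.prodMk (hhol _ htU).1
  have h2 : Tendsto (fun s => (s, g s)) (𝓝 p.1) (𝓝 p) := by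
    have h3 : p = (p.1, g p.1) := Prod.ext rfl hxg
    have h4 := h1.tendsto
    rwa [← h3] at h4
  refine mem_closure_of_frequently_of_tendsto ?_ h2
  refine (hfr.and_eventually (hU.eventually_mem htU)).mono fun s hs => ?_
  exact ⟨(hiff s hs.2 _ (hmap hs.2)).2 rfl, hs.1⟩

theorem lemX {D D₀ : Set T} {G : Set (T × X)} (hD : IsOpen D) (hc : IsPreconnected D)
    (h : AnOn a D G) (h₀ : IsOpen D₀) (hne : D₀.Nonempty) {g : T → X} (hg : GraphOn a G D₀ g) :
    ∃ G₁ : Set (T × X), MG a D G₁ ∧ G₁ ⊆ G ∧ Agree G₁ G (reg a G) := by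
  have hHG : ∀ p, Heart a G p → p ∈ res (closure {q | Heart a G q}) D := fun p hp =>
    ⟨subset_closure hp, h.1 p hp.mem⟩
  have hsub : res (closure {q | Heart a G q}) D ⊆ G := fun p hp =>
    (h.2 p hp.2).mem_of_closure (closure_mono (fun q hq => Heart.mem hq) hp.1)
  have hcl : res (closure {q | Heart a G q}) D ⊆ closure {q | Heart a G q} := inter_subset_left
  have han : AnOn a D (res (closure {q | Heart a G q}) D) := by
    refine ⟨fun p hp => hp.2, fun p hp => (heart_anX (h.2 p hp)).congr ?_⟩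
    filter_upwards [(hD.preimage continuous_fst).mem_nhds hp] with q hq
    exact ⟨fun h1 => ⟨h1, hq⟩, fun h1 => h1.1⟩
  generalize res (closure {q | Heart a G q}) D = G₁ at hHG hsub hcl han
  have hHH : ∀ p, Heart a G p → Heart a G₁ p := by
    intro p hp
    refine hp.congr ?_
    filter_upwards [hp.eventually] with q hq
    exact ⟨fun h1 => hHG q (hq h1), fun h1 => hsub h1⟩
  have hd : G₁ ⊆ closure {q | Heart a G₁ q} := hcl.trans (closure_mono fun q hq => hHH q hq)
  have hag : Agree G₁ G (reg a G) := fun t ht x =>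
    ⟨fun h1 => hsub h1, fun h1 => hHG _ (heart_of_reg h1 ht)⟩
  have hreg : reg a G ⊆ reg a G₁ := fun t ht => (reg_congr (isOpen_reg G) hag t ht).2 ht
  have hslim : Slim {t | ∃ x, (t, x) ∈ G₁ ∧ ¬ Heart a G₁ (t, x)} :=
    slim_of_null ((sf_nonheart han hd).null (by linarith))
  obtain ⟨hpc, hden⟩ := conn hD hc (isOpen_allheart hD han) (hslim.mono inter_subset_left)
  have hall : D \ {t | ∃ x, (t, x) ∈ G₁ ∧ ¬ Heart a G₁ (t, x)} ⊆ reg a G₁ := by
    refine hpc.subset_of_closure_inter_subset (isOpen_reg G₁) ?_ ?_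
    · obtain ⟨t₀, ht₀⟩ := hne
      have h1 : t₀ ∈ D := h.1 (t₀, g t₀) ((hg.2 t₀ ht₀ _).2 rfl)
      obtain ⟨s, hs0, hs1⟩ := mem_closure_iff.1 (hden h1) D₀ h₀ ht₀
      exact ⟨s, hs1, hreg (hg.subset_reg h₀ hs0)⟩
    · rintro t ⟨h1, h2, h3⟩
      refine mlemx_aux_closed han h2 h1 fun x hx => ?_
      by_contra h4
      exact h3 ⟨x, hx, h4⟩
  have hdense : D ⊆ closure (reg a G₁) := hden.trans (closure_mono hall)
  refine ⟨G₁, ⟨hD, han, hdense, hd.trans ?_⟩, hsub, hag⟩
  refine closure_minimal (fun p hp => ?_) isClosed_closure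
  exact mlemx_aux_cl hp (hdense (han.1 p (Heart.mem hp)))

end Pool.Agent.Lib.MP_823829_an
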