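import Pool.Agent.Lib.MP_823829_an.MB2
import Pool.Agent.Lib.MP_823829_an.T4

/-! Finite fibres of a meromorphic graph are regular. -/

namespace Pool.Agent.Lib.MP_823829_an

open Set Metric Filter MeasureTheory
open scoped Topology ENNReal NNReal ContDiff ComplexConjugate

variable {X : Type*} [TopologicalSpace X] [T2Space X] [CompactSpace X] [Nonempty X] {m : ℕ}
  {a : Atl X m} {T : Type} [NormedAddCommGroup T] [NormedSpace ℂ T] [FiniteDimensional ℂ T]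

omit [T2Space X] [CompactSpace X] [Nonempty X] in
theorem fb_chart {D : Set T} {Γ : Set (T × X)} (hD : IsOpen D) (h : AnOn a D Γ) {t : T}
    (ht : t ∈ D) {x : X} {i : Fin a.n} (hi : x ∈ (a.e i).source)
    (hiso : ∀ᶠ x' in 𝓝 x, (t, x') ∈ Γ → x' = x) {N : Set X} (hN : N ∈ 𝓝 x) :
    ∃ ρ : ℝ, 0 < ρ ∧ ∃ η₀ : ℝ, 0 < η₀ ∧ ball t η₀ ⊆ D ∧
      closedBall (a.e i x) ρ ⊆ (a.e i).target ∩ (a.e i).symm ⁻¹' N ∧ ∀ η : ℝ, η ≤ η₀ →
        FB (cs a i Γ ∩ ball t η ×ˢ ball (a.e i x) ρ)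
          (ContinuousLinearMap.fst ℂ T (Fin m → ℂ)) (ball t η) := by
  have htg : a.e i x ∈ (a.e i).target := (a.e i).map_source hi
  have hc : Tendsto (a.e i).symm (𝓝 (a.e i x)) (𝓝 x) := by
    have := (a.e i).continuousAt_symm htg
    rwa [ContinuousAt, (a.e i).left_inv hi] at this
  have hsnd : Tendsto (Prod.snd : T × (Fin m → ℂ) → (Fin m → ℂ)) (𝓝 (t, a.e i x))
      (𝓝 (a.e i x)) := continuous_snd.continuousAt
  have hI : Iso (cs a i Γ) (t, a.e i x) (ContinuousLinearMap.fst ℂ T (Fin m → ℂ)) := by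
    have h1 := hsnd.eventually (hc.eventually hiso)
    refine h1.mono fun q hq hqZ hq1 => ?_
    have e1 : q.1 = t := hq1
    have e2 : (a.e i).symm q.2 = x := hq (by rw [← e1]; exact hqZ.2)
    have e3 : q.2 = a.e i x := by rw [← e2, (a.e i).right_inv hqZ.1]
    exact Prod.ext e1 e3
  have hA : AnAt (cs a i Γ) (t, a.e i x) := h.anAt i ht htg
  have hN' : D ×ˢ ((a.e i).target ∩ (a.e i).symm ⁻¹' N) ∈ 𝓝 (t, a.e i x) :=
    prod_mem_nhds (hD.mem_nhds ht) (inter_mem ((a.e i).open_target.mem_nhds htg) (hc hN))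
  obtain ⟨ρ, hρ, η, hη, h1, h2, h3, -⟩ := hI.scale hA hN'
  refine ⟨ρ, hρ, min η ρ, lt_min hη hρ, ?_, ?_, ?_⟩
  · intro t' ht'
    have : (t', a.e i x) ∈ closedBall (t, a.e i x) ρ := by
      rw [← closedBall_prod_same]
      exact ⟨mem_closedBall.2 ((mem_ball.1 ht').le.trans (min_le_right _ _)),
        mem_closedBall_self hρ.le⟩
    exact (h1 this).1
  · intro y hy
    have : (t, y) ∈ closedBall (t, a.e i x) ρ := by
      rw [← closedBall_prod_same]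
      exact ⟨mem_closedBall_self hρ.le, hy⟩
    exact (h1 this).2
  · intro η' hη'
    have h4 := scale_fb h2 (h3.mono_left (side_mono _ _ ρ (hη'.trans (min_le_left _ _))))
    have hb : box (t, a.e i x) (ContinuousLinearMap.fst ℂ T (Fin m → ℂ)) ρ η' =
        ball t η' ×ˢ ball (a.e i x) ρ := by
      ext q
      rw [box, ← ball_prod_same]
      constructor
      · rintro ⟨⟨-, q2⟩, q3⟩
        exact ⟨q3, q2⟩
      · rintro ⟨q1, q2⟩
        exact ⟨⟨ball_subset_ball (hη'.trans (min_le_right _ _)) q1, q2⟩, q1⟩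
    rw [hb] at h4
    exact h4

omit [T2Space X] [Nonempty X] in
/-- Near a point with at most one point in the fibre, the set lies in one bounded chart piece. -/
theorem mmax_aux_single {D : Set T} {Γ : Set (T × X)} (hD : IsOpen D) (h : AnOn a D Γ) {t : T}
    (ht : t ∈ D) {x : X} (hx : ∀ x', (t, x') ∈ Γ → x' = x) :
    ∃ (i : Fin a.n) (ρ η : ℝ), 0 < η ∧
      FB (cs a i Γ ∩ ball t η ×ˢ ball (a.e i x) ρ)
        (ContinuousLinearMap.fst ℂ T (Fin m → ℂ)) (ball t η) ∧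
      ∀ t' ∈ ball t η, ∀ x', (t', x') ∈ Γ →
        x' ∈ (a.e i).source ∧ a.e i x' ∈ ball (a.e i x) ρ := by
  obtain ⟨i, hi⟩ := a.cov x
  obtain ⟨ρ, hρ, η₀, hη₀, -, -, h3⟩ := fb_chart hD h ht hi (Eventually.of_forall hx)
    (N := univ) univ_mem
  have hop : IsOpen ((a.e i).source ∩ a.e i ⁻¹' ball (a.e i x) ρ) :=
    (a.e i).isOpen_inter_preimage isOpen_ball
  have htb := h.tube ht hop fun x' hx' => by
    rw [hx x' hx']
    exact ⟨hi, mem_ball_self hρ⟩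
  obtain ⟨ε, hε, hb⟩ := Metric.eventually_nhds_iff_ball.1 htb
  refine ⟨i, ρ, min η₀ ε, lt_min hη₀ hε, h3 _ (min_le_left _ _), fun t' ht' x' hx' => ?_⟩
  exact hb t' (ball_subset_ball (min_le_right _ _) ht') x' hx'

omit [T2Space X] [CompactSpace X] [Nonempty X] [FiniteDimensional ℂ T] in
theorem mmax_aux_graph {Γ : Set (T × X)} {i : Fin a.n} {B U : Set T} {C : Set (Fin m → ℂ)}
    (hf : ∀ t' ∈ B, ∀ x', (t', x') ∈ Γ → x' ∈ (a.e i).source ∧ a.e i x' ∈ C)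
    (hU : IsOpen U) (hs : U ⊆ B) {g : T → Fin m → ℂ} (hg : DifferentiableOn ℂ g U)
    (he : ∀ t ∈ U, ∀ y, (t, y) ∈ cs a i Γ ∩ B ×ˢ C ↔ y = g t) :
    GraphOn a Γ U fun t => (a.e i).symm (g t) := by
  refine ⟨fun t ht => ?_, fun t ht x => ⟨fun hx => ?_, fun hx => ?_⟩⟩
  · exact holAt_symm i (hg.differentiableAt (hU.mem_nhds ht)) ((he t ht _).2 rfl).1.1
  · obtain ⟨h1, h2⟩ := hf t (hs ht) x hx
    have h3 : a.e i x = g t := (he t ht _).1 ⟨(mem_cs h1).2 hx, hs ht, h2⟩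
    show x = (a.e i).symm (g t)
    rw [← h3, (a.e i).left_inv h1]
  · rw [hx]
    exact ((he t ht _).2 rfl).1.2

omit [T2Space X] [CompactSpace X] [Nonempty X] [NormedAddCommGroup T] [NormedSpace ℂ T]
  [FiniteDimensional ℂ T] in
theorem mmax_aux_unique {Γ : Set (T × X)} {i : Fin a.n} {B : Set T} {C : Set (Fin m → ℂ)}
    (hf : ∀ t' ∈ B, ∀ x', (t', x') ∈ Γ → x' ∈ (a.e i).source ∧ a.e i x' ∈ C)
    {t : T} (ht : t ∈ B) (hu : ∃! x, (t, x) ∈ Γ) : ∃! y, (t, y) ∈ cs a i Γ ∩ B ×ˢ C := by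
  obtain ⟨x, hx, hu⟩ := hu
  obtain ⟨h1, h2⟩ := hf t ht x hx
  refine ⟨a.e i x, ⟨(mem_cs h1).2 hx, ht, h2⟩, fun y hy => ?_⟩
  have h3 : (a.e i).symm y = x := hu _ hy.1.2
  rw [← h3, (a.e i).right_inv hy.1.1]

omit [T2Space X] [CompactSpace X] in
/-- Every isolated point of a fibre spreads to all nearby fibres. -/
theorem mmax_aux_spread {D : Set T} {Γ : Set (T × X)} (h : MG a D Γ) {t : T} (ht : t ∈ D) {x : X}
    (hx : (t, x) ∈ Γ) (hiso : ∀ᶠ x' in 𝓝 x, (t, x') ∈ Γ → x' = x) {N : Set X} (hN : N ∈ 𝓝 x) :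
    ∀ᶠ t' in 𝓝 t, ∃ x' ∈ N, (t', x') ∈ Γ := by
  obtain ⟨i, hi⟩ := a.cov x
  obtain ⟨ρ, hρ, η, hη, -, h2, h3⟩ := fb_chart h.op h.an ht hi hiso hN
  have hfb := h3 η le_rfl
  have hop : IsOpen ((a.e i).source ∩ a.e i ⁻¹' ball (a.e i x) ρ) :=
    (a.e i).isOpen_inter_preimage isOpen_ball
  have hW : ball t η ×ˢ ((a.e i).source ∩ a.e i ⁻¹' ball (a.e i x) ρ) ∈ 𝓝 (t, x) :=
    prod_mem_nhds (ball_mem_nhds t hη) (hop.mem_nhds ⟨hi, mem_ball_self hρ⟩)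
  obtain ⟨⟨t₁, x₁⟩, ⟨hq1, hq2⟩, hq3, hq4⟩ := mem_closure_iff_nhds.1 (h.cl hx) _ hW
  have hq4' : t₁ ∈ reg a Γ := hq4
  have hG := graphOn_reg (a := a) Γ
  have hx₁ : x₁ = gf Γ t₁ := (hG.2 t₁ hq4' x₁).1 hq3
  have hev : ∀ᶠ s in 𝓝 t₁, s ∈ ball t η ∧ s ∈ reg a Γ ∧
      gf Γ s ∈ (a.e i).source ∩ a.e i ⁻¹' ball (a.e i x) ρ := by
    refine (isOpen_ball.eventually_mem hq1).and (((isOpen_reg Γ).eventually_mem hq4').and ?_)
    exact (hG.1 t₁ hq4').1.eventually_mem (hop.mem_nhds (hx₁ ▸ hq2))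
  obtain ⟨O, hO1, hO2, hO3⟩ := _root_.eventually_nhds_iff.1 hev
  have hsurj := hfb.surj (convex_ball t η).isPreconnected hO2 ⟨t₁, hO3⟩
    (fun s hs => (hO1 s hs).1) fun s hs => by
      obtain ⟨k1, k2, k3⟩ := hO1 s hs
      exact ⟨(s, a.e i (gf Γ s)), ⟨(mem_cs k3.1).2 ((hG.2 s k2 _).2 rfl), k1, k3.2⟩, rfl⟩
  filter_upwards [ball_mem_nhds t hη] with s hs
  obtain ⟨⟨s', y⟩, ⟨k1, -, k3⟩, k4⟩ := hsurj s hs
  have k5 : s' = s := k4
  subst k5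
  exact ⟨(a.e i).symm y, (h2 (ball_subset_closedBall k3)).2, k1.2⟩

theorem MG.maximal {D : Set T} {Γ : Set (T × X)} (h : MG a D Γ) {t : T} (ht : t ∈ D)
    (hf : {x | (t, x) ∈ Γ}.Finite) : t ∈ reg a Γ := by
  have hG := graphOn_reg (a := a) Γ
  have hiso : ∀ x, ∀ᶠ x' in 𝓝 x, (t, x') ∈ Γ → x' = x := by
    intro x
    have hcl : IsClosed ({x | (t, x) ∈ Γ} \ {x}) := (hf.subset sdiff_subset).isClosed
    filter_upwards [hcl.isOpen_compl.mem_nhds (show x ∈ ({x | (t, x) ∈ Γ} \ {x})ᶜ from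
      fun hx => hx.2 rfl)] with x' hx' h1
    by_contra h2
    exact hx' ⟨h1, h2⟩
  obtain ⟨x, hx⟩ := h.fibre_nonempty ht
  have huniq : ∀ x', (t, x') ∈ Γ → x' = x := by
    intro x' hx'
    by_contra hne
    obtain ⟨u, v, hu, hv, hxu, hxv, huv⟩ := t2_separation hne
    have h1 := mmax_aux_spread h ht hx' (hiso x') (hu.mem_nhds hxu)
    have h2 := mmax_aux_spread h ht hx (hiso x) (hv.mem_nhds hxv)
    obtain ⟨s, ⟨⟨y, hy1, hy2⟩, z, hz1, hz2⟩, hs⟩ :=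
      mem_closure_iff_nhds.1 (h.dense ht) _ (h1.and h2)
    have e1 : y = gf Γ s := (hG.2 s hs y).1 hy2
    have e2 : z = gf Γ s := (hG.2 s hs z).1 hz2
    exact disjoint_left.1 huv hy1 (by rw [e1, ← e2]; exact hz1)
  obtain ⟨i, ρ, η, hη, hfb, hB⟩ := mmax_aux_single h.op h.an ht huniq
  obtain ⟨ε, hε, hεD⟩ := Metric.isOpen_iff.1 h.op t ht
  have hle : ball t (min η ε) ⊆ ball t η := ball_subset_ball (min_le_left _ _)
  have hle' : ball t (min η ε) ⊆ D := (ball_subset_ball (min_le_right _ _)).trans hεD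
  have hfb' : FB (cs a i Γ ∩ ball t (min η ε) ×ˢ ball (a.e i x) ρ)
      (ContinuousLinearMap.fst ℂ T (Fin m → ℂ)) (ball t (min η ε)) := by
    have h1 := hfb.restrict isOpen_ball hle
    have he : (cs a i Γ ∩ ball t η ×ˢ ball (a.e i x) ρ) ∩
        (ContinuousLinearMap.fst ℂ T (Fin m → ℂ)) ⁻¹' ball t (min η ε) =
        cs a i Γ ∩ ball t (min η ε) ×ˢ ball (a.e i x) ρ := by
      ext q
      constructor
      · rintro ⟨⟨q1, -, q2⟩, q3⟩
        exact ⟨q1, q3, q2⟩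
      · rintro ⟨q1, q2, q3⟩
        exact ⟨⟨q1, hle q2, q3⟩, q2⟩
    rwa [he] at h1
  have hB' : ∀ t' ∈ ball t (min η ε), ∀ x', (t', x') ∈ Γ →
      x' ∈ (a.e i).source ∧ a.e i x' ∈ ball (a.e i x) ρ := fun t' ht' => hB t' (hle ht')
  obtain ⟨g, hg, he⟩ := ch (O := ball t (min η ε) ∩ reg a Γ) hfb'
    (convex_ball _ _).isPreconnected (isOpen_ball.inter (isOpen_reg Γ)) inter_subset_left
    (fun s hs => isOpen_ball.inter_closure ⟨hs, h.dense (hle' hs)⟩)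
    (fun s hs => mmax_aux_unique hB' hs.1
      ⟨gf Γ s, (hG.2 s hs.2 _).2 rfl, fun y hy => (hG.2 s hs.2 y).1 hy⟩)
    (by
      rintro q ⟨q1, q2⟩
      have h1 : q ∈ closure (cs a i (Γ ∩ Prod.fst ⁻¹' reg a Γ)) :=
        (mem_closure_cs q1.1).2 (h.cl q1.2)
      have h2 := (isOpen_ball.prod isOpen_ball).inter_closure ⟨q2, h1⟩
      refine closure_mono ?_ h2
      rintro r ⟨r1, r2, r3, r4⟩
      exact ⟨⟨⟨r2, r3⟩, r1⟩, r1.1, r4⟩)
  exact ⟨ball t (min η ε), isOpen_ball, mem_ball_self (lt_min hη hε), _,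
    mmax_aux_graph hB' isOpen_ball Subset.rfl hg he⟩

theorem MG.reg_of_chart {D B : Set T} {Γ : Set (T × X)} (h : MG a D Γ) (hB : IsOpen B)
    (hs : B ⊆ D) {i : Fin a.n} {K : Set (Fin m → ℂ)} (hK : IsCompact K)
    (hKt : K ⊆ (a.e i).target)
    (hf : ∀ t ∈ B, ∀ x, (t, x) ∈ Γ → x ∈ (a.e i).source ∧ a.e i x ∈ K) : B ⊆ reg a Γ := by
  intro t ht
  obtain ⟨r, hr, hrB⟩ := Metric.isOpen_iff.1 hB t ht
  have hsub : cs a i Γ ∩ Prod.fst ⁻¹' ball t r ⊆ ball t r ×ˢ K := by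
    rintro q ⟨q1, q2⟩
    refine ⟨q2, ?_⟩
    have := (hf q.1 (hrB q2) _ q1.2).2
    rwa [(a.e i).right_inv q1.1] at this
  have hfb : FB (cs a i Γ ∩ Prod.fst ⁻¹' ball t r) (ContinuousLinearMap.fst ℂ T (Fin m → ℂ))
      (ball t r) := by
    refine ⟨isOpen_ball, fun q hq => hq.2, (isBounded_ball.prod hK.isBounded).subset hsub,
      fun q hq => ?_⟩
    have hq' : q.1 ∈ ball t r := hq
    by_cases hqt : q.2 ∈ (a.e i).target
    · exact (h.an.anAt i (hs (hrB hq')) hqt).inter_nhds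
        ((isOpen_ball.preimage continuous_fst).mem_nhds hq')
    · refine anAt_of_notMem_closure fun hc => hqt (hKt ?_)
      have h1 : closure (cs a i Γ ∩ Prod.fst ⁻¹' ball t r) ⊆ Prod.snd ⁻¹' K :=
        closure_minimal (fun p hp => (hsub hp).2) (hK.isClosed.preimage continuous_snd)
      exact h1 hc
  have hfin := (t1 hfb).1 t (mem_ball_self hr)
  refine h.maximal (hs ht) ((hfin.image fun q => (a.e i).symm q.2).subset fun x hx => ?_)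
  have hx1 := (hf t ht x hx).1
  exact ⟨(t, a.e i x), ⟨⟨(mem_cs hx1).2 hx, mem_ball_self hr⟩, rfl⟩, (a.e i).left_inv hx1⟩

omit [Nonempty X] in
theorem graph_of_unique {D O : Set T} {Γ : Set (T × X)} (hD : IsOpen D) (h : AnOn a D Γ)
    (hO : IsOpen O) (hne : O.Nonempty) (hs : O ⊆ D) (hu : ∀ t ∈ O, ∃! x, (t, x) ∈ Γ) :
    ∃ (U : Set T) (g : T → X), IsOpen U ∧ U.Nonempty ∧ U ⊆ O ∧ GraphOn a Γ U g := by
  obtain ⟨t, ht⟩ := hne
  obtain ⟨x, -, hx⟩ := hu t ht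
  obtain ⟨i, ρ, η, hη, hfb, hB⟩ := mmax_aux_single hD h (hs ht) hx
  obtain ⟨U, g, hU, hUne, hUs, hg, he⟩ := ch_loc (O := ball t η ∩ O) hfb (isOpen_ball.inter hO)
    ⟨t, mem_ball_self hη, ht⟩ inter_subset_left fun s hs' => mmax_aux_unique hB hs'.1 (hu s hs'.2)
  exact ⟨U, _, hU, hUne, fun s hs' => (hUs hs').2,
    mmax_aux_graph hB hU (fun s hs' => (hUs hs').1) hg he⟩

end Pool.Agent.Lib.MP_823829_an
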