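import Pool.Agent.Lib.MP_823829_an.MThin
import Pool.Agent.Lib.MP_823829_an.Eil
import Pool.Agent.Lib.MP_823829_an.Key

/-! Outside a polar set of the base, almost every shell is regular. -/

namespace Pool.Agent.Lib.MP_823829_an

open Set Metric Filter MeasureTheory
open scoped Topology ENNReal NNReal ContDiff ComplexConjugate

variable {X : Type*} [TopologicalSpace X] [T2Space X] [CompactSpace X] [Nonempty X] {m : ℕ}
  {a : Atl X m}

theorem mshell_aux1 {S : Set (C4 × (Fin m → ℂ))} (h6 : SF (rd C4 - 2) S) {ν : Measure C2}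
    (hν : Kato ν) :
    ∀ᵐ z ∂ν, μH[4] (S ∩ (fun p : C4 × (Fin m → ℂ) => p.1.1) ⁻¹' {z}) = 0 := by
  have h6' : SF ((4 : ℝ) + 2) S := by
    have e : rd C4 - 2 = (4 : ℝ) + 2 := by rw [rd_C4]; norm_num
    rw [← e]; exact h6
  have hl : LipschitzWith 1 (fun p : C4 × (Fin m → ℂ) => p.1.1) := by
    have := (LipschitzWith.prod_fst (α := C2) (β := C2)).comp
      (LipschitzWith.prod_fst (α := C4) (β := Fin m → ℂ))
    simpa [Function.comp_def] using this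
  exact eil2 (by norm_num) (by norm_num) h6' hl.lipschitzOnWith ν
    (fun c hc => hν.ball_le c hc)

theorem mshell_aux2 {S : Set (C4 × (Fin m → ℂ))} (hS : LocAn S) {z : C2}
    (h4 : μH[4] (S ∩ (fun p : C4 × (Fin m → ℂ) => p.1.1) ⁻¹' {z}) = 0) :
    ∀ᵐ ρ : ℝ, μH[2] ((S ∩ (fun p : C4 × (Fin m → ℂ) => p.1.1) ⁻¹' {z}) ∩
      (fun p : C4 × (Fin m → ℂ) => ‖p.1.2‖) ⁻¹' {ρ}) = 0 := by
  have hla : LocAn (S ∩ (fun p : C4 × (Fin m → ℂ) => p.1.1) ⁻¹' {z}) := by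
    intro p hp
    refine (hS p hp.1).inter ?_
    exact anAt_eq (U := univ) (g := fun p : C4 × (Fin m → ℂ) => p.1.1) (g' := fun _ => z)
      isOpen_univ (mem_univ _) (by fun_prop) (differentiableOn_const _)
  have h2 : SF (2 * ((1 : ℕ) : ℝ)) (S ∩ (fun p : C4 × (Fin m → ℂ) => p.1.1) ⁻¹' {z}) := by
    refine dim_sf 1 hla ?_
    have e : 2 * ((1 : ℕ) : ℝ) + 2 = 4 := by norm_num
    rw [e]; exact h4
  have h3 : μH[(2 : ℝ) + 1] (S ∩ (fun p : C4 × (Fin m → ℂ) => p.1.1) ⁻¹' {z}) = 0 :=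
    h2.null (by norm_num)
  have hl : LipschitzWith 1 (fun p : C4 × (Fin m → ℂ) => ‖p.1.2‖) := by
    have := (lipschitzWith_one_norm (E := C2)).comp
      ((LipschitzWith.prod_snd (α := C2) (β := C2)).comp
        (LipschitzWith.prod_fst (α := C4) (β := Fin m → ℂ)))
    simpa [Function.comp_def] using this
  refine eil1 (c := 2) (δ := 1) (by norm_num) (by norm_num) h3 hl.lipschitzOnWith volume one_pos ?_
  intro y r hr _
  rw [Real.volume_closedBall, Real.rpow_one, ENNReal.ofReal_mul (by norm_num)]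
  simp

theorem mshell_aux3 {T A : Type} [NormedAddCommGroup A] [NormedSpace ℂ A] [NormedAddCommGroup T]
    [NormedSpace ℂ T] {Z : Set (T × A)} {p : T × A} (h : HeartE Z p) :
    ∀ᶠ q in 𝓝 p, q ∈ Z → q.1 = p.1 → q = p := by
  obtain ⟨U, N, g, hU, hN, hp1, hp2, -, hm, hZ⟩ := h
  have h1 : ∀ᶠ q in 𝓝 p, q.2 ∈ N := by
    refine continuous_snd.continuousAt.eventually (hN.mem_nhds ?_)
    rw [hp2]; exact hm hp1
  filter_upwards [h1] with q hq hqZ he
  have h2 : (p.1, q.2) ∈ Z := by rw [← he]; exact hqZ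
  have h3 := (hZ p.1 hp1 q.2 hq).1 h2
  exact Prod.ext he (h3.trans hp2.symm)

omit [T2Space X] [CompactSpace X] [Nonempty X] in
theorem mshell_aux4 {D : Set C4} {Γ : Set (C4 × X)} (h : AnOn a D Γ) (i : Fin a.n) {t : C4}
    (h0 : μH[2] {p | p ∈ cs a i Γ ∧ p.1 = t ∧ ¬ HeartE (cs a i Γ) p} = 0)
    {p : C4 × (Fin m → ℂ)} (hp : p ∈ cs a i Γ) (hpt : p.1 = t) :
    ∀ᶠ q in 𝓝 p, q ∈ cs a i Γ → q.1 = t → q = p := by
  have h1 : μH[2] {p | p ∈ cs a i Γ ∧ p.1 = t ∧ HeartE (cs a i Γ) p} = 0 := by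
    refine null_of_isolated (by norm_num) ?_
    rintro p' ⟨-, h2, h3⟩
    filter_upwards [mshell_aux3 h3] with q hq hq'
    exact hq hq'.1 (hq'.2.1.trans h2.symm)
  have h2 : μH[2] ((cs a i Γ ∩ {q | q.1 = t}) ∩ univ) = 0 := by
    refine measure_mono_null ?_ (measure_union_null h0 h1)
    rintro q ⟨⟨hq1, hq2⟩, -⟩
    by_cases hh : HeartE (cs a i Γ) q
    · exact Or.inr ⟨hq1, hq2, hh⟩
    · exact Or.inl ⟨hq1, hq2, hh⟩
  have h3 : AnAt (cs a i Γ ∩ {q | q.1 = t}) p := by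
    refine (h.locAn i p hp).inter ?_
    exact anAt_eq (U := univ) (g := fun p : C4 × (Fin m → ℂ) => p.1) (g' := fun _ => t)
      isOpen_univ (mem_univ _) (by fun_prop) (differentiableOn_const _)
  filter_upwards [isolated_of_null h3 ⟨hp, hpt⟩ univ_mem h2] with q hq h4 h5
  exact hq ⟨h4, h5⟩

omit [T2Space X] [Nonempty X] in
theorem mshell_aux5 {D : Set C4} {Γ : Set (C4 × X)} (h : AnOn a D Γ) {t : C4} (ht : t ∈ D)
    (h0 : ∀ i, μH[2] {p | p ∈ cs a i Γ ∧ p.1 = t ∧ ¬ HeartE (cs a i Γ) p} = 0) :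
    {x | (t, x) ∈ Γ}.Finite := by
  have hK : IsCompact (res Γ {t}) :=
    h.isCompact isCompact_singleton (singleton_subset_iff.2 ht)
  have hF : (res Γ {t}).Finite := by
    refine hK.finite ?_
    rw [isDiscrete_iff_nhdsNE]
    rintro ⟨t', x⟩ ⟨hx, ht'⟩
    obtain rfl : t' = t := ht'
    obtain ⟨i, hi⟩ := a.cov x
    have h1 := mshell_aux4 h i (h0 i) (p := (t', a.e i x)) ((mem_cs hi).2 hx) rfl
    have h2 : ∀ᶠ q in 𝓝 (t', x), q ∈ Γ → q.1 = t' → q = (t', x) := by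
      rw [eventually_chart (a := a) (i := i) hi]
      have h3 : ∀ᶠ q : C4 × (Fin m → ℂ) in 𝓝 (t', a.e i x), q.2 ∈ (a.e i).target :=
        continuous_snd.continuousAt.eventually
          ((a.e i).open_target.mem_nhds ((a.e i).map_source hi))
      filter_upwards [h1, h3] with q hq hq' h4 h5
      have h6 := hq ⟨hq', h4⟩ h5
      rw [h6]
      simp [(a.e i).left_inv hi]
    rw [inf_principal_eq_bot, mem_nhdsWithin_iff_eventually]
    filter_upwards [h2] with q hq hne hq'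
    exact hne (hq hq'.1 hq'.2)
  refine (hF.image Prod.snd).subset ?_
  intro x hx
  exact ⟨(t, x), ⟨hx, rfl⟩, rfl⟩

theorem shell_polar {D : Set C4} {Γ : Set (C4 × X)} (h : MG a D Γ) :
    Polar {z | ¬ ∀ᵐ ρ : ℝ, ∀ w : C2, ‖w‖ = ρ → (z, w) ∈ D → (z, w) ∈ reg a Γ} := by
  intro ν hν
  choose S hS hcov using fun i => bcoverX h.an h.heart_dense i
  rw [← ae_iff]
  have h1 : ∀ᵐ z ∂ν, ∀ i n,
      μH[4] (S i n ∩ (fun p : C4 × (Fin m → ℂ) => p.1.1) ⁻¹' {z}) = 0 := by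
    rw [ae_all_iff]
    intro i
    rw [ae_all_iff]
    intro n
    exact mshell_aux1 (hS i n).2 hν
  filter_upwards [h1] with z hz
  have h2 : ∀ᵐ ρ : ℝ, ∀ i n, μH[2] ((S i n ∩ (fun p : C4 × (Fin m → ℂ) => p.1.1) ⁻¹' {z}) ∩
      (fun p : C4 × (Fin m → ℂ) => ‖p.1.2‖) ⁻¹' {ρ}) = 0 := by
    rw [ae_all_iff]
    intro i
    rw [ae_all_iff]
    intro n
    exact mshell_aux2 (hS i n).1 (hz i n)
  filter_upwards [h2] with ρ hρ w hw hD
  refine h.maximal hD (mshell_aux5 h.an hD fun i => ?_)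
  refine measure_mono_null ?_ (measure_iUnion_null (hρ i))
  rintro p ⟨hp1, hp2, hp3⟩
  obtain ⟨n, hn⟩ := hcov i p hp1 hp3
  refine mem_iUnion.2 ⟨n, ⟨hn, ?_⟩, ?_⟩
  · simp [hp2]
  · simp [hp2, hw]

end Pool.Agent.Lib.MP_823829_an
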