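import Pool.Agent.Lib.MP_823829_an.St
import Pool.Agent.Lib.MP_823829_an.Pos

/-! Moving the Laplacian in the base onto the form, in one chart. -/

namespace Pool.Agent.Lib.MP_823829_an

open Set Metric Filter MeasureTheory
open scoped Topology ENNReal NNReal ContDiff ComplexConjugate

/-- The three directions of the base vector j and of the fibre. -/
def dir3 (j : Fin 2) : Fin 3 → C4 := ![(e2 j, 0), (0, e2 0), (0, e2 1)]

/-- The adapted basis vectors of `ℂ⁴`. -/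
def mu1_dir4 (j : Fin 2) : Fin 4 → C4 := ![(e2 j, 0), (e2 (j + 1), 0), (0, e2 0), (0, e2 1)]

theorem mu1_aux_basis (j : Fin 2) : ∃ v : Module.Basis (Fin 4) ℂ C4, ∀ i, v i = mu1_dir4 j i := by
  have h : LinearIndependent ℂ (mu1_dir4 j) := by
    rw [Fintype.linearIndependent_iff]
    intro c hc i
    rw [Fin.sum_univ_four] at hc
    have h0 := congrArg (fun p : C4 => p.1 0) hc
    have h1 := congrArg (fun p : C4 => p.1 1) hc
    have h2 := congrArg (fun p : C4 => p.2 0) hc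
    have h3 := congrArg (fun p : C4 => p.2 1) hc
    fin_cases j <;> simp [mu1_dir4, e2] at h0 h1 h2 h3 <;> fin_cases i <;> simp [*]
  refine ⟨basisOfLinearIndependentOfCardEqFinrank h (by simp [Module.finrank_prod]), fun i => ?_⟩
  simp

theorem mu1_aux_haar : (volume : Measure C4).IsAddHaarMeasure :=
  Measure.prod.instIsAddHaarMeasure (volume : Measure C2) (volume : Measure C2)

theorem mu1_aux_jac {A : Type} [NormedAddCommGroup A] [NormedSpace ℂ A] (r : Fin 4 → A → ℂ)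
    (U : Fin 4 → A) (h0 : r 1 (U 0) = 0) (h1 : r 1 (U 1) = 1) (h2 : r 1 (U 2) = 0)
    (h3 : r 1 (U 3) = 0) :
    Jac r U = r 0 (U 0) * (r 2 (U 2) * r 3 (U 3) - r 3 (U 2) * r 2 (U 3)) +
      r 0 (U 2) * (r 2 (U 3) * r 3 (U 0) - r 3 (U 3) * r 2 (U 0)) +
      r 0 (U 3) * (r 2 (U 0) * r 3 (U 2) - r 3 (U 0) * r 2 (U 2)) := by
  rw [Jac, Matrix.det_succ_row _ 1, Fin.sum_univ_four]
  simp [h0, h1, h2, h3, Matrix.det_fin_three, Fin.succAbove]
  ring

section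

variable {m : ℕ} {κ : Type} [Fintype κ]

/-- A minor of two vectors in a basis. -/
noncomputable def mu1_mn (b : Module.Basis κ ℂ (C4 × (Fin m → ℂ))) (a a' : κ)
    (x y : C4 × (Fin m → ℂ)) : ℂ :=
  b.repr x a * b.repr y a' - b.repr x a' * b.repr y a

/-- The cofactors on the three directions. -/
noncomputable def mu1_M (b : Module.Basis κ ℂ (C4 × (Fin m → ℂ))) (g : C4 → Fin m → ℂ) (j : Fin 2)
    (t : C4) (a a' : κ) (i : Fin 3) : ℂ :=
  mu1_mn b a a' (tg g t (dir3 j (i + 1))) (tg g t (dir3 j (i + 2)))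

/-- The coordinates of the base. -/
noncomputable def mu1_z (m : ℕ) (k : Fin 2) : C4 × (Fin m → ℂ) →L[ℂ] ℂ :=
  (ContinuousLinearMap.proj k).comp
    ((ContinuousLinearMap.fst ℂ C2 C2).comp (ContinuousLinearMap.fst ℂ C4 (Fin m → ℂ)))

/-- The coordinates of a basis. -/
noncomputable def mu1_l (b : Module.Basis κ ℂ (C4 × (Fin m → ℂ))) (a : κ) :
    C4 × (Fin m → ℂ) →L[ℂ] ℂ := LinearMap.toContinuousLinearMap (b.coord a)

/-- The rows of the determinants. -/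
noncomputable def mu1_row (b : Module.Basis κ ℂ (C4 × (Fin m → ℂ))) (j : Fin 2)
    (η : C4 × (Fin m → ℂ) →L[ℂ] ℂ) (a a' : κ) : Fin 4 → (C4 × (Fin m → ℂ) →L[ℂ] ℂ) :=
  ![η, mu1_z m (j + 1), mu1_l b a, mu1_l b a']

omit [Fintype κ] in
theorem mu1_aux_upd (b : Module.Basis κ ℂ (C4 × (Fin m → ℂ))) (g : C4 → Fin m → ℂ) (j : Fin 2)
    (t : C4) (η : C4 × (Fin m → ℂ) →L[ℂ] ℂ) (a a' : κ) (θ : C4 × (Fin m → ℂ) → ℂ) :
    Jac (Function.update (fun i => (mu1_row b j η a a' i : C4 × (Fin m → ℂ) → ℂ)) 0 θ)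
      (fun i => tg g t (mu1_dir4 j i)) = ∑ i, θ (tg g t (dir3 j i)) * mu1_M b g j t a a' i := by
  rw [mu1_aux_jac, Fin.sum_univ_three]
  · simp [mu1_row, mu1_M, mu1_mn, mu1_l, mu1_dir4, dir3]
  all_goals fin_cases j <;> simp [mu1_row, mu1_z, mu1_dir4, tg, e2]

omit [Fintype κ] in
theorem mu1_aux_upd' (b : Module.Basis κ ℂ (C4 × (Fin m → ℂ))) (g : C4 → Fin m → ℂ) (j : Fin 2)
    (t : C4) (η : C4 × (Fin m → ℂ) →L[ℂ] ℂ) (a a' : κ) (θ : C4 × (Fin m → ℂ) → ℂ) :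
    Jac (Function.update (fun i x => conj (mu1_row b j η a a' i x)) 0 θ)
      (fun i => tg g t (mu1_dir4 j i)) =
      ∑ i, θ (tg g t (dir3 j i)) * conj (mu1_M b g j t a a' i) := by
  rw [mu1_aux_jac, Fin.sum_univ_three]
  · simp [mu1_row, mu1_M, mu1_mn, mu1_l, mu1_dir4, dir3]
  all_goals fin_cases j <;> simp [mu1_row, mu1_z, mu1_dir4, tg, e2]

omit [Fintype κ] in
theorem mu1_aux_row (b : Module.Basis κ ℂ (C4 × (Fin m → ℂ))) (g : C4 → Fin m → ℂ) (j : Fin 2)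
    (t : C4) (η : C4 × (Fin m → ℂ) →L[ℂ] ℂ) (a a' : κ) :
    Jac (fun i => (mu1_row b j η a a' i : C4 × (Fin m → ℂ) → ℂ))
      (fun i => tg g t (mu1_dir4 j i)) = ∑ i, η (tg g t (dir3 j i)) * mu1_M b g j t a a' i := by
  rw [← mu1_aux_upd b g j t η a a' η]
  congr 1
  exact (Function.update_eq_self (0 : Fin 4) _).symm

omit [Fintype κ] in
theorem mu1_aux_rowz (b : Module.Basis κ ℂ (C4 × (Fin m → ℂ))) (g : C4 → Fin m → ℂ) (j : Fin 2)
    (t : C4) (a a' : κ) :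
    Jac (fun i => (mu1_row b j (mu1_z m j) a a' i : C4 × (Fin m → ℂ) → ℂ))
      (fun i => tg g t (mu1_dir4 j i)) = mu1_M b g j t a a' 0 := by
  rw [mu1_aux_row, Fin.sum_univ_three]
  simp [mu1_z, dir3, tg, e2]

theorem mu1_aux_supp {K : Set (C4 × (Fin m → ℂ))} (hK : IsCompact K) {S : Set C2} {F : C2 → ℂ}
    (hF : Continuous F) (hS : tsupport F ⊆ S) {w : C4 × (Fin m → ℂ) → ℂ}
    (hw : ∀ p ∉ K, p.1.1 ∈ interior S → w =ᶠ[𝓝 p] fun _ => 0) :
    tsupport (fun p : C4 × (Fin m → ℂ) => F p.1.1 * w p) ⊆ K := by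
  refine closure_minimal (fun p hp => ?_) hK.isClosed
  by_contra h
  have h1 : F p.1.1 ≠ 0 := left_ne_zero_of_mul hp
  have h2 : p.1.1 ∈ interior S :=
    interior_maximal ((subset_tsupport F).trans hS) hF.isOpen_support h1
  exact right_ne_zero_of_mul hp (hw p h h2).self_of_nhds

theorem mu1_aux_dH {F : C2 → ℂ} (hF : Differentiable ℝ F) {w : C4 × (Fin m → ℂ) → ℂ}
    (hw : Differentiable ℝ w) (p u : C4 × (Fin m → ℂ)) :
    dH (fun q : C4 × (Fin m → ℂ) => F q.1.1 * w q) p u =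
      dH F p.1.1 u.1.1 * w p + F p.1.1 * dH w p u := by
  let L : C4 × (Fin m → ℂ) →L[ℂ] C2 :=
    (ContinuousLinearMap.fst ℂ C2 C2).comp (ContinuousLinearMap.fst ℂ C4 (Fin m → ℂ))
  have h := dH_comp (b := F) (F := L) (t := p) (hF _) L.differentiableAt u
  rw [L.fderiv] at h
  rw [dH_mul (f := fun q : C4 × (Fin m → ℂ) => F q.1.1) (by fun_prop) (hw p)]
  exact congrArg (· * w p + F p.1.1 * dH w p u) h

theorem mu1_aux_dA {F : C2 → ℂ} (hF : Differentiable ℝ F) {w : C4 × (Fin m → ℂ) → ℂ}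
    (hw : Differentiable ℝ w) (p u : C4 × (Fin m → ℂ)) :
    dA (fun q : C4 × (Fin m → ℂ) => F q.1.1 * w q) p u =
      dA F p.1.1 u.1.1 * w p + F p.1.1 * dA w p u := by
  let L : C4 × (Fin m → ℂ) →L[ℂ] C2 :=
    (ContinuousLinearMap.fst ℂ C2 C2).comp (ContinuousLinearMap.fst ℂ C4 (Fin m → ℂ))
  have h := dA_comp (b := F) (F := L) (t := p) (hF _) L.differentiableAt u
  rw [L.fderiv] at h
  rw [dA_mul (f := fun q : C4 × (Fin m → ℂ) => F q.1.1) (by fun_prop) (hw p)]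
  exact congrArg (· * w p + F p.1.1 * dA w p u) h

theorem mu1_aux_dH0 (F : C2 → ℂ) (z : C2) : dH F z 0 = 0 := by simp [dH]

theorem mu1_aux_dA0 (F : C2 → ℂ) (z : C2) : dA F z 0 = 0 := by simp [dA]

omit [Fintype κ] in
theorem mu1_aux_int {Z W : Set (C4 × (Fin m → ℂ))} {O : Set C4} {g : C4 → Fin m → ℂ}
    (hG : GS Z W O g) {S : Set C2} {F : C2 → ℂ} (hF : Continuous F) (hS : tsupport F ⊆ S)
    {K : Set (C4 × (Fin m → ℂ))} (hK : IsCompact K) (hW : K ⊆ W) {w : C4 × (Fin m → ℂ) → ℂ}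
    (hw : Continuous w) (hv : ∀ p ∉ K, p.1.1 ∈ interior S → w =ᶠ[𝓝 p] fun _ => 0)
    (b : Module.Basis κ ℂ (C4 × (Fin m → ℂ))) (a a' c c' : κ) (j : Fin 2) :
    IntegrableOn (fun t => F t.1 * w (t, g t) * mu1_M b g j t a a' 0 *
      conj (mu1_M b g j t c c' 0)) O := by
  obtain ⟨v, hv4⟩ := mu1_aux_basis j
  have := mu1_aux_haar
  have hs := mu1_aux_supp hK hF hS hv
  have h := st_int hG volume v (mu1_row b j (mu1_z m j) a a') (mu1_row b j (mu1_z m j) c c')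
    (c := fun p => F p.1.1 * w p) (by fun_prop) (hK.of_isClosed_subset (isClosed_tsupport _) hs)
    (hs.trans hW)
  simpa only [hv4, mu1_aux_rowz] using h

theorem mu1_aux_core {Z W : Set (C4 × (Fin m → ℂ))} {O : Set C4} {g : C4 → Fin m → ℂ}
    (hG : GS Z W O g) {φ : C2 → ℂ} (hφ : ContDiff ℝ ∞ φ)
    {K : Set (C4 × (Fin m → ℂ))} (hK : IsCompact K) (hW : K ⊆ W) {w : C4 × (Fin m → ℂ) → ℂ}
    (hw : ContDiff ℝ ∞ w) (hv : ∀ p ∉ K, p.1.1 ∈ interior (tsupport φ) → w =ᶠ[𝓝 p] fun _ => 0)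
    (b : Module.Basis κ ℂ (C4 × (Fin m → ℂ))) (a a' c c' : κ) (j : Fin 2) :
    IntegrableOn (fun t => dH (fun z => dA φ z (e2 j)) t.1 (e2 j) * w (t, g t) *
      mu1_M b g j t a a' 0 * conj (mu1_M b g j t c c' 0)) O ∧
    IntegrableOn (fun t => φ t.1 * ∑ i, ∑ k,
      dH (fun y => dA w y (tg g t (dir3 j k))) (t, g t) (tg g t (dir3 j i)) *
        mu1_M b g j t a a' i * conj (mu1_M b g j t c c' k)) O ∧
    ∫ t in O, dH (fun z => dA φ z (e2 j)) t.1 (e2 j) * w (t, g t) *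
      mu1_M b g j t a a' 0 * conj (mu1_M b g j t c c' 0) =
    ∫ t in O, φ t.1 * ∑ i, ∑ k,
      dH (fun y => dA w y (tg g t (dir3 j k))) (t, g t) (tg g t (dir3 j i)) *
        mu1_M b g j t a a' i * conj (mu1_M b g j t c c' k) := by
  obtain ⟨v, hv4⟩ := mu1_aux_basis j
  have hψ : ContDiff ℝ ∞ (fun z => dA φ z (e2 j)) :=
    contDiff_iff_contDiffAt.2 fun z => contDiffAt_dA hφ.contDiffAt (by simp) _
  have hψ' : ContDiff ℝ ∞ (fun z => dH (fun z => dA φ z (e2 j)) z (e2 j)) :=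
    contDiff_iff_contDiffAt.2 fun z => contDiffAt_dH hψ.contDiffAt (by simp) _
  have hwe : ∀ e, ContDiff ℝ ∞ (fun y => dH w y (b e)) := fun e =>
    contDiff_iff_contDiffAt.2 fun z => contDiffAt_dH hw.contDiffAt (by simp) _
  have hve : ∀ e, ∀ p ∉ K, p.1.1 ∈ interior (tsupport φ) →
      (fun y => dH w y (b e)) =ᶠ[𝓝 p] fun _ => 0 := fun e p hp hp' => by
    filter_upwards [(hv p hp hp').eventuallyEq_nhds] with y hy
    rw [dH_congr hy, dH_const]
  have hone : (1 : WithTop ℕ∞) ≤ ((⊤ : ℕ∞) : WithTop ℕ∞) := by simp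
  have htwo : (2 : WithTop ℕ∞) ≤ ((⊤ : ℕ∞) : WithTop ℕ∞) := by
    have : ((2 : ℕ∞) : WithTop ℕ∞) ≤ ((⊤ : ℕ∞) : WithTop ℕ∞) := by exact_mod_cast le_top
    exact this
  have := mu1_aux_haar
  have hX := mu1_aux_int hG hψ'.continuous ((tsupport_dH _ _).trans (tsupport_dA _ _)) hK hW
    hw.continuous hv b a a' c c' j
  set X : C4 → ℂ := fun t => dH (fun z => dA φ z (e2 j)) t.1 (e2 j) * w (t, g t) *
    mu1_M b g j t a a' 0 * conj (mu1_M b g j t c c' 0) with hXd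
  set Y : C4 → ℂ := fun t => dA φ t.1 (e2 j) * (∑ i, dH w (t, g t) (tg g t (dir3 j i)) *
    mu1_M b g j t a a' i) * conj (mu1_M b g j t c c' 0) with hYd
  set Q : C4 → ℂ := fun t => φ t.1 * ∑ i, ∑ k,
      dH (fun y => dA w y (tg g t (dir3 j k))) (t, g t) (tg g t (dir3 j i)) *
        mu1_M b g j t a a' i * conj (mu1_M b g j t c c' k) with hQd
  have h1 : IntegrableOn (fun t => X t + Y t) O ∧ ∫ t in O, X t + Y t = 0 := by
    have hs := mu1_aux_supp hK hψ.continuous (tsupport_dA _ _) hv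
    have h := st hG volume v (mu1_row b j (mu1_z m j) a a') (mu1_row b j (mu1_z m j) c c') 0
      (b := fun p => dA φ p.1.1 (e2 j) * w p)
      (((hψ.comp (contDiff_fst.comp contDiff_fst)).mul hw).of_le hone)
      (hK.of_isClosed_subset (isClosed_tsupport _) hs) (hs.trans hW)
    simp only [hv4, mu1_aux_rowz, mu1_aux_upd,
      mu1_aux_dH (hψ.differentiable (by simp)) (hw.differentiable (by simp))] at h
    have e : ∀ t : C4, (∑ i, (dH (fun z => dA φ z (e2 j)) t.1 (tg g t (dir3 j i)).1.1 * w (t, g t) +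
        dA φ t.1 (e2 j) * dH w (t, g t) (tg g t (dir3 j i))) * mu1_M b g j t a a' i) *
        conj (mu1_M b g j t c c' 0) = X t + Y t := fun t => by
      simp only [hXd, hYd, Fin.sum_univ_three]
      have e0 : (tg g t (dir3 j 0)).1.1 = e2 j := rfl
      have e1 : (tg g t (dir3 j 1)).1.1 = 0 := rfl
      have e2 : (tg g t (dir3 j 2)).1.1 = 0 := rfl
      rw [e0, e1, e2, mu1_aux_dH0]
      ring
    simpa only [e] using h
  have h2 : IntegrableOn (fun t => Y t + Q t) O ∧ ∫ t in O, Y t + Q t = 0 := by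
    have h : ∀ e, IntegrableOn (fun t =>
        (∑ i, b.repr (tg g t (dir3 j i)) e * mu1_M b g j t a a' i) *
        ∑ k, (dA φ t.1 (tg g t (dir3 j k)).1.1 * dH w (t, g t) (b e) +
          φ t.1 * dA (fun y => dH w y (b e)) (t, g t) (tg g t (dir3 j k))) *
            conj (mu1_M b g j t c c' k)) O ∧
        ∫ t in O, (∑ i, b.repr (tg g t (dir3 j i)) e * mu1_M b g j t a a' i) *
        ∑ k, (dA φ t.1 (tg g t (dir3 j k)).1.1 * dH w (t, g t) (b e) +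
          φ t.1 * dA (fun y => dH w y (b e)) (t, g t) (tg g t (dir3 j k))) *
            conj (mu1_M b g j t c c' k) = 0 := fun e => by
      have hs := mu1_aux_supp hK hφ.continuous subset_rfl (hve e)
      have h := st_conj hG volume v (mu1_row b j (mu1_l b e) a a')
        (mu1_row b j (mu1_z m j) c c') 0 (b := fun p => φ p.1.1 * dH w p (b e))
        (((hφ.comp (contDiff_fst.comp contDiff_fst)).mul (hwe e)).of_le hone)
        (hK.of_isClosed_subset (isClosed_tsupport _) hs) (hs.trans hW)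
      simp only [hv4, mu1_aux_row, mu1_aux_upd',
        mu1_aux_dA (hφ.differentiable (by simp)) ((hwe e).differentiable (by simp))] at h
      exact h
    have e : ∀ t : C4, ∑ e, (∑ i, b.repr (tg g t (dir3 j i)) e * mu1_M b g j t a a' i) *
        ∑ k, (dA φ t.1 (tg g t (dir3 j k)).1.1 * dH w (t, g t) (b e) +
          φ t.1 * dA (fun y => dH w y (b e)) (t, g t) (tg g t (dir3 j k))) *
            conj (mu1_M b g j t c c' k) = Y t + Q t := fun t => by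
      have hc : ∀ e u, dA (fun y => dH w y (b e)) (t, g t) u =
          dH (fun y => dA w y u) (t, g t) (b e) := fun e u =>
        (dH_dA_comm (hw.of_le htwo).contDiffAt _ _).symm
      have e0 : (tg g t (dir3 j 0)).1.1 = e2 j := rfl
      have e1 : (tg g t (dir3 j 1)).1.1 = 0 := rfl
      have e2 : (tg g t (dir3 j 2)).1.1 = 0 := rfl
      simp only [hYd, hQd, hc]
      simp only [dH_expand b _ (t, g t) (tg g t _)]
      simp only [Fin.sum_univ_three, e0, e1, e2, mu1_aux_dA0, Finset.sum_mul, Finset.mul_sum,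
        ← Finset.sum_add_distrib]
      exact Finset.sum_congr rfl fun e _ => by ring
    refine ⟨?_, ?_⟩
    · simp only [← e]
      exact integrable_finsetSum _ fun e _ => (h e).1
    · simp only [← e]
      rw [integral_finsetSum _ fun e _ => (h e).1]
      exact Finset.sum_eq_zero fun e _ => (h e).2
  have hY : IntegrableOn Y O := by
    have := h1.1.sub hX
    refine this.congr (Eventually.of_forall fun t => ?_)
    simp
  have hQ : IntegrableOn Q O := by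
    have := h2.1.sub hY
    refine this.congr (Eventually.of_forall fun t => ?_)
    simp
  refine ⟨hX, hQ, ?_⟩
  have e1 := h1.2
  have e2 := h2.2
  rw [integral_add hX hY] at e1
  rw [integral_add hY hQ] at e2
  linear_combination e1 - e2

theorem mu1_aux_van {𝒲 : C4 × (Fin m → ℂ) → Form (C4 × (Fin m → ℂ))} {S : Set C2}
    {K : Set (C4 × (Fin m → ℂ))} (hK : IsCompact K)
    (h0 : ∀ p, p.1.1 ∈ S → p ∉ K → 𝒲 p = 0) (a b c d : C4 × (Fin m → ℂ)) :
    ∀ p ∉ K, p.1.1 ∈ interior S → (fun q => 𝒲 q a b c d) =ᶠ[𝓝 p] fun _ => 0 := fun p hp hp' => by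
  have h1 : ∀ᶠ q : C4 × (Fin m → ℂ) in 𝓝 p, q.1.1 ∈ interior S :=
    (isOpen_interior.preimage (continuous_fst.comp continuous_fst)).mem_nhds hp'
  filter_upwards [h1, hK.isClosed.isOpen_compl.mem_nhds hp] with q hq hq'
  rw [h0 q (interior_subset hq) hq']
  rfl

theorem mu1_aux_ddbar {𝒲 : C4 × (Fin m → ℂ) → Form (C4 × (Fin m → ℂ))}
    (hl : ∀ p u v₁ v₂, 𝒲 p u u v₁ v₂ = 0) (hr : ∀ p u₁ u₂ v, 𝒲 p u₁ u₂ v v = 0)
    (hs : ∀ a b c d, ContDiff ℝ ∞ (fun p => 𝒲 p a b c d))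
    (b : Module.Basis κ ℂ (C4 × (Fin m → ℂ))) (p x y u₁ u₂ v₁ v₂ : C4 × (Fin m → ℂ)) :
    dH (fun y' => dA (fun y'' => 𝒲 y'' u₁ u₂ v₁ v₂) y' y) p x =
      ∑ q : κ × κ × κ × κ, (1 / 4 : ℂ) *
        (dH (fun y' => dA (fun y'' => 𝒲 y'' (b q.1) (b q.2.1) (b q.2.2.1) (b q.2.2.2)) y' y) p x *
          mu1_mn b q.1 q.2.1 u₁ u₂ * conj (mu1_mn b q.2.2.1 q.2.2.2 v₁ v₂)) := by
  have hd : ∀ a a' c c', Differentiable ℝ (fun p => 𝒲 p a a' c c') := fun a a' c c' =>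
    (hs a a' c c').differentiable (by simp)
  have hd' : ∀ a a' c c', Differentiable ℝ (fun y' => dA (fun p => 𝒲 p a a' c c') y' y) :=
    fun a a' c c' z =>
      (contDiffAt_dA (n := 1) (hs a a' c c').contDiffAt (by
        have : ((2 : ℕ∞) : WithTop ℕ∞) ≤ ((⊤ : ℕ∞) : WithTop ℕ∞) := by exact_mod_cast le_top
        exact this) _).differentiableAt (by simp)
  have e1 : (fun y'' => 𝒲 y'' u₁ u₂ v₁ v₂) = fun y'' => ∑ q : κ × κ × κ × κ,
      𝒲 y'' (b q.1) (b q.2.1) (b q.2.2.1) (b q.2.2.2) * ((1 / 4 : ℂ) *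
          mu1_mn b q.1 q.2.1 u₁ u₂ * conj (mu1_mn b q.2.2.1 q.2.2.2 v₁ v₂)) := by
    funext y''
    rw [form_expand b _ (hl y'') (hr y'')]
    simp only [Fintype.sum_prod_type, Finset.mul_sum, mu1_mn]
    refine Finset.sum_congr rfl fun _ _ => Finset.sum_congr rfl fun _ _ =>
      Finset.sum_congr rfl fun _ _ => Finset.sum_congr rfl fun _ _ => by ring
  have e2 : (fun y' => dA (fun y'' => 𝒲 y'' u₁ u₂ v₁ v₂) y' y) = fun y' => ∑ q : κ × κ × κ × κ,
      dA (fun y'' => 𝒲 y'' (b q.1) (b q.2.1) (b q.2.2.1) (b q.2.2.2)) y' y * ((1 / 4 : ℂ) *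
          mu1_mn b q.1 q.2.1 u₁ u₂ * conj (mu1_mn b q.2.2.1 q.2.2.2 v₁ v₂)) := by
    funext y'
    rw [e1, dA_sum _ fun q _ => (hd _ _ _ _ _).mul_const _]
    refine Finset.sum_congr rfl fun q _ => ?_
    rw [dA_mul (hd _ _ _ _ _) (differentiableAt_const _), dA_const, mul_zero, add_zero]
  rw [e2, dH_sum _ fun q _ => (hd' _ _ _ _ _).mul_const _]
  refine Finset.sum_congr rfl fun q _ => ?_
  rw [dH_mul (hd' _ _ _ _ _) (differentiableAt_const _), dH_const, mul_zero, add_zero]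
  ring

theorem mu1_aux_fib {𝒲 : C4 × (Fin m → ℂ) → Form (C4 × (Fin m → ℂ))}
    (hl : ∀ p u v₁ v₂, 𝒲 p u u v₁ v₂ = 0) (hr : ∀ p u₁ u₂ v, 𝒲 p u₁ u₂ v v = 0)
    (b : Module.Basis κ ℂ (C4 × (Fin m → ℂ))) (g : C4 → Fin m → ℂ) (j : Fin 2) (F : C4 → ℂ)
    (t : C4) :
    F t * 𝒲 (t, g t) (tg g t (0, e2 0)) (tg g t (0, e2 1)) (tg g t (0, e2 0)) (tg g t (0, e2 1)) =
      ∑ q : κ × κ × κ × κ, (1 / 4 : ℂ) *
        (F t * 𝒲 (t, g t) (b q.1) (b q.2.1) (b q.2.2.1) (b q.2.2.2) *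
          mu1_M b g j t q.1 q.2.1 0 * conj (mu1_M b g j t q.2.2.1 q.2.2.2 0)) := by
  have e : ∀ a a', mu1_M b g j t a a' 0 =
      mu1_mn b a a' (tg g t (0, e2 0)) (tg g t (0, e2 1)) := fun _ _ => rfl
  rw [form_expand b _ (hl _) (hr _)]
  simp only [Fintype.sum_prod_type, Finset.mul_sum, e, mu1_mn]
  refine Finset.sum_congr rfl fun _ _ => Finset.sum_congr rfl fun _ _ =>
    Finset.sum_congr rfl fun _ _ => Finset.sum_congr rfl fun _ _ => by ring

end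

theorem mu1 {m : ℕ} {Z W : Set (C4 × (Fin m → ℂ))} {O : Set C4} {g : C4 → Fin m → ℂ}
    (hG : GS Z W O g) {𝒲 : C4 × (Fin m → ℂ) → Form (C4 × (Fin m → ℂ))}
    (hl : ∀ p u v₁ v₂, 𝒲 p u u v₁ v₂ = 0) (hr : ∀ p u₁ u₂ v, 𝒲 p u₁ u₂ v v = 0)
    (hs : ∀ a b c d, ContDiff ℝ ∞ (fun p => 𝒲 p a b c d)) {φ : C2 → ℂ} (hφ : ContDiff ℝ ∞ φ)
    {K : Set (C4 × (Fin m → ℂ))} (hK : IsCompact K) (hW : K ⊆ W)
    (h0 : ∀ p, p.1.1 ∈ tsupport φ → p ∉ K → 𝒲 p = 0) (j : Fin 2) :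
    IntegrableOn (fun t => dH (fun z => dA φ z (e2 j)) t.1 (e2 j) *
      𝒲 (t, g t) (tg g t (0, e2 0)) (tg g t (0, e2 1)) (tg g t (0, e2 0)) (tg g t (0, e2 1))) O ∧
    IntegrableOn (fun t => φ t.1 * ddbar (fun p a b c d => 𝒲 p a b c d) (t, g t)
      (fun i => tg g t (dir3 j i)) (fun i => tg g t (dir3 j i))) O ∧
    ∫ t in O, dH (fun z => dA φ z (e2 j)) t.1 (e2 j) *
      𝒲 (t, g t) (tg g t (0, e2 0)) (tg g t (0, e2 1)) (tg g t (0, e2 0)) (tg g t (0, e2 1)) =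
    ∫ t in O, φ t.1 * ddbar (fun p a b c d => 𝒲 p a b c d) (t, g t)
      (fun i => tg g t (dir3 j i)) (fun i => tg g t (dir3 j i)) := by
  let b := Module.finBasis ℂ (C4 × (Fin m → ℂ))
  have h := fun q : _ × _ × _ × _ => mu1_aux_core hG hφ hK hW
    (hs (b q.1) (b q.2.1) (b q.2.2.1) (b q.2.2.2)) (mu1_aux_van hK h0 _ _ _ _) b
    q.1 q.2.1 q.2.2.1 q.2.2.2 j
  have e : ∀ t : C4, φ t.1 * ddbar (fun p a b c d => 𝒲 p a b c d) (t, g t)
      (fun i => tg g t (dir3 j i)) (fun i => tg g t (dir3 j i)) =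
      ∑ q : _ × _ × _ × _, (1 / 4 : ℂ) * (φ t.1 * ∑ i, ∑ k,
        dH (fun y => dA (fun p => 𝒲 p (b q.1) (b q.2.1) (b q.2.2.1) (b q.2.2.2)) y
          (tg g t (dir3 j k))) (t, g t) (tg g t (dir3 j i)) *
        mu1_M b g j t q.1 q.2.1 i * conj (mu1_M b g j t q.2.2.1 q.2.2.2 k)) := fun t => by
    rw [ddbar]
    simp only [mu1_aux_ddbar hl hr hs b (t, g t) _ _ (tg g t _) (tg g t _) (tg g t _) (tg g t _)]
    simp only [Fin.sum_univ_three, ← Finset.sum_add_distrib, Finset.mul_sum, mu1_M]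
    exact Finset.sum_congr rfl fun q _ => by ring
  simp only [e, mu1_aux_fib hl hr b g j (fun t => dH (fun z => dA φ z (e2 j)) t.1 (e2 j))]
  refine ⟨integrable_finsetSum _ fun q _ => (h q).1.const_mul _,
    integrable_finsetSum _ fun q _ => (h q).2.1.const_mul _, ?_⟩
  rw [integral_finsetSum _ fun q _ => (h q).1.const_mul _,
    integral_finsetSum _ fun q _ => (h q).2.1.const_mul _]
  refine Finset.sum_congr rfl fun q _ => ?_
  rw [integral_const_mul, integral_const_mul, (h q).2.2]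

/-- Integrability of the fibre density of a continuous form with compact support. -/
theorem mu1_int {m : ℕ} {Z W : Set (C4 × (Fin m → ℂ))} {O : Set C4} {g : C4 → Fin m → ℂ}
    (hG : GS Z W O g) {𝒲 : C4 × (Fin m → ℂ) → Form (C4 × (Fin m → ℂ))}
    (hl : ∀ p u v₁ v₂, 𝒲 p u u v₁ v₂ = 0) (hr : ∀ p u₁ u₂ v, 𝒲 p u₁ u₂ v v = 0)
    (hs : ∀ a b c d, Continuous (fun p => 𝒲 p a b c d)) {φ : C2 → ℂ} (hφ : Continuous φ)
    {K : Set (C4 × (Fin m → ℂ))} (hK : IsCompact K) (hW : K ⊆ W)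
    (h0 : ∀ p, p.1.1 ∈ tsupport φ → p ∉ K → 𝒲 p = 0) :
    IntegrableOn (fun t => φ t.1 *
      𝒲 (t, g t) (tg g t (0, e2 0)) (tg g t (0, e2 1)) (tg g t (0, e2 0)) (tg g t (0, e2 1)))
      O := by
  let b := Module.finBasis ℂ (C4 × (Fin m → ℂ))
  simp only [mu1_aux_fib hl hr b g 0 (fun t => φ t.1)]
  exact integrable_finsetSum _ fun q _ => (mu1_aux_int hG hφ subset_rfl hK hW (hs _ _ _ _)
    (mu1_aux_van hK h0 _ _ _ _) b _ _ _ _ 0).const_mul _

end Pool.Agent.Lib.MP_823829_an
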