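import Pool.Agent.Lib.MP_823829_an.Wirt
import Pool.Agent.Lib.MP_823829_an.Pos

/-! The operator ddbar commutes with holomorphic pullback. -/

namespace Pool.Agent.Lib.MP_823829_an

open Set Metric Filter MeasureTheory
open scoped Topology ENNReal NNReal ContDiff ComplexConjugate

variable {V V₂ : Type} [NormedAddCommGroup V] [NormedSpace ℂ V] [NormedSpace ℝ V]
  [IsScalarTower ℝ ℂ V] [NormedAddCommGroup V₂] [NormedSpace ℂ V₂] [NormedSpace ℝ V₂]
  [IsScalarTower ℝ ℂ V₂]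

theorem pull_aux_anti {κ : Type} [Fintype κ] (σ : κ ≃ κ) (Φ : κ → ℂ)
    (h : ∀ k, Φ (σ k) = -Φ k) : ∑ k, Φ k = 0 := by
  have h1 : ∑ k, Φ (σ k) = ∑ k, Φ k := Equiv.sum_comp σ Φ
  have h2 : ∑ k, Φ (σ k) = -∑ k, Φ k := by
    rw [← Finset.sum_neg_distrib]
    exact Finset.sum_congr rfl fun k _ => h k
  have h3 : (2 : ℂ) * ∑ k, Φ k = 0 := by linear_combination h2 - h1
  simpa using h3

theorem pull_aux_two : (2 : WithTop ℕ∞) ≤ ((⊤ : ℕ∞) : WithTop ℕ∞) := by
  have h : ((2 : ℕ∞) : WithTop ℕ∞) ≤ ((⊤ : ℕ∞) : WithTop ℕ∞) := WithTop.coe_le_coe.2 le_top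
  exact h

theorem pull_aux_conj_diff {Q : V → ℂ} {t : V} (hQ : DifferentiableAt ℂ Q t) :
    DifferentiableAt ℝ (fun x => conj (Q x)) t :=
  Complex.conjCLE.differentiableAt.comp t (hQ.restrictScalars ℝ)

theorem pull_aux_diff {w : V₂ → ℂ} {G : V → V₂} {P Q : V → ℂ} {t : V}
    (hw : DifferentiableAt ℝ w (G t)) (hG : DifferentiableAt ℂ G t)
    (hP : DifferentiableAt ℂ P t) (hQ : DifferentiableAt ℂ Q t) :
    DifferentiableAt ℝ (fun x => w (G x) * P x * conj (Q x)) t :=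
  ((hw.comp t (hG.restrictScalars ℝ)).mul (hP.restrictScalars ℝ)).mul (pull_aux_conj_diff hQ)

theorem pull_aux_dH {w : V₂ → ℂ} {G : V → V₂} {P Q : V → ℂ} {t : V}
    (hw : DifferentiableAt ℝ w (G t)) (hG : DifferentiableAt ℂ G t)
    (hP : DifferentiableAt ℂ P t) (hQ : DifferentiableAt ℂ Q t) (u : V) :
    dH (fun x => w (G x) * P x * conj (Q x)) t u =
      (dH w (G t) (fderiv ℂ G t u) * P t + w (G t) * fderiv ℂ P t u) * conj (Q t) := by
  have h1 : DifferentiableAt ℝ (fun x => w (G x)) t := hw.comp t (hG.restrictScalars ℝ)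
  have h2 : DifferentiableAt ℝ P t := hP.restrictScalars ℝ
  have h3 : DifferentiableAt ℝ (fun x => w (G x) * P x) t := h1.mul h2
  rw [dH_mul h3 (pull_aux_conj_diff hQ), dH_mul h1 h2, dH_conj, dA_hol hQ, dH_comp hw hG,
    dH_hol hP]
  simp

theorem pull_aux_dA {w : V₂ → ℂ} {G : V → V₂} {P Q : V → ℂ} {t : V}
    (hw : DifferentiableAt ℝ w (G t)) (hG : DifferentiableAt ℂ G t)
    (hP : DifferentiableAt ℂ P t) (hQ : DifferentiableAt ℂ Q t) (v : V) :
    dA (fun x => w (G x) * P x * conj (Q x)) t v =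
      dA w (G t) (fderiv ℂ G t v) * P t * conj (Q t) +
        w (G t) * P t * conj (fderiv ℂ Q t v) := by
  have h1 : DifferentiableAt ℝ (fun x => w (G x)) t := hw.comp t (hG.restrictScalars ℝ)
  have h2 : DifferentiableAt ℝ P t := hP.restrictScalars ℝ
  have h3 : DifferentiableAt ℝ (fun x => w (G x) * P x) t := h1.mul h2
  rw [dA_mul h3 (pull_aux_conj_diff hQ), dA_mul h1 h2, dA_conj, dH_hol hQ, dA_comp hw hG,
    dA_hol hP]
  simp

omit [NormedSpace ℝ V] [IsScalarTower ℝ ℂ V] [NormedSpace ℝ V₂] [IsScalarTower ℝ ℂ V₂] in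
theorem pull_aux_app [FiniteDimensional ℂ V] [FiniteDimensional ℂ V₂] {G : V → V₂} {U : Set V}
    (hU : IsOpen U) (hG : DifferentiableOn ℂ G U) (u : V) :
    DifferentiableOn ℂ (fun x => fderiv ℂ G x u) U :=
  (hol_fderiv hU hG).clm_apply (differentiableOn_const u)

omit [NormedSpace ℝ V] [IsScalarTower ℝ ℂ V] [NormedSpace ℝ V₂] [IsScalarTower ℝ ℂ V₂] in
theorem pull_aux_coord [FiniteDimensional ℂ V] [FiniteDimensional ℂ V₂] {κ : Type}
    (b : Module.Basis κ ℂ V₂) {G : V → V₂} {U : Set V}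
    (hU : IsOpen U) (hG : DifferentiableOn ℂ G U) (u : V) (a : κ) :
    DifferentiableOn ℂ (fun x => b.repr (fderiv ℂ G x u) a) U :=
  (LinearMap.toContinuousLinearMap (b.coord a)).differentiable.comp_differentiableOn
    (pull_aux_app hU hG u)

omit [NormedSpace ℝ V] [IsScalarTower ℝ ℂ V] [NormedSpace ℝ V₂] [IsScalarTower ℝ ℂ V₂] in
theorem pull_aux_coord_fderiv [FiniteDimensional ℂ V] [FiniteDimensional ℂ V₂] {κ : Type}
    (b : Module.Basis κ ℂ V₂) {G : V → V₂} {U : Set V}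
    (hU : IsOpen U) (hG : DifferentiableOn ℂ G U) {t : V} (ht : t ∈ U) (u u' : V) (a : κ) :
    fderiv ℂ (fun x => b.repr (fderiv ℂ G x u) a) t u' =
      b.repr (fderiv ℂ (fun x => fderiv ℂ G x u) t u') a := by
  have h1 : DifferentiableAt ℂ (fun x => fderiv ℂ G x u) t :=
    (pull_aux_app hU hG u).differentiableAt (hU.mem_nhds ht)
  have h2 := ((LinearMap.toContinuousLinearMap (b.coord a)).hasFDerivAt.comp t
    h1.hasFDerivAt).fderiv
  have h3 : (fun x => b.repr (fderiv ℂ G x u) a) =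
      (LinearMap.toContinuousLinearMap (b.coord a)) ∘ fun x => fderiv ℂ G x u := rfl
  rw [h3, h2]
  rfl

omit [NormedSpace ℝ V] [IsScalarTower ℝ ℂ V] [NormedSpace ℝ V₂] [IsScalarTower ℝ ℂ V₂] in
theorem pull_aux_coord_symm [FiniteDimensional ℂ V] [FiniteDimensional ℂ V₂] {κ : Type}
    (b : Module.Basis κ ℂ V₂) {G : V → V₂} {U : Set V}
    (hU : IsOpen U) (hG : DifferentiableOn ℂ G U) {t : V} (ht : t ∈ U) (u u' : V) (a : κ) :
    fderiv ℂ (fun x => b.repr (fderiv ℂ G x u) a) t u' =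
      fderiv ℂ (fun x => b.repr (fderiv ℂ G x u') a) t u := by
  rw [pull_aux_coord_fderiv b hU hG ht, pull_aux_coord_fderiv b hU hG ht,
    hol_fderiv_symm hU hG ht]

omit [IsScalarTower ℝ ℂ V₂] in
theorem pull_aux_dH_mul_const {g : V₂ → ℂ} {y : V₂} (hg : DifferentiableAt ℝ g y) (c : ℂ)
    (z : V₂) : dH (fun x => g x * c) y z = dH g y z * c := by
  have h := fderiv_mul_const hg c
  unfold dH
  rw [h]
  simp only [_root_.smul_apply, smul_eq_mul]
  ring

theorem pull_aux_second [FiniteDimensional ℂ V] [FiniteDimensional ℂ V₂] {w : V₂ → ℂ}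
    {G : V → V₂} {U : Set V} (hU : IsOpen U) (hG : DifferentiableOn ℂ G U) {t : V} (ht : t ∈ U)
    (hw : ContDiffAt ℝ ∞ w (G t)) {P Q : V → ℂ} (hP : DifferentiableOn ℂ P U)
    (hQ : DifferentiableOn ℂ Q U) (u v : V) :
    dH (fun x' => dA (fun x => w (G x) * P x * conj (Q x)) x' v) t u =
      dH (fun y => dA w y (fderiv ℂ G t v)) (G t) (fderiv ℂ G t u) * P t * conj (Q t) +
        dA w (G t) (fderiv ℂ G t v) * fderiv ℂ P t u * conj (Q t) +
        dH w (G t) (fderiv ℂ G t u) * P t * conj (fderiv ℂ Q t v) +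
        w (G t) * fderiv ℂ P t u * conj (fderiv ℂ Q t v) := by
  classical
  let b := Module.finBasis ℂ V₂
  have hUt := hU.mem_nhds ht
  have hGt : DifferentiableAt ℂ G t := hG.differentiableAt hUt
  have hPt : DifferentiableAt ℂ P t := hP.differentiableAt hUt
  have hQt : DifferentiableAt ℂ Q t := hQ.differentiableAt hUt
  have hw2 : ContDiffAt ℝ 2 w (G t) := hw.of_le pull_aux_two
  have hw1 : DifferentiableAt ℝ w (G t) := hw2.differentiableAt (by norm_num)
  have hev : ∀ᶠ y in 𝓝 (G t), DifferentiableAt ℝ w y :=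
    (hw2.eventually (by simp)).mono fun y hy => hy.differentiableAt (by norm_num)
  have hev' : ∀ᶠ x in 𝓝 t, DifferentiableAt ℝ w (G x) := hGt.continuousAt.eventually hev
  have hwe : ∀ z : V₂, DifferentiableAt ℝ (fun y => dA w y z) (G t) := fun z =>
    (contDiffAt_dA (n := 1) hw2 (by norm_num) z).differentiableAt (by norm_num)
  have hL : ∀ e, DifferentiableAt ℂ (fun x => b.repr (fderiv ℂ G x v) e * Q x) t := fun e =>
    ((pull_aux_coord b hU hG v e).differentiableAt hUt).mul hQt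
  have hDQ : DifferentiableAt ℂ (fun x => fderiv ℂ Q x v) t :=
    (pull_aux_app hU hQ v).differentiableAt hUt
  have h1 : (fun x' => dA (fun x => w (G x) * P x * conj (Q x)) x' v) =ᶠ[𝓝 t]
      fun x' => (∑ e, (fun y => dA w y (b e)) (G x') * P x' *
        conj ((fun x => b.repr (fderiv ℂ G x v) e * Q x) x')) +
          w (G x') * P x' * conj ((fun x => fderiv ℂ Q x v) x') := by
    filter_upwards [hUt, hev'] with x hx hwx
    have hUx := hU.mem_nhds hx
    rw [pull_aux_dA hwx (hG.differentiableAt hUx) (hP.differentiableAt hUx)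
      (hQ.differentiableAt hUx), dA_expand b, Finset.sum_mul, Finset.sum_mul]
    congr 1
    refine Finset.sum_congr rfl fun e _ => ?_
    simp only [map_mul]
    ring
  have h2 : ∀ e, DifferentiableAt ℝ (fun x' => (fun y => dA w y (b e)) (G x') * P x' *
      conj ((fun x => b.repr (fderiv ℂ G x v) e * Q x) x')) t := fun e =>
    pull_aux_diff (w := fun y => dA w y (b e)) (hwe (b e)) hGt hPt (hL e)
  have h3 : DifferentiableAt ℝ (fun x' => w (G x') * P x' *
      conj ((fun x => fderiv ℂ Q x v) x')) t := pull_aux_diff hw1 hGt hPt hDQ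
  have h4 : dH (fun y => dA w y (fderiv ℂ G t v)) (G t) (fderiv ℂ G t u) =
      ∑ e, dH (fun y => dA w y (b e)) (G t) (fderiv ℂ G t u) *
        conj (b.repr (fderiv ℂ G t v) e) := by
    have h5 : (fun y => dA w y (fderiv ℂ G t v)) =
        fun y => ∑ e, dA w y (b e) * conj (b.repr (fderiv ℂ G t v) e) :=
      funext fun y => dA_expand b w y _
    rw [h5, dH_sum Finset.univ (f := fun e y => dA w y (b e) * conj (b.repr (fderiv ℂ G t v) e))
      fun e _ => (hwe (b e)).mul_const _]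
    exact Finset.sum_congr rfl fun e _ => pull_aux_dH_mul_const (hwe (b e)) _ _
  rw [dH_congr h1, dH_add (DifferentiableAt.fun_sum fun e _ => h2 e) h3,
    dH_sum Finset.univ (f := fun e x' => (fun y => dA w y (b e)) (G x') * P x' *
      conj ((fun x => b.repr (fderiv ℂ G x v) e * Q x) x')) fun e _ => h2 e,
    pull_aux_dH hw1 hGt hPt hDQ, h4, dA_expand b w (G t) (fderiv ℂ G t v)]
  have h6 : ∀ e, dH (fun x' => (fun y => dA w y (b e)) (G x') * P x' *
      conj ((fun x => b.repr (fderiv ℂ G x v) e * Q x) x')) t u =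
      dH (fun y => dA w y (b e)) (G t) (fderiv ℂ G t u) * conj (b.repr (fderiv ℂ G t v) e) *
        P t * conj (Q t) + dA w (G t) (b e) * conj (b.repr (fderiv ℂ G t v) e) *
          fderiv ℂ P t u * conj (Q t) := fun e => by
    rw [pull_aux_dH (w := fun y => dA w y (b e)) (hwe (b e)) hGt hPt (hL e)]
    simp only [map_mul]
    ring
  simp only [h6, Finset.sum_add_distrib, Finset.sum_mul]
  ring

omit [NormedSpace ℝ V] [IsScalarTower ℝ ℂ V] [NormedSpace ℝ V₂] [IsScalarTower ℝ ℂ V₂] in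
theorem pull_aux_expand {κ : Type} [Fintype κ] (b : Module.Basis κ ℂ V₂) (W : Form V₂)
    (a₁ a₂ c₁ c₂ : V₂) :
    W a₁ a₂ c₁ c₂ = ∑ k : (κ × κ) × (κ × κ), W (b k.1.1) (b k.1.2) (b k.2.1) (b k.2.2) *
      (b.repr a₁ k.1.1 * b.repr a₂ k.1.2) * conj (b.repr c₁ k.2.1 * b.repr c₂ k.2.2) := by
  rw [form_expand' b W]
  simp only [Fintype.sum_prod_type]

theorem pull_aux_term_smooth [FiniteDimensional ℂ V] [FiniteDimensional ℂ V₂] {w : V₂ → ℂ}
    {G : V → V₂} {U : Set V} (hU : IsOpen U) (hG : DifferentiableOn ℂ G U) {t : V} (ht : t ∈ U)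
    (hw : ContDiffAt ℝ ∞ w (G t)) {P Q : V → ℂ} (hP : DifferentiableOn ℂ P U)
    (hQ : DifferentiableOn ℂ Q U) :
    ContDiffAt ℝ ∞ (fun x => w (G x) * P x * conj (Q x)) t := by
  have hUt := hU.mem_nhds ht
  have h1 : ContDiffAt ℝ ∞ G t :=
    ((hol_contDiffOn hU hG).contDiffAt hUt).restrict_scalars ℝ
  have h2 : ContDiffAt ℝ ∞ P t :=
    ((hol_contDiffOn hU hP).contDiffAt hUt).restrict_scalars ℝ
  have h3 : ContDiffAt ℝ ∞ Q t :=
    ((hol_contDiffOn hU hQ).contDiffAt hUt).restrict_scalars ℝ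
  have h4 : ContDiffAt ℝ ∞ (fun x => conj (Q x)) t :=
    Complex.conjCLE.contDiff.contDiffAt.comp t h3
  exact ((hw.comp t h1).mul h2).mul h4

theorem pull_smooth [FiniteDimensional ℂ V] [FiniteDimensional ℂ V₂] {W : V₂ → Form V₂}
    {G : V → V₂} {U : Set V} (hU : IsOpen U) (hG : DifferentiableOn ℂ G U) {t : V} (ht : t ∈ U)
    (hW : ∀ a b c d, ContDiffAt ℝ ∞ (fun y => W y a b c d) (G t)) (a b c d : V) :
    ContDiffAt ℝ ∞ (fun x => W (G x) (fderiv ℂ G x a) (fderiv ℂ G x b) (fderiv ℂ G x c)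
      (fderiv ℂ G x d)) t := by
  let e := Module.finBasis ℂ V₂
  have h : (fun x => W (G x) (fderiv ℂ G x a) (fderiv ℂ G x b) (fderiv ℂ G x c)
      (fderiv ℂ G x d)) = fun x => ∑ k : (Fin _ × Fin _) × (Fin _ × Fin _),
        W (G x) (e k.1.1) (e k.1.2) (e k.2.1) (e k.2.2) *
        (e.repr (fderiv ℂ G x a) k.1.1 * e.repr (fderiv ℂ G x b) k.1.2) *
          conj (e.repr (fderiv ℂ G x c) k.2.1 * e.repr (fderiv ℂ G x d) k.2.2) :=
    funext fun x => pull_aux_expand e _ _ _ _ _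
  rw [h]
  exact ContDiffAt.sum fun k _ =>
    pull_aux_term_smooth (w := fun y => W y (e k.1.1) (e k.1.2) (e k.2.1) (e k.2.2)) hU hG ht
      (hW _ _ _ _) ((pull_aux_coord e hU hG a _).mul (pull_aux_coord e hU hG b _))
      ((pull_aux_coord e hU hG c _).mul (pull_aux_coord e hU hG d _))

omit [NormedSpace ℝ V] [IsScalarTower ℝ ℂ V] [NormedSpace ℝ V₂] [IsScalarTower ℝ ℂ V₂] in
theorem pull_aux_cyc [FiniteDimensional ℂ V] [FiniteDimensional ℂ V₂] {κ : Type}
    (b : Module.Basis κ ℂ V₂) {G : V → V₂} {U : Set V}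
    (hU : IsOpen U) (hG : DifferentiableOn ℂ G U) {t : V} (ht : t ∈ U) (u : Fin 3 → V)
    (a a' : κ) :
    ∑ i : Fin 3, fderiv ℂ (fun x => b.repr (fderiv ℂ G x (u (i + 1))) a *
      b.repr (fderiv ℂ G x (u (i + 2))) a') t (u i) =
    ∑ i : Fin 3, fderiv ℂ (fun x => b.repr (fderiv ℂ G x (u (i + 1))) a' *
      b.repr (fderiv ℂ G x (u (i + 2))) a) t (u i) := by
  have hUt := hU.mem_nhds ht
  have h1 : ∀ (z z' z'' : V) (c c' : κ), fderiv ℂ (fun x => b.repr (fderiv ℂ G x z) c *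
      b.repr (fderiv ℂ G x z') c') t z'' =
      b.repr (fderiv ℂ G t z) c * fderiv ℂ (fun x => b.repr (fderiv ℂ G x z') c') t z'' +
        b.repr (fderiv ℂ G t z') c' * fderiv ℂ (fun x => b.repr (fderiv ℂ G x z) c) t z'' := by
    intro z z' z'' c c'
    rw [fderiv_fun_mul ((pull_aux_coord b hU hG z c).differentiableAt hUt)
      ((pull_aux_coord b hU hG z' c').differentiableAt hUt)]
    simp only [_root_.add_apply, _root_.smul_apply, smul_eq_mul]
  have e1 : (0 : Fin 3) + 1 = 1 := rfl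
  have e2 : (0 : Fin 3) + 2 = 2 := rfl
  have e3 : (1 : Fin 3) + 1 = 2 := rfl
  have e4 : (1 : Fin 3) + 2 = 0 := rfl
  have e5 : (2 : Fin 3) + 1 = 0 := rfl
  have e6 : (2 : Fin 3) + 2 = 1 := rfl
  simp only [h1, Fin.sum_univ_three, e1, e2, e3, e4, e5, e6]
  rw [pull_aux_coord_symm b hU hG ht (u 1) (u 0) a, pull_aux_coord_symm b hU hG ht (u 1) (u 0) a',
    pull_aux_coord_symm b hU hG ht (u 2) (u 0) a, pull_aux_coord_symm b hU hG ht (u 2) (u 0) a',
    pull_aux_coord_symm b hU hG ht (u 2) (u 1) a, pull_aux_coord_symm b hU hG ht (u 2) (u 1) a']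
  ring

omit [IsScalarTower ℝ ℂ V₂] in
theorem pull_aux_dH_neg (g : V₂ → ℂ) (y z : V₂) : dH (fun x => -g x) y z = -dH g y z := by
  unfold dH
  rw [fderiv_fun_neg]
  simp only [_root_.neg_apply]
  ring

omit [IsScalarTower ℝ ℂ V₂] in
theorem pull_aux_dA_neg (g : V₂ → ℂ) (y z : V₂) : dA (fun x => -g x) y z = -dA g y z := by
  unfold dA
  rw [fderiv_fun_neg]
  simp only [_root_.neg_apply]
  ring

theorem pull_ddbar [FiniteDimensional ℂ V] [FiniteDimensional ℂ V₂] {W : V₂ → Form V₂}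
    (hl : ∀ y u v₁ v₂, W y u u v₁ v₂ = 0) (hr : ∀ y u₁ u₂ v, W y u₁ u₂ v v = 0)
    {G : V → V₂} {U : Set V} (hU : IsOpen U) (hG : DifferentiableOn ℂ G U) {t : V} (ht : t ∈ U)
    (hW : ∀ a b c d, ContDiffAt ℝ ∞ (fun y => W y a b c d) (G t)) (u v : Fin 3 → V) :
    ddbar (fun x a b c d => W (G x) (fderiv ℂ G x a) (fderiv ℂ G x b) (fderiv ℂ G x c)
      (fderiv ℂ G x d)) t u v =
    ddbar (fun y a b c d => W y a b c d) (G t) (fun i => fderiv ℂ G t (u i))
      (fun i => fderiv ℂ G t (v i)) := by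
  let e := Module.finBasis ℂ V₂
  let κ := Fin (Module.finrank ℂ V₂)
  let w : (κ × κ) × (κ × κ) → V₂ → ℂ := fun k y => W y (e k.1.1) (e k.1.2) (e k.2.1) (e k.2.2)
  let P : V → V → κ × κ → V → ℂ := fun a b k x =>
    e.repr (fderiv ℂ G x a) k.1 * e.repr (fderiv ℂ G x b) k.2
  have hw : ∀ k, ContDiffAt ℝ ∞ (w k) (G t) := fun k => hW _ _ _ _
  have hP : ∀ a b k, DifferentiableOn ℂ (P a b k) U := fun a b k =>
    (pull_aux_coord e hU hG a _).mul (pull_aux_coord e hU hG b _)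
  have two := pull_aux_two
  have h1 : (fun x a b c d => W (G x) (fderiv ℂ G x a) (fderiv ℂ G x b) (fderiv ℂ G x c)
      (fderiv ℂ G x d)) = fun x a b c d => ∑ k : (κ × κ) × (κ × κ),
        (fun (k : (κ × κ) × (κ × κ)) x a b c d =>
          w k (G x) * P a b k.1 x * conj (P c d k.2 x)) k x a b c d := by
    funext x a b c d
    exact pull_aux_expand e _ _ _ _ _
  have h2 : (fun y a b c d => W y a b c d) = fun y a b c d => ∑ k : (κ × κ) × (κ × κ),
        (fun (k : (κ × κ) × (κ × κ)) y a b c d =>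
          w k (id y) * (fun _ => e.repr a k.1.1 * e.repr b k.1.2) y *
            conj ((fun _ => e.repr c k.2.1 * e.repr d k.2.2) y)) k y a b c d := by
    funext x a b c d
    exact pull_aux_expand e _ _ _ _ _
  rw [h1, h2, ddbar_sum _ fun k _ a b c d =>
      (pull_aux_term_smooth hU hG ht (hw k) (hP a b k.1) (hP c d k.2)).of_le two,
    ddbar_sum _ fun k _ a b c d =>
      (pull_aux_term_smooth (G := id) isOpen_univ differentiableOn_id (mem_univ (G t)) (hw k)
        (differentiableOn_const _) (differentiableOn_const _)).of_le two]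
  have h3 : ∀ k : (κ × κ) × (κ × κ), ddbar (fun x a b c d =>
      w k (G x) * P a b k.1 x * conj (P c d k.2 x)) t u v =
      ddbar (fun y a b c d => w k (id y) * (fun _ => e.repr a k.1.1 * e.repr b k.1.2) y *
        conj ((fun _ => e.repr c k.2.1 * e.repr d k.2.2) y)) (G t)
          (fun i => fderiv ℂ G t (u i)) (fun i => fderiv ℂ G t (v i)) +
      ((∑ j : Fin 3, (dA (w k) (G t) (fderiv ℂ G t (v j)) *
          conj (P (v (j + 1)) (v (j + 2)) k.2 t) +
          w k (G t) * conj (fderiv ℂ (P (v (j + 1)) (v (j + 2)) k.2) t (v j)))) *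
        ∑ i : Fin 3, fderiv ℂ (P (u (i + 1)) (u (i + 2)) k.1) t (u i)) +
      (∑ i : Fin 3, dH (w k) (G t) (fderiv ℂ G t (u i)) * P (u (i + 1)) (u (i + 2)) k.1 t) *
        conj (∑ j : Fin 3, fderiv ℂ (P (v (j + 1)) (v (j + 2)) k.2) t (v j)) := by
    intro k
    unfold ddbar
    have h4 : ∀ i j : Fin 3, dH (fun y' => dA (fun y'' => w k (id y'') *
        (fun _ => e.repr (fderiv ℂ G t (u (i + 1))) k.1.1 *
          e.repr (fderiv ℂ G t (u (i + 2))) k.1.2) y'' *
        conj ((fun _ => e.repr (fderiv ℂ G t (v (j + 1))) k.2.1 *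
          e.repr (fderiv ℂ G t (v (j + 2))) k.2.2) y'')) y' (fderiv ℂ G t (v j))) (G t)
          (fderiv ℂ G t (u i)) =
        dH (fun y => dA (w k) y (fderiv ℂ G t (v j))) (G t) (fderiv ℂ G t (u i)) *
          P (u (i + 1)) (u (i + 2)) k.1 t * conj (P (v (j + 1)) (v (j + 2)) k.2 t) := by
      intro i j
      rw [pull_aux_second (G := id) isOpen_univ differentiableOn_id (mem_univ (G t)) (hw k)
        (differentiableOn_const _) (differentiableOn_const _)]
      simp [P]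
    simp only [h4, pull_aux_second hU hG ht (hw k) (hP _ _ k.1) (hP _ _ k.2), map_sum]
    simp only [Fin.sum_univ_three]
    ring
  rw [Finset.sum_congr rfl fun k _ => h3 k, Finset.sum_add_distrib, Finset.sum_add_distrib]
  have hsl : ∀ (k : (κ × κ) × (κ × κ)), w (k.1.swap, k.2) = fun y => -w k y := fun k =>
    funext fun y => form_swap_left (W y) (hl y) _ _ _ _
  have hsr : ∀ (k : (κ × κ) × (κ × κ)), w (k.1, k.2.swap) = fun y => -w k y := fun k =>
    funext fun y => form_swap_right (W y) (hr y) _ _ _ _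
  have hc : ∀ (z : Fin 3 → V) (k : κ × κ),
      ∑ i : Fin 3, fderiv ℂ (P (z (i + 1)) (z (i + 2)) k.swap) t (z i) =
      ∑ i : Fin 3, fderiv ℂ (P (z (i + 1)) (z (i + 2)) k) t (z i) := fun z k =>
    pull_aux_cyc e hU hG ht z k.2 k.1
  have h5 : ∑ k : (κ × κ) × (κ × κ),
      ((∑ j : Fin 3, (dA (w k) (G t) (fderiv ℂ G t (v j)) *
          conj (P (v (j + 1)) (v (j + 2)) k.2 t) +
          w k (G t) * conj (fderiv ℂ (P (v (j + 1)) (v (j + 2)) k.2) t (v j)))) *
        ∑ i : Fin 3, fderiv ℂ (P (u (i + 1)) (u (i + 2)) k.1) t (u i)) = 0 := by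
    refine pull_aux_anti ((Equiv.prodComm κ κ).prodCongr (Equiv.refl _)) _ fun k => ?_
    have h6 : ((Equiv.prodComm κ κ).prodCongr (Equiv.refl (κ × κ))) k = (k.1.swap, k.2) := rfl
    rw [h6, hsl k]
    simp only [hc, pull_aux_dA_neg, Fin.sum_univ_three]
    ring
  have h7 : ∑ k : (κ × κ) × (κ × κ),
      (∑ i : Fin 3, dH (w k) (G t) (fderiv ℂ G t (u i)) * P (u (i + 1)) (u (i + 2)) k.1 t) *
        conj (∑ j : Fin 3, fderiv ℂ (P (v (j + 1)) (v (j + 2)) k.2) t (v j)) = 0 := by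
    refine pull_aux_anti ((Equiv.refl _).prodCongr (Equiv.prodComm κ κ)) _ fun k => ?_
    have h6 : ((Equiv.refl (κ × κ)).prodCongr (Equiv.prodComm κ κ)) k = (k.1, k.2.swap) := rfl
    rw [h6, hsr k]
    simp only [hc, pull_aux_dH_neg]
    simp only [neg_mul, Finset.sum_neg_distrib]
  rw [h5, h7, add_zero, add_zero]

end Pool.Agent.Lib.MP_823829_an
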