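import Pool.Agent.Lib.MP_823829_an.MB2
import Pool.Agent.Lib.MP_823829_an.Pull

/-! The pulled back form. -/

namespace Pool.Agent.Lib.MP_823829_an

open Set Metric Filter MeasureTheory
open scoped Topology ENNReal NNReal ContDiff ComplexConjugate

variable {X : Type*} [TopologicalSpace X] {m : ℕ} {a : Atl X m}
  {T : Type} [NormedAddCommGroup T] [NormedSpace ℂ T] [NormedSpace ℝ T] [IsScalarTower ℝ ℂ T]
  [FiniteDimensional ℂ T]

theorem wc_alt (Ω : Frm a) (i : Fin a.n) : (∀ y u v₁ v₂, Wc Ω i y u u v₁ v₂ = 0) ∧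
    ∀ y u₁ u₂ v, Wc Ω i y u₁ u₂ v v = 0 := by
  constructor
  · intro y u v₁ v₂
    unfold Wc
    by_cases hy : y ∈ (a.e i).target
    · simp [indicator_of_mem hy, Ω.altl]
    · simp [indicator_of_notMem hy]
  · intro y u₁ u₂ v
    unfold Wc
    by_cases hy : y ∈ (a.e i).target
    · simp [indicator_of_mem hy, Ω.altr]
    · simp [indicator_of_notMem hy]

theorem wc_supp [CompactSpace X] (Ω : Frm a) (i : Fin a.n) : ∃ K : Set (Fin m → ℂ), IsCompact K ∧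
    K ⊆ (a.e i).target ∧ ∀ y, y ∉ K → Wc Ω i y = 0 := by
  refine ⟨a.e i '' tsupport (Ω.ρ i), (isClosed_tsupport _).isCompact.image_of_continuousOn
    ((a.e i).continuousOn.mono (Ω.supp i)), ?_, ?_⟩
  · rintro _ ⟨x, hx, rfl⟩
    exact (a.e i).map_source (Ω.supp i hx)
  · intro y hy
    unfold Wc
    by_cases ht : y ∈ (a.e i).target
    · have h0 : Ω.ρ i ((a.e i).symm y) = 0 := by
        apply image_eq_zero_of_notMem_tsupport
        intro h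
        exact hy ⟨_, h, (a.e i).right_inv ht⟩
      simp [indicator_of_mem ht, h0]
    · simp [indicator_of_notMem ht]

theorem wc_smooth [CompactSpace X] (Ω : Frm a) (i : Fin a.n) (u₁ u₂ v₁ v₂ : Fin m → ℂ) :
    ContDiff ℝ ∞ fun y => Wc Ω i y u₁ u₂ v₁ v₂ := by
  rw [contDiff_iff_contDiffAt]
  intro y
  by_cases ht : y ∈ (a.e i).target
  · have hn := (a.e i).open_target.mem_nhds ht
    have h1 : ContDiffAt ℝ ∞ (fun y => ((Ω.ρ i ((a.e i).symm y) : ℝ) : ℂ)) y :=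
      Complex.ofRealCLM.contDiff.contDiffAt.comp y ((Ω.rsmooth i i).contDiffAt hn)
    refine (h1.mul ((Ω.smooth i u₁ u₂ v₁ v₂).contDiffAt hn)).congr_of_eventuallyEq ?_
    filter_upwards [hn] with z hz
    simp [Wc, indicator_of_mem hz]
  · obtain ⟨K, hK, hs, h0⟩ := wc_supp Ω i
    refine (contDiffAt_const (c := (0 : ℂ))).congr_of_eventuallyEq ?_
    filter_upwards [hK.isClosed.isOpen_compl.mem_nhds fun h => ht (hs h)] with z hz
    simp [h0 z hz]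

omit [NormedSpace ℝ T] [IsScalarTower ℝ ℂ T] [FiniteDimensional ℂ T] in
theorem pbI_eq_wc (Ω : Frm a) (i : Fin a.n) {f : T → X} {t : T} (hi : f t ∈ (a.e i).source)
    (u₁ u₂ v₁ v₂ : T) :
    pbI Ω i f t u₁ u₂ v₁ v₂ = Wc Ω i (a.e i (f t)) (fderiv ℂ (a.e i ∘ f) t u₁)
      (fderiv ℂ (a.e i ∘ f) t u₂) (fderiv ℂ (a.e i ∘ f) t v₁) (fderiv ℂ (a.e i ∘ f) t v₂) := by
  simp [pbI, Wc, indicator_of_mem ((a.e i).map_source hi), (a.e i).left_inv hi]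

omit [NormedSpace ℝ T] [IsScalarTower ℝ ℂ T] [FiniteDimensional ℂ T] in
theorem pbI_zero (Ω : Frm a) (i : Fin a.n) {f : T → X} {t : T} (hc : ContinuousAt f t)
    (hi : f t ∉ (a.e i).source) : ∀ᶠ t' in 𝓝 t, pbI Ω i f t' = fun _ _ _ _ => 0 := by
  have h1 : (tsupport (Ω.ρ i))ᶜ ∈ 𝓝 (f t) :=
    (isClosed_tsupport _).isOpen_compl.mem_nhds fun h => hi (Ω.supp i h)
  filter_upwards [hc h1] with t' ht'
  have h0 : Ω.ρ i (f t') = 0 := image_eq_zero_of_notMem_tsupport ht'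
  funext u₁ u₂ v₁ v₂
  simp [pbI, h0]

omit [NormedSpace ℝ T] [IsScalarTower ℝ ℂ T] [FiniteDimensional ℂ T] in
theorem pb_congr (Ω : Frm a) {f f' : T → X} {t : T} (h : f =ᶠ[𝓝 t] f') :
    pb Ω f =ᶠ[𝓝 t] pb Ω f' := by
  filter_upwards [h.eventuallyEq_nhds] with t' ht'
  funext u₁ u₂ v₁ v₂
  unfold pb pbI
  refine Finset.sum_congr rfl fun i _ => ?_
  rw [(ht'.fun_comp (a.e i)).fderiv_eq, ht'.self_of_nhds]

omit [NormedSpace ℝ T] [IsScalarTower ℝ ℂ T] [FiniteDimensional ℂ T] in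
theorem pb_eq (Ω : Frm a) (i : Fin a.n) {f : T → X} {t : T} (hf : HolAt a f t)
    (hi : f t ∈ (a.e i).source) (u₁ u₂ v₁ v₂ : T) :
    pb Ω f t u₁ u₂ v₁ v₂ = Ω.W i (a.e i (f t)) (fderiv ℂ (a.e i ∘ f) t u₁)
      (fderiv ℂ (a.e i ∘ f) t u₂) (fderiv ℂ (a.e i ∘ f) t v₁) (fderiv ℂ (a.e i ∘ f) t v₂) := by
  have key : ∀ j, pbI Ω j f t u₁ u₂ v₁ v₂ = (Ω.ρ j (f t) : ℂ) * Ω.W i (a.e i (f t))
      (fderiv ℂ (a.e i ∘ f) t u₁) (fderiv ℂ (a.e i ∘ f) t u₂) (fderiv ℂ (a.e i ∘ f) t v₁)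
      (fderiv ℂ (a.e i ∘ f) t v₂) := by
    intro j
    by_cases hj : f t ∈ (a.e j).source
    · have hj' : (a.e i).symm (a.e i (f t)) ∈ (a.e j).source := by
        rw [(a.e i).left_inv hi]; exact hj
      have he : a.e j ∘ f =ᶠ[𝓝 t] (a.e j ∘ (a.e i).symm) ∘ (a.e i ∘ f) := by
        filter_upwards [hf.1 ((a.e i).open_source.mem_nhds hi)] with t' ht'
        simp [(a.e i).left_inv ht']
      have hd : fderiv ℂ (a.e j ∘ f) t = (fderiv ℂ (a.e j ∘ (a.e i).symm) (a.e i (f t))).comp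
          (fderiv ℂ (a.e i ∘ f) t) := by
        rw [he.fderiv_eq]
        exact fderiv_comp t (a.differentiableAt i j ((a.e i).map_source hi) hj') (hf.2 i hi)
      rw [Ω.compat i j _ ((a.e i).map_source hi) hj', (a.e i).left_inv hi]
      simp only [pbI, hd, ContinuousLinearMap.comp_apply]
    · have h0 : Ω.ρ j (f t) = 0 := image_eq_zero_of_notMem_tsupport fun h => hj (Ω.supp j h)
      simp [pbI, h0]
  unfold pb
  simp only [key]
  rw [← Finset.sum_mul, ← Complex.ofReal_sum, Ω.sum_one]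
  simp

omit [NormedSpace ℝ T] [IsScalarTower ℝ ℂ T] [FiniteDimensional ℂ T] in
theorem pb_nonneg (Ω : Frm a) {f : T → X} {t : T} (hf : HolAt a f t) (u v : T) :
    0 ≤ (pb Ω f t u v u v).re := by
  obtain ⟨i, hi⟩ := a.cov (f t)
  rw [pb_eq Ω i hf hi]
  exact form_nonneg _ (Ω.altl i _) (Ω.pos i _ ((a.e i).map_source hi)) _ _

theorem pbI_smooth (Ω : Frm a) (i : Fin a.n) {f : T → X} {D : Set T} (hD : IsOpen D)
    (hf : ∀ t ∈ D, HolAt a f t) {t : T} (ht : t ∈ D) (u₁ u₂ v₁ v₂ : T) :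
    ContDiffAt ℝ ∞ (fun t => pbI Ω i f t u₁ u₂ v₁ v₂) t := by
  by_cases hi : f t ∈ (a.e i).source
  · obtain ⟨hU, hG⟩ := holAt_chart hD hf i
    have htU : t ∈ D ∩ f ⁻¹' (a.e i).source := ⟨ht, hi⟩
    have hn := (a.e i).open_target.mem_nhds ((a.e i).map_source hi)
    have hc : ContDiffAt ℝ ∞ (a.e i ∘ f) t :=
      ((hol_contDiffOn hU hG).contDiffAt (hU.mem_nhds htU)).restrict_scalars ℝ
    have h1 : ContDiffAt ℝ ∞ ((Ω.ρ i ∘ (a.e i).symm) ∘ (a.e i ∘ f)) t :=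
      ContDiffAt.comp t ((Ω.rsmooth i i).contDiffAt hn) hc
    have h2 : ContDiffAt ℝ ∞ (fun t => Ω.ρ i (f t)) t := by
      refine h1.congr_of_eventuallyEq ?_
      filter_upwards [hU.mem_nhds htU] with t' ht'
      simp [(a.e i).left_inv ht'.2]
    have h3 : ContDiffAt ℝ ∞ (fun t => ((Ω.ρ i (f t) : ℝ) : ℂ)) t :=
      Complex.ofRealCLM.contDiff.contDiffAt.comp t h2
    exact h3.mul (pull_smooth (W := Ω.W i) hU hG htU
      (fun b c d e => (Ω.smooth i b c d e).contDiffAt hn) u₁ u₂ v₁ v₂)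
  · refine (contDiffAt_const (c := (0 : ℂ))).congr_of_eventuallyEq ?_
    filter_upwards [pbI_zero Ω i (hf t ht).1 hi] with t' ht'
    rw [ht']

theorem pb_smooth (Ω : Frm a) {f : T → X} {D : Set T} (hD : IsOpen D)
    (hf : ∀ t ∈ D, HolAt a f t) {t : T} (ht : t ∈ D) (u₁ u₂ v₁ v₂ : T) :
    ContDiffAt ℝ ∞ (fun t => pb Ω f t u₁ u₂ v₁ v₂) t := by
  unfold pb
  exact ContDiffAt.sum fun i _ => pbI_smooth Ω i hD hf ht u₁ u₂ v₁ v₂

theorem pb_ddbar (Ω : Frm a) {f : T → X} {D : Set T} (hD : IsOpen D)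
    (hf : ∀ t ∈ D, HolAt a f t) {t : T} (ht : t ∈ D) (u v : Fin 3 → T) :
    ddbar (pb Ω f) t u v = 0 := by
  obtain ⟨i, hi⟩ := a.cov (f t)
  obtain ⟨hU, hG⟩ := holAt_chart hD hf i
  have htU : t ∈ D ∩ f ⁻¹' (a.e i).source := ⟨ht, hi⟩
  have hn := (a.e i).open_target.mem_nhds ((a.e i).map_source hi)
  have he : pb Ω f =ᶠ[𝓝 t] fun x b c d e => Ω.W i ((a.e i ∘ f) x) (fderiv ℂ (a.e i ∘ f) x b)
      (fderiv ℂ (a.e i ∘ f) x c) (fderiv ℂ (a.e i ∘ f) x d) (fderiv ℂ (a.e i ∘ f) x e) := by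
    filter_upwards [hU.mem_nhds htU] with t' ht'
    funext b c d e
    exact pb_eq Ω i (hf t' ht'.1) ht'.2 b c d e
  rw [ddbar_congr he, pull_ddbar (W := Ω.W i) (Ω.altl i) (Ω.altr i) hU hG htU
    (fun b c d e => (Ω.smooth i b c d e).contDiffAt hn)]
  exact Ω.dd i _ ((a.e i).map_source hi) _ _

theorem fd_nonneg [Nonempty X] (Ω : Frm a) (Γ : Set (C4 × X)) (t : C4) : 0 ≤ fd Ω Γ t := by
  unfold fd
  exact indicator_nonneg (fun t ht => pb_nonneg Ω ((graphOn_reg Γ).1 t ht) _ _) t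

theorem measurable_fd [Nonempty X] (Ω : Frm a) (Γ : Set (C4 × X)) : Measurable (fd Ω Γ) := by
  classical
  have hc : ContinuousOn
      (fun t => (pb Ω (gf Γ) t (0, e2 0) (0, e2 1) (0, e2 0) (0, e2 1)).re) (reg a Γ) := by
    intro t ht
    exact (Complex.continuous_re.continuousAt.comp
      (pb_smooth Ω (isOpen_reg Γ) (graphOn_reg Γ).1 ht _ _ _ _).continuousAt).continuousWithinAt
  have h := hc.measurable_piecewise (continuousOn_const (c := (0 : ℝ)))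
    (isOpen_reg (a := a) Γ).measurableSet
  convert h using 1
  funext t
  unfold fd
  by_cases ht : t ∈ reg a Γ
  · simp [ht]
  · simp [ht]

/-- The cut off form of the chart i, seen on the product of the total space and the chart. -/
theorem exists_chart_form [CompactSpace X] (Ω : Frm a) (i : Fin a.n) {χ : C2 → ℝ}
    (hχ : ContDiff ℝ ∞ χ) :
    ∃ 𝒲 : C4 × (Fin m → ℂ) → Form (C4 × (Fin m → ℂ)),
      (∀ p u v₁ v₂, 𝒲 p u u v₁ v₂ = 0) ∧ (∀ p u₁ u₂ v, 𝒲 p u₁ u₂ v v = 0) ∧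
      (∀ u₁ u₂ v₁ v₂, ContDiff ℝ ∞ fun p => 𝒲 p u₁ u₂ v₁ v₂) ∧
      ∀ p u₁ u₂ v₁ v₂, 𝒲 p u₁ u₂ v₁ v₂ =
        ((χ p.1.2 ^ 2 : ℝ) : ℂ) * Wc Ω i p.2 u₁.2 u₂.2 v₁.2 v₂.2 := by
  obtain ⟨P, hP⟩ := exists_form_comap (LinearMap.snd ℂ C4 (Fin m → ℂ))
  have key : ∀ (p u₁ u₂ v₁ v₂ : C4 × (Fin m → ℂ)),
      (((χ p.1.2 ^ 2 : ℝ) : ℂ) • P (Wc Ω i p.2)) u₁ u₂ v₁ v₂ =
        ((χ p.1.2 ^ 2 : ℝ) : ℂ) * Wc Ω i p.2 u₁.2 u₂.2 v₁.2 v₂.2 := by
    intro p u₁ u₂ v₁ v₂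
    simp only [LinearMap.smul_apply, hP, smul_eq_mul, LinearMap.snd_apply]
  refine ⟨fun p => ((χ p.1.2 ^ 2 : ℝ) : ℂ) • P (Wc Ω i p.2), ?_, ?_, ?_, key⟩
  · intro p u v₁ v₂
    rw [key, (wc_alt Ω i).1, mul_zero]
  · intro p u₁ u₂ v
    rw [key, (wc_alt Ω i).2, mul_zero]
  · intro u₁ u₂ v₁ v₂
    simp only [key]
    have h1 : ContDiff ℝ ∞ fun p : C4 × (Fin m → ℂ) => χ p.1.2 ^ 2 :=
      (hχ.comp (contDiff_snd.comp contDiff_fst)).pow 2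
    exact (Complex.ofRealCLM.contDiff.comp h1).mul
      ((wc_smooth Ω i u₁.2 u₂.2 v₁.2 v₂.2).comp contDiff_snd)

end Pool.Agent.Lib.MP_823829_an
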