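import Pool.Agent.Lib.MP_823829_an.MThin
import Pool.Agent.Lib.MP_823829_an.PB
import Pool.Agent.Lib.MP_823829_an.Mu1
import Pool.Agent.Lib.MP_823829_an.Geo

/-! Integrability of the area function. -/

namespace Pool.Agent.Lib.MP_823829_an

open Set Metric Filter MeasureTheory
open scoped Topology ENNReal NNReal ContDiff ComplexConjugate

variable {X : Type*} [TopologicalSpace X] [T2Space X] [CompactSpace X] [Nonempty X] {m : ℕ}
  {a : Atl X m}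

theorem mua_aux_chart (Ω : Frm a) {U : Set C2} {ρ₂ ρ₃ : ℝ} {χ : C2 → ℝ} (hχ : Cut χ ρ₃ ρ₂)
    {Γ : Set (C4 × X)} (h : MG a (U ×ˢ ball 0 ρ₂) Γ) {φ : C2 → ℝ} (hφ : Continuous φ)
    (hc : HasCompactSupport φ) (hs : tsupport φ ⊆ U) (i : Fin a.n) :
    IntegrableOn (fun t : C4 => φ t.1 * (χ t.2 ^ 2 *
      (pbI Ω i (gf Γ) t (0, e2 0) (0, e2 1) (0, e2 0) (0, e2 1)).re)) (regI a i Γ) := by
  obtain ⟨𝒲, hl, hr, hsm, hW⟩ := exists_chart_form Ω i hχ.smooth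
  obtain ⟨K, hK, hKt, hK0⟩ := wc_supp Ω i
  have h1 := mu1_int (h.gs i) hl hr (fun a b c d => (hsm a b c d).continuous)
    (φ := fun z => (φ z : ℂ)) (Complex.continuous_ofReal.comp hφ)
    (K := (tsupport φ ×ˢ tsupport χ) ×ˢ K) ((hc.isCompact.prod hχ.cpt.isCompact).prod hK)
    (fun p hp => ⟨⟨hs hp.1.1, hχ.supp hp.1.2⟩, hKt hp.2⟩) fun p hp hn => by
      refine LinearMap.ext fun u₁ => LinearMap.ext fun u₂ => LinearMap.ext fun v₁ =>
        LinearMap.ext fun v₂ => ?_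
      rw [hW]
      by_cases h2 : p.1.2 ∈ tsupport χ
      · rw [hK0 p.2 fun h3 => hn ⟨⟨tsupport_comp_subset Complex.ofReal_zero φ hp, h2⟩, h3⟩]
        simp
      · rw [image_eq_zero_of_notMem_tsupport h2]
        simp
  refine IntegrableOn.congr_fun h1.re (fun t ht => ?_) (isOpen_regI i Γ).measurableSet
  simp only [hW, pbI_eq_wc Ω i ht.2, tg, RCLike.re_to_complex, Complex.re_ofReal_mul,
    Function.comp_apply]

theorem mu_int (Ω : Frm a) {U : Set C2} {ρ₂ ρ₃ : ℝ} {χ : C2 → ℝ} (hχ : Cut χ ρ₃ ρ₂)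
    {Γ : Set (C4 × X)} (h : MG a (U ×ˢ ball 0 ρ₂) Γ) {φ : C2 → ℝ} (hφ : Continuous φ)
    (hc : HasCompactSupport φ) (hs : tsupport φ ⊆ U) :
    Integrable fun t : C4 => φ t.1 * (χ t.2 ^ 2 * fd Ω Γ t) := by
  refine (integrable_finsetSum Finset.univ fun i _ => (mua_aux_chart Ω hχ h hφ hc hs
    i).integrable_indicator (isOpen_regI i Γ).measurableSet).congr
      (Eventually.of_forall fun t => ?_)
  by_cases ht : t ∈ reg a Γ
  · simp only [fd, indicator_of_mem ht, pb, Complex.re_sum, Finset.mul_sum]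
    refine Finset.sum_congr rfl fun i _ => ?_
    by_cases hi : gf Γ t ∈ (a.e i).source
    · exact indicator_of_mem (show t ∈ regI a i Γ from ⟨ht, hi⟩) _
    · rw [indicator_of_notMem fun h1 : t ∈ regI a i Γ => hi h1.2,
        (pbI_zero Ω i ((graphOn_reg Γ).1 t ht).1 hi).self_of_nhds]
      simp
  · simp only [fd, indicator_of_notMem ht, mul_zero]
    exact Finset.sum_eq_zero fun i _ => indicator_of_notMem (fun h1 => ht h1.1) _

omit [T2Space X] [CompactSpace X] in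
theorem mu_nonneg (Ω : Frm a) (Γ : Set (C4 × X)) (χ : C2 → ℝ) (z : C2) : 0 ≤ mu Ω Γ χ z :=
  integral_nonneg fun _ => mul_nonneg (sq_nonneg _) (fd_nonneg Ω Γ _)

theorem mu_loc (Ω : Frm a) {U : Set C2} (hU : IsOpen U) {ρ₂ ρ₃ : ℝ} {χ : C2 → ℝ}
    (hχ : Cut χ ρ₃ ρ₂) {Γ : Set (C4 × X)} (h : MG a (U ×ˢ ball 0 ρ₂) Γ) :
    LocallyIntegrableOn (mu Ω Γ χ) U ∧
      ∀ᵐ z : C2, z ∈ U → Integrable fun w => χ w ^ 2 * fd Ω Γ (z, w) := by
  have key : ∀ x ∈ U, ∃ K ∈ 𝓝 x, IntegrableOn (mu Ω Γ χ) K ∧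
      ∀ᵐ z : C2, z ∈ K → Integrable fun w => χ w ^ 2 * fd Ω Γ (z, w) := by
    intro x hx
    obtain ⟨K, hK, hKU, hKc⟩ := local_compact_nhds (hU.mem_nhds hx)
    obtain ⟨ϱ, h1, h2, h3, h4, -⟩ := exists_bump hKc hU hKU
    have h5 := mu_int Ω hχ h h1.continuous h2 h3
    rw [Measure.volume_eq_prod] at h5
    refine ⟨K, hK, h5.integral_prod_left.integrableOn.congr_fun (fun z hz => ?_)
      hKc.measurableSet, h5.prod_right_ae.mono fun z hz hzK => ?_⟩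
    · simp only [h4 z hz, one_mul, mu]
    · simpa only [h4 z hzK, one_mul] using hz
  refine ⟨fun x hx => ?_, ?_⟩
  · obtain ⟨K, hK, h1, -⟩ := key x hx
    exact ⟨K, mem_nhdsWithin_of_mem_nhds hK, h1⟩
  · refine measure_null_of_locally_null _ fun x hx => ?_
    obtain ⟨K, hK, -, h1⟩ := key x (Classical.not_imp.1 hx).1
    refine ⟨_, inter_mem_nhdsWithin _ hK, measure_mono_null ?_ (ae_iff.1 h1)⟩
    exact fun z hz h2 => hz.1 fun _ => h2 hz.2

theorem mu_fubini (Ω : Frm a) {U : Set C2} {ρ₂ ρ₃ : ℝ} {χ : C2 → ℝ} (hχ : Cut χ ρ₃ ρ₂)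
    {Γ : Set (C4 × X)} (h : MG a (U ×ˢ ball 0 ρ₂) Γ) {φ : C2 → ℝ} (hφ : Continuous φ)
    (hc : HasCompactSupport φ) (hs : tsupport φ ⊆ U) :
    ∫ z, mu Ω Γ χ z * φ z = ∫ t : C4, φ t.1 * (χ t.2 ^ 2 * fd Ω Γ t) := by
  have h1 := mu_int Ω hχ h hφ hc hs
  rw [Measure.volume_eq_prod] at h1 ⊢
  rw [integral_prod _ h1]
  simp only [integral_const_mul, mu, mul_comm]

theorem slice_null {U B : Set C2} {Γ : Set (C4 × X)} (h : MG a (U ×ˢ B) Γ) :
    ∀ᵐ z : C2, z ∈ U → volume {w ∈ B | (z, w) ∉ reg a Γ} = 0 := by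
  have := Measure.prod.instIsAddHaarMeasure (volume : Measure C2) (volume : Measure C2)
  filter_upwards [Measure.measure_ae_null_of_prod_null
    (h.null ((volume : Measure C2).prod (volume : Measure C2)))] with z hz hzU
  exact measure_mono_null (t := Prod.mk z ⁻¹' (U ×ˢ B \ reg a Γ))
    (fun w hw => ⟨⟨hzU, hw.1⟩, hw.2⟩) hz

end Pool.Agent.Lib.MP_823829_an
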