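import Pool.Agent.Lib.MP_823829_an.Glob
import Pool.Agent.Lib.MP_823829_an.BR2
import Pool.Agent.Lib.MP_823829_an.BR3

/-! The extension theorem in the language of the statement. -/

namespace Pool.Agent.Lib.MP_823829_an

open Set Metric Filter MeasureTheory
open scoped Topology ENNReal NNReal ContDiff ComplexConjugate Manifold

variable {m : ℕ} {X : Type*} [TopologicalSpace X] [ChartedSpace (Fin m → ℂ) X]
  [IsManifold 𝓘(ℂ, Fin m → ℂ) 1 X] [CompactSpace X] [T2Space X]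

theorem main_irr [Nonempty X] (a : Atl X m) (ha : ∀ i, a.e i ∈ atlas (Fin m → ℂ) X) {U : Set C4}
    {Γ : Set (C4 × X)} (h : MG a U Γ) (hc : IsConnected U) : IsIrreducibleIn m U Γ := by
  refine ⟨(analyticIn_iff a ha U Γ).2 h.an, ?_, ?_⟩
  · obtain ⟨t, ht⟩ := hc.nonempty
    obtain ⟨x, hx⟩ := h.fibre_nonempty ht
    exact ⟨(t, x), hx⟩
  · intro Z₁ Z₂ h₁ h₂ he
    exact h.irr hc.isPreconnected ((analyticIn_iff a ha U Z₁).1 h₁)
      ((analyticIn_iff a ha U Z₂).1 h₂) he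

theorem main_mero [Nonempty X] (a : Atl X m) (ha : ∀ i, a.e i ∈ atlas (Fin m → ℂ) X) {U : Set C4}
    {Γ : Set (C4 × X)} (h : MG a U Γ) (hc : IsConnected U) : IsMeromorphicGraph m U Γ := by
  refine ⟨main_irr a ha h hc, ?_, reg a Γ, reg_subset h.an.1, isOpen_reg Γ, h.dense, ?_⟩
  · intro K hK hKc
    have := h.an.isCompact hKc hK
    convert this using 1
    ext p
    simp [res]
  · intro t ht
    have hg := (graphOn_reg (a := a) Γ).2 t ht
    exact ⟨gf Γ t, (hg _).2 rfl, fun x hx => (hg x).1 hx⟩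

theorem main_thm (Ω : (x : X) → Form (TangentSpace 𝓘(ℂ, Fin m → ℂ) x))
    (hΩ : IsPosPluriclosed Ω) {r : ℝ} (hr0 : 0 < r) (hr1 : r < 1) (Γ : Set (C4 × X))
    (hΓ : IsMeromorphicGraph m (hartogs r) Γ) :
    ∃ A : Set C4, A ⊆ polydisc \ hartogs r ∧ IsOpen (polydisc \ A) ∧ μH[3] A = 0 ∧
      ∃ Γ' : Set (C4 × X), IsMeromorphicGraph m (polydisc \ A) Γ' ∧
        Γ' ∩ hartogs r ×ˢ univ = Γ ∧
        ∀ U ⊆ polydisc \ A, IsOpen U → IsConnected U →
          IsIrreducibleIn m U (Γ' ∩ U ×ˢ univ) := by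
  obtain ⟨⟨han, ⟨p₀, hp₀⟩, hirr⟩, -, O, hOH, hO, hOd, hu⟩ := hΓ
  have : Nonempty X := ⟨p₀.2⟩
  obtain ⟨a, ha, ⟨F⟩⟩ := exists_frm hΩ
  have hHo : IsOpen (hartogs r) := by rw [hartogs_eq]; exact isOpen_hart _ _ _
  have hHc : IsPreconnected (hartogs r) := by
    rw [hartogs_eq]
    exact isPreconnected_hart (by linarith) (by linarith) hr0 hr1
  have han' : AnOn a (hartogs r) Γ := (analyticIn_iff a ha _ _).1 han
  have hp₀H : p₀.1 ∈ hartogs r := han'.1 p₀ hp₀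
  have hOne : O.Nonempty := closure_nonempty_iff.1 ⟨_, hOd hp₀H⟩
  have hMG : MG a (hartogs r) Γ :=
    mg_of_irr hHo hHc han' (fun Z₁ Z₂ h₁ h₂ he =>
      hirr Z₁ Z₂ ((analyticIn_iff a ha _ _).2 h₁) ((analyticIn_iff a ha _ _).2 h₂) he)
      hO hOne hOH hu
  obtain ⟨D, hHD, hDP, hnull, Γ', hΓ', hag⟩ := glob F hr0 hr1 hMG
  have hD : polydisc \ (polydisc \ D) = D := by
    rw [sdiff_sdiff_cancel_left hDP]
  have hDc : IsConnected D := by
    refine ⟨⟨_, hHD hp₀H⟩, ?_⟩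
    have h7 : μH[rd C4 - 1] (polydisc \ D) = 0 :=
      null_mono_dim hnull (by rw [rd_C4]; norm_num)
    have hs : Slim ((polydisc \ D) ∩ polydisc) := (slim_of_null h7).mono inter_subset_left
    have := (conn isOpen_polydisc convex_polydisc.isPreconnected (by rw [hD]; exact hΓ'.op) hs).1
    rwa [hD] at this
  refine ⟨polydisc \ D, sdiff_subset_sdiff_right hHD, by rw [hD]; exact hΓ'.op, hnull, Γ', ?_, ?_, ?_⟩
  · rw [hD]
    exact main_mero a ha hΓ' hDc
  · ext p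
    constructor
    · rintro ⟨h1, h2, -⟩
      exact (hag p.1 h2 p.2).1 h1
    · intro h1
      have h2 := han'.1 p h1
      exact ⟨(hag p.1 h2 p.2).2 h1, h2, mem_univ _⟩
  · intro U hU hUo hUc
    rw [hD] at hU
    have := main_irr a ha (hΓ'.restrict hUo hU) hUc
    convert this using 1
    ext p
    simp [res]

end Pool.Agent.Lib.MP_823829_an
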