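import Pool.Agent.Lib.MP_823829_an.Lap

/-! Regularization of a weakly superharmonic function. -/

namespace Pool.Agent.Lib.MP_823829_an

open Set Metric Filter MeasureTheory
open scoped Topology ENNReal NNReal ContDiff ComplexConjugate Convolution

theorem pota_aux_room {U : Set C2} (hU : IsOpen U) {τ : ℝ} (hτ : 0 ≤ τ) {z : C2}
    (hz : closedBall z τ ⊆ U) :
    ∃ ε : ℝ, 0 < ε ∧ closedBall z (ε + τ) ⊆ U ∧
      ∀ y ∈ ball z ε, closedBall y τ ⊆ closedBall z (ε + τ) := by
  obtain ⟨ε, hε, h⟩ := (isCompact_closedBall z τ).exists_cthickening_subset_open hU hz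
  rw [cthickening_closedBall hε.le hτ] at h
  refine ⟨ε, hε, h, fun y hy => closedBall_subset_closedBall' ?_⟩
  have := mem_ball.1 hy
  linarith

theorem isOpen_closedBall_subset {U : Set C2} (hU : IsOpen U) (τ : ℝ) :
    IsOpen {z : C2 | closedBall z τ ⊆ U} := by
  rcases lt_or_ge τ 0 with h | h
  · simp [closedBall_eq_empty.2 h]
  refine Metric.isOpen_iff.2 fun z hz => ?_
  obtain ⟨ε, hε, h1, h2⟩ := pota_aux_room hU h hz
  exact ⟨ε, hε, fun y hy => (h2 y hy).trans h1⟩

theorem pota_aux_fderiv {f g : C2 → ℝ} (hf : LocallyIntegrable f volume) (hg : ContDiff ℝ ∞ g)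
    (hc : HasCompactSupport g) (z v : C2) :
    fderiv ℝ (f ⋆[ContinuousLinearMap.mul ℝ ℝ, volume] g) z v =
      (f ⋆[ContinuousLinearMap.mul ℝ ℝ, volume] fun a => fderiv ℝ g a v) z := by
  rw [(hc.hasFDerivAt_convolution_right (ContinuousLinearMap.mul ℝ ℝ) hf
    (hg.of_le (by simp)) z).fderiv]
  exact convolution_precompR_apply _ hf (hc.fderiv ℝ) (hg.continuous_fderiv (by simp)) z v

theorem pota_aux_smooth {g : C2 → ℝ} (hg : ContDiff ℝ ∞ g) (v : C2) :
    ContDiff ℝ ∞ fun a => fderiv ℝ g a v :=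
  (hg.fderiv_right (m := ∞) (by simp)).clm_apply contDiff_const

theorem pota_aux_d2 {f g : C2 → ℝ} (hf : LocallyIntegrable f volume) (hg : ContDiff ℝ ∞ g)
    (hc : HasCompactSupport g) (z v : C2) :
    d2 (f ⋆[ContinuousLinearMap.mul ℝ ℝ, volume] g) z v = ∫ y, f y * d2 g (z - y) v ∧
      Integrable fun y => f y * d2 g (z - y) v := by
  have h1 := pota_aux_smooth hg v
  have h2 := hc.fderiv_apply ℝ v
  constructor
  · unfold d2
    simp only [pota_aux_fderiv hf hg hc]
    exact pota_aux_fderiv hf h1 h2 z v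
  · exact (h2.fderiv_apply ℝ v).convolutionExists_right (ContinuousLinearMap.mul ℝ ℝ) hf
      (pota_aux_smooth h1 v).continuous z

theorem pota_aux_lap {f g : C2 → ℝ} (hf : LocallyIntegrable f volume) (hg : ContDiff ℝ ∞ g)
    (hc : HasCompactSupport g) (z : C2) :
    lap (f ⋆[ContinuousLinearMap.mul ℝ ℝ, volume] g) z = ∫ y, f y * lap g (z - y) := by
  unfold lap
  simp only [Finset.mul_sum, mul_add]
  rw [integral_finsetSum _ fun j _ => (pota_aux_d2 hf hg hc z _).2.fun_add
    (pota_aux_d2 hf hg hc z _).2]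
  refine Finset.sum_congr rfl fun j _ => ?_
  rw [integral_add (pota_aux_d2 hf hg hc z _).2 (pota_aux_d2 hf hg hc z _).2,
    (pota_aux_d2 hf hg hc z _).1, (pota_aux_d2 hf hg hc z _).1]

theorem pota_aux_ind {μ g : C2 → ℝ} {τ : ℝ} (hs : Function.support g ⊆ closedBall 0 τ)
    {K : Set C2} {z : C2} (hz : closedBall z τ ⊆ K) (y : C2) :
    K.indicator μ y * g (z - y) = μ y * g (z - y) := by
  by_cases hy : y ∈ K
  · rw [indicator_of_mem hy]
  · have : g (z - y) = 0 := by
      by_contra h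
      have := hs h
      rw [mem_closedBall, dist_zero_right, ← dist_eq_norm, dist_comm] at this
      exact hy (hz this)
    rw [this, mul_zero, mul_zero]

theorem pot_moll {U : Set C2} (hU : IsOpen U) {μ : C2 → ℝ} (h0 : ∀ z, 0 ≤ μ z)
    (hi : LocallyIntegrableOn μ U) {C : ℝ}
    (hΔ : ∀ φ : C2 → ℝ, ContDiff ℝ ∞ φ → HasCompactSupport φ → tsupport φ ⊆ U → (∀ z, 0 ≤ φ z) →
      ∫ z, μ z * lap φ z ≤ C * ∫ z, φ z) {τ : ℝ} (hτ : 0 < τ) :
    ∃ u : C2 → ℝ, ContDiffOn ℝ 2 u {z | closedBall z τ ⊆ U} ∧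
      (∀ z, closedBall z τ ⊆ U → lap u z ≤ C ∧
        ∀ M : ℝ, (∀ᵐ y, y ∈ ball z τ → M ≤ μ y) → M ≤ u z) ∧
      ∀ Q : Set C2, IsCompact Q → cthickening τ Q ⊆ U →
        ∫ z in Q, u z ≤ ∫ z in cthickening τ Q, μ z := by
  let b : ContDiffBump (0 : C2) := ⟨τ / 2, τ, half_pos hτ, half_lt_self hτ⟩
  set ρ : C2 → ℝ := b.normed volume with hρ
  have ρs : ContDiff ℝ ∞ ρ := b.contDiff_normed
  have ρc : HasCompactSupport ρ := b.hasCompactSupport_normed
  have ρ0 : ∀ z, 0 ≤ ρ z := b.nonneg_normed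
  have ρ1 : ∫ z, ρ z = 1 := b.integral_normed
  have ρb : Function.support ρ = ball 0 τ := b.support_normed_eq
  have ρt : tsupport ρ = closedBall 0 τ := b.tsupport_normed_eq
  have ρb' : Function.support ρ ⊆ closedBall 0 τ := ρb ▸ ball_subset_closedBall
  have ρl : Function.support (lap ρ) ⊆ closedBall 0 τ :=
    ρt ▸ (subset_tsupport _).trans (tsupport_lap ρ)
  have ρz : ∀ z, ∫ y, ρ (z - y) = 1 := fun z => by rw [integral_sub_left_eq_self, ρ1]
  have hK : ∀ K, IsCompact K → K ⊆ U → Integrable (K.indicator μ) := fun K h1 h2 =>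
    (integrable_indicator_iff h1.measurableSet).2 (hi.integrableOn_compact_subset h2 h1)
  have he : ∀ K z, closedBall z τ ⊆ K → ∫ y, μ y * ρ (z - y) =
      (K.indicator μ ⋆[ContinuousLinearMap.mul ℝ ℝ, volume] ρ) z := fun K z hz => by
    rw [convolution_mul]
    simp only [pota_aux_ind ρb' hz]
  have hloc : ∀ z, closedBall z τ ⊆ U → ∃ K, IsCompact K ∧ K ⊆ U ∧ closedBall z τ ⊆ K ∧
      (fun z => ∫ y, μ y * ρ (z - y)) =ᶠ[𝓝 z]
        (K.indicator μ ⋆[ContinuousLinearMap.mul ℝ ℝ, volume] ρ) := by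
    intro z hz
    obtain ⟨ε, hε, h1, h2⟩ := pota_aux_room hU hτ.le hz
    refine ⟨_, isCompact_closedBall _ _, h1, h2 z (mem_ball_self hε), ?_⟩
    filter_upwards [ball_mem_nhds z hε] with y hy
    exact he _ y (h2 y hy)
  refine ⟨fun z => ∫ y, μ y * ρ (z - y), fun z hz => ?_, fun z hz => ⟨?_, fun M hM => ?_⟩,
    fun Q hQ hQU => ?_⟩
  · obtain ⟨K, h1, h2, -, h4⟩ := hloc z hz
    exact ((ρc.contDiff_convolution_right (n := 2) _ (hK K h1 h2).locallyIntegrable
      (ρs.of_le (by exact_mod_cast le_top))).contDiffAt.congr_of_eventuallyEq h4).contDiffWithinAt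
  · obtain ⟨K, h1, h2, h3, h4⟩ := hloc z hz
    rw [lap_congr h4, pota_aux_lap (hK K h1 h2).locallyIntegrable ρs ρc]
    simp only [pota_aux_ind ρl h3]
    have hsup : tsupport (fun y => ρ (z - y)) ⊆ closedBall z τ := by
      refine closure_minimal (fun y hy => ?_) isClosed_closedBall
      have := ρb' hy
      rwa [mem_closedBall, dist_zero_right, ← dist_eq_norm, dist_comm] at this
    have := hΔ (fun y => ρ (z - y)) (ρs.comp (contDiff_const.sub contDiff_id))
      ((isCompact_closedBall z τ).of_isClosed_subset (isClosed_tsupport _) hsup)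
      (hsup.trans hz) fun y => ρ0 _
    simpa only [lap_sub_left, ρz, mul_one] using this
  · have h1 : Integrable fun y => μ y * ρ (z - y) := by
      have := ρc.convolutionExists_right (ContinuousLinearMap.mul ℝ ℝ)
        (hK _ (isCompact_closedBall z τ) hz).locallyIntegrable ρs.continuous z
      refine Integrable.congr this (Eventually.of_forall fun y => ?_)
      exact pota_aux_ind ρb' Subset.rfl y
    have h2 : Integrable fun y => M * ρ (z - y) :=
      ((ρs.continuous.integrable_of_hasCompactSupport ρc).comp_sub_left z).const_mul M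
    calc M = ∫ y, M * ρ (z - y) := by rw [integral_const_mul, ρz, mul_one]
      _ ≤ _ := by
        refine integral_mono_ae h2 h1 ?_
        filter_upwards [hM] with y hy
        by_cases c : ρ (z - y) = 0
        · simp [c]
        · have : z - y ∈ ball (0 : C2) τ := ρb ▸ c
          rw [mem_ball, dist_zero_right, ← dist_eq_norm, dist_comm] at this
          exact mul_le_mul_of_nonneg_right (hy this) (ρ0 _)
  · have h1 := hK _ (hQ.cthickening (r := τ)) hQU
    have h2 := ρs.continuous.integrable_of_hasCompactSupport (μ := volume) ρc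
    rw [setIntegral_congr_fun hQ.measurableSet fun z hz =>
      he (cthickening τ Q) z (closedBall_subset_cthickening hz τ)]
    refine (setIntegral_le_integral (h1.integrable_convolution _ h2)
      (Eventually.of_forall fun z => ?_)).trans (le_of_eq ?_)
    · exact integral_nonneg fun y => mul_nonneg (indicator_nonneg (fun y _ => h0 y) y) (ρ0 _)
    · rw [integral_convolution _ h1 h2, ρ1, integral_indicator isClosed_cthickening.measurableSet]
      simp

end Pool.Agent.Lib.MP_823829_an
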