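import Pool.Agent.Lib.MP_823829_an.PotA
import Pool.Agent.Lib.MP_823829_an.Ego

/-! A superharmonic function that blows up at the boundary: local statement. -/

namespace Pool.Agent.Lib.MP_823829_an

open Set Metric Filter MeasureTheory
open scoped Topology ENNReal NNReal ContDiff ComplexConjugate

theorem potb_aux_two : (2 : WithTop ℕ∞) ≤ ((⊤ : ℕ∞) : WithTop ℕ∞) :=
  WithTop.coe_le_coe.2 (le_top (a := (2 : ℕ∞)))

theorem potb_aux_ker {Q : Set C2} (hQ : IsCompact Q) : ∃ B : ℝ, 0 ≤ B ∧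
    ∀ (y : C2) (τ : ℝ), 0 < τ → ∫ z in Q, 1 / (nsq (z - y) + τ ^ 2) ≤ B := by
  obtain ⟨B, hB⟩ := ker_bounded hQ.isBounded
  refine ⟨B, B.2, fun y τ hτ => ?_⟩
  have hp : ∀ z, 0 < nsq (z - y) + τ ^ 2 := fun z =>
    add_pos_of_nonneg_of_pos (nsq_nonneg _) (pow_pos hτ 2)
  have hi : IntegrableOn (fun z => 1 / (nsq (z - y) + τ ^ 2)) Q :=
    (kernel_super y hτ).1.continuous.continuousOn.integrableOn_compact hQ
  rw [← ENNReal.ofReal_le_coe, ofReal_integral_eq_lintegral_ofReal hi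
    (Eventually.of_forall fun z => (one_div_pos.2 (hp z)).le)]
  refine le_trans (lintegral_mono fun z => ?_) (hB y)
  rw [ker, ENNReal.le_inv_iff_mul_le, edist_comm, edist_dist, dist_eq_norm,
    ← ENNReal.ofReal_pow (norm_nonneg _), ← ENNReal.ofReal_mul (one_div_pos.2 (hp z)).le,
    ENNReal.ofReal_le_one, one_div, inv_mul_le_one₀ (hp z)]
  exact (norm_sq_le_nsq _).trans (le_add_of_nonneg_right (sq_nonneg τ))

theorem potb_aux_p {F Q : Set C2} (hF : Polar F) (hc : IsCompact F) (hQ : IsCompact Q) {ε : ℝ}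
    (hε : 0 < ε) : ∃ p : C2 → ℝ, ContDiff ℝ 2 p ∧ (∀ z, lap p z ≤ 0) ∧ (∀ z, 0 ≤ p z) ∧
      (∀ z ∈ F, 1 < p z) ∧ ∫ z in Q, p z ≤ ε := by
  obtain ⟨B, hB, hk⟩ := potb_aux_ker hQ
  obtain ⟨n, c, y, τ, h1, h2, h3, h4⟩ := hF.small hc (ε / (B + 1)) (by positivity)
  have hs : ∀ i, ContDiff ℝ 2 fun x => 1 / (nsq (x - y i) + τ i ^ 2) := fun i =>
    (kernel_super (y i) (h2 i)).1.of_le potb_aux_two
  refine ⟨fun x => ∑ i, c i * (1 / (nsq (x - y i) + τ i ^ 2)),
    ContDiff.sum fun i _ => contDiff_const.mul (hs i), fun z => ?_,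
    fun z => Finset.sum_nonneg fun i _ => mul_nonneg (h1 i) (one_div_nonneg.2
      (add_nonneg (nsq_nonneg _) (sq_nonneg _))), fun z hz => ?_, ?_⟩
  · rw [lap_sum _ fun i _ => (contDiff_const.mul (hs i)).contDiffAt]
    refine Finset.sum_nonpos fun i _ => ?_
    rw [lap_const_mul _ (hs i).contDiffAt]
    exact mul_nonpos_of_nonneg_of_nonpos (h1 i) ((kernel_super (y i) (h2 i)).2 z)
  · simpa only [mul_one_div] using h4 z hz
  · rw [integral_finset_sum _ fun i _ =>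
      (contDiff_const.mul (hs i)).continuous.continuousOn.integrableOn_compact hQ]
    calc _ ≤ ∑ i, c i * B := Finset.sum_le_sum fun i _ => by
          rw [integral_const_mul]
          exact mul_le_mul_of_nonneg_left (hk _ _ (h2 i)) (h1 i)
      _ ≤ ε / (B + 1) * (B + 1) := by
          rw [← Finset.sum_mul]
          exact mul_le_mul h3 (by linarith) hB (by positivity)
      _ = ε := div_mul_cancel₀ _ (by positivity)

theorem potb_aux_cpt {U S : Set C2} (hS : IsCompact S) (μ : C2 → ℝ) (M : ℝ) :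
    IsCompact {z ∈ S | ∀ N ∈ 𝓝 z, volume {y ∈ U ∩ N | μ y ≤ M} ≠ 0} := by
  refine hS.inter_right ⟨isOpen_iff_mem_nhds.2 fun z hz => ?_⟩
  obtain ⟨N, hN, h⟩ : ∃ N ∈ 𝓝 z, volume {y ∈ U ∩ N | μ y ≤ M} = 0 := by
    by_contra h0
    exact hz fun N hN h => h0 ⟨N, hN, h⟩
  filter_upwards [eventually_mem_nhds_iff.2 hN] with x hx using fun h1 => h1 N hx h

theorem potb_aux_leb {U S : Set C2} (hS : IsCompact S) {μ p : C2 → ℝ} {M : ℝ} (hp : Continuous p)
    (h : ∀ z ∈ S, (∀ N ∈ 𝓝 z, volume {y ∈ U ∩ N | μ y ≤ M} ≠ 0) → 1 < p z) :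
    ∃ η : ℝ, 0 < η ∧ ∀ z ∈ S, (∀ x ∈ ball z η, 1 < p x) ∨
      volume {y ∈ U ∩ ball z η | μ y ≤ M} = 0 := by
  obtain ⟨η, hη, h1⟩ := lebesgue_number_lemma_of_metric_sUnion hS
    (c := {N | IsOpen N ∧ ((∀ x ∈ N, 1 < p x) ∨ volume {y ∈ U ∩ N | μ y ≤ M} = 0)})
    (fun _ h => h.1) fun z hz => by
      by_cases h0 : ∀ N ∈ 𝓝 z, volume {y ∈ U ∩ N | μ y ≤ M} ≠ 0
      · exact ⟨{x | 1 < p x}, ⟨isOpen_lt continuous_const hp, Or.inl fun _ h => h⟩, h z hz h0⟩
      · obtain ⟨N, hN, h2⟩ : ∃ N ∈ 𝓝 z, volume {y ∈ U ∩ N | μ y ≤ M} = 0 := by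
          by_contra h3
          exact h0 fun N hN h => h3 ⟨N, hN, h⟩
        refine ⟨interior N, ⟨isOpen_interior, Or.inr (measure_mono_null (fun y hy => ?_) h2)⟩,
          mem_interior_iff_mem_nhds.2 hN⟩
        exact ⟨⟨hy.1.1, interior_subset hy.1.2⟩, hy.2⟩
  refine ⟨η, hη, fun z hz => ?_⟩
  obtain ⟨N, hN, h2⟩ := h1 z hz
  refine hN.2.imp (fun h x hx => h x (h2 hx)) fun h => measure_mono_null (fun y hy => ?_) h
  exact ⟨⟨hy.1.1, h2 hy.1.2⟩, hy.2⟩

theorem potb_aux_v {U : Set C2} (hU : IsOpen U) (hb : Bornology.IsBounded U) {μ : C2 → ℝ}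
    (h0 : ∀ z, 0 ≤ μ z) (hi : LocallyIntegrableOn μ U) {C : ℝ}
    (hΔ : ∀ φ : C2 → ℝ, ContDiff ℝ ∞ φ → HasCompactSupport φ → tsupport φ ⊆ U → (∀ z, 0 ≤ φ z) →
      ∫ z, μ z * lap φ z ≤ C * ∫ z, φ z) {x₀ : C2} {κ : ℝ} (hκ : 0 < κ)
    (hQ : closedBall x₀ (κ + κ) ⊆ U) : ∃ A : ℝ, 0 ≤ A ∧ ∀ τ : ℝ, 0 < τ → τ ≤ κ →
      ∃ v : C2 → ℝ, ContDiffOn ℝ 2 v {z | closedBall z τ ⊆ U} ∧
        (∀ z, closedBall z τ ⊆ U → lap v z ≤ 0 ∧
          ∀ M : ℝ, (∀ᵐ y, y ∈ ball z τ → M ≤ μ y) → M ≤ v z) ∧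
        ∫ z in closedBall x₀ κ, v z ≤ A := by
  obtain ⟨r, hr⟩ := hb.exists_norm_le
  have hR : ∀ z ∈ U, nsq z ≤ 2 * r ^ 2 := fun z hz => (nsq_le z).trans
    (mul_le_mul_of_nonneg_left (pow_le_pow_left₀ (norm_nonneg z) (hr z hz) 2) zero_le_two)
  have hq : ContDiff ℝ 2 fun z => |C| * (2 * r ^ 2) + -|C| * nsq z :=
    contDiff_const.add (contDiff_const.mul (contDiff_nsq.of_le potb_aux_two))
  have hl : ∀ z, lap (fun z => |C| * (2 * r ^ 2) + -|C| * nsq z) z = -|C| * 8 := fun z => by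
    have h2 : ContDiffAt ℝ 2 nsq z := (contDiff_nsq.of_le potb_aux_two).contDiffAt
    rw [lap_add contDiffAt_const (contDiffAt_const.mul h2), lap_const, lap_const_mul _ h2, lap_nsq,
      zero_add]
  have hq0 : ∀ z ∈ U, 0 ≤ |C| * (2 * r ^ 2) + -|C| * nsq z := fun z hz => by
    have := mul_le_mul_of_nonneg_left (hR z hz) (abs_nonneg C)
    linarith
  have hs : closedBall x₀ κ ⊆ U := (closedBall_subset_closedBall (by linarith)).trans hQ
  refine ⟨(∫ z in closedBall x₀ (κ + κ), μ z) +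
    ∫ z in closedBall x₀ κ, (|C| * (2 * r ^ 2) + -|C| * nsq z),
    add_nonneg (integral_nonneg h0) (setIntegral_nonneg measurableSet_closedBall
      fun z hz => hq0 z (hs hz)), fun τ hτ hτκ => ?_⟩
  obtain ⟨u, u1, u2, u3⟩ := pot_moll hU h0 hi hΔ hτ
  have e : cthickening τ (closedBall x₀ κ) ⊆ closedBall x₀ (κ + κ) := by
    rw [cthickening_closedBall hτ.le hκ.le]
    exact closedBall_subset_closedBall (by linarith)
  refine ⟨fun z => u z + (|C| * (2 * r ^ 2) + -|C| * nsq z), u1.add hq.contDiffOn,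
    fun z hz => ⟨?_, fun M hM => ?_⟩, ?_⟩
  · rw [lap_add (u1.contDiffAt ((isOpen_closedBall_subset hU τ).mem_nhds hz)) hq.contDiffAt, hl]
    linarith [(u2 z hz).1, le_abs_self C, abs_nonneg C]
  · exact le_add_of_le_of_nonneg ((u2 z hz).2 M hM) (hq0 z (hz (mem_closedBall_self hτ.le)))
  · have hc := isCompact_closedBall x₀ κ
    rw [integral_add ((u1.continuousOn.mono fun z hz =>
      ((closedBall_subset_cthickening hz τ).trans e).trans hQ).integrableOn_compact hc)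
      (hq.continuous.continuousOn.integrableOn_compact hc)]
    refine add_le_add_left ((u3 _ hc (e.trans hQ)).trans (setIntegral_mono_set
      (hi.integrableOn_compact_subset hQ (isCompact_closedBall _ _)) (Eventually.of_forall h0)
      e.eventuallyLE)) _

theorem potb_aux_W {U : Set C2} (hU : IsOpen U) {s : C2} {δ : ℝ} (hδ : 0 < δ)
    {μ : C2 → ℝ} (h0 : ∀ z, 0 ≤ μ z) (hi : LocallyIntegrableOn μ U) {C : ℝ}
    (hΔ : ∀ φ : C2 → ℝ, ContDiff ℝ ∞ φ → HasCompactSupport φ → tsupport φ ⊆ U ∩ ball s (4 * δ) →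
      (∀ z, 0 ≤ φ z) → ∫ z, μ z * lap φ z ≤ C * ∫ z, φ z)
    (hF : ∀ M : ℝ, Polar {z ∈ closedBall s (3 * δ) \ U |
      ∀ N ∈ 𝓝 z, volume {y ∈ U ∩ N | μ y ≤ M} ≠ 0}) {x₀ : C2} {κ : ℝ} (hκ : 0 < κ)
    (hQ : closedBall x₀ (κ + κ) ⊆ U ∩ ball s (4 * δ)) {ε : ℝ} (hε : 0 < ε) :
    ∃ W : C2 → ℝ, (∀ z ∈ ball s (2 * δ), ContDiffAt ℝ 2 W z ∧ lap W z ≤ 0) ∧ (∀ z, 0 ≤ W z) ∧
      (∀ z, z ∉ U → W z = 1) ∧ ∫ z in closedBall x₀ κ, W z ≤ ε := by
  classical
  have hU' : IsOpen (U ∩ ball s (4 * δ)) := hU.inter isOpen_ball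
  have hc := isCompact_closedBall x₀ κ
  obtain ⟨A, hA, hv⟩ := potb_aux_v hU' (isBounded_ball.subset inter_subset_right) h0
    (hi.mono_set inter_subset_left) hΔ hκ hQ
  obtain ⟨M, hM, hAM⟩ : ∃ M : ℝ, 0 < M ∧ M⁻¹ * A ≤ ε / 6 := by
    refine ⟨6 * (A + 1) / ε, by positivity, ?_⟩
    rw [inv_div, div_mul_eq_mul_div, div_le_div_iff₀ (by positivity) (by norm_num)]
    linarith
  have hS : IsCompact (closedBall s (3 * δ) \ U) := (isCompact_closedBall _ _).diff hU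
  obtain ⟨p, p1, p2, p3, p4, p5⟩ := potb_aux_p (hF M) (potb_aux_cpt hS μ M) hc
    (ε := ε / 6) (by positivity)
  obtain ⟨η, hη, hL⟩ := potb_aux_leb hS (U := U) (μ := μ) (M := M) p1.continuous
    fun z hz h => p4 z ⟨hz, h⟩
  obtain ⟨τ, hτ, t1, t2, t3⟩ : ∃ τ : ℝ, 0 < τ ∧ τ ≤ κ ∧ τ ≤ δ ∧ τ ≤ η / 3 :=
    ⟨min κ (min δ (η / 3)), by positivity, min_le_left _ _,
      (min_le_right _ _).trans (min_le_left _ _), (min_le_right _ _).trans (min_le_right _ _)⟩
  obtain ⟨v, v1, v2, v3⟩ := hv τ hτ t1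
  obtain ⟨θ, q1, q2, q3, q4, q5⟩ := exists_concave
  have hG := isOpen_closedBall_subset hU' τ
  have v0 : ∀ z, closedBall z τ ⊆ U ∩ ball s (4 * δ) → 0 ≤ M⁻¹ * v z := fun z hz =>
    mul_nonneg (inv_nonneg.2 hM.le) ((v2 z hz).2 0 (Eventually.of_forall fun y _ => h0 y))
  have hw : ∀ z, closedBall z τ ⊆ U ∩ ball s (4 * δ) →
      ContDiffAt ℝ 2 (fun x => M⁻¹ * v x + p x) z ∧ lap (fun x => M⁻¹ * v x + p x) z ≤ 0 :=
    fun z hz => by
      have h1 : ContDiffAt ℝ 2 v z := v1.contDiffAt (hG.mem_nhds hz)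
      refine ⟨(contDiffAt_const.mul h1).add p1.contDiffAt, ?_⟩
      rw [lap_add (contDiffAt_const.mul h1) p1.contDiffAt, lap_const_mul _ h1]
      exact add_nonpos (mul_nonpos_of_nonneg_of_nonpos (inv_nonneg.2 hM.le) (v2 z hz).1) (p2 z)
  let W : C2 → ℝ := fun z =>
    if closedBall z τ ⊆ U ∩ ball s (4 * δ) then θ (M⁻¹ * v z + p z) else 1
  have hW : ∀ z, closedBall z τ ⊆ U ∩ ball s (4 * δ) →
      W =ᶠ[𝓝 z] fun x => θ (M⁻¹ * v x + p x) := fun z hz => by
    filter_upwards [hG.mem_nhds hz] with x hx using if_pos hx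
  have hQG : ∀ z ∈ closedBall x₀ κ, closedBall z τ ⊆ U ∩ ball s (4 * δ) := fun z hz =>
    (closedBall_subset_closedBall' (by linarith [mem_closedBall.1 hz])).trans hQ
  refine ⟨W, fun z hz => ?_, fun z => ?_,
    fun z hz => if_neg fun h => hz (h (mem_closedBall_self hτ.le)).1, ?_⟩
  · by_cases h : closedBall z τ ⊆ U ∩ ball s (4 * δ)
    · refine ⟨(q1.contDiffAt.comp z (hw z h).1).congr_of_eventuallyEq (hW z h), ?_⟩
      rw [lap_congr (hW z h), lap_comp q1.contDiffAt (hw z h).1]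
      exact add_nonpos (mul_nonpos_of_nonneg_of_nonpos (q2 _) (hw z h).2)
        (mul_nonpos_of_nonpos_of_nonneg (q3 _) (Finset.sum_nonneg fun j _ => by positivity))
    · obtain ⟨z', a1, a2⟩ := not_subset.1 h
      have a3 : dist z' s ≤ 3 * δ := by
        linarith [dist_triangle z' z s, mem_closedBall.1 a1, mem_ball.1 hz]
      have a4 : z' ∉ U := fun a => a2 ⟨a, mem_ball.2 (by linarith)⟩
      have e : W =ᶠ[𝓝 z] fun _ => 1 := by
        filter_upwards [ball_mem_nhds z hτ] with x hx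
        by_cases h' : closedBall x τ ⊆ U ∩ ball s (4 * δ)
        · refine (if_pos h').trans (q4 _ ?_)
          have a5 : dist x z' < 2 * τ := by
            linarith [dist_triangle_right x z' z, mem_closedBall.1 a1, mem_ball.1 hx]
          rcases hL z' ⟨a3, a4⟩ with a | a
          · exact le_add_of_nonneg_of_le (v0 x h') (a x (mem_ball.2 (by linarith))).le
          · refine le_add_of_le_of_nonneg ((one_le_inv_mul₀ hM).2 ((v2 x h').2 M ?_)) (p3 x)
            filter_upwards [measure_eq_zero_iff_ae_notMem.1 a] with y hy hyx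
            refine le_of_not_ge fun b => hy ⟨⟨(h' (ball_subset_closedBall hyx)).1, ?_⟩, b⟩
            exact mem_ball.2 (by linarith [dist_triangle y x z', mem_ball.1 hyx])
        · exact if_neg h'
      exact ⟨contDiffAt_const.congr_of_eventuallyEq e, ((lap_congr e).trans (lap_const 1 z)).le⟩
  · by_cases h : closedBall z τ ⊆ U ∩ ball s (4 * δ)
    · exact (q5 _ (add_nonneg (v0 z h) (p3 z))).1.trans (if_pos h).ge
    · exact zero_le_one.trans (if_neg h).ge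
  · have i1 : IntegrableOn v (closedBall x₀ κ) :=
      (v1.continuousOn.mono hQG).integrableOn_compact hc
    have i2 : IntegrableOn p (closedBall x₀ κ) :=
      p1.continuous.continuousOn.integrableOn_compact hc
    have i3 : IntegrableOn W (closedBall x₀ κ) := ContinuousOn.integrableOn_compact hc fun z hz =>
      ((q1.contDiffAt.comp z (hw z (hQG z hz)).1).congr_of_eventuallyEq
        (hW z (hQG z hz))).continuousAt.continuousWithinAt
    calc _ ≤ ∫ z in closedBall x₀ κ, 3 * (M⁻¹ * v z + p z) :=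
          setIntegral_mono_on i3 (((i1.const_mul _).add i2).const_mul _) measurableSet_closedBall
            fun z hz => (if_pos (hQG z hz)).le.trans
              (q5 _ (add_nonneg (v0 z (hQG z hz)) (p3 z))).2.2
      _ ≤ ε := by
          rw [integral_const_mul, integral_add (i1.const_mul _) i2, integral_const_mul]
          linarith [mul_le_mul_of_nonneg_left v3 (inv_nonneg.2 hM.le)]

theorem potb_aux_avg_neg (δ : ℝ) (W : C2 → ℝ) (x : C2) : avg δ (fun y => -W y) x = -avg δ W x := by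
  simpa only [neg_one_mul] using avg_const_mul δ (-1) W x

/-- Harnack type bound. -/
theorem potb_aux_har {s : C2} {δ : ℝ} (hδ : 0 < δ) : ∃ c : ℝ, 0 < c ∧ ∀ W : C2 → ℝ,
    (∀ z ∈ ball s (2 * δ), ContDiffAt ℝ 2 W z ∧ lap W z ≤ 0) → (∀ z, 0 ≤ W z) →
      ∀ x ∈ ball s (δ / 4), c * ∫ y in ball s (δ / 4), W y ≤ W x := by
  obtain ⟨c, C, hc, -, hm⟩ := moll_bounds
  obtain ⟨C', hg⟩ := green
  refine ⟨c / δ ^ 4, by positivity, fun W h1 h2 x hx => ?_⟩
  have hb : closedBall x δ ⊆ ball s (2 * δ) :=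
    closedBall_subset_ball' (by linarith [mem_ball.1 hx])
  have hw : ContinuousOn W (ball s (2 * δ)) := fun z hz =>
    (h1 z hz).1.continuousAt.continuousWithinAt
  have k1 := (hg δ x _ (fun y => -W y) hδ isOpen_ball hb
    (fun z hz => (h1 z hz).1.neg.contDiffWithinAt) fun z hz => by
      rw [lap_neg]
      exact neg_nonneg.2 (h1 z hz).2).1
  rw [potb_aux_avg_neg, neg_le_neg_iff] at k1
  refine le_trans ?_ k1
  have i1 : IntegrableOn W (ball s (δ / 4)) := ((hw.mono (closedBall_subset_ball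
    (by linarith))).integrableOn_compact (isCompact_closedBall s (δ / 4))).mono_set
      ball_subset_closedBall
  have i2 := integrable_moll_mul hδ (hw.mono hb)
  rw [← integral_const_mul]
  refine (setIntegral_mono_on (i1.const_mul _) i2.integrableOn measurableSet_ball
    fun y hy => mul_le_mul_of_nonneg_right ((hm δ hδ _).2 ?_) (h2 y)).trans
    (setIntegral_le_integral i2 (Eventually.of_forall fun y => mul_nonneg (moll_nonneg _ _) (h2 y)))
  rw [← dist_eq_norm]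
  linarith [dist_triangle_right x y s, mem_ball.1 hx, mem_ball.1 hy]

theorem potb_aux_fin {K V U : Set C2} (hK : IsCompact K) (hV : IsOpen V) (hKV : K ⊆ V)
    (hU : IsOpen U) (h : ∀ ε : ℝ, 0 < ε → ∃ W : C2 → ℝ, ContDiffOn ℝ 2 W V ∧ IntegrableOn W V ∧
      (∀ z ∈ V, lap W z ≤ 0) ∧ (∀ z, 0 ≤ W z) ∧ (∀ z, z ∉ U → W z = 1) ∧ ∫ z in V, W z ≤ ε) :
    Polar (K \ U) := by
  intro ν hν
  obtain ⟨δ₀, h0, hs, C, hk⟩ := key hK hV hKV
  obtain ⟨δ₁, h1, hp⟩ := hν.2 1 one_pos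
  obtain ⟨c, C', -, hC', hm⟩ := moll_bounds
  obtain ⟨δ, hδ, d0, d1⟩ : ∃ δ : ℝ, 0 < δ ∧ δ ≤ δ₀ ∧ δ ≤ δ₁ :=
    ⟨min δ₀ δ₁, lt_min h0 h1, min_le_left _ _, min_le_right _ _⟩
  have main : ∀ ε : ℝ, 0 < ε → C' / δ ^ 4 * ε ≤ 1 / 2 →
      ENNReal.ofReal (1 / 2) * ν (K \ U) ≤ C * ENNReal.ofReal ε := fun ε hε hε' => by
    obtain ⟨W, w1, w2, w3, w4, w5, w6⟩ := h ε hε
    have k1 := hk δ hδ d0 (fun y => -W y) w1.neg (fun y hy => by
      rw [lap_neg]
      exact neg_nonneg.2 (w3 y hy)) ν 1 hν.1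
      fun x => (lintegral_mono_set (ball_subset_ball d1)).trans (hp x)
    have k2 : ∫⁻ y in V, ‖-W y‖ₑ ≤ ENNReal.ofReal ε := by
      rw [← ofReal_integral_norm_eq_lintegral_enorm (f := fun y => -W y) w2.neg]
      simp only [norm_neg, Real.norm_of_nonneg (w4 _)]
      exact ENNReal.ofReal_le_ofReal w6
    have k3 : ∀ x ∈ K, avg δ W x ≤ 1 / 2 := fun x hx => by
      have hb : closedBall x δ ⊆ V :=
        ((closedBall_subset_cthickening hx δ).trans (cthickening_mono d0 K)).trans hs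
      have i2 := integrable_moll_mul hδ (w1.continuousOn.mono hb)
      have e : avg δ W x = ∫ y in V, moll δ (x - y) * W y :=
        (setIntegral_eq_integral_of_forall_compl_eq_zero fun y hy => by
          refine mul_eq_zero_of_left (by_contra fun a => hy (hb ?_)) _
          rw [mem_closedBall, dist_comm, dist_eq_norm]
          exact (moll_support hδ a).le).symm
      rw [e]
      refine (setIntegral_mono_on i2.integrableOn (w2.const_mul (C' / δ ^ 4)) hV.measurableSet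
        fun y _ => mul_le_mul_of_nonneg_right (hm δ hδ _).1 (w4 y)).trans ?_
      rw [integral_const_mul]
      exact (mul_le_mul_of_nonneg_left w6 (by positivity)).trans hε'
    rw [mul_one] at k1
    refine le_trans ?_ (k1.trans (mul_le_mul_right k2 _))
    rw [← setLIntegral_const]
    refine le_trans (setLIntegral_mono' (hK.measurableSet.diff hU.measurableSet) fun x hx =>
      ENNReal.ofReal_le_ofReal ?_) (lintegral_mono_set diff_subset)
    rw [potb_aux_avg_neg, w5 x hx.2]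
    linarith [k3 x hx.1]
  have t1 : Tendsto (fun ε : ℝ => C * ENNReal.ofReal ε) (𝓝[>] 0) (𝓝 0) := by
    have := ENNReal.Tendsto.const_mul (a := (C : ℝ≥0∞))
      ((ENNReal.continuous_ofReal.tendsto 0).mono_left (nhdsWithin_le_nhds (s := Ioi 0)))
      (Or.inr ENNReal.coe_ne_top)
    rwa [ENNReal.ofReal_zero, mul_zero] at this
  have t2 : ∀ᶠ ε in 𝓝[>] (0 : ℝ), C' / δ ^ 4 * ε ≤ 1 / 2 :=
    nhdsWithin_le_nhds ((continuous_const.mul continuous_id).continuousAt.eventually_le_const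
      (by simp))
  have t3 := ge_of_tendsto t1 (by
    filter_upwards [t2, self_mem_nhdsWithin] with ε a b using main ε b a)
  exact (mul_eq_zero.1 (le_zero_iff.1 t3)).resolve_left (by simp)

theorem pot_loc {U : Set C2} (hU : IsOpen U) {s : C2} (hs : s ∈ closure U) {δ : ℝ} (hδ : 0 < δ)
    {μ : C2 → ℝ} (h0 : ∀ z, 0 ≤ μ z) (hi : LocallyIntegrableOn μ U) {C : ℝ}
    (hΔ : ∀ φ : C2 → ℝ, ContDiff ℝ ∞ φ → HasCompactSupport φ → tsupport φ ⊆ U ∩ ball s (4 * δ) →
      (∀ z, 0 ≤ φ z) → ∫ z, μ z * lap φ z ≤ C * ∫ z, φ z)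
    (hF : ∀ M : ℝ, Polar {z ∈ closedBall s (3 * δ) \ U |
      ∀ N ∈ 𝓝 z, volume {y ∈ U ∩ N | μ y ≤ M} ≠ 0}) :
    Polar (closedBall s (δ / 8) \ U) := by
  obtain ⟨x₀, x1, x2⟩ := mem_closure_iff_nhds.1 hs _ (ball_mem_nhds s (by positivity : 0 < δ / 4))
  obtain ⟨r, hr, hb⟩ := nhds_basis_closedBall.mem_iff.1
    ((hU.inter isOpen_ball).mem_nhds (⟨x2, x1⟩ : x₀ ∈ U ∩ ball s (δ / 4)))
  have hκ : 0 < r / 2 := by positivity
  have hc := isCompact_closedBall x₀ (r / 2)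
  have hQ : closedBall x₀ (r / 2) ⊆ ball s (δ / 4) :=
    fun z hz => (hb (closedBall_subset_closedBall (by linarith) hz)).2
  have hv : 0 < volume.real (closedBall x₀ (r / 2)) :=
    ENNReal.toReal_pos (measure_closedBall_pos _ _ hκ).ne' hc.measure_lt_top.ne
  obtain ⟨c, c0, hh⟩ := potb_aux_har (s := s) hδ
  refine potb_aux_fin (isCompact_closedBall _ _) (isOpen_ball (x := s) (ε := δ / 4))
    (closedBall_subset_ball (by linarith)) hU fun ε hε => ?_
  obtain ⟨W, w1, w2, w3, w4⟩ := potb_aux_W hU hδ h0 hi hΔ hF hκ (by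
    rw [add_halves]
    exact hb.trans (inter_subset_inter_right _ (ball_subset_ball (by linarith))))
    (ε := volume.real (closedBall x₀ (r / 2)) * (c * ε)) (by positivity)
  have h1 : closedBall s (δ / 4) ⊆ ball s (2 * δ) := closedBall_subset_ball (by linarith)
  have i1 : IntegrableOn W (closedBall s (δ / 4)) :=
    ContinuousOn.integrableOn_compact (isCompact_closedBall _ _) fun z hz =>
      (w1 z (h1 hz)).1.continuousAt.continuousWithinAt
  refine ⟨W, fun z hz => (w1 z (h1 (ball_subset_closedBall hz))).1.contDiffWithinAt,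
    i1.mono_set ball_subset_closedBall, fun z hz => (w1 z (h1 (ball_subset_closedBall hz))).2,
    w2, w3, ?_⟩
  have h2 := setIntegral_mono_on (integrableOn_const hc.measure_lt_top.ne)
    (i1.mono_set (hQ.trans ball_subset_closedBall)) measurableSet_closedBall
    fun x hx => hh W w1 w2 x (hQ hx)
  rw [setIntegral_const, smul_eq_mul] at h2
  exact le_of_mul_le_mul_left (le_of_mul_le_mul_left (h2.trans w4) hv) c0

end Pool.Agent.Lib.MP_823829_an
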