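import Pool.Agent.Lib.MP_823829_an.Hol

/-! Negligible sets and the Riemann extension theorem. -/

namespace Pool.Agent.Lib.MP_823829_an

open Set Metric Filter MeasureTheory
open scoped Topology ENNReal NNReal ContDiff ComplexConjugate

variable {T : Type} [NormedAddCommGroup T] [NormedSpace ℂ T] [FiniteDimensional ℂ T]

omit [FiniteDimensional ℂ T] in
theorem Neg.mono {σ σ' T₀ T₁ : Set T} (h : Neg σ T₀) (hT : IsOpen T₁) (h1 : T₁ ⊆ T₀)
    (hs : ∀ t ∈ T₁, t ∈ σ' → t ∈ σ) : Neg σ' T₁ := by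
  intro t ht
  obtain ⟨U, hU, htU, δ, hδ, h0, hne⟩ := h t (h1 ht)
  exact ⟨U ∩ T₁, hU.inter hT, ⟨htU, ht⟩, δ, hδ.mono inter_subset_left,
    fun y hy hy' => h0 y hy.1 (hs y hy.2 hy'), fun y hy => hne y hy.1⟩

omit [FiniteDimensional ℂ T] in
theorem Neg.subset {σ σ' T₀ T₁ : Set T} (h : Neg σ T₀) (h1 : T₁ ⊆ T₀) (hs : σ' ⊆ σ) :
    Neg σ' T₁ := by
  intro t ht
  obtain ⟨U, hU, htU, δ, hδ, h0, hne⟩ := h t (h1 ht)
  exact ⟨U, hU, htU, δ, hδ, fun y hy hy' => h0 y hy (hs hy'), hne⟩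

omit [FiniteDimensional ℂ T] in
theorem neg_of_eventually {σ σ' : Set T} {t : T} (h : Neg σ {t})
    (hs : ∀ᶠ y in 𝓝 t, y ∈ σ' → y ∈ σ) : Neg σ' {t} := by
  intro s hs'
  rw [mem_singleton_iff] at hs'
  subst hs'
  obtain ⟨U, hU, htU, δ, hδ, h0, hne⟩ := h s rfl
  obtain ⟨V, hV, hVo, htV⟩ := _root_.eventually_nhds_iff.1 hs
  exact ⟨U ∩ V, hU.inter hVo, ⟨htU, htV⟩, δ, hδ.mono inter_subset_left,
    fun y hy hy' => h0 y hy.1 (hV y hy.2 hy'), fun y hy => hne y hy.1⟩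

omit [FiniteDimensional ℂ T] in
theorem neg_iff {σ T₀ : Set T} : Neg σ T₀ ↔ ∀ t ∈ T₀, Neg σ {t} := by
  constructor
  · intro h t ht
    exact h.subset (singleton_subset_iff.2 ht) Subset.rfl
  · intro h t ht
    exact h t ht t rfl

omit [FiniteDimensional ℂ T] in
theorem neg_empty (T₀ : Set T) : Neg (∅ : Set T) T₀ := by
  intro t _
  refine ⟨univ, isOpen_univ, mem_univ _, fun _ => 1, differentiableOn_const _,
    fun y _ hy => absurd hy (notMem_empty y), fun y _ => ?_⟩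
  exact (Eventually.of_forall fun _ => one_ne_zero).frequently

omit [FiniteDimensional ℂ T] in
theorem Neg.union {σ σ' T₀ : Set T} (h : Neg σ T₀) (h' : Neg σ' T₀) : Neg (σ ∪ σ') T₀ := by
  intro t ht
  obtain ⟨U, hU, htU, δ, hδ, h0, hne⟩ := h t ht
  obtain ⟨U', hU', htU', δ', hδ', h0', hne'⟩ := h' t ht
  refine ⟨U ∩ U', hU.inter hU', ⟨htU, htU'⟩, fun y => δ y * δ' y,
    (hδ.mono inter_subset_left).mul (hδ'.mono inter_subset_right), ?_, ?_⟩
  · rintro y hy (hy' | hy')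
    · simp [h0 y hy.1 hy']
    · simp [h0' y hy.2 hy']
  · intro y hy
    rw [frequently_iff]
    intro N hN
    obtain ⟨V, hVN, hVo, hyV⟩ := _root_.mem_nhds_iff.1 hN
    have hW : V ∩ (U ∩ U') ∈ 𝓝 y := (hVo.inter (hU.inter hU')).mem_nhds ⟨hyV, hy⟩
    obtain ⟨y₁, hy₁, hy₁0⟩ := frequently_iff.1 (hne y hy.1) hW
    have hc : ContinuousAt δ y₁ :=
      (hδ.continuousOn y₁ hy₁.2.1).continuousAt (hU.mem_nhds hy₁.2.1)
    have he : ∀ᶠ z in 𝓝 y₁, δ z ≠ 0 ∧ z ∈ V :=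
      (hc.eventually_ne hy₁0).and (hVo.mem_nhds hy₁.1)
    obtain ⟨z, hz1, hz2, hz3⟩ := ((hne' y₁ hy₁.2.2).and_eventually he).exists
    exact ⟨z, hVN hz3, mul_ne_zero hz2 hz1⟩

omit [FiniteDimensional ℂ T] in
theorem Neg.iUnion {ι : Type} [Finite ι] {σ : ι → Set T} {T₀ : Set T} (h : ∀ i, Neg (σ i) T₀) :
    Neg (⋃ i, σ i) T₀ := by
  classical
  have key : ∀ s : Finset ι, Neg (⋃ i ∈ s, σ i) T₀ := by
    intro s
    induction s using Finset.induction_on with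
    | empty => simpa using neg_empty T₀
    | insert a s _ ih =>
      rw [Finset.set_biUnion_insert]
      exact (h a).union ih
  have := Fintype.ofFinite ι
  simpa using key Finset.univ

omit [FiniteDimensional ℂ T] in
theorem Neg.clos {σ T₀ : Set T} (h : Neg σ T₀) : Neg (closure σ) T₀ := by
  intro t ht
  obtain ⟨U, hU, htU, δ, hδ, h0, hne⟩ := h t ht
  refine ⟨U, hU, htU, δ, hδ, fun y hy hy' => ?_, hne⟩
  by_contra hy0
  have hc : ContinuousAt δ y := (hδ.continuousOn y hy).continuousAt (hU.mem_nhds hy)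
  have he : ∀ᶠ z in 𝓝 y, δ z ≠ 0 ∧ z ∈ U := (hc.eventually_ne hy0).and (hU.mem_nhds hy)
  obtain ⟨z, hz1, hz2, hz3⟩ := ((mem_closure_iff_frequently.1 hy').and_eventually he).exists
  exact hz2 (h0 z hz3 hz1)

omit [FiniteDimensional ℂ T] in
theorem Neg.frequently {σ T₀ : Set T} (h : Neg σ T₀) {t : T} (ht : t ∈ T₀) :
    ∃ᶠ y in 𝓝 t, y ∉ σ := by
  obtain ⟨U, hU, htU, δ, -, h0, hne⟩ := h t ht
  exact ((hne t htU).and_eventually (hU.mem_nhds htU)).mono
    fun y hy hyσ => hy.1 (h0 y hy.2 hyσ)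

omit [FiniteDimensional ℂ T] in
theorem Neg.exists_mem {σ T₀ O : Set T} (h : Neg σ T₀) (hO : IsOpen O) (hOT : O ⊆ T₀)
    (hne : O.Nonempty) : ∃ t ∈ O, t ∉ σ := by
  obtain ⟨t, ht⟩ := hne
  obtain ⟨y, hy1, hy2⟩ := ((h.frequently (hOT ht)).and_eventually (hO.mem_nhds ht)).exists
  exact ⟨y, hy2, hy1⟩

theorem neg_zero {U : Set T} (hU : IsOpen U) (hc : IsPreconnected U) {δ : T → ℂ}
    (hδ : DifferentiableOn ℂ δ U) (hne : ∃ t ∈ U, δ t ≠ 0) : Neg {t | δ t = 0} U := by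
  intro t ht
  refine ⟨U, hU, ht, δ, hδ, fun y _ hy => hy, fun y hy => ?_⟩
  by_contra hf
  rw [not_frequently] at hf
  obtain ⟨s, hs, hs0⟩ := hne
  exact hs0 (hol_id hU hc hδ hy (hf.mono fun z hz => not_not.1 hz) s hs)

omit [FiniteDimensional ℂ T] in
theorem riem_aux_line (y v : T) : Differentiable ℂ fun τ : ℂ => y + τ • v :=
  (differentiable_const y).add (differentiable_id.smul_const v)

omit [FiniteDimensional ℂ T] in
theorem riem_aux_analytic {U : Set T} (hU : IsOpen U) {δ : T → ℂ} (hδ : DifferentiableOn ℂ δ U)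
    (y v : T) : AnalyticOnNhd ℂ (fun τ : ℂ => δ (y + τ • v)) {τ | y + τ • v ∈ U} := by
  have ho : IsOpen {τ : ℂ | y + τ • v ∈ U} := hU.preimage (riem_aux_line y v).continuous
  refine DifferentiableOn.analyticOnNhd ?_ ho
  exact hδ.comp (riem_aux_line y v).differentiableOn fun τ hτ => hτ

omit [FiniteDimensional ℂ T] in
/-- A nonzero direction along which a nowhere locally zero function has an isolated zero. -/
theorem exists_line {U : Set T} (hU : IsOpen U) {δ : T → ℂ} (hδ : DifferentiableOn ℂ δ U) {t : T}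
    (ht : t ∈ U) (h0 : δ t = 0) (hne : ∃ᶠ y in 𝓝 t, δ y ≠ 0) :
    ∃ v : T, v ≠ 0 ∧ ∀ᶠ τ in 𝓝[≠] (0 : ℂ), δ (t + τ • v) ≠ 0 := by
  obtain ⟨R, hR, hRU⟩ := Metric.isOpen_iff.1 hU t ht
  obtain ⟨y, hy0, hy⟩ := (hne.and_eventually (ball_mem_nhds t hR)).exists
  have hv : y - t ≠ 0 := by
    intro h
    rw [sub_eq_zero] at h
    exact hy0 (h ▸ h0)
  refine ⟨y - t, hv, ?_⟩
  have hsub : closedBall (0 : ℂ) 1 ⊆ {τ : ℂ | t + τ • (y - t) ∈ U} := by
    intro τ hτ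
    apply hRU
    rw [mem_closedBall_zero_iff] at hτ
    rw [dist_eq_norm] at hy
    rw [mem_ball_iff_norm, add_sub_cancel_left, norm_smul]
    calc ‖τ‖ * ‖y - t‖ ≤ 1 * ‖y - t‖ := by gcongr
      _ < R := by simpa using hy
  have han := (riem_aux_analytic hU hδ t (y - t)).mono hsub
  have h00 : (0 : ℂ) ∈ closedBall (0 : ℂ) 1 := by simp
  rcases (han 0 h00).eventually_eq_zero_or_eventually_ne_zero with h | h
  · exfalso
    have h1 : (1 : ℂ) ∈ closedBall (0 : ℂ) 1 := by simp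
    have := han.eqOn_zero_of_preconnected_of_eventuallyEq_zero
      (convex_closedBall (0 : ℂ) 1).isPreconnected h00 h h1
    apply hy0
    simpa using this
  · exact h

/-- The Cauchy formula for a bounded function that is holomorphic off isolated points. -/
theorem riem_aux_cauchy {h : ℂ → ℂ} {O : Set ℂ} (hO : IsOpen O) (hh : DifferentiableOn ℂ h O)
    {M ρ : ℝ} (hρ : 0 < ρ) (hb : ∀ τ ∈ O, ‖h τ‖ ≤ M)
    (hiso : ∀ τ ∈ closedBall (0 : ℂ) ρ, ∀ᶠ z in 𝓝[≠] τ, z ∈ O) (h0 : (0 : ℂ) ∈ O)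
    (hs : sphere (0 : ℂ) ρ ⊆ O) :
    (∮ τ in C(0, ρ), τ⁻¹ * h τ) = 2 * Real.pi * Complex.I * h 0 := by
  set h' : ℂ → ℂ := fun τ => limUnder (𝓝[≠] τ) h with hh'
  have heq : ∀ τ ∈ O, h' τ = h τ := by
    intro τ hτ
    have hc : ContinuousAt h τ := (hh.continuousOn τ hτ).continuousAt (hO.mem_nhds hτ)
    exact (hc.tendsto.mono_left nhdsWithin_le_nhds).limUnder_eq
  have hd : DifferentiableOn ℂ h' (closedBall (0 : ℂ) ρ) := by
    intro τ hτ
    have h1 := hiso τ hτ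
    rw [eventually_nhdsWithin_iff] at h1
    have hsub : {z | z ∈ ({τ}ᶜ : Set ℂ) → z ∈ O} \ {τ} ⊆ O := fun z hz => hz.1 hz.2
    have h2 := Complex.differentiableOn_update_limUnder_of_bddAbove (f := h) h1 (hh.mono hsub)
      ⟨M, by
        rintro _ ⟨z, hz, rfl⟩
        exact hb z (hsub hz)⟩
    have h3 : DifferentiableAt ℂ (Function.update h τ (limUnder (𝓝[≠] τ) h)) τ :=
      h2.differentiableAt h1
    refine (h3.congr_of_eventuallyEq ?_).differentiableWithinAt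
    filter_upwards [h1] with z hz
    by_cases hzτ : z = τ
    · subst hzτ
      simp [hh']
    · rw [Function.update_of_ne hzτ]
      exact heq z (hz hzτ)
  have h4 := hd.circleIntegral_sub_inv_smul (w := 0) (mem_ball_self hρ)
  rw [heq 0 h0, smul_eq_mul] at h4
  rw [← h4]
  refine circleIntegral.integral_congr hρ.le fun τ hτ => ?_
  simp [heq τ (hs hτ)]

theorem riem_aux_local {σ T₀ : Set T} (hT : IsOpen T₀) (hσ : Neg σ T₀) (ho : IsOpen (T₀ \ σ))
    {g : T → ℂ} (hg : DifferentiableOn ℂ g (T₀ \ σ)) {M : ℝ} (hb : ∀ t ∈ T₀ \ σ, ‖g t‖ ≤ M)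
    {t : T} (ht : t ∈ T₀) :
    ∃ W : Set T, IsOpen W ∧ t ∈ W ∧ ∃ G : T → ℂ, DifferentiableOn ℂ G W ∧
      ∀ y ∈ W, y ∈ T₀ \ σ → G y = g y := by
  obtain ⟨U, hU, htU, δ, hδ, h0, hne⟩ := hσ t ht
  by_cases hδt : δ t = 0
  swap
  · exact ⟨T₀ \ σ, ho, ⟨ht, fun h => hδt (h0 t htU h)⟩, g, hg, fun _ _ _ => rfl⟩
  obtain ⟨v, -, hv⟩ := exists_line hU hδ htU hδt (hne t htU)
  have hU₀ : IsOpen (U ∩ T₀) := hU.inter hT
  have hcont : Continuous fun p : T × ℂ => p.1 + p.2 • v := by fun_prop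
  have e1 : ∀ᶠ τ in 𝓝 (0 : ℂ), t + τ • v ∈ U ∩ T₀ := by
    apply (riem_aux_line t v).continuous.continuousAt.eventually_mem
    simpa using hU₀.mem_nhds ⟨htU, ht⟩
  rw [eventually_nhdsWithin_iff] at hv
  obtain ⟨r, hr, hrr⟩ := Metric.eventually_nhds_iff_ball.1 (e1.and hv)
  have hρ : 0 < r / 2 := half_pos hr
  have hsub : closedBall (0 : ℂ) (r / 2) ⊆ ball 0 r := closedBall_subset_ball (half_lt_self hr)
  have hsph : ∀ τ ∈ sphere (0 : ℂ) (r / 2), τ ≠ 0 := by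
    intro τ hτ h
    rw [h] at hτ
    simp at hτ
    linarith
  have e2 : ∀ᶠ y in 𝓝 t, ∀ τ ∈ closedBall (0 : ℂ) (r / 2), y + τ • v ∈ U ∩ T₀ := by
    apply (isCompact_closedBall (0 : ℂ) (r / 2)).eventually_forall_of_forall_eventually
    intro τ hτ
    exact hcont.continuousAt.eventually_mem (hU₀.mem_nhds (hrr τ (hsub hτ)).1)
  have e3 : ∀ᶠ y in 𝓝 t, ∀ τ ∈ sphere (0 : ℂ) (r / 2), δ (y + τ • v) ≠ 0 := by
    apply (isCompact_sphere (0 : ℂ) (r / 2)).eventually_forall_of_forall_eventually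
    intro τ hτ
    have hτ' := hrr τ (hsub (sphere_subset_closedBall hτ))
    have hc : ContinuousAt δ (t + τ • v) :=
      (hδ.continuousOn _ hτ'.1.1).continuousAt (hU.mem_nhds hτ'.1.1)
    have hc2 : ContinuousAt (fun p : T × ℂ => δ (p.1 + p.2 • v)) (t, τ) :=
      ContinuousAt.comp (f := fun p : T × ℂ => p.1 + p.2 • v) hc hcont.continuousAt
    exact hc2.eventually_ne (hτ'.2 (hsph τ hτ))
  obtain ⟨W, hW, hWo, htW⟩ := _root_.eventually_nhds_iff.1 (e2.and e3)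
  have hoff : ∀ y ∈ W, ∀ τ ∈ sphere (0 : ℂ) (r / 2), y + τ • v ∈ T₀ \ σ := by
    intro y hy τ hτ
    have h1 := (hW y hy).1 τ (sphere_subset_closedBall hτ)
    exact ⟨h1.2, fun h => (hW y hy).2 τ hτ (h0 _ h1.1 h)⟩
  refine ⟨W, hWo, htW,
    fun y => (2 * Real.pi * Complex.I : ℂ)⁻¹ * ∮ τ in C(0, r / 2), τ⁻¹ * g (y + τ • v), ?_, ?_⟩
  · apply DifferentiableOn.const_mul
    have hW' : IsOpen {p : T × ℂ | p.2 ≠ 0 ∧ p.1 + p.2 • v ∈ T₀ \ σ} :=
      (isOpen_ne_fun continuous_snd continuous_const).inter (ho.preimage hcont)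
    have hd : Differentiable ℂ fun p : T × ℂ => p.1 + p.2 • v :=
      differentiable_fst.add (differentiable_snd.smul_const v)
    have hΦ : DifferentiableOn ℂ (fun p : T × ℂ => p.2⁻¹ * g (p.1 + p.2 • v))
        {p : T × ℂ | p.2 ≠ 0 ∧ p.1 + p.2 • v ∈ T₀ \ σ} :=
      (differentiableOn_snd.inv fun p hp => hp.1).mul
        (hg.comp hd.differentiableOn fun p hp => hp.2)
    exact hol_circle hW' hΦ hWo hρ.le fun y hy τ hτ => ⟨hsph τ hτ, hoff y hy τ hτ⟩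
  · intro y hy hyσ
    have hO : IsOpen {τ : ℂ | y + τ • v ∈ T₀ \ σ} := ho.preimage (riem_aux_line y v).continuous
    have hh : DifferentiableOn ℂ (fun τ : ℂ => g (y + τ • v)) {τ : ℂ | y + τ • v ∈ T₀ \ σ} :=
      hg.comp (riem_aux_line y v).differentiableOn fun τ hτ => hτ
    have han := (riem_aux_analytic hU hδ y v).mono
      (show closedBall (0 : ℂ) (r / 2) ⊆ _ from fun τ hτ => ((hW y hy).1 τ hτ).1)
    have hiso : ∀ τ ∈ closedBall (0 : ℂ) (r / 2),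
        ∀ᶠ z in 𝓝[≠] τ, z ∈ {τ : ℂ | y + τ • v ∈ T₀ \ σ} := by
      intro τ hτ
      rcases (han τ hτ).eventually_eq_zero_or_eventually_ne_zero with h | h
      · exfalso
        have h1 : ((r / 2 : ℝ) : ℂ) ∈ sphere (0 : ℂ) (r / 2) := by
          rw [mem_sphere_zero_iff_norm, Complex.norm_real, Real.norm_of_nonneg hρ.le]
        exact (hW y hy).2 _ h1 (han.eqOn_zero_of_preconnected_of_eventuallyEq_zero
          (convex_closedBall (0 : ℂ) (r / 2)).isPreconnected hτ h (sphere_subset_closedBall h1))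
      · have e4 : ∀ᶠ z in 𝓝 τ, y + z • v ∈ U ∩ T₀ :=
          (riem_aux_line y v).continuous.continuousAt.eventually_mem
            (hU₀.mem_nhds ((hW y hy).1 τ hτ))
        filter_upwards [h, nhdsWithin_le_nhds e4] with z hz1 hz2
        exact ⟨hz2.2, fun hz => hz1 (h0 _ hz2.1 hz)⟩
    have h5 := riem_aux_cauchy hO hh hρ (fun τ hτ => hb _ hτ) hiso (by simpa using hyσ)
      (fun τ hτ => hoff y hy τ hτ)
    simp only [zero_smul, add_zero] at h5
    beta_reduce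
    rw [h5, ← mul_assoc, inv_mul_cancel₀ Complex.two_pi_I_ne_zero, one_mul]

theorem riemann {σ T₀ : Set T} (hT : IsOpen T₀) (hσ : Neg σ T₀) (ho : IsOpen (T₀ \ σ))
    {g : T → ℂ} (hg : DifferentiableOn ℂ g (T₀ \ σ)) {M : ℝ} (hb : ∀ t ∈ T₀ \ σ, ‖g t‖ ≤ M) :
    ∃ g' : T → ℂ, DifferentiableOn ℂ g' T₀ ∧ EqOn g' g (T₀ \ σ) := by
  refine ⟨fun t => limUnder (𝓝[T₀ \ σ] t) g, fun t ht => ?_, fun t ht => ?_⟩
  · obtain ⟨W, hWo, htW, G, hG, hGg⟩ := riem_aux_local hT hσ ho hg hb ht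
    refine ((hG.differentiableAt (hWo.mem_nhds htW)).congr_of_eventuallyEq
      ?_).differentiableWithinAt
    filter_upwards [hWo.mem_nhds htW, hT.mem_nhds ht] with y hyW hyT
    have hne : (𝓝[T₀ \ σ] y).NeBot := by
      rw [← mem_closure_iff_nhdsWithin_neBot, mem_closure_iff_frequently]
      exact ((hσ.frequently hyT).and_eventually (hT.mem_nhds hyT)).mono fun z hz => ⟨hz.2, hz.1⟩
    have hc : ContinuousAt G y := (hG.continuousOn y hyW).continuousAt (hWo.mem_nhds hyW)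
    have h1 : Tendsto g (𝓝[T₀ \ σ] y) (𝓝 (G y)) := by
      refine (hc.tendsto.mono_left nhdsWithin_le_nhds).congr' ?_
      filter_upwards [self_mem_nhdsWithin, nhdsWithin_le_nhds (hWo.mem_nhds hyW)] with z hz hzW
      exact hGg z hzW hz
    exact h1.limUnder_eq
  · have hne : (𝓝[T₀ \ σ] t).NeBot := nhdsWithin_neBot_of_mem ht
    exact (hg.continuousOn t ht).tendsto.limUnder_eq

theorem Neg.preconnected {σ T₀ : Set T} (hσ : Neg σ T₀) (hT : IsOpen T₀) (hc : IsPreconnected T₀)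
    (ho : IsOpen (T₀ \ σ)) : IsPreconnected (T₀ \ σ) := by
  classical
  rintro u v hu hv huv ⟨a, ha, hau⟩ ⟨b, hb, hbv⟩
  by_contra hne
  have hdis : ∀ x ∈ T₀ \ σ, x ∈ v → x ∉ u := fun x hx hxv hxu => hne ⟨x, hx, hxu, hxv⟩
  have hg : DifferentiableOn ℂ (fun x : T => if x ∈ u then (1 : ℂ) else 0) (T₀ \ σ) := by
    intro x hx
    rcases huv hx with hxu | hxv
    · refine ((differentiableAt_const (1 : ℂ)).congr_of_eventuallyEq ?_).differentiableWithinAt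
      filter_upwards [hu.mem_nhds hxu] with y hy
      simp [hy]
    · refine ((differentiableAt_const (0 : ℂ)).congr_of_eventuallyEq ?_).differentiableWithinAt
      filter_upwards [hv.mem_nhds hxv, ho.mem_nhds hx] with y hy hy'
      simp [hdis y hy' hy]
  obtain ⟨g', hg', heq⟩ := riemann hT hσ ho hg (M := 1) (fun x _ => by
    by_cases hx : x ∈ u <;> simp [hx])
  have h1 : ∀ᶠ y in 𝓝 a, g' y - 1 = 0 := by
    filter_upwards [hu.mem_nhds hau, ho.mem_nhds ha] with y hy hy'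
    rw [heq hy']
    simp [hy]
  have h2 := hol_id hT hc (hg'.sub_const 1) ha.1 h1 b hb.1
  rw [heq hb] at h2
  simp [hdis b hb hbv] at h2

end Pool.Agent.Lib.MP_823829_an
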