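import Pool.Agent.Lib.MP_823829_an.Hol

/-! Roots of a holomorphic family of functions of one variable. -/

namespace Pool.Agent.Lib.MP_823829_an

open Set Metric Filter MeasureTheory
open scoped Topology ENNReal NNReal ContDiff ComplexConjugate

variable {P : Type} [NormedAddCommGroup P] [NormedSpace ℂ P] [FiniteDimensional ℂ P]

omit [FiniteDimensional ℂ P] in
theorem roots_aux_esymm {U : Set P} {d : ℕ} {r : P → Fin d → ℂ}
    (h : ∀ n : ℕ, DifferentiableOn ℂ (fun t => ∑ j, r t j ^ n) U) (k : ℕ) :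
    DifferentiableOn ℂ
      (fun t => MvPolynomial.eval (r t) (MvPolynomial.esymm (Fin d) ℂ k)) U := by
  induction k using Nat.strong_induction_on with
  | _ k ih =>
    rcases Nat.eq_zero_or_pos k with rfl | hk
    · simp only [MvPolynomial.esymm_zero, map_one]
      exact differentiableOn_const _
    · have hk' : (k : ℂ) ≠ 0 := Nat.cast_ne_zero.2 hk.ne'
      have e : ∀ t, MvPolynomial.eval (r t) (MvPolynomial.esymm (Fin d) ℂ k) =
          (k : ℂ)⁻¹ * ((-1) ^ (k + 1) * ∑ a ∈ Finset.HasAntidiagonal.antidiagonal k with a.1 < k,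
            (-1) ^ a.1 * MvPolynomial.eval (r t) (MvPolynomial.esymm (Fin d) ℂ a.1) *
              ∑ j, r t j ^ a.2) := by
        intro t
        have := congrArg (MvPolynomial.eval (r t)) (MvPolynomial.mul_esymm_eq_sum (Fin d) ℂ k)
        simp only [map_mul, map_natCast, map_pow, map_neg, map_one, map_sum, MvPolynomial.psum,
          MvPolynomial.eval_X] at this
        rw [← this, ← mul_assoc, inv_mul_cancel₀ hk', one_mul]
      simp only [e]
      refine DifferentiableOn.const_mul (DifferentiableOn.const_mul ?_ _) _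
      refine DifferentiableOn.fun_sum fun a ha => ?_
      exact ((ih a.1 (Finset.mem_filter.1 ha).2).const_mul _).mul (h a.2)

omit [FiniteDimensional ℂ P] in
theorem newton {U : Set P} {d : ℕ} {r : P → Fin d → ℂ}
    (h : ∀ n : ℕ, DifferentiableOn ℂ (fun t => ∑ j, r t j ^ n) U) :
    DifferentiableOn ℂ (fun t => ∏ j, r t j) U := by
  have h1 := roots_aux_esymm h d
  have e : MvPolynomial.esymm (Fin d) ℂ d = ∏ j, MvPolynomial.X j := by
    have : Finset.powersetCard d (Finset.univ : Finset (Fin d)) = {Finset.univ} := by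
      simpa using Finset.powersetCard_self (Finset.univ : Finset (Fin d))
    rw [MvPolynomial.esymm, this, Finset.sum_singleton]
  simpa only [e, map_prod, MvPolynomial.eval_X] using h1

theorem roots_aux_ne {f : ℂ → ℂ} {c₀ : ℂ} {ρ R : ℝ} (hρ : 0 < ρ) (hR : ρ < R)
    (hf : DifferentiableOn ℂ f (ball c₀ R)) (hne : ∀ c ∈ sphere c₀ ρ, f c ≠ 0) {a : ℂ}
    (ha : a ∈ ball c₀ R) : ¬ ∀ᶠ z in 𝓝 a, f z = 0 := by
  intro h0
  have han := hf.analyticOnNhd isOpen_ball
  have h1 := han.eqOn_zero_of_preconnected_of_eventuallyEq_zero (convex_ball c₀ R).isPreconnected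
    ha h0
  obtain ⟨c, hc⟩ : (sphere c₀ ρ).Nonempty := NormedSpace.sphere_nonempty.2 hρ.le
  exact hne c hc (h1 (sphere_subset_ball hR hc))

theorem roots_aux_finite {f : ℂ → ℂ} {c₀ : ℂ} {ρ R : ℝ} (hρ : 0 < ρ) (hR : ρ < R)
    (hf : DifferentiableOn ℂ f (ball c₀ R)) (hne : ∀ c ∈ sphere c₀ ρ, f c ≠ 0) :
    {c | c ∈ ball c₀ ρ ∧ f c = 0}.Finite := by
  by_contra hinf
  obtain ⟨a, ha, hacc⟩ := Set.Infinite.exists_accPt_of_subset_isCompact hinf
    (isCompact_closedBall c₀ ρ) (fun c hc => ball_subset_closedBall hc.1)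
  have ha' : a ∈ ball c₀ R := closedBall_subset_ball hR ha
  have han := hf.analyticOnNhd isOpen_ball a ha'
  rcases han.eventually_eq_zero_or_eventually_ne_zero with h | h
  · exact roots_aux_ne hρ hR hf hne ha' h
  · rw [accPt_iff_frequently_nhdsNE] at hacc
    obtain ⟨z, hz1, hz2⟩ := (hacc.and_eventually h).exists
    exact hz2 hz1.2

theorem roots_aux_div {f : ℂ → ℂ} {c₀ : ℂ} {R : ℝ} (hf : DifferentiableOn ℂ f (ball c₀ R))
    {a : ℂ} (ha : a ∈ ball c₀ R) (h0 : ¬ ∀ᶠ z in 𝓝 a, f z = 0) :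
    ∃ (m : ℕ) (g : ℂ → ℂ), DifferentiableOn ℂ g (ball c₀ R) ∧ g a ≠ 0 ∧
      ∀ z, f z = (z - a) ^ m * g z := by
  classical
  have han := hf.analyticOnNhd isOpen_ball a ha
  obtain ⟨m, G, hG, hGa, hfG⟩ := han.exists_eventuallyEq_pow_smul_nonzero_iff.2 h0
  refine ⟨m, fun z => if z = a then G a else f z / (z - a) ^ m, ?_, by simpa using hGa, ?_⟩
  · intro z hz
    by_cases hza : z = a
    · subst hza
      refine (hG.differentiableAt.congr_of_eventuallyEq ?_).differentiableWithinAt
      filter_upwards [hfG] with w hw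
      by_cases hw' : w = z
      · simp [hw']
      · have : (w - z) ^ m ≠ 0 := pow_ne_zero _ (sub_ne_zero.2 hw')
        simp only [hw', if_false, hw, smul_eq_mul]
        field_simp
    · have h1 : DifferentiableAt ℂ (fun w => f w / (w - a) ^ m) z :=
        (hf.differentiableAt (isOpen_ball.mem_nhds hz)).div (by fun_prop)
          (pow_ne_zero _ (sub_ne_zero.2 hza))
      refine (h1.congr_of_eventuallyEq ?_).differentiableWithinAt
      filter_upwards [isOpen_ne.mem_nhds hza] with w hw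
      simp only [if_neg hw]
  · intro z
    by_cases hza : z = a
    · subst hza
      simpa using hfG.self_of_nhds
    · have : (z - a) ^ m ≠ 0 := pow_ne_zero _ (sub_ne_zero.2 hza)
      simp only [hza, if_false]
      field_simp

theorem roots_aux_int {c₀ : ℂ} {ρ R : ℝ} (hρ : 0 < ρ) (hR : ρ < R) (S : Finset ℂ) :
    ∀ f : ℂ → ℂ, DifferentiableOn ℂ f (ball c₀ R) → (∀ c ∈ sphere c₀ ρ, f c ≠ 0) →
      (∀ c, (c ∈ ball c₀ ρ ∧ f c = 0) ↔ c ∈ S) →
      ∃ m : Multiset ℂ, (∀ c, c ∈ S ↔ c ∈ m) ∧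
        ∀ h : ℂ → ℂ, DifferentiableOn ℂ h (ball c₀ R) →
          (∮ z in C(c₀, ρ), h z * deriv f z / f z) = 2 * Real.pi * Complex.I * (m.map h).sum := by
  classical
  have hsub : closedBall c₀ ρ ⊆ ball c₀ R := closedBall_subset_ball hR
  induction S using Finset.induction_on with
  | empty =>
    intro f hf hne hS
    refine ⟨0, by simp, fun h hh => ?_⟩
    have hne' : ∀ c ∈ closedBall c₀ ρ, f c ≠ 0 := by
      intro c hc h0
      rcases (mem_closedBall.1 hc).lt_or_eq with h1 | h1
      · simpa using (hS c).1 ⟨h1, h0⟩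
      · exact hne c h1 h0
    have hd : DifferentiableOn ℂ (fun z => h z * deriv f z / f z) (closedBall c₀ ρ) :=
      ((hh.mul (hf.deriv isOpen_ball)).mono hsub).div (hf.mono hsub) hne'
    rw [(hd.mono closure_ball_subset_closedBall).diffContOnCl.circleIntegral_eq_zero hρ.le]
    simp
  | insert a S haS ih =>
    intro f hf hne hS
    obtain ⟨haρ, hfa⟩ := (hS a).2 (Finset.mem_insert_self _ _)
    have haR : a ∈ ball c₀ R := ball_subset_ball hR.le haρ
    obtain ⟨m, g, hg, hga, hfg⟩ := roots_aux_div hf haR (roots_aux_ne hρ hR hf hne haR)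
    have hm : m ≠ 0 := by
      rintro rfl
      rw [hfg a, pow_zero, one_mul] at hfa
      exact hga hfa
    have hgne : ∀ c ∈ sphere c₀ ρ, g c ≠ 0 := fun c hc h0 => hne c hc (by rw [hfg, h0, mul_zero])
    have hgS : ∀ c, (c ∈ ball c₀ ρ ∧ g c = 0) ↔ c ∈ S := by
      intro c
      constructor
      · rintro ⟨h1, h2⟩
        have := (hS c).1 ⟨h1, by rw [hfg, h2, mul_zero]⟩
        rcases Finset.mem_insert.1 this with rfl | h3
        · exact absurd h2 hga
        · exact h3
      · intro hc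
        obtain ⟨h1, h2⟩ := (hS c).2 (Finset.mem_insert_of_mem hc)
        have hca : c ≠ a := fun e => haS (e ▸ hc)
        rw [hfg] at h2
        exact ⟨h1, (mul_eq_zero.1 h2).resolve_left (pow_ne_zero _ (sub_ne_zero.2 hca))⟩
    obtain ⟨M, hM, hMi⟩ := ih g hg hgne hgS
    refine ⟨Multiset.replicate m a + M, fun c => ?_, fun h hh => ?_⟩
    · rw [Finset.mem_insert, Multiset.mem_add, Multiset.mem_replicate, hM]
      simp [hm]
    · have hza : ∀ z ∈ sphere c₀ ρ, z - a ≠ 0 := by
        intro z hz h0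
        rw [sub_eq_zero.1 h0] at hz
        exact (mem_ball.1 haρ).ne hz
      have e : EqOn (fun z => h z * deriv f z / f z)
          (fun z => (m : ℂ) * ((z - a)⁻¹ • h z) + h z * deriv g z / g z) (sphere c₀ ρ) := by
        intro z hz
        have hzR : z ∈ ball c₀ R := sphere_subset_ball hR hz
        have hgd := (hg.differentiableAt (isOpen_ball.mem_nhds hzR)).hasDerivAt
        have hp : HasDerivAt (fun w : ℂ => (w - a) ^ m) (m * (z - a) ^ (m - 1)) z := by
          simpa using ((hasDerivAt_id z).sub_const a).fun_pow m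
        have hfe : f = fun w => (w - a) ^ m * g w := funext hfg
        have hd : deriv f z = m * (z - a) ^ (m - 1) * g z + (z - a) ^ m * deriv g z := by
          rw [hfe]; exact (hp.fun_mul hgd).deriv
        obtain ⟨k, rfl⟩ := Nat.exists_eq_succ_of_ne_zero hm
        have h1 := hza z hz
        have h2 := hgne z hz
        simp only [hd, hfg z, smul_eq_mul, Nat.succ_eq_add_one, Nat.add_sub_cancel]
        field_simp
        ring
      have hsph : sphere c₀ ρ ⊆ ball c₀ R := sphere_subset_ball hR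
      have i1 : CircleIntegrable (fun z => (m : ℂ) * ((z - a)⁻¹ • h z)) c₀ ρ := by
        refine ContinuousOn.circleIntegrable hρ.le (ContinuousOn.mul continuousOn_const ?_)
        exact ((continuousOn_id.sub continuousOn_const).inv₀ hza).smul
          (hh.continuousOn.mono hsph)
      have i2 : CircleIntegrable (fun z => h z * deriv g z / g z) c₀ ρ := by
        refine ContinuousOn.circleIntegrable hρ.le ?_
        exact ((hh.mul (hg.deriv isOpen_ball)).continuousOn.mono hsph).div
          (hg.continuousOn.mono hsph) hgne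
      rw [circleIntegral.integral_congr hρ.le e, circleIntegral.integral_add i1 i2,
        circleIntegral.integral_const_mul, (hh.mono hsub).circleIntegral_sub_inv_smul haρ,
        hMi h hh, Multiset.map_add, Multiset.sum_add, Multiset.map_replicate,
        Multiset.sum_replicate, smul_eq_mul, nsmul_eq_mul]
      ring

theorem roots_aux_one {c₀ : ℂ} {ρ R : ℝ} (hρ : 0 < ρ) (hR : ρ < R) {f : ℂ → ℂ}
    (hf : DifferentiableOn ℂ f (ball c₀ R)) (hne : ∀ c ∈ sphere c₀ ρ, f c ≠ 0) :
    ∃ m : Multiset ℂ, (∀ c, (c ∈ ball c₀ ρ ∧ f c = 0) ↔ c ∈ m) ∧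
      ∀ h : ℂ → ℂ, DifferentiableOn ℂ h (ball c₀ R) →
        (∮ z in C(c₀, ρ), h z * deriv f z / f z) = 2 * Real.pi * Complex.I * (m.map h).sum := by
  have hfin := roots_aux_finite hρ hR hf hne
  obtain ⟨m, hm, hi⟩ := roots_aux_int hρ hR hfin.toFinset f hf hne (fun c => by simp)
  exact ⟨m, fun c => by rw [← hm]; simp, hi⟩

theorem roots_aux_enum {d : ℕ} (m : Multiset ℂ) (hm : Multiset.card m = d) :
    ∃ r : Fin d → ℂ, Finset.univ.val.map r = m := by
  induction m using Quotient.inductionOn with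
  | _ l =>
    have hl : l.length = d := hm
    subst hl
    exact ⟨l.get, by rw [Fin.univ_val_map, List.ofFn_get]; rfl⟩

omit [FiniteDimensional ℂ P] in
theorem roots_aux_slice {U : Set P} {V : Set ℂ} {g : P × ℂ → ℂ}
    (hg : DifferentiableOn ℂ g (U ×ˢ V)) {t : P} (ht : t ∈ U) :
    DifferentiableOn ℂ (fun c => g (t, c)) V :=
  hg.comp (by fun_prop : Differentiable ℂ fun c : ℂ => (t, c)).differentiableOn
    fun _ hc => ⟨ht, hc⟩

theorem roots {U : Set P} (hU : IsOpen U) (hc : IsPreconnected U) {c₀ : ℂ} {ρ R : ℝ} (hρ : 0 < ρ)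
    (hR : ρ < R) {g : P × ℂ → ℂ} (hg : DifferentiableOn ℂ g (U ×ˢ ball c₀ R))
    (hne : ∀ t ∈ U, ∀ c ∈ sphere c₀ ρ, g (t, c) ≠ 0) :
    ∃ (d : ℕ) (r : P → Fin d → ℂ),
      (∀ t ∈ U, ∀ c, (c ∈ ball c₀ ρ ∧ g (t, c) = 0) ↔ ∃ j, c = r t j) ∧
      ∀ h : P × ℂ → ℂ, DifferentiableOn ℂ h (U ×ˢ ball c₀ R) →
        DifferentiableOn ℂ (fun t => ∑ j, h (t, r t j)) U ∧
          DifferentiableOn ℂ (fun t => ∏ j, h (t, r t j)) U := by
  classical
  rcases U.eq_empty_or_nonempty with rfl | ⟨t₀, ht₀⟩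
  · exact ⟨0, fun _ => Fin.elim0, by simp, fun h _ => by simp [differentiableOn_empty]⟩
  have hO : IsOpen (U ×ˢ ball c₀ R) := hU.prod isOpen_ball
  choose! m hm hmi using fun t (ht : t ∈ U) =>
    roots_aux_one hρ hR (roots_aux_slice hg ht) (hne t ht)
  have hπ : (2 * Real.pi * Complex.I : ℂ) ≠ 0 := Complex.two_pi_I_ne_zero
  have hsum : ∀ h : P × ℂ → ℂ, DifferentiableOn ℂ h (U ×ˢ ball c₀ R) →
      DifferentiableOn ℂ (fun t => ((m t).map fun c => h (t, c)).sum) U := by
    intro h hh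
    let W : Set (P × ℂ) := (U ×ˢ ball c₀ R) ∩ g ⁻¹' {0}ᶜ
    have hW : IsOpen W := hg.continuousOn.isOpen_inter_preimage hO isOpen_compl_singleton
    have hD : DifferentiableOn ℂ (fun q => fderiv ℂ g q (0, 1)) (U ×ˢ ball c₀ R) :=
      (hol_fderiv hO hg).clm_apply (differentiableOn_const _)
    have hΦ : DifferentiableOn ℂ (fun q => h q * fderiv ℂ g q (0, 1) / g q) W := by
      simp only [div_eq_mul_inv]
      exact ((hh.mul hD).mono inter_subset_left).mul
        ((hg.mono inter_subset_left).inv fun q hq => hq.2)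
    have h1 := hol_circle hW hΦ hU hρ.le
      fun p hp z hz => ⟨⟨hp, sphere_subset_ball hR hz⟩, hne p hp z hz⟩
    refine (h1.const_mul (2 * Real.pi * Complex.I : ℂ)⁻¹).congr fun t ht => ?_
    have e : EqOn (fun z => h (t, z) * fderiv ℂ g (t, z) (0, 1) / g (t, z))
        (fun z => h (t, z) * deriv (fun c => g (t, c)) z / g (t, z)) (sphere c₀ ρ) := by
      intro z hz
      have hq : (t, z) ∈ U ×ˢ ball c₀ R := ⟨ht, sphere_subset_ball hR hz⟩
      have hd := (hg.differentiableAt (hO.mem_nhds hq)).hasFDerivAt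
      have hl : HasDerivAt (fun c : ℂ => (t, c)) ((0 : P), (1 : ℂ)) z :=
        (hasDerivAt_const z t).prodMk (hasDerivAt_id z)
      have := (hd.comp_hasDerivAt z hl).deriv
      simp only
      rw [← this]
      rfl
    rw [circleIntegral.integral_congr hρ.le e, hmi t ht _ (roots_aux_slice hh ht), ← mul_assoc,
      inv_mul_cancel₀ hπ, one_mul]
  have hcard : ∀ t ∈ U, Multiset.card (m t) = Multiset.card (m t₀) := by
    have h1 : ContinuousOn (fun t => ((Multiset.card (m t) : ℕ) : ℂ)) U := by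
      simpa using (hsum (fun _ => 1) (differentiableOn_const _)).continuousOn
    have h2 : ContinuousOn (fun t => ((Multiset.card (m t) : ℕ) : ℝ)) U := by
      simpa using Complex.continuous_re.comp_continuousOn' h1
    have h3 : ContinuousOn (fun t => Multiset.card (m t)) U :=
      Nat.isClosedEmbedding_coe_real.isInducing.continuousOn_iff.2 h2
    exact fun t ht => hc.constant h3 ht ht₀
  choose! r hr using fun t (ht : t ∈ U) => roots_aux_enum (m t) (hcard t ht)
  have hsum' : ∀ h : P × ℂ → ℂ, DifferentiableOn ℂ h (U ×ˢ ball c₀ R) →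
      DifferentiableOn ℂ (fun t => ∑ j, h (t, r t j)) U := by
    intro h hh
    refine (hsum h hh).congr fun t ht => ?_
    rw [← hr t ht, Multiset.map_map]
    rfl
  refine ⟨_, r, fun t ht c => ?_, fun h hh => ⟨hsum' h hh, ?_⟩⟩
  · rw [hm t ht, ← hr t ht, Multiset.mem_map]
    exact ⟨fun ⟨j, _, e⟩ => ⟨j, e.symm⟩, fun ⟨j, e⟩ => ⟨j, Finset.mem_univ_val j, e.symm⟩⟩
  · exact newton (r := fun t j => h (t, r t j)) fun n => hsum' (fun q => h q ^ n) (hh.pow n)

end Pool.Agent.Lib.MP_823829_an
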