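import Mathlib

/-!
Definitions used in the statement: the Hartogs figure, forms of type (2,2) on a complex manifold,
analytic subsets of `D × X` and meromorphic maps given by their graphs.
-/

namespace Pool.Agent.Lib.MP_823829_an.Spec

open Set Metric Filter MeasureTheory
open scoped Manifold ContDiff Topology ComplexConjugate

/-- The space `ℂ²` with the maximum norm, so that balls are bidiscs. -/
abbrev C2 : Type := Fin 2 → ℂ

/-- The space `ℂ⁴ = ℂ² × ℂ²` with the maximum norm. -/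
abbrev C4 : Type := C2 × C2

/-- The unit polydisc `Δ⁴ = Δ² × Δ²`. -/
def polydisc : Set C4 := ball (0 : C2) 1 ×ˢ ball (0 : C2) 1

/-- The Hartogs figure `H_2^2(r) = [Δ²(1-r) × Δ²] ∪ [Δ² × (Δ² ∖ closure Δ²(r))]`. -/
def hartogs (r : ℝ) : Set C4 :=
  (ball (0 : C2) (1 - r) ×ˢ ball (0 : C2) 1) ∪
    (ball (0 : C2) 1 ×ˢ (ball (0 : C2) 1 \ closedBall (0 : C2) r))

/-- The `t`-dimensional Hausdorff measure of `A` is zero. -/
def IsNull (t : ℝ) (A : Set C4) : Prop := μH[t] A = 0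

section Forms

/-- `β u₁ u₂ v₁ v₂` is a (2,2)-form on the complex vector space `V`: complex linear and
alternating in `u₁, u₂`, conjugate linear and alternating in `v₁, v₂`. -/
def IsForm {V : Type} [AddCommGroup V] [Module ℂ V] (β : V → V → V → V → ℂ) : Prop :=
  (∀ u₂ v₁ v₂, IsLinearMap ℂ fun u => β u u₂ v₁ v₂) ∧
  (∀ u₁ v₁ v₂, IsLinearMap ℂ fun u => β u₁ u v₁ v₂) ∧
  (∀ u₁ u₂ v₂, IsLinearMap ℂ fun v => conj (β u₁ u₂ v v₂)) ∧
  (∀ u₁ u₂ v₁, IsLinearMap ℂ fun v => conj (β u₁ u₂ v₁ v)) ∧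
  (∀ u v₁ v₂, β u u v₁ v₂ = 0) ∧ ∀ u₁ u₂ v, β u₁ u₂ v v = 0

/-- The (2,2)-form `β` is strictly positive: it is positive on every complex 2-plane. -/
def IsPos {V : Type} [AddCommGroup V] [Module ℂ V] (β : V → V → V → V → ℂ) : Prop :=
  ∀ u v, LinearIndependent ℂ ![u, v] → 0 < (β u v u v).re

variable {V : Type} [NormedAddCommGroup V] [NormedSpace ℂ V] [NormedSpace ℝ V]

/-- The Wirtinger derivative `∂g` at `y` evaluated on `u`: the complex linear part of the real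
derivative. -/
noncomputable def dH (g : V → ℂ) (y u : V) : ℂ :=
  (fderiv ℝ g y u - Complex.I * fderiv ℝ g y (Complex.I • u)) / 2

/-- The Wirtinger derivative `∂̄g` at `y` evaluated on `v`: the conjugate linear part of the real
derivative. -/
noncomputable def dA (g : V → ℂ) (y v : V) : ℂ :=
  (fderiv ℝ g y v + Complex.I * fderiv ℝ g y (Complex.I • v)) / 2

/-- For a field `W` of (2,2)-forms on an open set of `V` (`W y u₁ u₂ v₁ v₂` is its value at `y`),
the (3,3)-form `∂∂̄W` at `y`, evaluated on `u₀, u₁, u₂; v₀, v₁, v₂`: the double cyclic sum of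
`∂_{u₀} ∂̄_{v₀} W(u₁, u₂; v₁, v₂)`. -/
noncomputable def ddbar (W : V → V → V → V → V → ℂ) (y : V) (u v : Fin 3 → V) : ℂ :=
  ∑ i : Fin 3, ∑ j : Fin 3,
    dH (fun y' => dA (fun y'' => W y'' (u (i + 1)) (u (i + 2)) (v (j + 1)) (v (j + 2))) y' (v j))
      y (u i)

/-- The field `W` of (2,2)-forms is smooth on `U` and satisfies `∂∂̄W = 0` there. -/
def IsPluriclosedOn (W : V → V → V → V → V → ℂ) (U : Set V) : Prop :=
  (∀ u₁ u₂ v₁ v₂, ContDiffOn ℝ ∞ (fun y => W y u₁ u₂ v₁ v₂) U) ∧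
    ∀ y ∈ U, ∀ u v, ddbar W y u v = 0

end Forms

section Manifold

variable (E : Type) [NormedAddCommGroup E] [NormedSpace ℂ E]
  {X : Type*} [TopologicalSpace X] [ChartedSpace E X]

/-- The complex tangent space at `x` of the complex manifold `X` with charts in `E`. -/
abbrev Tan (x : X) : Type := TangentSpace 𝓘(ℂ, E) x

/-- Functions of four tangent vectors at each point of `X`. -/
abbrev Tensor (X : Type*) [TopologicalSpace X] [ChartedSpace E X] :=
  (x : X) → Tan E x → Tan E x → Tan E x → Tan E x → ℂ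

variable {E}

/-- The differential at `y` of the inverse of the chart `e`, applied to `u`. -/
noncomputable def dInv (e : OpenPartialHomeomorph X E) (y u : E) : Tan E (e.symm y) :=
  mfderiv 𝓘(ℂ, E) 𝓘(ℂ, E) e.symm y u

/-- The expression of `Ω` in the chart `e`: its pullback by `e.symm`. -/
noncomputable def inChart (Ω : Tensor E X) (e : OpenPartialHomeomorph X E)
    (y u₁ u₂ v₁ v₂ : E) : ℂ :=
  Ω (e.symm y) (dInv e y u₁) (dInv e y u₂) (dInv e y v₁) (dInv e y v₂)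

/-- `Ω` is a smooth, strictly positive (2,2)-form with `∂∂̄Ω = 0` (that is, `dd^c Ω = 0`). -/
def IsPosPluriclosed [NormedSpace ℝ E] (Ω : Tensor E X) : Prop :=
  (∀ x, IsForm (Ω x) ∧ IsPos (Ω x)) ∧ ∀ e ∈ atlas E X, IsPluriclosedOn (inChart Ω e) e.target

variable (E)

/-- `g` is a holomorphic map from the subset `U` of the complex manifold `B × X` to `F`. -/
def IsHolOn {B F : Type} [NormedAddCommGroup B] [NormedSpace ℂ B] [NormedAddCommGroup F]
    [NormedSpace ℂ F] (g : B × X → F) (U : Set (B × X)) : Prop :=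
  MDifferentiableOn (𝓘(ℂ, B).prod 𝓘(ℂ, E)) 𝓘(ℂ, F) g U

/-- Near the point `p` the set `Z` is the common zero set of finitely many holomorphic
functions. -/
def IsAnalyticNear (Z : Set (C4 × X)) (p : C4 × X) : Prop :=
  ∃ U : Set (C4 × X), IsOpen U ∧ p ∈ U ∧ ∃ (n : ℕ) (g : C4 × X → Fin n → ℂ),
    IsHolOn E g U ∧ ∀ q ∈ U, q ∈ Z ↔ g q = 0

/-- `Γ` is an analytic subset of `D × X`. -/
def IsAnalyticIn (D : Set C4) (Γ : Set (C4 × X)) : Prop :=
  Γ ⊆ D ×ˢ univ ∧ ∀ p ∈ D ×ˢ (univ : Set X), IsAnalyticNear E Γ p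

/-- `Γ` is an irreducible analytic subset of `D × X`. -/
def IsIrreducibleIn (D : Set C4) (Γ : Set (C4 × X)) : Prop :=
  IsAnalyticIn E D Γ ∧ Γ.Nonempty ∧ ∀ Z₁ Z₂ : Set (C4 × X), IsAnalyticIn E D Z₁ →
    IsAnalyticIn E D Z₂ → Γ = Z₁ ∪ Z₂ → Γ = Z₁ ∨ Γ = Z₂

/-- `Γ` is the graph of a meromorphic map `D → X`: an irreducible analytic subset of `D × X` whose
projection to `D` is proper and one-to-one over a dense open subset of `D`. -/
def IsMeromorphicGraph (D : Set C4) (Γ : Set (C4 × X)) : Prop :=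
  IsIrreducibleIn E D Γ ∧ (∀ K ⊆ D, IsCompact K → IsCompact (Γ ∩ K ×ˢ univ)) ∧
    ∃ O ⊆ D, IsOpen O ∧ D ⊆ closure O ∧ ∀ t ∈ O, ∃! x, (t, x) ∈ Γ

/-- The germ of `Γ` at each of its points is irreducible: it is not the union of two smaller
analytic germs. -/
def IsLocallyIrreducible (Γ : Set (C4 × X)) : Prop :=
  ∀ p ∈ Γ, ∀ Z₁ Z₂ : Set (C4 × X), IsAnalyticNear E Z₁ p → IsAnalyticNear E Z₂ p →
    (∀ᶠ q in 𝓝 p, q ∈ Γ ↔ q ∈ Z₁ ∪ Z₂) →
      (∀ᶠ q in 𝓝 p, q ∈ Γ ↔ q ∈ Z₁) ∨ (∀ᶠ q in 𝓝 p, q ∈ Γ ↔ q ∈ Z₂)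

end Manifold

end Pool.Agent.Lib.MP_823829_an.Spec
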