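import Pool.Agent.Lib.MP_823829_an.Spec
import Pool.Agent.Lib.MP_823829_an.LI.Main2

/-! From the definitions of the statement to those of the library. -/

namespace Pool.Agent.Lib.MP_823829_an

open Set Metric Filter MeasureTheory
open scoped Topology ComplexConjugate Manifold

/-- The bundled tensor of a (2,2)-form. -/
noncomputable def toForm {V : Type} [AddCommGroup V] [Module ℂ V] {β : V → V → V → V → ℂ}
    (h : Spec.IsForm β) : Form V :=
  LinearMap.mk₂ ℂ
    (fun u₁ u₂ => LinearMap.mk₂'ₛₗ (starRingEnd ℂ) (starRingEnd ℂ) (β u₁ u₂)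
      (fun a b c => by simpa using congrArg conj ((h.2.2.1 u₁ u₂ c).map_add a b))
      (fun s a c => by simpa using congrArg conj ((h.2.2.1 u₁ u₂ c).map_smul s a))
      (fun a b c => by simpa using congrArg conj ((h.2.2.2.1 u₁ u₂ a).map_add b c))
      (fun s a c => by simpa using congrArg conj ((h.2.2.2.1 u₁ u₂ a).map_smul s c)))
    (fun a b c => by ext v w; exact (h.1 c v w).map_add a b)
    (fun s a c => by ext v w; exact (h.1 c v w).map_smul s a)
    (fun a b c => by ext v w; exact (h.2.1 a v w).map_add b c)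
    (fun s a c => by ext v w; exact (h.2.1 a v w).map_smul s c)

variable {m : ℕ} {X : Type*} [TopologicalSpace X] [ChartedSpace (Fin m → ℂ) X]

theorem spec_pos {Ω : Spec.Tensor (Fin m → ℂ) X} (h : Spec.IsPosPluriclosed Ω) :
    IsPosPluriclosed (fun x => toForm (h.1 x).1) where
  alt_left := fun x => (h.1 x).1.2.2.2.2.1
  alt_right := fun x => (h.1 x).1.2.2.2.2.2
  smooth := fun e he => (h.2 e he).1
  closed := fun e he => (h.2 e he).2
  pos := fun x => (h.1 x).2

end Pool.Agent.Lib.MP_823829_an
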