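import Pool.Agent.Lib.MP_823829_an.T2

/-! The closure of a union of components is analytic. -/

namespace Pool.Agent.Lib.MP_823829_an

open Set Metric Filter MeasureTheory
open scoped Topology ENNReal NNReal ContDiff ComplexConjugate

variable {A : Type} [NormedAddCommGroup A] [NormedSpace ℂ A] [FiniteDimensional ℂ A]

theorem split_aux_out {Z H : Set A} {p : A} (hp : AnAt Z p) (hH : H ⊆ Z) (h : p ∉ Z) :
    AnAt (closure H) p :=
  anAt_of_notMem_closure fun h1 => h (hp.mem_of_closure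
    (closure_mono hH (closure_closure (s := H) ▸ h1)))

theorem split_aux_good {Z H W : Set A} {j d : ℕ} {L : A →L[ℂ] (Fin j → ℂ)} {t : Fin j → ℂ}
    (hH : H ⊆ Z) (hd : Dich Z H) (hW : IsOpen W) (h : Good (Z ∩ W) L d t) :
    ∃ d', Good (Z ∩ W ∩ closure H) L d' t := by
  obtain ⟨r, hr, -, s, hs⟩ := h.exists_ball univ_mem
  obtain ⟨d', s', h'⟩ := hs.sub (Z' := Z ∩ W ∩ closure H) (fun x _ hx => hx.1) fun i => by
    have h1 : ∀ u ∈ ball t r, ∀ᶠ x in 𝓝 (s i u), x ∈ Z → x = s i (L x) := fun u hu => by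
      filter_upwards [hs.isOpen isOpen_ball i hu, hW.mem_nhds (hs.mem_self i hu).2] with x h2 h3 h4
      exact h2 ⟨h4, h3⟩
    refine (hd j (ball t r) (s i) L isOpen_ball (convex_ball t r).isPreconnected (hs.hol i)
      (hs.sec i) (fun u hu => (hs.mem_self i hu).1) h1).symm.imp (fun h2 u hu => ?_)
      fun h2 u hu h3 => ?_
    · exact ⟨hs.mem_self i hu, mem_closure_of_frequently_of_tendsto (h2 u hu)
        ((hs.hol i).continuousOn.continuousAt (isOpen_ball.mem_nhds hu))⟩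
    · have h4 : ∀ᶠ x in 𝓝 (s i u), L x ∈ ball t r := L.continuous.continuousAt.preimage_mem_nhds
        (isOpen_ball.mem_nhds (by rwa [hs.sec i u hu]))
      obtain ⟨x, h5, h6, h7⟩ :=
        ((mem_closure_iff_frequently.1 h3.2).and_eventually ((h1 u hu).and h4)).exists
      exact h2 _ h7 (h6 (hH h5) ▸ h5)
  exact ⟨d', _, isOpen_ball, mem_ball_self hr, s', h'⟩

theorem split_aux_dich {Z Z₂ H B K : Set A} (hd : Dich Z H) (hB : IsOpen B) (hK : IsClosed K)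
    (h1 : Z₂ ⊆ Z ∩ B) (h2 : ∀ x ∈ Z ∩ B, x ∉ K → x ∈ Z₂) (h3 : ∀ x ∈ B, AnAt K x) :
    Dich Z₂ ((H ∩ B) \ K) := by
  intro j U h L hU hc hh hL hZ he
  have h4 : ∀ u ∈ U, AnAt (h ⁻¹' K) u := fun u hu => (h3 _ (h1 (hZ u hu)).2).preimage
    (by filter_upwards [hU.mem_nhds hu] with y hy using hh.differentiableAt (hU.mem_nhds hy))
  rcases an_dich hU hc h4 with h5 | h5
  · exact Or.inl fun u hu h6 => h6.2 (h5 hu)
  have h6 := an_isOpen_diff hU h4
  refine (hd j (U \ h ⁻¹' K) h L h6 (h5.preconnected hU hc h6) (hh.mono sdiff_subset)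
    (fun u hu => hL u hu.1) (fun u hu => (h1 (hZ u hu.1)).1) fun u hu => ?_).imp
    (fun h7 u hu h8 => h7 u ⟨hu, h8.2⟩ h8.1.1) fun h7 u hu => ?_
  · filter_upwards [he u hu.1, hB.mem_nhds (h1 (hZ u hu.1)).2,
      hK.isOpen_compl.mem_nhds hu.2] with x h7 h8 h9 h10
    exact h7 (h2 x ⟨h10, h8⟩ h9)
  · refine frequently_frequently_nhds.1 (((h5.frequently hu).and_eventually
      (hU.mem_nhds hu)).mono fun y hy => ?_)
    exact ((h7 y ⟨hy.2, hy.1⟩).and_eventually (h6.mem_nhds ⟨hy.2, hy.1⟩)).mono fun z hz =>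
      ⟨⟨hz.1, (h1 (hZ z hz.2.1)).2⟩, hz.2.2⟩

theorem split_aux_main {p : A} (j : ℕ) : ∀ (Z H : Set A) (L : A →L[ℂ] (Fin j → ℂ)), Iso Z p L →
    AnAt Z p → H ⊆ Z → (∀ q ∈ H, ∀ᶠ x in 𝓝 q, x ∈ Z → x ∈ H) → Dich Z H →
    AnAt (closure H) p := by
  induction j using Nat.strong_induction_on with | _ j ih =>
  intro Z H L hi hp hH ho hd
  obtain ⟨ρ, hρ, η₀, hη₀, -, h1, h2, -⟩ := hi.scale hp univ_mem
  obtain ⟨U, hU, hpU, δ, hδ, h3, h4⟩ := t2_loc (scale_fb h1 h2) _ (mem_ball_self hη₀)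
  obtain ⟨η, hη, h5⟩ := Metric.mem_nhds_iff.1 (inter_mem (hU.mem_nhds hpU) (ball_mem_nhds _ hη₀))
  have hσ : Neg {t | δ t = 0} (ball (L p) η) := fun t ht =>
    ⟨U, hU, (h5 ht).1, δ, hδ, fun _ _ h => h, h4⟩
  have h6 : IsOpen (ball (L p) η \ {t | δ t = 0}) :=
    (hδ.continuousOn.mono fun t ht => (h5 ht).1).isOpen_inter_preimage isOpen_ball
      (isOpen_compl_singleton (x := 0))
  have h7 := hσ.preconnected isOpen_ball (convex_ball _ _).isPreconnected h6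
  set W := ball p ρ ∩ L ⁻¹' (ball (L p) η \ {t | δ t = 0})
  have hW : IsOpen W := isOpen_ball.inter (h6.preimage L.continuous)
  have h8 : ∀ t ∈ ball (L p) η \ {t | δ t = 0}, ∃ d, Good (Z ∩ W) L d t := fun t ht => by
    obtain ⟨d, hd⟩ := not_not.1 fun h => ht.2 (h3 t (h5 ht.1).1 h)
    refine ⟨d, hd.congr ?_⟩
    filter_upwards [h6.mem_nhds ht] with t' ht' x hx
    subst hx
    exact ⟨fun h => ⟨h.1, h.2.1, ht'⟩, fun h => ⟨h.1, h.2.1, (h5 ht'.1).2⟩⟩
  have h9 : ∀ C ⊆ Z ∩ W, (∀ t ∈ ball (L p) η \ {t | δ t = 0}, ∃ d, Good C L d t) →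
      ∀ x, L x ∈ ball (L p) η → AnAt (closure C) x := fun C hC h => by
    obtain ⟨d, h⟩ := good_const h7 h
    obtain ⟨-, -, -, h⟩ := t3 isOpen_ball hσ h6
      (isBounded_ball.subset fun x hx => (hC hx).2.1) (fun x hx => (hC hx).2.2) h
    exact h
  have h10 := h9 (Z ∩ W ∩ closure H) inter_subset_left (fun t ht => by
    obtain ⟨d, h⟩ := h8 t ht
    exact split_aux_good hH hd hW h) p (mem_ball_self hη)
  have hB := isOpen_box p L ρ η
  have h11 : ∀ x ∈ Z ∩ box p L ρ η, x ∉ closure (Z ∩ W) →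
      x ∈ Z ∩ box p L ρ η ∩ {x | δ (L x) = 0} := fun x hx h =>
    ⟨hx, not_not.1 fun h' => h (subset_closure ⟨hx.1, hx.2.1, hx.2.2, h'⟩)⟩
  have h12 : AnAt (Z ∩ box p L ρ η ∩ {x | δ (L x) = 0}) p :=
    (hp.inter_nhds (box_mem_nhds p L hρ hη)).inter (anAt_eq (hU.preimage L.continuous) hpU
      (hδ.comp L.differentiable.differentiableOn fun _ h => h) (differentiableOn_const 0))
  have h13 : (H ∩ box p L ρ η) \ closure (Z ∩ W) ⊆ Z ∩ box p L ρ η ∩ {x | δ (L x) = 0} :=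
    fun x hx => h11 x ⟨hH hx.1.1, hx.1.2⟩ hx.2
  have h14 : AnAt (closure ((H ∩ box p L ρ η) \ closure (Z ∩ W))) p := by
    by_cases h : p ∈ Z ∩ box p L ρ η ∩ {x | δ (L x) = 0}
    swap
    · exact split_aux_out h12 h13 h
    have h15 := neg_iff.1 hσ _ (mem_ball_self hη)
    rcases j with _ | j
    · exact (neg_zero_dim (by simp) h15 h.2).elim
    obtain ⟨L', hL'⟩ := drop (hi.mono (.of_forall fun x hx => hx.1.1)) h (j := j) (by simp) h15
      (.of_forall fun x hx => hx.2)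
    refine ih j j.lt_succ_self _ _ L' hL' h12 h13 (fun q hq => ?_)
      (split_aux_dich hd hB isClosed_closure inter_subset_left h11 fun x hx =>
        h9 _ Subset.rfl h8 x hx.2)
    filter_upwards [ho q hq.1.1, isClosed_closure.isOpen_compl.mem_nhds hq.2] with x h1 h2 h3
    exact ⟨⟨h1 h3.1.1, h3.1.2⟩, h2⟩
  refine (h10.union h14).congr ?_
  filter_upwards [box_mem_nhds p L hρ hη] with x hx
  refine ⟨fun h => h.elim (closure_minimal inter_subset_right isClosed_closure ·)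
    (closure_mono (fun y hy => hy.1.1) ·), fun h => ?_⟩
  refine closure_minimal (fun y hy => ?_) (isClosed_closure.union isClosed_closure)
    (hB.inter_closure ⟨hx, h⟩)
  by_cases h' : y ∈ closure (Z ∩ W)
  · exact Or.inl (mem_closure_iff_frequently.2 (((mem_closure_iff_frequently.1 h').and_eventually
      (ho y hy.2)).mono fun z hz => ⟨hz.1, subset_closure (hz.2 hz.1.1)⟩))
  · exact Or.inr (subset_closure ⟨⟨hy.2, hy.1⟩, h'⟩)

theorem split1 {Z H : Set A} {p : A} (hp : AnAt Z p) (hH : H ⊆ Z)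
    (ho : ∀ q ∈ H, ∀ᶠ x in 𝓝 q, x ∈ Z → x ∈ H) (hd : Dich Z H) : AnAt (closure H) p := by
  obtain ⟨j, L, hL⟩ := exists_iso Z p
  exact split_aux_main j Z H L hL hp hH ho hd

theorem split_diff {Z Z' : Set A} {p : A} (hp : AnAt Z p) (h' : ∀ x ∈ Z, AnAt Z' x) :
    AnAt (closure (Z \ Z')) p := by
  refine split1 hp sdiff_subset (fun q hq => ((h' q hq.1).notMem_nhds hq.2).mono
    fun x h1 h2 => ⟨h2, h1⟩) fun j U h L hU hc hh _ hZ _ => ?_
  refine (an_dich (S := h ⁻¹' Z') hU hc fun u hu => (h' _ (hZ u hu)).preimage ?_).imp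
    (fun h1 u hu h2 => h2.2 (h1 hu)) fun h1 u hu => ((h1.frequently hu).and_eventually
      (hU.mem_nhds hu)).mono fun y hy => ⟨hZ y hy.2, hy.1⟩
  filter_upwards [hU.mem_nhds hu] with y hy using hh.differentiableAt (hU.mem_nhds hy)

end Pool.Agent.Lib.MP_823829_an
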