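import Pool.Agent.Lib.MP_823829_an.T4
import Pool.Agent.Lib.MP_823829_an.Area

/-! Upper volume bounds for graphs with analytic closure. -/

namespace Pool.Agent.Lib.MP_823829_an

open Set Metric Filter MeasureTheory
open scoped Topology ENNReal NNReal ContDiff ComplexConjugate

variable {A T : Type} [NormedAddCommGroup A] [NormedSpace ℂ A] [FiniteDimensional ℂ A]
  [NormedAddCommGroup T] [NormedSpace ℂ T] [FiniteDimensional ℂ T]

omit [FiniteDimensional ℂ T] in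
theorem jac_eq_det {B : Type} [NormedAddCommGroup B] [NormedSpace ℂ B] {ι : Type} [Fintype ι]
    [DecidableEq ι] (v : Module.Basis ι ℂ T) (ξ : ι → (B →L[ℂ] ℂ)) (M : T →L[ℂ] B) :
    Jac (fun i => ξ i) (fun j => M (v j)) = ((∑ i, (ξ i).smulRight (v i)).comp M).det := by
  unfold Jac ContinuousLinearMap.det
  rw [← LinearMap.det_toMatrix v]
  congr 1
  ext i j
  simp [LinearMap.toMatrix_apply, Finsupp.single_apply]

theorem vu_aux_matrix {ι : Type} [Fintype ι] [DecidableEq ι]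
    (s : Fin (Fintype.card ι + 1) → ℂ) (hs : Function.Injective s) :
    ∃ c : Fin (Fintype.card ι + 1) → ℂ, ∀ P Q : Matrix ι ι ℂ,
      Q.det = ∑ i, c i * (P + s i • Q).det := by
  refine ⟨fun i => (∏ j ∈ Finset.univ.erase i, (s i - s j))⁻¹, fun P Q => ?_⟩
  have h1 := Polynomial.natDegree_det_X_add_C_le Q P
  have h2 := Polynomial.coeff_det_X_add_C_card Q P
  have h3 := Lagrange.coeff_eq_sum (s := Finset.univ) (v := s) hs.injOn
    (P := Matrix.det ((Polynomial.X : Polynomial ℂ) • Q.map Polynomial.C + P.map Polynomial.C))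
    (lt_of_le_of_lt Polynomial.degree_le_natDegree (by
      rw [Finset.card_univ, Fintype.card_fin]
      exact_mod_cast Nat.lt_succ_of_le h1))
  rw [Finset.card_univ, Fintype.card_fin, Nat.add_sub_cancel, h2] at h3
  rw [h3]
  refine Finset.sum_congr rfl fun i _ => ?_
  rw [div_eq_inv_mul]
  congr 1
  rw [← Polynomial.coe_evalRingHom, RingHom.map_det]
  congr 1
  ext a b
  simp only [RingHom.mapMatrix_apply, Matrix.map_apply, Matrix.add_apply, Matrix.smul_apply,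
    smul_eq_mul, Polynomial.coe_evalRingHom, Polynomial.eval_add, Polynomial.eval_mul,
    Polynomial.eval_X, Polynomial.eval_C]
  ring

omit [FiniteDimensional ℂ T] in
theorem vu_aux_interp {ι : Type} [Fintype ι] [DecidableEq ι] (v : Module.Basis ι ℂ T)
    (s : Fin (Fintype.card ι + 1) → ℂ) (hs : Function.Injective s) :
    ∃ c : Fin (Fintype.card ι + 1) → ℂ, ∀ P Q : T →L[ℂ] T,
      Q.det = ∑ i, c i * (P + s i • Q).det := by
  obtain ⟨c, hc⟩ := vu_aux_matrix s hs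
  refine ⟨c, fun P Q => ?_⟩
  unfold ContinuousLinearMap.det
  simp only [← LinearMap.det_toMatrix v]
  rw [hc (LinearMap.toMatrix v v (P : T →ₗ[ℂ] T))]
  refine Finset.sum_congr rfl fun i _ => ?_
  rw [ContinuousLinearMap.coe_add, ContinuousLinearMap.coe_smul, map_add, map_smul]

theorem vu_aux_sq {κ : Type} [Fintype κ] (c z : κ → ℂ) :
    ‖∑ i, c i * z i‖ₑ ^ 2 ≤
      ∑ i, ((Fintype.card κ * ‖c i‖₊ ^ 2 : ℝ≥0) : ℝ≥0∞) * ‖z i‖ₑ ^ 2 := by
  have h : ‖∑ i, c i * z i‖₊ ^ 2 ≤ ∑ i, (Fintype.card κ * ‖c i‖₊ ^ 2) * ‖z i‖₊ ^ 2 := by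
    calc ‖∑ i, c i * z i‖₊ ^ 2 ≤ (∑ i, ‖c i * z i‖₊) ^ 2 := by
          gcongr
          exact nnnorm_sum_le _ _
      _ ≤ (Finset.univ : Finset κ).card * ∑ i, ‖c i * z i‖₊ ^ 2 := sq_sum_le_card_mul_sum_sq
      _ = _ := by
          rw [Finset.mul_sum, Finset.card_univ]
          refine Finset.sum_congr rfl fun i _ => ?_
          rw [nnnorm_mul, mul_pow, mul_assoc]
  simp only [enorm_eq_nnnorm]
  exact_mod_cast h

omit [FiniteDimensional ℂ A] [FiniteDimensional ℂ T] in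
theorem vu_aux_fderiv {g : T → A} {t : T} (hg : DifferentiableAt ℂ g t) (L : T × A →L[ℂ] T) :
    fderiv ℂ (fun t => L (t, g t)) t =
      L.comp ((ContinuousLinearMap.id ℂ T).prod (fderiv ℂ g t)) :=
  (L.hasFDerivAt.comp t ((hasFDerivAt_id t).prodMk hg.hasFDerivAt)).fderiv

variable [MeasurableSpace T] [BorelSpace T] [MeasurableSpace (T × A)] [BorelSpace (T × A)]

/-- The bound for one projection with isolated fibre. -/
theorem vu_aux_one {Z W : Set (T × A)} {O : Set T} {g : T → A} (hG : GS Z W O g) (μ : Measure T)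
    [μ.IsAddHaarMeasure] {p : T × A} (hp : p ∈ W) {L : T × A →L[ℂ] T} (hi : Iso Z p L) :
    ∃ C : ℝ≥0, ∃ N ∈ 𝓝 p, ∀ (x : T × A) (r : ℝ), 0 < r → ball x r ⊆ N →
      ∫⁻ t in O ∩ {t | (t, g t) ∈ ball x r}, ‖(fderiv ℂ (fun t => L (t, g t)) t).det‖ₑ ^ 2 ∂μ ≤
        C * ENNReal.ofReal (r ^ rd T) := by
  obtain ⟨ρ, hρ, η, hη, -, han, hside, -⟩ := hi.scale (hG.an p hp) (N := univ) univ_mem
  have hfb := scale_fb han hside
  obtain ⟨d, hd⟩ := t2 hfb (convex_ball (L p) η).isPreconnected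
  have hnull := (haar_null_iff μ).2 (neg_null hd)
  obtain ⟨c, -, hc⟩ := haar_closedBall μ
  refine ⟨d * c * ((‖L‖ + 1) ^ rd T).toNNReal, box p L ρ η, box_mem_nhds p L hρ hη,
    fun x r hr hx => ?_⟩
  have hL : 0 < ‖L‖ + 1 := by positivity
  have hdiff : DifferentiableOn ℂ (fun t => L (t, g t)) O :=
    L.differentiable.comp_differentiableOn (differentiableOn_id.prodMk hG.hol)
  have hmap : MapsTo (fun t => L (t, g t)) (O ∩ {t | (t, g t) ∈ ball x r})
      (closedBall (L x) ((‖L‖ + 1) * r)) := by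
    intro t ht
    have h1 : ‖(t, g t) - x‖ < r := by simpa [dist_eq_norm] using ht.2
    rw [mem_closedBall, dist_eq_norm, ← map_sub]
    calc ‖L ((t, g t) - x)‖ ≤ ‖L‖ * ‖(t, g t) - x‖ := L.le_opNorm _
      _ ≤ (‖L‖ + 1) * r := by gcongr; linarith
  have hcount : ∀ᵐ y ∂μ, ((O ∩ {t | (t, g t) ∈ ball x r}) ∩
      (fun t => L (t, g t)) ⁻¹' {y}).encard ≤ d := by
    filter_upwards [compl_mem_ae_iff.2 hnull] with y hy
    by_cases hb : y ∈ ball (L p) η
    · have hgood : Good (Z ∩ box p L ρ η) L d y := by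
        by_contra hn
        exact hy ⟨hn, hb⟩
      rw [← hgood.encard]
      refine encard_le_encard_of_injOn (f := fun t => (t, g t)) (fun t ht => ?_)
        fun t _ t' _ h => congrArg Prod.fst h
      exact ⟨⟨(hG.gr t ht.1.1 _).2 rfl, hx ht.1.2⟩, ht.2⟩
    · have : (O ∩ {t | (t, g t) ∈ ball x r}) ∩ (fun t => L (t, g t)) ⁻¹' {y} = ∅ := by
        refine eq_empty_of_forall_notMem fun t ht => hb ?_
        have h1 : L (t, g t) = y := ht.2
        rw [← h1]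
        exact (hx ht.1.2).2
      rw [this, encard_empty]
      exact zero_le
  refine (area_le μ hG.opO hdiff (hG.measurableSet measurableSet_ball) inter_subset_left
    measurableSet_closedBall hmap hcount).trans (le_of_eq ?_)
  rw [(hc _ _ (mul_pos hL hr)).1, Real.mul_rpow hL.le hr.le,
    ENNReal.ofReal_mul (Real.rpow_nonneg hL.le _)]
  push_cast
  simp only [mul_assoc]
  rfl

/-- The local bound for arbitrary rows. -/
theorem vu_aux_loc {Z W : Set (T × A)} {O : Set T} {g : T → A} (hG : GS Z W O g) (μ : Measure T)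
    [μ.IsAddHaarMeasure] {ι : Type} [Fintype ι] [DecidableEq ι] (v : Module.Basis ι ℂ T)
    (ξ : ι → (T × A →L[ℂ] ℂ)) {p : T × A} (hp : p ∈ W) :
    ∃ C : ℝ≥0, ∃ N ∈ 𝓝 p, ∀ (x : T × A) (r : ℝ), 0 < r → ball x r ⊆ N →
      ∫⁻ t in O ∩ {t | (t, g t) ∈ ball x r},
        ‖Jac (fun i => ξ i) (fun j => tg g t (v j))‖ₑ ^ 2 ∂μ ≤ C * ENNReal.ofReal (r ^ rd T) := by
  by_cases hZ : p ∈ Z
  swap
  · refine ⟨0, {y | y ∉ Z}, (hG.an p hp).notMem_nhds hZ, fun x r _ hx => ?_⟩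
    have : O ∩ {t | (t, g t) ∈ ball x r} = ∅ :=
      eq_empty_of_forall_notMem fun t ht => hx ht.2 ((hG.gr t ht.1 _).2 rfl)
    rw [this]
    simp
  have := FiniteDimensional.complete ℂ T
  obtain ⟨L₀, hL₀⟩ := hG.iso hZ
  set M : T × A →L[ℂ] T := ∑ i, (ξ i).smulRight (v i) with hM
  have hc : Continuous fun s : ℂ => L₀ + s • M := by fun_prop
  have ht : Tendsto (fun s : ℂ => L₀ + s • M) (𝓝 0) (𝓝 L₀) := by simpa using hc.tendsto 0
  obtain ⟨ε, hε, hiso⟩ := Metric.eventually_nhds_iff.1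
    (ht.eventually (iso_stable (hG.an p hp) hZ hL₀))
  have hk : (0 : ℝ) < (Fintype.card ι : ℝ) + 1 := by positivity
  set s : Fin (Fintype.card ι + 1) → ℂ :=
    fun i => ((ε / ((Fintype.card ι : ℝ) + 1) * (i : ℕ) : ℝ) : ℂ) with hs
  have hsi : Function.Injective s := by
    intro i j h
    have h1 : ε / ((Fintype.card ι : ℝ) + 1) * (i : ℕ) = ε / ((Fintype.card ι : ℝ) + 1) * (j : ℕ) :=
      Complex.ofReal_injective h
    have h2 := mul_left_cancel₀ (div_pos hε hk).ne' h1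
    exact Fin.ext (by exact_mod_cast h2)
  have hsl : ∀ i, dist (s i) 0 < ε := by
    intro i
    have h1 : ((i : ℕ) : ℝ) < (Fintype.card ι : ℝ) + 1 := by exact_mod_cast i.2
    rw [dist_zero_right, hs, Complex.norm_real, Real.norm_of_nonneg (by positivity),
      div_mul_eq_mul_div, div_lt_iff₀ hk]
    gcongr
  obtain ⟨c, hcs⟩ := vu_aux_interp v s hsi
  choose C N hN hb using fun i => vu_aux_one hG μ hp (hiso (hsl i))
  refine ⟨∑ i, (Fintype.card (Fin (Fintype.card ι + 1)) * ‖c i‖₊ ^ 2) * C i, ⋂ i, N i,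
    iInter_mem.2 hN, fun x r hr hx => ?_⟩
  have hS := hG.measurableSet (B := ball x r) measurableSet_ball
  have hmeas : ∀ i, Measurable fun t =>
      ‖(fderiv ℂ (fun t => (L₀ + s i • M) (t, g t)) t).det‖ₑ ^ 2 := fun i =>
    ((ContinuousLinearMap.continuous_det.measurable.comp
      (measurable_fderiv ℂ fun t => (L₀ + s i • M) (t, g t))).enorm).pow_const 2
  calc ∫⁻ t in O ∩ {t | (t, g t) ∈ ball x r},
        ‖Jac (fun i => ξ i) (fun j => tg g t (v j))‖ₑ ^ 2 ∂μ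
      ≤ ∫⁻ t in O ∩ {t | (t, g t) ∈ ball x r},
        ∑ i, ((Fintype.card (Fin (Fintype.card ι + 1)) * ‖c i‖₊ ^ 2 : ℝ≥0) : ℝ≥0∞) *
          ‖(fderiv ℂ (fun t => (L₀ + s i • M) (t, g t)) t).det‖ₑ ^ 2 ∂μ := by
        refine setLIntegral_mono' hS fun t ht => ?_
        have hg : DifferentiableAt ℂ g t := hG.hol.differentiableAt (hG.opO.mem_nhds ht.1)
        have e : Jac (fun i => ξ i) (fun j => tg g t (v j)) =
            (M.comp ((ContinuousLinearMap.id ℂ T).prod (fderiv ℂ g t))).det :=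
          jac_eq_det v ξ ((ContinuousLinearMap.id ℂ T).prod (fderiv ℂ g t))
        rw [e, hcs (L₀.comp ((ContinuousLinearMap.id ℂ T).prod (fderiv ℂ g t)))]
        refine (vu_aux_sq _ _).trans (le_of_eq (Finset.sum_congr rfl fun i _ => ?_))
        rw [vu_aux_fderiv hg, ContinuousLinearMap.add_comp, ContinuousLinearMap.smul_comp]
    _ = ∑ i, ((Fintype.card (Fin (Fintype.card ι + 1)) * ‖c i‖₊ ^ 2 : ℝ≥0) : ℝ≥0∞) *
          ∫⁻ t in O ∩ {t | (t, g t) ∈ ball x r},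
            ‖(fderiv ℂ (fun t => (L₀ + s i • M) (t, g t)) t).det‖ₑ ^ 2 ∂μ := by
        rw [lintegral_finset_sum _ fun i _ => (hmeas i).const_mul _]
        exact Finset.sum_congr rfl fun i _ => lintegral_const_mul _ (hmeas i)
    _ ≤ ∑ i, ((Fintype.card (Fin (Fintype.card ι + 1)) * ‖c i‖₊ ^ 2 : ℝ≥0) : ℝ≥0∞) *
          (C i * ENNReal.ofReal (r ^ rd T)) := by
        gcongr with i
        exact hb i x r hr (hx.trans (iInter_subset _ i))
    _ = _ := by
        rw [ENNReal.coe_finset_sum, Finset.sum_mul]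
        refine Finset.sum_congr rfl fun i _ => ?_
        rw [ENNReal.coe_mul _ (C i), mul_assoc]

theorem vu {Z W : Set (T × A)} {O : Set T} {g : T → A} (hG : GS Z W O g) (μ : Measure T)
    [μ.IsAddHaarMeasure] {ι : Type} [Fintype ι] [DecidableEq ι] (v : Module.Basis ι ℂ T)
    (ξ : ι → (T × A →L[ℂ] ℂ)) {K : Set (T × A)} (hK : IsCompact K) (hW : K ⊆ W) :
    ∃ C : ℝ≥0, ∃ r₀ : ℝ, 0 < r₀ ∧ ∀ x ∈ K, ∀ r : ℝ, 0 < r → r < r₀ →
      ∫⁻ t in O ∩ {t | (t, g t) ∈ ball x r},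
        ‖Jac (fun i => ξ i) (fun j => tg g t (v j))‖ₑ ^ 2 ∂μ ≤ C * ENNReal.ofReal (r ^ rd T) := by
  refine hK.induction_on (p := fun S => ∃ C : ℝ≥0, ∃ r₀ : ℝ, 0 < r₀ ∧ ∀ x ∈ S, ∀ r : ℝ, 0 < r →
    r < r₀ → ∫⁻ t in O ∩ {t | (t, g t) ∈ ball x r},
      ‖Jac (fun i => ξ i) (fun j => tg g t (v j))‖ₑ ^ 2 ∂μ ≤ C * ENNReal.ofReal (r ^ rd T))
    ⟨0, 1, one_pos, fun x hx => absurd hx (notMem_empty x)⟩ ?_ ?_ ?_
  · rintro S S' hS ⟨C, r₀, h0, h⟩
    exact ⟨C, r₀, h0, fun x hx => h x (hS hx)⟩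
  · rintro S S' ⟨C, r₀, h0, h⟩ ⟨C', r₀', h0', h'⟩
    refine ⟨max C C', min r₀ r₀', lt_min h0 h0', ?_⟩
    rintro x (hx | hx) r hr hl
    · refine (h x hx r hr (hl.trans_le (min_le_left _ _))).trans ?_
      gcongr
      exact le_max_left _ _
    · refine (h' x hx r hr (hl.trans_le (min_le_right _ _))).trans ?_
      gcongr
      exact le_max_right _ _
  · intro p hp
    obtain ⟨C, N, hN, h⟩ := vu_aux_loc hG μ v ξ (hW hp)
    obtain ⟨ε, hε, hb⟩ := Metric.mem_nhds_iff.1 hN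
    refine ⟨ball p (ε / 2), mem_nhdsWithin_of_mem_nhds (ball_mem_nhds p (half_pos hε)), C, ε / 2,
      half_pos hε, fun x hx r hr hl => h x r hr (Subset.trans (ball_subset_ball' ?_) hb)⟩
    have := mem_ball.1 hx
    linarith

theorem vfin {Z W : Set (T × A)} {O : Set T} {g : T → A} (hG : GS Z W O g) (μ : Measure T)
    [μ.IsAddHaarMeasure] {ι : Type} [Fintype ι] [DecidableEq ι] (v : Module.Basis ι ℂ T)
    (ξ : ι → (T × A →L[ℂ] ℂ)) {K : Set (T × A)} (hK : IsCompact K) (hW : K ⊆ W) :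
    ∫⁻ t in O ∩ {t | (t, g t) ∈ K},
      ‖Jac (fun i => ξ i) (fun j => tg g t (v j))‖ₑ ^ 2 ∂μ < ⊤ := by
  obtain ⟨C, r₀, h0, h⟩ := vu hG μ v ξ hK hW
  refine hK.induction_on (p := fun S => ∫⁻ t in O ∩ {t | (t, g t) ∈ S},
    ‖Jac (fun i => ξ i) (fun j => tg g t (v j))‖ₑ ^ 2 ∂μ < ⊤) (by simp) ?_ ?_ ?_
  · intro S S' hS h'
    exact lt_of_le_of_lt (lintegral_mono_set (inter_subset_inter_right _ fun t ht => hS ht)) h'
  · intro S S' h1 h2
    refine lt_of_le_of_lt ((lintegral_mono_set fun t ht => ?_).trans (lintegral_union_le _ _ _))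
      (ENNReal.add_lt_top.2 ⟨h1, h2⟩)
    rcases ht.2 with h3 | h3
    · exact Or.inl ⟨ht.1, h3⟩
    · exact Or.inr ⟨ht.1, h3⟩
  · intro x hx
    exact ⟨ball x (r₀ / 2), mem_nhdsWithin_of_mem_nhds (ball_mem_nhds x (half_pos h0)),
      lt_of_le_of_lt (h x hx _ (half_pos h0) (half_lt_self h0))
        (ENNReal.mul_lt_top ENNReal.coe_lt_top ENNReal.ofReal_lt_top)⟩

end Pool.Agent.Lib.MP_823829_an
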