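import Pool.Agent.Lib.MP_823829_an.StCore
import Pool.Agent.Lib.MP_823829_an.VU
import Pool.Agent.Lib.MP_823829_an.GM.Content

/-! The Stokes formula on a graph with analytic closure. -/

namespace Pool.Agent.Lib.MP_823829_an

open Set Metric Filter MeasureTheory
open scoped Topology ENNReal NNReal ContDiff ComplexConjugate

theorem st_aux_cover {A : Type} [MetricSpace A] [MeasurableSpace A] [BorelSpace A] {E : Set A}
    (hE : IsCompact E) {s : ℝ} (hs : 1 ≤ s) (h0 : μH[s] E = 0) {δ : ℝ} (hδ : 0 < δ)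
    (hδ1 : δ ≤ 1) : ∃ (S : Finset E) (r : E → ℝ), (∀ x, 0 < r x ∧ r x ≤ 2 * δ) ∧
      E ⊆ ⋃ x ∈ S, ball (x : A) (r x) ∧
      ∑ x ∈ S, ENNReal.ofReal (r x ^ s) ≤ ENNReal.ofReal (2 ^ s) * (2 * ENNReal.ofReal δ) := by
  classical
  have hs0 : 0 < s := by linarith
  have hδ' : 0 < ENNReal.ofReal δ := by simpa using hδ
  obtain ⟨t, ht, hd, hl⟩ := GM.exists_cover hs0 h0 hδ'
  obtain ⟨η, hη, hηs⟩ := ENNReal.exists_pos_sum_of_countable hδ'.ne' ℕ
  have hηδ : ∀ n, (η n : ℝ) ≤ δ := fun n => by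
    have h1 : (η n : ℝ≥0∞) ≤ ENNReal.ofReal δ := (ENNReal.le_tsum n).trans hηs.le
    rwa [← ENNReal.ofReal_coe_nnreal, ENNReal.ofReal_le_ofReal_iff hδ.le] at h1
  have hfin : ∀ n, ediam (t n) ≠ ⊤ := fun n => ne_top_of_le_ne_top (by simp) (hd n)
  have hdδ : ∀ n, diam (t n) ≤ δ := fun n => ENNReal.toReal_le_of_le_ofReal hδ.le (hd n)
  let ρ : ℕ → ℝ := fun n => 2 * max (diam (t n)) (η n)
  have hρ : ∀ n, 0 < ρ n := fun n => by
    have h1 : (0 : ℝ) < η n := hη n
    have h2 := le_max_right (diam (t n)) (η n)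
    simp only [ρ]
    linarith
  have hρs : ∀ n, ENNReal.ofReal (ρ n ^ s) ≤
      ENNReal.ofReal (2 ^ s) * (ediam (t n) ^ s + η n) := fun n => by
    have h1 : (0 : ℝ) ≤ max (diam (t n)) (η n) := le_max_of_le_left diam_nonneg
    simp only [ρ]
    rw [Real.mul_rpow (by norm_num) h1, ENNReal.ofReal_mul (by positivity)]
    refine mul_le_mul' le_rfl ?_
    rcases le_total (diam (t n)) (η n) with h | h
    · rw [max_eq_right h]
      refine le_add_left ?_
      rw [← ENNReal.ofReal_coe_nnreal]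
      refine ENNReal.ofReal_le_ofReal ?_
      have := Real.rpow_le_rpow_of_exponent_ge (x := η n) (hη n) ((hηδ n).trans hδ1) hs
      rwa [Real.rpow_one] at this
    · rw [max_eq_left h]
      refine le_add_right (le_of_eq ?_)
      rw [← ENNReal.ofReal_rpow_of_nonneg diam_nonneg hs0.le, diam, ENNReal.ofReal_toReal (hfin n)]
  have hn : ∀ x : E, ∃ n, (x : A) ∈ t n := fun x => mem_iUnion.1 (ht x.2)
  choose n hn using hn
  have hc : ∀ x : E, ∃ y : E, n y = n x := fun x => ⟨x, rfl⟩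
  let c : ℕ → E → E := fun k x => if h : ∃ y : E, n y = k then h.choose else x
  let p : E → E := fun x => c (n x) x
  have hp : ∀ x, n (p x) = n x := fun x => by
    simp only [p, c, dif_pos (hc x)]
    exact (hc x).choose_spec
  have hpp : ∀ x y, n x = n y → p x = p y := fun x y h => by
    have h1 : ∃ z : E, n z = n y := hc y
    simp only [p, c, h, dif_pos h1]
  have hcov : E ⊆ ⋃ x : E, ball (p x : A) (ρ (n x)) := fun x hx => by
    refine mem_iUnion.2 ⟨⟨x, hx⟩, ?_⟩
    have h1 := hn (p ⟨x, hx⟩)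
    rw [hp] at h1
    have h2 := dist_le_diam_of_mem (isBounded_iff_ediam_ne_top.2 (hfin _)) (hn ⟨x, hx⟩) h1
    have h3 := le_max_left (diam (t (n ⟨x, hx⟩))) (η (n ⟨x, hx⟩))
    have h4 := hρ (n ⟨x, hx⟩)
    simp only [ρ] at h4 ⊢
    exact mem_ball.2 (by linarith)
  obtain ⟨S, hS⟩ := hE.elim_finite_subcover _ (fun _ => isOpen_ball) hcov
  refine ⟨S.image p, fun x => ρ (n x), fun x => ⟨hρ _, ?_⟩, fun x hx => ?_, ?_⟩
  · exact mul_le_mul_of_nonneg_left (max_le (hdδ _) (hηδ _)) (by norm_num)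
  · obtain ⟨y, hy, hxy⟩ := mem_iUnion₂.1 (hS hx)
    refine mem_iUnion₂.2 ⟨p y, Finset.mem_image_of_mem _ hy, ?_⟩
    simpa only [hp] using hxy
  · have hinj : Set.InjOn n (S.image p : Set E) := by
      intro x hx y hy h
      obtain ⟨x', -, rfl⟩ := Finset.mem_image.1 hx
      obtain ⟨y', -, rfl⟩ := Finset.mem_image.1 hy
      rw [hp, hp] at h
      exact hpp _ _ h
    rw [← Finset.sum_image (f := fun k => ENNReal.ofReal (ρ k ^ s)) hinj]
    refine (ENNReal.sum_le_tsum _).trans ((ENNReal.tsum_le_tsum hρs).trans ?_)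
    rw [ENNReal.tsum_mul_left, ENNReal.tsum_add, two_mul]
    exact mul_le_mul' le_rfl (add_le_add hl.le hηs.le)

theorem st_aux_bump (A : Type) [NormedAddCommGroup A] [NormedSpace ℝ A] [FiniteDimensional ℝ A] :
    ∃ C : ℝ, 0 ≤ C ∧ ∀ (x : A) (r : ℝ), 0 < r → ∃ φ : A → ℂ, ContDiff ℝ 1 φ ∧
      (∀ y ∈ ball x r, φ y = 1) ∧ (∀ y, ‖1 - φ y‖ ≤ 1) ∧
      (∀ y, ‖φ y‖ ≤ (ball x (2 * r)).indicator (fun _ => 1) y) ∧
      ∀ y, ‖fderiv ℝ φ y‖ ≤ (ball x (2 * r)).indicator (fun _ => C / r) y := by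
  let f : ContDiffBump (0 : A) := ⟨1, 3 / 2, one_pos, by norm_num⟩
  let φ : A → ℂ := fun y => (f y : ℂ)
  have hφ : ContDiff ℝ 1 φ := Complex.ofRealCLM.contDiff.comp f.contDiff
  have hφc : HasCompactSupport φ := f.hasCompactSupport.comp_left Complex.ofReal_zero
  obtain ⟨C, hC⟩ := (hφ.continuous_fderiv (by norm_num)).bounded_above_of_compact_support
    (hφc.fderiv ℝ)
  have hφs : tsupport φ ⊆ ball 0 2 := by
    refine (tsupport_comp_subset Complex.ofReal_zero f).trans ?_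
    rw [f.tsupport_eq]
    exact closedBall_subset_ball (by norm_num [f])
  refine ⟨C, (norm_nonneg _).trans (hC 0), fun x r hr => ?_⟩
  have hL : ∀ y : A, HasFDerivAt (fun y : A => r⁻¹ • (y - x))
      (r⁻¹ • ContinuousLinearMap.id ℝ A) y := fun y =>
    ((hasFDerivAt_id y).sub_const x).const_smul r⁻¹
  have hout : ∀ y ∉ ball x (2 * r), r⁻¹ • (y - x) ∉ tsupport φ := fun y hy h => by
    have h1 := mem_ball_zero_iff.1 (hφs h)
    rw [norm_smul, norm_inv, Real.norm_of_nonneg hr.le, inv_mul_lt_iff₀ hr] at h1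
    exact hy (mem_ball_iff_norm.2 (by linarith))
  refine ⟨fun y => φ (r⁻¹ • (y - x)), hφ.comp ((contDiff_id.sub contDiff_const).const_smul _),
    fun y hy => ?_, fun y => ?_, fun y => ?_, fun y => ?_⟩
  · have h1 : r⁻¹ • (y - x) ∈ closedBall (0 : A) f.rIn := by
      rw [mem_closedBall_zero_iff, norm_smul, norm_inv, Real.norm_of_nonneg hr.le,
        inv_mul_le_iff₀ hr]
      have := mem_ball_iff_norm.1 hy
      simp only [f]
      linarith
    simp only [φ, f.one_of_mem_closedBall h1, Complex.ofReal_one]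
  · simp only [φ]
    rw [← Complex.ofReal_one, ← Complex.ofReal_sub, Complex.norm_real,
      Real.norm_of_nonneg (sub_nonneg.2 f.le_one)]
    linarith [f.nonneg (x := r⁻¹ • (y - x))]
  · by_cases hy : y ∈ ball x (2 * r)
    · rw [indicator_of_mem hy]
      simp only [φ]
      rw [Complex.norm_real, Real.norm_of_nonneg f.nonneg]
      exact f.le_one
    · simp only [indicator_of_notMem hy, image_eq_zero_of_notMem_tsupport (hout y hy), norm_zero,
        le_refl]
  · have h1 := ((hφ.differentiable one_ne_zero _).hasFDerivAt.comp y (hL y)).fderiv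
    rw [Function.comp_def] at h1
    rw [h1]
    by_cases hy : y ∈ ball x (2 * r)
    · rw [indicator_of_mem hy]
      refine (ContinuousLinearMap.opNorm_comp_le _ _).trans ?_
      rw [div_eq_mul_inv]
      refine mul_le_mul (hC _) ?_ (norm_nonneg _) ((norm_nonneg _).trans (hC 0))
      rw [norm_smul, norm_inv, Real.norm_of_nonneg hr.le]
      exact mul_le_of_le_one_right (by positivity) ContinuousLinearMap.norm_id_le
    · rw [indicator_of_notMem hy, fderiv_of_notMem_tsupport ℝ (hout y hy)]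
      simp

theorem st_aux_cut (A : Type) [NormedAddCommGroup A] [NormedSpace ℝ A] [FiniteDimensional ℝ A] :
    ∃ C : ℝ, 0 ≤ C ∧ ∀ {κ : Type} (S : Finset κ) (x : κ → A) (r : κ → ℝ), (∀ k, 0 < r k) →
      ∃ ψ : A → ℂ, ContDiff ℝ 1 ψ ∧ (∀ y ∈ ⋃ k ∈ S, ball (x k) (r k), ψ y = 0) ∧
        (∀ y, ‖ψ y‖ ≤ 1) ∧
        (∀ y, ‖1 - ψ y‖ ≤ ∑ k ∈ S, (ball (x k) (2 * r k)).indicator (fun _ => 1) y) ∧
        ∀ y, ‖fderiv ℝ ψ y‖ ≤ ∑ k ∈ S, (ball (x k) (2 * r k)).indicator (fun _ => C / r k) y := by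
  classical
  obtain ⟨C, hC, h⟩ := st_aux_bump A
  refine ⟨C, hC, fun S x r hr => ?_⟩
  induction S using Finset.induction_on with
  | empty => exact ⟨fun _ => 1, contDiff_const, by simp, by simp, by simp, by simp⟩
  | insert k S hk ih =>
    obtain ⟨ψ, h1, h2, h3, h4, h5⟩ := ih
    obtain ⟨φ, g1, g2, g3, g4, g5⟩ := h (x k) (r k) (hr k)
    refine ⟨fun y => ψ y * (1 - φ y), h1.mul (contDiff_const.sub g1), fun y hy => ?_,
      fun y => ?_, fun y => ?_, fun y => ?_⟩
    · rw [Finset.set_biUnion_insert] at hy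
      rcases hy with hy | hy
      · simp only [g2 y hy, sub_self, mul_zero]
      · simp only [h2 y hy, zero_mul]
    · rw [norm_mul]
      exact mul_le_one₀ (h3 y) (norm_nonneg _) (g3 y)
    · rw [Finset.sum_insert hk, show 1 - ψ y * (1 - φ y) = ψ y * φ y + (1 - ψ y) by ring]
      refine (norm_add_le _ _).trans (add_le_add ?_ (h4 y))
      rw [norm_mul]
      exact (mul_le_of_le_one_left (norm_nonneg _) (h3 y)).trans (g4 y)
    · have e1 := (h1.differentiable one_ne_zero y).hasFDerivAt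
      have e2 := ((g1.differentiable one_ne_zero y).hasFDerivAt).const_sub 1
      rw [(e1.fun_mul e2).fderiv, Finset.sum_insert hk]
      refine (norm_add_le _ _).trans (add_le_add ?_ ?_)
      · rw [norm_smul, norm_neg]
        exact (mul_le_of_le_one_left (norm_nonneg _) (h3 y)).trans (g5 y)
      · rw [norm_smul]
        exact (mul_le_of_le_one_left (norm_nonneg _) (g3 y)).trans (h5 y)

variable {m : ℕ} {T : Type} [NormedAddCommGroup T] [NormedSpace ℂ T] [NormedSpace ℝ T]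
  [IsScalarTower ℝ ℂ T] [FiniteDimensional ℂ T] [FiniteDimensional ℝ T] [MeasurableSpace T]
  [BorelSpace T]

theorem st_aux_upd {A : Type} [NormedAddCommGroup A] [NormedSpace ℂ A] {ι : Type}
    [Fintype ι] [DecidableEq ι] (ξ : ι → A → ℂ) (i₀ : ι) (u : ι → A) (η : A → ℂ) :
    Jac (Function.update ξ i₀ η) u =
      ((Matrix.of fun i j => ξ i (u j)).updateRow i₀ fun j => η (u j)).det := by
  unfold Jac
  congr 1
  ext i j
  by_cases h : i = i₀
  · subst h
    simp
  · simp [h]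

theorem jac_update_expand {A : Type} [NormedAddCommGroup A] [NormedSpace ℂ A] {ι κ : Type}
    [Fintype ι] [DecidableEq ι] [Fintype κ] (ξ : ι → A → ℂ) (i₀ : ι) (u : ι → A) (c : κ → ℂ)
    (ℓ : κ → A → ℂ) (η : A → ℂ) (h : ∀ j, η (u j) = ∑ a, c a * ℓ a (u j)) :
    Jac (Function.update ξ i₀ η) u = ∑ a, c a * Jac (Function.update ξ i₀ (ℓ a)) u := by
  simp only [st_aux_upd]
  have h1 : (fun j => η (u j)) = ∑ a, c a • fun j => ℓ a (u j) := by
    ext j
    simp [h, Finset.sum_apply]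
  rw [h1]
  have h2 := (Matrix.detRowAlternating (n := ι) (R := ℂ)).toMultilinearMap.map_update_sum
    Finset.univ i₀ (fun a => c a • fun j => ℓ a (u j)) (Matrix.of fun i j => ξ i (u j))
  refine h2.trans (Finset.sum_congr rfl fun a _ => ?_)
  exact Matrix.det_updateRow_smul _ _ _ _

theorem jac_conj {A : Type} [NormedAddCommGroup A] [NormedSpace ℂ A] {ι : Type} [Fintype ι]
    [DecidableEq ι] (ξ : ι → A → ℂ) (u : ι → A) :
    Jac (fun i x => conj (ξ i x)) u = conj (Jac ξ u) := by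
  unfold Jac
  rw [RingHom.map_det]
  rfl

omit [NormedSpace ℝ T] [IsScalarTower ℝ ℂ T] [FiniteDimensional ℝ T] [MeasurableSpace T]
  [BorelSpace T] in
theorem st_aux_hol {O : Set T} (hO : IsOpen O) {g : T → Fin m → ℂ} (hg : DifferentiableOn ℂ g O)
    {ι : Type} [Fintype ι] [DecidableEq ι] (v : ι → T) (ξ : ι → (T × (Fin m → ℂ) →L[ℂ] ℂ)) :
    DifferentiableOn ℂ (fun t => Jac (fun i => ξ i) (fun j => tg g t (v j))) O := by
  simp only [Jac, Matrix.det_apply', Matrix.of_apply]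
  refine DifferentiableOn.fun_sum fun σ _ => (differentiableOn_const _).mul ?_
  refine (contDiffOn_prod (n := 1) fun i _ => ?_).differentiableOn one_ne_zero
  refine (hol_contDiffOn hO ?_).of_le (by norm_cast)
  refine (ξ _).differentiable.comp_differentiableOn ((differentiableOn_const _).prodMk ?_)
  exact (hol_fderiv hO hg).clm_apply (differentiableOn_const _)

omit [NormedSpace ℝ T] [IsScalarTower ℝ ℂ T] [FiniteDimensional ℝ T] in
theorem st_aux_err {Z W : Set (T × (Fin m → ℂ))} {O : Set T} {g : T → Fin m → ℂ}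
    (hG : GS Z W O g) (μ : Measure T) {J J' : T → ℂ} (hJ : ContinuousOn J O)
    (hJ' : ContinuousOn J' O) {κ : Type} (S : Finset κ) {B : κ → Set (T × (Fin m → ℂ))}
    (hB : ∀ k, MeasurableSet (B k)) {w : κ → ℝ} (hw : ∀ k, 0 ≤ w k) {c : T × (Fin m → ℂ) → ℂ}
    (hc : ∀ y, ‖c y‖ ≤ ∑ k ∈ S, (B k).indicator (fun _ => w k) y) :
    ∫⁻ t in O, ‖c (t, g t) * J t * conj (J' t)‖ₑ ∂μ ≤ ∑ k ∈ S, ENNReal.ofReal (w k) *
      (∫⁻ t in O ∩ {t | (t, g t) ∈ B k}, ‖J t‖ₑ ^ 2 ∂μ +
        ∫⁻ t in O ∩ {t | (t, g t) ∈ B k}, ‖J' t‖ₑ ^ 2 ∂μ) := by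
  have hm := fun k => hG.measurableSet (hB k)
  have hO := hG.opO.measurableSet
  have a1 : AEMeasurable (fun t => ‖J t‖ₑ ^ 2) (μ.restrict O) :=
    ((hJ.aemeasurable hO).enorm).pow_const 2
  have a2 : AEMeasurable (fun t => ‖J' t‖ₑ ^ 2) (μ.restrict O) :=
    ((hJ'.aemeasurable hO).enorm).pow_const 2
  have a3 : AEMeasurable (fun t => ‖J t‖ₑ ^ 2 + ‖J' t‖ₑ ^ 2) (μ.restrict O) := a1.add a2
  calc ∫⁻ t in O, ‖c (t, g t) * J t * conj (J' t)‖ₑ ∂μ
      ≤ ∫⁻ t in O, ∑ k ∈ S, (O ∩ {t | (t, g t) ∈ B k}).indicator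
          (fun t => ENNReal.ofReal (w k) * (‖J t‖ₑ ^ 2 + ‖J' t‖ₑ ^ 2)) t ∂μ := by
        refine setLIntegral_mono' hO fun t ht => ?_
        have h1 : ‖J t‖ₑ * ‖J' t‖ₑ ≤ ‖J t‖ₑ ^ 2 + ‖J' t‖ₑ ^ 2 := by
          rcases le_total ‖J t‖ₑ ‖J' t‖ₑ with h | h
          · exact le_add_left (by rw [sq]; exact mul_le_mul' h le_rfl)
          · exact le_add_right (by rw [sq]; exact mul_le_mul' le_rfl h)
        have h2 : ‖c (t, g t)‖ₑ ≤ ∑ k ∈ S, (O ∩ {t | (t, g t) ∈ B k}).indicator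
            (fun _ => ENNReal.ofReal (w k)) t := by
          rw [← ofReal_norm]
          refine (ENNReal.ofReal_le_ofReal (hc _)).trans (le_of_eq ?_)
          rw [ENNReal.ofReal_sum_of_nonneg fun k _ => indicator_nonneg (fun _ _ => hw k) _]
          refine Finset.sum_congr rfl fun k _ => ?_
          by_cases h : (t, g t) ∈ B k
          · rw [indicator_of_mem h, indicator_of_mem (show t ∈ O ∩ _ from ⟨ht, h⟩)]
          · rw [indicator_of_notMem h, indicator_of_notMem (fun h' => h h'.2), ENNReal.ofReal_zero]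
        have h3 : ‖conj (J' t)‖ₑ = ‖J' t‖ₑ := by
          rw [← ofReal_norm, ← ofReal_norm, Complex.norm_conj]
        rw [enorm_mul, enorm_mul, h3, mul_assoc]
        refine (mul_le_mul' h2 h1).trans (le_of_eq ?_)
        rw [Finset.sum_mul]
        refine Finset.sum_congr rfl fun k _ => ?_
        by_cases h : t ∈ O ∩ {t | (t, g t) ∈ B k}
        · simp only [indicator_of_mem h]
        · simp only [indicator_of_notMem h, zero_mul]
    _ = _ := by
        rw [lintegral_finsetSum' _ fun k _ => (a3.const_mul _).indicator (hm k)]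
        refine Finset.sum_congr rfl fun k _ => ?_
        have h1 : (μ.restrict O).restrict (O ∩ {t | (t, g t) ∈ B k}) =
            μ.restrict (O ∩ {t | (t, g t) ∈ B k}) := Measure.restrict_restrict_of_subset inter_subset_left
        rw [lintegral_indicator (hm k), lintegral_const_mul' _ _ ENNReal.ofReal_ne_top,
          lintegral_add_left' (a1.restrict), h1]

theorem st_int {Z W : Set (T × (Fin m → ℂ))} {O : Set T} {g : T → Fin m → ℂ} (hG : GS Z W O g)
    (μ : Measure T) [μ.IsAddHaarMeasure] {ι : Type} [Fintype ι] [DecidableEq ι]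
    (v : Module.Basis ι ℂ T) (ξ ζ : ι → (T × (Fin m → ℂ) →L[ℂ] ℂ)) {c : T × (Fin m → ℂ) → ℂ}
    (hc : Continuous c) (hcc : HasCompactSupport c) (hs : tsupport c ⊆ W) :
    IntegrableOn (fun t => c (t, g t) * Jac (fun i => ξ i) (fun j => tg g t (v j)) *
      conj (Jac (fun i => ζ i) (fun j => tg g t (v j)))) O μ := by
  have h1 := (st_aux_hol hG.opO hG.hol v ξ).continuousOn
  have h2 := (st_aux_hol hG.opO hG.hol v ζ).continuousOn
  obtain ⟨M, hM⟩ := hc.bounded_above_of_compact_support hcc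
  refine ⟨(((hc.comp_continuousOn (continuousOn_id.prodMk hG.hol.continuousOn)).mul h1).mul
    (Complex.continuous_conj.comp_continuousOn h2)).aestronglyMeasurable hG.opO.measurableSet, ?_⟩
  have h3 := st_aux_err hG μ h1 h2 (Finset.univ : Finset Unit) (B := fun _ => tsupport c)
    (fun _ => (isClosed_tsupport c).measurableSet) (w := fun _ => M)
    (fun _ => (norm_nonneg _).trans (hM 0)) (c := c) fun y => by
      rw [Fintype.sum_unique]
      by_cases h : y ∈ tsupport c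
      · rw [indicator_of_mem h]
        exact hM y
      · rw [indicator_of_notMem h, image_eq_zero_of_notMem_tsupport h, norm_zero]
  refine h3.trans_lt ?_
  rw [Fintype.sum_unique]
  exact ENNReal.mul_lt_top ENNReal.ofReal_lt_top
    (ENNReal.add_lt_top.2 ⟨vfin hG μ v ξ hcc hs, vfin hG μ v ζ hcc hs⟩)

theorem st_aux_one {Z W : Set (T × (Fin m → ℂ))} {O : Set T} {g : T → Fin m → ℂ}
    (hG : GS Z W O g) (μ : Measure T) [μ.IsAddHaarMeasure] {ι : Type} [Fintype ι] [DecidableEq ι]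
    (v : ι → T) (ξ ζ : ι → (T × (Fin m → ℂ) →L[ℂ] ℂ)) (i₀ : ι)
    {b : T × (Fin m → ℂ) → ℂ} (hb : ContDiff ℝ 1 b) (hc : HasCompactSupport b)
    (hs : tsupport b ⊆ W) (hE : Disjoint (tsupport b) (Z \ Prod.fst ⁻¹' O)) :
    ∫ t in O, Jac (Function.update (fun i => (ξ i : T × (Fin m → ℂ) → ℂ)) i₀ (dH b (t, g t)))
        (fun j => tg g t (v j)) * conj (Jac (fun i => ζ i) (fun j => tg g t (v j))) ∂μ = 0 := by
  classical
  have hQ := hG.isCompact hc hs hE
  have hO := hG.opO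
  let J : T → ℂ := fun t => Jac (fun i => ζ i) (fun j => tg g t (v j))
  have hJ : DifferentiableOn ℂ J O := st_aux_hol hO hG.hol v ζ
  have hF : DifferentiableOn ℂ (fun t => (t, g t)) O := differentiableOn_id.prodMk hG.hol
  let u : T → ℂ := O.indicator fun t => b (t, g t) * conj (J t)
  have hu0 : ∀ t ∉ O ∩ {t | (t, g t) ∈ tsupport b}, u t = 0 := fun t ht => by
    by_cases h : t ∈ O
    · have h1 : (t, g t) ∉ tsupport b := fun h' => ht ⟨h, h'⟩
      simp only [u, indicator_of_mem h, image_eq_zero_of_notMem_tsupport h1, zero_mul]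
    · exact indicator_of_notMem h _
  have hu1 : ∀ t ∈ O, u =ᶠ[𝓝 t] fun t => b (t, g t) * conj (J t) := fun t ht => by
    filter_upwards [hO.mem_nhds ht] with y hy using indicator_of_mem hy _
  have hu2 : ∀ t ∉ O, u =ᶠ[𝓝 t] fun _ => 0 := fun t ht => by
    filter_upwards [hQ.isClosed.isOpen_compl.mem_nhds fun h => ht h.1] with y hy using hu0 y hy
  have hF1 : ∀ t ∈ O, ContDiffAt ℝ 1 (fun t => (t, g t)) t := fun t ht =>
    ((((hol_contDiffOn hO hF).restrict_scalars ℝ).of_le (by norm_cast)).contDiffAt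
      (hO.mem_nhds ht))
  have hJ1 : ∀ t ∈ O, ContDiffAt ℝ 1 (fun t => conj (J t)) t := fun t ht =>
    Complex.conjCLE.contDiff.contDiffAt.comp t
      ((((hol_contDiffOn hO hJ).restrict_scalars ℝ).of_le (by norm_cast)).contDiffAt
        (hO.mem_nhds ht))
  have hu : ContDiff ℝ 1 u := contDiff_iff_contDiffAt.2 fun t => by
    by_cases ht : t ∈ O
    · exact ((hb.contDiffAt.comp t (hF1 t ht)).mul (hJ1 t ht)).congr_of_eventuallyEq (hu1 t ht)
    · exact contDiffAt_const.congr_of_eventuallyEq (hu2 t ht)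
  have hus : tsupport u ⊆ O :=
    (closure_minimal (fun t (ht : u t ≠ 0) => by_contra fun h => ht (hu0 t h)) hQ.isClosed).trans
      inter_subset_left
  have h1 := st_core μ hO v (G := fun i t => ξ i (t, g t))
    (fun i => (ξ i).differentiable.comp_differentiableOn hF) hu (HasCompactSupport.intro hQ hu0)
    hus i₀
  refine Eq.trans ?_
    ((setIntegral_eq_integral_of_forall_compl_eq_zero (s := O) fun t ht => ?_).trans h1)
  · refine setIntegral_congr_fun hO.measurableSet fun t ht => ?_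
    have hFt := hF.differentiableAt (hO.mem_nhds ht)
    have hgt := hG.hol.differentiableAt (hO.mem_nhds ht)
    have hD : ∀ w, fderiv ℂ (fun t => (t, g t)) t w = tg g t w := fun w => by
      exact congrArg (fun L : T →L[ℂ] T × (Fin m → ℂ) => L w)
        ((hasFDerivAt_id t).prodMk hgt.hasFDerivAt).fderiv
    have hd : ∀ w, dH u t w = conj (J t) * dH b (t, g t) (tg g t w) := fun w => by
      rw [dH_congr (hu1 t ht), dH_mul (f := fun t => b (t, g t)) (((hb.differentiable one_ne_zero) _).comp t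
        ((hF1 t ht).differentiableAt one_ne_zero)) ((hJ1 t ht).differentiableAt one_ne_zero),
        dH_conj, dA_hol (hJ.differentiableAt (hO.mem_nhds ht)),
        dH_comp ((hb.differentiable one_ne_zero) _) hFt, hD]
      simp [mul_comm]
    have hξ : ∀ i w, fderiv ℂ (fun t => ξ i (t, g t)) t w = ξ i (tg g t w) := fun i w => by
      rw [← hD]
      exact congrArg (fun L : T →L[ℂ] ℂ => L w)
        ((ξ i).hasFDerivAt.comp t hFt.hasFDerivAt).fderiv
    simp only [hd, hξ]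
    rw [st_aux_upd, mul_comm, ← Matrix.det_updateRow_smul]
    congr 1
    ext i j
    by_cases h : i = i₀
    · subst h
      simp [J]
    · simp [h]
  · refine Matrix.det_eq_zero_of_row_eq_zero i₀ fun j => ?_
    simp only [Matrix.of_apply, if_true]
    rw [dH_congr (hu2 t ht)]
    exact dH_const 0 _ _

theorem st_aux_exp {g : T → Fin m → ℂ} {ι κ : Type} [Fintype ι] [DecidableEq ι] [Fintype κ]
    (e : Module.Basis κ ℂ (T × (Fin m → ℂ))) (v : ι → T) (ξ : ι → (T × (Fin m → ℂ) →L[ℂ] ℂ))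
    (i₀ : ι) (b : T × (Fin m → ℂ) → ℂ) (t : T) :
    Jac (Function.update (fun i => (ξ i : T × (Fin m → ℂ) → ℂ)) i₀ (dH b (t, g t)))
        (fun j => tg g t (v j)) = ∑ a, dH b (t, g t) (e a) *
      Jac (fun i => Function.update ξ i₀ (LinearMap.toContinuousLinearMap (e.coord a)) i)
        (fun j => tg g t (v j)) := by
  rw [jac_update_expand _ i₀ _ (fun a => dH b (t, g t) (e a)) (fun a x => e.repr x a) _
    fun j => dH_expand e b _ _]
  refine Finset.sum_congr rfl fun a _ => ?_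
  congr 2
  ext i x
  by_cases h : i = i₀
  · subst h
    simp
  · simp [h]

theorem st_aux_int {Z W : Set (T × (Fin m → ℂ))} {O : Set T} {g : T → Fin m → ℂ}
    (hG : GS Z W O g) (μ : Measure T) [μ.IsAddHaarMeasure] {ι : Type} [Fintype ι] [DecidableEq ι]
    (v : Module.Basis ι ℂ T) (ξ ζ : ι → (T × (Fin m → ℂ) →L[ℂ] ℂ)) (i₀ : ι)
    {b : T × (Fin m → ℂ) → ℂ} (hb : ContDiff ℝ 1 b) (hc : HasCompactSupport b)
    (hs : tsupport b ⊆ W) :
    IntegrableOn (fun t =>
      Jac (Function.update (fun i => (ξ i : T × (Fin m → ℂ) → ℂ)) i₀ (dH b (t, g t)))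
        (fun j => tg g t (v j)) * conj (Jac (fun i => ζ i) (fun j => tg g t (v j)))) O μ := by
  simp only [st_aux_exp (Module.finBasis ℂ (T × (Fin m → ℂ))), Finset.sum_mul]
  refine integrable_finsetSum _ fun a _ => st_int hG μ v _ ζ (c := fun x => dH b x _) ?_
    (hc.of_isClosed_subset (isClosed_tsupport _) (tsupport_dH b _)) ((tsupport_dH b _).trans hs)
  exact continuous_iff_continuousAt.2 fun x =>
    (contDiffAt_dH (n := 0) hb.contDiffAt (by norm_num) _).continuousAt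

theorem st_aux_small {Z W : Set (T × (Fin m → ℂ))} {O : Set T} {g : T → Fin m → ℂ}
    (hG : GS Z W O g) (μ : Measure T) [μ.IsAddHaarMeasure] {ι : Type} [Fintype ι] [DecidableEq ι]
    (v : Module.Basis ι ℂ T) (ξ ζ : ι → (T × (Fin m → ℂ) →L[ℂ] ℂ)) (i₀ : ι)
    {K : Set (T × (Fin m → ℂ))} (hK : IsCompact K) (hW : K ⊆ W) :
    ∃ C : ℝ≥0, ∃ r₀ : ℝ, 0 < r₀ ∧ ∀ {κ : Type} (S : Finset κ) (x : κ → T × (Fin m → ℂ))
      (r w : κ → ℝ) (b : T × (Fin m → ℂ) → ℂ), ContDiff ℝ 1 b →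
      (∀ k, x k ∈ K ∧ 0 < r k ∧ r k < r₀ ∧ 0 ≤ w k) →
      (∀ y, ‖fderiv ℝ b y‖ ≤ ∑ k ∈ S, (ball (x k) (r k)).indicator (fun _ => w k) y) →
      ‖∫ t in O, Jac (Function.update (fun i => (ξ i : T × (Fin m → ℂ) → ℂ)) i₀ (dH b (t, g t)))
        (fun j => tg g t (v j)) * conj (Jac (fun i => ζ i) (fun j => tg g t (v j))) ∂μ‖ₑ ≤
        C * ∑ k ∈ S, ENNReal.ofReal (w k * r k ^ rd T) := by
  let e := Module.finBasis ℂ (T × (Fin m → ℂ))
  obtain ⟨C₀, r₀, hr₀, h₀⟩ := vu hG μ v ζ hK hW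
  choose C ρ hρ h using fun a => vu hG μ v
    (Function.update ξ i₀ (LinearMap.toContinuousLinearMap (e.coord a))) hK hW
  obtain ⟨r₁, hr₁, hr₁'⟩ : ∃ r₁ : ℝ, 0 < r₁ ∧ r₁ ≤ r₀ ∧ ∀ a, r₁ ≤ ρ a := by
    have h1 : ∀ᶠ r₁ in 𝓝[>] (0 : ℝ), r₁ ≤ r₀ ∧ ∀ a, r₁ ≤ ρ a :=
      nhdsWithin_le_nhds ((eventually_le_nhds hr₀).and
        (eventually_all.2 fun a => eventually_le_nhds (hρ a)))
    exact (h1.and self_mem_nhdsWithin).exists.imp fun r hr => ⟨hr.2, hr.1⟩
  refine ⟨∑ a, ‖e a‖₊ * (C a + C₀), r₁, hr₁, fun S x r w b hb1 hx hb => ?_⟩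
  refine (enorm_integral_le_lintegral_enorm _).trans ?_
  simp only [st_aux_exp e, Finset.sum_mul]
  have h2 := (st_aux_hol hG.opO hG.hol v ζ).continuousOn
  have h3 := fun a => (st_aux_hol hG.opO hG.hol v
    (Function.update ξ i₀ (LinearMap.toContinuousLinearMap (e.coord a)))).continuousOn
  have h4 : ∀ a, Continuous fun y => dH b y (e a) := fun a =>
    continuous_iff_continuousAt.2 fun x =>
      (contDiffAt_dH (n := 0) hb1.contDiffAt (by norm_num) _).continuousAt
  refine (lintegral_mono fun t => enorm_sum_le _ _).trans ?_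
  refine (lintegral_finsetSum' _ fun a _ => (((((h4 a).comp_continuousOn
    (continuousOn_id.prodMk hG.hol.continuousOn)).mul (h3 a)).mul
      (Complex.continuous_conj.comp_continuousOn h2)).aemeasurable
        hG.opO.measurableSet).enorm).le.trans ?_
  rw [ENNReal.ofNNReal_finsetSum, Finset.sum_mul]
  refine Finset.sum_le_sum fun a _ => ?_
  refine (st_aux_err hG μ (h3 a) h2 S (B := fun k => ball (x k) (r k))
    (fun _ => measurableSet_ball) (w := fun k => w k * ‖e a‖)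
    (fun k => mul_nonneg (hx k).2.2.2 (norm_nonneg _)) (c := fun y => dH b y (e a))
    fun y => ?_).trans ?_
  · refine (norm_dH_le _ _ _).trans
      ((mul_le_mul_of_nonneg_right (hb y) (norm_nonneg _)).trans (le_of_eq ?_))
    rw [Finset.sum_mul]
    exact Finset.sum_congr rfl fun k _ => (indicator_mul_const _ _ _ _).symm
  · rw [Finset.mul_sum]
    refine Finset.sum_le_sum fun k _ => ?_
    obtain ⟨k1, k2, k3, k4⟩ := hx k
    refine (mul_le_mul' le_rfl (add_le_add (h a _ k1 _ k2 (k3.trans_le (hr₁'.2 a)))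
      (h₀ _ k1 _ k2 (k3.trans_le hr₁'.1)))).trans (le_of_eq ?_)
    rw [ENNReal.ofReal_mul k4, ENNReal.ofReal_mul k4, ofReal_norm]
    simp only [ENNReal.coe_mul, ENNReal.coe_add, enorm_eq_nnnorm]
    ring

theorem st [Nontrivial T] {Z W : Set (T × (Fin m → ℂ))} {O : Set T} {g : T → Fin m → ℂ}
    (hG : GS Z W O g) (μ : Measure T) [μ.IsAddHaarMeasure] {ι : Type} [Fintype ι] [DecidableEq ι]
    (v : Module.Basis ι ℂ T) (ξ ζ : ι → (T × (Fin m → ℂ) →L[ℂ] ℂ)) (i₀ : ι)
    {b : T × (Fin m → ℂ) → ℂ} (hb : ContDiff ℝ 1 b) (hc : HasCompactSupport b)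
    (hs : tsupport b ⊆ W) :
    IntegrableOn (fun t =>
      Jac (Function.update (fun i => (ξ i : T × (Fin m → ℂ) → ℂ)) i₀ (dH b (t, g t)))
        (fun j => tg g t (v j)) * conj (Jac (fun i => ζ i) (fun j => tg g t (v j)))) O μ ∧
    ∫ t in O, Jac (Function.update (fun i => (ξ i : T × (Fin m → ℂ) → ℂ)) i₀ (dH b (t, g t)))
        (fun j => tg g t (v j)) * conj (Jac (fun i => ζ i) (fun j => tg g t (v j))) ∂μ = 0 := by
  refine ⟨st_aux_int hG μ v ξ ζ i₀ hb hc hs, ?_⟩
  have hd := two_le_rd (T := T)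
  have hE := hG.isCompact_sing hc hs
  have hE0 : μH[rd T - 1] (tsupport b ∩ (Z \ Prod.fst ⁻¹' O)) = 0 :=
    measure_mono_null inter_subset_right hG.thin
  obtain ⟨C, r₀, hr₀, hC⟩ := st_aux_small hG μ v ξ ζ i₀ hc hs
  obtain ⟨C₁, hC₁, hcut⟩ := st_aux_cut (T × (Fin m → ℂ))
  obtain ⟨M₀, hM₀⟩ := hb.continuous.bounded_above_of_compact_support hc
  obtain ⟨M₁, hM₁⟩ := (hb.continuous_fderiv one_ne_zero).bounded_above_of_compact_support
    (hc.fderiv ℝ)
  have hM₀0 : 0 ≤ M₀ := (norm_nonneg _).trans (hM₀ 0)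
  have hM₁0 : 0 ≤ M₁ := (norm_nonneg _).trans (hM₁ 0)
  let I : (T × (Fin m → ℂ) → ℂ) → T → ℂ := fun b t =>
    Jac (Function.update (fun i => (ξ i : T × (Fin m → ℂ) → ℂ)) i₀ (dH b (t, g t)))
      (fun j => tg g t (v j)) * conj (Jac (fun i => ζ i) (fun j => tg g t (v j)))
  let D : ℝ≥0∞ := C * (ENNReal.ofReal ((M₁ + M₀ * C₁) * 2 ^ rd T) *
    (ENNReal.ofReal (2 ^ (rd T - 1)) * 2))
  have key : ∀ δ : ℝ, 0 < δ → δ ≤ 1 / 2 → 4 * δ < r₀ →
      ‖∫ t in O, I b t ∂μ‖ₑ ≤ D * ENNReal.ofReal δ := fun δ h0 h1 h2 => by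
    obtain ⟨S, r, hr, hcov, hsum⟩ := st_aux_cover hE (by linarith) hE0 h0 (by linarith)
    obtain ⟨ψ, p1, p2, -, p4, p5⟩ := hcut S (fun x => (x : T × (Fin m → ℂ))) r fun x => (hr x).1
    have q1 : ContDiff ℝ 1 fun y => ψ y * b y := p1.mul hb
    have q2 : ContDiff ℝ 1 fun y => (1 - ψ y) * b y := (contDiff_const.sub p1).mul hb
    have q3 : tsupport (fun y => ψ y * b y) ⊆ tsupport b := tsupport_mul_subset_right
    have q4 : tsupport (fun y => (1 - ψ y) * b y) ⊆ tsupport b := tsupport_mul_subset_right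
    have q5 := hc.of_isClosed_subset (isClosed_tsupport _) q3
    have q6 := hc.of_isClosed_subset (isClosed_tsupport _) q4
    have q7 : Disjoint (tsupport fun y => ψ y * b y) (Z \ Prod.fst ⁻¹' O) := by
      refine disjoint_left.2 fun y hy hy' => notMem_tsupport_iff_eventuallyEq.2 ?_ hy
      filter_upwards [(isOpen_biUnion fun _ _ => isOpen_ball).mem_nhds (hcov ⟨q3 hy, hy'⟩)]
        with z hz
      simp only [p2 z hz, zero_mul, Pi.zero_apply]
    have q8 : ∀ t, I b t = I (fun y => ψ y * b y) t + I (fun y => (1 - ψ y) * b y) t := fun t => by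
      simp only [I, st_aux_upd]
      rw [← add_mul, ← Matrix.det_updateRow_add]
      congr 3
      ext j
      rw [Pi.add_apply, ← dH_add (q1.differentiable one_ne_zero _)
        (q2.differentiable one_ne_zero _)]
      congr 1
      ext y
      ring
    have q9 : ∫ t in O, I b t ∂μ = ∫ t in O, I (fun y => (1 - ψ y) * b y) t ∂μ := by
      simp only [q8]
      rw [integral_add (st_aux_int hG μ v ξ ζ i₀ q1 q5 (q3.trans hs))
        (st_aux_int hG μ v ξ ζ i₀ q2 q6 (q4.trans hs)),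
        st_aux_one hG μ v ξ ζ i₀ q1 q5 (q3.trans hs) q7, zero_add]
    rw [q9]
    refine (hC S (fun x => (x : T × (Fin m → ℂ))) (fun x => 2 * r x)
      (fun x => M₁ + M₀ * (C₁ / r x)) _ q2 (fun x => ⟨x.2.1, by linarith [(hr x).1],
        by linarith [(hr x).2], by have := (hr x).1; positivity⟩) fun y => ?_).trans ?_
    · have e1 := ((p1.differentiable one_ne_zero y).hasFDerivAt).const_sub 1
      have e2 := (hb.differentiable one_ne_zero y).hasFDerivAt
      rw [(e1.fun_mul e2).fderiv]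
      refine (norm_add_le _ _).trans ?_
      rw [norm_smul, norm_smul, norm_neg]
      refine (add_le_add (mul_le_mul (p4 y) (hM₁ y) (norm_nonneg _) ((norm_nonneg _).trans (p4 y)))
        (mul_le_mul (hM₀ y) (p5 y) (norm_nonneg _) hM₀0)).trans (le_of_eq ?_)
      rw [Finset.sum_mul, Finset.mul_sum, ← Finset.sum_add_distrib]
      refine Finset.sum_congr rfl fun k _ => ?_
      by_cases h : y ∈ ball (k : T × (Fin m → ℂ)) (2 * r k)
      · simp only [indicator_of_mem h, one_mul]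
      · simp only [indicator_of_notMem h, zero_mul, mul_zero, add_zero]
    · simp only [D, mul_assoc]
      refine mul_le_mul' le_rfl ?_
      refine le_trans ?_ (mul_le_mul' le_rfl hsum)
      rw [Finset.mul_sum]
      refine Finset.sum_le_sum fun k _ => ?_
      have k1 := (hr k).1
      have k2 : r k ≤ 1 := by linarith [(hr k).2]
      rw [← ENNReal.ofReal_mul (by positivity)]
      refine ENNReal.ofReal_le_ofReal ?_
      rw [Real.mul_rpow (by norm_num) k1.le, Real.rpow_sub_one k1.ne']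
      have k3 : M₁ ≤ M₁ / r k := by
        rw [le_div_iff₀ k1]
        exact mul_le_of_le_one_right hM₁0 k2
      calc (M₁ + M₀ * (C₁ / r k)) * (2 ^ rd T * r k ^ rd T)
          ≤ (M₁ / r k + M₀ * (C₁ / r k)) * (2 ^ rd T * r k ^ rd T) := by gcongr
        _ = _ := by ring
  have hD : D ≠ ⊤ := by
    simp only [D]
    finiteness
  have h1 : Tendsto (fun δ : ℝ => D * ENNReal.ofReal δ) (𝓝[>] 0) (𝓝 0) := by
    have := ENNReal.Tendsto.const_mul (a := D) ((ENNReal.continuous_ofReal.tendsto' 0 0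
      ENNReal.ofReal_zero).mono_left (nhdsWithin_le_nhds (s := Ioi 0))) (Or.inr hD)
    rwa [mul_zero] at this
  have h2 : ∀ᶠ δ in 𝓝[>] (0 : ℝ), ‖∫ t in O, I b t ∂μ‖ₑ ≤ D * ENNReal.ofReal δ := by
    filter_upwards [self_mem_nhdsWithin, nhdsWithin_le_nhds (eventually_le_nhds one_half_pos),
      nhdsWithin_le_nhds (eventually_lt_nhds (show 0 < r₀ / 4 by positivity))] with δ a1 a2 a3
    exact key δ a1 a2 (by linarith)
  exact enorm_eq_zero.1 (le_antisymm (ge_of_tendsto h1 h2) zero_le)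

theorem st_conj [Nontrivial T] {Z W : Set (T × (Fin m → ℂ))} {O : Set T} {g : T → Fin m → ℂ}
    (hG : GS Z W O g) (μ : Measure T) [μ.IsAddHaarMeasure] {ι : Type} [Fintype ι] [DecidableEq ι]
    (v : Module.Basis ι ℂ T) (ξ ζ : ι → (T × (Fin m → ℂ) →L[ℂ] ℂ)) (i₀ : ι)
    {b : T × (Fin m → ℂ) → ℂ} (hb : ContDiff ℝ 1 b) (hc : HasCompactSupport b)
    (hs : tsupport b ⊆ W) :
    IntegrableOn (fun t => Jac (fun i => ξ i) (fun j => tg g t (v j)) *
      Jac (Function.update (fun i x => conj (ζ i x)) i₀ (dA b (t, g t)))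
        (fun j => tg g t (v j))) O μ ∧
    ∫ t in O, Jac (fun i => ξ i) (fun j => tg g t (v j)) *
      Jac (Function.update (fun i x => conj (ζ i x)) i₀ (dA b (t, g t)))
        (fun j => tg g t (v j)) ∂μ = 0 := by
  have h0 : tsupport (fun x => conj (b x)) ⊆ tsupport b := tsupport_comp_subset (map_zero _) b
  obtain ⟨h1, h2⟩ := st hG μ v ζ ξ i₀ (b := fun x => conj (b x))
    (Complex.conjCLE.contDiff.comp hb) (hc.of_isClosed_subset (isClosed_tsupport _) h0)
    (h0.trans hs)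
  have h3 : ∀ t, Jac (fun i => ξ i) (fun j => tg g t (v j)) *
      Jac (Function.update (fun i x => conj (ζ i x)) i₀ (dA b (t, g t))) (fun j => tg g t (v j)) =
      conj (Jac (Function.update (fun i => (ζ i : T × (Fin m → ℂ) → ℂ)) i₀
        (dH (fun x => conj (b x)) (t, g t))) (fun j => tg g t (v j)) *
          conj (Jac (fun i => ξ i) (fun j => tg g t (v j)))) := fun t => by
    rw [map_mul, Complex.conj_conj, mul_comm, ← jac_conj]
    congr 2
    ext i x
    by_cases h : i = i₀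
    · subst h
      simp [dH_conj]
    · simp [h]
  simp only [h3]
  exact ⟨Complex.conjCLE.toContinuousLinearMap.integrable_comp h1, by
    rw [integral_conj, h2, map_zero]⟩

end Pool.Agent.Lib.MP_823829_an
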