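import Pool.Agent.Lib.MP_823829_an.Wirt
import Pool.Agent.Lib.MP_823829_an.VO.Sol

/-! Integration by parts for determinants with holomorphic rows. -/

namespace Pool.Agent.Lib.MP_823829_an

open Set Metric Filter MeasureTheory
open scoped Topology ENNReal NNReal ContDiff ComplexConjugate

theorem st_aux_inst {T : Type} [NormedAddCommGroup T] [NormedSpace ℂ T] [i : NormedSpace ℝ T]
    [IsScalarTower ℝ ℂ T] : i = NormedSpace.complexToReal := by
  have h : ∀ (r : ℝ) (x : T), r • x = (r : ℂ) • x := fun r x => by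
    rw [← smul_one_smul ℂ r x, Complex.real_smul, mul_one]
  have h2 : i.toModule = (NormedSpace.complexToReal : NormedSpace ℝ T).toModule :=
    Module.ext' _ _ fun r x => h r x
  cases i
  cases h2
  rfl

theorem st_aux_core {T : Type} [NormedAddCommGroup T] [NormedSpace ℂ T] [FiniteDimensional ℂ T]
    [MeasurableSpace T] [BorelSpace T] (μ : Measure T) [μ.IsAddHaarMeasure] {O : Set T}
    (hO : IsOpen O) {ι : Type} [Fintype ι] [DecidableEq ι] (v : ι → T) {G : ι → T → ℂ}
    (hG : ∀ i, DifferentiableOn ℂ (G i) O) {u : T → ℂ} (hu : ContDiff ℝ 1 u)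
    (hc : HasCompactSupport u) (hs : tsupport u ⊆ O) (i₀ : ι) :
    ∫ t, Matrix.det (Matrix.of fun i j =>
      if i = i₀ then dH u t (v j) else fderiv ℂ (G i) t (v j)) ∂μ = 0 := by
  obtain ⟨n, hn⟩ : ∃ n, Fintype.card ι = n + 1 :=
    Nat.exists_eq_succ_of_ne_zero (Fintype.card_pos_iff.2 ⟨i₀⟩).ne'
  obtain ⟨e, he⟩ : ∃ e : Fin (n + 1) ≃ ι, e 0 = i₀ :=
    ⟨(Fintype.equivFinOfCardEq hn).symm.trans (Equiv.swap i₀ _), Equiv.swap_apply_right _ _⟩
  have hg : DifferentiableOn ℂ (fun x (k : Fin n) => G (e k.succ) x) O :=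
    differentiableOn_pi.2 fun k => hG _
  have h1 := (VO.sol_fld (μ := μ) hO ((hol_contDiffOn hO hg).of_le (by norm_cast))
    fun j => v (e j)).int u hu.contDiffOn ⟨_, hc, hs, fun x _ h => subset_tsupport _ h⟩
  rw [← h1, ← setIntegral_eq_integral_of_forall_compl_eq_zero (s := O) fun t ht => ?_]
  · refine setIntegral_congr_fun hO.measurableSet fun t ht => ?_
    simp only [VO.fld, VO.pd_sum_vec, VO.sum_cof]
    rw [← Matrix.det_submatrix_equiv_self e, ← Matrix.det_transpose]
    congr 1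
    ext a b
    refine Fin.cases ?_ (fun k => ?_) b
    · simp [he]
      rfl
    · have h2 : e k.succ ≠ i₀ := fun h => Fin.succ_ne_zero k (e.injective (h.trans he.symm))
      simp [h2, fderiv_pi fun k : Fin n => (hG (e k.succ)).differentiableAt (hO.mem_nhds ht)]
  · refine Matrix.det_eq_zero_of_row_eq_zero i₀ fun j => ?_
    simp only [Matrix.of_apply, if_true]
    rw [dH_congr (notMem_tsupport_iff_eventuallyEq.1 fun h => ht (hs h))]
    exact dH_const 0 _ _

variable {m : ℕ} {T : Type} [NormedAddCommGroup T] [NormedSpace ℂ T] [NormedSpace ℝ T]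
  [IsScalarTower ℝ ℂ T] [FiniteDimensional ℂ T] [FiniteDimensional ℝ T] [MeasurableSpace T]
  [BorelSpace T]

theorem st_core (μ : Measure T) [μ.IsAddHaarMeasure] {O : Set T} (hO : IsOpen O) {ι : Type}
    [Fintype ι] [DecidableEq ι] (v : ι → T) {G : ι → T → ℂ} (hG : ∀ i, DifferentiableOn ℂ (G i) O)
    {u : T → ℂ} (hu : ContDiff ℝ 1 u) (hc : HasCompactSupport u) (hs : tsupport u ⊆ O) (i₀ : ι) :
    ∫ t, Matrix.det (Matrix.of fun i j =>
      if i = i₀ then dH u t (v j) else fderiv ℂ (G i) t (v j)) ∂μ = 0 := by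
  obtain rfl := st_aux_inst (T := T)
  exact st_aux_core μ hO v hG hu hc hs i₀

end Pool.Agent.Lib.MP_823829_an
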