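import Mathlib

/-!
Definitions used in the statement: the Hartogs figure, forms of type (2,2) on a complex manifold,
analytic subsets of `D × X` and meromorphic maps given by their graphs.
-/

namespace Pool.Agent.Lib.MP_823829_an

open Set Metric
open scoped Manifold ContDiff

/-- The space `ℂ²` with the maximum norm, so that balls are bidiscs. -/
abbrev C2 : Type := Fin 2 → ℂ

/-- The space `ℂ⁴ = ℂ² × ℂ²` with the maximum norm. -/
abbrev C4 : Type := C2 × C2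

/-- The unit polydisc `Δ⁴ = Δ² × Δ²`. -/
def polydisc : Set C4 := ball (0 : C2) 1 ×ˢ ball (0 : C2) 1

/-- The Hartogs figure `H_2^2(r) = [Δ²(1-r) × Δ²] ∪ [Δ² × (Δ² ∖ closure Δ²(r))]`. -/
def hartogs (r : ℝ) : Set C4 :=
  (ball (0 : C2) (1 - r) ×ˢ ball (0 : C2) 1) ∪
    (ball (0 : C2) 1 ×ˢ (ball (0 : C2) 1 \ closedBall (0 : C2) r))

section Wirtinger

variable {V : Type} [NormedAddCommGroup V] [NormedSpace ℂ V] [NormedSpace ℝ V]

/-- The Wirtinger derivative `∂g` at `y` evaluated on `u`: the complex linear part of the real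
derivative. -/
noncomputable def dH (g : V → ℂ) (y u : V) : ℂ :=
  (fderiv ℝ g y u - Complex.I * fderiv ℝ g y (Complex.I • u)) / 2

/-- The Wirtinger derivative `∂̄g` at `y` evaluated on `v`: the conjugate linear part of the real
derivative. -/
noncomputable def dA (g : V → ℂ) (y v : V) : ℂ :=
  (fderiv ℝ g y v + Complex.I * fderiv ℝ g y (Complex.I • v)) / 2

/-- For a field `W` of (2,2)-forms on an open set of `V` (`W y u₁ u₂ v₁ v₂` is its value at `y`),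
the (3,3)-form `∂∂̄W` at `y`, evaluated on `u₀, u₁, u₂; v₀, v₁, v₂`: the double cyclic sum of
`∂_{u₀} ∂̄_{v₀} W(u₁, u₂; v₁, v₂)`. -/
noncomputable def ddbar (W : V → V → V → V → V → ℂ) (y : V) (u v : Fin 3 → V) : ℂ :=
  ∑ i : Fin 3, ∑ j : Fin 3,
    dH (fun y' => dA (fun y'' => W y'' (u (i + 1)) (u (i + 2)) (v (j + 1)) (v (j + 2))) y' (v j))
      y (u i)

end Wirtinger

/-- Coefficient tensors of (2,2)-forms on a complex vector space: complex linear in the first two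
arguments and conjugate linear in the last two. -/
abbrev Form (V : Type) [AddCommGroup V] [Module ℂ V] : Type :=
  V →ₗ[ℂ] V →ₗ[ℂ] V →ₗ⋆[ℂ] V →ₗ⋆[ℂ] ℂ

section Manifold

variable {m : ℕ} {X : Type*} [TopologicalSpace X] [ChartedSpace (Fin m → ℂ) X]

/-- The expression of the form `Ω` in the chart `e`: its pullback by `e.symm`. -/
noncomputable def inChart (Ω : (x : X) → Form (TangentSpace 𝓘(ℂ, Fin m → ℂ) x))
    (e : OpenPartialHomeomorph X (Fin m → ℂ)) (y u₁ u₂ v₁ v₂ : Fin m → ℂ) : ℂ :=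
  Ω (e.symm y) (mfderiv 𝓘(ℂ, Fin m → ℂ) 𝓘(ℂ, Fin m → ℂ) e.symm y u₁)
    (mfderiv 𝓘(ℂ, Fin m → ℂ) 𝓘(ℂ, Fin m → ℂ) e.symm y u₂)
    (mfderiv 𝓘(ℂ, Fin m → ℂ) 𝓘(ℂ, Fin m → ℂ) e.symm y v₁)
    (mfderiv 𝓘(ℂ, Fin m → ℂ) 𝓘(ℂ, Fin m → ℂ) e.symm y v₂)

/-- `Ω` is a smooth, strictly positive (2,2)-form with `∂∂̄Ω = 0` (that is, `dd^c Ω = 0`). -/
structure IsPosPluriclosed (Ω : (x : X) → Form (TangentSpace 𝓘(ℂ, Fin m → ℂ) x)) : Prop where
  alt_left : ∀ x u v₁ v₂, Ω x u u v₁ v₂ = 0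
  alt_right : ∀ x u₁ u₂ v, Ω x u₁ u₂ v v = 0
  smooth : ∀ e ∈ atlas (Fin m → ℂ) X, ∀ u₁ u₂ v₁ v₂,
    ContDiffOn ℝ ∞ (fun y => inChart Ω e y u₁ u₂ v₁ v₂) e.target
  closed : ∀ e ∈ atlas (Fin m → ℂ) X, ∀ y ∈ e.target, ∀ u v, ddbar (inChart Ω e) y u v = 0
  pos : ∀ x u v, LinearIndependent ℂ ![u, v] → 0 < (Ω x u v u v).re

variable (m)

/-- `Γ` is an analytic subset of `D × X`: near each point of `D × X` it is the common zero set of
finitely many holomorphic functions. -/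
def IsAnalyticIn (D : Set C4) (Γ : Set (C4 × X)) : Prop :=
  Γ ⊆ D ×ˢ univ ∧ ∀ p ∈ D ×ˢ (univ : Set X), ∃ U : Set (C4 × X), IsOpen U ∧ p ∈ U ∧
    ∃ (n : ℕ) (g : C4 × X → Fin n → ℂ),
      MDifferentiableOn (𝓘(ℂ, C4).prod 𝓘(ℂ, Fin m → ℂ)) 𝓘(ℂ, Fin n → ℂ) g U ∧
        ∀ q ∈ U, q ∈ Γ ↔ g q = 0

/-- `Γ` is an irreducible analytic subset of `D × X`. -/
def IsIrreducibleIn (D : Set C4) (Γ : Set (C4 × X)) : Prop :=
  IsAnalyticIn m D Γ ∧ Γ.Nonempty ∧ ∀ Z₁ Z₂ : Set (C4 × X), IsAnalyticIn m D Z₁ →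
    IsAnalyticIn m D Z₂ → Γ = Z₁ ∪ Z₂ → Γ = Z₁ ∨ Γ = Z₂

/-- `Γ` is the graph of a meromorphic map `D → X`: an irreducible analytic subset of `D × X` whose
projection to `D` is proper and one-to-one over a dense open subset of `D`. -/
def IsMeromorphicGraph (D : Set C4) (Γ : Set (C4 × X)) : Prop :=
  IsIrreducibleIn m D Γ ∧ (∀ K ⊆ D, IsCompact K → IsCompact (Γ ∩ K ×ˢ univ)) ∧
    ∃ O ⊆ D, IsOpen O ∧ D ⊆ closure O ∧ ∀ t ∈ O, ∃! x, (t, x) ∈ Γ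

end Manifold

end Pool.Agent.Lib.MP_823829_an
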