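import Pool.Agent.Lib.MP_823829_an.Stmt

/-!
Local irreducibility of a subset of `ℂ⁴ × X`: its germ at each of its points is irreducible.
-/

namespace Pool.Agent.Lib.MP_823829_an

open Set Filter
open scoped Manifold Topology

variable (m : ℕ) {X : Type*} [TopologicalSpace X] [ChartedSpace (Fin m → ℂ) X]

/-- Near the point `p` the set `Z` is the common zero set of finitely many holomorphic
functions. -/
def IsAnalyticNear (Z : Set (C4 × X)) (p : C4 × X) : Prop :=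
  ∃ U : Set (C4 × X), IsOpen U ∧ p ∈ U ∧ ∃ (n : ℕ) (g : C4 × X → Fin n → ℂ),
    MDifferentiableOn (𝓘(ℂ, C4).prod 𝓘(ℂ, Fin m → ℂ)) 𝓘(ℂ, Fin n → ℂ) g U ∧
      ∀ q ∈ U, q ∈ Z ↔ g q = 0

/-- The germ of `Γ` at each of its points is irreducible: it is not the union of two smaller
analytic germs. -/
def IsLocallyIrreducible (Γ : Set (C4 × X)) : Prop :=
  ∀ p ∈ Γ, ∀ Z₁ Z₂ : Set (C4 × X), IsAnalyticNear m Z₁ p → IsAnalyticNear m Z₂ p →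
    (∀ᶠ q in 𝓝 p, q ∈ Γ ↔ q ∈ Z₁ ∪ Z₂) →
      (∀ᶠ q in 𝓝 p, q ∈ Γ ↔ q ∈ Z₁) ∨ (∀ᶠ q in 𝓝 p, q ∈ Γ ↔ q ∈ Z₂)

end Pool.Agent.Lib.MP_823829_an
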