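import Pool.Agent.Lib.MP_823829_an.An
import Pool.Agent.Lib.MP_823829_an.Roots

/-! Projection of a bounded analytic set with one-dimensional fibres. -/

namespace Pool.Agent.Lib.MP_823829_an

open Set Metric Filter MeasureTheory
open scoped Topology ENNReal NNReal ContDiff ComplexConjugate

variable {T : Type} [NormedAddCommGroup T] [NormedSpace ℂ T] [FiniteDimensional ℂ T]

theorem t1a_aux_poly {d n : ℕ} (v : Fin d → Fin n → ℂ)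
    (h : ∀ s : Fin (d * n + 1), ∏ j, ∑ i : Fin n, ((s : ℕ) : ℂ) ^ (i : ℕ) * v j i = 0) :
    ∃ j, v j = 0 := by
  by_contra hne
  have h1 : ∀ j, Polynomial.ofFn n (v j) ≠ 0 := fun j e =>
    hne ⟨j, Polynomial.injective_ofFn n (e.trans (map_zero _).symm)⟩
  refine Finset.prod_ne_zero_iff.2 (fun j (_ : j ∈ Finset.univ) => h1 j)
    (Polynomial.eq_zero_of_natDegree_lt_card_of_eval_eq_zero _
      (f := fun s : Fin (d * n + 1) => ((s : ℕ) : ℂ))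
      (fun a b e => Fin.ext (Nat.cast_injective e)) (fun s => ?_) ?_)
  · rw [Polynomial.eval_prod, ← h s]
    refine Finset.prod_congr rfl fun j _ => ?_
    rw [Polynomial.ofFn_eq_sum_monomial, Polynomial.eval_finsetSum]
    exact Finset.sum_congr rfl fun i _ => by rw [Polynomial.eval_monomial, mul_comm]
  · rw [Fintype.card_fin, Nat.lt_succ_iff]
    refine (Polynomial.natDegree_prod_le _ _).trans ?_
    refine (Finset.sum_le_card_nsmul _ _ n fun j _ => ?_).trans (by simp)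
    exact Polynomial.natDegree_le_of_degree_le (Polynomial.ofFn_degree_lt (v j)).le

theorem t1a_aux_ne {δ : ℂ → ℂ} {U : Set ℂ} (hU : IsOpen U) (hδ : DifferentiableOn ℂ δ U) {c : ℂ}
    (hc : c ∈ U) (h : ∃ᶠ y in 𝓝 c, δ y ≠ 0) : ∀ᶠ y in 𝓝[≠] c, δ y ≠ 0 :=
  (hδ.analyticAt (hU.mem_nhds hc)).eventually_eq_zero_or_eventually_ne_zero.resolve_left
    fun e => h (e.mono fun _ a => not_not.2 a)

theorem t1a_aux_iso {Z : Set (T × ℂ)} {T₀ : Set T} (h : FB Z (ContinuousLinearMap.fst ℂ T ℂ) T₀)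
    {t : T} (ht : t ∈ T₀) (c : ℂ) : ∀ᶠ y in 𝓝[≠] c, (t, y) ∉ Z := by
  have han : ∀ y ∈ (univ : Set ℂ), AnAt ((fun y : ℂ => (t, y)) ⁻¹' Z) y := fun y _ =>
    AnAt.preimage (h.an (t, y) ht) (Eventually.of_forall fun _ => by fun_prop)
  rcases an_dich isOpen_univ isPreconnected_univ han with h1 | h1
  · refine absurd ?_ (NormedSpace.unbounded_univ ℝ ℂ)
    exact h.bdd.image_snd.subset fun y hy => ⟨(t, y), h1 hy, rfl⟩
  · obtain ⟨U, hU, hc, δ, h2, h3, h4⟩ := h1 c trivial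
    filter_upwards [t1a_aux_ne hU h2 hc (h4 c hc), mem_nhdsWithin_of_mem_nhds (hU.mem_nhds hc)]
      with y h5 h6 h7 using h5 (h3 y h6 h7)

theorem t1a_aux_fin {Z : Set (T × ℂ)} {T₀ : Set T} (h : FB Z (ContinuousLinearMap.fst ℂ T ℂ) T₀)
    {t : T} (ht : t ∈ T₀) : {c | (t, c) ∈ Z}.Finite := by
  by_contra hinf
  obtain ⟨R, hR⟩ := (h.bdd.image_snd.subset (s := {c | (t, c) ∈ Z})
    fun y hy => ⟨(t, y), hy, rfl⟩).subset_closedBall 0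
  obtain ⟨c, -, hc⟩ := Set.Infinite.exists_accPt_of_subset_isCompact hinf
    (isCompact_closedBall 0 R) hR
  exact accPt_iff_frequently_nhdsNE.1 hc (t1a_aux_iso h ht c)

theorem t1a_aux_loc {Z : Set (T × ℂ)} {t₀ : T} {c : ℂ} (han : AnAt Z (t₀, c))
    (hiso : ∀ᶠ y in 𝓝[≠] c, (t₀, y) ∉ Z) :
    ∃ ρ : ℝ, 0 < ρ ∧ ∃ η : ℝ, 0 < η ∧ ∃ (d : ℕ) (r : T → Fin d → ℂ),
      (∀ t ∈ ball t₀ η, ∀ j, r t j ∈ ball c ρ) ∧
      (∀ t ∈ ball t₀ η, ∀ y ∈ ball c ρ, (t, y) ∈ Z → ∃ j, y = r t j) ∧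
      HM r (ball t₀ η) ∧ AnAt {t | ∃ j, (t, r t j) ∈ Z} t₀ := by
  obtain ⟨U, hU, hc, n, g, hg, hZ⟩ := han
  obtain ⟨R, hR, hRU⟩ := Metric.isOpen_iff.1 hU _ hc
  rw [← ball_prod_same] at hRU
  have hgi : ∀ i, DifferentiableOn ℂ (fun x => g x i) U := differentiableOn_pi.1 hg
  have hsl : ∀ y ∈ ball c R, (t₀, y) ∈ U := fun y hy => hRU ⟨mem_ball_self hR, hy⟩
  obtain ⟨i, hi⟩ : ∃ i, ∃ᶠ y in 𝓝 c, g (t₀, y) i ≠ 0 := by
    by_contra hne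
    have h1 : ∀ᶠ y in 𝓝 c, ∀ i, g (t₀, y) i = 0 := eventually_all.2 fun i =>
      (not_frequently.1 fun e => hne ⟨i, e⟩).mono fun _ => not_not.1
    obtain ⟨y, h2, h3, h4⟩ := (hiso.and (mem_nhdsWithin_of_mem_nhds
      (h1.and (ball_mem_nhds c hR)))).exists
    exact h2 ((hZ _ (hsl y h4)).2 (funext h3))
  have h1 := t1a_aux_ne isOpen_ball ((hgi i).comp (f := fun y : ℂ => (t₀, y)) (by fun_prop) hsl)
    (mem_ball_self hR) hi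
  obtain ⟨ε, hε, h2⟩ := Metric.eventually_nhds_iff_ball.1 (eventually_nhdsWithin_iff.1 h1)
  obtain ⟨ρ, hρ, hρ'⟩ := exists_between (lt_min hε hR)
  have hρR := (lt_min_iff.1 hρ').2
  have h3 : ∀ᶠ t in 𝓝 t₀, ∀ y ∈ sphere c ρ, g (t, y) i ≠ 0 := by
    refine (isCompact_sphere c ρ).eventually_forall_of_forall_eventually fun y hy => ?_
    have h4 := hsl y (sphere_subset_ball hρR hy)
    refine ((hgi i).continuousOn.continuousAt (hU.mem_nhds h4)).eventually_ne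
      (h2 y (sphere_subset_ball (lt_min_iff.1 hρ').1 hy) ?_)
    rintro rfl
    exact hρ.ne (by simpa using hy)
  obtain ⟨η, hη, h4⟩ := Metric.eventually_nhds_iff_ball.1 (h3.and (ball_mem_nhds t₀ hR))
  have hsub : ball t₀ η ×ˢ ball c R ⊆ U := fun x hx => hRU ⟨(h4 _ hx.1).2, hx.2⟩
  obtain ⟨d, r, h5, h6⟩ := roots isOpen_ball (convex_ball t₀ η).isPreconnected hρ hρR
    ((hgi i).mono hsub) fun t ht => (h4 t ht).1
  have hr : ∀ t ∈ ball t₀ η, ∀ j, r t j ∈ ball c ρ := fun t ht j => ((h5 t ht _).2 ⟨j, rfl⟩).1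
  refine ⟨ρ, hρ, η, hη, d, r, hr, fun t ht y hy hz => (h5 t ht y).1 ⟨hy, congrFun
    ((hZ _ (hsub ⟨ht, ball_subset_ball hρR.le hy⟩)).1 hz) i⟩,
    fun ξ a => (h6 (fun x => a - ξ x.2) (by fun_prop)).2, ?_⟩
  refine anAt_of_finite isOpen_ball (mem_ball_self hη) (fun (s : Fin (d * n + 1)) t =>
    ∏ j, ∑ k : Fin n, ((s : ℕ) : ℂ) ^ (k : ℕ) * g (t, r t j) k)
    (fun s => (h6 (fun x => ∑ k : Fin n, ((s : ℕ) : ℂ) ^ (k : ℕ) * g x k)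
      (DifferentiableOn.fun_sum fun k _ => ((hgi k).mono hsub).const_mul _)).2) fun t ht => ?_
  have h7 : ∀ j, (t, r t j) ∈ Z ↔ g (t, r t j) = 0 := fun j =>
    hZ _ (hsub ⟨ht, ball_subset_ball hρR.le (hr t ht j)⟩)
  simp only [mem_ofPred_eq, h7]
  exact ⟨fun ⟨j, hj⟩ s => Finset.prod_eq_zero (Finset.mem_univ j) (by simp [hj]),
    t1a_aux_poly fun j => g (t, r t j)⟩

theorem t1a_aux_all {Z : Set (T × ℂ)} {T₀ : Set T} (h : FB Z (ContinuousLinearMap.fst ℂ T ℂ) T₀)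
    {t₀ : T} (ht₀ : t₀ ∈ T₀) :
    ∃ η : ℝ, 0 < η ∧ ball t₀ η ⊆ T₀ ∧ ∃ (ι : Type) (_ : Fintype ι) (d : ι → ℕ)
      (r : ∀ a, T → Fin (d a) → ℂ) (M : ι → ℝ), (∀ a, HM (r a) (ball t₀ η)) ∧
      (∀ a, ∀ t ∈ ball t₀ η, ∀ j, ‖r a t j‖ ≤ M a) ∧
      (∀ t ∈ ball t₀ η, ∀ c, (t, c) ∈ Z → ∃ a j, c = r a t j) ∧
      ∀ a, AnAt {t | ∃ j, (t, r a t j) ∈ Z} t₀ := by
  have hF := (t1a_aux_fin h ht₀).fintype
  choose ρ hρ η hη d r h1 h2 h3 h4 using fun c : {c | (t₀, c) ∈ Z} =>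
    t1a_aux_loc (h.an (t₀, c.1) ht₀) (t1a_aux_iso h ht₀ c.1)
  have h5 := h.tube (N := ⋃ c : {c | (t₀, c) ∈ Z}, Prod.snd ⁻¹' ball c.1 (ρ c)) ht₀
    (isOpen_iUnion fun c => isOpen_ball.preimage continuous_snd) (by
      rintro ⟨t, y⟩ hx rfl
      exact mem_iUnion.2 ⟨⟨y, hx⟩, mem_ball_self (hρ _)⟩)
  obtain ⟨ε, hε, h6⟩ := Metric.eventually_nhds_iff_ball.1 (h5.and ((eventually_all.2
    fun c => ball_mem_nhds t₀ (hη c)).and (h.op.mem_nhds ht₀)))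
  refine ⟨ε, hε, fun t ht => (h6 t ht).2.2, _, hF, d, r, fun c => ‖c.1‖ + ρ c,
    fun c ξ a => (h3 c ξ a).mono fun t ht => (h6 t ht).2.1 c, fun c t ht j => ?_,
    fun t ht y hy => ?_, h4⟩
  · exact (norm_lt_of_mem_ball (h1 c t ((h6 t ht).2.1 c) j)).le
  · obtain ⟨c, hc⟩ := mem_iUnion.1 ((h6 t ht).1 (t, y) hy rfl)
    exact ⟨c, h2 c t ((h6 t ht).2.1 c) y hc hy⟩

theorem t1_one {Z : Set (T × ℂ)} {T₀ : Set T} (h : FB Z (ContinuousLinearMap.fst ℂ T ℂ) T₀) :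
    (∀ t ∈ T₀, {c | (t, c) ∈ Z}.Finite) ∧ ∀ t ∈ T₀, AnAt (Prod.fst '' Z) t := by
  refine ⟨fun t ht => t1a_aux_fin h ht, fun t₀ ht₀ => ?_⟩
  obtain ⟨η, hη, -, ι, _, d, r, M, -, -, h1, h2⟩ := t1a_aux_all h ht₀
  refine (anAt_iUnion h2).congr ?_
  filter_upwards [ball_mem_nhds t₀ hη] with t ht
  rw [mem_iUnion]
  constructor
  · rintro ⟨a, j, hj⟩
    exact ⟨_, hj, rfl⟩
  · rintro ⟨⟨t, c⟩, hc, rfl⟩
    obtain ⟨a, j, rfl⟩ := h1 t ht c hc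
    exact ⟨a, j, hc⟩

theorem weier {Z : Set (T × ℂ)} {T₀ : Set T} (h : FB Z (ContinuousLinearMap.fst ℂ T ℂ) T₀)
    {t₀ : T} (ht₀ : t₀ ∈ T₀) :
    ∃ η : ℝ, 0 < η ∧ ball t₀ η ⊆ T₀ ∧ ∃ (d : ℕ) (r : T → Fin d → ℂ) (M : ℝ),
      HM r (ball t₀ η) ∧ (∀ t ∈ ball t₀ η, ∀ j, ‖r t j‖ ≤ M) ∧
        ∀ t ∈ ball t₀ η, ∀ c, (t, c) ∈ Z → ∃ j, c = r t j := by
  obtain ⟨η, hη, hs, ι, _, d, r, M, h1, h2, h3, -⟩ := t1a_aux_all h ht₀
  let e := (Fintype.equivFin ((a : ι) × Fin (d a))).symm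
  refine ⟨η, hη, hs, _, fun t k => r (e k).1 t (e k).2, ∑ a, |M a|, fun ξ c => ?_,
    fun t ht k => ?_, fun t ht c hc => ?_⟩
  · have h4 : ∀ t, ∏ k, (c - ξ (r (e k).1 t (e k).2)) = ∏ a, ∏ j, (c - ξ (r a t j)) := fun t =>
      (e.prod_comp fun x => c - ξ (r x.1 t x.2)).trans (Fintype.prod_sigma _)
    simp only [h4]
    classical
    exact fun t ht => (HasFDerivWithinAt.finsetProd (g := fun a t => ∏ j, (c - ξ (r a t j)))
      fun a _ => (h1 a ξ c t ht).hasFDerivWithinAt).differentiableWithinAt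
  · exact ((h2 _ t ht _).trans (le_abs_self _)).trans
      (Finset.single_le_sum (f := fun a => |M a|) (fun _ _ => abs_nonneg _) (Finset.mem_univ _))
  · obtain ⟨a, j, rfl⟩ := h3 t ht c hc
    exact ⟨e.symm ⟨a, j⟩, congrArg (fun x : (a : ι) × Fin (d a) => r x.1 t x.2)
      (e.apply_symm_apply ⟨a, j⟩).symm⟩

end Pool.Agent.Lib.MP_823829_an
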