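import Pool.Agent.Lib.MP_823829_an.T2a

/-! Off a negligible set a bounded analytic set is a union of sheets. -/

namespace Pool.Agent.Lib.MP_823829_an

open Set Metric Filter MeasureTheory
open scoped Topology ENNReal NNReal ContDiff ComplexConjugate

variable {A T : Type} [NormedAddCommGroup A] [NormedSpace ℂ A] [FiniteDimensional ℂ A]
  [NormedAddCommGroup T] [NormedSpace ℂ T] [FiniteDimensional ℂ T]

/-- Each sheet over a ball lies in `Z` or meets it in a negligible set. -/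
theorem t2_aux_dich {C Z : Set A} {L : A →L[ℂ] T} {t : T} {r : ℝ} {d : ℕ} {s : Fin d → T → A}
    (hs : Sheets C L (ball t r) d s) (hZ : ∀ x, L x ∈ ball t r → AnAt Z x) (j : Fin d) :
    (∀ u ∈ ball t r, s j u ∈ Z ∧ ∀ᶠ y in 𝓝 (s j u), y ∈ C → y ∈ Z) ∨
      (Neg {u | s j u ∈ Z} (ball t r) ∧
        ∀ u ∈ ball t r, ¬ ∀ᶠ y in 𝓝 (s j u), y ∈ C → y ∈ Z) := by
  have hd : ∀ u ∈ ball t r, DifferentiableAt ℂ (s j) u := fun u hu =>
    (hs.hol j).differentiableAt (isOpen_ball.mem_nhds hu)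
  refine (an_dich (S := s j ⁻¹' Z) isOpen_ball (convex_ball t r).isPreconnected fun u hu =>
    (hZ _ (by rwa [hs.sec j u hu])).preimage
      (mem_of_superset (isOpen_ball.mem_nhds hu) hd)).imp (fun h u hu => ⟨h hu, ?_⟩)
    fun h => ⟨h, fun u hu he => h.frequently hu ?_⟩
  · have h1 : ∀ᶠ y in 𝓝 (s j u), L y ∈ ball t r :=
      L.continuous.continuousAt.eventually_mem (isOpen_ball.mem_nhds (by rwa [hs.sec j u hu]))
    filter_upwards [hs.isOpen isOpen_ball j hu, h1] with y a b c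
    rw [a c]
    exact h b
  · filter_upwards [(hd u hu).continuousAt.eventually he, isOpen_ball.mem_nhds hu] with y a b
    exact not_not.2 (a (hs.mem_self j b))

/-- An analytic subset of a bounded cover is a cover off a negligible set. -/
theorem t2_aux_core {C Z : Set A} {L : A →L[ℂ] T} {U σ : Set T} (hZ : FB Z L U)
    (hc : IsPreconnected U) (ha : ∀ t ∈ U, AnAt σ t) (hσ : Neg σ U)
    (hb : Bornology.IsBounded C) (hs : ∀ x ∈ C, L x ∈ U \ σ)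
    (hg : ∀ t ∈ U \ σ, ∃ d, Good C L d t) (hZC : ∀ x ∈ Z, L x ∉ σ → x ∈ C) :
    Neg {t | ¬ ∃ d, Good Z L d t} U := by
  have ho := an_isOpen_diff hZ.op ha
  let O : Set A := {q | ∀ᶠ y in 𝓝 q, y ∈ C → y ∈ Z}
  have hO : IsOpen O := isOpen_setOfPred_eventually_nhds
  have key : ∀ t ∈ U \ σ, ∀ N ∈ 𝓝 t, ∃ r, 0 < r ∧ ball t r ⊆ N ∧ ball t r ⊆ U \ σ ∧
      ∃ (d : ℕ) (s : Fin d → T → A), Sheets C L (ball t r) d s ∧ ∀ j,
        (∀ u ∈ ball t r, s j u ∈ Z ∧ s j u ∈ O) ∨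
          (Neg {u | s j u ∈ Z} (ball t r) ∧ ∀ u ∈ ball t r, s j u ∉ O) := fun t ht N hN => by
    obtain ⟨d, h⟩ := hg t ht
    obtain ⟨r, r0, h1, s, h2⟩ := h.exists_ball (inter_mem hN (ho.mem_nhds ht))
    exact ⟨r, r0, fun u hu => (h1 hu).1, fun u hu => (h1 hu).2, d, s, h2,
      t2_aux_dich h2 fun x hx => hZ.an x (h1 hx).2.1⟩
  obtain ⟨d, h1⟩ := good_const (Z := C \ O) (L := L) (hσ.preconnected hZ.op hc ho) fun t ht => by
    obtain ⟨r, r0, -, -, d, s, h2, h3⟩ := key t ht univ univ_mem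
    obtain ⟨d', s', h4⟩ := h2.sub (Z' := C \ O) (fun x _ hx => hx.1) fun j =>
      (h3 j).symm.imp (fun h u hu => ⟨h2.mem_self j hu, h.2 u hu⟩) fun h u hu e => e.2 (h u hu).2
    exact ⟨d', _, isOpen_ball, mem_ball_self r0, s', h4⟩
  obtain ⟨-, -, -, h2⟩ := t3 hZ.op hσ ho (hb.subset sdiff_subset) (fun x hx => hs x hx.1) h1
  have h3 := (t1 (hZ.inter fun x hx => h2 x (hZ.sub x hx))).2
  have h4 : closure (C \ O) ⊆ Oᶜ := closure_minimal (fun x hx => hx.2) hO.isClosed_compl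
  have h5 : Neg (L '' (Z ∩ closure (C \ O))) U := an_neg h3 fun t ht he => by
    obtain ⟨W, w1, w2, w3⟩ := _root_.mem_nhds_iff.1 (inter_mem he (hZ.op.mem_nhds ht))
    obtain ⟨t₁, a1, a2⟩ := hσ.exists_mem w2 (fun u hu => (w1 hu).2) ⟨t, w3⟩
    obtain ⟨r, r0, b1, b2, d, s, b3, b4⟩ := key t₁ ⟨(w1 a1).2, a2⟩ W (w2.mem_nhds a1)
    obtain ⟨u, c1, c2⟩ := (Neg.iUnion (ι := {j // Neg {u | s j u ∈ Z} (ball t₁ r)})
      fun j => j.2).exists_mem isOpen_ball subset_rfl ⟨t₁, mem_ball_self r0⟩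
    obtain ⟨x, ⟨x1, x2⟩, rfl⟩ := not_not.1 (w1 (b1 c1)).1
    obtain ⟨j, e⟩ := (b3.mem x c1).1 (hZC x x1 (b2 c1).2)
    rcases b4 j with h | h
    · exact h4 x2 (e ▸ (h _ c1).2)
    · exact c2 (mem_iUnion.2 ⟨⟨j, h.1⟩, show s j (L x) ∈ Z from e ▸ x1⟩)
  refine (hσ.union h5).mono hZ.op subset_rfl fun t ht hn => by_contra fun hm => hn ?_
  rw [mem_union, not_or] at hm
  obtain ⟨r, r0, b1, b2, d, s, b3, b4⟩ := key t ⟨ht, hm.1⟩ _
    ((an_isOpen_diff hZ.op h3).mem_nhds ⟨ht, hm.2⟩)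
  obtain ⟨d', s', h6⟩ := b3.sub (Z' := Z) (fun x hx e => hZC x e (b2 hx).2) fun j =>
    (b4 j).imp (fun h u hu => (h u hu).1) fun h u hu e => (b1 hu).2
      ⟨s j u, ⟨e, subset_closure ⟨b3.mem_self j hu, h.2 u hu⟩⟩, b3.sec j u hu⟩
  exact ⟨d', _, isOpen_ball, mem_ball_self r0, s', h6⟩

omit [FiniteDimensional ℂ T] in
/-- The product of finitely many scalar covers. -/
theorem t2_aux_prod {n : ℕ} {S : Fin n → Set (T × ℂ)} {W : Set T} (hW : IsOpen W) {t : T}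
    (ht : t ∈ W) (h : ∀ i, ∃ d, Good (S i) (ContinuousLinearMap.fst ℂ T ℂ) d t) :
    ∃ d, Good {q : T × (Fin n → ℂ) | q.1 ∈ W ∧ ∀ i, (q.1, q.2 i) ∈ S i}
      (ContinuousLinearMap.fst ℂ T (Fin n → ℂ)) d t := by
  choose d U h1 h2 s hs using h
  let e := (Fintype.equivFin (∀ i, Fin (d i))).symm
  have h3 : ∀ i k, ∀ u ∈ W ∩ ⋂ i, U i, s i k u = (u, (s i k u).2) := fun i k u hu =>
    Prod.ext ((hs i).sec k u (mem_iInter.1 hu.2 i)) rfl
  refine ⟨_, W ∩ ⋂ i, U i, hW.inter (isOpen_iInter_of_finite h1), ⟨ht, mem_iInter.2 h2⟩,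
    fun k u => (u, fun i => (s i (e k i) u).2), fun k => differentiableOn_id.prodMk
      (differentiableOn_pi.2 fun i => ((hs i).hol _).snd.mono fun u hu => mem_iInter.1 hu.2 i),
    fun _ _ _ => rfl, fun u hu k k' a => e.injective (funext fun i =>
      (hs i).inj u (mem_iInter.1 hu.2 i) ?_), fun x hx => ⟨fun a => ?_, ?_⟩⟩
  · have b := congrFun (congrArg Prod.snd a) i
    simp only at b ⊢
    rw [h3 i _ u hu, b, ← h3 i _ u hu]
  · choose k hk using fun i => ((hs i).mem (x.1, x.2 i) (mem_iInter.1 hx.2 i)).1 (a.2 i)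
    refine ⟨e.symm k, Prod.ext rfl (funext fun i => ?_)⟩
    simp only [Equiv.apply_symm_apply]
    exact congrArg Prod.snd (hk i)
  · rintro ⟨k, a⟩
    refine ⟨hx.1, fun i => ((hs i).mem (x.1, x.2 i) (mem_iInter.1 hx.2 i)).2 ⟨e k i, ?_⟩⟩
    have b : x.2 i = (s i (e k i) x.1).2 := congrFun (congrArg Prod.snd a) i
    exact b ▸ (h3 i (e k i) x.1 hx).symm

omit [FiniteDimensional ℂ A] in
/-- Sheets of the graph embedding give sheets of the set. -/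
theorem t2_aux_back {B : Type} [NormedAddCommGroup B] [NormedSpace ℂ B] [FiniteDimensional ℂ B]
    {Z : Set A} {L : A →L[ℂ] T} (φ : A ≃L[ℂ] B) {d : ℕ} {t : T}
    (h : Good ((fun x => (L x, φ x)) '' Z) (ContinuousLinearMap.fst ℂ T B) d t) :
    Good Z L d t := by
  obtain ⟨U, h1, h2, s, hs⟩ := h
  have h3 : ∀ j, ∀ u ∈ U, φ.symm (s j u).2 ∈ Z ∧ L (φ.symm (s j u).2) = u := fun j u hu => by
    obtain ⟨x, a, b⟩ := hs.mem_self j hu
    have c : (s j u).1 = u := hs.sec j u hu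
    rw [← b] at c ⊢
    simpa using ⟨a, c⟩
  refine ⟨U, h1, h2, fun j u => φ.symm (s j u).2,
    fun j => φ.symm.differentiable.comp_differentiableOn (hs.hol j).snd,
    fun j u hu => (h3 j u hu).2, fun u hu j j' a => hs.inj u hu (Prod.ext
      ((hs.sec j u hu).trans (hs.sec j' u hu).symm) (φ.symm.injective a)),
    fun x hx => ⟨fun a => ?_, fun ⟨j, a⟩ => a ▸ (h3 j _ hx).1⟩⟩
  obtain ⟨j, b⟩ := (hs.mem (L x, φ x) hx).1 ⟨x, a, rfl⟩
  exact ⟨j, (φ.symm_apply_apply x).symm.trans (congrArg φ.symm (congrArg Prod.snd b))⟩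

theorem t2_loc {Z : Set A} {L : A →L[ℂ] T} {T₀ : Set T} (h : FB Z L T₀) :
    Neg {t | ¬ ∃ d, Good Z L d t} T₀ := by
  intro t₀ ht₀
  let φ : A ≃L[ℂ] (Fin (Module.finrank ℂ A) → ℂ) := ContinuousLinearEquiv.ofFinrankEq (by simp)
  choose η h1 _ d r M h2 h3 h4 using fun i =>
    weier (h.image ((ContinuousLinearMap.proj i).comp φ.toContinuousLinearMap)) ht₀
  obtain ⟨ε, e0, he⟩ := Metric.mem_nhds_iff.1 (inter_mem (h.op.mem_nhds ht₀)
    (iInter_mem.2 fun i => ball_mem_nhds t₀ (h1 i)))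
  have hU : ∀ i, ball t₀ ε ⊆ ball t₀ (η i) := fun i u hu => mem_iInter.1 (he hu).2 i
  choose σ s1 s2 s3 using fun i => t2_scalar isOpen_ball (convex_ball t₀ ε).isPreconnected
    isBounded_ball (r := r i) (fun ξ c => (h2 i ξ c).mono (hU i)) fun t ht => h3 i t (hU i ht)
  have ha : ∀ t ∈ ball t₀ ε, AnAt (⋃ i, σ i) t := fun t ht => anAt_iUnion fun i => s1 i t ht
  have h5 := t2_aux_core (C := {q | q.1 ∈ ball t₀ ε \ ⋃ i, σ i ∧
      ∀ i, (q.1, q.2 i) ∈ {q : T × ℂ | ∃ j, q.2 = r i q.1 j}})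
    ((h.restrict isOpen_ball fun u hu => (he hu).1).image φ.toContinuousLinearMap)
    (convex_ball t₀ ε).isPreconnected ha (Neg.iUnion s2)
    ((isBounded_ball.prod (Bornology.IsBounded.pi fun i =>
      isBounded_closedBall (x := (0 : ℂ)) (r := M i))).subset fun q hq => ⟨hq.1.1, fun i _ => by
        obtain ⟨j, e⟩ := hq.2 i
        exact mem_closedBall_zero_iff.2 ((congrArg _ e).trans_le (h3 i _ (hU i hq.1.1) j))⟩)
    (fun x hx => hx.1)
    (fun t ht => t2_aux_prod (an_isOpen_diff isOpen_ball ha) ht fun i =>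
      s3 i t ⟨ht.1, fun e => ht.2 (mem_iUnion.2 ⟨i, e⟩)⟩)
    (by
      rintro _ ⟨x, hx, rfl⟩ e
      exact ⟨⟨hx.2, e⟩, fun i => h4 i _ (hU i hx.2) _ ⟨x, hx.1, rfl⟩⟩)
  refine h5.mono isOpen_ball subset_rfl ?_ t₀ (mem_ball_self e0)
  refine fun t ht hn ⟨d, hd⟩ => hn ⟨d, (t2_aux_back φ hd).congr ?_⟩
  filter_upwards [isOpen_ball.mem_nhds ht] with u hu x e
  exact and_iff_left (show L x ∈ ball t₀ ε from e ▸ hu)

theorem t2 {Z : Set A} {L : A →L[ℂ] T} {T₀ : Set T} (h : FB Z L T₀) (hc : IsPreconnected T₀) :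
    ∃ d, Neg {t | ¬ Good Z L d t} T₀ := by
  have ho : IsOpen (T₀ \ {t | ¬ ∃ d, Good Z L d t}) := by
    convert h.op.inter (isOpen_iUnion fun d => isOpen_good Z L d) using 1
    ext t
    simp
  obtain ⟨d, hd⟩ := good_const ((t2_loc h).preconnected h.op hc ho) fun t ht => not_not.1 ht.2
  exact ⟨d, (t2_loc h).mono h.op subset_rfl fun t ht hn => by_contra fun e => hn (hd t ⟨ht, e⟩)⟩

end Pool.Agent.Lib.MP_823829_an
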