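import Pool.Agent.Lib.MP_823829_an.T1
import Pool.Agent.Lib.MP_823829_an.HM

/-! Sheets of the roots of a monic polynomial with holomorphic coefficients. -/

namespace Pool.Agent.Lib.MP_823829_an

open Set Metric Filter MeasureTheory
open scoped Topology ENNReal NNReal ContDiff ComplexConjugate

variable {T : Type} [NormedAddCommGroup T] [NormedSpace ℂ T] [FiniteDimensional ℂ T]

theorem t2a_aux_range {d : ℕ} {c r : Fin d → ℂ}
    (h : ∀ i : Fin (d + 1), ∏ j, (((i : ℕ) : ℂ) - c j) = ∏ j, (((i : ℕ) : ℂ) - r j)) (k : Fin d) :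
    ∃ j, c k = r j := by
  obtain ⟨ℓ, -, hℓ⟩ := lagr_prod d
  have h1 : ∏ j, (c k - r j) = ∏ j, (c k - c j) := by
    rw [hℓ r, hℓ c]
    exact Finset.sum_congr rfl fun i _ => by rw [h i]
  have h2 : ∏ j, (c k - c j) = 0 := Finset.prod_eq_zero (Finset.mem_univ k) (sub_self _)
  rw [h2, Finset.prod_eq_zero_iff] at h1
  obtain ⟨j, -, hj⟩ := h1
  exact ⟨j, sub_eq_zero.1 hj⟩

theorem t2a_aux_prod {m : ℕ} (c : Fin m → ℂ) :
    ∏ p ∈ (Finset.univ : Finset (Fin m)).offDiag, (c p.1 - c p.2) = 0 ↔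
      ¬ Function.Injective c := by
  rw [Finset.prod_eq_zero_iff]
  constructor
  · rintro ⟨p, hp, h0⟩ hi
    exact (Finset.mem_offDiag.1 hp).2.2 (hi (sub_eq_zero.1 h0))
  · intro h
    obtain ⟨a, b, hab, hne⟩ := Function.not_injective_iff.1 h
    exact ⟨(a, b), Finset.mem_offDiag.2 ⟨Finset.mem_univ _, Finset.mem_univ _, hne⟩,
      sub_eq_zero.2 hab⟩

theorem t2a_aux_max {d m : ℕ} {r : Fin d → ℂ}
    (hmax : ∀ ι : Fin (m + 1) → Fin d, ¬ Function.Injective fun k => r (ι k))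
    {x : Fin m → ℂ} (hx : Function.Injective x) (hr : ∀ k, ∃ j, x k = r j) (j : Fin d) :
    ∃ k, r j = x k := by
  by_contra hn
  choose ι hι using hr
  refine hmax (Fin.cons j ι) ?_
  have e : (fun k => r ((Fin.cons j ι : Fin (m + 1) → Fin d) k)) = Fin.cons (r j) x := by
    funext k
    refine Fin.cases rfl (fun k => ?_) k
    simp only [Fin.cons_succ]
    exact (hι k).symm
  rw [e, Fin.cons_injective_iff]
  exact ⟨fun ⟨k, hk⟩ => hn ⟨k, hk.symm⟩, hx⟩

theorem t2a_aux_sep {m : ℕ} {c : Fin m → ℂ} (hc : Function.Injective c) :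
    ∃ ρ : ℝ, 0 < ρ ∧ ∀ k l, k ≠ l → 2 * ρ < dist (c k) (c l) := by
  have h : ∀ᶠ ρ in 𝓝[>] (0 : ℝ), ∀ k l, k ≠ l → 2 * ρ < dist (c k) (c l) := by
    refine eventually_all.2 fun k => eventually_all.2 fun l => ?_
    by_cases hkl : k = l
    · exact Eventually.of_forall fun _ h => absurd hkl h
    · have hp : 0 < dist (c k) (c l) := dist_pos.2 fun h => hkl (hc h)
      have h2 : ∀ᶠ ρ in 𝓝 (0 : ℝ), ρ < dist (c k) (c l) / 2 := Iio_mem_nhds (by positivity)
      filter_upwards [nhdsWithin_le_nhds h2] with ρ hρ _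
      linarith
  obtain ⟨ρ, h1, h2⟩ := (h.and self_mem_nhdsWithin).exists
  exact ⟨ρ, h2, h1⟩

omit [FiniteDimensional ℂ T] in
theorem t2a_aux_dprod {ι : Type} (u : Finset ι) {f : ι → T → ℂ}
    (h : ∀ i ∈ u, Differentiable ℂ (f i)) : Differentiable ℂ fun x => ∏ i ∈ u, f i x := by
  classical
  exact fun x => (HasFDerivAt.finsetProd fun i hi => (h i hi x).hasFDerivAt).differentiableAt

theorem t2a_aux_an {U : Set T} (hU : IsOpen U) (hbU : Bornology.IsBounded U) {d : ℕ}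
    {r : T → Fin d → ℂ} (hr : HM r U) {M : ℝ} (hb : ∀ t ∈ U, ∀ j, ‖r t j‖ ≤ M) (m : ℕ) :
    ∀ t ∈ U, AnAt {t | t ∈ U ∧ ∀ ι : Fin m → Fin d, ¬ Function.Injective fun k => r t (ι k)} t := by
  set Y : Set (T × (Fin d → ℂ)) := {q | q.1 ∈ U ∧
    (∀ i : Fin (d + 1), ∏ j, (((i : ℕ) : ℂ) - q.2 j) = ∏ j, (((i : ℕ) : ℂ) - r q.1 j)) ∧
    ∀ ι : Fin m → Fin d,
      ∏ p ∈ (Finset.univ : Finset (Fin m)).offDiag, (q.2 (ι p.1) - q.2 (ι p.2)) = 0} with hY
  have hFB : FB Y (ContinuousLinearMap.fst ℂ T (Fin d → ℂ)) U := by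
    refine ⟨hU, fun x hx => hx.1, ?_, fun x hx => ?_⟩
    · refine (hbU.prod (isBounded_closedBall (x := (0 : Fin d → ℂ)) (r := max M 0))).subset ?_
      intro q hq
      refine ⟨hq.1, ?_⟩
      rw [mem_closedBall_zero_iff, pi_norm_le_iff_of_nonneg (le_max_right _ _)]
      intro k
      obtain ⟨j, hj⟩ := t2a_aux_range hq.2.1 k
      rw [hj]
      exact (hb _ hq.1 j).trans (le_max_left _ _)
    · refine anAt_of_finite (T := ℂ) (ι := Fin (d + 1) ⊕ (Fin m → Fin d)) (U := U ×ˢ univ)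
        (hU.prod isOpen_univ) ⟨hx, mem_univ _⟩
        (Sum.elim
          (fun i q => ∏ j, (((i : ℕ) : ℂ) - q.2 j) - ∏ j, (((i : ℕ) : ℂ) - r q.1 j))
          (fun ι q => ∏ p ∈ (Finset.univ : Finset (Fin m)).offDiag, (q.2 (ι p.1) - q.2 (ι p.2))))
        ?_ ?_
      · rintro (i | ι)
        · refine DifferentiableOn.sub ?_ ?_
          · exact (t2a_aux_dprod (T := T × (Fin d → ℂ)) _
              (f := fun j q => ((i : ℕ) : ℂ) - q.2 j) fun j _ => by fun_prop).differentiableOn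
          · exact (hr (ContinuousLinearMap.id ℂ ℂ) ((i : ℕ) : ℂ)).comp (f := Prod.fst)
              differentiableOn_fst fun q hq => hq.1
        · exact (t2a_aux_dprod (T := T × (Fin d → ℂ)) _
            (f := fun (p : Fin m × Fin m) q => q.2 (ι p.1) - q.2 (ι p.2))
            fun j _ => by fun_prop).differentiableOn
      · intro y hy
        rw [Sum.forall]
        simp only [Sum.elim_inl, Sum.elim_inr, sub_eq_zero]
        exact ⟨fun h => h.2, fun h => ⟨hy.1, h⟩⟩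
  have he : (ContinuousLinearMap.fst ℂ T (Fin d → ℂ)) '' Y =
      {t | t ∈ U ∧ ∀ ι : Fin m → Fin d, ¬ Function.Injective fun k => r t (ι k)} := by
    ext t
    constructor
    · rintro ⟨q, hq, rfl⟩
      refine ⟨hq.1, fun ι hι => ?_⟩
      choose κ hκ using fun k => t2a_aux_range (fun i => (hq.2.1 i).symm) (ι k)
      refine (t2a_aux_prod fun k => q.2 (κ k)).1 (hq.2.2 κ) ?_
      have e : (fun k => q.2 (κ k)) = fun k => r q.1 (ι k) := funext fun k => (hκ k).symm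
      rw [e]
      exact hι
    · rintro ⟨ht, h⟩
      exact ⟨(t, r t), ⟨ht, fun _ => rfl, fun ι => (t2a_aux_prod fun k => r t (ι k)).2 (h ι)⟩, rfl⟩
  rw [← he]
  exact (t1 hFB).2

theorem t2a_aux_good {U : Set T} (hU : IsOpen U) {d : ℕ} {r : T → Fin d → ℂ} (hr : HM r U) {m : ℕ}
    (hmax : ∀ t ∈ U, ∀ ι : Fin (m + 1) → Fin d, ¬ Function.Injective fun k => r t (ι k))
    {t₁ : T} (ht₁ : t₁ ∈ U) {ι : Fin m → Fin d} (hι : Function.Injective fun k => r t₁ (ι k)) :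
    Good {q : T × ℂ | ∃ j, q.2 = r q.1 j} (ContinuousLinearMap.fst ℂ T ℂ) m t₁ := by
  set c : Fin m → ℂ := fun k => r t₁ (ι k) with hcdef
  obtain ⟨ρ, hρ, hsep⟩ := t2a_aux_sep hι
  set g : T × ℂ → ℂ := fun q => ∏ j, (q.2 - r q.1 j) with hgdef
  have hg : DifferentiableOn ℂ g (U ×ˢ univ) := hr.joint (ContinuousLinearMap.id ℂ ℂ)
  have hg0 : ∀ t x, g (t, x) = 0 ↔ ∃ j, x = r t j := by
    intro t x
    simp only [hgdef, Finset.prod_eq_zero_iff, Finset.mem_univ, true_and, sub_eq_zero]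
  have hdisj : ∀ k l x, x ∈ ball (c k) ρ → x ∈ ball (c l) ρ → k = l := by
    intro k l x hk hl
    by_contra hkl
    have h1 := hsep k l hkl
    have h2 := dist_triangle_left (c k) (c l) x
    rw [mem_ball] at hk hl
    linarith
  have hev : ∀ᶠ t in 𝓝 t₁, ∀ k, ∀ x ∈ sphere (c k) ρ, g (t, x) ≠ 0 := by
    refine eventually_all.2 fun k => ?_
    refine (isCompact_sphere (c k) ρ).eventually_forall_of_forall_eventually
      (P := fun t x => g (t, x) ≠ 0) fun x hx => ?_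
    have hne : g (t₁, x) ≠ 0 := by
      intro h0
      obtain ⟨j, hj⟩ := (hg0 _ _).1 h0
      obtain ⟨l, hl⟩ := t2a_aux_max (hmax t₁ ht₁) hι (fun k => ⟨ι k, rfl⟩) j
      have hxl : x = c l := hj.trans hl
      rw [mem_sphere, hxl] at hx
      by_cases hlk : l = k
      · rw [hlk, dist_self] at hx
        exact hρ.ne hx
      · have := hsep l k hlk
        linarith
    exact (hg.continuousOn.continuousAt
      ((hU.prod isOpen_univ).mem_nhds ⟨ht₁, mem_univ x⟩)).eventually_ne hne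
  obtain ⟨η, hη, hball⟩ := Metric.mem_nhds_iff.1 (inter_mem (hU.mem_nhds ht₁) hev)
  have hk : ∀ k, ∃ s : T → ℂ, DifferentiableOn ℂ s (ball t₁ η) ∧ ∃ (n : ℕ) (y : T → Fin n → ℂ)
      (j₀ : Fin n), (∀ t, s t = (∑ j, y t j) * (n : ℂ)⁻¹) ∧
      ∀ t ∈ ball t₁ η, ∀ x, (x ∈ ball (c k) ρ ∧ g (t, x) = 0) ↔ ∃ j, x = y t j := by
    intro k
    obtain ⟨n, y, h1, h2⟩ := roots (U := ball t₁ η) isOpen_ball (convex_ball _ _).isPreconnected
      (c₀ := c k) hρ (lt_add_one ρ) (g := g)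
      (hg.mono fun q hq => ⟨(hball hq.1).1, mem_univ _⟩) fun t ht => (hball ht).2 k
    obtain ⟨j₀, -⟩ := (h1 t₁ (mem_ball_self hη) (c k)).1
      ⟨mem_ball_self hρ, (hg0 _ _).2 ⟨ι k, rfl⟩⟩
    exact ⟨fun t => (∑ j, y t j) * (n : ℂ)⁻¹, (h2 Prod.snd differentiableOn_snd).1.mul_const _,
      n, y, j₀, fun _ => rfl, h1⟩
  choose s hs n y j₀ hsy hy using hk
  have hx : ∀ t ∈ ball t₁ η, ∀ k j, y k t j ∈ ball (c k) ρ ∧ ∃ i, y k t j = r t i := by
    intro t ht k j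
    have := (hy k t ht (y k t j)).2 ⟨j, rfl⟩
    exact ⟨this.1, (hg0 _ _).1 this.2⟩
  have hinj : ∀ t ∈ ball t₁ η, Function.Injective fun k => y k t (j₀ k) := by
    intro t ht k l hkl
    refine hdisj k l (y k t (j₀ k)) (hx t ht k _).1 ?_
    have e : y k t (j₀ k) = y l t (j₀ l) := hkl
    rw [e]
    exact (hx t ht l _).1
  have hall : ∀ t ∈ ball t₁ η, ∀ i, ∃ k, r t i = y k t (j₀ k) := fun t ht i =>
    t2a_aux_max (hmax t (hball ht).1) (hinj t ht) (fun k => (hx t ht k _).2) i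
  have hse : ∀ t ∈ ball t₁ η, ∀ k, s k t = y k t (j₀ k) := by
    intro t ht k
    have hc : ∀ j, y k t j = y k t (j₀ k) := by
      intro j
      obtain ⟨i, hi⟩ := (hx t ht k j).2
      obtain ⟨l, hl⟩ := hall t ht i
      have hkl : k = l := hdisj k l (y k t j) (hx t ht k j).1 (by
        rw [hi, hl]; exact (hx t ht l _).1)
      subst hkl
      exact hi.trans hl
    have hn : ((n k : ℕ) : ℂ) ≠ 0 := Nat.cast_ne_zero.2 (Fin.pos (j₀ k)).ne'
    rw [hsy, Finset.sum_congr rfl fun j _ => hc j, Finset.sum_const, Finset.card_univ,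
      Fintype.card_fin, nsmul_eq_mul, mul_right_comm, mul_inv_cancel₀ hn, one_mul]
  refine ⟨ball t₁ η, isOpen_ball, mem_ball_self hη, fun k t => (t, s k t),
    fun k => differentiableOn_id.prodMk (hs k), fun _ _ _ => rfl, fun t ht k l hkl => ?_,
    fun x hx' => ?_⟩
  · refine hinj t ht ?_
    have e : s k t = s l t := congrArg Prod.snd hkl
    rwa [hse t ht, hse t ht] at e
  · have hx1 : x.1 ∈ ball t₁ η := hx'
    constructor
    · rintro ⟨i, hi⟩
      obtain ⟨k, hk⟩ := hall _ hx1 i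
      exact ⟨k, Prod.ext rfl (hi.trans (hk.trans (hse _ hx1 k).symm))⟩
    · rintro ⟨k, hk⟩
      obtain ⟨i, hi⟩ := (hx _ hx1 k (j₀ k)).2
      exact ⟨i, (congrArg Prod.snd hk).trans ((hse _ hx1 k).trans hi)⟩

theorem t2_scalar {U : Set T} (hU : IsOpen U) (hc : IsPreconnected U)
    (hbU : Bornology.IsBounded U) {d : ℕ} {r : T → Fin d → ℂ} (hr : HM r U) {M : ℝ}
    (hb : ∀ t ∈ U, ∀ j, ‖r t j‖ ≤ M) :
    ∃ σ : Set T, (∀ t ∈ U, AnAt σ t) ∧ Neg σ U ∧ ∀ t ∈ U \ σ, ∃ d',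
      Good {q : T × ℂ | ∃ j, q.2 = r q.1 j} (ContinuousLinearMap.fst ℂ T ℂ) d' t := by
  classical
  rcases U.eq_empty_or_nonempty with rfl | ⟨t₀, ht₀⟩
  · exact ⟨∅, fun _ h => h.elim, neg_empty _, fun _ h => h.1.elim⟩
  let P : ℕ → Prop := fun m => ∃ t ∈ U, ∃ ι : Fin m → Fin d, Function.Injective fun k => r t (ι k)
  have hP0 : P 0 := ⟨t₀, ht₀, Fin.elim0, fun k => k.elim0⟩
  have hPd : ∀ m, P m → m ≤ d := by
    rintro m ⟨t, -, ι, hι⟩
    simpa using Fintype.card_le_of_injective ι (Function.Injective.of_comp (f := r t) hι)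
  have hm : P (Nat.findGreatest P d) := Nat.findGreatest_spec (Nat.zero_le d) hP0
  have hmax : ¬ P (Nat.findGreatest P d + 1) := fun h =>
    Nat.findGreatest_is_greatest (Nat.lt_succ_self _) (hPd _ h) h
  set m := Nat.findGreatest P d
  have han := t2a_aux_an hU hbU hr hb m
  refine ⟨_, han, (an_dich hU hc han).resolve_left fun h => ?_, fun t ht => ⟨m, ?_⟩⟩
  · obtain ⟨t, ht, ι, hι⟩ := hm
    exact (h ht).2 ι hι
  · have : ∃ ι : Fin m → Fin d, Function.Injective fun k => r t (ι k) := by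
      by_contra hn
      exact ht.2 ⟨ht.1, fun ι hι => hn ⟨ι, hι⟩⟩
    obtain ⟨ι, hι⟩ := this
    exact t2a_aux_good hU hr (fun t ht ι hι => hmax ⟨t, ht, ι, hι⟩) ht.1 hι

end Pool.Agent.Lib.MP_823829_an
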