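import Pool.Agent.Lib.MP_823829_an.LT
import Pool.Agent.Lib.MP_823829_an.MShell
import Pool.Agent.Lib.MP_823829_an.Ego

/-! Extension from a Hartogs figure outside a polar set of the base. -/

namespace Pool.Agent.Lib.MP_823829_an

open Set Metric Filter MeasureTheory
open scoped Topology ENNReal NNReal ContDiff ComplexConjugate

variable {X : Type*} [TopologicalSpace X] [T2Space X] [CompactSpace X] [Nonempty X] {m : ℕ}
  {a : Atl X m}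

/-- The points of the base near which the map extends to the full bidisc. -/
def ut_aux_U (a : Atl X m) (R₀ r : ℝ) (Γ : Set (C4 × X)) : Set C2 :=
  {s | ∃ N : Set C2, IsOpen N ∧ s ∈ N ∧ N ⊆ ball 0 R₀ ∧ ∃ G : Set (C4 × X),
    MG a (N ×ˢ ball 0 1) G ∧ Agree G Γ (N ×ˢ shell r 1)}

omit [T2Space X] [CompactSpace X] [Nonempty X] in
theorem ut_aux_open (R₀ r : ℝ) (Γ : Set (C4 × X)) : IsOpen (ut_aux_U a R₀ r Γ) := by
  rw [isOpen_iff_mem_nhds]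
  rintro s ⟨N, hN, hs, h⟩
  exact mem_of_superset (hN.mem_nhds hs) fun s' hs' => ⟨N, hN, hs', h⟩

omit [TopologicalSpace X] [T2Space X] [CompactSpace X] [Nonempty X] in
theorem ut_aux_res {Γ : Set (C4 × X)} {D : Set C4} {t : C4} (ht : t ∈ D) (x : X) :
    (t, x) ∈ res Γ D ↔ (t, x) ∈ Γ := ⟨fun h => h.1, fun h => ⟨h, ht⟩⟩

theorem ut_aux_glue {R₀ r : ℝ} (hr : 0 < r) (hr1 : r < 1) (Γ : Set (C4 × X)) :
    ∃ Γ' : Set (C4 × X), MG a (ut_aux_U a R₀ r Γ ×ˢ ball 0 1) Γ' ∧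
      Agree Γ' Γ (ut_aux_U a R₀ r Γ ×ˢ shell r 1) := by
  have hex : ∀ s : ut_aux_U a R₀ r Γ, ∃ (N : Set C2) (G : Set (C4 × X)), IsOpen N ∧ s.1 ∈ N ∧
      N ⊆ ball 0 R₀ ∧ MG a (N ×ˢ ball 0 1) G ∧ Agree G Γ (N ×ˢ shell r 1) := by
    rintro ⟨s, N, h1, h2, h3, G, h4, h5⟩
    exact ⟨N, G, h1, h2, h3, h4, h5⟩
  choose N G h1 h2 h3 h4 h5 using hex
  obtain ⟨hM, hA⟩ := mg_glue (D := fun s => N s ×ˢ ball (0 : C2) 1) (Γ := G) h4 fun i j =>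
    agree_prod hr hr1 (h1 i) (h1 j) (h4 i) (h4 j) fun t ht x =>
      (h5 i t ⟨ht.1.1, ht.2⟩ x).trans (h5 j t ⟨ht.1.2, ht.2⟩ x).symm
  have e : (⋃ s, N s ×ˢ ball (0 : C2) 1) = ut_aux_U a R₀ r Γ ×ˢ ball (0 : C2) 1 := by
    ext t
    simp only [mem_iUnion, mem_prod]
    constructor
    · rintro ⟨s, hs, ht⟩
      exact ⟨⟨N s, h1 s, hs, h3 s, G s, h4 s, h5 s⟩, ht⟩
    · rintro ⟨hs, ht⟩
      exact ⟨⟨t.1, hs⟩, h2 ⟨t.1, hs⟩, ht⟩
  rw [e] at hM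
  refine ⟨_, hM, fun t ht x => ?_⟩
  exact (hA ⟨t.1, ht.1⟩ t ⟨h2 ⟨t.1, ht.1⟩, shell_subset _ _ ht.2⟩ x).trans
    (h5 ⟨t.1, ht.1⟩ t ⟨h2 ⟨t.1, ht.1⟩, ht.2⟩ x)

theorem ut_aux_tube {O : Set C4} (hO : IsOpen O) {R₀ r ρ : ℝ} {s : C2} (hs : s ∈ ball (0 : C2) R₀)
    (h1 : r < ρ) (h2 : ρ < 1) (h : ∀ w : C2, ‖w‖ = ρ → (s, w) ∈ O) :
    ∃ ε : ℝ, 0 < ε ∧ ball s ε ⊆ ball 0 R₀ ∧ r < ρ - ε ∧ ρ + ε < 1 ∧
      ball s ε ×ˢ shell (ρ - ε) (ρ + ε) ⊆ O := by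
  have hev : ∀ᶠ z : C2 × ℝ in 𝓝 (s, ρ), ∀ w ∈ closedBall (0 : C2) 1, ‖w‖ = z.2 → (z.1, w) ∈ O := by
    refine (isCompact_closedBall (0 : C2) 1).eventually_forall_of_forall_eventually
      (P := fun (z : C2 × ℝ) w => ‖w‖ = z.2 → (z.1, w) ∈ O) fun w _ => ?_
    by_cases hw : ‖w‖ = ρ
    · have hc : Continuous fun q : (C2 × ℝ) × C2 => (q.1.1, q.2) := by fun_prop
      filter_upwards [(hO.preimage hc).mem_nhds (x := ((s, ρ), w)) (h w hw)] with q hq _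
      exact hq
    · have ho : IsOpen {q : (C2 × ℝ) × C2 | ‖q.2‖ ≠ q.1.2} :=
        isOpen_ne_fun (by fun_prop) (by fun_prop)
      filter_upwards [ho.mem_nhds (x := ((s, ρ), w)) hw] with q hq hq'
      exact absurd hq' hq
  have hb : ∀ᶠ z : C2 × ℝ in 𝓝 (s, ρ), z.1 ∈ ball (0 : C2) R₀ :=
    continuousAt_fst (isOpen_ball.mem_nhds hs)
  obtain ⟨δ, hδ, hball⟩ := Metric.mem_nhds_iff.1 (hev.and hb)
  rw [← ball_prod_same] at hball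
  set ε := min δ (min ((ρ - r) / 2) ((1 - ρ) / 2)) with hε
  have e1 : ε ≤ δ := min_le_left _ _
  have e2 : ε ≤ (ρ - r) / 2 := (min_le_right _ _).trans (min_le_left _ _)
  have e3 : ε ≤ (1 - ρ) / 2 := (min_le_right _ _).trans (min_le_right _ _)
  have e0 : 0 < ε := lt_min hδ (lt_min (by linarith) (by linarith))
  refine ⟨ε, e0, fun z hz => ?_, by linarith, by linarith, fun t ht => ?_⟩
  · exact (hball (a := (z, ρ)) ⟨ball_subset_ball e1 hz, mem_ball_self hδ⟩).2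
  · obtain ⟨a1, a2⟩ := mem_shell.1 ht.2
    refine (hball (a := (t.1, ‖t.2‖)) ⟨ball_subset_ball e1 ht.1, ?_⟩).1 t.2 ?_ rfl
    · rw [mem_ball, Real.dist_eq, abs_lt]
      constructor <;> linarith
    · rw [mem_closedBall_zero_iff]
      linarith

theorem ut_aux_iff {r₀ R₀ r ρ₁ ρ₂ : ℝ} (hr : 0 < r) (h1 : r < ρ₁) (h12 : ρ₁ < ρ₂) (h2 : ρ₂ < 1)
    {Γ : Set (C4 × X)} (h : MG a (hart r₀ R₀ r) Γ) {V : Set C2} (hV : IsOpen V)
    (hVR : V ⊆ ball 0 R₀) (hreg : V ×ˢ shell ρ₁ ρ₂ ⊆ reg a Γ) {s : C2} (hs : s ∈ V) :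
    ExtN a (gf Γ) ρ₁ ρ₂ s ↔ s ∈ ut_aux_U a R₀ r Γ := by
  have hsh : ∀ w ∈ shell ρ₁ 1, w ∈ shell r 1 := fun w hw =>
    mem_shell.2 ⟨h1.trans (mem_shell.1 hw).1, (mem_shell.1 hw).2⟩
  have hsh2 : ∀ w ∈ shell ρ₁ ρ₂, w ∈ shell ρ₁ 1 := fun w hw =>
    mem_shell.2 ⟨(mem_shell.1 hw).1, (mem_shell.1 hw).2.trans h2⟩
  constructor
  · rintro ⟨N, hN, hsN, G, hG, hA⟩
    obtain ⟨η, hη, hb⟩ := Metric.mem_nhds_iff.1 ((hN.inter hV).mem_nhds ⟨hsN, hs⟩)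
    have hG1 := hG.restrict (U := ball s η ×ˢ ball 0 ρ₂) (isOpen_ball.prod isOpen_ball)
      (prod_mono (fun z hz => (hb hz).1) Subset.rfl)
    have hG2 := h.restrict (U := ball s η ×ˢ shell ρ₁ 1) (isOpen_ball.prod (isOpen_shell _ _))
      fun t ht => Or.inr ⟨hVR (hb ht.1).2, hsh _ ht.2⟩
    obtain ⟨hM, -, hA2⟩ := hG1.union hG2 fun t ht x => by
      have hw : t.2 ∈ shell ρ₁ ρ₂ :=
        mem_shell.2 ⟨(mem_shell.1 ht.2.2).1, mem_ball_zero_iff.1 ht.1.2⟩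
      rw [ut_aux_res ht.1, ut_aux_res ht.2, hA t ⟨(hb ht.1.1).1, hw⟩ x]
      exact ((graphOn_reg Γ).2 t (hreg ⟨(hb ht.1.1).2, hw⟩) x).symm
    have e : ball s η ×ˢ ball (0 : C2) ρ₂ ∪ ball s η ×ˢ shell ρ₁ 1 = ball s η ×ˢ ball (0 : C2) 1 := by
      ext t
      constructor
      · rintro (ht | ht)
        · exact ⟨ht.1, ball_subset_ball h2.le ht.2⟩
        · exact ⟨ht.1, shell_subset _ _ ht.2⟩
      · intro ht
        by_cases hw : ‖t.2‖ < ρ₂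
        · exact Or.inl ⟨ht.1, mem_ball_zero_iff.2 hw⟩
        · exact Or.inr ⟨ht.1, mem_shell.2 ⟨h12.trans_le (not_lt.1 hw), mem_ball_zero_iff.1 ht.2⟩⟩
    rw [e] at hM
    refine ⟨ball s η, isOpen_ball, mem_ball_self hη, fun z hz => hVR (hb hz).2, _, hM, ?_⟩
    refine hM.agree h (isOpen_ball.prod (isOpen_shell _ _))
      ((convex_ball s η).isPreconnected.prod (isPreconnected_shell hr))
      (prod_mono Subset.rfl (shell_subset _ _))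
      (fun t ht => Or.inr ⟨hVR (hb ht.1).2, ht.2⟩) (D₀ := ball s η ×ˢ shell ρ₁ 1)
      (isOpen_ball.prod (isOpen_shell _ _))
      ((nonempty_ball.2 hη).prod (shell_nonempty (hr.trans h1) (h12.trans h2)))
      (prod_mono Subset.rfl hsh) fun t ht x => (hA2 t ht x).trans (ut_aux_res ht x)
  · rintro ⟨N, hN, hsN, -, G, hG, hA⟩
    refine ⟨N ∩ V, hN.inter hV, ⟨hsN, hs⟩, _,
      hG.restrict ((hN.inter hV).prod isOpen_ball)
        (prod_mono inter_subset_left (ball_subset_ball h2.le)), fun t ht x => ?_⟩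
    rw [ut_aux_res (D := (N ∩ V) ×ˢ ball 0 ρ₂) ⟨ht.1, shell_subset _ _ ht.2⟩,
      hA t ⟨ht.1.1, hsh _ (hsh2 _ ht.2)⟩ x]
    exact (graphOn_reg Γ).2 t (hreg ⟨ht.1.2, ht.2⟩) x

theorem ut (Ω : Frm a) {r₀ R₀ r : ℝ} (h0 : 0 < r₀) (hR : r₀ ≤ R₀) (hr : 0 < r) (hr1 : r < 1)
    {Γ : Set (C4 × X)} (h : MG a (hart r₀ R₀ r) Γ) :
    ∃ U : Set C2, IsOpen U ∧ U ⊆ ball 0 R₀ ∧ Polar (ball 0 R₀ \ U) ∧
      ∃ Γ' : Set (C4 × X), MG a (U ×ˢ ball 0 1) Γ' ∧ Agree Γ' Γ (U ×ˢ shell r 1) := by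
  set U := ut_aux_U a R₀ r Γ with hUdef
  have hU : IsOpen U := ut_aux_open R₀ r Γ
  refine ⟨U, hU, fun s ⟨N, _, h2, h3, _⟩ => h3 h2, ?_, ut_aux_glue hr hr1 Γ⟩
  have hin : ball (0 : C2) r₀ ⊆ U := fun s hs =>
    ⟨ball 0 r₀, isOpen_ball, hs, ball_subset_ball hR, _,
      h.restrict (isOpen_ball.prod isOpen_ball) fun t ht => Or.inl ht,
      fun t ht x => ut_aux_res (D := ball 0 r₀ ×ˢ ball 0 1) ⟨ht.1, shell_subset _ _ ht.2⟩ x⟩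
  set W : Set C2 := {s | s ∈ ball (0 : C2) R₀ ∧ ∃ ρ : ℝ, r < ρ ∧ ρ < 1 ∧
    ∀ w : C2, ‖w‖ = ρ → (s, w) ∈ reg a Γ} with hWdef
  have hloc : ∀ s ∈ W, ∃ V : Set C2, IsOpen V ∧ s ∈ V ∧ V ⊆ W ∧
      ((V ∩ U).Nonempty → Polar (V \ U)) := by
    rintro s ⟨hs, ρ, h1, h2, hw⟩
    obtain ⟨ε, hε, hb, e1, e2, hreg⟩ := ut_aux_tube (isOpen_reg Γ) hs h1 h2 hw
    refine ⟨ball s ε, isOpen_ball, mem_ball_self hε, fun z hz => ⟨hb hz, ρ, h1, h2, fun w hw' =>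
      hreg ⟨hz, mem_shell.2 ⟨by linarith, by linarith⟩⟩⟩, ?_⟩
    rintro ⟨z, hz, hzU⟩
    have hiff := fun z hz => ut_aux_iff (s := z) hr e1 (by linarith) e2 h isOpen_ball hb hreg hz
    refine (lt_polar Ω isOpen_ball (convex_ball s ε).isPreconnected (hr.trans e1)
      (ρ₂ := ρ + ε) (by linarith) (f := gf Γ) (fun t ht => (graphOn_reg Γ).1 t (hreg ht))
      ⟨z, hz, (hiff z hz).2 hzU⟩).mono fun y hy => ⟨hy.1, fun hE => hy.2 ((hiff y hy.1).1 hE)⟩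
  have hWo : IsOpen W := by
    rw [isOpen_iff_mem_nhds]
    intro s hs
    obtain ⟨V, hV, hsV, hVW, -⟩ := hloc s hs
    exact mem_of_superset (hV.mem_nhds hsV) hVW
  have hbad : Polar (Wᶜ ∩ ball 0 R₀) := by
    refine (shell_polar h).mono fun s hs hae => hs.1 ?_
    have hne : volume (Ioo r 1) ≠ 0 := by
      rw [Real.volume_Ioo]
      exact (ENNReal.ofReal_pos.2 (by linarith)).ne'
    obtain ⟨ρ, hρ, hp⟩ := Measure.exists_mem_of_measure_ne_zero_of_ae hne (ae_restrict_of_ae hae)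
    refine ⟨hs.2, ρ, hρ.1, hρ.2, fun w hw => hp w hw (Or.inr ⟨hs.2, mem_shell.2 ?_⟩)⟩
    rw [hw]
    exact hρ
  have eW : ball (0 : C2) R₀ \ Wᶜ = W := by
    ext s
    exact ⟨fun hs => not_not.1 hs.2, fun hs => ⟨hs.1, fun hn => hn hs⟩⟩
  have hWc : IsPreconnected W := by
    have ho : IsOpen (ball (0 : C2) R₀ \ Wᶜ) := by rw [eW]; exact hWo
    have h3 := hbad.h3 isOpen_ball ho
    have hsl : Slim (Wᶜ ∩ ball (0 : C2) R₀) := slim_of_null (by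
      rw [rd_C2, show (4 : ℝ) - 1 = 3 by norm_num]; exact h3)
    have := (conn isOpen_ball (convex_ball (0 : C2) R₀).isPreconnected ho hsl).1
    rwa [eW] at this
  have hcl : W ⊆ interior (closure U) := by
    refine hWc.subset_of_closure_inter_subset isOpen_interior ?_ ?_
    · obtain ⟨z, hz, hzn⟩ := hbad.exists_notMem isOpen_ball (nonempty_ball.2 h0 :
        (ball (0 : C2) r₀).Nonempty)
      refine ⟨z, ?_, interior_maximal subset_closure hU (hin hz)⟩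
      by_contra hzW
      exact hzn ⟨hzW, ball_subset_ball hR hz⟩
    · rintro s ⟨hs, hsW⟩
      have hs' : s ∈ closure U := closure_minimal interior_subset isClosed_closure hs
      obtain ⟨V, hV, hsV, -, hP⟩ := hloc s hsW
      have hP' := hP (mem_closure_iff.1 hs' V hV hsV)
      refine interior_maximal (fun z hz => mem_closure_iff.2 fun O hO hzO => ?_) hV hsV
      obtain ⟨y, hy, hyn⟩ := hP'.exists_notMem (hO.inter hV) ⟨z, hzO, hz⟩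
      refine ⟨y, hy.1, ?_⟩
      by_contra hyU
      exact hyn ⟨hy.2, hyU⟩
  have hWU : Polar (W \ U) := by
    refine polar_of_local fun p hp => ?_
    obtain ⟨V, hV, hpV, -, hP⟩ := hloc p hp.1
    exact ⟨V, hV.mem_nhds hpV,
      (hP (mem_closure_iff.1 (interior_subset (hcl hp.1)) V hV hpV)).mono
        fun y hy => ⟨hy.2, hy.1.2⟩⟩
  refine (hbad.union hWU).mono fun s hs => ?_
  by_cases hsW : s ∈ W
  · exact Or.inr ⟨hsW, hs.2⟩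
  · exact Or.inl ⟨hsW, hs.1⟩

end Pool.Agent.Lib.MP_823829_an
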