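import Pool.Agent.Lib.MP_823829_an.Hol

/-! Calculus of the Wirtinger derivatives. -/

namespace Pool.Agent.Lib.MP_823829_an

open Set Metric Filter MeasureTheory
open scoped Topology ENNReal NNReal ContDiff ComplexConjugate

variable {V V₂ : Type} [NormedAddCommGroup V] [NormedSpace ℂ V] [NormedSpace ℝ V]
  [IsScalarTower ℝ ℂ V] [NormedAddCommGroup V₂] [NormedSpace ℂ V₂] [NormedSpace ℝ V₂]
  [IsScalarTower ℝ ℂ V₂]

theorem wirt_aux_smul (c : ℂ) (u : V) : c • u = c.re • u + c.im • (Complex.I • u) := by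
  conv_lhs => rw [← Complex.re_add_im c]
  rw [add_smul, mul_smul, ← algebraMap_smul ℂ c.re u, ← algebraMap_smul ℂ c.im (Complex.I • u)]
  rfl

theorem wirt_aux_map (L : V →L[ℝ] ℂ) (c : ℂ) (u : V) :
    L (c • u) = (c.re : ℂ) * L u + (c.im : ℂ) * L (Complex.I • u) := by
  rw [wirt_aux_smul c u, map_add, map_smul, map_smul]
  simp

theorem wirt_aux_conj (g : V → ℂ) (y u : V) :
    fderiv ℝ (fun x => conj (g x)) y u = conj (fderiv ℝ g y u) := by
  have h := Complex.conjCLE.comp_fderiv (f := g) (x := y)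
  have h2 : (fun x => conj (g x)) = Complex.conjCLE ∘ g := by ext x; simp
  rw [h2, h]
  simp

theorem wirt_aux_hol {F : V → V₂} {y : V} (hF : DifferentiableAt ℂ F y) (u : V) :
    fderiv ℝ F y u = fderiv ℂ F y u := by
  rw [(hF.hasFDerivAt.restrictScalars ℝ).fderiv]
  rfl

theorem wirt_aux_comp {b : V₂ → ℂ} {F : V → V₂} {t : V} (hb : DifferentiableAt ℝ b (F t))
    (hF : DifferentiableAt ℂ F t) (u : V) :
    fderiv ℝ (fun x => b (F x)) t u = fderiv ℝ b (F t) (fderiv ℂ F t u) := by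
  have h : HasFDerivAt (fun x => b (F x)) _ t :=
    hb.hasFDerivAt.comp t (hF.hasFDerivAt.restrictScalars ℝ)
  rw [h.fderiv]
  rfl

theorem wirt_aux_ofReal {q : V → ℝ} {y : V} (hq : DifferentiableAt ℝ q y) (u : V) :
    fderiv ℝ (fun x => ((q x : ℝ) : ℂ)) y u = ((fderiv ℝ q y u : ℝ) : ℂ) := by
  have h : HasFDerivAt (fun x => ((q x : ℝ) : ℂ)) _ y :=
    Complex.ofRealCLM.hasFDerivAt.comp y hq.hasFDerivAt
  rw [h.fderiv]
  rfl

theorem wirt_aux_hasfd2 {g : V → ℂ} {y : V} (hg : ContDiffAt ℝ 2 g y) (v : V) :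
    HasFDerivAt (fun x => fderiv ℝ g x v) ((fderiv ℝ (fderiv ℝ g) y).flip v) y := by
  have h : DifferentiableAt ℝ (fderiv ℝ g) y :=
    (hg.fderiv_right (m := 1) (by norm_num)).differentiableAt (by simp)
  have h2 := h.hasFDerivAt.clm_apply (hasFDerivAt_const v y)
  simpa using h2

theorem wirt_aux_fd2 {g : V → ℂ} {y : V} (hg : ContDiffAt ℝ 2 g y) (u v : V) :
    fderiv ℝ (fun x => fderiv ℝ g x v) y u = fderiv ℝ (fderiv ℝ g) y u v := by
  rw [(wirt_aux_hasfd2 hg v).fderiv]
  rfl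

theorem wirt_aux_fdA {g : V → ℂ} {y : V} (hg : ContDiffAt ℝ 2 g y) (v u : V) :
    fderiv ℝ (fun x => dA g x v) y u = (fderiv ℝ (fderiv ℝ g) y u v +
      Complex.I * fderiv ℝ (fderiv ℝ g) y u (Complex.I • v)) / 2 := by
  have h := ((wirt_aux_hasfd2 hg v).add
    ((wirt_aux_hasfd2 hg (Complex.I • v)).const_mul Complex.I)).mul_const (2⁻¹ : ℂ)
  have h2 : (fun x => dA g x v) = fun x => (fderiv ℝ g x v +
      Complex.I * fderiv ℝ g x (Complex.I • v)) * 2⁻¹ := by
    ext x; rw [dA, div_eq_mul_inv]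
  rw [h2]
  erw [h.fderiv]
  simp
  ring

theorem wirt_aux_fdH {g : V → ℂ} {y : V} (hg : ContDiffAt ℝ 2 g y) (v u : V) :
    fderiv ℝ (fun x => dH g x v) y u = (fderiv ℝ (fderiv ℝ g) y u v -
      Complex.I * fderiv ℝ (fderiv ℝ g) y u (Complex.I • v)) / 2 := by
  have h := ((wirt_aux_hasfd2 hg v).sub
    ((wirt_aux_hasfd2 hg (Complex.I • v)).const_mul Complex.I)).mul_const (2⁻¹ : ℂ)
  have h2 : (fun x => dH g x v) = fun x => (fderiv ℝ g x v -
      Complex.I * fderiv ℝ g x (Complex.I • v)) * 2⁻¹ := by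
    ext x; rw [dH, div_eq_mul_inv]
  rw [h2]
  erw [h.fderiv]
  simp
  ring

theorem dH_add_dir (g : V → ℂ) (y u u' : V) : dH g y (u + u') = dH g y u + dH g y u' := by
  simp only [dH, smul_add, map_add]; ring

theorem dH_smul_dir (g : V → ℂ) (y : V) (c : ℂ) (u : V) : dH g y (c • u) = c * dH g y u := by
  simp only [dH]
  rw [smul_smul, wirt_aux_map _ c u, wirt_aux_map _ (Complex.I * c) u]
  simp only [Complex.mul_re, Complex.mul_im, Complex.I_re, Complex.I_im]
  push_cast
  conv_rhs => rw [← Complex.re_add_im c]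
  linear_combination ((c.im : ℂ) * (fderiv ℝ g y) (Complex.I • u) / 2) * Complex.I_mul_I

theorem dA_add_dir (g : V → ℂ) (y u u' : V) : dA g y (u + u') = dA g y u + dA g y u' := by
  simp only [dA, smul_add, map_add]; ring

theorem dA_smul_dir (g : V → ℂ) (y : V) (c : ℂ) (u : V) :
    dA g y (c • u) = conj c * dA g y u := by
  simp only [dA]
  rw [smul_smul, wirt_aux_map _ c u, wirt_aux_map _ (Complex.I * c) u]
  simp only [Complex.mul_re, Complex.mul_im, Complex.I_re, Complex.I_im]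
  push_cast
  have hc : conj c = (c.re : ℂ) - c.im * Complex.I := by
    apply Complex.ext <;> simp
  rw [hc]
  linear_combination ((c.im : ℂ) * (fderiv ℝ g y) (Complex.I • u) / 2) * Complex.I_mul_I

theorem dH_expand {κ : Type} [Fintype κ] (b : Module.Basis κ ℂ V) (g : V → ℂ) (y u : V) :
    dH g y u = ∑ a, dH g y (b a) * b.repr u a := by
  classical
  have h0 : dH g y 0 = 0 := by simp [dH]
  have hs : ∀ (s : Finset κ) (w : κ → V), dH g y (∑ a ∈ s, w a) = ∑ a ∈ s, dH g y (w a) := by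
    intro s w
    induction s using Finset.induction_on with
    | empty => simpa using h0
    | insert a s ha ih => rw [Finset.sum_insert ha, Finset.sum_insert ha, dH_add_dir, ih]
  conv_lhs => rw [← b.sum_repr u]
  rw [hs]
  exact Finset.sum_congr rfl fun a _ => by rw [dH_smul_dir, mul_comm]

theorem dA_expand {κ : Type} [Fintype κ] (b : Module.Basis κ ℂ V) (g : V → ℂ) (y u : V) :
    dA g y u = ∑ a, dA g y (b a) * conj (b.repr u a) := by
  classical
  have h0 : dA g y 0 = 0 := by simp [dA]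
  have hs : ∀ (s : Finset κ) (w : κ → V), dA g y (∑ a ∈ s, w a) = ∑ a ∈ s, dA g y (w a) := by
    intro s w
    induction s using Finset.induction_on with
    | empty => simpa using h0
    | insert a s ha ih => rw [Finset.sum_insert ha, Finset.sum_insert ha, dA_add_dir, ih]
  conv_lhs => rw [← b.sum_repr u]
  rw [hs]
  exact Finset.sum_congr rfl fun a _ => by rw [dA_smul_dir, mul_comm]

theorem dH_add_dA (g : V → ℂ) (y u : V) : dH g y u + dA g y u = fderiv ℝ g y u := by
  simp only [dH, dA]; ring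

theorem dH_congr {g g' : V → ℂ} {y : V} (h : g =ᶠ[𝓝 y] g') (u : V) : dH g y u = dH g' y u := by
  simp only [dH, h.fderiv_eq]

theorem dA_congr {g g' : V → ℂ} {y : V} (h : g =ᶠ[𝓝 y] g') (u : V) : dA g y u = dA g' y u := by
  simp only [dA, h.fderiv_eq]

theorem dH_const (c : ℂ) (y u : V) : dH (fun _ => c) y u = 0 := by
  simp [dH]

theorem dA_const (c : ℂ) (y u : V) : dA (fun _ => c) y u = 0 := by
  simp [dA]

theorem dH_add {f g : V → ℂ} {y : V} (hf : DifferentiableAt ℝ f y) (hg : DifferentiableAt ℝ g y)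
    (u : V) : dH (fun x => f x + g x) y u = dH f y u + dH g y u := by
  simp only [dH, fderiv_fun_add hf hg, add_apply]; ring

theorem dA_add {f g : V → ℂ} {y : V} (hf : DifferentiableAt ℝ f y) (hg : DifferentiableAt ℝ g y)
    (u : V) : dA (fun x => f x + g x) y u = dA f y u + dA g y u := by
  simp only [dA, fderiv_fun_add hf hg, add_apply]; ring

theorem dH_mul {f g : V → ℂ} {y : V} (hf : DifferentiableAt ℝ f y) (hg : DifferentiableAt ℝ g y)
    (u : V) : dH (fun x => f x * g x) y u = dH f y u * g y + f y * dH g y u := by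
  simp only [dH, fderiv_fun_mul hf hg, add_apply,
    smul_apply, smul_eq_mul]; ring

theorem dA_mul {f g : V → ℂ} {y : V} (hf : DifferentiableAt ℝ f y) (hg : DifferentiableAt ℝ g y)
    (u : V) : dA (fun x => f x * g x) y u = dA f y u * g y + f y * dA g y u := by
  simp only [dA, fderiv_fun_mul hf hg, add_apply,
    smul_apply, smul_eq_mul]; ring

theorem dH_sum {ι : Type} (s : Finset ι) {f : ι → V → ℂ} {y : V}
    (hf : ∀ i ∈ s, DifferentiableAt ℝ (f i) y) (u : V) :
    dH (fun x => ∑ i ∈ s, f i x) y u = ∑ i ∈ s, dH (f i) y u := by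
  simp only [dH, fderiv_fun_sum hf, sum_apply, Finset.mul_sum,
    ← Finset.sum_sub_distrib, Finset.sum_div]

theorem dA_sum {ι : Type} (s : Finset ι) {f : ι → V → ℂ} {y : V}
    (hf : ∀ i ∈ s, DifferentiableAt ℝ (f i) y) (u : V) :
    dA (fun x => ∑ i ∈ s, f i x) y u = ∑ i ∈ s, dA (f i) y u := by
  simp only [dA, fderiv_fun_sum hf, sum_apply, Finset.mul_sum,
    ← Finset.sum_add_distrib, Finset.sum_div]

theorem dH_conj (g : V → ℂ) (y u : V) : dH (fun x => conj (g x)) y u = conj (dA g y u) := by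
  simp only [dH, dA, wirt_aux_conj, map_div₀, map_add, map_mul, Complex.conj_I, map_ofNat]
  ring

theorem dA_conj (g : V → ℂ) (y u : V) : dA (fun x => conj (g x)) y u = conj (dH g y u) := by
  simp only [dH, dA, wirt_aux_conj, map_div₀, map_sub, map_mul, Complex.conj_I, map_ofNat]
  ring

theorem dH_hol {g : V → ℂ} {y : V} (hg : DifferentiableAt ℂ g y) (u : V) :
    dH g y u = fderiv ℂ g y u := by
  simp only [dH, wirt_aux_hol hg, map_smul, smul_eq_mul]
  linear_combination (-(fderiv ℂ g y u) / 2) * Complex.I_mul_I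

theorem dA_hol {g : V → ℂ} {y : V} (hg : DifferentiableAt ℂ g y) (u : V) : dA g y u = 0 := by
  simp only [dA, wirt_aux_hol hg, map_smul, smul_eq_mul]
  linear_combination ((fderiv ℂ g y u) / 2) * Complex.I_mul_I

theorem dH_comp {b : V₂ → ℂ} {F : V → V₂} {t : V} (hb : DifferentiableAt ℝ b (F t))
    (hF : DifferentiableAt ℂ F t) (u : V) :
    dH (fun x => b (F x)) t u = dH b (F t) (fderiv ℂ F t u) := by
  simp only [dH, wirt_aux_comp hb hF, map_smul]

theorem dA_comp {b : V₂ → ℂ} {F : V → V₂} {t : V} (hb : DifferentiableAt ℝ b (F t))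
    (hF : DifferentiableAt ℂ F t) (u : V) :
    dA (fun x => b (F x)) t u = dA b (F t) (fderiv ℂ F t u) := by
  simp only [dA, wirt_aux_comp hb hF, map_smul]

/-- Chain rule for a real function of a real valued function. -/
theorem dH_real_comp {κ : ℝ → ℝ} {q : V → ℝ} {y : V} (hκ : DifferentiableAt ℝ κ (q y))
    (hq : DifferentiableAt ℝ q y) (u : V) :
    dH (fun x => ((κ (q x) : ℝ) : ℂ)) y u =
      ((deriv κ (q y) : ℝ) : ℂ) * dH (fun x => ((q x : ℝ) : ℂ)) y u := by
  have h1 : HasFDerivAt (fun x => κ (q x)) (deriv κ (q y) • fderiv ℝ q y) y :=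
    hκ.hasDerivAt.comp_hasFDerivAt y hq.hasFDerivAt
  simp only [dH, wirt_aux_ofReal h1.differentiableAt, wirt_aux_ofReal hq, h1.fderiv,
    smul_apply, smul_eq_mul]
  push_cast; ring

theorem norm_dH_le (g : V → ℂ) (y u : V) : ‖dH g y u‖ ≤ ‖fderiv ℝ g y‖ * ‖u‖ := by
  have h1 := (fderiv ℝ g y).le_opNorm u
  have h2 := (fderiv ℝ g y).le_opNorm (Complex.I • u)
  rw [norm_smul, Complex.norm_I, one_mul] at h2
  have h3 := norm_sub_le (fderiv ℝ g y u) (Complex.I * fderiv ℝ g y (Complex.I • u))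
  rw [norm_mul, Complex.norm_I, one_mul] at h3
  rw [dH, norm_div, Complex.norm_ofNat]
  linarith

theorem norm_dA_le (g : V → ℂ) (y u : V) : ‖dA g y u‖ ≤ ‖fderiv ℝ g y‖ * ‖u‖ := by
  have h1 := (fderiv ℝ g y).le_opNorm u
  have h2 := (fderiv ℝ g y).le_opNorm (Complex.I • u)
  rw [norm_smul, Complex.norm_I, one_mul] at h2
  have h3 := norm_add_le (fderiv ℝ g y u) (Complex.I * fderiv ℝ g y (Complex.I • u))
  rw [norm_mul, Complex.norm_I, one_mul] at h3
  rw [dA, norm_div, Complex.norm_ofNat]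
  linarith

theorem contDiffAt_dH {g : V → ℂ} {y : V} {n k : WithTop ℕ∞} (hg : ContDiffAt ℝ k g y)
    (hn : n + 1 ≤ k) (u : V) : ContDiffAt ℝ n (fun x => dH g x u) y := by
  have h := hg.fderiv_right hn
  exact ((h.clm_apply contDiffAt_const).sub
    (contDiffAt_const.mul (h.clm_apply contDiffAt_const))).div_const 2

theorem contDiffAt_dA {g : V → ℂ} {y : V} {n k : WithTop ℕ∞} (hg : ContDiffAt ℝ k g y)
    (hn : n + 1 ≤ k) (u : V) : ContDiffAt ℝ n (fun x => dA g x u) y := by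
  have h := hg.fderiv_right hn
  exact ((h.clm_apply contDiffAt_const).add
    (contDiffAt_const.mul (h.clm_apply contDiffAt_const))).div_const 2

theorem tsupport_dH (g : V → ℂ) (u : V) : tsupport (fun x => dH g x u) ⊆ tsupport g := by
  refine closure_minimal (fun x hx => ?_) (isClosed_tsupport g)
  by_contra h
  apply hx
  show dH g x u = 0
  rw [dH_congr (notMem_tsupport_iff_eventuallyEq.1 h) u]
  exact dH_const 0 x u

theorem tsupport_dA (g : V → ℂ) (u : V) : tsupport (fun x => dA g x u) ⊆ tsupport g := by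
  refine closure_minimal (fun x hx => ?_) (isClosed_tsupport g)
  by_contra h
  apply hx
  show dA g x u = 0
  rw [dA_congr (notMem_tsupport_iff_eventuallyEq.1 h) u]
  exact dA_const 0 x u

theorem dH_dA_comm {g : V → ℂ} {y : V} (hg : ContDiffAt ℝ 2 g y) (u v : V) :
    dH (fun x => dA g x v) y u = dA (fun x => dH g x u) y v := by
  have hs := hg.isSymmSndFDerivAt (by simp)
  rw [dH, dA, wirt_aux_fdA hg, wirt_aux_fdA hg, wirt_aux_fdH hg, wirt_aux_fdH hg,
    hs.eq v u, hs.eq v (Complex.I • u), hs.eq (Complex.I • v) u,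
    hs.eq (Complex.I • v) (Complex.I • u)]
  ring

theorem lap_eq_dH_dA {φ : C2 → ℝ} {z : C2} (hφ : ContDiffAt ℝ 2 φ z) :
    ((lap φ z : ℝ) : ℂ) =
      4 * ∑ j : Fin 2, dH (fun y => dA (fun x => ((φ x : ℝ) : ℂ)) y (e2 j)) z (e2 j) := by
  have hΦ : ContDiffAt ℝ 2 (fun x => ((φ x : ℝ) : ℂ)) z :=
    Complex.ofRealCLM.contDiff.contDiffAt.comp z hφ
  have hs := hΦ.isSymmSndFDerivAt (by simp)
  have hd : ∀ v : C2, ((d2 φ z v : ℝ) : ℂ) =
      fderiv ℝ (fderiv ℝ (fun x => ((φ x : ℝ) : ℂ))) z v v := by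
    intro v
    have h1 : DifferentiableAt ℝ (fun y => fderiv ℝ φ y v) z :=
      (((hφ.fderiv_right (m := 1) (by norm_num)).clm_apply
        (contDiffAt_const (c := v)))).differentiableAt (by simp)
    rw [d2, ← wirt_aux_ofReal h1, ← wirt_aux_fd2 hΦ]
    congr 1
    refine Filter.EventuallyEq.fderiv_eq ?_
    filter_upwards [hφ.eventually (by simp)] with x hx
    rw [wirt_aux_ofReal (hx.differentiableAt (by simp))]
  rw [lap, Finset.mul_sum]
  push_cast
  refine Finset.sum_congr rfl fun j _ => ?_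
  rw [hd, hd, dH, wirt_aux_fdA hΦ, wirt_aux_fdA hΦ, hs.eq (Complex.I • e2 j) (e2 j)]
  linear_combination (fderiv ℝ (fderiv ℝ (fun x => ((φ x : ℝ) : ℂ))) z (Complex.I • e2 j)
    (Complex.I • e2 j)) * Complex.I_mul_I

theorem ddbar_congr {W W' : V → V → V → V → V → ℂ} {y : V} (h : W =ᶠ[𝓝 y] W')
    (u v : Fin 3 → V) : ddbar W y u v = ddbar W' y u v := by
  refine Finset.sum_congr rfl fun i _ => Finset.sum_congr rfl fun j _ => dH_congr ?_ _
  filter_upwards [h.eventuallyEq_nhds] with x hx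
  refine dA_congr ?_ _
  filter_upwards [hx] with w hw
  rw [hw]

theorem ddbar_zero (y : V) (u v : Fin 3 → V) : ddbar (fun _ _ _ _ _ => 0) y u v = 0 := by
  simp only [ddbar, dA_const, dH_const, Finset.sum_const_zero]

theorem ddbar_sum {ι : Type} (s : Finset ι) {W : ι → V → V → V → V → V → ℂ} {y : V}
    (h : ∀ i ∈ s, ∀ a b c d, ContDiffAt ℝ 2 (fun x => W i x a b c d) y) (u v : Fin 3 → V) :
    ddbar (fun x a b c d => ∑ i ∈ s, W i x a b c d) y u v = ∑ i ∈ s, ddbar (W i) y u v := by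
  simp only [ddbar]
  rw [Finset.sum_comm (s := s)]
  refine Finset.sum_congr rfl fun i _ => ?_
  rw [Finset.sum_comm (s := s)]
  refine Finset.sum_congr rfl fun j _ => ?_
  rw [← dH_sum s (fun k hk => (contDiffAt_dA (n := 1) (h k hk _ _ _ _)
    (by norm_num) _).differentiableAt (by simp))]
  refine dH_congr ?_ _
  have he : ∀ᶠ x in 𝓝 y, ∀ k ∈ s, ContDiffAt ℝ 2
      (fun x => W k x (u (i + 1)) (u (i + 2)) (v (j + 1)) (v (j + 2))) x :=
    (Finset.eventually_all s).2 fun k hk => (h k hk _ _ _ _).eventually (by simp)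
  filter_upwards [he] with x hx
  exact dA_sum s (fun k hk => (hx k hk).differentiableAt (by simp)) _

theorem continuousAt_ddbar {W : V → V → V → V → V → ℂ} {y : V}
    (h : ∀ a b c d, ContDiffAt ℝ 2 (fun x => W x a b c d) y) (u v : Fin 3 → V) :
    ContinuousAt (fun x => ddbar W x u v) y := by
  simp only [ddbar]
  refine tendsto_finsetSum _ fun i _ => tendsto_finsetSum _ fun j _ => ?_
  exact (contDiffAt_dH (n := 0) (contDiffAt_dA (n := 1) (h _ _ _ _) (by norm_num) _)
    (by norm_num) _).continuousAt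

end Pool.Agent.Lib.MP_823829_an
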